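import Pool.Agent.Lib.MP_35abc2_gt.Sys

/-! # A1: definition of the holomorphic fixed point (MP_35abc2_gt) -/

open scoped ContDiff Topology NNReal ComplexConjugate
open Set Filter Metric

noncomputable section

namespace Pool.Agent.RS

/-- `z` is the holomorphic solution on the disc of radius `X₀` of the fixed point equation
`z_j(X) = ∫₀¹ ¼ t^{λ_j/4-1} N_j(tX, z(tX)) dt`, bounded by `M`, commuting with complex conjugation. -/
structure IsTipFix {n : ℕ} (lam : Fin n → ℝ) (N : ℂ → (Fin n → ℂ) → (Fin n → ℂ)) (X₀ M : ℝ)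
    (z : ℂ → Fin n → ℂ) : Prop where
  cont : ContinuousOn z (closedBall 0 X₀)
  hol : DifferentiableOn ℂ z (ball 0 X₀)
  bd : ∀ X ∈ closedBall (0 : ℂ) X₀, ‖z X‖ ≤ M
  conj' : ∀ X ∈ closedBall (0 : ℂ) X₀, ∀ j, z (conj X) j = conj (z X j)
  fix : ∀ X ∈ closedBall (0 : ℂ) X₀, ∀ j,
    z X j = ∫ t in (0 : ℝ)..1, ((1 / 4 * t ^ (lam j / 4 - 1) : ℝ) : ℂ) * N (t * X) (z (t * X)) j

end Pool.Agent.RS
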