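import Pool.Agent.Lib.MP_35abc2_gt.A1_Defs

/-! # A1a: existence of the holomorphic solution (MP_35abc2_gt) -/

open scoped ContDiff Topology NNReal ComplexConjugate
open Set Filter Metric

noncomputable section

namespace Pool.Agent.RS

/-- the weight -/
def A1a_w (l : ℝ) (t : ℝ) : ℝ := 1 / 4 * t ^ (l / 4 - 1)

lemma A1a_w_nonneg (l : ℝ) {t : ℝ} (ht : t ∈ uIoc (0 : ℝ) 1) : 0 ≤ A1a_w l t := by
  rw [uIoc_of_le zero_le_one] at ht
  exact mul_nonneg (by norm_num) (Real.rpow_nonneg ht.1.le _)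

lemma A1a_w_int {l : ℝ} (hl : 0 < l) :
    IntervalIntegrable (A1a_w l) MeasureTheory.volume 0 1 :=
  (intervalIntegral.intervalIntegrable_rpow' (by linarith)).const_mul _

lemma A1a_w_integral {l : ℝ} (hl : 0 < l) : ∫ t in (0 : ℝ)..1, A1a_w l t = 1 / l := by
  unfold A1a_w
  rw [intervalIntegral.integral_const_mul, integral_rpow (Or.inl (by linarith))]
  rw [show l / 4 - 1 + 1 = l / 4 by ring, Real.one_rpow, Real.zero_rpow (by positivity)]
  field_simp
  ring

lemma A1a_smul_mem {X₀ : ℝ} {X : ℂ} (hX : X ∈ closedBall (0 : ℂ) X₀) {t : ℝ}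
    (ht : t ∈ Icc (0 : ℝ) 1) : (t : ℂ) * X ∈ closedBall (0 : ℂ) X₀ := by
  rw [mem_closedBall_zero_iff] at hX ⊢
  rw [norm_mul, Complex.norm_real, Real.norm_eq_abs, abs_of_nonneg ht.1]
  calc t * ‖X‖ ≤ 1 * ‖X‖ := mul_le_mul_of_nonneg_right ht.2 (norm_nonneg _)
    _ ≤ X₀ := by rw [one_mul]; exact hX

lemma A1a_smul_mem_ball {X₀ : ℝ} {X : ℂ} (hX : X ∈ ball (0 : ℂ) X₀) {t : ℝ}
    (ht : t ∈ Icc (0 : ℝ) 1) : (t : ℂ) * X ∈ ball (0 : ℂ) X₀ := by
  rw [mem_ball_zero_iff] at hX ⊢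
  rw [norm_mul, Complex.norm_real, Real.norm_eq_abs, abs_of_nonneg ht.1]
  calc t * ‖X‖ ≤ 1 * ‖X‖ := mul_le_mul_of_nonneg_right ht.2 (norm_nonneg _)
    _ < X₀ := by rw [one_mul]; exact hX

lemma A1a_uIoc_Icc {t : ℝ} (ht : t ∈ uIoc (0 : ℝ) 1) : t ∈ Icc (0 : ℝ) 1 := by
  rw [uIoc_of_le zero_le_one] at ht
  exact ⟨ht.1.le, ht.2⟩

/-- the integral operator -/
def A1a_I (l : ℝ) (h : ℂ → ℂ) (X : ℂ) : ℂ := ∫ t in (0 : ℝ)..1, (A1a_w l t : ℂ) * h (t * X)

section

variable {l : ℝ} (hl : 0 < l) {h h' : ℂ → ℂ} {X₀ C : ℝ} (hc : ContinuousOn h (closedBall 0 X₀))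

include hc in
lemma A1a_cont_t {X : ℂ} (hX : X ∈ closedBall (0 : ℂ) X₀) :
    ContinuousOn (fun t : ℝ => h (t * X)) (Icc (0 : ℝ) 1) := by
  refine hc.comp ?_ (fun t ht => A1a_smul_mem hX ht)
  exact (Continuous.mul Complex.continuous_ofReal continuous_const).continuousOn

include hl hc in
lemma A1a_int {X : ℂ} (hX : X ∈ closedBall (0 : ℂ) X₀) :
    IntervalIntegrable (fun t : ℝ => (A1a_w l t : ℂ) * h (t * X)) MeasureTheory.volume 0 1 := by
  refine IntervalIntegrable.mul_continuousOn ?_ ?_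
  · exact ⟨(A1a_w_int hl).1.ofReal, (A1a_w_int hl).2.ofReal⟩
  · rw [uIcc_of_le zero_le_one]
    exact A1a_cont_t hc hX

include hl in
lemma A1a_bd (hb : ∀ X ∈ closedBall (0 : ℂ) X₀, ‖h X‖ ≤ C) {X : ℂ}
    (hX : X ∈ closedBall (0 : ℂ) X₀) : ‖A1a_I l h X‖ ≤ C / l := by
  unfold A1a_I
  calc ‖∫ t in (0 : ℝ)..1, (A1a_w l t : ℂ) * h (t * X)‖
      ≤ ∫ t in (0 : ℝ)..1, A1a_w l t * C := by
        refine intervalIntegral.norm_integral_le_of_norm_le zero_le_one ?_
          ((A1a_w_int hl).mul_const C)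
        refine Eventually.of_forall fun t ht => ?_
        have ht' : t ∈ uIoc (0 : ℝ) 1 := by rwa [uIoc_of_le zero_le_one]
        rw [norm_mul, Complex.norm_real, Real.norm_eq_abs, abs_of_nonneg (A1a_w_nonneg l ht')]
        exact mul_le_mul_of_nonneg_left (hb _ (A1a_smul_mem hX (A1a_uIoc_Icc ht')))
          (A1a_w_nonneg l ht')
    _ = C / l := by
        rw [intervalIntegral.integral_mul_const, A1a_w_integral hl]
        ring

include hl hc in
lemma A1a_sub (hc' : ContinuousOn h' (closedBall 0 X₀))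
    (hb : ∀ X ∈ closedBall (0 : ℂ) X₀, ‖h X - h' X‖ ≤ C) {X : ℂ}
    (hX : X ∈ closedBall (0 : ℂ) X₀) : ‖A1a_I l h X - A1a_I l h' X‖ ≤ C / l := by
  have h1 : A1a_I l h X - A1a_I l h' X = A1a_I l (fun X => h X - h' X) X := by
    unfold A1a_I
    rw [← intervalIntegral.integral_sub (A1a_int hl hc hX) (A1a_int hl hc' hX)]
    refine intervalIntegral.integral_congr fun t _ => ?_
    simp only
    ring
  rw [h1]
  exact A1a_bd hl hb hX

include hl hc in
lemma A1a_cont (hb : ∀ X ∈ closedBall (0 : ℂ) X₀, ‖h X‖ ≤ C) :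
    ContinuousOn (A1a_I l h) (closedBall 0 X₀) := by
  intro X hX
  unfold A1a_I
  refine intervalIntegral.continuousWithinAt_of_dominated_interval
    (bound := fun t => A1a_w l t * C) ?_ ?_ ((A1a_w_int hl).mul_const C) ?_
  · filter_upwards [self_mem_nhdsWithin] with Y hY
    exact (intervalIntegrable_iff.1 (A1a_int hl hc hY)).aestronglyMeasurable
  · filter_upwards [self_mem_nhdsWithin] with Y hY
    refine Eventually.of_forall fun t ht => ?_
    rw [norm_mul, Complex.norm_real, Real.norm_eq_abs, abs_of_nonneg (A1a_w_nonneg l ht)]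
    exact mul_le_mul_of_nonneg_left (hb _ (A1a_smul_mem hY (A1a_uIoc_Icc ht)))
      (A1a_w_nonneg l ht)
  · refine Eventually.of_forall fun t ht => ?_
    refine ContinuousWithinAt.mul continuousWithinAt_const ?_
    exact (hc.comp (continuous_const.mul continuous_id).continuousOn
      (fun Y hY => A1a_smul_mem hY (A1a_uIoc_Icc ht))) X hX

include hl hc in
lemma A1a_diff (hd : DifferentiableOn ℂ h (ball 0 X₀))
    (hb : ∀ X ∈ closedBall (0 : ℂ) X₀, ‖h X‖ ≤ C) :
    DifferentiableOn ℂ (A1a_I l h) (ball 0 X₀) := by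
  intro X hX
  refine DifferentiableAt.differentiableWithinAt ?_
  have hX' : ‖X‖ < X₀ := by rwa [mem_ball_zero_iff] at hX
  -- room
  set r : ℝ := (X₀ - ‖X‖) / 3 with hr
  have hr0 : 0 < r := by rw [hr]; linarith
  have hC : 0 ≤ C := (norm_nonneg _).trans (hb 0 (mem_closedBall_self (by
    have := norm_nonneg X; linarith)))
  have hds : ∀ Y ∈ ball (0 : ℂ) X₀, HasDerivAt h (deriv h Y) Y := fun Y hY =>
    ((hd Y hY).differentiableAt (isOpen_ball.mem_nhds hY)).hasDerivAt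
  -- Cauchy estimate
  have hcau : ∀ Y : ℂ, ‖Y‖ ≤ X₀ - 2 * r → ‖deriv h Y‖ ≤ C / r := by
    intro Y hY
    refine Complex.norm_deriv_le_of_forall_mem_sphere_norm_le hr0 ?_ ?_
    · refine (DifferentiableOn.diffContOnCl ?_)
      rw [closure_ball _ hr0.ne']
      refine hd.mono fun Z hZ => ?_
      rw [mem_closedBall, dist_eq_norm] at hZ
      rw [mem_ball_zero_iff]
      calc ‖Z‖ = ‖(Z - Y) + Y‖ := by ring_nf
        _ ≤ ‖Z - Y‖ + ‖Y‖ := norm_add_le _ _
        _ < X₀ := by linarith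
    · intro Z hZ
      refine hb Z ?_
      rw [mem_sphere, dist_eq_norm] at hZ
      rw [mem_closedBall_zero_iff]
      calc ‖Z‖ = ‖(Z - Y) + Y‖ := by ring_nf
        _ ≤ ‖Z - Y‖ + ‖Y‖ := norm_add_le _ _
        _ ≤ X₀ := by linarith
  have hnear : ∀ Y ∈ ball X r, ‖Y‖ ≤ X₀ - 2 * r := by
    intro Y hY
    rw [mem_ball, dist_eq_norm] at hY
    calc ‖Y‖ = ‖(Y - X) + X‖ := by ring_nf
      _ ≤ ‖Y - X‖ + ‖X‖ := norm_add_le _ _
      _ ≤ X₀ - 2 * r := by rw [hr] at hY ⊢; linarith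
  have hscal : ∀ (Y : ℂ) (t : ℝ), t ∈ Icc (0 : ℝ) 1 → ‖(t : ℂ) * Y‖ ≤ ‖Y‖ := by
    intro Y t ht
    rw [norm_mul, Complex.norm_real, Real.norm_eq_abs, abs_of_nonneg ht.1]
    calc t * ‖Y‖ ≤ 1 * ‖Y‖ := mul_le_mul_of_nonneg_right ht.2 (norm_nonneg _)
      _ = ‖Y‖ := one_mul _
  have hmain := intervalIntegral.hasDerivAt_integral_of_dominated_loc_of_deriv_le
    (μ := MeasureTheory.volume) (a := 0) (b := 1)
    (F := fun (Y : ℂ) (t : ℝ) => (A1a_w l t : ℂ) * h (t * Y))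
    (F' := fun (Y : ℂ) (t : ℝ) => (A1a_w l t : ℂ) * (deriv h (t * Y) * t))
    (x₀ := X) (s := ball X r) (bound := fun t => A1a_w l t * (C / r))
    (ball_mem_nhds X hr0) ?_ ?_ ?_ ?_ ((A1a_w_int hl).mul_const _) ?_
  · exact hmain.2.differentiableAt
  · filter_upwards [isOpen_ball.mem_nhds hX] with Y hY
    exact (intervalIntegrable_iff.1 (A1a_int hl hc (ball_subset_closedBall hY))).aestronglyMeasurable
  · exact A1a_int hl hc (ball_subset_closedBall hX)
  · have h1 : IntervalIntegrable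
        (fun t : ℝ => (A1a_w l t : ℂ) * (deriv h (t * X) * t)) MeasureTheory.volume 0 1 := by
      refine IntervalIntegrable.mul_continuousOn
        ⟨(A1a_w_int hl).1.ofReal, (A1a_w_int hl).2.ofReal⟩ ?_
      rw [uIcc_of_le zero_le_one]
      refine ContinuousOn.mul ?_ Complex.continuous_ofReal.continuousOn
      have h2 : ContinuousOn (deriv h) (ball 0 X₀) := (hd.deriv isOpen_ball).continuousOn
      exact h2.comp (Complex.continuous_ofReal.mul continuous_const).continuousOn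
        (fun t ht => A1a_smul_mem_ball hX ht)
    exact (intervalIntegrable_iff.1 h1).aestronglyMeasurable
  · refine Eventually.of_forall fun t ht Y hY => ?_
    have ht' := A1a_uIoc_Icc ht
    rw [norm_mul, norm_mul, Complex.norm_real, Real.norm_eq_abs,
      abs_of_nonneg (A1a_w_nonneg l ht), Complex.norm_real, Real.norm_eq_abs, abs_of_nonneg ht'.1]
    refine mul_le_mul_of_nonneg_left ?_ (A1a_w_nonneg l ht)
    have h1 := hcau (t * Y) ((hscal Y t ht').trans (hnear Y hY))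
    calc ‖deriv h (t * Y)‖ * t ≤ C / r * 1 :=
          mul_le_mul h1 ht'.2 ht'.1 (by positivity)
      _ = C / r := mul_one _
  · refine Eventually.of_forall fun t ht Y hY => ?_
    have ht' := A1a_uIoc_Icc ht
    have hY' : (t : ℂ) * Y ∈ ball (0 : ℂ) X₀ := by
      rw [mem_ball_zero_iff]
      have h1 := (hscal Y t ht').trans (hnear Y hY)
      linarith
    refine HasDerivAt.const_mul _ ?_
    have h1 : HasDerivAt (fun Y : ℂ => (t : ℂ) * Y) (t : ℂ) Y := by
      simpa using (hasDerivAt_id Y).const_mul (t : ℂ)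
    exact (hds _ hY').comp Y h1

end

/-- the conditions which are preserved -/
structure A1a_Good {n : ℕ} (X₀ M : ℝ) (z : ℂ → Fin n → ℂ) : Prop where
  cont : ContinuousOn z (closedBall 0 X₀)
  hol : DifferentiableOn ℂ z (ball 0 X₀)
  bd : ∀ X ∈ closedBall (0 : ℂ) X₀, ‖z X‖ ≤ M
  conj' : ∀ X ∈ closedBall (0 : ℂ) X₀, ∀ j, z (conj X) j = conj (z X j)

/-- the operator -/
def A1a_T {n : ℕ} (lam : Fin n → ℝ) (N : ℂ → (Fin n → ℂ) → (Fin n → ℂ)) (z : ℂ → Fin n → ℂ)
    (X : ℂ) : Fin n → ℂ := fun j => A1a_I (lam j) (fun X => N X (z X) j) X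

section

variable {n : ℕ} {lam : Fin n → ℝ} (hlam : ∀ j, 0 < lam j)
    {N : ℂ → (Fin n → ℂ) → (Fin n → ℂ)} {X₀ M θ : ℝ} (hM : 0 < M) (hθ0 : 0 ≤ θ)
    {U : Set (ℂ × (Fin n → ℂ))}
    (hsub : closedBall (0 : ℂ) X₀ ×ˢ closedBall (0 : Fin n → ℂ) M ⊆ U)
    (hN : DifferentiableOn ℂ (fun p : ℂ × (Fin n → ℂ) => N p.1 p.2) U)

include hsub hN in
lemma A1a_cN {z : ℂ → Fin n → ℂ} (hz : A1a_Good X₀ M z) (j : Fin n) :
    ContinuousOn (fun X => N X (z X) j) (closedBall 0 X₀) := by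
  have h1 : ContinuousOn (fun X => N X (z X)) (closedBall 0 X₀) := by
    refine hN.continuousOn.comp (f := fun X => (X, z X)) (continuousOn_id.prodMk hz.cont) ?_
    intro X hX
    exact hsub ⟨hX, mem_closedBall_zero_iff.2 (hz.bd X hX)⟩
  exact (continuous_apply j).comp_continuousOn h1

include hsub hN in
lemma A1a_dN (hU : IsOpen U) {z : ℂ → Fin n → ℂ} (hz : A1a_Good X₀ M z) (j : Fin n) :
    DifferentiableOn ℂ (fun X => N X (z X) j) (ball 0 X₀) := by
  have h1 : DifferentiableOn ℂ (fun X => N X (z X)) (ball 0 X₀) := by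
    intro X hX
    have hX' : (X, z X) ∈ U :=
      hsub ⟨ball_subset_closedBall hX, mem_closedBall_zero_iff.2 (hz.bd X (ball_subset_closedBall hX))⟩
    have h2 := (hN (X, z X) hX').differentiableAt (hU.mem_nhds hX')
    have h3 : DifferentiableWithinAt ℂ (fun X => (X, z X)) (ball 0 X₀) X :=
      differentiableWithinAt_id.prodMk (hz.hol X hX)
    exact h2.comp_differentiableWithinAt X h3
  exact fun X hX => (differentiableWithinAt_pi.1 (h1 X hX)) j

include hlam hM hsub hN in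
lemma A1a_T_good (hU : IsOpen U)
    (hb : ∀ X ∈ closedBall (0 : ℂ) X₀, ∀ z ∈ closedBall (0 : Fin n → ℂ) M, ∀ j,
      ‖N X z j‖ ≤ lam j * M)
    (hconj : ∀ X z j, N (conj X) (fun i => conj (z i)) j = conj (N X z j))
    {z : ℂ → Fin n → ℂ} (hz : A1a_Good X₀ M z) : A1a_Good X₀ M (A1a_T lam N z) := by
  have hb' : ∀ j, ∀ X ∈ closedBall (0 : ℂ) X₀, ‖N X (z X) j‖ ≤ lam j * M := fun j X hX =>
    hb X hX (z X) (mem_closedBall_zero_iff.2 (hz.bd X hX)) j
  refine ⟨?_, ?_, ?_, ?_⟩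
  · rw [continuousOn_pi]
    exact fun j => A1a_cont (hlam j) (A1a_cN hsub hN hz j) (hb' j)
  · rw [differentiableOn_pi]
    exact fun j => A1a_diff (hlam j) (A1a_cN hsub hN hz j) (A1a_dN hsub hN hU hz j) (hb' j)
  · intro X hX
    rw [pi_norm_le_iff_of_nonneg hM.le]
    intro j
    refine (A1a_bd (hlam j) (hb' j) hX).trans_eq ?_
    rw [mul_div_assoc, mul_comm, div_mul_cancel₀ _ (hlam j).ne']
  · intro X hX j
    unfold A1a_T A1a_I
    simp only [intervalIntegral.integral_of_le zero_le_one]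
    rw [← integral_conj]
    refine MeasureTheory.integral_congr_ae ?_
    refine (MeasureTheory.ae_restrict_iff' measurableSet_Ioc).2 (Eventually.of_forall fun t ht => ?_)
    have ht' : t ∈ Icc (0 : ℝ) 1 := ⟨ht.1.le, ht.2⟩
    have h1 : (t : ℂ) * conj X = conj ((t : ℂ) * X) := by
      rw [map_mul, Complex.conj_ofReal]
    have h2 : z (conj ((t : ℂ) * X)) = fun i => conj (z ((t : ℂ) * X) i) := by
      funext i
      exact hz.conj' _ (A1a_smul_mem hX ht') i
    change (A1a_w (lam j) t : ℂ) * N (t * conj X) (z (t * conj X)) j =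
      conj ((A1a_w (lam j) t : ℂ) * N (t * X) (z (t * X)) j)
    rw [h1, h2, hconj, map_mul, Complex.conj_ofReal]

include hlam hθ0 hsub hN in
lemma A1a_T_lip
    (hl : ∀ X ∈ closedBall (0 : ℂ) X₀, ∀ z ∈ closedBall (0 : Fin n → ℂ) M,
      ∀ z' ∈ closedBall (0 : Fin n → ℂ) M, ∀ j, ‖N X z j - N X z' j‖ ≤ θ * lam j * ‖z - z'‖)
    {z z' : ℂ → Fin n → ℂ} (hz : A1a_Good X₀ M z) (hz' : A1a_Good X₀ M z') {D : ℝ} (hD : 0 ≤ D)
    (h : ∀ X ∈ closedBall (0 : ℂ) X₀, ‖z X - z' X‖ ≤ D) :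
    ∀ X ∈ closedBall (0 : ℂ) X₀, ‖A1a_T lam N z X - A1a_T lam N z' X‖ ≤ θ * D := by
  intro X hX
  rw [pi_norm_le_iff_of_nonneg (by positivity)]
  intro j
  have h1 := A1a_sub (C := θ * lam j * D) (hlam j) (A1a_cN hsub hN hz j)
    (A1a_cN hsub hN hz' j) (fun Y hY => ?_) hX
  · refine h1.trans_eq ?_
    have := (hlam j).ne'
    field_simp
  · refine (hl Y hY (z Y) (mem_closedBall_zero_iff.2 (hz.bd Y hY)) (z' Y)
      (mem_closedBall_zero_iff.2 (hz'.bd Y hY)) j).trans ?_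
    exact mul_le_mul_of_nonneg_left (h Y hY) (mul_nonneg hθ0 (hlam j).le)

end

/-- A1a. Existence, by the contraction principle.

PROOF. On the set of `z` satisfying all conditions of `IsTipFix` except `fix` (a closed, nonempty subset of the Banach space of
bounded continuous functions on the closed disc, e.g. `C(closedBall 0 X₀, Fin n → ℂ)`; closed because locally uniform limits of
holomorphic functions are holomorphic, `TendstoLocallyUniformlyOn.differentiableOn`) let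
`(T z)_j(X) = ∫₀¹ ¼ t^{λ_j/4-1} N_j(tX, z(tX)) dt`.  Since `∫₀¹ ¼ t^{λ/4-1} dt = 1/λ`, `hb` gives `‖T z‖ ≤ M` and `hl` gives
`‖T z - T z'‖ ≤ θ ‖z - z'‖`.  Holomorphy of `T z`: differentiation under the integral sign
(`hasDerivAt_integral_of_dominated_loc_of_deriv_le` or `intervalIntegral.hasDerivAt_integral_of_dominated_loc_of_deriv_le`),
or as a locally uniform limit of the integrals over `[1/m, 1]`. Conjugation: `hconj` and
`intervalIntegral`/`integral_conj`. -/
theorem tip_fix_exists {n : ℕ} (lam : Fin n → ℝ) (hlam : ∀ j, 0 < lam j)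
    (N : ℂ → (Fin n → ℂ) → (Fin n → ℂ)) (X₀ M θ : ℝ) (hX : 0 < X₀) (hM : 0 < M) (hθ0 : 0 ≤ θ)
    (hθ1 : θ < 1) (U : Set (ℂ × (Fin n → ℂ))) (hU : IsOpen U)
    (hsub : closedBall (0 : ℂ) X₀ ×ˢ closedBall (0 : Fin n → ℂ) M ⊆ U)
    (hN : DifferentiableOn ℂ (fun p : ℂ × (Fin n → ℂ) => N p.1 p.2) U)
    (hb : ∀ X ∈ closedBall (0 : ℂ) X₀, ∀ z ∈ closedBall (0 : Fin n → ℂ) M, ∀ j, ‖N X z j‖ ≤ lam j * M)
    (hl : ∀ X ∈ closedBall (0 : ℂ) X₀, ∀ z ∈ closedBall (0 : Fin n → ℂ) M,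
      ∀ z' ∈ closedBall (0 : Fin n → ℂ) M, ∀ j, ‖N X z j - N X z' j‖ ≤ θ * lam j * ‖z - z'‖)
    (hconj : ∀ X z j, N (conj X) (fun i => conj (z i)) j = conj (N X z j)) :
    ∃ z, IsTipFix lam N X₀ M z := by
  -- Picard iteration
  let zs : ℕ → ℂ → Fin n → ℂ := fun k => (A1a_T lam N)^[k] (fun _ => 0)
  have hz0 : A1a_Good (n := n) X₀ M (fun _ => 0) := by
    refine ⟨continuousOn_const, differentiableOn_const _, fun X _ => ?_, fun X _ j => ?_⟩
    · simpa using hM.le
    · simp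
  have hsucc : ∀ k, zs (k + 1) = A1a_T lam N (zs k) := fun k => by
    simp only [zs, Function.iterate_succ_apply']
  have hgood : ∀ k, A1a_Good X₀ M (zs k) := by
    intro k
    induction k with
    | zero => exact hz0
    | succ k ih => rw [hsucc]; exact A1a_T_good hlam hM hsub hN hU hb hconj ih
  have hstep : ∀ k, ∀ X ∈ closedBall (0 : ℂ) X₀, ‖zs k X - zs (k + 1) X‖ ≤ M * θ ^ k := by
    intro k
    induction k with
    | zero =>
      intro X hX
      have h1 : zs 0 X = 0 := rfl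
      rw [h1, zero_sub, norm_neg, pow_zero, mul_one]
      exact (hgood 1).bd X hX
    | succ k ih =>
      intro X hX
      have h1 := A1a_T_lip hlam hθ0 hsub hN hl (hgood k) (hgood (k + 1)) (by positivity) ih X hX
      rw [← hsucc, ← hsucc] at h1
      calc _ ≤ _ := h1
        _ = M * θ ^ (k + 1) := by ring
  have hcs : ∀ X ∈ closedBall (0 : ℂ) X₀, CauchySeq fun k => zs k X := by
    intro X hX
    refine cauchySeq_of_le_geometric θ M hθ1 fun k => ?_
    rw [dist_eq_norm]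
    exact hstep k X hX
  have hlim : ∀ X, ∃ a, X ∈ closedBall (0 : ℂ) X₀ → Tendsto (fun k => zs k X) atTop (𝓝 a) := by
    intro X
    by_cases hX : X ∈ closedBall (0 : ℂ) X₀
    · obtain ⟨a, ha⟩ := cauchySeq_tendsto_of_complete (hcs X hX)
      exact ⟨a, fun _ => ha⟩
    · exact ⟨0, fun h => absurd h hX⟩
  choose z hz using hlim
  have hdist : ∀ k, ∀ X ∈ closedBall (0 : ℂ) X₀, ‖zs k X - z X‖ ≤ M * θ ^ k / (1 - θ) := by
    intro k X hX
    rw [← dist_eq_norm]
    exact dist_le_of_le_geometric_of_tendsto θ M hθ1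
      (fun m => by rw [dist_eq_norm]; exact hstep m X hX) (hz X hX) k
  have hsmall : Tendsto (fun k : ℕ => M * θ ^ k / (1 - θ)) atTop (𝓝 0) := by
    have h1 := (tendsto_pow_atTop_nhds_zero_of_lt_one hθ0 hθ1).const_mul M
    have h2 := h1.div_const (1 - θ)
    simpa using h2
  have hunif : TendstoUniformlyOn zs z atTop (closedBall (0 : ℂ) X₀) := by
    rw [Metric.tendstoUniformlyOn_iff]
    intro ε hε
    filter_upwards [hsmall.eventually (gt_mem_nhds hε)] with k hk X hX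
    rw [dist_comm, dist_eq_norm]
    exact (hdist k X hX).trans_lt hk
  have hZ : A1a_Good X₀ M z := by
    refine ⟨?_, ?_, ?_, ?_⟩
    · exact hunif.continuousOn (Frequently.of_forall fun k => (hgood k).cont)
    · have h1 : TendstoLocallyUniformlyOn zs z atTop (ball (0 : ℂ) X₀) :=
        (hunif.mono ball_subset_closedBall).tendstoLocallyUniformlyOn
      exact h1.differentiableOn (Eventually.of_forall fun k => (hgood k).hol) isOpen_ball
    · intro X hX
      exact le_of_tendsto (hz X hX).norm (Eventually.of_forall fun k => (hgood k).bd X hX)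
    · intro X hX j
      have hX' : conj X ∈ closedBall (0 : ℂ) X₀ := by
        rw [mem_closedBall_zero_iff] at hX ⊢
        rwa [Complex.norm_conj]
      have h1 := tendsto_pi_nhds.1 (hz _ hX') j
      have h2 := (Complex.continuous_conj.tendsto _).comp (tendsto_pi_nhds.1 (hz X hX) j)
      refine tendsto_nhds_unique h1 (h2.congr fun k => ?_)
      exact ((hgood k).conj' X hX j).symm
  refine ⟨z, hZ.cont, hZ.hol, hZ.bd, hZ.conj', fun X hX j => ?_⟩
  have hfix : z X = A1a_T lam N z X := by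
    have h1 : Tendsto (fun k => zs (k + 1) X) atTop (𝓝 (A1a_T lam N z X)) := by
      rw [tendsto_iff_norm_sub_tendsto_zero]
      have h2 : Tendsto (fun k : ℕ => θ * (M * θ ^ k / (1 - θ))) atTop (𝓝 0) := by
        simpa using hsmall.const_mul θ
      refine squeeze_zero (fun _ => norm_nonneg _) (fun k => ?_) h2
      rw [hsucc]
      have h3 : 0 ≤ M * θ ^ k / (1 - θ) := by
        have : 0 < 1 - θ := by linarith
        positivity
      exact A1a_T_lip hlam hθ0 hsub hN hl (hgood k) hZ h3 (hdist k) X hX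
    exact tendsto_nhds_unique ((tendsto_add_atTop_iff_nat 1).2 (hz X hX)) h1
  rw [congrFun hfix j]
  rfl

end Pool.Agent.RS
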