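import Pool.Agent.Lib.MP_35abc2_gt.A1_Defs

/-! # A1b: comparison of two fixed points (MP_35abc2_gt) -/

open scoped ContDiff Topology NNReal ComplexConjugate
open Set Filter Metric

noncomputable section

namespace Pool.Agent.RS

theorem a1b_kernel (l : ℝ) (hl : 0 < l) :
    IntervalIntegrable (fun t : ℝ => 1 / 4 * t ^ (l / 4 - 1)) MeasureTheory.volume 0 1 ∧
      ∫ t in (0 : ℝ)..1, 1 / 4 * t ^ (l / 4 - 1) = 1 / l := by
  constructor
  · exact (intervalIntegral.intervalIntegrable_rpow' (by linarith)).const_mul _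
  · rw [intervalIntegral.integral_const_mul, integral_rpow (Or.inl (by linarith))]
    rw [show l / 4 - 1 + 1 = l / 4 by ring, Real.one_rpow, Real.zero_rpow (by positivity)]
    field_simp
    norm_num

theorem a1b_int {n : ℕ} (l : ℝ) (hl : 0 < l) (N : ℂ → (Fin n → ℂ) → (Fin n → ℂ)) (X₀ M : ℝ)
    (hNc : ContinuousOn (fun p : ℂ × (Fin n → ℂ) => N p.1 p.2)
      (closedBall (0 : ℂ) X₀ ×ˢ closedBall (0 : Fin n → ℂ) M))
    (z : ℂ → Fin n → ℂ) (hc : ContinuousOn z (closedBall 0 X₀))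
    (hb : ∀ X ∈ closedBall (0 : ℂ) X₀, ‖z X‖ ≤ M) (X : ℂ) (hX : X ∈ closedBall (0 : ℂ) X₀)
    (j : Fin n) :
    IntervalIntegrable (fun t : ℝ => ((1 / 4 * t ^ (l / 4 - 1) : ℝ) : ℂ) * N (t * X) (z (t * X)) j)
      MeasureTheory.volume 0 1 := by
  have hk := (a1b_kernel l hl).1
  have hk' : IntervalIntegrable (fun t : ℝ => ((1 / 4 * t ^ (l / 4 - 1) : ℝ) : ℂ))
      MeasureTheory.volume 0 1 := ⟨hk.1.ofReal, hk.2.ofReal⟩
  refine hk'.mul_continuousOn ?_
  rw [uIcc_of_le zero_le_one]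
  have hmem : ∀ t ∈ Icc (0 : ℝ) 1, (t : ℂ) * X ∈ closedBall (0 : ℂ) X₀ := by
    intro t ht
    rw [mem_closedBall_zero_iff] at hX ⊢
    rw [norm_mul, Complex.norm_real, Real.norm_eq_abs, abs_of_nonneg ht.1]
    calc t * ‖X‖ ≤ 1 * ‖X‖ := by gcongr; exact ht.2
      _ ≤ X₀ := by linarith
  have h1 : ContinuousOn (fun t : ℝ => (t : ℂ) * X) (Icc 0 1) :=
    (Complex.continuous_ofReal.mul continuous_const).continuousOn
  have h2 : ContinuousOn (fun t : ℝ => z ((t : ℂ) * X)) (Icc 0 1) := hc.comp h1 hmem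
  have h3 : ContinuousOn (fun t : ℝ => N ((t : ℂ) * X) (z ((t : ℂ) * X))) (Icc 0 1) :=
    hNc.comp (h1.prodMk h2) (fun t ht => ⟨hmem t ht, by
      rw [mem_closedBall_zero_iff]; exact hb _ (hmem t ht)⟩)
  exact (continuous_apply j).comp_continuousOn h3

/-- A1b. Comparison of two fixed points (for two nonlinearities).

PROOF. `S := sup ‖z X - z' X‖` over the closed disc (finite, ≤ 2M). From the two fixed point equations
`‖z X j - z' X j‖ ≤ ∫₀¹ ¼ t^{λ_j/4-1} (θ λ_j S + ε λ_j) dt = θ S + ε`, so `S ≤ θ S + ε`. -/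
theorem tip_fix_compare {n : ℕ} (lam : Fin n → ℝ) (hlam : ∀ j, 0 < lam j)
    (N N' : ℂ → (Fin n → ℂ) → (Fin n → ℂ)) (X₀ M θ ε : ℝ) (hX : 0 < X₀) (hM : 0 < M) (hθ0 : 0 ≤ θ)
    (hθ1 : θ < 1) (hε : 0 ≤ ε)
    (hNc : ContinuousOn (fun p : ℂ × (Fin n → ℂ) => N p.1 p.2)
      (closedBall (0 : ℂ) X₀ ×ˢ closedBall (0 : Fin n → ℂ) M))
    (hNc' : ContinuousOn (fun p : ℂ × (Fin n → ℂ) => N' p.1 p.2)
      (closedBall (0 : ℂ) X₀ ×ˢ closedBall (0 : Fin n → ℂ) M))
    (hl : ∀ X ∈ closedBall (0 : ℂ) X₀, ∀ z ∈ closedBall (0 : Fin n → ℂ) M,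
      ∀ z' ∈ closedBall (0 : Fin n → ℂ) M, ∀ j, ‖N X z j - N X z' j‖ ≤ θ * lam j * ‖z - z'‖)
    (hNN : ∀ X ∈ closedBall (0 : ℂ) X₀, ∀ z ∈ closedBall (0 : Fin n → ℂ) M, ∀ j,
      ‖N X z j - N' X z j‖ ≤ ε * lam j)
    (z z' : ℂ → Fin n → ℂ) (hz : IsTipFix lam N X₀ M z) (hz' : IsTipFix lam N' X₀ M z') :
    ∀ X ∈ closedBall (0 : ℂ) X₀, ‖z X - z' X‖ ≤ ε / (1 - θ) := by
  have hne : (closedBall (0 : ℂ) X₀).Nonempty := ⟨0, mem_closedBall_self hX.le⟩
  obtain ⟨X₁, hX₁, hmax⟩ := (isCompact_closedBall (0 : ℂ) X₀).exists_isMaxOn hne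
    ((hz.cont.sub hz'.cont).norm)
  set D := ‖z X₁ - z' X₁‖ with hD
  have hD0 : 0 ≤ D := norm_nonneg _
  have hDX : ∀ X ∈ closedBall (0 : ℂ) X₀, ‖z X - z' X‖ ≤ D := fun X hX => hmax hX
  have key : ∀ X ∈ closedBall (0 : ℂ) X₀, ‖z X - z' X‖ ≤ θ * D + ε := by
    intro X hXm
    rw [pi_norm_le_iff_of_nonneg (by positivity)]
    intro j
    have hi1 := a1b_int (lam j) (hlam j) N X₀ M hNc z hz.cont hz.bd X hXm j
    have hi2 := a1b_int (lam j) (hlam j) N' X₀ M hNc' z' hz'.cont hz'.bd X hXm j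
    rw [Pi.sub_apply, hz.fix X hXm j, hz'.fix X hXm j, ← intervalIntegral.integral_sub hi1 hi2]
    have hk := a1b_kernel (lam j) (hlam j)
    have hbound : ‖∫ t in (0 : ℝ)..1, (((1 / 4 * t ^ (lam j / 4 - 1) : ℝ) : ℂ)
        * N (t * X) (z (t * X)) j - ((1 / 4 * t ^ (lam j / 4 - 1) : ℝ) : ℂ)
        * N' (t * X) (z' (t * X)) j)‖ ≤
        ∫ t in (0 : ℝ)..1, (1 / 4 * t ^ (lam j / 4 - 1)) * ((θ * D + ε) * lam j) := by
      refine intervalIntegral.norm_integral_le_of_norm_le zero_le_one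
        (Filter.Eventually.of_forall fun t ht => ?_) (hk.1.mul_const _)
      rw [← mul_sub, norm_mul, Complex.norm_real, Real.norm_eq_abs]
      have ht0 : 0 ≤ t := ht.1.le
      have hkt : 0 ≤ 1 / 4 * t ^ (lam j / 4 - 1) := by positivity
      rw [abs_of_nonneg hkt]
      have hmem : (t : ℂ) * X ∈ closedBall (0 : ℂ) X₀ := by
        rw [mem_closedBall_zero_iff] at hXm ⊢
        rw [norm_mul, Complex.norm_real, Real.norm_eq_abs, abs_of_nonneg ht0]
        calc t * ‖X‖ ≤ 1 * ‖X‖ := by gcongr; exact ht.2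
          _ ≤ X₀ := by linarith
      have hzb : z (t * X) ∈ closedBall (0 : Fin n → ℂ) M := by
        rw [mem_closedBall_zero_iff]; exact hz.bd _ hmem
      have hzb' : z' (t * X) ∈ closedBall (0 : Fin n → ℂ) M := by
        rw [mem_closedBall_zero_iff]; exact hz'.bd _ hmem
      have e1 := hl _ hmem _ hzb _ hzb' j
      have e2 := hNN _ hmem _ hzb' j
      have e3 := hDX _ hmem
      have e4 : ‖N (t * X) (z (t * X)) j - N' (t * X) (z' (t * X)) j‖ ≤ (θ * D + ε) * lam j := by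
        calc ‖N (t * X) (z (t * X)) j - N' (t * X) (z' (t * X)) j‖
            = ‖(N (t * X) (z (t * X)) j - N (t * X) (z' (t * X)) j)
              + (N (t * X) (z' (t * X)) j - N' (t * X) (z' (t * X)) j)‖ := by
                congr 1; ring
          _ ≤ ‖N (t * X) (z (t * X)) j - N (t * X) (z' (t * X)) j‖
              + ‖N (t * X) (z' (t * X)) j - N' (t * X) (z' (t * X)) j‖ := norm_add_le _ _
          _ ≤ θ * lam j * ‖z (t * X) - z' (t * X)‖ + ε * lam j := add_le_add e1 e2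
          _ ≤ θ * lam j * D + ε * lam j := by
              have := hlam j
              gcongr
          _ = (θ * D + ε) * lam j := by ring
      exact mul_le_mul_of_nonneg_left e4 hkt
    refine hbound.trans (le_of_eq ?_)
    rw [intervalIntegral.integral_mul_const, hk.2]
    have := (hlam j).ne'
    field_simp
  have hDle : D ≤ θ * D + ε := key X₁ hX₁
  have h1θ : 0 < 1 - θ := by linarith
  have hDfin : D ≤ ε / (1 - θ) := by
    rw [le_div_iff₀ h1θ]
    linarith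
  intro X hXm
  exact (hDX X hXm).trans hDfin

end Pool.Agent.RS
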