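import Pool.Agent.Lib.MP_35abc2_gt.A1_Defs

/-! # A2: the fixed point solves the ODE; real form (MP_35abc2_gt) -/

open scoped ContDiff Topology NNReal ComplexConjugate
open Set Filter Metric

noncomputable section

namespace Pool.Agent.RS

/-- substitution `r = t x` -/
lemma A2_subst (a : ℝ) (G : ℝ → ℂ) (x : ℝ) (hx : 0 < x) :
    ((x ^ a : ℝ) : ℂ) * ∫ t in (0 : ℝ)..1, ((1 / 4 * t ^ (a - 1) : ℝ) : ℂ) * G (t * x)
      = ∫ r in (0 : ℝ)..x, ((1 / 4 * r ^ (a - 1) : ℝ) : ℂ) * G r := by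
  have h1 := intervalIntegral.smul_integral_comp_mul_right (a := 0) (b := 1)
    (fun r : ℝ => ((1 / 4 * r ^ (a - 1) : ℝ) : ℂ) * G r) x
  rw [zero_mul, one_mul] at h1
  rw [← h1, Complex.real_smul]
  have h2 : (∫ t in (0 : ℝ)..1, ((1 / 4 * (t * x) ^ (a - 1) : ℝ) : ℂ) * G (t * x))
      = ((x ^ (a - 1) : ℝ) : ℂ) *
        ∫ t in (0 : ℝ)..1, ((1 / 4 * t ^ (a - 1) : ℝ) : ℂ) * G (t * x) := by
    rw [← intervalIntegral.integral_const_mul]
    refine intervalIntegral.integral_congr fun t ht => ?_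
    rw [uIcc_of_le zero_le_one] at ht
    rw [Real.mul_rpow ht.1 hx.le]
    push_cast
    ring
  rw [h2, ← mul_assoc]
  congr 1
  rw [← Complex.ofReal_mul]
  congr 1
  rw [Real.rpow_sub_one hx.ne']
  field_simp

/-- the differential equation on the positive side -/
lemma A2_ode (a : ℝ) (ha : 0 < a) (X₀ : ℝ) (F G : ℝ → ℂ) (hG : ContinuousOn G (Ico 0 X₀))
    (hF : ∀ x ∈ Ioo 0 X₀, F x = ∫ t in (0 : ℝ)..1, ((1 / 4 * t ^ (a - 1) : ℝ) : ℂ) * G (t * x))
    (x : ℝ) (hx : x ∈ Ioo 0 X₀) (F' : ℂ) (hF' : HasDerivAt F F' x) :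
    4 * (x : ℂ) * F' + 4 * (a : ℂ) * F x = G x := by
  have hx0 : 0 < x := hx.1
  set f : ℝ → ℂ := fun r => ((1 / 4 * r ^ (a - 1) : ℝ) : ℂ) * G r with hf
  have hfc : ContinuousOn f (Ioo 0 X₀) := by
    have h1 : ContinuousOn (fun r : ℝ => 1 / 4 * r ^ (a - 1)) (Ioo 0 X₀) := by
      refine continuousOn_const.mul ?_
      exact fun r hr => (Real.continuousAt_rpow_const r (a - 1) (Or.inl hr.1.ne')).continuousWithinAt
    exact (Complex.continuous_ofReal.comp_continuousOn h1).mul (hG.mono Ioo_subset_Ico_self)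
  have hint : IntervalIntegrable f MeasureTheory.volume 0 x := by
    have h1 : IntervalIntegrable (fun r : ℝ => 1 / 4 * r ^ (a - 1)) MeasureTheory.volume 0 x :=
      (intervalIntegral.intervalIntegrable_rpow' (by linarith)).const_mul _
    have h2 : IntervalIntegrable (fun r : ℝ => ((1 / 4 * r ^ (a - 1) : ℝ) : ℂ))
        MeasureTheory.volume 0 x := by
      rw [intervalIntegrable_iff] at h1 ⊢
      exact h1.ofReal
    refine h2.mul_continuousOn ?_
    rw [uIcc_of_le hx0.le]
    exact hG.mono fun r hr => ⟨hr.1, hr.2.trans_lt hx.2⟩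
  have h1 : HasDerivAt (fun y => ∫ r in (0 : ℝ)..y, f r) (f x) x := by
    refine intervalIntegral.integral_hasDerivAt_right hint ?_
      (hfc.continuousAt (Ioo_mem_nhds hx.1 hx.2))
    exact hfc.stronglyMeasurableAtFilter isOpen_Ioo x hx
  have h2 : HasDerivAt (fun y : ℝ => ((y ^ a : ℝ) : ℂ) * F y)
      (((a * x ^ (a - 1) : ℝ) : ℂ) * F x + ((x ^ a : ℝ) : ℂ) * F') x := by
    have h3 : HasDerivAt (fun y : ℝ => ((y ^ a : ℝ) : ℂ)) ((a * x ^ (a - 1) : ℝ) : ℂ) x :=
      (Real.hasDerivAt_rpow_const (Or.inl hx0.ne')).ofReal_comp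
    exact h3.mul hF'
  have h3 : (fun y : ℝ => ((y ^ a : ℝ) : ℂ) * F y) =ᶠ[𝓝 x] fun y => ∫ r in (0 : ℝ)..y, f r := by
    filter_upwards [Ioo_mem_nhds hx.1 hx.2] with y hy
    rw [hF y hy]
    exact A2_subst a G y hy.1
  have h4 := (h1.congr_of_eventuallyEq h3).unique h2
  have h5 : (x : ℝ) ^ a = x * x ^ (a - 1) := by
    rw [Real.rpow_sub_one hx0.ne']
    field_simp
  have h6 : ((x ^ (a - 1) : ℝ) : ℂ) ≠ 0 := by
    exact_mod_cast (Real.rpow_pos_of_pos hx0 _).ne'
  rw [hf] at h4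
  simp only at h4
  rw [h5] at h4
  push_cast at h4 ⊢
  have h7 : ((x ^ (a - 1) : ℝ) : ℂ) * (4 * (x : ℂ) * F' + 4 * (a : ℂ) * F x - G x) = 0 := by
    linear_combination (-4) * h4
  rcases mul_eq_zero.1 h7 with h8 | h8
  · exact absurd h8 h6
  · exact sub_eq_zero.1 h8

/-- A2. The fixed point satisfies `4 X z_j' + λ_j z_j = N_j(X, z)` on the open disc; its real restriction is smooth and real.

PROOF. Let `h t = N_j(tX, z(tX))`; it is differentiable in `t ∈ [0,1]` for `|X| < X₀` (chain rule) and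
`X (d/dX) [N_j(tX,z(tX))] = t h'(t)`.  So `X z_j'(X) = ∫₀¹ ¼ t^{λ/4-1} t h'(t) dt = ¼ h(1) - ∫₀¹ (λ/16) t^{λ/4-1} h(t) dt
= ¼ N_j(X,z(X)) - (λ_j/4) z_j(X)` (integration by parts).  Alternatively, for `X ≠ 0` substitute `r = t|X|`.
For real `x`, `z_j(x)` is real by `conj'`.  `x ↦ Re z_j(x)` is `C^∞` on `(-X₀,X₀)` since `z_j` is holomorphic
(`DifferentiableOn.contDiffOn`, restrict scalars, compose with `Complex.ofRealCLM` and `Complex.reCLM`), with derivative
`Re z_j'(x)`. -/
theorem tip_fix_ode {n : ℕ} (lam : Fin n → ℝ) (hlam : ∀ j, 0 < lam j)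
    (N : ℂ → (Fin n → ℂ) → (Fin n → ℂ)) (X₀ M : ℝ) (hX : 0 < X₀) (hM : 0 < M)
    (U : Set (ℂ × (Fin n → ℂ))) (hU : IsOpen U)
    (hsub : closedBall (0 : ℂ) X₀ ×ˢ closedBall (0 : Fin n → ℂ) M ⊆ U)
    (hN : DifferentiableOn ℂ (fun p : ℂ × (Fin n → ℂ) => N p.1 p.2) U)
    (z : ℂ → Fin n → ℂ) (hz : IsTipFix lam N X₀ M z) :
    (∀ x ∈ Ioo (-X₀) X₀, ∀ j, ((z (x : ℂ) j).re : ℂ) = z (x : ℂ) j) ∧
    (∀ j, ContDiffOn ℝ ∞ (fun x : ℝ => (z (x : ℂ) j).re) (Ioo (-X₀) X₀)) ∧
    (∀ x ∈ Ioo (-X₀) X₀, ∀ j, 4 * x * deriv (fun x : ℝ => (z (x : ℂ) j).re) x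
      + lam j * (z (x : ℂ) j).re = (N x (z x) j).re) := by
  have hball : ∀ x ∈ Ioo (-X₀) X₀, (x : ℂ) ∈ ball (0 : ℂ) X₀ := by
    intro x hx
    rw [mem_ball_zero_iff, Complex.norm_real, Real.norm_eq_abs, abs_lt]
    exact hx
  have hholj : ∀ j, DifferentiableOn ℂ (fun X => z X j) (ball 0 X₀) := fun j =>
    differentiableOn_pi.1 hz.hol j
  have hcontN : ContinuousOn (fun X : ℂ => N X (z X)) (closedBall 0 X₀) := by
    refine hN.continuousOn.comp (continuousOn_id.prodMk hz.cont) fun X hX' => hsub ?_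
    exact ⟨hX', mem_closedBall_zero_iff.2 (hz.bd X hX')⟩
  refine ⟨?_, ?_, ?_⟩
  · intro x hx j
    have h1 := hz.conj' (x : ℂ) (ball_subset_closedBall (hball x hx)) j
    rw [Complex.conj_ofReal] at h1
    exact Complex.conj_eq_iff_re.1 h1.symm
  · intro j
    have h1 : ContDiffOn ℂ ∞ (fun X => z X j) (ball 0 X₀) := (hholj j).contDiffOn isOpen_ball
    have h2 : ContDiffOn ℝ ∞ (fun x : ℝ => z (x : ℂ) j) (Ioo (-X₀) X₀) :=
      (h1.restrict_scalars ℝ).comp Complex.ofRealCLM.contDiff.contDiffOn hball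
    exact Complex.reCLM.contDiff.comp_contDiffOn h2
  · intro x hx j
    have hd : HasDerivAt (fun X => z X j) (deriv (fun X => z X j) (x : ℂ)) (x : ℂ) :=
      ((hholj j).differentiableAt (isOpen_ball.mem_nhds (hball x hx))).hasDerivAt
    set D : ℂ := deriv (fun X => z X j) (x : ℂ) with hD
    have hre : deriv (fun x : ℝ => (z (x : ℂ) j).re) x = D.re := hd.real_of_complex.deriv
    rw [hre]
    have hl4 : 0 < lam j / 4 := by have := hlam j; linarith
    -- the equation for the complex numbers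
    have key : 4 * (x : ℂ) * D + 4 * ((lam j / 4 : ℝ) : ℂ) * z x j = N x (z x) j := by
      rcases lt_trichotomy x 0 with hx0 | hx0 | hx0
      · -- negative side
        have hG : ContinuousOn (fun r : ℝ => N (((-r : ℝ)) : ℂ) (z ((-r : ℝ) : ℂ)) j)
            (Ico 0 X₀) := by
          have h1 : ContinuousOn (fun X : ℂ => N X (z X) j) (closedBall 0 X₀) :=
            (continuous_apply j).comp_continuousOn hcontN
          refine h1.comp (Complex.continuous_ofReal.comp continuous_neg).continuousOn ?_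
          intro r hr
          rw [mem_closedBall_zero_iff]
          show ‖((-r : ℝ) : ℂ)‖ ≤ X₀
          rw [Complex.norm_real, Real.norm_eq_abs, abs_neg, abs_of_nonneg hr.1]
          exact hr.2.le
        have hF : ∀ y ∈ Ioo 0 X₀, (fun y : ℝ => z ((-y : ℝ) : ℂ) j) y
            = ∫ t in (0 : ℝ)..1, ((1 / 4 * t ^ (lam j / 4 - 1) : ℝ) : ℂ) *
              (fun r : ℝ => N (((-r : ℝ)) : ℂ) (z ((-r : ℝ) : ℂ)) j) (t * y) := by
          intro y hy
          have hmem : ((-y : ℝ) : ℂ) ∈ closedBall (0 : ℂ) X₀ := by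
            rw [mem_closedBall_zero_iff, Complex.norm_real, Real.norm_eq_abs, abs_neg,
              abs_of_nonneg hy.1.le]
            exact hy.2.le
          have h1 := hz.fix ((-y : ℝ) : ℂ) hmem j
          simp only
          rw [h1]
          refine intervalIntegral.integral_congr fun t _ => ?_
          have h2 : (t : ℂ) * ((-y : ℝ) : ℂ) = ((-(t * y) : ℝ) : ℂ) := by push_cast; ring
          rw [h2]
        have hmem : -x ∈ Ioo 0 X₀ := ⟨by linarith, by linarith [hx.1]⟩
        have hF' : HasDerivAt (fun y : ℝ => z ((-y : ℝ) : ℂ) j) (-D) (-x) := by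
          have h1 : HasDerivAt (fun y : ℝ => z (y : ℂ) j) D (- -x) := by
            rw [neg_neg]
            exact hd.comp_ofReal
          have h2 : HasDerivAt (fun y : ℝ => -y) (-1) (-x) := (hasDerivAt_id (-x)).neg
          have h3 := h1.scomp (-x) h2
          have h4 : (-1 : ℝ) • D = -D := by simp
          rw [h4] at h3
          exact h3
        have := A2_ode (lam j / 4) hl4 X₀ _ _ hG hF (-x) hmem (-D) hF'
        simp only [neg_neg] at this
        rw [← this]
        push_cast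
        ring
      · -- at zero
        subst hx0
        have h1 := hz.fix ((0 : ℝ) : ℂ) (ball_subset_closedBall (hball 0 hx)) j
        simp only [Complex.ofReal_zero, mul_zero] at h1 ⊢
        rw [intervalIntegral.integral_mul_const] at h1
        have h2 : (∫ t in (0 : ℝ)..1, ((1 / 4 * t ^ (lam j / 4 - 1) : ℝ) : ℂ))
            = (((lam j)⁻¹ : ℝ) : ℂ) := by
          rw [intervalIntegral.integral_ofReal, intervalIntegral.integral_const_mul,
            integral_rpow (Or.inl (by linarith))]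
          congr 1
          have h3 : lam j / 4 - 1 + 1 = lam j / 4 := by ring
          have hlj := (hlam j).ne'
          rw [h3, Real.one_rpow, Real.zero_rpow hl4.ne']
          field_simp
          norm_num
        rw [h2] at h1
        have h3 : ((lam j : ℝ) : ℂ) ≠ 0 := by exact_mod_cast (hlam j).ne'
        rw [zero_mul, zero_add, h1]
        push_cast
        field_simp
      · -- positive side
        have hG : ContinuousOn (fun r : ℝ => N ((r : ℝ) : ℂ) (z (r : ℂ)) j) (Ico 0 X₀) := by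
          have h1 : ContinuousOn (fun X : ℂ => N X (z X) j) (closedBall 0 X₀) :=
            (continuous_apply j).comp_continuousOn hcontN
          refine h1.comp Complex.continuous_ofReal.continuousOn ?_
          intro r hr
          rw [mem_closedBall_zero_iff, Complex.norm_real, Real.norm_eq_abs, abs_of_nonneg hr.1]
          exact hr.2.le
        have hF : ∀ y ∈ Ioo 0 X₀, (fun y : ℝ => z (y : ℂ) j) y
            = ∫ t in (0 : ℝ)..1, ((1 / 4 * t ^ (lam j / 4 - 1) : ℝ) : ℂ) *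
              (fun r : ℝ => N ((r : ℝ) : ℂ) (z (r : ℂ)) j) (t * y) := by
          intro y hy
          have hmem : (y : ℂ) ∈ closedBall (0 : ℂ) X₀ := by
            rw [mem_closedBall_zero_iff, Complex.norm_real, Real.norm_eq_abs,
              abs_of_nonneg hy.1.le]
            exact hy.2.le
          have h1 := hz.fix (y : ℂ) hmem j
          simp only
          rw [h1]
          refine intervalIntegral.integral_congr fun t _ => ?_
          have h2 : (t : ℂ) * (y : ℂ) = ((t * y : ℝ) : ℂ) := by push_cast; ring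
          show ((1 / 4 * t ^ (lam j / 4 - 1) : ℝ) : ℂ) * N ((t : ℂ) * (y : ℂ))
            (z ((t : ℂ) * (y : ℂ))) j = _
          rw [h2]
        exact A2_ode (lam j / 4) hl4 X₀ _ _ hG hF x ⟨hx0, hx.2⟩ D hd.comp_ofReal
    have h1 := congrArg Complex.re key
    have h2 : (4 * (x : ℂ) * D + 4 * ((lam j / 4 : ℝ) : ℂ) * z x j).re
        = 4 * x * D.re + lam j * (z x j).re := by
      have h3 : 4 * (x : ℂ) * D = ((4 * x : ℝ) : ℂ) * D := by push_cast; ring
      have h4 : 4 * ((lam j / 4 : ℝ) : ℂ) * z x j = ((lam j : ℝ) : ℂ) * z x j := by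
        push_cast; ring
      rw [h3, h4, Complex.add_re, Complex.re_ofReal_mul, Complex.re_ofReal_mul]
    rw [h2] at h1
    exact h1

end Pool.Agent.RS
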