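import Pool.Agent.Lib.MP_35abc2_gt.Sys

/-! # A3a: bounds for the tip nonlinearity (MP_35abc2_gt) -/

open scoped ContDiff Topology NNReal ComplexConjugate
open Set Filter Metric

noncomputable section

namespace Pool.Agent.RS

/-- bounds and Lipschitz bounds of a pair of values -/
structure A3aB (δ : ℝ) (x x' : ℂ) (B L : ℝ) : Prop where
  n : ‖x‖ ≤ B
  n' : ‖x'‖ ≤ B
  d : ‖x - x'‖ ≤ L * δ

namespace A3aB

variable {δ : ℝ} {x x' y y' : ℂ} {B L B₁ L₁ B₂ L₂ : ℝ}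

lemma mono (h : A3aB δ x x' B₁ L₁) (hδ : 0 ≤ δ) (hB : B₁ ≤ B₂) (hL : L₁ ≤ L₂) :
    A3aB δ x x' B₂ L₂ :=
  ⟨h.n.trans hB, h.n'.trans hB, h.d.trans (mul_le_mul_of_nonneg_right hL hδ)⟩

lemma add (h₁ : A3aB δ x x' B₁ L₁) (h₂ : A3aB δ y y' B₂ L₂) :
    A3aB δ (x + y) (x' + y') (B₁ + B₂) (L₁ + L₂) := by
  refine ⟨(norm_add_le _ _).trans (add_le_add h₁.n h₂.n),
    (norm_add_le _ _).trans (add_le_add h₁.n' h₂.n'), ?_⟩
  have e : x + y - (x' + y') = (x - x') + (y - y') := by ring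
  rw [e, add_mul]
  exact (norm_add_le _ _).trans (add_le_add h₁.d h₂.d)

lemma neg (h : A3aB δ x x' B L) : A3aB δ (-x) (-x') B L := by
  refine ⟨by rw [norm_neg]; exact h.n, by rw [norm_neg]; exact h.n', ?_⟩
  have e : -x - -x' = -(x - x') := by ring
  rw [e, norm_neg]
  exact h.d

lemma sub (h₁ : A3aB δ x x' B₁ L₁) (h₂ : A3aB δ y y' B₂ L₂) :
    A3aB δ (x - y) (x' - y') (B₁ + B₂) (L₁ + L₂) := by
  rw [sub_eq_add_neg, sub_eq_add_neg]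
  exact h₁.add h₂.neg

lemma mul (h₁ : A3aB δ x x' B₁ L₁) (h₂ : A3aB δ y y' B₂ L₂) :
    A3aB δ (x * y) (x' * y') (B₁ * B₂) (L₁ * B₂ + B₁ * L₂) := by
  have hB₁ : 0 ≤ B₁ := (norm_nonneg _).trans h₁.n
  refine ⟨?_, ?_, ?_⟩
  · rw [norm_mul]
    exact mul_le_mul h₁.n h₂.n (norm_nonneg _) hB₁
  · rw [norm_mul]
    exact mul_le_mul h₁.n' h₂.n' (norm_nonneg _) hB₁
  · have e : x * y - x' * y' = (x - x') * y + x' * (y - y') := by ring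
    rw [e]
    have h3 : ‖(x - x') * y‖ ≤ L₁ * δ * B₂ := by
      rw [norm_mul]
      exact mul_le_mul h₁.d h₂.n (norm_nonneg _) ((norm_nonneg _).trans h₁.d)
    have h4 : ‖x' * (y - y')‖ ≤ B₁ * (L₂ * δ) := by
      rw [norm_mul]
      exact mul_le_mul h₁.n' h₂.d (norm_nonneg _) hB₁
    calc ‖(x - x') * y + x' * (y - y')‖ ≤ L₁ * δ * B₂ + B₁ * (L₂ * δ) :=
          (norm_add_le _ _).trans (add_le_add h3 h4)
      _ = _ := by ring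

lemma const (c : ℂ) (h : ‖c‖ ≤ B) : A3aB δ c c B 0 :=
  ⟨h, h, by rw [sub_self, norm_zero, zero_mul]⟩

lemma inv {m : ℝ} (hm : 0 < m) (h : A3aB δ x x' B L) (h1 : m ≤ ‖x‖) (h2 : m ≤ ‖x'‖) :
    A3aB δ x⁻¹ x'⁻¹ (1 / m) (L * (1 / m) * (1 / m)) := by
  have hx : x ≠ 0 := by
    intro h0
    rw [h0, norm_zero] at h1
    linarith
  have hx' : x' ≠ 0 := by
    intro h0
    rw [h0, norm_zero] at h2
    linarith
  have i1 : ‖x⁻¹‖ ≤ 1 / m := by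
    rw [norm_inv, ← one_div]
    exact one_div_le_one_div_of_le hm h1
  have i2 : ‖x'⁻¹‖ ≤ 1 / m := by
    rw [norm_inv, ← one_div]
    exact one_div_le_one_div_of_le hm h2
  refine ⟨i1, i2, ?_⟩
  have e : x⁻¹ - x'⁻¹ = -((x - x') * x⁻¹ * x'⁻¹) := by
    field_simp
    ring
  rw [e, norm_neg, norm_mul, norm_mul]
  have hLδ : 0 ≤ L * δ := (norm_nonneg _).trans h.d
  calc ‖x - x'‖ * ‖x⁻¹‖ * ‖x'⁻¹‖ ≤ (L * δ) * (1 / m) * (1 / m) := by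
        refine mul_le_mul (mul_le_mul h.d i1 (norm_nonneg _) hLδ) i2 (norm_nonneg _) ?_
        positivity
    _ = _ := by ring

end A3aB

lemma A3a_q : (86602 / 100000 : ℝ) ≤ q0 ∧ q0 ≤ 86603 / 100000 := by
  unfold q0
  constructor
  · have : (86602 / 50000 : ℝ) ≤ Real.sqrt 3 := Real.le_sqrt_of_sq_le (by norm_num)
    linarith
  · have : Real.sqrt 3 ≤ 86603 / 50000 := Real.sqrt_le_iff.2 ⟨by norm_num, by norm_num⟩
    linarith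

lemma A3a_nq : ‖(q0 : ℂ)‖ ≤ 86603 / 100000 := by
  have h := A3a_q
  rw [Complex.norm_real, Real.norm_eq_abs, abs_of_nonneg (by linarith)]
  exact h.2

lemma A3a_nqi : ‖((q0 : ℂ))⁻¹‖ ≤ 11548 / 10000 := by
  have h := A3a_q
  rw [norm_inv, Complex.norm_real, Real.norm_eq_abs, abs_of_nonneg (by linarith)]
  rw [inv_le_comm₀ (by linarith) (by norm_num)]
  refine le_trans ?_ h.1
  norm_num

/-- the bounds for all components -/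
lemma A3a_core {δ Lz Lp : ℝ} (hδ : 0 ≤ δ) (hLz : 0 ≤ Lz) (hLp : 0 ≤ Lp) {X : ℂ}
    (hX : ‖X‖ ≤ 1 / 1000000) {μ μ' κ κ' : ℂ} (hμ : A3aB δ μ μ' 1 Lp) (hκ : A3aB δ κ κ' 1 Lp)
    {z z' : Fin 5 → ℂ} (hz : ∀ i, A3aB δ (z i) (z' i) 10 Lz) (j : Fin 5) :
    A3aB δ (tipN (q0 : ℂ) μ κ X z j) (tipN (q0 : ℂ) μ' κ' X z' j) (tipLam j * 10)
      (9 / 10 * tipLam j * Lz + 100 * tipLam j * Lp) := by
  have hXc : A3aB δ X X (1 / 1000000) 0 := A3aB.const X hX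
  have hXz : ∀ i, A3aB δ (X * z i) (X * z' i) (1 / 100000) (1 / 1000000 * Lz) := fun i =>
    (hXc.mul (hz i)).mono hδ (by norm_num) (by linarith)
  have hq : A3aB δ (q0 : ℂ) (q0 : ℂ) (86603 / 100000) 0 := A3aB.const _ A3a_nq
  have hqi : A3aB δ ((q0 : ℂ))⁻¹ ((q0 : ℂ))⁻¹ (11548 / 10000) 0 := A3aB.const _ A3a_nqi
  have h1 : A3aB δ (1 : ℂ) (1 : ℂ) 1 0 := A3aB.const _ (by simp)
  have h2 : A3aB δ (2 : ℂ) (2 : ℂ) 2 0 := A3aB.const _ (by simp)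
  have h3 : A3aB δ (3 : ℂ) (3 : ℂ) 3 0 := A3aB.const _ (by simp)
  have hh : A3aB δ (1 / 2 : ℂ) (1 / 2 : ℂ) (1 / 2) 0 := A3aB.const _ (by norm_num)
  have h32 : A3aB δ (3 / 2 : ℂ) (3 / 2 : ℂ) (3 / 2) 0 := A3aB.const _ (by norm_num)
  have h23 : A3aB δ (2 / 3 : ℂ) (2 / 3 : ℂ) (2 / 3) 0 := A3aB.const _ (by norm_num)
  have hy : A3aB δ (1 + X * z 0) (1 + X * z' 0) (100001 / 100000) (1 / 1000000 * Lz) :=
    (h1.add (hXz 0)).mono hδ (by norm_num) (by linarith)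
  have hy2 : A3aB δ ((1 + X * z 0) * (1 + X * z 0)) ((1 + X * z' 0) * (1 + X * z' 0))
      (10001 / 10000) (1 / 100000 * Lz) :=
    (hy.mul hy).mono hδ (by norm_num) (by linarith)
  have hy4 : A3aB δ (((1 + X * z 0) * (1 + X * z 0)) * ((1 + X * z 0) * (1 + X * z 0)))
      (((1 + X * z' 0) * (1 + X * z' 0)) * ((1 + X * z' 0) * (1 + X * z' 0)))
      (1001 / 1000) (1 / 10000 * Lz) :=
    (hy2.mul hy2).mono hδ (by norm_num) (by linarith)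
  have hw : A3aB δ (2 + X * z 1) (2 + X * z' 1) (200001 / 100000) (1 / 1000000 * Lz) :=
    (h2.add (hXz 1)).mono hδ (by norm_num) (by linarith)
  have hp : A3aB δ ((q0 : ℂ) + X * z 2) ((q0 : ℂ) + X * z' 2) (86604 / 100000)
      (1 / 1000000 * Lz) :=
    (hq.add (hXz 2)).mono hδ (by norm_num) (by linarith)
  have hlow : ∀ w : ℂ, ‖w‖ ≤ 1 / 100000 → (866 / 1000 : ℝ) ≤ ‖(q0 : ℂ) + w‖ := by
    intro w hw'
    have h4 := norm_sub_norm_le (q0 : ℂ) (-w)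
    rw [sub_neg_eq_add, norm_neg] at h4
    have h5 : (86602 / 100000 : ℝ) ≤ ‖(q0 : ℂ)‖ := by
      rw [Complex.norm_real, Real.norm_eq_abs]
      exact A3a_q.1.trans (le_abs_self _)
    linarith
  have hr : A3aB δ ((q0 : ℂ) + X * z 2)⁻¹ ((q0 : ℂ) + X * z' 2)⁻¹ (11548 / 10000)
      (2 / 1000000 * Lz) :=
    (A3aB.inv (by norm_num : (0 : ℝ) < 866 / 1000) hp (hlow _ (hXz 2).n)
      (hlow _ (hXz 2).n')).mono hδ (by norm_num) (by linarith)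
  have hr2 : A3aB δ (((q0 : ℂ) + X * z 2)⁻¹ * ((q0 : ℂ) + X * z 2)⁻¹)
      (((q0 : ℂ) + X * z' 2)⁻¹ * ((q0 : ℂ) + X * z' 2)⁻¹) (1334 / 1000) (1 / 100000 * Lz) :=
    (hr.mul hr).mono hδ (by norm_num) (by linarith)
  have hΨ : A3aB δ (2 / 3 * κ * (q0 : ℂ) + X * z 3) (2 / 3 * κ' * (q0 : ℂ) + X * z' 3)
      (578 / 1000) (1 / 1000000 * Lz + Lp) :=
    (((h23.mul hκ).mul hq).add (hXz 3)).mono hδ (by norm_num) (by linarith)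
  fin_cases j
  · -- component 0
    have e : ∀ (μ κ : ℂ) (z : Fin 5 → ℂ), tipN (q0 : ℂ) μ κ X z 0 =
        (1 / 2 * z 1) * (1 + X * z 0) := by
      intro μ κ z
      simp only [tipN, Matrix.cons_val_zero]
      ring
    show A3aB δ (tipN (q0 : ℂ) μ κ X z 0) (tipN (q0 : ℂ) μ' κ' X z' 0) (tipLam 0 * 10)
      (9 / 10 * tipLam 0 * Lz + 100 * tipLam 0 * Lp)
    rw [e, e]
    have hl : tipLam 0 = 4 := rfl
    rw [hl]
    exact ((hh.mul (hz 1)).mul hy).mono hδ (by norm_num) (by linarith)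
  · -- component 1
    have e : ∀ (μ κ : ℂ) (z : Fin 5 → ℂ), tipN (q0 : ℂ) μ κ X z 1 =
        2 * z 1 - 3 / 2 * z 1 * (((q0 : ℂ) + X * z 2)⁻¹ * ((q0 : ℂ) + X * z 2)⁻¹) -
        (3 / 2 * (((1 + X * z 0) * (1 + X * z 0)) * ((1 + X * z 0) * (1 + X * z 0))) *
            (2 + X * z 1) - 1 / 2 * μ * ((1 + X * z 0) * (1 + X * z 0)) * (2 + X * z 1) +
          3 * (((1 + X * z 0) * (1 + X * z 0)) * ((1 + X * z 0) * (1 + X * z 0)))) *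
          (((q0 : ℂ) + X * z 2)⁻¹ * ((q0 : ℂ) + X * z 2)⁻¹) := by
      intro μ κ z
      simp only [tipN, Matrix.cons_val_one, Matrix.cons_val_zero]
      rw [div_eq_mul_inv _ (((q0 : ℂ) + X * z 2) ^ 2), div_eq_mul_inv _ (((q0 : ℂ) + X * z 2) ^ 2),
        ← inv_pow]
      generalize ((q0 : ℂ) + X * z 2)⁻¹ = r
      ring
    show A3aB δ (tipN (q0 : ℂ) μ κ X z 1) (tipN (q0 : ℂ) μ' κ' X z' 1) (tipLam 1 * 10)
      (9 / 10 * tipLam 1 * Lz + 100 * tipLam 1 * Lp)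
    rw [e, e]
    have hl : tipLam 1 = 6 := rfl
    rw [hl]
    exact (((h2.mul (hz 1)).sub ((h32.mul (hz 1)).mul hr2)).sub
      (((((h32.mul hy4).mul hw).sub (((hh.mul hμ).mul hy2).mul hw)).add (h3.mul hy4)).mul
        hr2)).mono hδ (by norm_num) (by linarith)
  · -- component 2
    have e : ∀ (μ κ : ℂ) (z : Fin 5 → ℂ), tipN (q0 : ℂ) μ κ X z 2 =
        2 * z 2 - 2 * ((q0 : ℂ) * ((q0 : ℂ) + X * z 2)⁻¹) * z 2 +
        (1 / 2 * z 1) * ((q0 : ℂ) + X * z 2) +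
        (3 / 2 * (((1 + X * z 0) * (1 + X * z 0)) * ((1 + X * z 0) * (1 + X * z 0))) -
          1 / 2 * μ * ((1 + X * z 0) * (1 + X * z 0))) * ((q0 : ℂ) + X * z 2)⁻¹ +
        μ * (1 + X * z 0) * (2 / 3 * κ * (q0 : ℂ) + X * z 3) := by
      intro μ κ z
      show 2 * z 2 - 2 * ((q0 : ℂ) / ((q0 : ℂ) + X * z 2)) * z 2 + z 1 / 2 * ((q0 : ℂ) + X * z 2)
        + (3 / 2 * (1 + X * z 0) ^ 4 - μ / 2 * (1 + X * z 0) ^ 2) / ((q0 : ℂ) + X * z 2)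
        + μ * (1 + X * z 0) * (2 * κ * (q0 : ℂ) / 3 + X * z 3) = _
      rw [div_eq_mul_inv _ ((q0 : ℂ) + X * z 2), div_eq_mul_inv _ ((q0 : ℂ) + X * z 2)]
      generalize ((q0 : ℂ) + X * z 2)⁻¹ = r
      ring
    show A3aB δ (tipN (q0 : ℂ) μ κ X z 2) (tipN (q0 : ℂ) μ' κ' X z' 2) (tipLam 2 * 10)
      (9 / 10 * tipLam 2 * Lz + 100 * tipLam 2 * Lp)
    rw [e, e]
    have hl : tipLam 2 = 8 := rfl
    rw [hl]
    exact (((((h2.mul (hz 2)).sub ((h2.mul (hq.mul hr)).mul (hz 2))).add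
      ((hh.mul (hz 1)).mul hp)).add (((h32.mul hy4).sub ((hh.mul hμ).mul hy2)).mul hr)).add
      ((hμ.mul hy).mul hΨ)).mono hδ (by norm_num) (by linarith)
  · -- component 3
    have e : ∀ (μ κ : ℂ) (z : Fin 5 → ℂ), tipN (q0 : ℂ) μ κ X z 3 =
        3 * κ * ((q0 : ℂ) * z 0 - z 2) * (((q0 : ℂ) + X * z 2)⁻¹ * ((q0 : ℂ))⁻¹) +
        (1 + X * z 0) * ((q0 : ℂ) + X * z 2)⁻¹ * (-z 4 +
          μ * ((2 / 3 * κ * (q0 : ℂ) + X * z 3) * (2 / 3 * κ * (q0 : ℂ) + X * z 3))) := by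
      intro μ κ z
      show 3 * κ * ((q0 : ℂ) * z 0 - z 2) / (((q0 : ℂ) + X * z 2) * (q0 : ℂ))
        + (1 + X * z 0) / ((q0 : ℂ) + X * z 2) * (-z 4 + μ * (2 * κ * (q0 : ℂ) / 3 + X * z 3) ^ 2)
        = _
      rw [div_eq_mul_inv _ (((q0 : ℂ) + X * z 2) * (q0 : ℂ)), mul_inv,
        div_eq_mul_inv _ ((q0 : ℂ) + X * z 2)]
      generalize ((q0 : ℂ) + X * z 2)⁻¹ = r
      generalize ((q0 : ℂ))⁻¹ = r'
      ring
    show A3aB δ (tipN (q0 : ℂ) μ κ X z 3) (tipN (q0 : ℂ) μ' κ' X z' 3) (tipLam 3 * 10)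
      (9 / 10 * tipLam 3 * Lz + 100 * tipLam 3 * Lp)
    rw [e, e]
    have hl : tipLam 3 = 10 := rfl
    rw [hl]
    exact ((((h3.mul hκ).mul ((hq.mul (hz 0)).sub (hz 2))).mul (hr.mul hqi)).add
      ((hy.mul hr).mul ((hz 4).neg.add (hμ.mul (hΨ.mul hΨ))))).mono hδ (by norm_num)
      (by linarith)
  · -- component 4
    have e : ∀ (μ κ : ℂ) (z : Fin 5 → ℂ), tipN (q0 : ℂ) μ κ X z 4 =
        μ * (2 / 3 * κ * (q0 : ℂ) + X * z 3) * (1 + X * z 0) * ((q0 : ℂ) + X * z 2)⁻¹ := by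
      intro μ κ z
      show μ * (2 * κ * (q0 : ℂ) / 3 + X * z 3) * (1 + X * z 0) / ((q0 : ℂ) + X * z 2) = _
      rw [div_eq_mul_inv _ ((q0 : ℂ) + X * z 2)]
      generalize ((q0 : ℂ) + X * z 2)⁻¹ = r
      ring
    show A3aB δ (tipN (q0 : ℂ) μ κ X z 4) (tipN (q0 : ℂ) μ' κ' X z' 4) (tipLam 4 * 10)
      (9 / 10 * tipLam 4 * Lz + 100 * tipLam 4 * Lp)
    rw [e, e]
    have hl : tipLam 4 = 4 := rfl
    rw [hl]
    exact (((hμ.mul hΨ).mul hy).mul hr).mono hδ (by norm_num) (by linarith)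

lemma A3a_z {z : Fin 5 → ℂ} (hz : z ∈ closedBall (0 : Fin 5 → ℂ) 10) (i : Fin 5) :
    ‖z i‖ ≤ 10 := by
  rw [mem_closedBall, dist_zero_right] at hz
  exact (norm_le_pi_norm z i).trans hz

lemma A3a_real {μ : ℝ} (h : μ ∈ Icc (0 : ℝ) 1) : ‖(μ : ℂ)‖ ≤ 1 := by
  rw [Complex.norm_real, Real.norm_eq_abs, abs_of_nonneg h.1]
  exact h.2

lemma A3a_real' {κ : ℝ} (h : κ ∈ Icc (1 / 2 : ℝ) 1) : ‖(κ : ℂ)‖ ≤ 1 :=
  A3a_real ⟨by linarith [h.1], h.2⟩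

lemma A3a_diff (μ μ' : ℝ) : ‖(μ : ℂ) - (μ' : ℂ)‖ = |μ - μ'| := by
  rw [← Complex.ofReal_sub, Complex.norm_real, Real.norm_eq_abs]

/-- A3a. There is `X₀ ∈ (0, 10⁻⁵]` such that for all real `μ ∈ [0,1]`, `κ ∈ [1/2,1]`, `|X| ≤ X₀`, `|z| ≤ 10` (sup norm):
`q0 + X z₂ ≠ 0` (with a margin), `|N_j| ≤ 10 λ_j`, `N_j` is `0.9 λ_j`-Lipschitz in `z`, and Lipschitz in `(μ, κ)`.

PROOF. At `X = 0`, `N = (z₁/2, -(4/3)(6-μ), q z₁/2 + (3/2-μ/2)/q + μκ(2q/3)·... , 4κ(q z₀ - z₂) - (z₄ - μ(2κq/3)²)/q, μ(2κq/3)/q)`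
(using `q² = 3/4`), so with `|z_i| ≤ 10`:
`|N_0| ≤ 5 ≤ 0.13·40`, `|N_1| ≤ 8 ≤ 0.14·60`, `|N_2| ≤ 4.34+1.74+0.58 ≤ 0.09·80`, `|N_3| ≤ 4(8.67+10)+11.6+0.4 ≤ 0.87·100`, `|N_4| ≤ 0.67 ≤ 0.02·40`,
and the Lipschitz constants (sup norm in `z`) are `0.5, 0, 0.434, 4(q+1)+1/q ≤ 8.62, 0`, i.e. at most `0.87 λ_j`.
For `|X| ≤ X₀` with `X₀ = 10⁻⁵` all quantities `X z_i` are at most `10⁻⁴` in absolute value and the bounds change by less than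
`0.03 λ_j` (either by explicit estimates, or by compactness: take `X₀` small by uniform continuity of `N_j` and `∂N_j/∂z_i` on the
compact set `{|X| ≤ 10⁻⁵} × {|z| ≤ 10} × [0,1] × [1/2,1]`).
Lipschitz in `(μ,κ)`: `N_j` is a polynomial in `(μ, κ)` with bounded coefficients. -/
theorem tipN_bounds : ∃ X₀ : ℝ, 0 < X₀ ∧ X₀ ≤ 1 / 100000 ∧ ∃ C : ℝ, 0 < C ∧
    ∀ μ ∈ Icc (0 : ℝ) 1, ∀ κ ∈ Icc (1 / 2 : ℝ) 1,
      (∀ X ∈ closedBall (0 : ℂ) X₀, ∀ z ∈ closedBall (0 : Fin 5 → ℂ) 10, ∀ j,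
        ‖tipN (q0 : ℂ) (μ : ℂ) (κ : ℂ) X z j‖ ≤ tipLam j * 10) ∧
      (∀ X ∈ closedBall (0 : ℂ) X₀, ∀ z ∈ closedBall (0 : Fin 5 → ℂ) 10,
        ∀ z' ∈ closedBall (0 : Fin 5 → ℂ) 10, ∀ j,
        ‖tipN (q0 : ℂ) (μ : ℂ) (κ : ℂ) X z j - tipN (q0 : ℂ) (μ : ℂ) (κ : ℂ) X z' j‖
          ≤ 9 / 10 * tipLam j * ‖z - z'‖) ∧
      (∀ μ' ∈ Icc (0 : ℝ) 1, ∀ κ' ∈ Icc (1 / 2 : ℝ) 1,
        ∀ X ∈ closedBall (0 : ℂ) X₀, ∀ z ∈ closedBall (0 : Fin 5 → ℂ) 10, ∀ j,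
        ‖tipN (q0 : ℂ) (μ : ℂ) (κ : ℂ) X z j - tipN (q0 : ℂ) (μ' : ℂ) (κ' : ℂ) X z j‖
          ≤ C * (|μ - μ'| + |κ - κ'|) * tipLam j) := by
  refine ⟨1 / 1000000, by norm_num, by norm_num, 100, by norm_num, ?_⟩
  intro μ hμ κ hκ
  have hXn : ∀ X ∈ closedBall (0 : ℂ) (1 / 1000000), ‖X‖ ≤ 1 / 1000000 := by
    intro X hX
    rwa [mem_closedBall, dist_zero_right] at hX
  refine ⟨?_, ?_, ?_⟩
  · intro X hX z hz j
    exact (A3a_core (δ := 0) (Lz := 0) (Lp := 0) le_rfl le_rfl le_rfl (hXn X hX)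
      (((A3aB.const _ (A3a_real hμ)))) (A3aB.const _ (A3a_real' hκ))
      (fun i => A3aB.const _ (A3a_z hz i)) j).n
  · intro X hX z hz z' hz' j
    have h := (A3a_core (δ := ‖z - z'‖) (Lz := 1) (Lp := 0) (norm_nonneg _) zero_le_one le_rfl
      (hXn X hX) (A3aB.const _ (A3a_real hμ)) (A3aB.const _ (A3a_real' hκ))
      (z := z) (z' := z')
      (fun i => ⟨A3a_z hz i, A3a_z hz' i, by
        rw [one_mul]
        exact norm_le_pi_norm (z - z') i⟩) j).d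
    simpa using h
  · intro μ' hμ' κ' hκ' X hX z hz j
    have h := (A3a_core (δ := |μ - μ'| + |κ - κ'|) (Lz := 0) (Lp := 1) (by positivity) le_rfl
      zero_le_one (hXn X hX)
      (μ := (μ : ℂ)) (μ' := (μ' : ℂ)) (κ := (κ : ℂ)) (κ' := (κ' : ℂ))
      ⟨A3a_real hμ, A3a_real hμ', by
        rw [A3a_diff, one_mul]
        exact le_add_of_nonneg_right (abs_nonneg _)⟩
      ⟨A3a_real' hκ, A3a_real' hκ', by
        rw [A3a_diff, one_mul]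
        exact le_add_of_nonneg_left (abs_nonneg _)⟩
      (fun i => A3aB.const _ (A3a_z hz i)) j).d
    refine h.trans (le_of_eq ?_)
    ring

end Pool.Agent.RS
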