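import Pool.Agent.Lib.MP_35abc2_gt.A1a_Exists
import Pool.Agent.Lib.MP_35abc2_gt.A1b_Compare
import Pool.Agent.Lib.MP_35abc2_gt.A2_TipOde
import Pool.Agent.Lib.MP_35abc2_gt.A3a_Bounds

/-! # A3b: the tip solutions (MP_35abc2_gt) -/

open scoped ContDiff Topology NNReal ComplexConjugate
open Set Filter Metric

noncomputable section

namespace Pool.Agent.RS

/-- the tip nonlinearity commutes with the cast -/
theorem A3b_ofReal (q μ κ x : ℝ) (y : Fin 5 → ℝ) (j : Fin 5) :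
    tipN (q : ℂ) (μ : ℂ) (κ : ℂ) (x : ℂ) (fun i => ((y i : ℝ) : ℂ)) j =
      ((tipN q μ κ x y j : ℝ) : ℂ) := by
  fin_cases j <;> simp [tipN]

theorem A3b_conj (q μ κ : ℝ) (X : ℂ) (z : Fin 5 → ℂ) (j : Fin 5) :
    tipN (q : ℂ) (μ : ℂ) (κ : ℂ) (conj X) (fun i => conj (z i)) j =
      conj (tipN (q : ℂ) (μ : ℂ) (κ : ℂ) X z j) := by
  have h2 : conj (2 : ℂ) = 2 := by
    simpa using Complex.conj_ofReal 2
  have h3 : conj (3 : ℂ) = 3 := by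
    simpa using Complex.conj_ofReal 3
  fin_cases j <;> simp [tipN, Complex.conj_ofReal, h2, h3]

theorem A3b_q0 : (1 / 2 : ℝ) < q0 := by
  unfold q0
  have : (1 : ℝ) < Real.sqrt 3 := by
    rw [Real.lt_sqrt (by norm_num)]
    norm_num
  linarith

theorem A3b_ne {X₀ : ℝ} (hX₀ : X₀ ≤ 1 / 100000) {X z : ℂ} (hX : ‖X‖ ≤ X₀) (hz : ‖z‖ ≤ 10) :
    (q0 : ℂ) + X * z ≠ 0 := by
  intro h
  have h1 : (q0 : ℂ) = -(X * z) := eq_neg_of_add_eq_zero_left h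
  have h2 : ‖(q0 : ℂ)‖ = ‖X‖ * ‖z‖ := by rw [h1, norm_neg, norm_mul]
  rw [Complex.norm_real, Real.norm_of_nonneg (by linarith [A3b_q0])] at h2
  have h3 : ‖X‖ * ‖z‖ ≤ 1 / 100000 * 10 :=
    mul_le_mul (hX.trans hX₀) hz (norm_nonneg _) (by norm_num)
  linarith [A3b_q0]

section Comp
variable {F : Type*} [Field F] (q μ κ X : F) (z : Fin 5 → F)
theorem A3b_c0 : tipN q μ κ X z 0 = z 1 / 2 * (1 + X * z 0) := rfl
theorem A3b_c1 : tipN q μ κ X z 1 = 2 * z 1 - 3 / 2 * z 1 / (q + X * z 2) ^ 2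
      - (3 / 2 * (1 + X * z 0) ^ 4 * (2 + X * z 1) - μ / 2 * (1 + X * z 0) ^ 2 * (2 + X * z 1)
          + 3 * (1 + X * z 0) ^ 4) / (q + X * z 2) ^ 2 := rfl
theorem A3b_c2 : tipN q μ κ X z 2 =
    2 * z 2 - 2 * (q / (q + X * z 2)) * z 2 + z 1 / 2 * (q + X * z 2)
      + (3 / 2 * (1 + X * z 0) ^ 4 - μ / 2 * (1 + X * z 0) ^ 2) / (q + X * z 2)
      + μ * (1 + X * z 0) * (2 * κ * q / 3 + X * z 3) := rfl
theorem A3b_c3 : tipN q μ κ X z 3 = 3 * κ * (q * z 0 - z 2) / ((q + X * z 2) * q)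
      + (1 + X * z 0) / (q + X * z 2) * (-z 4 + μ * (2 * κ * q / 3 + X * z 3) ^ 2) := rfl
theorem A3b_c4 : tipN q μ κ X z 4 =
    μ * (2 * κ * q / 3 + X * z 3) * (1 + X * z 0) / (q + X * z 2) := rfl
end Comp

theorem A3b_diff (μ κ : ℂ) :
    DifferentiableOn ℂ (fun p : ℂ × (Fin 5 → ℂ) => tipN (q0 : ℂ) μ κ p.1 p.2)
      {p | (q0 : ℂ) + p.1 * p.2 2 ≠ 0} := by
  have hq : (q0 : ℂ) ≠ 0 := by
    have := A3b_q0
    exact_mod_cast (by linarith : q0 ≠ 0)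
  rw [differentiableOn_pi]
  intro j p hp
  have hp' : (q0 : ℂ) + p.1 * p.2 2 ≠ 0 := hp
  have hp2 : ((q0 : ℂ) + p.1 * p.2 2) ^ 2 ≠ 0 := pow_ne_zero _ hp'
  have hp3 : ((q0 : ℂ) + p.1 * p.2 2) * (q0 : ℂ) ≠ 0 := mul_ne_zero hp' hq
  apply DifferentiableAt.differentiableWithinAt
  fin_cases j
  · change DifferentiableAt ℂ (fun p : ℂ × (Fin 5 → ℂ) => tipN (q0 : ℂ) μ κ p.1 p.2 0) p
    simp only [A3b_c0]
    fun_prop
  · change DifferentiableAt ℂ (fun p : ℂ × (Fin 5 → ℂ) => tipN (q0 : ℂ) μ κ p.1 p.2 1) p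
    simp only [A3b_c1]
    fun_prop (disch := assumption)
  · change DifferentiableAt ℂ (fun p : ℂ × (Fin 5 → ℂ) => tipN (q0 : ℂ) μ κ p.1 p.2 2) p
    simp only [A3b_c2]
    fun_prop (disch := assumption)
  · change DifferentiableAt ℂ (fun p : ℂ × (Fin 5 → ℂ) => tipN (q0 : ℂ) μ κ p.1 p.2 3) p
    simp only [A3b_c3]
    fun_prop (disch := assumption)
  · change DifferentiableAt ℂ (fun p : ℂ × (Fin 5 → ℂ) => tipN (q0 : ℂ) μ κ p.1 p.2 4) p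
    simp only [A3b_c4]
    fun_prop (disch := assumption)

theorem A3b_open : IsOpen {p : ℂ × (Fin 5 → ℂ) | (q0 : ℂ) + p.1 * p.2 2 ≠ 0} := by
  have h : Continuous (fun p : ℂ × (Fin 5 → ℂ) => (q0 : ℂ) + p.1 * p.2 2) := by fun_prop
  exact isOpen_ne.preimage h

theorem A3b_sub {X₀ : ℝ} (hX₀ : X₀ ≤ 1 / 100000) :
    closedBall (0 : ℂ) X₀ ×ˢ closedBall (0 : Fin 5 → ℂ) 10 ⊆
      {p : ℂ × (Fin 5 → ℂ) | (q0 : ℂ) + p.1 * p.2 2 ≠ 0} := by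
  rintro ⟨X, z⟩ ⟨hX, hz⟩
  rw [mem_closedBall_zero_iff] at hX hz
  exact A3b_ne hX₀ hX ((norm_le_pi_norm z 2).trans hz)

/-- padding by zeros -/
def A3b_pad (z : Fin 3 → ℂ) : Fin 5 → ℂ := ![z 0, z 1, z 2, 0, 0]

theorem A3b_pad_norm (z : Fin 3 → ℂ) : ‖A3b_pad z‖ ≤ ‖z‖ := by
  rw [pi_norm_le_iff_of_nonneg (norm_nonneg _)]
  intro i
  fin_cases i
  · exact norm_le_pi_norm z 0
  · exact norm_le_pi_norm z 1
  · exact norm_le_pi_norm z 2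
  · change ‖(0 : ℂ)‖ ≤ ‖z‖
    simp
  · change ‖(0 : ℂ)‖ ≤ ‖z‖
    simp

theorem A3b_pad_sub (z z' : Fin 3 → ℂ) : A3b_pad z - A3b_pad z' = A3b_pad (z - z') := by
  funext i
  fin_cases i <;> simp [A3b_pad]

/-- the first three exponents -/
def A3b_lam : Fin 3 → ℝ := ![4, 6, 8]

/-- the three-dimensional subsystem for `μ = 0` -/
def A3b_N (κ : ℝ) (X : ℂ) (z : Fin 3 → ℂ) : Fin 3 → ℂ :=
  fun j => tipN (q0 : ℂ) ((0 : ℝ) : ℂ) (κ : ℂ) X (A3b_pad z) (Fin.castLE (by norm_num) j)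

theorem A3b_lam_eq (j : Fin 3) : A3b_lam j = tipLam (Fin.castLE (by norm_num) j) := by
  fin_cases j <;> rfl

theorem A3b_N_indep (κ κ' : ℝ) (X : ℂ) (z : Fin 3 → ℂ) : A3b_N κ X z = A3b_N κ' X z := by
  funext j
  fin_cases j
  · rfl
  · rfl
  · change tipN (q0 : ℂ) ((0 : ℝ) : ℂ) (κ : ℂ) X (A3b_pad z) 2 =
      tipN (q0 : ℂ) ((0 : ℝ) : ℂ) (κ' : ℂ) X (A3b_pad z) 2
    rw [A3b_c2, A3b_c2]
    simp

theorem A3b_N_eq (κ : ℝ) (X : ℂ) (z : Fin 5 → ℂ) (j : Fin 3) :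
    A3b_N κ X ![z 0, z 1, z 2] j =
      tipN (q0 : ℂ) ((0 : ℝ) : ℂ) (κ : ℂ) X z (Fin.castLE (by norm_num) j) := by
  fin_cases j
  · rfl
  · rfl
  · change tipN (q0 : ℂ) ((0 : ℝ) : ℂ) (κ : ℂ) X (A3b_pad ![z 0, z 1, z 2]) 2 =
      tipN (q0 : ℂ) ((0 : ℝ) : ℂ) (κ : ℂ) X z 2
    rw [A3b_c2, A3b_c2]
    simp [A3b_pad]

theorem A3b_three {X₀ κ : ℝ} {z : ℂ → Fin 5 → ℂ}
    (hz : IsTipFix tipLam (fun X z => tipN (q0 : ℂ) ((0 : ℝ) : ℂ) (κ : ℂ) X z) X₀ 10 z) :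
    IsTipFix A3b_lam (A3b_N κ) X₀ 10 (fun X => ![z X 0, z X 1, z X 2]) := by
  refine ⟨?_, ?_, ?_, ?_, ?_⟩
  · rw [continuousOn_pi]
    intro i
    have h := continuousOn_pi.1 hz.cont
    fin_cases i
    · exact h 0
    · exact h 1
    · exact h 2
  · rw [differentiableOn_pi]
    intro i
    have h := differentiableOn_pi.1 hz.hol
    fin_cases i
    · exact h 0
    · exact h 1
    · exact h 2
  · intro X hX
    rw [pi_norm_le_iff_of_nonneg (by norm_num)]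
    intro i
    have h : ∀ i, ‖z X i‖ ≤ 10 := fun i => (norm_le_pi_norm (z X) i).trans (hz.bd X hX)
    fin_cases i
    · exact h 0
    · exact h 1
    · exact h 2
  · intro X hX j
    fin_cases j
    · exact hz.conj' X hX 0
    · exact hz.conj' X hX 1
    · exact hz.conj' X hX 2
  · intro X hX j
    have h := hz.fix X hX (Fin.castLE (by norm_num) j)
    have h1 : (![z X 0, z X 1, z X 2] : Fin 3 → ℂ) j = z X (Fin.castLE (by norm_num) j) := by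
      fin_cases j <;> rfl
    rw [h1, h]
    simp only [A3b_N_eq, A3b_lam_eq]


theorem A3b_pad_ball {z : Fin 3 → ℂ} (hz : z ∈ closedBall (0 : Fin 3 → ℂ) 10) :
    A3b_pad z ∈ closedBall (0 : Fin 5 → ℂ) 10 := by
  rw [mem_closedBall_zero_iff] at hz ⊢
  exact (A3b_pad_norm z).trans hz

theorem A3b_pad_cont : Continuous (fun p : ℂ × (Fin 3 → ℂ) => (p.1, A3b_pad p.2)) := by
  refine continuous_fst.prodMk ?_
  rw [continuous_pi_iff]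
  intro i
  fin_cases i
  · exact (continuous_apply (0 : Fin 3)).comp continuous_snd
  · exact (continuous_apply (1 : Fin 3)).comp continuous_snd
  · exact (continuous_apply (2 : Fin 3)).comp continuous_snd
  · exact continuous_const
  · exact continuous_const

theorem A3b_N_cont {X₀ : ℝ} (hX₀ : X₀ ≤ 1 / 100000) (κ : ℝ) :
    ContinuousOn (fun p : ℂ × (Fin 3 → ℂ) => A3b_N κ p.1 p.2)
        (closedBall (0 : ℂ) X₀ ×ˢ closedBall (0 : Fin 3 → ℂ) 10) := by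
  have hc : ContinuousOn (fun p : ℂ × (Fin 5 → ℂ) => tipN (q0 : ℂ) ((0 : ℝ) : ℂ) (κ : ℂ) p.1 p.2)
      (closedBall (0 : ℂ) X₀ ×ˢ closedBall (0 : Fin 5 → ℂ) 10) :=
    ((A3b_diff ((0 : ℝ) : ℂ) (κ : ℂ)).continuousOn).mono (A3b_sub hX₀)
  have hm : MapsTo (fun p : ℂ × (Fin 3 → ℂ) => (p.1, A3b_pad p.2))
      (closedBall (0 : ℂ) X₀ ×ˢ closedBall (0 : Fin 3 → ℂ) 10)
      (closedBall (0 : ℂ) X₀ ×ˢ closedBall (0 : Fin 5 → ℂ) 10) :=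
    fun p hp => ⟨hp.1, A3b_pad_ball hp.2⟩
  have hcc := hc.comp A3b_pad_cont.continuousOn hm
  rw [continuousOn_pi]
  intro j
  have hproj : Continuous (fun v : Fin 5 → ℂ => v (Fin.castLE (by norm_num) j)) :=
    continuous_apply _
  exact hproj.comp_continuousOn hcc

theorem A3b_N_lip {X₀ κ : ℝ}
    (h2 : ∀ X ∈ closedBall (0 : ℂ) X₀, ∀ z ∈ closedBall (0 : Fin 5 → ℂ) 10,
        ∀ z' ∈ closedBall (0 : Fin 5 → ℂ) 10, ∀ j,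
        ‖tipN (q0 : ℂ) ((0 : ℝ) : ℂ) (κ : ℂ) X z j - tipN (q0 : ℂ) ((0 : ℝ) : ℂ) (κ : ℂ) X z' j‖
          ≤ 9 / 10 * tipLam j * ‖z - z'‖) :
    ∀ X ∈ closedBall (0 : ℂ) X₀, ∀ z ∈ closedBall (0 : Fin 3 → ℂ) 10,
      ∀ z' ∈ closedBall (0 : Fin 3 → ℂ) 10, ∀ j,
        ‖A3b_N κ X z j - A3b_N κ X z' j‖ ≤ 9 / 10 * A3b_lam j * ‖z - z'‖ := by
  intro X hX z hz z' hz' j
  have h5 := h2 X hX (A3b_pad z) (A3b_pad_ball hz) (A3b_pad z') (A3b_pad_ball hz')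
    (Fin.castLE (by norm_num) j)
  have h6 : ‖A3b_pad z - A3b_pad z'‖ ≤ ‖z - z'‖ := by
    rw [A3b_pad_sub]
    exact A3b_pad_norm _
  have h7 : 0 ≤ 9 / 10 * A3b_lam j := by
    fin_cases j <;> simp [A3b_lam]
  rw [← A3b_lam_eq] at h5
  exact h5.trans (mul_le_mul_of_nonneg_left h6 h7)

/-- A3b. The family of tip solutions.

PROOF. Apply `tip_fix_exists` to `N = tipN q0 μ κ`, `M = 10`, `θ = 9/10`, `U = {(X,z) | q0 + X z₂ ≠ 0}` (open; contains the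
closed box since `|X z₂| ≤ 10⁻⁴ < q0`), with `tipN_bounds`; `hconj` because `q0, μ, κ` are real. Take `Z μ κ j x := (z x j).re` and use `tip_fix_ode`
(`tipN` over `ℂ` at real arguments is the cast of `tipN` over `ℝ`).
Lipschitz in the parameters: `tip_fix_compare` with `ε = C (|μ-μ'| + |κ-κ'|)`, so `‖·‖ ≤ 10 ε`.
`μ = 0`: the first three components `(z₀,z₁,z₂)` satisfy the `3`-dimensional fixed point equation with nonlinearity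
`N'(X, (z₀,z₁,z₂)) = ` first three components of `tipN q0 0 κ X ![z₀,z₁,z₂,0,0]`, which does not depend on `κ`; apply
`tip_fix_compare` with `n = 3`, `ε = 0` (the Lipschitz bound is inherited: the sup norm distance of the padded vectors is the same).
For `μ = 0` the last component of `tipN` is `0`, so the fixed point equation gives `z₄ = 0`. -/
theorem tip_exists : ∃ X₀ : ℝ, 0 < X₀ ∧ X₀ ≤ 1 / 100000 ∧ ∃ C : ℝ, 0 < C ∧
    ∃ Z : ℝ → ℝ → Fin 5 → ℝ → ℝ,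
      (∀ μ ∈ Icc (0 : ℝ) 1, ∀ κ ∈ Icc (1 / 2 : ℝ) 1, Tip μ κ X₀ (Z μ κ)) ∧
      (∀ μ ∈ Icc (0 : ℝ) 1, ∀ κ ∈ Icc (1 / 2 : ℝ) 1, ∀ μ' ∈ Icc (0 : ℝ) 1, ∀ κ' ∈ Icc (1 / 2 : ℝ) 1,
        ∀ x ∈ Ioo (-X₀) X₀, ∀ j, |Z μ κ j x - Z μ' κ' j x| ≤ C * (|μ - μ'| + |κ - κ'|)) ∧
      (∀ κ ∈ Icc (1 / 2 : ℝ) 1, ∀ κ' ∈ Icc (1 / 2 : ℝ) 1, ∀ x ∈ Ioo (-X₀) X₀,
        Z 0 κ 0 x = Z 0 κ' 0 x ∧ Z 0 κ 1 x = Z 0 κ' 1 x ∧ Z 0 κ 2 x = Z 0 κ' 2 x) ∧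
      (∀ κ ∈ Icc (1 / 2 : ℝ) 1, ∀ x ∈ Ioo (-X₀) X₀, Z 0 κ 4 x = 0) := by
  obtain ⟨X₀, hX0, hX1, C, hC, hbd⟩ := tipN_bounds
  have hlam : ∀ j : Fin 5, 0 < tipLam j := by
    intro j
    fin_cases j <;> simp [tipLam]
  have hlam3 : ∀ j : Fin 3, 0 < A3b_lam j := fun j => by
    rw [A3b_lam_eq]
    exact hlam _
  have hex : ∀ μ κ : ℝ, μ ∈ Icc (0 : ℝ) 1 → κ ∈ Icc (1 / 2 : ℝ) 1 →
      ∃ z, IsTipFix tipLam (fun X z => tipN (q0 : ℂ) (μ : ℂ) (κ : ℂ) X z) X₀ 10 z := by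
    intro μ κ hμ hκ
    obtain ⟨h1, h2, -⟩ := hbd μ hμ κ hκ
    exact tip_fix_exists tipLam hlam _ X₀ 10 (9 / 10) hX0 (by norm_num) (by norm_num) (by norm_num)
      _ A3b_open (A3b_sub hX1) (A3b_diff _ _) h1 h2 (fun X z j => A3b_conj q0 μ κ X z j)
  choose! z hz using hex
  have hcont : ∀ μ κ : ℝ, ContinuousOn
      (fun p : ℂ × (Fin 5 → ℂ) => tipN (q0 : ℂ) (μ : ℂ) (κ : ℂ) p.1 p.2)
      (closedBall (0 : ℂ) X₀ ×ˢ closedBall (0 : Fin 5 → ℂ) 10) := fun μ κ =>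
    ((A3b_diff (μ : ℂ) (κ : ℂ)).continuousOn).mono (A3b_sub hX1)
  have hball : ∀ x ∈ Ioo (-X₀) X₀, (x : ℂ) ∈ closedBall (0 : ℂ) X₀ := by
    intro x hx
    rw [mem_closedBall_zero_iff, Complex.norm_real, Real.norm_eq_abs]
    exact (abs_lt.2 hx).le
  have hre : ∀ {a b : ℂ} , |a.re - b.re| ≤ ‖a - b‖ := fun {a b} => by
    rw [← Complex.sub_re]
    exact Complex.abs_re_le_norm _
  refine ⟨X₀, hX0, hX1, 10 * C, by positivity, fun μ κ j x => (z μ κ (x : ℂ) j).re, ?_, ?_, ?_, ?_⟩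
  · intro μ hμ κ hκ
    obtain ⟨h1, h2, h3⟩ := tip_fix_ode tipLam hlam _ X₀ 10 hX0 (by norm_num) _ A3b_open
      (A3b_sub hX1) (A3b_diff _ _) (z μ κ) (hz μ κ hμ hκ)
    refine ⟨h2, ?_, ?_⟩
    · intro j x hx
      refine (Complex.abs_re_le_norm _).trans ((norm_le_pi_norm (z μ κ (x : ℂ)) j).trans ?_)
      exact (hz μ κ hμ hκ).bd _ (hball x hx)
    · intro j x hx
      have h4 := h3 x hx j
      have h5 : z μ κ (x : ℂ) = fun i => (((z μ κ (x : ℂ) i).re : ℝ) : ℂ) := by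
        funext i
        exact (h1 x hx i).symm
      have h6 : tipN (q0 : ℂ) (μ : ℂ) (κ : ℂ) (x : ℂ) (z μ κ (x : ℂ)) j =
          ((tipN q0 μ κ x (fun i => (z μ κ (x : ℂ) i).re) j : ℝ) : ℂ) := by
        conv_lhs => rw [h5]
        exact A3b_ofReal q0 μ κ x _ j
      rw [h6, Complex.ofReal_re] at h4
      exact h4
  · intro μ hμ κ hκ μ' hμ' κ' hκ' x hx j
    obtain ⟨-, h2, h3⟩ := hbd μ hμ κ hκ
    have h4 := tip_fix_compare tipLam hlam _ (fun X z => tipN (q0 : ℂ) (μ' : ℂ) (κ' : ℂ) X z) X₀ 10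
      (9 / 10) (C * (|μ - μ'| + |κ - κ'|)) hX0 (by norm_num) (by norm_num) (by norm_num)
      (by positivity) (hcont μ κ) (hcont μ' κ') h2 (h3 μ' hμ' κ' hκ') _ _ (hz μ κ hμ hκ)
      (hz μ' κ' hμ' hκ') (x : ℂ) (hball x hx)
    have h5 : ‖z μ κ (x : ℂ) j - z μ' κ' (x : ℂ) j‖ ≤ ‖z μ κ (x : ℂ) - z μ' κ' (x : ℂ)‖ :=
      norm_le_pi_norm (z μ κ (x : ℂ) - z μ' κ' (x : ℂ)) j
    refine (hre.trans (h5.trans h4)).trans (le_of_eq ?_)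
    norm_num
    ring
  · intro κ hκ κ' hκ' x hx
    have h0 : (0 : ℝ) ∈ Icc (0 : ℝ) 1 := ⟨le_rfl, zero_le_one⟩
    obtain ⟨-, h2, -⟩ := hbd 0 h0 κ hκ
    have h4 := tip_fix_compare A3b_lam hlam3 (A3b_N κ) (A3b_N κ') X₀ 10 (9 / 10) 0 hX0
      (by norm_num) (by norm_num) (by norm_num) le_rfl (A3b_N_cont hX1 κ) (A3b_N_cont hX1 κ')
      (A3b_N_lip h2) (by
        intro X _ z _ j
        rw [A3b_N_indep κ κ']
        simp) _ _ (A3b_three (hz 0 κ h0 hκ)) (A3b_three (hz 0 κ' h0 hκ')) (x : ℂ) (hball x hx)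
    rw [zero_div] at h4
    have h5 := norm_le_zero_iff.1 h4
    have h6 : ∀ j : Fin 3, (![z 0 κ (x : ℂ) 0, z 0 κ (x : ℂ) 1, z 0 κ (x : ℂ) 2] : Fin 3 → ℂ) j =
        (![z 0 κ' (x : ℂ) 0, z 0 κ' (x : ℂ) 1, z 0 κ' (x : ℂ) 2] : Fin 3 → ℂ) j := fun j =>
      sub_eq_zero.1 (congrFun h5 j)
    exact ⟨congrArg Complex.re (h6 0), congrArg Complex.re (h6 1), congrArg Complex.re (h6 2)⟩
  · intro κ hκ x hx
    have h0 : (0 : ℝ) ∈ Icc (0 : ℝ) 1 := ⟨le_rfl, zero_le_one⟩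
    have h1 := (hz 0 κ h0 hκ).fix (x : ℂ) (hball x hx) 4
    simp only [A3b_c4, Complex.ofReal_zero, zero_mul, zero_div, mul_zero,
      intervalIntegral.integral_zero] at h1
    change (z 0 κ (x : ℂ) 4).re = 0
    rw [h1, Complex.zero_re]

end Pool.Agent.RS
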