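import Pool.Agent.Lib.MP_35abc2_gt.Sys

/-! # A4a: from the tip system to system (M) (MP_35abc2_gt) -/

open scoped ContDiff Topology NNReal
open Set Filter Real

noncomputable section

namespace Pool.Agent.RS

/-- A4a. The functions of `T` belonging to a tip solution satisfy the five equations of (M) for `T < (log X₀)/4`.

PROOF. With `x = e^{4T} ∈ (0, X₀)`: `y = 1 + xz₀ ∈ [1 - 10⁻⁴, 1 + 10⁻⁴]`, `p = q0 + x z₂ > 0`. From `4x z_j' + λ_j z_j = N_j` one gets
`4x y_x = (w/2-1) y`, `4x w_x = -[((3/2)(1+xy⁴) - μxy²/2) w - 3(1-xy⁴)]/p²`,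
`4x p_x = (w/2-3)p + [(3/2)(1+xy⁴) - μxy²/2]/p + μxyΨ`, `4xΨ_x = -6Ψ + (y/p)(3κ - g + μxΨ²)`, `4x g_x = μxΨy/p`
(e.g. `4x w_x = 4x(z₁ + x z₁') = x(N_1 - 2 z₁)`, using `q0² = 3/4`).  Then with `u = 2T + 2 log y` (so `e^{u} = y² e^{2T}`,
`cosh u = (e^u + e^{-u})/2`), `P = p e^{-T}/y`, `Φ = e^T Ψ`, `s = μ e^{2T}` the equations of (M) follow by the chain rule
(`d/dT = 4x d/dx`), e.g. `3 cosh u · e^u = (3/2)(1 + x y⁴)`, `6 sinh u · e^u = -3 (1 - x y⁴)`. -/
theorem tip_ode_part (μ κ X₀ : ℝ) (hμ : μ ∈ Icc (0 : ℝ) 1) (hκ : κ ∈ Icc (1 / 2 : ℝ) 1) (hX : 0 < X₀)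
    (hX' : X₀ ≤ 1 / 100000) (z : Fin 5 → ℝ → ℝ) (h : Tip μ κ X₀ z) (T : ℝ) (hT : T < log X₀ / 4) :
    0 < tipP z T ∧
    HasDerivAt (tipU z) (tipW z T) T ∧
    HasDerivAt (tipW z)
      (-((3 * cosh (tipU z T) - sM μ T / 2) * tipW z T + 6 * sinh (tipU z T)) / tipP z T ^ 2) T ∧
    HasDerivAt (tipP z)
      (-3 * tipP z T + (3 * cosh (tipU z T) - sM μ T / 2) / tipP z T + sM μ T * tipF κ z T) T ∧
    HasDerivAt (tipF κ z)
      (-5 * tipF κ z T + (3 * κ - tipG z T + sM μ T * tipF κ z T ^ 2) / tipP z T) T ∧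
    HasDerivAt (tipG z) (sM μ T * tipF κ z T / tipP z T) T := by
  set x : ℝ := exp (4 * T) with hx
  have hx0 : 0 < x := exp_pos _
  have hxX : x < X₀ := by
    rw [hx, ← exp_log hX]
    apply exp_lt_exp.2
    linarith
  have hxm : x ∈ Ioo (-X₀) X₀ := ⟨by linarith, hxX⟩
  -- derivatives of the components
  have hexp : HasDerivAt (fun T : ℝ => exp (4 * T)) (4 * x) T := by
    have h1 : HasDerivAt (fun T : ℝ => 4 * T) 4 T := by
      simpa using (hasDerivAt_id T).const_mul (4 : ℝ)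
    refine h1.exp.congr_deriv ?_
    rw [hx]; ring
  have hZ : ∀ j, HasDerivAt (fun T : ℝ => z j (exp (4 * T)))
      (tipN q0 μ κ x (fun i => z i x) j - tipLam j * z j x) T := by
    intro j
    have h1 : HasDerivAt (z j) (deriv (z j) x) (exp (4 * T)) := by
      have h2 : DifferentiableAt ℝ (z j) x :=
        ((h.smooth j).differentiableOn (by simp)).differentiableAt (Ioo_mem_nhds hxm.1 hxm.2)
      exact h2.hasDerivAt
    have h3 := h1.comp T hexp
    have h4 := h.ode j x hxm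
    refine h3.congr_deriv ?_
    linarith
  have hb0 := abs_le.1 (h.bound 0 x hxm)
  have hb2 := abs_le.1 (h.bound 2 x hxm)
  have hq1 : 1 / 2 < q0 := by
    unfold q0
    have : (1 : ℝ) < sqrt 3 := by
      rw [lt_sqrt (by norm_num)]; norm_num
    linarith
  have hqq : q0 ^ 2 = 3 / 4 := by
    unfold q0
    rw [div_pow, sq_sqrt (by norm_num)]; norm_num
  have hy0 : 0 < 1 + x * z 0 x := by nlinarith
  have hp0 : 0 < q0 + x * z 2 x := by nlinarith
  -- the derivatives of y, w, p, Ψ, g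
  have dy : HasDerivAt (fun T : ℝ => tipy z (exp (4 * T)))
      ((tipw z x / 2 - 1) * tipy z x) T := by
    unfold tipy
    refine ((hexp.mul (hZ 0)).const_add 1).congr_deriv ?_
    simp only [tipN, tipLam, tipw, Matrix.cons_val_zero]
    ring
  have dw : HasDerivAt (fun T : ℝ => tipw z (exp (4 * T)))
      (-((3 / 2 * (1 + x * tipy z x ^ 4) - μ * x * tipy z x ^ 2 / 2) * tipw z x
        - 3 * (1 - x * tipy z x ^ 4)) / tipp z x ^ 2) T := by
    unfold tipw
    refine ((hexp.mul (hZ 1)).const_add 2).congr_deriv ?_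
    simp only [tipN, tipLam, tipy, tipp, Matrix.cons_val_zero, Matrix.cons_val_one]
    field_simp
    ring
  have dp : HasDerivAt (fun T : ℝ => tipp z (exp (4 * T)))
      ((tipw z x / 2 - 3) * tipp z x + (3 / 2 * (1 + x * tipy z x ^ 4)
        - μ * x * tipy z x ^ 2 / 2) / tipp z x + μ * x * tipy z x * tipΨ κ z x) T := by
    unfold tipp
    refine ((hexp.mul (hZ 2)).const_add q0).congr_deriv ?_
    simp only [tipN, tipLam, tipy, tipw, tipΨ, Matrix.cons_val]
    refine sub_eq_zero.1 (Eq.trans (b := 2 / (q0 + x * z 2 x) * (q0 ^ 2 - 3 / 4)) ?_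
      (by rw [hqq]; ring))
    field_simp
    ring
  have dΨ : HasDerivAt (fun T : ℝ => tipΨ κ z (exp (4 * T)))
      (-6 * tipΨ κ z x + tipy z x / tipp z x * (3 * κ - tipg z x + μ * x * tipΨ κ z x ^ 2)) T := by
    unfold tipΨ
    refine ((hexp.mul (hZ 3)).const_add (2 * κ * q0 / 3)).congr_deriv ?_
    simp only [tipN, tipLam, tipy, tipp, tipg, Matrix.cons_val]
    have hq0 : q0 ≠ 0 := by positivity
    refine sub_eq_zero.1 (Eq.trans (b := 4 * κ / q0 * (q0 ^ 2 - 3 / 4)) ?_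
      (by rw [hqq]; ring))
    field_simp
    ring
  have dg : HasDerivAt (fun T : ℝ => tipg z (exp (4 * T)))
      (μ * x * tipΨ κ z x * tipy z x / tipp z x) T := by
    unfold tipg
    refine (hexp.mul (hZ 4)).congr_deriv ?_
    simp only [tipN, tipLam, tipy, tipp, tipΨ, Matrix.cons_val]
    ring
  -- abbreviations
  have hy : 0 < tipy z x := hy0
  have hp : 0 < tipp z x := hp0
  set E : ℝ := exp T with hE
  have hE0 : 0 < E := exp_pos _
  have hxE : x = E ^ 4 := by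
    rw [hx, hE, ← exp_nat_mul]; norm_num
  have hEm : exp (-T) = 1 / E := by rw [exp_neg, hE, one_div]
  have hE2 : exp (2 * T) = E ^ 2 := by
    rw [hE, ← exp_nat_mul]; norm_num
  have hs : sM μ T = μ * E ^ 2 := by unfold sM; rw [hE2]
  have heU : exp (tipU z T) = tipy z x ^ 2 * E ^ 2 := by
    unfold tipU
    rw [← hx, exp_add, hE2, show 2 * log (tipy z x) = log (tipy z x) + log (tipy z x) by ring,
      exp_add, exp_log hy]
    ring
  have hch : cosh (tipU z T) = (tipy z x ^ 2 * E ^ 2 + 1 / (tipy z x ^ 2 * E ^ 2)) / 2 := by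
    rw [cosh_eq, exp_neg, heU, one_div]
  have hsh : sinh (tipU z T) = (tipy z x ^ 2 * E ^ 2 - 1 / (tipy z x ^ 2 * E ^ 2)) / 2 := by
    rw [sinh_eq, exp_neg, heU, one_div]
  have hPv : tipP z T = tipp z x * (1 / E) / tipy z x := by
    unfold tipP
    rw [← hx, hEm]
  have hPp : 0 < tipP z T := by rw [hPv]; positivity
  have hWv : tipW z T = tipw z x := rfl
  have hFv : tipF κ z T = E * tipΨ κ z x := rfl
  have hGv : tipG z T = tipg z x := rfl
  refine ⟨hPp, ?_, ?_, ?_, ?_, ?_⟩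
  · unfold tipU
    have h1 : HasDerivAt (fun T : ℝ => 2 * T) 2 T := by
      simpa using (hasDerivAt_id T).const_mul (2 : ℝ)
    have h2 := h1.add ((dy.log hy.ne').const_mul 2)
    refine h2.congr_deriv ?_
    rw [hWv, ← hx]
    field_simp
    ring
  · unfold tipW
    refine dw.congr_deriv ?_
    rw [hch, hsh, hPv, hs, ← hx, hxE]
    rw [hxE] at hy hp
    field_simp
    ring
  · have h1 : HasDerivAt (fun T : ℝ => exp (-T)) (-exp (-T)) T := by
      simpa using (hasDerivAt_neg T).exp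
    unfold tipP
    refine ((dp.mul h1).div dy hy.ne').congr_deriv ?_
    simp only [Pi.mul_apply]
    rw [← hx, hch, hs, hFv, hEm, hxE]
    rw [hxE] at hy hp
    field_simp
    ring
  · have h1 : HasDerivAt (fun T : ℝ => exp T) (exp T) T := hasDerivAt_exp T
    unfold tipF
    refine (h1.mul dΨ).congr_deriv ?_
    rw [hGv, hPv, hs, ← hx, ← hE, hxE]
    rw [hxE] at hy hp
    field_simp
    ring
  · unfold tipG
    refine dg.congr_deriv ?_
    rw [hFv, hPv, hs, hxE]
    rw [hxE] at hy hp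
    field_simp

end Pool.Agent.RS
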