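import Pool.Agent.Lib.MP_35abc2_gt.K_Con

/-! # A4b: the constraint for tip solutions (MP_35abc2_gt) -/

open scoped ContDiff Topology NNReal
open Set Filter Real

noncomputable section

namespace Pool.Agent.RS

lemma A4b_q0 : q0 ^ 2 = 3 / 4 ∧ 86 / 100 < q0 ∧ q0 < 87 / 100 := by
  unfold q0
  have h1 : Real.sqrt 3 ^ 2 = 3 := Real.sq_sqrt (by norm_num)
  have h0 : 0 ≤ Real.sqrt 3 := Real.sqrt_nonneg 3
  refine ⟨by nlinarith, ?_, ?_⟩
  · have : (172 / 100 : ℝ) < Real.sqrt 3 := by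
      rw [Real.lt_sqrt (by norm_num)]; norm_num
    linarith
  · have : Real.sqrt 3 < 174 / 100 := by
      rw [Real.sqrt_lt' (by norm_num)]; norm_num
    linarith

lemma A4b_x {X₀ T : ℝ} (hX : 0 < X₀) (hT : T < log X₀ / 4) :
    exp (4 * T) ∈ Ioo 0 X₀ := by
  refine ⟨exp_pos _, ?_⟩
  rw [← Real.lt_log_iff_exp_lt hX]
  linarith

lemma A4b_bound {μ κ X₀ : ℝ} (hX : 0 < X₀) (hX' : X₀ ≤ 1 / 100000) {z : Fin 5 → ℝ → ℝ}
    (h : Tip μ κ X₀ z) {T : ℝ} (hT : T < log X₀ / 4) (j : Fin 5) :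
    |exp (4 * T) * z j (exp (4 * T))| ≤ 1 / 10000 := by
  have hx := A4b_x hX hT
  have h1 := h.bound j (exp (4 * T)) ⟨by linarith [hx.1], hx.2⟩
  rw [abs_mul, abs_of_pos hx.1]
  have h2 : exp (4 * T) ≤ 1 / 100000 := hx.2.le.trans hX'
  calc exp (4 * T) * |z j (exp (4 * T))| ≤ (1 / 100000) * 10 :=
        mul_le_mul h2 h1 (abs_nonneg _) (by norm_num)
    _ = 1 / 10000 := by norm_num

/-- the value of `e^u K` in terms of `x, y, w, p, Ψ, g` -/
lemma A4b_value (μ κ T y w p Ψ g : ℝ) (hy : 0 < y) :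
    exp (2 * T + 2 * log y) * conK κ (sM μ T) (2 * T + 2 * log y) w (p * exp (-T) / y)
      (exp T * Ψ) g
      = 6 * (1 + exp (4 * T) * y ^ 4) - 12 * p ^ 2 + p ^ 2 * w ^ 2
        + 8 * μ * exp (4 * T) * y * p * Ψ - μ ^ 2 * exp (4 * T) ^ 2 * y ^ 2 * Ψ ^ 2
        - 3 / 2 * μ * exp (4 * T) * y ^ 2 - μ * exp (4 * T) * y ^ 2 * (3 * κ - g) := by
  have hE : exp T ≠ 0 := (exp_pos T).ne'
  have h4 : exp (4 * T) = exp T ^ 4 := by rw [← exp_nat_mul]; norm_num
  have h2 : exp (2 * T) = exp T ^ 2 := by rw [← exp_nat_mul]; norm_num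
  have hm : exp (-T) = (exp T)⁻¹ := exp_neg T
  have hu : exp (2 * T + 2 * log y) = exp T ^ 2 * y ^ 2 := by
    rw [exp_add, h2]
    congr 1
    rw [show 2 * log y = log y + log y by ring, exp_add, exp_log hy]
    ring
  have hum : exp (-(2 * T + 2 * log y)) = (exp T ^ 2 * y ^ 2)⁻¹ := by rw [exp_neg, hu]
  unfold conK sM
  rw [Real.cosh_eq, hum, hu, h4, h2, hm]
  have hy' := hy.ne'
  field_simp
  ring

lemma A4b_tendsto_x : Tendsto (fun T : ℝ => exp (4 * T)) atBot (𝓝 0) :=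
  Real.tendsto_exp_atBot.comp (tendsto_id.const_mul_atBot (by norm_num : (0 : ℝ) < 4))

lemma A4b_tendsto {μ κ X₀ : ℝ} (hX : 0 < X₀) {z : Fin 5 → ℝ → ℝ}
    (h : Tip μ κ X₀ z) (j : Fin 5) :
    Tendsto (fun T : ℝ => exp (4 * T) * z j (exp (4 * T))) atBot (𝓝 0) := by
  have h1 : Tendsto (fun T : ℝ => exp (4 * T) * 10) atBot (𝓝 0) := by
    simpa using A4b_tendsto_x.mul_const (10 : ℝ)
  refine squeeze_zero_norm' ?_ h1
  filter_upwards [eventually_lt_atBot (log X₀ / 4)] with T hT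
  have hx := A4b_x hX hT
  rw [Real.norm_eq_abs, abs_mul, abs_of_pos hx.1]
  exact mul_le_mul_of_nonneg_left (h.bound j _ ⟨by linarith [hx.1], hx.2⟩) hx.1.le

/-- A4b. The constraint holds for tip solutions.

PROOF. `k̂(T) := e^{u} K` satisfies `k̂' = (w - 6 + 2 s Φ/P) k̂` (KP1), the coefficient is negative for `T < (log X₀)/4`
(`w = 2 + x z₁ ≤ 3`, `sΦ/P = μ x Ψ y/p ≤ 1/10`), so `k̂²` is nonincreasing in `T`; as `T → -∞`, `x = e^{4T} → 0` and
`k̂ = 6(1+xy⁴) - p²(12-w²) + 8μxypΨ - μ²x²y²Ψ² - (3/2)μxy² - μxy²(3κ-g) → 6 - 8 q0² = 0`.  Hence `k̂² ≤ 0`. -/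
theorem tip_con (μ κ X₀ : ℝ) (hμ : μ ∈ Icc (0 : ℝ) 1) (hκ : κ ∈ Icc (1 / 2 : ℝ) 1) (hX : 0 < X₀)
    (hX' : X₀ ≤ 1 / 100000) (z : Fin 5 → ℝ → ℝ) (h : Tip μ κ X₀ z)
    (hode : ∀ T, T < log X₀ / 4 → 0 < tipP z T ∧
      HasDerivAt (tipU z) (tipW z T) T ∧
      HasDerivAt (tipW z)
        (-((3 * cosh (tipU z T) - sM μ T / 2) * tipW z T + 6 * sinh (tipU z T)) / tipP z T ^ 2) T ∧
      HasDerivAt (tipP z)
        (-3 * tipP z T + (3 * cosh (tipU z T) - sM μ T / 2) / tipP z T + sM μ T * tipF κ z T) T ∧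
      HasDerivAt (tipF κ z)
        (-5 * tipF κ z T + (3 * κ - tipG z T + sM μ T * tipF κ z T ^ 2) / tipP z T) T ∧
      HasDerivAt (tipG z) (sM μ T * tipF κ z T / tipP z T) T) :
    ∀ T, T < log X₀ / 4 →
      conK κ (sM μ T) (tipU z T) (tipW z T) (tipP z T) (tipF κ z T) (tipG z T) = 0 := by
  obtain ⟨hq2, hq1, hq3⟩ := A4b_q0
  set k : ℝ → ℝ := fun T => exp (tipU z T) *
    conK κ (sM μ T) (tipU z T) (tipW z T) (tipP z T) (tipF κ z T) (tipG z T) with hk
  -- the derivative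
  have hder : ∀ T, T < log X₀ / 4 → HasDerivAt k
      ((tipW z T - 6 + 2 * sM μ T * tipF κ z T / tipP z T) * k T) T := by
    intro T hT
    obtain ⟨h1, h2, h3, h4, h5, h6⟩ := hode T hT
    have h7 := conK_deriv μ κ T _ _ _ _ _ h1 h2 h3 h4 h5 h6
    have h8 := h2.exp.mul h7
    refine h8.congr_deriv ?_
    rw [hk]
    ring
  -- bounds
  have hy : ∀ T, T < log X₀ / 4 → |tipy z (exp (4 * T)) - 1| ≤ 1 / 10000 := by
    intro T hT
    have := A4b_bound hX hX' h hT 0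
    unfold tipy
    rwa [add_sub_cancel_left]
  have hcoef : ∀ T, T < log X₀ / 4 →
      tipW z T - 6 + 2 * sM μ T * tipF κ z T / tipP z T ≤ 0 := by
    intro T hT
    have hx := A4b_x hX hT
    have b1 := abs_le.1 (A4b_bound hX hX' h hT 1)
    have b2 := abs_le.1 (A4b_bound hX hX' h hT 2)
    have b3 := abs_le.1 (A4b_bound hX hX' h hT 3)
    have by' := abs_le.1 (hy T hT)
    set x := exp (4 * T) with hxdef
    have hy0 : 0 < tipy z x := by linarith
    have hp0 : 8 / 10 ≤ tipp z x := by unfold tipp; linarith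
    have hΨ : tipΨ κ z x ≤ 1 := by
      unfold tipΨ
      have : κ * q0 ≤ 1 * 1 := mul_le_mul hκ.2 (by linarith) (by linarith) (by norm_num)
      linarith
    have hΨ0 : 0 ≤ tipΨ κ z x := by
      unfold tipΨ
      have : (1 / 2 : ℝ) * (8 / 10) ≤ κ * q0 :=
        mul_le_mul hκ.1 (by linarith) (by norm_num) (by linarith [hκ.1])
      linarith
    have hrew : 2 * sM μ T * tipF κ z T / tipP z T
        = 2 * (μ * x * tipΨ κ z x * tipy z x / tipp z x) := by
      unfold sM tipF tipP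
      rw [← hxdef]
      have hE : exp T ≠ 0 := (exp_pos T).ne'
      have h4 : x = exp T ^ 4 := by rw [hxdef, ← exp_nat_mul]; norm_num
      have h2 : exp (2 * T) = exp T ^ 2 := by rw [← exp_nat_mul]; norm_num
      have hm : exp (-T) = (exp T)⁻¹ := exp_neg T
      rw [h2, hm]
      have hp' : tipp z x ≠ 0 := by linarith
      have hy' : tipy z x ≠ 0 := hy0.ne'
      generalize tipΨ κ z x = Ψ
      generalize tipp z x = p at *
      generalize tipy z x = y at *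
      rw [h4]
      field_simp
    have hle : μ * x * tipΨ κ z x * tipy z x / tipp z x ≤ 1 := by
      rw [div_le_one (by linarith)]
      have h1 : μ * x ≤ 1 * (1 / 100000) :=
        mul_le_mul hμ.2 (hx.2.le.trans hX') hx.1.le (by norm_num)
      have h2 : μ * x * tipΨ κ z x ≤ (1 * (1 / 100000)) * 1 :=
        mul_le_mul h1 hΨ hΨ0 (by norm_num)
      have h3 : μ * x * tipΨ κ z x * tipy z x ≤ (1 * (1 / 100000)) * 1 * 2 :=
        mul_le_mul h2 (by linarith) hy0.le (by norm_num)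
      linarith
    have hw : tipW z T ≤ 3 := by
      unfold tipW tipw
      linarith
    rw [hrew]
    linarith
  -- monotonicity of the square
  have hmono : ∀ T T', T' ≤ T → T < log X₀ / 4 → k T ^ 2 ≤ k T' ^ 2 := by
    intro T T' hTT hT
    have hanti : AntitoneOn (fun t => k t ^ 2) (Iio (log X₀ / 4)) := by
      refine antitoneOn_of_deriv_nonpos (convex_Iio _) ?_ ?_ ?_
      · intro t ht
        exact ((hder t ht).continuousAt.pow 2).continuousWithinAt
      · intro t ht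
        rw [interior_Iio] at ht
        exact ((hder t ht).pow 2).differentiableAt.differentiableWithinAt
      · intro t ht
        rw [interior_Iio] at ht
        rw [((hder t ht).fun_pow 2).deriv]
        have h1 := hcoef t ht
        have h2 : (0 : ℝ) ≤ k t ^ 2 := sq_nonneg _
        have h3 : ((2 : ℕ) : ℝ) * k t ^ (2 - 1) *
            ((tipW z t - 6 + 2 * sM μ t * tipF κ z t / tipP z t) * k t)
            = 2 * ((tipW z t - 6 + 2 * sM μ t * tipF κ z t / tipP z t) * k t ^ 2) := by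
          push_cast
          ring
        rw [h3]
        have h4 := mul_nonpos_of_nonpos_of_nonneg h1 h2
        linarith
    exact hanti (show T' ∈ Iio (log X₀ / 4) from lt_of_le_of_lt hTT hT) hT hTT
  -- the limit
  have hlim : Tendsto k atBot (𝓝 0) := by
    have t0 := A4b_tendsto hX h 0
    have t1 := A4b_tendsto hX h 1
    have t2 := A4b_tendsto hX h 2
    have t3 := A4b_tendsto hX h 3
    have t4 := A4b_tendsto hX h 4
    have tx := A4b_tendsto_x
    have ty : Tendsto (fun T : ℝ => tipy z (exp (4 * T))) atBot (𝓝 1) := by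
      simpa [tipy] using t0.const_add (1 : ℝ)
    have tw : Tendsto (fun T : ℝ => tipw z (exp (4 * T))) atBot (𝓝 2) := by
      simpa [tipw] using t1.const_add (2 : ℝ)
    have tp : Tendsto (fun T : ℝ => tipp z (exp (4 * T))) atBot (𝓝 q0) := by
      simpa [tipp] using t2.const_add q0
    have tΨ : Tendsto (fun T : ℝ => tipΨ κ z (exp (4 * T))) atBot (𝓝 (2 * κ * q0 / 3)) := by
      simpa [tipΨ] using t3.const_add (2 * κ * q0 / 3)
    have tg : Tendsto (fun T : ℝ => tipg z (exp (4 * T))) atBot (𝓝 0) := t4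
    have hL : Tendsto (fun T : ℝ => 6 * (1 + exp (4 * T) * tipy z (exp (4 * T)) ^ 4)
        - 12 * tipp z (exp (4 * T)) ^ 2 + tipp z (exp (4 * T)) ^ 2 * tipw z (exp (4 * T)) ^ 2
        + 8 * μ * exp (4 * T) * tipy z (exp (4 * T)) * tipp z (exp (4 * T)) *
          tipΨ κ z (exp (4 * T))
        - μ ^ 2 * exp (4 * T) ^ 2 * tipy z (exp (4 * T)) ^ 2 * tipΨ κ z (exp (4 * T)) ^ 2
        - 3 / 2 * μ * exp (4 * T) * tipy z (exp (4 * T)) ^ 2
        - μ * exp (4 * T) * tipy z (exp (4 * T)) ^ 2 * (3 * κ - tipg z (exp (4 * T)))) atBot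
        (𝓝 (6 * (1 + 0 * 1 ^ 4) - 12 * q0 ^ 2 + q0 ^ 2 * 2 ^ 2
          + 8 * μ * 0 * 1 * q0 * (2 * κ * q0 / 3) - μ ^ 2 * 0 ^ 2 * 1 ^ 2 * (2 * κ * q0 / 3) ^ 2
          - 3 / 2 * μ * 0 * 1 ^ 2 - μ * 0 * 1 ^ 2 * (3 * κ - 0))) := by
      refine ((((((((tx.mul (ty.pow 4)).const_add 1).const_mul 6).sub
        ((tp.pow 2).const_mul 12)).add ((tp.pow 2).mul (tw.pow 2))).add
        ((((tx.const_mul (8 * μ)).mul ty).mul tp).mul tΨ)).sub
        ((((tx.pow 2).const_mul (μ ^ 2)).mul (ty.pow 2)).mul (tΨ.pow 2))).sub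
        ((tx.const_mul (3 / 2 * μ)).mul (ty.pow 2))).sub
        (((tx.const_mul μ).mul (ty.pow 2)).mul (tg.const_sub (3 * κ)))
    have hval : (6 * (1 + 0 * 1 ^ 4) - 12 * q0 ^ 2 + q0 ^ 2 * 2 ^ 2
          + 8 * μ * 0 * 1 * q0 * (2 * κ * q0 / 3) - μ ^ 2 * 0 ^ 2 * 1 ^ 2 * (2 * κ * q0 / 3) ^ 2
          - 3 / 2 * μ * 0 * 1 ^ 2 - μ * 0 * 1 ^ 2 * (3 * κ - 0)) = 0 := by
      rw [hq2]; ring
    rw [hval] at hL
    refine hL.congr' ?_
    filter_upwards [eventually_lt_atBot (log X₀ / 4)] with T hT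
    have hy0 : 0 < tipy z (exp (4 * T)) := by
      have := abs_le.1 (hy T hT)
      linarith
    exact (A4b_value μ κ T (tipy z (exp (4 * T))) (tipw z (exp (4 * T)))
      (tipp z (exp (4 * T))) (tipΨ κ z (exp (4 * T))) (tipg z (exp (4 * T))) hy0).symm
  intro T hT
  have hlim2 : Tendsto (fun t => k t ^ 2) atBot (𝓝 0) := by simpa using hlim.pow 2
  have h1 : k T ^ 2 ≤ 0 := by
    refine ge_of_tendsto hlim2 ?_
    filter_upwards [eventually_le_atBot T] with T' hT'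
    exact hmono T T' hT' hT
  have h2 : k T = 0 := by
    have : k T ^ 2 = 0 := le_antisymm h1 (sq_nonneg _)
    exact pow_eq_zero_iff (two_ne_zero) |>.1 this
  rcases mul_eq_zero.1 h2 with h3 | h3
  · exact absurd h3 (exp_pos _).ne'
  · exact h3

end Pool.Agent.RS
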