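import Mathlib

/-! # T2: clamps (MP_35abc2_gt) -/

open scoped ContDiff Topology NNReal
open Set Filter

noncomputable section

namespace Pool.Agent.RS

/-- coordinatewise clamp to the box `[lo, hi]` -/
def clampV {n : ℕ} (lo hi : Fin n → ℝ) (v : Fin n → ℝ) : Fin n → ℝ :=
  fun i => max (lo i) (min (hi i) (v i))

/-- symmetric clamp `cl c x = max (-c) (min c x)` -/
def cl (c x : ℝ) : ℝ := max (-c) (min c x)

theorem cl_abs_le {c : ℝ} (hc : 0 ≤ c) (x : ℝ) : |cl c x| ≤ c := by
  unfold cl
  rw [abs_le]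
  exact ⟨le_max_left _ _, max_le (by linarith) (min_le_left _ _)⟩

theorem cl_abs_le' {c : ℝ} (hc : 0 ≤ c) (x : ℝ) : |cl c x| ≤ |x| := by
  unfold cl
  rcases le_total 0 x with hx | hx
  · rw [abs_of_nonneg hx, abs_le]
    exact ⟨le_trans (by linarith) (le_max_of_le_right (le_min hc hx)), max_le (by linarith) (min_le_right _ _)⟩
  · rw [abs_of_nonpos hx, abs_le]
    refine ⟨?_, max_le (by linarith) ((min_le_right _ _).trans (by linarith))⟩
    rw [neg_neg]
    exact le_max_of_le_right (le_min (by linarith) le_rfl)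

theorem cl_of_abs_le {c x : ℝ} (h : |x| ≤ c) : cl c x = x := by
  unfold cl
  rw [abs_le] at h
  rw [min_eq_right h.2, max_eq_right h.1]

/-- `cl c x` has the sign of `x`: for `x ≥ 0` it is `min c x`. -/
theorem cl_of_nonneg {c x : ℝ} (hc : 0 ≤ c) (hx : 0 ≤ x) : cl c x = min c x := by
  unfold cl
  exact max_eq_right (by have := le_min hc hx; linarith)

theorem cl_of_nonpos {c x : ℝ} (hc : 0 ≤ c) (hx : x ≤ 0) : cl c x = -min c (-x) := by
  unfold cl
  rw [min_eq_right (by linarith : x ≤ c)]
  have : -min c (-x) = max (-c) x := by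
    rw [← max_neg_neg, neg_neg]
  rw [this]

theorem cl_lip (c x y : ℝ) : |cl c x - cl c y| ≤ |x - y| := by
  unfold cl
  refine (abs_max_sub_max_le_max _ _ _ _).trans ?_
  rw [sub_self, abs_zero]
  refine max_le (abs_nonneg _) ?_
  refine (abs_min_sub_min_le_max _ _ _ _).trans ?_
  rw [sub_self, abs_zero]
  exact max_le (abs_nonneg _) le_rfl

theorem clampV_mem {n : ℕ} {lo hi : Fin n → ℝ} (h : lo ≤ hi) (v : Fin n → ℝ) :
    clampV lo hi v ∈ Icc lo hi := by
  refine ⟨fun i => le_max_left _ _, fun i => max_le (h i) (min_le_left _ _)⟩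

theorem clampV_of_mem {n : ℕ} {lo hi v : Fin n → ℝ} (h : v ∈ Icc lo hi) : clampV lo hi v = v := by
  funext i
  unfold clampV
  rw [min_eq_right (h.2 i), max_eq_right (h.1 i)]

/-- A `C¹` map composed with the clamp to a compact box is globally Lipschitz.

PROOF. The clamp is 1-Lipschitz for the sup norm and maps into the compact convex box, on which `G` is
Lipschitz (bounded derivative by compactness and the mean value inequality on convex sets;
e.g. `ContDiffOn.exists_lipschitzOnWith` / `Convex.lipschitzOnWith_of_nnnorm_fderivWithin_le`,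
or locally Lipschitz on a compact set). -/
theorem lip_clamp {n : ℕ} {F : Type*} [NormedAddCommGroup F] [NormedSpace ℝ F] (lo hi : Fin n → ℝ)
    (h : lo ≤ hi) (G : (Fin n → ℝ) → F) (U : Set (Fin n → ℝ)) (hU : IsOpen U) (hsub : Icc lo hi ⊆ U)
    (hG : ContDiffOn ℝ 1 G U) : ∃ L : ℝ≥0, LipschitzWith L (fun v => G (clampV lo hi v)) := by
  have hcl : LipschitzWith 1 (clampV lo hi) := by
    refine LipschitzWith.of_dist_le_mul ?_
    intro v w
    rw [NNReal.coe_one, one_mul]
    refine (dist_pi_le_iff dist_nonneg).2 ?_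
    intro i
    refine le_trans ?_ (dist_le_pi_dist v w i)
    rw [Real.dist_eq, Real.dist_eq]
    unfold clampV
    refine (abs_max_sub_max_le_max _ _ _ _).trans ?_
    rw [sub_self, abs_zero]
    refine max_le (abs_nonneg _) ?_
    refine (abs_min_sub_min_le_max _ _ _ _).trans ?_
    rw [sub_self, abs_zero]
    exact max_le (abs_nonneg _) le_rfl
  have hK : IsCompact (Icc lo hi) := isCompact_Icc
  have hcv : Convex ℝ (Icc lo hi) := convex_Icc lo hi
  have hcont : ContinuousOn (fun x => fderiv ℝ G x) U := hG.continuousOn_fderiv_of_isOpen hU le_rfl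
  obtain ⟨C, hC⟩ := hK.exists_bound_of_continuousOn (hcont.mono hsub)
  have hmem : clampV lo hi 0 ∈ Icc lo hi :=
    ⟨fun i => le_max_left _ _, fun i => max_le (h i) (min_le_left _ _)⟩
  have hC0 : 0 ≤ C := (norm_nonneg _).trans (hC _ hmem)
  have hlip : LipschitzOnWith ⟨C, hC0⟩ G (Icc lo hi) := by
    refine hcv.lipschitzOnWith_of_nnnorm_hasFDerivWithin_le (f' := fun x => fderiv ℝ G x) ?_ ?_
    · intro x hx
      have hd : DifferentiableAt ℝ G x :=
        (hG.differentiableOn one_ne_zero).differentiableAt (hU.mem_nhds (hsub hx))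
      exact hd.hasFDerivAt.hasFDerivWithinAt
    · intro x hx
      exact hC x hx
  refine ⟨⟨C, hC0⟩ * 1, ?_⟩
  have := hlip.comp (hcl.lipschitzOnWith (s := univ)) (fun v _ =>
    (⟨fun i => le_max_left _ _, fun i => max_le (h i) (min_le_left _ _)⟩ : clampV lo hi v ∈ Icc lo hi))
  exact lipschitzOnWith_univ.1 this

end Pool.Agent.RS
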