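import Pool.Agent.Lib.MP_35abc2_gt.T1_Flow
import Pool.Agent.Lib.MP_35abc2_gt.T2_Clamp

/-! # B1: the planar system of the Ricci-flat (Böhm) metric (MP_35abc2_gt) -/

open scoped ContDiff Topology NNReal
open Set Filter Real

noncomputable section

namespace Pool.Agent.RS

theorem b1_tanh_deriv (x : ℝ) : HasDerivAt Real.tanh (1 - Real.tanh x ^ 2) x := by
  have h1 : Real.tanh = fun x => Real.sinh x / Real.cosh x := by
    funext y; exact Real.tanh_eq_sinh_div_cosh y
  have hc : Real.cosh x ≠ 0 := (Real.cosh_pos x).ne'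
  have h2 := (Real.hasDerivAt_sinh x).div (Real.hasDerivAt_cosh x) hc
  rw [h1]
  refine h2.congr_deriv ?_
  field_simp

theorem b1_one_sub (x : ℝ) : 1 - Real.tanh x ^ 2 = 1 / Real.cosh x ^ 2 := by
  have hc : Real.cosh x ≠ 0 := (Real.cosh_pos x).ne'
  have h := Real.cosh_sq x
  rw [Real.tanh_eq_sinh_div_cosh]
  field_simp
  linarith

theorem b1_tanh_lip (x y : ℝ) : |Real.tanh x - Real.tanh y| ≤ |x - y| := by
  have h : LipschitzWith 1 Real.tanh := by
    refine lipschitzWith_of_nnnorm_deriv_le (fun z => (b1_tanh_deriv z).differentiableAt) ?_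
    intro z
    rw [(b1_tanh_deriv z).deriv]
    rw [← NNReal.coe_le_coe, coe_nnnorm, Real.norm_eq_abs, NNReal.coe_one, abs_le]
    have h1 := Real.tanh_sq_lt_one z
    have h2 := sq_nonneg (Real.tanh z)
    constructor <;> linarith
  have := h.dist_le_mul x y
  simpa [Real.dist_eq] using this

/-- the field in the coordinates `(u, v)`, `w = √12 tanh v`. -/
def b1F (p : ℝ × ℝ) : ℝ × ℝ :=
  (√12 * Real.tanh p.2, -3 * Real.tanh p.2 - √12 / 2 * Real.tanh p.1)

theorem b1_s_sq : (√12 : ℝ) ^ 2 = 12 := Real.sq_sqrt (by norm_num)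

theorem b1_s_pos : (0 : ℝ) < √12 := Real.sqrt_pos.2 (by norm_num)

theorem b1_s_lt : (√12 : ℝ) < 3.5 := by
  rw [Real.sqrt_lt' (by norm_num)]
  norm_num

theorem b1F_lip : LipschitzWith 5 b1F := by
  refine LipschitzWith.of_dist_le_mul ?_
  intro p q
  have hs := b1_s_lt
  have hs0 := b1_s_pos
  have h1 := b1_tanh_lip p.1 q.1
  have h2 := b1_tanh_lip p.2 q.2
  have e1 : |p.1 - q.1| ≤ dist p q := by
    rw [← Real.dist_eq]; exact le_max_left _ _
  have e2 : |p.2 - q.2| ≤ dist p q := by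
    rw [← Real.dist_eq]; exact le_max_right _ _
  have hd : 0 ≤ dist p q := dist_nonneg
  rw [Prod.dist_eq]
  refine max_le ?_ ?_
  · rw [Real.dist_eq]
    have : (b1F p).1 - (b1F q).1 = √12 * (Real.tanh p.2 - Real.tanh q.2) := by
      simp [b1F]; ring
    rw [this, abs_mul, abs_of_pos hs0]
    have h3 : |Real.tanh p.2 - Real.tanh q.2| ≤ dist p q := h2.trans e2
    have : √12 * |Real.tanh p.2 - Real.tanh q.2| ≤ 3.5 * dist p q :=
      mul_le_mul hs.le h3 (abs_nonneg _) (by norm_num)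
    push_cast
    linarith
  · rw [Real.dist_eq]
    have : (b1F p).2 - (b1F q).2 = -3 * (Real.tanh p.2 - Real.tanh q.2)
        - √12 / 2 * (Real.tanh p.1 - Real.tanh q.1) := by
      simp [b1F]; ring
    rw [this]
    have h3 : |Real.tanh p.2 - Real.tanh q.2| ≤ dist p q := h2.trans e2
    have h4 : |Real.tanh p.1 - Real.tanh q.1| ≤ dist p q := h1.trans e1
    have h5 : √12 / 2 * |Real.tanh p.1 - Real.tanh q.1| ≤ 1.75 * dist p q :=
      mul_le_mul (by linarith) h4 (abs_nonneg _) (by norm_num)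
    calc |-3 * (Real.tanh p.2 - Real.tanh q.2) - √12 / 2 * (Real.tanh p.1 - Real.tanh q.1)|
        ≤ |-3 * (Real.tanh p.2 - Real.tanh q.2)| + |√12 / 2 * (Real.tanh p.1 - Real.tanh q.1)| :=
          abs_sub _ _
      _ = 3 * |Real.tanh p.2 - Real.tanh q.2| + √12 / 2 * |Real.tanh p.1 - Real.tanh q.1| := by
          rw [abs_mul, abs_mul, abs_of_pos (by positivity : (0:ℝ) < √12 / 2)]
          norm_num
      _ ≤ _ := by push_cast; linarith

theorem b1_logcosh_ge (x : ℝ) : Real.tanh x ^ 2 / 2 ≤ Real.log (Real.cosh x) := by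
  have hc := Real.cosh_pos x
  have h1 : Real.log (1 / Real.cosh x ^ 2) ≤ 1 / Real.cosh x ^ 2 - 1 :=
    Real.log_le_sub_one_of_pos (by positivity)
  rw [one_div, Real.log_inv, Real.log_pow, ← one_div, ← b1_one_sub] at h1
  push_cast at h1
  linarith

theorem b1_logcosh_le (x : ℝ) :
    Real.log (Real.cosh x) ≤ Real.tanh x ^ 2 * Real.cosh x ^ 2 / 2 := by
  have hc := Real.cosh_pos x
  have h1 : Real.log (Real.cosh x ^ 2) ≤ Real.cosh x ^ 2 - 1 :=
    Real.log_le_sub_one_of_pos (by positivity)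
  rw [Real.log_pow] at h1
  have h2 : Real.tanh x ^ 2 * Real.cosh x ^ 2 = Real.cosh x ^ 2 - 1 := by
    have h := b1_one_sub x
    have : (1 - Real.tanh x ^ 2) * Real.cosh x ^ 2 = 1 := by
      rw [h]; field_simp
    linarith
  push_cast at h1
  linarith

theorem b1_logcosh_deriv {f : ℝ → ℝ} {f' x : ℝ} (hf : HasDerivAt f f' x) :
    HasDerivAt (fun T => Real.log (Real.cosh (f T))) (Real.tanh (f x) * f') x := by
  have h1 := hf.cosh.log (Real.cosh_pos (f x)).ne'
  refine h1.congr_deriv ?_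
  rw [Real.tanh_eq_sinh_div_cosh]
  ring

/-- The Lyapunov argument. -/
theorem b1_conv (T₀ : ℝ) (u v : ℝ → ℝ)
    (hu : ∀ T, HasDerivAt u (√12 * Real.tanh (v T)) T)
    (hv : ∀ T, HasDerivAt v (-3 * Real.tanh (v T) - √12 / 2 * Real.tanh (u T)) T) :
    Tendsto (fun T => Real.tanh (u T)) atTop (𝓝 0) ∧
      Tendsto (fun T => Real.tanh (v T)) atTop (𝓝 0) := by
  have hs2 := b1_s_sq
  have hs0 := b1_s_pos
  have hsl := b1_s_lt
  set s : ℝ := √12 with hs
  -- energy
  set E : ℝ → ℝ := fun T => 4 * Real.log (Real.cosh (v T)) + 2 * Real.log (Real.cosh (u T)) with hE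
  have hE' : ∀ T, HasDerivAt E (-12 * Real.tanh (v T) ^ 2) T := by
    intro T
    have h1 := (b1_logcosh_deriv (hv T)).const_mul 4
    have h2 := (b1_logcosh_deriv (hu T)).const_mul 2
    refine (h1.add h2).congr_deriv ?_
    ring
  have hEanti : Antitone E := by
    refine antitone_of_deriv_nonpos (fun T => (hE' T).differentiableAt) ?_
    intro T
    rw [(hE' T).deriv]
    nlinarith [sq_nonneg (Real.tanh (v T))]
  have hlu : ∀ T, 0 ≤ Real.log (Real.cosh (u T)) := fun T =>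
    le_trans (by positivity) (b1_logcosh_ge (u T))
  have hlv : ∀ T, 0 ≤ Real.log (Real.cosh (v T)) := fun T =>
    le_trans (by positivity) (b1_logcosh_ge (v T))
  set E₀ : ℝ := E T₀ with hE₀
  have hE₀0 : 0 ≤ E₀ := by
    have := hlu T₀
    have := hlv T₀
    simp only [hE₀, hE]
    linarith
  -- bounds for cosh
  have hcv : ∀ T, T₀ ≤ T → Real.cosh (v T) ^ 2 ≤ Real.exp E₀ := by
    intro T hT
    have h1 : E T ≤ E₀ := hEanti hT
    have h2 := hlu T
    have h3 := hlv T
    have h4 : 2 * Real.log (Real.cosh (v T)) ≤ E₀ := by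
      simp only [hE] at h1
      linarith
    have h5 : Real.log (Real.cosh (v T) ^ 2) ≤ E₀ := by
      rw [Real.log_pow]; push_cast; exact h4
    exact (Real.log_le_iff_le_exp (by have := Real.cosh_pos (v T); positivity)).1 h5
  have hcu : ∀ T, T₀ ≤ T → Real.cosh (u T) ^ 2 ≤ Real.exp E₀ := by
    intro T hT
    have h1 : E T ≤ E₀ := hEanti hT
    have h2 := hlu T
    have h3 := hlv T
    have h4 : 2 * Real.log (Real.cosh (u T)) ≤ E₀ := by
      simp only [hE] at h1
      linarith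
    have h5 : Real.log (Real.cosh (u T) ^ 2) ≤ E₀ := by
      rw [Real.log_pow]; push_cast; exact h4
    exact (Real.log_le_iff_le_exp (by have := Real.cosh_pos (u T); positivity)).1 h5
  set c₀ : ℝ := Real.exp (-E₀) with hc₀
  have hc₀p : 0 < c₀ := Real.exp_pos _
  have hc₀1 : c₀ ≤ 1 := by
    rw [hc₀]; exact Real.exp_le_one_iff.2 (by linarith)
  have hone : ∀ T, T₀ ≤ T → c₀ ≤ 1 - Real.tanh (v T) ^ 2 := by
    intro T hT
    rw [b1_one_sub, hc₀, Real.exp_neg, one_div]
    exact inv_anti₀ (by have := Real.cosh_pos (v T); positivity) (hcv T hT)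
  -- Lyapunov function
  set V : ℝ → ℝ := fun T => E T + s / 10 * (Real.tanh (v T) * Real.tanh (u T)) with hV
  have hV' : ∀ T, HasDerivAt V (-12 * Real.tanh (v T) ^ 2 + s / 10 *
      ((1 - Real.tanh (v T) ^ 2) * (-3 * Real.tanh (v T) - s / 2 * Real.tanh (u T))
        * Real.tanh (u T) + Real.tanh (v T) * ((1 - Real.tanh (u T) ^ 2)
        * (s * Real.tanh (v T))))) T := by
    intro T
    have h1 : HasDerivAt (fun T => Real.tanh (v T)) _ T := (b1_tanh_deriv (v T)).comp T (hv T)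
    have h2 : HasDerivAt (fun T => Real.tanh (u T)) _ T := (b1_tanh_deriv (u T)).comp T (hu T)
    exact (hE' T).add ((h1.mul h2).const_mul (s / 10))
  have hVder : ∀ T, T₀ ≤ T → deriv V T ≤
      -(3 / 10 * c₀) * (Real.tanh (v T) ^ 2 + Real.tanh (u T) ^ 2) := by
    intro T hT
    rw [(hV' T).deriv]
    have hc := hone T hT
    set a := Real.tanh (v T)
    set b := Real.tanh (u T)
    have ha : 0 ≤ a ^ 2 := sq_nonneg a
    have hb : 0 ≤ b ^ 2 := sq_nonneg b
    have hca : 0 ≤ 1 - a ^ 2 := hc₀p.le.trans hc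
    have hexp : -12 * a ^ 2 + s / 10 * ((1 - a ^ 2) * (-3 * a - s / 2 * b) * b +
        a * ((1 - b ^ 2) * (s * a))) = -12 * a ^ 2 - (3 * s / 10) * (1 - a ^ 2) * (a * b)
        - s ^ 2 / 20 * (1 - a ^ 2) * b ^ 2 + s ^ 2 / 10 * a ^ 2 * (1 - b ^ 2) := by ring
    rw [hexp, hs2]
    have hyoung : -(3 * s / 10) * (a * b) ≤ 3 / 10 * b ^ 2 + 9 / 10 * a ^ 2 := by
      have : 0 ≤ (s * a + 2 * b) ^ 2 := sq_nonneg _
      nlinarith [this]
    have hy2 : (1 - a ^ 2) * (-(3 * s / 10) * (a * b)) ≤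
        (1 - a ^ 2) * (3 / 10 * b ^ 2 + 9 / 10 * a ^ 2) := mul_le_mul_of_nonneg_left hyoung hca
    have hab : 0 ≤ a ^ 2 * b ^ 2 := mul_nonneg ha hb
    have ha1 : a ^ 2 ≤ 1 := by linarith
    have hcb : c₀ * b ^ 2 ≤ (1 - a ^ 2) * b ^ 2 := mul_le_mul_of_nonneg_right hc hb
    have hc₀a : c₀ * a ^ 2 ≤ a ^ 2 := by nlinarith
    have haa : 0 ≤ a ^ 2 * a ^ 2 := mul_nonneg ha ha
    nlinarith
  -- two sided bounds for V
  have hab : ∀ T, |s / 10 * (Real.tanh (v T) * Real.tanh (u T))| ≤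
      1 / 5 * (Real.tanh (v T) ^ 2 + Real.tanh (u T) ^ 2) := by
    intro T
    set a := Real.tanh (v T)
    set b := Real.tanh (u T)
    rw [abs_le]
    constructor
    · nlinarith [sq_nonneg (a + b), sq_nonneg (a - b)]
    · nlinarith [sq_nonneg (a + b), sq_nonneg (a - b)]
  have hVlow : ∀ T, 4 / 5 * (Real.tanh (v T) ^ 2 + Real.tanh (u T) ^ 2) ≤ V T := by
    intro T
    have h1 := b1_logcosh_ge (u T)
    have h2 := b1_logcosh_ge (v T)
    have h3 := (abs_le.1 (hab T)).1
    simp only [hV, hE]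
    nlinarith [sq_nonneg (Real.tanh (v T))]
  set C : ℝ := 3 * Real.exp E₀ with hC
  have hCp : 0 < C := by positivity
  have hexp1 : 1 ≤ Real.exp E₀ := Real.one_le_exp hE₀0
  have hVup : ∀ T, T₀ ≤ T → V T ≤ C * (Real.tanh (v T) ^ 2 + Real.tanh (u T) ^ 2) := by
    intro T hT
    have h1 := b1_logcosh_le (u T)
    have h2 := b1_logcosh_le (v T)
    have h3 := (abs_le.1 (hab T)).2
    have h4 := hcu T hT
    have h5 := hcv T hT
    have h6 : Real.tanh (u T) ^ 2 * Real.cosh (u T) ^ 2 ≤ Real.tanh (u T) ^ 2 * Real.exp E₀ :=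
      mul_le_mul_of_nonneg_left h4 (sq_nonneg _)
    have h7 : Real.tanh (v T) ^ 2 * Real.cosh (v T) ^ 2 ≤ Real.tanh (v T) ^ 2 * Real.exp E₀ :=
      mul_le_mul_of_nonneg_left h5 (sq_nonneg _)
    simp only [hV, hE, hC]
    nlinarith [sq_nonneg (Real.tanh (v T)), sq_nonneg (Real.tanh (u T))]
  -- exponential decay
  set lam : ℝ := 3 / 10 * c₀ / C with hlam
  have hlamp : 0 < lam := by positivity
  have hdec : ∀ T, T₀ ≤ T → V T ≤ V T₀ * Real.exp (-(lam * (T - T₀))) := by
    have hg : ∀ T, HasDerivAt (fun T => V T * Real.exp (lam * (T - T₀)))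
        ((deriv V T + lam * V T) * Real.exp (lam * (T - T₀))) T := by
      intro T
      have h1 : HasDerivAt (fun T => Real.exp (lam * (T - T₀)))
          (Real.exp (lam * (T - T₀)) * (lam * 1)) T :=
        (((hasDerivAt_id T).sub_const T₀).const_mul lam).exp
      have h0 : HasDerivAt V (deriv V T) T := (hV' T).differentiableAt.hasDerivAt
      refine (h0.mul h1).congr_deriv ?_
      ring
    have hanti : AntitoneOn (fun T => V T * Real.exp (lam * (T - T₀))) (Ici T₀) := by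
      refine antitoneOn_of_deriv_nonpos (convex_Ici T₀)
        (fun T _ => (hg T).continuousAt.continuousWithinAt)
        (fun T _ => (hg T).differentiableAt.differentiableWithinAt) ?_
      intro T hT
      rw [interior_Ici] at hT
      rw [(hg T).deriv]
      have h1 := hVder T (le_of_lt hT)
      have h2 := hVup T (le_of_lt hT)
      have h3 : lam * V T ≤ 3 / 10 * c₀ * (Real.tanh (v T) ^ 2 + Real.tanh (u T) ^ 2) := by
        calc lam * V T ≤ lam * (C * (Real.tanh (v T) ^ 2 + Real.tanh (u T) ^ 2)) :=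
              mul_le_mul_of_nonneg_left h2 hlamp.le
          _ = _ := by rw [hlam]; field_simp
      have h4 : deriv V T + lam * V T ≤ 0 := by linarith
      exact mul_nonpos_of_nonpos_of_nonneg h4 (Real.exp_pos _).le
    intro T hT
    have h1 := hanti (mem_Ici.2 le_rfl) (mem_Ici.2 hT) hT
    simp only [sub_self, mul_zero, Real.exp_zero, mul_one] at h1
    rw [Real.exp_neg, ← div_eq_mul_inv, le_div_iff₀ (Real.exp_pos _)]
    exact h1
  have hVt : Tendsto (fun T => V T₀ * Real.exp (-(lam * (T - T₀)))) atTop (𝓝 0) := by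
    have h1 : Tendsto (fun T : ℝ => lam * (T - T₀)) atTop atTop :=
      (tendsto_atTop_add_const_right atTop (-T₀) tendsto_id).const_mul_atTop hlamp
    have h2 := (Real.tendsto_exp_neg_atTop_nhds_zero.comp h1).const_mul (V T₀)
    simpa using h2
  have hsum : Tendsto (fun T => Real.tanh (v T) ^ 2 + Real.tanh (u T) ^ 2) atTop (𝓝 0) := by
    have h1 := hVt.const_mul (5 / 4)
    rw [mul_zero] at h1
    refine tendsto_of_tendsto_of_tendsto_of_le_of_le' tendsto_const_nhds h1 ?_ ?_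
    · exact Eventually.of_forall (fun T => by positivity)
    · filter_upwards [eventually_ge_atTop T₀] with T hT
      have h2 := hVlow T
      have h3 := hdec T hT
      linarith
  have key : ∀ f : ℝ → ℝ, (∀ T, f T ^ 2 ≤ Real.tanh (v T) ^ 2 + Real.tanh (u T) ^ 2) →
      Tendsto f atTop (𝓝 0) := by
    intro f hf
    have h1 : Tendsto (fun T => f T ^ 2) atTop (𝓝 0) :=
      tendsto_of_tendsto_of_tendsto_of_le_of_le tendsto_const_nhds hsum
        (fun T => sq_nonneg _) hf
    have h2 : Tendsto (fun T => √(f T ^ 2)) atTop (𝓝 0) := by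
      simpa using h1.sqrt
    simp only [Real.sqrt_sq_eq_abs] at h2
    exact (tendsto_zero_iff_abs_tendsto_zero f).2 h2
  exact ⟨key _ (fun T => by nlinarith [sq_nonneg (Real.tanh (v T))]),
    key _ (fun T => by nlinarith [sq_nonneg (Real.tanh (u T))])⟩

theorem b1_artanh_cont : ContinuousAt Real.artanh 0 := by
  unfold Real.artanh
  have h1 : ContinuousAt (fun x : ℝ => (1 + x) / (1 - x)) 0 := by
    refine ContinuousAt.div (by fun_prop) (by fun_prop) (by norm_num)
  refine ContinuousAt.log h1.sqrt ?_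
  norm_num

/-- B1. Solutions of `u' = w`, `w' = -¼ (12 - w²)(w + 2 tanh u)` with `w(T₀)² < 12` converge to `(0,0)`.

PROOF. In the coordinate `v`, `w = √12 tanh v`, the system is globally Lipschitz:
`u' = √12 tanh v`, `v' = -3 tanh v - (√12/2) tanh u`.
Convergence: `E := 4 log cosh v + 2 log cosh u` has `E' = -w²`; `V := E + (1/10) w tanh u` decays
exponentially. Nonvanishing: uniqueness of the equilibrium solution `(0,0)`. -/
theorem bohm_planar (T₀ u₀ w₀ : ℝ) (hw : w₀ ^ 2 < 12) : ∃ u w : ℝ → ℝ, u T₀ = u₀ ∧ w T₀ = w₀ ∧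
    (∀ T, HasDerivAt u (w T) T) ∧
    (∀ T, HasDerivAt w (-(12 - w T ^ 2) * (w T + 2 * tanh (u T)) / 4) T) ∧
    (∀ T, w T ^ 2 < 12) ∧ Tendsto u atTop (𝓝 0) ∧ Tendsto w atTop (𝓝 0) ∧
    ((u₀, w₀) ≠ (0, 0) → ∀ T, (u T, w T) ≠ (0, 0)) := by
  have hs2 := b1_s_sq
  have hs0 := b1_s_pos
  obtain ⟨φ, -, hφ0, hφ'⟩ := tk_flow (fun _ : ℝ => b1F) 5 (fun _ => b1F_lip)
    (fun _ => continuous_const) T₀
  -- initial value
  have hw1 : w₀ / √12 ∈ Ioo (-1 : ℝ) 1 := by
    have h1 : (w₀ / √12) ^ 2 < 1 := by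
      rw [div_pow, hs2, div_lt_one (by norm_num)]
      exact hw
    have h2 : |w₀ / √12| < 1 := (sq_lt_one_iff_abs_lt_one _).1 h1
    exact ⟨(abs_lt.1 h2).1, (abs_lt.1 h2).2⟩
  set v₀ : ℝ := Real.artanh (w₀ / √12) with hv₀
  have htv₀ : Real.tanh v₀ = w₀ / √12 := Real.tanh_artanh hw1
  set x : ℝ → ℝ × ℝ := fun T => φ T (u₀, v₀) with hx
  have hx0 : x T₀ = (u₀, v₀) := hφ0 _
  have hx' : ∀ T, HasDerivAt x (b1F (x T)) T := fun T => hφ' T _
  have hu' : ∀ T, HasDerivAt (fun T => (x T).1) (√12 * Real.tanh (x T).2) T := by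
    intro T
    exact (hx' T).fst
  have hv' : ∀ T, HasDerivAt (fun T => (x T).2)
      (-3 * Real.tanh (x T).2 - √12 / 2 * Real.tanh (x T).1) T := by
    intro T
    exact (hx' T).snd
  obtain ⟨hcu, hcv⟩ := b1_conv T₀ (fun T => (x T).1) (fun T => (x T).2) hu' hv'
  refine ⟨fun T => (x T).1, fun T => √12 * Real.tanh (x T).2, ?_, ?_, hu', ?_, ?_, ?_, ?_, ?_⟩
  · simp [hx0]
  · simp only [hx0]
    rw [htv₀]
    field_simp
  · intro T
    have h1 : HasDerivAt (fun T => Real.tanh (x T).2)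
        ((1 - Real.tanh (x T).2 ^ 2) * (-3 * Real.tanh (x T).2 - √12 / 2 * Real.tanh (x T).1)) T :=
      HasDerivAt.comp (h₂ := Real.tanh) (h := fun T => (x T).2) T (b1_tanh_deriv (x T).2) (hv' T)
    refine (h1.const_mul (√12)).congr_deriv ?_
    set a := Real.tanh (x T).2
    set b := Real.tanh (x T).1
    have : √12 * ((1 - a ^ 2) * (-3 * a - √12 / 2 * b)) =
        (1 - a ^ 2) * (-3 * √12 * a - (√12) ^ 2 / 2 * b) := by ring
    rw [this, mul_pow, hs2]
    ring
  · intro T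
    show (√12 * Real.tanh (x T).2) ^ 2 < 12
    rw [mul_pow, hs2]
    have := Real.tanh_sq_lt_one (x T).2
    linarith
  · have h1 : Tendsto (fun T => Real.artanh (Real.tanh (x T).1)) atTop (𝓝 (Real.artanh 0)) :=
      b1_artanh_cont.tendsto.comp hcu
    simpa [Real.artanh_tanh, Real.artanh_zero] using h1
  · simpa using hcv.const_mul (√12)
  · intro hne T hT
    have h1 : (x T).1 = 0 := congrArg Prod.fst hT
    have h2 : √12 * Real.tanh (x T).2 = 0 := congrArg Prod.snd hT
    have h3 : Real.tanh (x T).2 = 0 := by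
      rcases mul_eq_zero.1 h2 with h | h
      · exact absurd h hs0.ne'
      · exact h
    have h4 : (x T).2 = 0 := by
      have := Real.artanh_tanh (x T).2
      rw [h3, Real.artanh_zero] at this
      exact this.symm
    have h5 : x T = (fun _ : ℝ => ((0, 0) : ℝ × ℝ)) T := Prod.ext h1 h4
    have h6 : x = fun _ => (0, 0) := by
      refine ODE_solution_unique_univ (v := fun _ => b1F) (s := fun _ => univ) (K := 5)
        (t₀ := T) (fun _ => b1F_lip.lipschitzOnWith) (fun t => ⟨hx' t, mem_univ _⟩)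
        (fun t => ⟨?_, mem_univ _⟩) h5
      have : b1F (0, 0) = (0, 0) := by simp [b1F]
      simp only [this]
      exact hasDerivAt_const t _
    have h7 : (u₀, v₀) = ((0, 0) : ℝ × ℝ) := by rw [← hx0, h6]
    apply hne
    have h8 : u₀ = 0 := congrArg Prod.fst h7
    have h9 : v₀ = 0 := congrArg Prod.snd h7
    rw [h9, Real.tanh_zero] at htv₀
    have h10 : w₀ = 0 := by
      have := htv₀.symm
      rcases div_eq_zero_iff.1 this with h | h
      · exact h
      · exact absurd h hs0.ne'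
    rw [h8, h10]

end Pool.Agent.RS
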