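import Pool.Agent.Lib.MP_35abc2_gt.T2_Clamp

/-! # The soliton ODE systems (MP_35abc2_gt): definitions -/

open scoped ContDiff Topology NNReal
open Set Filter Real

noncomputable section

namespace Pool.Agent.RS

/-- `s = ρ² = μ e^{2T}` -/
def sM (μ T : ℝ) : ℝ := μ * Real.exp (2 * T)

/-- the constraint `K` as a function of the values -/
def conK (κ s u w P Φ g : ℝ) : ℝ :=
  12 * cosh u - 12 * P ^ 2 + P ^ 2 * w ^ 2 + 8 * s * P * Φ - s ^ 2 * Φ ^ 2 - 3 / 2 * s - s * (3 * κ - g)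

/-- Solutions of system (M) on a set `I` of times `T`, with the constraint `K = 0`. -/
structure SolM (μ κ : ℝ) (I : Set ℝ) (u w P Φ g : ℝ → ℝ) : Prop where
  pos : ∀ T ∈ I, 0 < P T
  du : ∀ T ∈ I, HasDerivAt u (w T) T
  dw : ∀ T ∈ I, HasDerivAt w
    (-((3 * cosh (u T) - sM μ T / 2) * w T + 6 * sinh (u T)) / P T ^ 2) T
  dP : ∀ T ∈ I, HasDerivAt P (-3 * P T + (3 * cosh (u T) - sM μ T / 2) / P T + sM μ T * Φ T) T
  dΦ : ∀ T ∈ I, HasDerivAt Φ (-5 * Φ T + (3 * κ - g T + sM μ T * Φ T ^ 2) / P T) T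
  dg : ∀ T ∈ I, HasDerivAt g (sM μ T * Φ T / P T) T
  con : ∀ T ∈ I, conK κ (sM μ T) (u T) (w T) (P T) (Φ T) (g T) = 0

/-- the scalar curvature of the 5-dimensional soliton in terms of the solution -/
def scalR (κ s Φ g : ℝ) : ℝ := 5 / 2 - 3 * κ + g - s * Φ ^ 2

/-! ## Tip variables -/

/-- The nonlinearity of the tip system (over any field); `q = √3/2`;
`z = (η, ω̂, π, ψ, γ)`, `y = 1 + Xη`, `w = 2 + Xω̂`, `p = q + Xπ`, `Ψ = 2κq/3 + Xψ`, `g = Xγ`. -/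
def tipN {K : Type*} [Field K] (q μ κ X : K) (z : Fin 5 → K) : Fin 5 → K :=
  ![z 1 / 2 * (1 + X * z 0),
    2 * z 1 - 3 / 2 * z 1 / (q + X * z 2) ^ 2
      - (3 / 2 * (1 + X * z 0) ^ 4 * (2 + X * z 1) - μ / 2 * (1 + X * z 0) ^ 2 * (2 + X * z 1)
          + 3 * (1 + X * z 0) ^ 4) / (q + X * z 2) ^ 2,
    2 * z 2 - 2 * (q / (q + X * z 2)) * z 2 + z 1 / 2 * (q + X * z 2)
      + (3 / 2 * (1 + X * z 0) ^ 4 - μ / 2 * (1 + X * z 0) ^ 2) / (q + X * z 2)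
      + μ * (1 + X * z 0) * (2 * κ * q / 3 + X * z 3),
    3 * κ * (q * z 0 - z 2) / ((q + X * z 2) * q)
      + (1 + X * z 0) / (q + X * z 2) * (-z 4 + μ * (2 * κ * q / 3 + X * z 3) ^ 2),
    μ * (2 * κ * q / 3 + X * z 3) * (1 + X * z 0) / (q + X * z 2)]

/-- the exponents `λ` of the tip system -/
def tipLam : Fin 5 → ℝ := ![4, 6, 8, 10, 4]

/-- `q = √3/2` -/
def q0 : ℝ := Real.sqrt 3 / 2

/-- A smooth solution `z = (η, ω̂, π, ψ, γ)` of the tip system on `(-X₀, X₀)`, bounded by 10. -/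
structure Tip (μ κ X₀ : ℝ) (z : Fin 5 → ℝ → ℝ) : Prop where
  smooth : ∀ j, ContDiffOn ℝ ∞ (z j) (Ioo (-X₀) X₀)
  bound : ∀ j, ∀ x ∈ Ioo (-X₀) X₀, |z j x| ≤ 10
  ode : ∀ j, ∀ x ∈ Ioo (-X₀) X₀, 4 * x * deriv (z j) x + tipLam j * z j x
    = tipN q0 μ κ x (fun i => z i x) j

/-- `y = e^{u/2 - T}` as a function of `x = e^{4T}` -/
def tipy (z : Fin 5 → ℝ → ℝ) (x : ℝ) : ℝ := 1 + x * z 0 x
/-- `w` as a function of `x` -/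
def tipw (z : Fin 5 → ℝ → ℝ) (x : ℝ) : ℝ := 2 + x * z 1 x
/-- `p = P e^{u/2}` as a function of `x` -/
def tipp (z : Fin 5 → ℝ → ℝ) (x : ℝ) : ℝ := q0 + x * z 2 x
/-- `Ψ = e^{-T} Φ` as a function of `x` -/
def tipΨ (κ : ℝ) (z : Fin 5 → ℝ → ℝ) (x : ℝ) : ℝ := 2 * κ * q0 / 3 + x * z 3 x
/-- `g` as a function of `x` -/
def tipg (z : Fin 5 → ℝ → ℝ) (x : ℝ) : ℝ := x * z 4 x

/-- the functions of `T` belonging to a tip solution -/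
def tipU (z : Fin 5 → ℝ → ℝ) (T : ℝ) : ℝ := 2 * T + 2 * Real.log (tipy z (Real.exp (4 * T)))
def tipW (z : Fin 5 → ℝ → ℝ) (T : ℝ) : ℝ := tipw z (Real.exp (4 * T))
def tipP (z : Fin 5 → ℝ → ℝ) (T : ℝ) : ℝ :=
  tipp z (Real.exp (4 * T)) * Real.exp (-T) / tipy z (Real.exp (4 * T))
def tipF (κ : ℝ) (z : Fin 5 → ℝ → ℝ) (T : ℝ) : ℝ := Real.exp T * tipΨ κ z (Real.exp (4 * T))
def tipG (z : Fin 5 → ℝ → ℝ) (T : ℝ) : ℝ := tipg z (Real.exp (4 * T))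

/-- A solution of (M) on `I` (a set of times unbounded to the left) which closes up smoothly at the tip:
on `T < (log X₀)/4` it is given by a smooth solution of the tip system. -/
structure TipSol (μ κ X₀ : ℝ) (I : Set ℝ) (z : Fin 5 → ℝ → ℝ) (u w P Φ g : ℝ → ℝ) : Prop where
  sol : SolM μ κ I u w P Φ g
  tip : Tip μ κ X₀ z
  eu : ∀ T, T < Real.log X₀ / 4 → u T = tipU z T
  ew : ∀ T, T < Real.log X₀ / 4 → w T = tipW z T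
  eP : ∀ T, T < Real.log X₀ / 4 → P T = tipP z T
  eΦ : ∀ T, T < Real.log X₀ / 4 → Φ T = tipF κ z T
  eg : ∀ T, T < Real.log X₀ / 4 → g T = tipG z T

/-! ## The vector field of (M), autonomous form: `v = (s, u, w, P, Φ, g, κ)` -/

def FM (v : Fin 7 → ℝ) : Fin 7 → ℝ :=
  ![2 * v 0, v 2, -((3 * cosh (v 1) - v 0 / 2) * v 2 + 6 * sinh (v 1)) / v 3 ^ 2,
    -3 * v 3 + (3 * cosh (v 1) - v 0 / 2) / v 3 + v 0 * v 4,
    -5 * v 4 + (3 * v 6 - v 5 + v 0 * v 4 ^ 2) / v 3,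
    v 0 * v 4 / v 3, 0]

/-! ## Near the cone -/

/-- `e₂` -/
def e2 (s u w p : ℝ) : ℝ :=
  -(3 * (cosh u - 1) - s / 2 - 3 * (2 * p + p ^ 2)) / (1 + p) ^ 2 * w
    - 6 * ((sinh u - u) - (2 * p + p ^ 2) * u) / (1 + p) ^ 2
/-- `N_p` -/
def Np (s u p φ : ℝ) : ℝ :=
  s / 2 * p / (1 + p) + s * φ + 3 * p ^ 2 / (1 + p) + 3 * (cosh u - 1) / (1 + p)
/-- `N_φ` -/
def Nφ (s p φ γ k' : ℝ) : ℝ :=
  -(5 / 2) * p / (1 + p) - 3 * k' * p / (1 + p) + (-γ + s * φ + s * φ ^ 2) / (1 + p)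
/-- `N_γ` -/
def Nγ (s p φ : ℝ) : ℝ := (s * φ - s / 2 * p) / (1 + p)

/-- the clamped near-cone field, `v = (s, u, w, p, φ, γ, k')` -/
def F2 (k : ℝ) (v : Fin 7 → ℝ) : Fin 7 → ℝ :=
  ![2 * v 0, v 2,
    -3 * v 2 - 6 * v 1 + e2 (max 0 (min (1 / 100) (v 0))) (cl (1 / 20) (v 1)) (cl (1 / 20) (v 2))
      (cl (k / 20) (v 3)),
    -6 * v 3 + Np (max 0 (min (1 / 100) (v 0))) (cl (1 / 20) (v 1)) (cl (k / 20) (v 3)) (cl k (v 4)),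
    -5 * v 4 + 3 * cl k (v 6) + Nφ (max 0 (min (1 / 100) (v 0))) (cl (k / 20) (v 3)) (cl k (v 4))
      (cl (k / 20) (v 5)) (cl k (v 6)),
    Nγ (max 0 (min (1 / 100) (v 0))) (cl (k / 20) (v 3)) (cl k (v 4)), 0]

/-! ## Outer region, time `s`, `v = (u, W, q, Δ)` -/

/-- `ρ_W`, with `σ = 1/s` -/
def rW (σ u W q : ℝ) : ℝ :=
  1 / 4 * (1 / (1 + q) - 1) * W + W * σ - 3 * cosh u / (2 * (1 + q)) * W * σ - 3 * sinh u / (1 + q)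
/-- `ρ_Δ`, with `σ = 1/s` -/
def rD (σ u W q D : ℝ) : ℝ :=
  1 / 4 * (1 / (1 + q) - 1) * D + 2 * D * σ + D ^ 2 * σ ^ 2 / (2 * (1 + q)) + 3 / 2 * (q - (cosh u - 1))
    + 1 / 2 * (1 + q) * W ^ 2 * σ ^ 2 + 3 / 2 * W * σ * sinh u - 3 * cosh u / (2 * (1 + q)) * D * σ

/-- `σ(s) = 1 / max(s, s₀)`, `s₀ = 1/100` -/
def sig (s : ℝ) : ℝ := 1 / max s (1 / 100)

/-- the clamped outer field, `v = (u, W, q, Δ)` -/
def F3 (εu εq : ℝ) (s : ℝ) (v : Fin 4 → ℝ) : Fin 4 → ℝ :=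
  ![cl (20 * εu) (v 1) * sig s ^ 2 / 2,
    v 1 / 4 + rW (sig s) (cl εu (v 0)) (cl (20 * εu) (v 1)) (cl εq (v 2)),
    cl (8 * εq) (v 3) * sig s ^ 2,
    v 3 / 4 + rD (sig s) (cl εu (v 0)) (cl (20 * εu) (v 1)) (cl εq (v 2)) (cl (8 * εq) (v 3))]

end Pool.Agent.RS
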