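import Pool.Agent.Lib.MP_35abc2_gt.B1_Planar
import Pool.Agent.Lib.MP_35abc2_gt.Sys

/-! # B2: the full solution of (M) for `μ = 0` (MP_35abc2_gt) -/

open scoped ContDiff Topology NNReal
open Set Filter Real

noncomputable section

namespace Pool.Agent.RS

/-- continuous functions with a limit are bounded on half lines -/
theorem B2_bounded {f : ℝ → ℝ} (hf : Continuous f) {L : ℝ} (hL : Tendsto f atTop (𝓝 L)) (a : ℝ) :
    ∃ M : ℝ, 0 ≤ M ∧ ∀ T, a ≤ T → |f T| ≤ M := by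
  have h1 : ∀ᶠ T in atTop, |f T| < |L| + 1 :=
    hL.abs.eventually_lt_const (by linarith)
  obtain ⟨b, hb⟩ := eventually_atTop.1 h1
  obtain ⟨M₁, hM₁⟩ := (isCompact_Icc (a := a) (b := b)).exists_bound_of_continuousOn hf.continuousOn
  refine ⟨max (|L| + 1) (max M₁ 0), by positivity, fun T hT => ?_⟩
  rcases le_or_gt T b with h | h
  · exact (hM₁ T ⟨hT, h⟩).trans ((le_max_left _ _).trans (le_max_right _ _))
  · exact (hb T h.le).le.trans (le_max_left _ _)

/-- linear comparison: `y' = -5 y + N` with `|N| ≤ n` -/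
theorem B2_linear {y N : ℝ → ℝ} {a n : ℝ}
    (hy : ∀ T, a ≤ T → HasDerivAt y (-5 * y T + N T) T) (hN : ∀ T, a ≤ T → |N T| ≤ n) :
    ∀ T, a ≤ T → |y T| ≤ Real.exp (-5 * (T - a)) * |y a| + n / 5 := by
  intro T hT
  have hn : 0 ≤ n := (abs_nonneg _).trans (hN a le_rfl)
  have hG : ∀ t, HasDerivAt (fun t => Real.exp (5 * (t - a))) (Real.exp (5 * (t - a)) * 5) t := by
    intro t
    have h1 : HasDerivAt (fun t => 5 * (t - a)) 5 t := by
      simpa using ((hasDerivAt_id t).sub_const a).const_mul 5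
    exact h1.exp
  have hGy : ∀ t, a ≤ t → HasDerivAt (fun t => Real.exp (5 * (t - a)) * y t)
      (Real.exp (5 * (t - a)) * N t) t := by
    intro t ht
    have h1 := (hG t).mul (hy t ht)
    refine h1.congr_deriv ?_
    ring
  have hB : ∀ t, HasDerivAt (fun t => |y a| + n / 5 * (Real.exp (5 * (t - a)) - 1))
      (n * Real.exp (5 * (t - a))) t := by
    intro t
    have h1 := (((hG t).sub_const 1).const_mul (n / 5)).const_add (|y a|)
    refine h1.congr_deriv ?_
    ring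
  have key := image_norm_le_of_norm_deriv_right_le_deriv_boundary
    (f := fun t => Real.exp (5 * (t - a)) * y t) (f' := fun t => Real.exp (5 * (t - a)) * N t)
    (a := a) (b := T)
    (fun t ht => (hGy t ht.1).continuousAt.continuousWithinAt)
    (fun t ht => (hGy t ht.1).hasDerivWithinAt)
    (B := fun t => |y a| + n / 5 * (Real.exp (5 * (t - a)) - 1)) (by simp) hB
    (fun t ht => by
      rw [norm_mul, Real.norm_eq_abs, Real.norm_eq_abs, abs_of_pos (Real.exp_pos _), mul_comm]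
      exact mul_le_mul_of_nonneg_right (hN t ht.1) (Real.exp_pos _).le)
  have h2 := key (x := T) ⟨hT, le_rfl⟩
  simp only [Real.norm_eq_abs] at h2
  rw [abs_mul, abs_of_pos (Real.exp_pos _)] at h2
  have h3 : Real.exp (-5 * (T - a)) * Real.exp (5 * (T - a)) = 1 := by
    rw [← Real.exp_add]
    ring_nf
    exact Real.exp_zero
  have h4 : |y T| = Real.exp (-5 * (T - a)) * (Real.exp (5 * (T - a)) * |y T|) := by
    rw [← mul_assoc, h3, one_mul]
  have h5 : 0 < Real.exp (-5 * (T - a)) := Real.exp_pos _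
  rw [h4]
  calc Real.exp (-5 * (T - a)) * (Real.exp (5 * (T - a)) * |y T|)
      ≤ Real.exp (-5 * (T - a)) * (|y a| + n / 5 * (Real.exp (5 * (T - a)) - 1)) := by gcongr
    _ = Real.exp (-5 * (T - a)) * |y a| +
        n / 5 * (Real.exp (-5 * (T - a)) * Real.exp (5 * (T - a)) - Real.exp (-5 * (T - a))) := by
        ring
    _ ≤ Real.exp (-5 * (T - a)) * |y a| + n / 5 := by
        rw [h3]
        have : n / 5 * (1 - Real.exp (-5 * (T - a))) ≤ n / 5 * 1 := by
          refine mul_le_mul_of_nonneg_left ?_ (by positivity)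
          linarith
        linarith

/-- B2. The solutions of (M) for `μ = 0` (so `s = 0`, `g = 0`).

PROOF. `u, w` from `bohm_planar` (T₀ = Ta), `P := √(12 cosh u/(12 - w²))`.  Then `P' = -(w²/4) P` (differentiate
`log P² = log 12 + log cosh u - log (12 - w²)`), and `-3P + 3 cosh u/P = P(-3 + (12-w²)/4) = -(w²/4)P`; also
`-(3 cosh u · w + 6 sinh u)/P² = -¼(12 - w²)(w + 2 tanh u)`; and `conK = 12 cosh u - P²(12 - w²) = 0` since `s = 0`.
`P ≥ 1`, `P → 1`, `P` bounded on `[Ta, ∞)` (continuous with a limit).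
`Φ(T) := e^{-5(T-Ta)} (Φ₀ + ∫_{Ta}^T e^{5(t-Ta)} 3κ/P(t) dt)` solves `Φ' = -5Φ + 3κ/P`.
Uniform limit: `χ = Φ - 3κ/5` satisfies `χ' = -5χ + 3κ(1/P - 1)`; given `η`, choose `T'` with `3|1/P - 1| ≤ η` for `T ≥ T'`; for `T ≥ Ta`
`|Φ| ≤ |Φ(Ta)| + 3/5·sup(1/P)` (comparison `ode_compare`-like or the explicit formula, using uniqueness for the linear
equation: `d/dT (e^{5T} χ) = 3κ e^{5T}(1/P - 1)`), and after `T'` the difference decays like `e^{-5(T-T')}` up to `η/5`. -/
theorem bohm_full (Ta u₀ w₀ : ℝ) (hw : w₀ ^ 2 < 12) (hne : (u₀, w₀) ≠ (0, 0)) :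
    ∃ u w P : ℝ → ℝ, u Ta = u₀ ∧ w Ta = w₀ ∧ P Ta = Real.sqrt (12 * cosh u₀ / (12 - w₀ ^ 2)) ∧
      (∀ T, (u T, w T) ≠ (0, 0)) ∧ Tendsto u atTop (𝓝 0) ∧ Tendsto w atTop (𝓝 0) ∧
      Tendsto P atTop (𝓝 1) ∧
      (∃ M m : ℝ, 0 < m ∧ ∀ T, Ta ≤ T → |u T| ≤ M ∧ |w T| ≤ M ∧ m ≤ P T ∧ P T ≤ M) ∧
      (∀ κ Φ₀ : ℝ, ∃ Φ : ℝ → ℝ, Φ Ta = Φ₀ ∧ SolM 0 κ univ u w P Φ (fun _ => 0)) ∧
      (∀ B : ℝ, ∃ M' : ℝ, ∀ κ ∈ Icc (1 / 2 : ℝ) 1, ∀ Φ : ℝ → ℝ, |Φ Ta| ≤ B →
        SolM 0 κ univ u w P Φ (fun _ => 0) → ∀ T, Ta ≤ T → |Φ T| ≤ M') ∧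
      (∀ B η : ℝ, 0 < η → ∃ T₁, Ta ≤ T₁ ∧ ∀ κ ∈ Icc (1 / 2 : ℝ) 1, ∀ Φ : ℝ → ℝ, |Φ Ta| ≤ B →
        SolM 0 κ univ u w P Φ (fun _ => 0) → ∀ T, T₁ ≤ T → |Φ T - 3 * κ / 5| ≤ η) := by
  obtain ⟨u, w, hu0, hw0, hu, hwd, hw12, hulim, hwlim, hnz⟩ := bohm_planar Ta u₀ w₀ hw
  have h12 : ∀ T, 0 < 12 - w T ^ 2 := fun T => by linarith [hw12 T]
  have hcosh : ∀ T, 1 ≤ cosh (u T) := fun T => Real.one_le_cosh _
  set h : ℝ → ℝ := fun T => 12 * cosh (u T) / (12 - w T ^ 2) with hh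
  have hh1 : ∀ T, 1 ≤ h T := by
    intro T
    rw [hh]
    rw [le_div_iff₀ (h12 T)]
    nlinarith [hcosh T, sq_nonneg (w T)]
  have hh0 : ∀ T, 0 < h T := fun T => by linarith [hh1 T]
  set P : ℝ → ℝ := fun T => Real.sqrt (h T) with hP
  have hP1 : ∀ T, 1 ≤ P T := fun T => Real.one_le_sqrt.2 (hh1 T)
  have hP0 : ∀ T, 0 < P T := fun T => by linarith [hP1 T]
  have hP2 : ∀ T, P T ^ 2 = h T := fun T => Real.sq_sqrt (hh0 T).le
  have hP2' : ∀ T, P T ^ 2 * (12 - w T ^ 2) = 12 * cosh (u T) := by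
    intro T
    rw [hP2, hh]
    simp only
    rw [div_mul_cancel₀ _ (h12 T).ne']
  -- derivative of `h`
  have hhd : ∀ T, HasDerivAt h (-(w T ^ 2 / 2) * h T) T := by
    intro T
    have h1 : HasDerivAt (fun T => 12 * cosh (u T)) (12 * (sinh (u T) * w T)) T :=
      ((hu T).cosh).const_mul 12
    have h2 : HasDerivAt (fun T => 12 - w T ^ 2)
        (-(2 * w T * (-(12 - w T ^ 2) * (w T + 2 * tanh (u T)) / 4))) T := by
      have := ((hwd T).pow 2).const_sub 12
      refine this.congr_deriv ?_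
      ring
    have h3 := h1.div h2 (h12 T).ne'
    refine h3.congr_deriv ?_
    have hc : cosh (u T) ≠ 0 := by linarith [hcosh T]
    have h12' := (h12 T).ne'
    simp only [hh]
    rw [Real.tanh_eq_sinh_div_cosh]
    field_simp
    ring
  have hPd : ∀ T, HasDerivAt P (-(w T ^ 2 / 4) * P T) T := by
    intro T
    have h1 := (hhd T).sqrt (hh0 T).ne'
    refine h1.congr_deriv ?_
    have h2 : (Real.sqrt (h T)) ≠ 0 := (hP0 T).ne'
    have h3 : h T = Real.sqrt (h T) ^ 2 := (hP2 T).symm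
    rw [div_eq_iff (by positivity)]
    simp only [hP]
    nlinarith [h3]
  have hPd' : ∀ T, HasDerivAt P (-3 * P T + (3 * cosh (u T)) / P T) T := by
    intro T
    refine (hPd T).congr_deriv ?_
    have h1 := (hP0 T).ne'
    have h2 : cosh (u T) = P T ^ 2 * (12 - w T ^ 2) / 12 := by rw [hP2']; ring
    rw [h2]
    field_simp
    ring
  have huc : Continuous u := continuous_iff_continuousAt.2 fun T => (hu T).continuousAt
  have hwc : Continuous w := continuous_iff_continuousAt.2 fun T => (hwd T).continuousAt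
  have hPc : Continuous P := continuous_iff_continuousAt.2 fun T => (hPd T).continuousAt
  have hPlim : Tendsto P atTop (𝓝 1) := by
    have h1 : Tendsto h atTop (𝓝 (12 * cosh 0 / (12 - 0 ^ 2))) := by
      refine Tendsto.div ?_ ?_ (by norm_num)
      · exact ((Real.continuous_cosh.tendsto 0).comp hulim).const_mul 12
      · exact tendsto_const_nhds.sub (hwlim.pow 2)
    have h2 : Tendsto P atTop (𝓝 (Real.sqrt (12 * cosh 0 / (12 - 0 ^ 2)))) := h1.sqrt
    have h3 : Real.sqrt (12 * cosh 0 / (12 - 0 ^ 2)) = 1 := by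
      rw [Real.cosh_zero]
      norm_num
    rwa [h3] at h2
  obtain ⟨M₁, hM₁0, hM₁⟩ := B2_bounded huc hulim Ta
  obtain ⟨M₂, hM₂0, hM₂⟩ := B2_bounded hwc hwlim Ta
  obtain ⟨M₃, hM₃0, hM₃⟩ := B2_bounded hPc hPlim Ta
  -- the remaining equations
  have hsol : ∀ (κ : ℝ) (Φ : ℝ → ℝ), (∀ T, HasDerivAt Φ (-5 * Φ T + 3 * κ / P T) T) →
      SolM 0 κ univ u w P Φ (fun _ => 0) := by
    intro κ Φ hΦ
    refine ⟨fun T _ => hP0 T, fun T _ => hu T, fun T _ => ?_, fun T _ => ?_, fun T _ => ?_,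
      fun T _ => ?_, fun T _ => ?_⟩
    · refine (hwd T).congr_deriv ?_
      have hc : cosh (u T) ≠ 0 := by linarith [hcosh T]
      have h1 : P T ^ 2 = 12 * cosh (u T) / (12 - w T ^ 2) := hP2 T
      have h2 := (h12 T).ne'
      rw [h1, Real.tanh_eq_sinh_div_cosh]
      simp only [sM, zero_mul, zero_div, sub_zero]
      field_simp
      ring
    · refine (hPd' T).congr_deriv ?_
      simp [sM]
    · refine (hΦ T).congr_deriv ?_
      simp [sM]
    · have h1 := hasDerivAt_const T (0 : ℝ)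
      refine h1.congr_deriv ?_
      simp [sM]
    · have h1 := hP2' T
      simp only [conK, sM]
      ring_nf
      ring_nf at h1
      linarith
  -- the deviation of `Φ`
  have hdev : ∀ (κ : ℝ) (Φ : ℝ → ℝ), SolM 0 κ univ u w P Φ (fun _ => 0) → ∀ T,
      HasDerivAt (fun T => Φ T - 3 * κ / 5) (-5 * (Φ T - 3 * κ / 5) + 3 * κ * (1 / P T - 1)) T := by
    intro κ Φ hΦ T
    have h1 := (hΦ.dΦ T (mem_univ T)).sub_const (3 * κ / 5)
    refine h1.congr_deriv ?_
    simp only [sM]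
    ring
  have hinv : ∀ T, |1 / P T - 1| ≤ 1 := by
    intro T
    have h1 : 0 < 1 / P T := by have := hP0 T; positivity
    have h2 : 1 / P T ≤ 1 := by
      rw [div_le_one (hP0 T)]
      exact hP1 T
    rw [abs_le]
    constructor <;> linarith
  refine ⟨u, w, P, hu0, hw0, ?_, fun T => hnz hne T, hulim, hwlim, hPlim, ?_, ?_, ?_, ?_⟩
  · simp only [hP, hh]
    rw [hu0, hw0]
  · refine ⟨max M₁ (max M₂ M₃), 1, one_pos, fun T hT => ⟨?_, ?_, hP1 T, ?_⟩⟩
    · exact (hM₁ T hT).trans (le_max_left _ _)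
    · exact (hM₂ T hT).trans ((le_max_left _ _).trans (le_max_right _ _))
    · exact (le_abs_self _).trans ((hM₃ T hT).trans ((le_max_right _ _).trans (le_max_right _ _)))
  · intro κ Φ₀
    have hcont : Continuous (fun t => Real.exp (5 * (t - Ta)) * (3 * κ / P t)) := by
      refine Continuous.mul (by fun_prop) ?_
      exact continuous_const.div hPc (fun t => (hP0 t).ne')
    refine ⟨fun T => Real.exp (-5 * (T - Ta)) *
      (Φ₀ + ∫ t in Ta..T, Real.exp (5 * (t - Ta)) * (3 * κ / P t)), by simp, hsol κ _ fun T => ?_⟩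
    have h1 : HasDerivAt (fun T => ∫ t in Ta..T, Real.exp (5 * (t - Ta)) * (3 * κ / P t))
        (Real.exp (5 * (T - Ta)) * (3 * κ / P T)) T :=
      intervalIntegral.integral_hasDerivAt_right (hcont.intervalIntegrable _ _)
        (hcont.stronglyMeasurableAtFilter _ _) hcont.continuousAt
    have h2 : HasDerivAt (fun t => Real.exp (-5 * (t - Ta))) (Real.exp (-5 * (T - Ta)) * (-5)) T := by
      have h3 : HasDerivAt (fun t => -5 * (t - Ta)) (-5) T := by
        simpa using ((hasDerivAt_id T).sub_const Ta).const_mul (-5)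
      exact h3.exp
    have h4 := h2.mul (h1.const_add Φ₀)
    refine h4.congr_deriv ?_
    have h5 : Real.exp (-5 * (T - Ta)) * Real.exp (5 * (T - Ta)) = 1 := by
      rw [← Real.exp_add]
      ring_nf
      exact Real.exp_zero
    calc _ = -5 * (Real.exp (-5 * (T - Ta)) *
          (Φ₀ + ∫ t in Ta..T, Real.exp (5 * (t - Ta)) * (3 * κ / P t))) +
          (Real.exp (-5 * (T - Ta)) * Real.exp (5 * (T - Ta))) * (3 * κ / P T) := by ring
      _ = _ := by rw [h5, one_mul]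
  · intro B
    refine ⟨|B| + 2, fun κ hκ Φ hB hΦ T hT => ?_⟩
    have h1 := B2_linear (n := 3) (fun T _ => hdev κ Φ hΦ T) (fun T _ => by
      rw [abs_mul, abs_of_pos (by linarith [hκ.1] : (0 : ℝ) < 3 * κ)]
      have := hinv T
      nlinarith [hκ.1, hκ.2, abs_nonneg (1 / P T - 1)]) T hT
    have h2 : Real.exp (-5 * (T - Ta)) ≤ 1 := by
      rw [Real.exp_le_one_iff]
      linarith
    have h3 : |Φ Ta - 3 * κ / 5| ≤ |B| + 3 / 5 := by
      refine (abs_sub _ _).trans ?_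
      have h4 : |3 * κ / 5| ≤ 3 / 5 := by
        rw [abs_of_nonneg (by linarith [hκ.1])]
        linarith [hκ.2]
      have h5 := le_abs_self B
      linarith
    have h4 : Real.exp (-5 * (T - Ta)) * |Φ Ta - 3 * κ / 5| ≤ |B| + 3 / 5 := by
      have := abs_nonneg (Φ Ta - 3 * κ / 5)
      nlinarith [Real.exp_pos (-5 * (T - Ta))]
    have h5 : |Φ T| ≤ |Φ T - 3 * κ / 5| + 3 / 5 := by
      have h6 : Φ T = (Φ T - 3 * κ / 5) + 3 * κ / 5 := by ring
      have h7 : |3 * κ / 5| ≤ 3 / 5 := by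
        rw [abs_of_nonneg (by linarith [hκ.1])]
        linarith [hκ.2]
      calc |Φ T| = |(Φ T - 3 * κ / 5) + 3 * κ / 5| := by rw [← h6]
        _ ≤ |Φ T - 3 * κ / 5| + |3 * κ / 5| := abs_add_le _ _
        _ ≤ _ := by linarith
    linarith
  · intro B η hη
    -- `T'` with `3 |1/P - 1| ≤ η`
    have hinvlim : Tendsto (fun T => |1 / P T - 1|) atTop (𝓝 0) := by
      have h1 : Tendsto (fun T => 1 / P T) atTop (𝓝 (1 / 1)) :=
        tendsto_const_nhds.div hPlim one_ne_zero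
      have h2 := (h1.sub_const 1).abs
      simpa using h2
    obtain ⟨T', hT'⟩ := eventually_atTop.1
      (hinvlim.eventually_lt_const (show (0 : ℝ) < η / 3 by positivity))
    set T'' := max Ta T' with hT''
    have hdec : Tendsto (fun T => Real.exp (-5 * (T - T'')) * (|B| + 2)) atTop (𝓝 0) := by
      have h1 : Tendsto (fun T : ℝ => -5 * (T - T'')) atTop atBot := by
        have h2 : Tendsto (fun T : ℝ => T - T'') atTop atTop :=
          tendsto_atTop_add_const_right atTop (-T'') tendsto_id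
        exact h2.const_mul_atTop_of_neg (by norm_num)
      have h3 := (Real.tendsto_exp_atBot.comp h1).mul_const (|B| + 2)
      simpa using h3
    obtain ⟨T₂, hT₂⟩ := eventually_atTop.1
      (hdec.eventually_lt_const (show (0 : ℝ) < η / 2 by positivity))
    refine ⟨max T'' T₂, (le_max_left _ _).trans (le_max_left _ _), fun κ hκ Φ hB hΦ T hT => ?_⟩
    have hTT'' : T'' ≤ T := (le_max_left _ _).trans hT
    have hTT₂ : T₂ ≤ T := (le_max_right _ _).trans hT
    have h0 := B2_linear (n := 3) (fun T _ => hdev κ Φ hΦ T) (fun T _ => by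
      rw [abs_mul, abs_of_pos (by linarith [hκ.1] : (0 : ℝ) < 3 * κ)]
      have := hinv T
      nlinarith [hκ.1, hκ.2, abs_nonneg (1 / P T - 1)]) T'' (le_max_left Ta T')
    have h1 := B2_linear (a := T'') (n := η) (fun T _ => hdev κ Φ hΦ T) (fun t ht => by
      rw [abs_mul, abs_of_pos (by linarith [hκ.1] : (0 : ℝ) < 3 * κ)]
      have := hT' t ((le_max_right _ _).trans ht)
      nlinarith [hκ.1, hκ.2, abs_nonneg (1 / P t - 1)]) T hTT''
    have h2 : Real.exp (-5 * (T'' - Ta)) ≤ 1 := by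
      rw [Real.exp_le_one_iff]
      linarith [le_max_left Ta T']
    have h3 : |Φ Ta - 3 * κ / 5| ≤ |B| + 3 / 5 := by
      refine (abs_sub _ _).trans ?_
      have h4 : |3 * κ / 5| ≤ 3 / 5 := by
        rw [abs_of_nonneg (by linarith [hκ.1])]
        linarith [hκ.2]
      have h5 := le_abs_self B
      linarith
    have h4 : |Φ T'' - 3 * κ / 5| ≤ |B| + 2 := by
      have h5 : Real.exp (-5 * (T'' - Ta)) * |Φ Ta - 3 * κ / 5| ≤ |B| + 3 / 5 := by
        have := abs_nonneg (Φ Ta - 3 * κ / 5)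
        nlinarith [Real.exp_pos (-5 * (T'' - Ta))]
      linarith
    have h5 := hT₂ T hTT₂
    have h6 : Real.exp (-5 * (T - T'')) * |Φ T'' - 3 * κ / 5| ≤
        Real.exp (-5 * (T - T'')) * (|B| + 2) :=
      mul_le_mul_of_nonneg_left h4 (Real.exp_pos _).le
    linarith

end Pool.Agent.RS
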