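import Pool.Agent.Lib.MP_35abc2_gt.A3b_TipExists
import Pool.Agent.Lib.MP_35abc2_gt.A4a_TipSys
import Pool.Agent.Lib.MP_35abc2_gt.A4b_TipCon

/-! # B3a: the data of the tip solutions at `Ta = (log (X₀/2))/4` (MP_35abc2_gt) -/

open scoped ContDiff Topology NNReal
open Set Filter Real

noncomputable section

namespace Pool.Agent.RS

/-- `Ta = (log (X₀/2))/4`, i.e. `x = e^{4 Ta} = X₀/2` -/
def tA (X₀ : ℝ) : ℝ := log (X₀ / 2) / 4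

/-- The data of the tip solutions at `Ta`. -/
structure BDData (X₀ : ℝ) (Z : ℝ → ℝ → Fin 5 → ℝ → ℝ) (C ua wa : ℝ) : Prop where
  hX : 0 < X₀
  hX' : X₀ ≤ 1 / 100000
  hC : 0 < C
  tip : ∀ μ ∈ Icc (0 : ℝ) 1, ∀ κ ∈ Icc (1 / 2 : ℝ) 1, Tip μ κ X₀ (Z μ κ)
  sol : ∀ μ ∈ Icc (0 : ℝ) 1, ∀ κ ∈ Icc (1 / 2 : ℝ) 1,
    SolM μ κ (Iio (log X₀ / 4)) (tipU (Z μ κ)) (tipW (Z μ κ)) (tipP (Z μ κ)) (tipF κ (Z μ κ))
      (tipG (Z μ κ))
  wa_lt : wa ^ 2 < 12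
  ne : (ua, wa) ≠ (0, 0)
  zeroU : ∀ κ ∈ Icc (1 / 2 : ℝ) 1, tipU (Z 0 κ) (tA X₀) = ua
  zeroW : ∀ κ ∈ Icc (1 / 2 : ℝ) 1, tipW (Z 0 κ) (tA X₀) = wa
  zeroP : ∀ κ ∈ Icc (1 / 2 : ℝ) 1,
    tipP (Z 0 κ) (tA X₀) = Real.sqrt (12 * cosh ua / (12 - wa ^ 2))
  zeroF : ∀ κ ∈ Icc (1 / 2 : ℝ) 1, |tipF κ (Z 0 κ) (tA X₀)| ≤ C
  zeroG : ∀ κ ∈ Icc (1 / 2 : ℝ) 1, tipG (Z 0 κ) (tA X₀) = 0
  lipU : ∀ μ ∈ Icc (0 : ℝ) 1, ∀ κ ∈ Icc (1 / 2 : ℝ) 1, ∀ μ' ∈ Icc (0 : ℝ) 1,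
    ∀ κ' ∈ Icc (1 / 2 : ℝ) 1,
    |tipU (Z μ κ) (tA X₀) - tipU (Z μ' κ') (tA X₀)| ≤ C * (|μ - μ'| + |κ - κ'|)
  lipW : ∀ μ ∈ Icc (0 : ℝ) 1, ∀ κ ∈ Icc (1 / 2 : ℝ) 1, ∀ μ' ∈ Icc (0 : ℝ) 1,
    ∀ κ' ∈ Icc (1 / 2 : ℝ) 1,
    |tipW (Z μ κ) (tA X₀) - tipW (Z μ' κ') (tA X₀)| ≤ C * (|μ - μ'| + |κ - κ'|)
  lipP : ∀ μ ∈ Icc (0 : ℝ) 1, ∀ κ ∈ Icc (1 / 2 : ℝ) 1, ∀ μ' ∈ Icc (0 : ℝ) 1,
    ∀ κ' ∈ Icc (1 / 2 : ℝ) 1,
    |tipP (Z μ κ) (tA X₀) - tipP (Z μ' κ') (tA X₀)| ≤ C * (|μ - μ'| + |κ - κ'|)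
  lipF : ∀ μ ∈ Icc (0 : ℝ) 1, ∀ κ ∈ Icc (1 / 2 : ℝ) 1, ∀ μ' ∈ Icc (0 : ℝ) 1,
    ∀ κ' ∈ Icc (1 / 2 : ℝ) 1,
    |tipF κ (Z μ κ) (tA X₀) - tipF κ' (Z μ' κ') (tA X₀)| ≤ C * (|μ - μ'| + |κ - κ'|)
  lipG : ∀ μ ∈ Icc (0 : ℝ) 1, ∀ κ ∈ Icc (1 / 2 : ℝ) 1, ∀ μ' ∈ Icc (0 : ℝ) 1,
    ∀ κ' ∈ Icc (1 / 2 : ℝ) 1,
    |tipG (Z μ κ) (tA X₀) - tipG (Z μ' κ') (tA X₀)| ≤ C * (|μ - μ'| + |κ - κ'|)
  smallG : ∀ μ ∈ Icc (0 : ℝ) 1, ∀ κ ∈ Icc (1 / 2 : ℝ) 1, ∀ T, T < log X₀ / 4 →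
    |tipG (Z μ κ) T| ≤ C * μ
  smallF : ∀ μ ∈ Icc (0 : ℝ) 1, ∀ κ ∈ Icc (1 / 2 : ℝ) 1, ∀ T, T < log X₀ / 4 →
    sM μ T * tipF κ (Z μ κ) T ^ 2 ≤ C * μ


theorem b3a_q0_lo : (0.86 : ℝ) ≤ q0 := by
  unfold q0
  have h : (1.72 : ℝ) ≤ Real.sqrt 3 := by
    apply Real.le_sqrt_of_sq_le
    norm_num
  linarith

theorem b3a_q0_hi : q0 ≤ (0.87 : ℝ) := by
  unfold q0
  have h : Real.sqrt 3 ≤ (1.74 : ℝ) := by
    rw [Real.sqrt_le_left (by norm_num)]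
    norm_num
  linarith

theorem b3a_expTa {X₀ : ℝ} (h : 0 < X₀) : Real.exp (4 * tA X₀) = X₀ / 2 := by
  unfold tA
  rw [show 4 * (log (X₀ / 2) / 4) = log (X₀ / 2) by ring]
  exact Real.exp_log (by positivity)

theorem b3a_log_lip {y y' : ℝ} (hy : 1 / 2 ≤ y) (hy' : 1 / 2 ≤ y') :
    |Real.log y - Real.log y'| ≤ 2 * |y - y'| := by
  have key : ∀ a b : ℝ, 1 / 2 ≤ a → 1 / 2 ≤ b → Real.log a - Real.log b ≤ 2 * |a - b| := by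
    intro a b ha hb
    have ha0 : 0 < a := by linarith
    have hb0 : 0 < b := by linarith
    rw [← Real.log_div ha0.ne' hb0.ne']
    have h1 : Real.log (a / b) ≤ a / b - 1 := Real.log_le_sub_one_of_pos (by positivity)
    have h2 : a / b - 1 = (a - b) / b := by field_simp
    have h3 : (a - b) / b ≤ |a - b| / b := by
      apply div_le_div_of_nonneg_right (le_abs_self _) hb0.le
    have h4 : |a - b| / b ≤ |a - b| / (1 / 2) :=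
      div_le_div_of_nonneg_left (abs_nonneg _) (by norm_num) hb
    have h5 : |a - b| / (1 / 2) = 2 * |a - b| := by ring
    linarith
  rw [abs_le]
  constructor
  · have := key y' y hy' hy
    rw [abs_sub_comm] at this
    linarith
  · exact key y y' hy hy'

theorem b3a_div_lip {p p' y y' : ℝ} (hy : 1 / 2 ≤ y) (hy' : 1 / 2 ≤ y') (hp : |p'| ≤ 2) :
    |p / y - p' / y'| ≤ 2 * |p - p'| + 8 * |y - y'| := by
  have hy0 : 0 < y := by linarith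
  have hy0' : 0 < y' := by linarith
  have e : p / y - p' / y' = (p - p') / y + p' * (y' - y) / (y * y') := by
    field_simp
    ring
  rw [e]
  refine (abs_add_le _ _).trans ?_
  have h1 : |(p - p') / y| ≤ 2 * |p - p'| := by
    rw [abs_div, abs_of_pos hy0, div_le_iff₀ hy0]
    nlinarith [abs_nonneg (p - p')]
  have h2 : |p' * (y' - y) / (y * y')| ≤ 8 * |y - y'| := by
    have hyy : 1 / 4 ≤ y * y' := by nlinarith
    have hyy0 : 0 < y * y' := by positivity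
    rw [abs_div, abs_mul, abs_of_pos hyy0, div_le_iff₀ hyy0, abs_sub_comm y' y]
    have h3 : |p'| * |y - y'| ≤ 2 * |y - y'| :=
      mul_le_mul_of_nonneg_right hp (abs_nonneg _)
    nlinarith [abs_nonneg (y - y')]
  linarith

/-- B3a.

PROOF. `tip_exists`, `tip_ode_part`, `tip_con` give `tip`, `sol`.
At `Ta`, `x = X₀/2`. All of `tipU, tipW, tipP, tipF, tipG` at `Ta` are smooth functions of the bounded quantities `z_j(x)` (`|z_j| ≤ 10`, so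
`y ∈ [1-10⁻⁴,1+10⁻⁴]` etc.) and of `κ`, so they are Lipschitz in `(μ,κ)` by the Lipschitz property of `Z`.
`μ = 0`: `tipU, tipW, tipP` depend only on `z₀,z₁,z₂`, hence not on `κ` (`ua := tipU (Z 0 1) Ta` etc.); `tipG = 0`; the constraint with `s = 0` reads
`P² (12 - w²) = 12 cosh u`, so `w² < 12` and `P = √(12 cosh u/(12 - w²))`; `w = 2 + x z₁ ≠ 0`.
`smallG`: `|tipG| = x|z₄| ≤ |Z μ κ 4 x - Z 0 κ 4 x| ≤ C μ`; `smallF`: `s Φ² = μ e^{2T} e^{2T} Ψ² = μ x Ψ²`, `|Ψ| ≤ 1`. -/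
theorem bd_data : ∃ (X₀ : ℝ) (Z : ℝ → ℝ → Fin 5 → ℝ → ℝ) (C ua wa : ℝ), BDData X₀ Z C ua wa := by
  obtain ⟨X₀, hX, hX', C₀, hC₀, Z, hTip, hLip, hZ0, hZ4⟩ := tip_exists
  have h1m : (1 : ℝ) ∈ Icc (1 / 2 : ℝ) 1 := ⟨by norm_num, le_rfl⟩
  have h0m : (0 : ℝ) ∈ Icc (0 : ℝ) 1 := ⟨le_rfl, by norm_num⟩
  set x : ℝ := X₀ / 2 with hx
  have hx0 : 0 < x := by positivity
  have hx1 : x ≤ 1 / 200000 := by rw [hx]; linarith
  have hxm : x ∈ Ioo (-X₀) X₀ := ⟨by linarith, by rw [hx]; linarith⟩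
  have hex : Real.exp (4 * tA X₀) = x := b3a_expTa hX
  have htlt : tA X₀ < log X₀ / 4 := by
    unfold tA
    have : log (X₀ / 2) < log X₀ := Real.log_lt_log (by positivity) (by linarith)
    linarith
  have q1 := b3a_q0_lo
  have q2 := b3a_q0_hi
  -- bounds at x
  have hb : ∀ μ ∈ Icc (0 : ℝ) 1, ∀ κ ∈ Icc (1 / 2 : ℝ) 1, ∀ j, |Z μ κ j x| ≤ 10 :=
    fun μ hμ κ hκ j => (hTip μ hμ κ hκ).bound j x hxm
  have hxb : ∀ μ ∈ Icc (0 : ℝ) 1, ∀ κ ∈ Icc (1 / 2 : ℝ) 1, ∀ j, |x * Z μ κ j x| ≤ 1 / 20000 := by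
    intro μ hμ κ hκ j
    rw [abs_mul, abs_of_pos hx0]
    have := hb μ hμ κ hκ j
    nlinarith [abs_nonneg (Z μ κ j x)]
  have hy : ∀ μ ∈ Icc (0 : ℝ) 1, ∀ κ ∈ Icc (1 / 2 : ℝ) 1, 1 / 2 ≤ tipy (Z μ κ) x := by
    intro μ hμ κ hκ
    have := (abs_le.1 (hxb μ hμ κ hκ 0)).1
    unfold tipy
    linarith
  have hp : ∀ μ ∈ Icc (0 : ℝ) 1, ∀ κ ∈ Icc (1 / 2 : ℝ) 1, |tipp (Z μ κ) x| ≤ 2 := by
    intro μ hμ κ hκ
    have h := abs_le.1 (hxb μ hμ κ hκ 2)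
    unfold tipp
    rw [abs_le]
    constructor <;> linarith [h.1, h.2]
  have hsol : ∀ μ ∈ Icc (0 : ℝ) 1, ∀ κ ∈ Icc (1 / 2 : ℝ) 1,
      SolM μ κ (Iio (log X₀ / 4)) (tipU (Z μ κ)) (tipW (Z μ κ)) (tipP (Z μ κ)) (tipF κ (Z μ κ))
      (tipG (Z μ κ)) := by
    intro μ hμ κ hκ
    have ho := fun T hT => tip_ode_part μ κ X₀ hμ hκ hX hX' (Z μ κ) (hTip μ hμ κ hκ) T hT
    have hc := tip_con μ κ X₀ hμ hκ hX hX' (Z μ κ) (hTip μ hμ κ hκ) ho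
    exact ⟨fun T hT => (ho T hT).1, fun T hT => (ho T hT).2.1, fun T hT => (ho T hT).2.2.1,
      fun T hT => (ho T hT).2.2.2.1, fun T hT => (ho T hT).2.2.2.2.1,
      fun T hT => (ho T hT).2.2.2.2.2, fun T hT => hc T hT⟩
  -- differences
  have hd : ∀ μ ∈ Icc (0 : ℝ) 1, ∀ κ ∈ Icc (1 / 2 : ℝ) 1, ∀ μ' ∈ Icc (0 : ℝ) 1,
      ∀ κ' ∈ Icc (1 / 2 : ℝ) 1, ∀ j,
      |x * Z μ κ j x - x * Z μ' κ' j x| ≤ C₀ * (|μ - μ'| + |κ - κ'|) := by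
    intro μ hμ κ hκ μ' hμ' κ' hκ' j
    rw [← mul_sub, abs_mul, abs_of_pos hx0]
    have h := hLip μ hμ κ hκ μ' hμ' κ' hκ' x hxm j
    have h0 := abs_nonneg (Z μ κ j x - Z μ' κ' j x)
    nlinarith
  set E1 : ℝ := Real.exp (-tA X₀) with hE1
  set E2 : ℝ := Real.exp (tA X₀) with hE2
  have hE1p : 0 < E1 := Real.exp_pos _
  have hE2p : 0 < E2 := Real.exp_pos _
  set C : ℝ := 1 + 2 * E2 + 4 * C₀ + 10 * C₀ * E1 + E2 * (1 + C₀) with hC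
  have hCE1 : 0 < C₀ * E1 := by positivity
  have hCE2 : 0 < E2 * (1 + C₀) := by positivity
  -- constraint at μ = 0
  have hcon0 : ∀ κ ∈ Icc (1 / 2 : ℝ) 1,
      tipP (Z 0 κ) (tA X₀) ^ 2 * (12 - tipW (Z 0 κ) (tA X₀) ^ 2)
        = 12 * cosh (tipU (Z 0 κ) (tA X₀)) ∧ 0 < tipP (Z 0 κ) (tA X₀) := by
    intro κ hκ
    have h := (hsol 0 h0m κ hκ).con (tA X₀) htlt
    have hs : sM 0 (tA X₀) = 0 := by unfold sM; ring
    rw [hs] at h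
    unfold conK at h
    refine ⟨by linarith, (hsol 0 h0m κ hκ).pos (tA X₀) htlt⟩
  have hW0 : ∀ κ ∈ Icc (1 / 2 : ℝ) 1, tipW (Z 0 κ) (tA X₀) = tipW (Z 0 1) (tA X₀) := by
    intro κ hκ
    unfold tipW tipw
    rw [hex, (hZ0 κ hκ 1 h1m x hxm).2.1]
  have hU0 : ∀ κ ∈ Icc (1 / 2 : ℝ) 1, tipU (Z 0 κ) (tA X₀) = tipU (Z 0 1) (tA X₀) := by
    intro κ hκ
    unfold tipU tipy
    rw [hex, (hZ0 κ hκ 1 h1m x hxm).1]
  have hwlt : ∀ κ ∈ Icc (1 / 2 : ℝ) 1, 0 < 12 - tipW (Z 0 κ) (tA X₀) ^ 2 := by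
    intro κ hκ
    obtain ⟨h1, h2⟩ := hcon0 κ hκ
    by_contra hneg
    have hc : 0 < cosh (tipU (Z 0 κ) (tA X₀)) := Real.cosh_pos _
    have h3 : 0 < tipP (Z 0 κ) (tA X₀) ^ 2 := by positivity
    nlinarith
  refine ⟨X₀, Z, C, tipU (Z 0 1) (tA X₀), tipW (Z 0 1) (tA X₀), ?_⟩
  refine
    { hX := hX
      hX' := hX'
      hC := by rw [hC]; nlinarith
      tip := hTip
      sol := hsol
      wa_lt := by linarith [hwlt 1 h1m]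
      ne := ?_
      zeroU := hU0
      zeroW := hW0
      zeroP := ?_
      zeroF := ?_
      zeroG := ?_
      lipU := ?_
      lipW := ?_
      lipP := ?_
      lipF := ?_
      lipG := ?_
      smallG := ?_
      smallF := ?_ }
  · intro h
    have h2 : tipW (Z 0 1) (tA X₀) = 0 := by simpa using congrArg Prod.snd h
    unfold tipW tipw at h2
    rw [hex] at h2
    have := (abs_le.1 (hxb 0 h0m 1 h1m 1)).1
    linarith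
  · intro κ hκ
    obtain ⟨h1, h2⟩ := hcon0 κ hκ
    have h3 := hwlt κ hκ
    rw [← hU0 κ hκ, ← hW0 κ hκ]
    have h4 : 12 * cosh (tipU (Z 0 κ) (tA X₀)) / (12 - tipW (Z 0 κ) (tA X₀) ^ 2)
        = tipP (Z 0 κ) (tA X₀) ^ 2 := by
      rw [← h1]
      field_simp
    rw [h4, Real.sqrt_sq h2.le]
  · intro κ hκ
    unfold tipF tipΨ
    rw [hex, abs_mul, abs_of_pos (Real.exp_pos _)]
    have h3 := abs_le.1 (hxb 0 h0m κ hκ 3)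
    have h4 : |2 * κ * q0 / 3 + x * Z 0 κ 3 x| ≤ 2 := by
      rw [abs_le]
      have := hκ.1
      have := hκ.2
      constructor <;> nlinarith
    rw [← hE2]
    nlinarith [abs_nonneg (2 * κ * q0 / 3 + x * Z 0 κ 3 x)]
  · intro κ hκ
    unfold tipG tipg
    rw [hex, hZ4 κ hκ x hxm, mul_zero]
  · intro μ hμ κ hκ μ' hμ' κ' hκ'
    have h1 := hd μ hμ κ hκ μ' hμ' κ' hκ' 0
    have h2 := b3a_log_lip (hy μ hμ κ hκ) (hy μ' hμ' κ' hκ')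
    have h3 : tipy (Z μ κ) x - tipy (Z μ' κ') x = x * Z μ κ 0 x - x * Z μ' κ' 0 x := by
      unfold tipy; ring
    rw [h3] at h2
    have h5 : tipU (Z μ κ) (tA X₀) - tipU (Z μ' κ') (tA X₀)
        = 2 * (Real.log (tipy (Z μ κ) x) - Real.log (tipy (Z μ' κ') x)) := by
      unfold tipU
      rw [hex]; ring
    rw [h5, abs_mul, abs_of_pos (by norm_num : (0 : ℝ) < 2)]
    have hδ : 0 ≤ |μ - μ'| + |κ - κ'| := by positivity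
    have h6 : 4 * C₀ * (|μ - μ'| + |κ - κ'|) ≤ C * (|μ - μ'| + |κ - κ'|) := by
      apply mul_le_mul_of_nonneg_right _ hδ
      rw [hC]; nlinarith
    nlinarith
  · intro μ hμ κ hκ μ' hμ' κ' hκ'
    have h1 := hd μ hμ κ hκ μ' hμ' κ' hκ' 1
    have h5 : tipW (Z μ κ) (tA X₀) - tipW (Z μ' κ') (tA X₀)
        = x * Z μ κ 1 x - x * Z μ' κ' 1 x := by
      unfold tipW tipw
      rw [hex]; ring
    rw [h5]
    have hδ : 0 ≤ |μ - μ'| + |κ - κ'| := by positivity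
    have h6 : C₀ * (|μ - μ'| + |κ - κ'|) ≤ C * (|μ - μ'| + |κ - κ'|) := by
      apply mul_le_mul_of_nonneg_right _ hδ
      rw [hC]; nlinarith
    linarith
  · intro μ hμ κ hκ μ' hμ' κ' hκ'
    have h1 := hd μ hμ κ hκ μ' hμ' κ' hκ' 0
    have h2 := hd μ hμ κ hκ μ' hμ' κ' hκ' 2
    have h3 := b3a_div_lip (p := tipp (Z μ κ) x) (hy μ hμ κ hκ) (hy μ' hμ' κ' hκ')
      (hp μ' hμ' κ' hκ')
    have h4 : tipy (Z μ κ) x - tipy (Z μ' κ') x = x * Z μ κ 0 x - x * Z μ' κ' 0 x := by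
      unfold tipy; ring
    have h5 : tipp (Z μ κ) x - tipp (Z μ' κ') x = x * Z μ κ 2 x - x * Z μ' κ' 2 x := by
      unfold tipp; ring
    rw [h4, h5] at h3
    have h6 : tipP (Z μ κ) (tA X₀) - tipP (Z μ' κ') (tA X₀)
        = E1 * (tipp (Z μ κ) x / tipy (Z μ κ) x - tipp (Z μ' κ') x / tipy (Z μ' κ') x) := by
      unfold tipP
      rw [hex, hE1]; ring
    rw [h6, abs_mul, abs_of_pos hE1p]
    have hδ : 0 ≤ |μ - μ'| + |κ - κ'| := by positivity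
    have h7 : 10 * C₀ * E1 * (|μ - μ'| + |κ - κ'|) ≤ C * (|μ - μ'| + |κ - κ'|) := by
      apply mul_le_mul_of_nonneg_right _ hδ
      rw [hC]; nlinarith
    have h8 : |tipp (Z μ κ) x / tipy (Z μ κ) x - tipp (Z μ' κ') x / tipy (Z μ' κ') x|
        ≤ 10 * (C₀ * (|μ - μ'| + |κ - κ'|)) := by linarith
    have h9 := mul_le_mul_of_nonneg_left h8 hE1p.le
    nlinarith
  · intro μ hμ κ hκ μ' hμ' κ' hκ'
    have h1 := hd μ hμ κ hκ μ' hμ' κ' hκ' 3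
    have h5 : tipF κ (Z μ κ) (tA X₀) - tipF κ' (Z μ' κ') (tA X₀)
        = E2 * (2 * q0 / 3 * (κ - κ') + (x * Z μ κ 3 x - x * Z μ' κ' 3 x)) := by
      unfold tipF tipΨ
      rw [hex, hE2]; ring
    rw [h5, abs_mul, abs_of_pos hE2p]
    have h6 : |2 * q0 / 3 * (κ - κ') + (x * Z μ κ 3 x - x * Z μ' κ' 3 x)|
        ≤ |κ - κ'| + C₀ * (|μ - μ'| + |κ - κ'|) := by
      refine (abs_add_le _ _).trans ?_
      rw [abs_mul, abs_of_pos (by linarith : 0 < 2 * q0 / 3)]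
      nlinarith [abs_nonneg (κ - κ')]
    have hδ : 0 ≤ |μ - μ'| + |κ - κ'| := by positivity
    have h7 : E2 * (1 + C₀) * (|μ - μ'| + |κ - κ'|) ≤ C * (|μ - μ'| + |κ - κ'|) := by
      apply mul_le_mul_of_nonneg_right _ hδ
      rw [hC]; nlinarith
    have h9 := mul_le_mul_of_nonneg_left h6 hE2p.le
    have h10 : E2 * (|κ - κ'| + C₀ * (|μ - μ'| + |κ - κ'|))
        ≤ E2 * (1 + C₀) * (|μ - μ'| + |κ - κ'|) := by
      have : 0 ≤ E2 * |μ - μ'| := by positivity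
      nlinarith
    linarith
  · intro μ hμ κ hκ μ' hμ' κ' hκ'
    have h1 := hd μ hμ κ hκ μ' hμ' κ' hκ' 4
    have h5 : tipG (Z μ κ) (tA X₀) - tipG (Z μ' κ') (tA X₀)
        = x * Z μ κ 4 x - x * Z μ' κ' 4 x := by
      unfold tipG tipg
      rw [hex]
    rw [h5]
    have hδ : 0 ≤ |μ - μ'| + |κ - κ'| := by positivity
    have h6 : C₀ * (|μ - μ'| + |κ - κ'|) ≤ C * (|μ - μ'| + |κ - κ'|) := by
      apply mul_le_mul_of_nonneg_right _ hδ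
      rw [hC]; nlinarith
    linarith
  · intro μ hμ κ hκ T hT
    have hxT : Real.exp (4 * T) < X₀ := by
      rw [← Real.exp_log hX]
      apply Real.exp_lt_exp.2
      linarith
    have hxT0 := Real.exp_pos (4 * T)
    have hxm' : Real.exp (4 * T) ∈ Ioo (-X₀) X₀ := ⟨by linarith, hxT⟩
    unfold tipG tipg
    rw [abs_mul, abs_of_pos hxT0]
    have h := hLip μ hμ κ hκ 0 h0m κ hκ _ hxm' 4
    rw [hZ4 κ hκ _ hxm', sub_zero, sub_zero, sub_self, abs_zero, add_zero, abs_of_nonneg hμ.1] at h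
    have h0 := abs_nonneg (Z μ κ 4 (Real.exp (4 * T)))
    have h1 : Real.exp (4 * T) ≤ 1 := by linarith
    have h2 : Real.exp (4 * T) * |Z μ κ 4 (Real.exp (4 * T))| ≤ C₀ * μ := by nlinarith
    have h3 : C₀ * μ ≤ C * μ := by
      apply mul_le_mul_of_nonneg_right _ hμ.1
      rw [hC]; nlinarith
    linarith
  · intro μ hμ κ hκ T hT
    have hxT : Real.exp (4 * T) < X₀ := by
      rw [← Real.exp_log hX]
      apply Real.exp_lt_exp.2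
      linarith
    have hxT0 := Real.exp_pos (4 * T)
    have hxm' : Real.exp (4 * T) ∈ Ioo (-X₀) X₀ := ⟨by linarith, hxT⟩
    have hb' := (hTip μ hμ κ hκ).bound 3 _ hxm'
    have hΨ : |tipΨ κ (Z μ κ) (Real.exp (4 * T))| ≤ 1 := by
      unfold tipΨ
      have h1 : |Real.exp (4 * T) * Z μ κ 3 (Real.exp (4 * T))| ≤ 1 / 10000 := by
        rw [abs_mul, abs_of_pos hxT0]
        nlinarith [abs_nonneg (Z μ κ 3 (Real.exp (4 * T)))]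
      have h2 := abs_le.1 h1
      have := hκ.1
      have := hκ.2
      rw [abs_le]
      constructor <;> nlinarith
    have hΨ2 : tipΨ κ (Z μ κ) (Real.exp (4 * T)) ^ 2 ≤ 1 := by
      rw [← sq_abs]
      nlinarith [abs_nonneg (tipΨ κ (Z μ κ) (Real.exp (4 * T)))]
    have he : sM μ T * tipF κ (Z μ κ) T ^ 2
        = μ * (Real.exp (4 * T) * tipΨ κ (Z μ κ) (Real.exp (4 * T)) ^ 2) := by
      unfold sM tipF
      have h4 : Real.exp (4 * T) = Real.exp (2 * T) * Real.exp T ^ 2 := by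
        rw [← Real.exp_nat_mul, ← Real.exp_add]
        congr 1
        push_cast
        ring
      generalize tipΨ κ (Z μ κ) (Real.exp (4 * T)) = Ψ at *
      rw [h4]
      ring
    rw [he]
    have h5 : Real.exp (4 * T) * tipΨ κ (Z μ κ) (Real.exp (4 * T)) ^ 2 ≤ 1 := by
      nlinarith [sq_nonneg (tipΨ κ (Z μ κ) (Real.exp (4 * T)))]
    have h6 : (1 : ℝ) ≤ C := by rw [hC]; nlinarith
    nlinarith [hμ.1]

end Pool.Agent.RS
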