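import Pool.Agent.Lib.MP_35abc2_gt.T1_Flow
import Pool.Agent.Lib.MP_35abc2_gt.B2_Bohm
import Pool.Agent.Lib.MP_35abc2_gt.B3a_Data

/-! # B3b: the solutions on `[Ta, T₁]` for small `μ` (MP_35abc2_gt) -/

open scoped ContDiff Topology NNReal
open Set Filter Real

noncomputable section

namespace Pool.Agent.RS

theorem B3b_contDiff : ContDiffOn ℝ 1 FM {v : Fin 7 → ℝ | v 3 ≠ 0} := by
  have h3 : ∀ v ∈ {v : Fin 7 → ℝ | v 3 ≠ 0}, v 3 ≠ 0 := fun v hv => hv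
  have h3' : ∀ v ∈ {v : Fin 7 → ℝ | v 3 ≠ 0}, v 3 ^ 2 ≠ 0 := fun v hv => pow_ne_zero 2 hv
  have hc : ∀ i : Fin 7, ContDiff ℝ 1 (fun v : Fin 7 → ℝ => v i) := fun i => contDiff_apply ℝ ℝ i
  have hch : ContDiff ℝ 1 (fun v : Fin 7 → ℝ => cosh (v 1)) := Real.contDiff_cosh.comp (hc 1)
  have hsh : ContDiff ℝ 1 (fun v : Fin 7 → ℝ => sinh (v 1)) := Real.contDiff_sinh.comp (hc 1)
  rw [contDiffOn_pi]
  intro i
  fin_cases i
  · exact (contDiff_const.mul (hc 0)).contDiffOn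
  · exact (hc 2).contDiffOn
  · refine ContDiffOn.div (ContDiff.contDiffOn ?_) ((hc 3).pow 2).contDiffOn h3'
    exact ((((contDiff_const.mul hch).sub ((hc 0).div_const 2)).mul (hc 2)).add
      (contDiff_const.mul hsh)).neg
  · refine ContDiffOn.add (ContDiffOn.add (contDiff_const.mul (hc 3)).contDiffOn
      (ContDiffOn.div (ContDiff.contDiffOn ?_) (hc 3).contDiffOn h3)) ((hc 0).mul (hc 4)).contDiffOn
    exact (contDiff_const.mul hch).sub ((hc 0).div_const 2)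
  · refine ContDiffOn.add (contDiff_const.mul (hc 4)).contDiffOn
      (ContDiffOn.div (ContDiff.contDiffOn ?_) (hc 3).contDiffOn h3)
    exact ((contDiff_const.mul (hc 6)).sub (hc 5)).add ((hc 0).mul ((hc 4).pow 2))
  · exact ContDiffOn.div ((hc 0).mul (hc 4)).contDiffOn (hc 3).contDiffOn h3
  · exact contDiffOn_const

theorem B3b_contOn (f : ℝ → ℝ → ℝ) (C : ℝ) (S : Set (ℝ × ℝ))
    (hf : ∀ p ∈ S, ∀ q ∈ S, |f p.1 p.2 - f q.1 q.2| ≤ C * (|p.1 - q.1| + |p.2 - q.2|)) :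
    ContinuousOn (fun p : ℝ × ℝ => f p.1 p.2) S := by
  have : LipschitzOnWith (2 * |C|).toNNReal (fun p : ℝ × ℝ => f p.1 p.2) S := by
    refine LipschitzOnWith.of_dist_le_mul ?_
    intro p hp q hq
    rw [Real.coe_toNNReal _ (by positivity), Real.dist_eq]
    have h1 : |p.1 - q.1| ≤ dist p q := by
      rw [← Real.dist_eq]; exact le_max_left _ _
    have h2 : |p.2 - q.2| ≤ dist p q := by
      rw [← Real.dist_eq]; exact le_max_right _ _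
    calc |f p.1 p.2 - f q.1 q.2| ≤ C * (|p.1 - q.1| + |p.2 - q.2|) := hf p hp q hq
      _ ≤ |C| * (|p.1 - q.1| + |p.2 - q.2|) :=
          mul_le_mul_of_nonneg_right (le_abs_self C) (by positivity)
      _ ≤ |C| * (dist p q + dist p q) := mul_le_mul_of_nonneg_left (add_le_add h1 h2) (abs_nonneg C)
      _ = 2 * |C| * dist p q := by ring
  exact this.continuousOn

/-- a function with zero derivative on `[a,b]` is constant there -/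
theorem B3b_const (a b : ℝ) (f : ℝ → ℝ) (hf : ∀ t ∈ Icc a b, HasDerivAt f 0 t) :
    ∀ t ∈ Icc a b, f t = f a :=
  constant_of_has_deriv_right_zero (fun t ht => (hf t ht).continuousAt.continuousWithinAt)
    (fun t ht => (hf t ⟨ht.1, ht.2.le⟩).hasDerivWithinAt)

/-- the vector of a solution of (M) -/
def B3b_vec (s u w P Φ g κ : ℝ) : Fin 7 → ℝ := ![s, u, w, P, Φ, g, κ]

/-- a solution of (M) gives a solution of the autonomous system -/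
theorem B3b_toVec {μ κ : ℝ} {I : Set ℝ} {u w P Φ g : ℝ → ℝ} (h : SolM μ κ I u w P Φ g) (T : ℝ)
    (hT : T ∈ I) : HasDerivAt (fun T => B3b_vec (sM μ T) (u T) (w T) (P T) (Φ T) (g T) κ)
      (FM (B3b_vec (sM μ T) (u T) (w T) (P T) (Φ T) (g T) κ)) T := by
  rw [hasDerivAt_pi]
  have hs : HasDerivAt (fun T => sM μ T) (2 * sM μ T) T := by
    have h0 : HasDerivAt (fun T : ℝ => 2 * T) 2 T := by
      simpa using (hasDerivAt_id T).const_mul 2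
    have h2 := (h0.exp).const_mul μ
    have e : 2 * sM μ T = μ * (Real.exp (2 * T) * 2) := by
      unfold sM
      ring
    rw [e]
    exact h2
  intro i
  fin_cases i
  · exact hs
  · exact h.du T hT
  · exact h.dw T hT
  · exact h.dP T hT
  · exact h.dΦ T hT
  · exact h.dg T hT
  · exact hasDerivAt_const T κ

/-- the lower corner of the box -/
def B3b_lo (M M' m : ℝ) : Fin 7 → ℝ := ![-1, -(M + 1), -(M + 1), m / 2, -(M' + 1), -1, 0]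
/-- the upper corner of the box -/
def B3b_hi (M M' : ℝ) : Fin 7 → ℝ := ![1, M + 1, M + 1, M + 1, M' + 1, 1, 2]

theorem B3b_memBox {M M' m : ℝ} {v : Fin 7 → ℝ} (h0 : |v 0| ≤ 1) (h1 : |v 1| ≤ M + 1)
    (h2 : |v 2| ≤ M + 1) (h3 : m / 2 ≤ v 3) (h3' : v 3 ≤ M + 1) (h4 : |v 4| ≤ M' + 1)
    (h5 : |v 5| ≤ 1) (h6 : 0 ≤ v 6) (h6' : v 6 ≤ 2) :
    v ∈ Icc (B3b_lo M M' m) (B3b_hi M M') := by
  rw [abs_le] at h0 h1 h2 h4 h5
  refine ⟨fun i => ?_, fun i => ?_⟩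
  · fin_cases i
    · exact h0.1
    · exact h1.1
    · exact h2.1
    · exact h3
    · exact h4.1
    · exact h5.1
    · exact h6
  · fin_cases i
    · exact h0.2
    · exact h1.2
    · exact h2.2
    · exact h3'
    · exact h4.2
    · exact h5.2
    · exact h6'

/-- The local statement: a trajectory of `FM` staying in a box gives a solution of (M). -/
theorem B3b_fromVec {μ κ a b : ℝ} (v : ℝ → Fin 7 → ℝ) (hv : ∀ T ∈ Icc a b, HasDerivAt v (FM (v T)) T)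
    (h0 : v a 0 = sM μ a) (h6 : v a 6 = κ) (hP : ∀ T ∈ Icc a b, 0 < v T 3)
    (hcon : conK κ (sM μ a) (v a 1) (v a 2) (v a 3) (v a 4) (v a 5) = 0) :
    SolM μ κ (Icc a b) (fun T => v T 1) (fun T => v T 2) (fun T => v T 3) (fun T => v T 4)
      (fun T => v T 5) := by
  have hd : ∀ T ∈ Icc a b, ∀ i, HasDerivAt (fun T => v T i) (FM (v T) i) T :=
    fun T hT => hasDerivAt_pi.1 (hv T hT)
  have hk : ∀ T ∈ Icc a b, v T 6 = κ := by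
    intro T hT
    rw [← h6]
    exact B3b_const a b (fun T => v T 6) (fun t ht => hd t ht 6) T hT
  have hs : ∀ T ∈ Icc a b, v T 0 = sM μ T := by
    intro T hT
    have hc := B3b_const a b (fun T => v T 0 * Real.exp (-(2 * T))) ?_ T hT
    · rw [h0] at hc
      unfold sM at hc ⊢
      have e1 : μ * Real.exp (2 * a) * Real.exp (-(2 * a)) = μ := by
        rw [mul_assoc, ← Real.exp_add]
        simp
      rw [e1] at hc
      rw [← hc, mul_assoc, ← Real.exp_add]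
      simp
    · intro t ht
      have h1 : HasDerivAt (fun T => v T 0) (2 * v t 0) t := hd t ht 0
      have h2' : HasDerivAt (fun T : ℝ => 2 * T) 2 t := by
        simpa using (hasDerivAt_id t).const_mul 2
      have h2 : HasDerivAt (fun T : ℝ => -(2 * T)) (-2) t := h2'.neg
      have e : (0 : ℝ) = 2 * v t 0 * Real.exp (-(2 * t)) + v t 0 * (Real.exp (-(2 * t)) * (-2)) := by
        ring
      rw [e]
      exact h1.mul h2.exp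
  have hu : ∀ T ∈ Icc a b, HasDerivAt (fun T => v T 1) (v T 2) T := fun T hT => hd T hT 1
  have hw : ∀ T ∈ Icc a b, HasDerivAt (fun T => v T 2)
      (-((3 * cosh (v T 1) - sM μ T / 2) * v T 2 + 6 * sinh (v T 1)) / v T 3 ^ 2) T := by
    intro T hT
    rw [← hs T hT]
    exact hd T hT 2
  have hPd : ∀ T ∈ Icc a b, HasDerivAt (fun T => v T 3)
      (-3 * v T 3 + (3 * cosh (v T 1) - sM μ T / 2) / v T 3 + sM μ T * v T 4) T := by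
    intro T hT
    rw [← hs T hT]
    exact hd T hT 3
  have hΦ : ∀ T ∈ Icc a b, HasDerivAt (fun T => v T 4)
      (-5 * v T 4 + (3 * κ - v T 5 + sM μ T * v T 4 ^ 2) / v T 3) T := by
    intro T hT
    rw [← hs T hT, ← hk T hT]
    exact hd T hT 4
  have hg : ∀ T ∈ Icc a b, HasDerivAt (fun T => v T 5) (sM μ T * v T 4 / v T 3) T := by
    intro T hT
    rw [← hs T hT]
    exact hd T hT 5
  exact ⟨hP, hu, hw, hPd, hΦ, hg, con_propagate μ κ a b _ _ _ _ _ hP hu hw hPd hΦ hg hcon⟩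

/-- the data vector at `Ta` -/
def B3b_va (X₀ : ℝ) (Z : ℝ → ℝ → Fin 5 → ℝ → ℝ) (μ κ : ℝ) : Fin 7 → ℝ :=
  B3b_vec (sM μ (tA X₀)) (tipU (Z μ κ) (tA X₀)) (tipW (Z μ κ) (tA X₀)) (tipP (Z μ κ) (tA X₀))
    (tipF κ (Z μ κ) (tA X₀)) (tipG (Z μ κ) (tA X₀)) κ

theorem B3b_va_dist {X₀ : ℝ} {Z : ℝ → ℝ → Fin 5 → ℝ → ℝ} {C ua wa : ℝ}
    (h : BDData X₀ Z C ua wa) {μ κ : ℝ} (hμ : μ ∈ Icc (0 : ℝ) 1) (hκ : κ ∈ Icc (1 / 2 : ℝ) 1) :
    dist (B3b_va X₀ Z μ κ) (B3b_va X₀ Z 0 κ) ≤ (Real.exp (2 * tA X₀) + C) * μ := by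
  have h0 : (0 : ℝ) ∈ Icc (0 : ℝ) 1 := ⟨le_refl _, zero_le_one⟩
  have hC := h.hC
  have hμ0 := hμ.1
  have hE := Real.exp_pos (2 * tA X₀)
  have key : ∀ x : ℝ, |x| ≤ C * (|μ - 0| + |κ - κ|) → |x| ≤ (Real.exp (2 * tA X₀) + C) * μ := by
    intro x hx
    rw [sub_zero, sub_self, abs_zero, add_zero, abs_of_nonneg hμ0] at hx
    nlinarith [mul_nonneg hE.le hμ0]
  rw [dist_pi_le_iff (by positivity)]
  intro i
  rw [Real.dist_eq]
  fin_cases i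
  · change |sM μ (tA X₀) - sM 0 (tA X₀)| ≤ _
    unfold sM
    rw [zero_mul, sub_zero, abs_of_nonneg (by positivity)]
    nlinarith [mul_nonneg hC.le hμ0]
  · exact key _ (h.lipU μ hμ κ hκ 0 h0 κ hκ)
  · exact key _ (h.lipW μ hμ κ hκ 0 h0 κ hκ)
  · exact key _ (h.lipP μ hμ κ hκ 0 h0 κ hκ)
  · exact key _ (h.lipF μ hμ κ hκ 0 h0 κ hκ)
  · exact key _ (h.lipG μ hμ κ hκ 0 h0 κ hκ)
  · change |κ - κ| ≤ _
    rw [sub_self, abs_zero]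
    positivity

theorem B3b_va_cont {X₀ : ℝ} {Z : ℝ → ℝ → Fin 5 → ℝ → ℝ} {C ua wa : ℝ}
    (h : BDData X₀ Z C ua wa) {μ₁ : ℝ} (hμ₁ : μ₁ ≤ 1) :
    ContinuousOn (fun p : ℝ × ℝ => B3b_va X₀ Z p.1 p.2) (Ioc 0 μ₁ ×ˢ Icc (1 / 2 : ℝ) 1) := by
  have hmem : ∀ p ∈ Ioc 0 μ₁ ×ˢ Icc (1 / 2 : ℝ) 1, p.1 ∈ Icc (0 : ℝ) 1 ∧ p.2 ∈ Icc (1 / 2 : ℝ) 1 := by
    intro p hp
    exact ⟨⟨hp.1.1.le, hp.1.2.trans hμ₁⟩, hp.2⟩
  rw [continuousOn_pi]
  intro i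
  fin_cases i
  · change ContinuousOn (fun p : ℝ × ℝ => sM p.1 (tA X₀)) _
    unfold sM
    fun_prop
  · exact B3b_contOn (fun μ κ => tipU (Z μ κ) (tA X₀)) C _ (fun p hp q hq =>
      h.lipU _ (hmem p hp).1 _ (hmem p hp).2 _ (hmem q hq).1 _ (hmem q hq).2)
  · exact B3b_contOn (fun μ κ => tipW (Z μ κ) (tA X₀)) C _ (fun p hp q hq =>
      h.lipW _ (hmem p hp).1 _ (hmem p hp).2 _ (hmem q hq).1 _ (hmem q hq).2)
  · exact B3b_contOn (fun μ κ => tipP (Z μ κ) (tA X₀)) C _ (fun p hp q hq =>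
      h.lipP _ (hmem p hp).1 _ (hmem p hp).2 _ (hmem q hq).1 _ (hmem q hq).2)
  · exact B3b_contOn (fun μ κ => tipF κ (Z μ κ) (tA X₀)) C _ (fun p hp q hq =>
      h.lipF _ (hmem p hp).1 _ (hmem p hp).2 _ (hmem q hq).1 _ (hmem q hq).2)
  · exact B3b_contOn (fun μ κ => tipG (Z μ κ) (tA X₀)) C _ (fun p hp q hq =>
      h.lipG _ (hmem p hp).1 _ (hmem p hp).2 _ (hmem q hq).1 _ (hmem q hq).2)
  · exact continuousOn_snd

/-- B3b. -/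
theorem bd_flow (X₀ : ℝ) (Z : ℝ → ℝ → Fin 5 → ℝ → ℝ) (C ua wa : ℝ) (h : BDData X₀ Z C ua wa) :
    ∀ η : ℝ, 0 < η → ∃ T₁ u₀ w₀ : ℝ,
    tA X₀ < T₁ ∧ (u₀, w₀) ≠ (0, 0) ∧ |u₀| ≤ η ∧ |w₀| ≤ η ∧ ∀ η' : ℝ, 0 < η' →
    ∃ μ₁ : ℝ, 0 < μ₁ ∧ μ₁ ≤ η' ∧ μ₁ ≤ 1 ∧ ∃ u w P Φ g : ℝ → ℝ → ℝ → ℝ,
      (∀ μ ∈ Ioc (0 : ℝ) μ₁, ∀ κ ∈ Icc (1 / 2 : ℝ) 1,
        SolM μ κ (Icc (tA X₀) T₁) (u μ κ) (w μ κ) (P μ κ) (Φ μ κ) (g μ κ) ∧
        u μ κ (tA X₀) = tipU (Z μ κ) (tA X₀) ∧ w μ κ (tA X₀) = tipW (Z μ κ) (tA X₀) ∧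
        P μ κ (tA X₀) = tipP (Z μ κ) (tA X₀) ∧ Φ μ κ (tA X₀) = tipF κ (Z μ κ) (tA X₀) ∧
        g μ κ (tA X₀) = tipG (Z μ κ) (tA X₀) ∧
        |u μ κ T₁ - u₀| ≤ η' ∧ |w μ κ T₁ - w₀| ≤ η' ∧ |P μ κ T₁ - 1| ≤ η ∧
        |Φ μ κ T₁ - 3 * κ / 5| ≤ η ∧ |g μ κ T₁| ≤ η' ∧ sM μ T₁ ≤ η' ∧
        (∀ T ∈ Icc (tA X₀) T₁, |g μ κ T| ≤ η' ∧ sM μ T * Φ μ κ T ^ 2 ≤ η')) ∧
      ContinuousOn (fun p : ℝ × ℝ => u p.1 p.2 T₁) (Ioc 0 μ₁ ×ˢ Icc (1 / 2 : ℝ) 1) ∧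
      ContinuousOn (fun p : ℝ × ℝ => w p.1 p.2 T₁) (Ioc 0 μ₁ ×ˢ Icc (1 / 2 : ℝ) 1) ∧
      ContinuousOn (fun p : ℝ × ℝ => P p.1 p.2 T₁) (Ioc 0 μ₁ ×ˢ Icc (1 / 2 : ℝ) 1) ∧
      ContinuousOn (fun p : ℝ × ℝ => Φ p.1 p.2 T₁) (Ioc 0 μ₁ ×ˢ Icc (1 / 2 : ℝ) 1) ∧
      ContinuousOn (fun p : ℝ × ℝ => g p.1 p.2 T₁) (Ioc 0 μ₁ ×ˢ Icc (1 / 2 : ℝ) 1) := by
  intro η hη
  obtain ⟨u0, w0, P0, hu0a, hw0a, hP0a, hne, hu0, hw0, hP0, ⟨M, m, hm, hbd⟩, hex, hFb, hFl⟩ :=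
    bohm_full (tA X₀) ua wa h.wa_lt h.ne
  choose F0 hF0a hF0s using fun κ : ℝ => hex κ (tipF κ (Z 0 κ) (tA X₀))
  obtain ⟨M', hM'⟩ := hFb C
  obtain ⟨T', hT', hFl'⟩ := hFl C (η / 2) (by linarith)
  have hF0C : ∀ κ ∈ Icc (1 / 2 : ℝ) 1, |F0 κ (tA X₀)| ≤ C := by
    intro κ hκ
    rw [hF0a]
    exact h.zeroF κ hκ
  have hF0b : ∀ κ ∈ Icc (1 / 2 : ℝ) 1, ∀ T, tA X₀ ≤ T → |F0 κ T| ≤ M' :=
    fun κ hκ T hT => hM' κ hκ (F0 κ) (hF0C κ hκ) (hF0s κ) T hT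
  have hM0 : 0 ≤ M := (abs_nonneg _).trans (hbd (tA X₀) (le_refl _)).1
  have hmM : m ≤ M := (hbd (tA X₀) (le_refl _)).2.2.1.trans (hbd (tA X₀) (le_refl _)).2.2.2
  have h1mem : (1 : ℝ) ∈ Icc (1 / 2 : ℝ) 1 := ⟨by norm_num, le_refl _⟩
  have hM'0 : 0 ≤ M' := (abs_nonneg _).trans (hF0b 1 h1mem (tA X₀) (le_refl _))
  -- the box
  set lo := B3b_lo M M' m with hlo
  set hi := B3b_hi M M' with hhi
  have hle : lo ≤ hi := by
    intro i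
    fin_cases i
    · change (-1 : ℝ) ≤ 1
      norm_num
    · change -(M + 1) ≤ M + 1
      linarith
    · change -(M + 1) ≤ M + 1
      linarith
    · change m / 2 ≤ M + 1
      linarith
    · change -(M' + 1) ≤ M' + 1
      linarith
    · change (-1 : ℝ) ≤ 1
      norm_num
    · change (0 : ℝ) ≤ 2
      norm_num
  have hopen : IsOpen {v : Fin 7 → ℝ | v 3 ≠ 0} :=
    isOpen_ne_fun (continuous_apply 3) continuous_const
  have hsub : Icc lo hi ⊆ {v : Fin 7 → ℝ | v 3 ≠ 0} := by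
    intro v hv
    have h1 : m / 2 ≤ v 3 := hv.1 3
    have h2 : 0 < v 3 := by linarith
    exact h2.ne'
  obtain ⟨L, hL⟩ := lip_clamp lo hi hle FM _ hopen hsub B3b_contDiff
  set F1 : (Fin 7 → ℝ) → (Fin 7 → ℝ) := fun v => FM (clampV lo hi v) with hF1
  obtain ⟨φ, hφc, hφ0, hφd⟩ := tk_flow (fun _ => F1) L (fun _ => hL) (fun _ => continuous_const) 0
  -- the trajectories
  set va := B3b_va X₀ Z with hva
  set vv : ℝ → ℝ → ℝ → Fin 7 → ℝ := fun μ κ T => φ (T - tA X₀) (va μ κ) with hvv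
  have hvvd : ∀ μ κ T, HasDerivAt (vv μ κ) (F1 (vv μ κ T)) T := by
    intro μ κ T
    exact HasDerivAt.comp_sub_const T (tA X₀) (hφd (T - tA X₀) (va μ κ))
  have hvva : ∀ μ κ, vv μ κ (tA X₀) = va μ κ := by
    intro μ κ
    simp only [hvv, sub_self]
    exact hφ0 _
  set v0 : ℝ → ℝ → Fin 7 → ℝ :=
    fun κ T => B3b_vec (sM 0 T) (u0 T) (w0 T) (P0 T) (F0 κ T) 0 κ with hv0
  have hv0box : ∀ κ ∈ Icc (1 / 2 : ℝ) 1, ∀ T, tA X₀ ≤ T → v0 κ T ∈ Icc lo hi := by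
    intro κ hκ T hT
    obtain ⟨b1, b2, b3, b4⟩ := hbd T hT
    have b5 := hF0b κ hκ T hT
    refine B3b_memBox ?_ ?_ ?_ ?_ ?_ ?_ ?_ ?_ ?_
    · change |sM 0 T| ≤ 1
      unfold sM
      simp
    · change |u0 T| ≤ M + 1
      linarith
    · change |w0 T| ≤ M + 1
      linarith
    · change m / 2 ≤ P0 T
      linarith
    · change P0 T ≤ M + 1
      linarith
    · change |F0 κ T| ≤ M' + 1
      linarith
    · change |(0 : ℝ)| ≤ 1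
      simp
    · change 0 ≤ κ
      linarith [hκ.1]
    · change κ ≤ 2
      linarith [hκ.2]
  have hv0d : ∀ κ ∈ Icc (1 / 2 : ℝ) 1, ∀ T, tA X₀ ≤ T → HasDerivAt (v0 κ) (F1 (v0 κ T)) T := by
    intro κ hκ T hT
    have h1 : F1 (v0 κ T) = FM (v0 κ T) := by
      simp only [hF1]
      rw [clampV_of_mem (hv0box κ hκ T hT)]
    rw [h1]
    exact B3b_toVec (hF0s κ) T (mem_univ T)
  have hv0a : ∀ κ ∈ Icc (1 / 2 : ℝ) 1, v0 κ (tA X₀) = va 0 κ := by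
    intro κ hκ
    simp only [hv0, hva, B3b_va]
    rw [hu0a, hw0a, hP0a, hF0a, h.zeroU κ hκ, h.zeroW κ hκ, h.zeroP κ hκ, h.zeroG κ hκ]
  -- the time `T₁`
  have hev : ∀ᶠ T in atTop, |u0 T| ≤ η ∧ |w0 T| ≤ η ∧ |P0 T - 1| ≤ η / 2 ∧ T' ≤ T ∧
      tA X₀ + 1 ≤ T := by
    have e1 : ∀ᶠ T in atTop, |u0 T| ≤ η := by
      have := (tendsto_order.1 (hu0.abs)).2 η (by simpa using hη)
      exact this.mono fun _ h => h.le
    have e2 : ∀ᶠ T in atTop, |w0 T| ≤ η := by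
      have := (tendsto_order.1 (hw0.abs)).2 η (by simpa using hη)
      exact this.mono fun _ h => h.le
    have e3 : ∀ᶠ T in atTop, |P0 T - 1| ≤ η / 2 := by
      have := (tendsto_order.1 ((hP0.sub_const 1).abs)).2 (η / 2) (by simpa using hη)
      exact this.mono fun _ h => h.le
    filter_upwards [e1, e2, e3, eventually_ge_atTop T', eventually_ge_atTop (tA X₀ + 1)] with
      T a1 a2 a3 a4 a5
    exact ⟨a1, a2, a3, a4, a5⟩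
  obtain ⟨T₁, hT1, hT2, hT3, hT4, hT5⟩ := hev.exists
  have hTa : tA X₀ < T₁ := by linarith
  refine ⟨T₁, u0 T₁, w0 T₁, hTa, hne T₁, hT1, hT2, ?_⟩
  intro η' hη'
  -- the constants
  set K0 : ℝ := (Real.exp (2 * tA X₀) + C) * Real.exp (L * (T₁ - tA X₀)) with hK0
  have hC := h.hC
  have hK0pos : 0 < K0 := by positivity
  set δ : ℝ := min (min (η / 2) η') (min (m / 2) (1 / 2)) with hδ
  have hδpos : 0 < δ := lt_min (lt_min (by linarith) hη') (lt_min (by linarith) (by norm_num))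
  have hδ1 : δ ≤ η / 2 := (min_le_left _ _).trans (min_le_left _ _)
  have hδ2 : δ ≤ η' := (min_le_left _ _).trans (min_le_right _ _)
  have hδ3 : δ ≤ m / 2 := (min_le_right _ _).trans (min_le_left _ _)
  have hδ4 : δ ≤ 1 / 2 := (min_le_right _ _).trans (min_le_right _ _)
  set E : ℝ := Real.exp (2 * T₁) with hE
  have hEpos : 0 < E := Real.exp_pos _
  set ν : ℝ := min η' (1 / 2) with hν
  have hνpos : 0 < ν := lt_min hη' (by norm_num)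
  have hD : 0 < E * (M' + 1) ^ 2 := by positivity
  set μ₁ : ℝ := min (min 1 η') (min (δ / K0) (ν / (E * (M' + 1) ^ 2))) with hμ₁
  have hμ₁pos : 0 < μ₁ := lt_min (lt_min one_pos hη') (lt_min (by positivity) (by positivity))
  have hμ₁1 : μ₁ ≤ 1 := (min_le_left _ _).trans (min_le_left _ _)
  have hμ₁2 : μ₁ ≤ η' := (min_le_left _ _).trans (min_le_right _ _)
  have hμ₁3 : K0 * μ₁ ≤ δ := by
    have : μ₁ ≤ δ / K0 := (min_le_right _ _).trans (min_le_left _ _)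
    rw [le_div_iff₀ hK0pos] at this
    linarith
  have hμ₁4 : μ₁ * (E * (M' + 1) ^ 2) ≤ ν := by
    have : μ₁ ≤ ν / (E * (M' + 1) ^ 2) := (min_le_right _ _).trans (min_le_right _ _)
    rwa [le_div_iff₀ hD] at this
  have hM'1 : (1 : ℝ) ≤ (M' + 1) ^ 2 := by nlinarith
  -- closeness
  have hclose : ∀ μ ∈ Ioc (0 : ℝ) μ₁, ∀ κ ∈ Icc (1 / 2 : ℝ) 1, ∀ T ∈ Icc (tA X₀) T₁, ∀ i,
      |vv μ κ T i - v0 κ T i| ≤ δ := by
    intro μ hμ κ hκ T hT i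
    have hμI : μ ∈ Icc (0 : ℝ) 1 := ⟨hμ.1.le, hμ.2.trans hμ₁1⟩
    have h1 := tk_dist (fun _ => F1) L (fun _ => hL) (tA X₀) T₁ (vv μ κ) (v0 κ)
      (fun t _ => hvvd μ κ t) (fun t ht => hv0d κ hκ t ht.1) T hT
    rw [hvva, hv0a κ hκ] at h1
    have h2 : dist (va μ κ) (va 0 κ) ≤ (Real.exp (2 * tA X₀) + C) * μ := B3b_va_dist h hμI hκ
    have h3 : Real.exp (L * (T - tA X₀)) ≤ Real.exp (L * (T₁ - tA X₀)) := by
      apply Real.exp_le_exp.2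
      apply mul_le_mul_of_nonneg_left _ L.2
      linarith [hT.2]
    have h4 : dist (vv μ κ T) (v0 κ T) ≤ K0 * μ := by
      calc dist (vv μ κ T) (v0 κ T) ≤ dist (va μ κ) (va 0 κ) * Real.exp (L * (T - tA X₀)) := h1
        _ ≤ ((Real.exp (2 * tA X₀) + C) * μ) * Real.exp (L * (T₁ - tA X₀)) :=
            mul_le_mul h2 h3 (Real.exp_pos _).le (by have := hμ.1; positivity)
        _ = K0 * μ := by rw [hK0]; ring
    calc |vv μ κ T i - v0 κ T i| = dist (vv μ κ T i) (v0 κ T i) := (Real.dist_eq _ _).symm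
      _ ≤ dist (vv μ κ T) (v0 κ T) := dist_le_pi_dist _ _ i
      _ ≤ K0 * μ := h4
      _ ≤ K0 * μ₁ := mul_le_mul_of_nonneg_left hμ.2 hK0pos.le
      _ ≤ δ := hμ₁3
  -- consequences of closeness
  have hcomp : ∀ μ ∈ Ioc (0 : ℝ) μ₁, ∀ κ ∈ Icc (1 / 2 : ℝ) 1, ∀ T ∈ Icc (tA X₀) T₁,
      |vv μ κ T 1 - u0 T| ≤ δ ∧ |vv μ κ T 2 - w0 T| ≤ δ ∧ |vv μ κ T 3 - P0 T| ≤ δ ∧
      |vv μ κ T 4 - F0 κ T| ≤ δ ∧ |vv μ κ T 5| ≤ δ ∧ |vv μ κ T 0| ≤ δ ∧ |vv μ κ T 6 - κ| ≤ δ := by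
    intro μ hμ κ hκ T hT
    have hc := hclose μ hμ κ hκ T hT
    have c5 : |vv μ κ T 5 - 0| ≤ δ := hc 5
    have c0 : |vv μ κ T 0 - sM 0 T| ≤ δ := hc 0
    have e0 : sM 0 T = 0 := by
      unfold sM
      simp
    rw [sub_zero] at c5
    rw [e0, sub_zero] at c0
    exact ⟨hc 1, hc 2, hc 3, hc 4, c5, c0, hc 6⟩
  have hbox : ∀ μ ∈ Ioc (0 : ℝ) μ₁, ∀ κ ∈ Icc (1 / 2 : ℝ) 1, ∀ T ∈ Icc (tA X₀) T₁,
      vv μ κ T ∈ Icc lo hi := by
    intro μ hμ κ hκ T hT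
    obtain ⟨c1, c2, c3, c4, c5, c0, c6⟩ := hcomp μ hμ κ hκ T hT
    obtain ⟨b1, b2, b3, b4⟩ := hbd T hT.1
    have b5 := hF0b κ hκ T hT.1
    rw [abs_le] at c3 c6
    refine B3b_memBox ?_ ?_ ?_ ?_ ?_ ?_ ?_ ?_ ?_
    · linarith
    · have := abs_sub_abs_le_abs_sub (vv μ κ T 1) (u0 T)
      linarith
    · have := abs_sub_abs_le_abs_sub (vv μ κ T 2) (w0 T)
      linarith
    · linarith [c3.1]
    · linarith [c3.2]
    · have := abs_sub_abs_le_abs_sub (vv μ κ T 4) (F0 κ T)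
      linarith
    · linarith
    · linarith [c6.1, hκ.1]
    · linarith [c6.2, hκ.2]
  have hvvFM : ∀ μ ∈ Ioc (0 : ℝ) μ₁, ∀ κ ∈ Icc (1 / 2 : ℝ) 1, ∀ T ∈ Icc (tA X₀) T₁,
      HasDerivAt (vv μ κ) (FM (vv μ κ T)) T := by
    intro μ hμ κ hκ T hT
    have h1 := hvvd μ κ T
    have h2 : F1 (vv μ κ T) = FM (vv μ κ T) := by
      simp only [hF1]
      rw [clampV_of_mem (hbox μ hμ κ hκ T hT)]
    rwa [h2] at h1
  have hTaT : tA X₀ ∈ Icc (tA X₀) T₁ := ⟨le_refl _, hTa.le⟩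
  have hT₁T : T₁ ∈ Icc (tA X₀) T₁ := ⟨hTa.le, le_refl _⟩
  have hX := h.hX
  have hlt : tA X₀ < Real.log X₀ / 4 := by
    unfold tA
    have : Real.log (X₀ / 2) < Real.log X₀ := Real.log_lt_log (by linarith) (by linarith)
    linarith
  have hsMle : ∀ μ ∈ Ioc (0 : ℝ) μ₁, ∀ T ∈ Icc (tA X₀) T₁, sM μ T * (M' + 1) ^ 2 ≤ ν := by
    intro μ hμ T hT
    have h1 : sM μ T ≤ μ₁ * E := by
      unfold sM
      apply mul_le_mul hμ.2 _ (Real.exp_pos _).le hμ₁pos.le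
      rw [hE]
      exact Real.exp_le_exp.2 (by linarith [hT.2])
    calc sM μ T * (M' + 1) ^ 2 ≤ μ₁ * E * (M' + 1) ^ 2 :=
          mul_le_mul_of_nonneg_right h1 (by positivity)
      _ = μ₁ * (E * (M' + 1) ^ 2) := by ring
      _ ≤ ν := hμ₁4
  have hsM0 : ∀ μ ∈ Ioc (0 : ℝ) μ₁, ∀ T, 0 ≤ sM μ T := by
    intro μ hμ T
    unfold sM
    exact mul_nonneg hμ.1.le (Real.exp_pos _).le
  refine ⟨μ₁, hμ₁pos, hμ₁2, hμ₁1, fun μ κ T => vv μ κ T 1, fun μ κ T => vv μ κ T 2,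
    fun μ κ T => vv μ κ T 3, fun μ κ T => vv μ κ T 4, fun μ κ T => vv μ κ T 5, ?_, ?_⟩
  · intro μ hμ κ hκ
    have hμI : μ ∈ Icc (0 : ℝ) 1 := ⟨hμ.1.le, hμ.2.trans hμ₁1⟩
    obtain ⟨c1, c2, c3, c4, c5, c0, c6⟩ := hcomp μ hμ κ hκ T₁ hT₁T
    have hFT := hFl' κ hκ (F0 κ) (hF0C κ hκ) (hF0s κ) T₁ hT4
    refine ⟨?_, ?_, ?_, ?_, ?_, ?_, ?_, ?_, ?_, ?_, ?_, ?_, ?_⟩
    · refine B3b_fromVec (vv μ κ) (hvvFM μ hμ κ hκ) ?_ ?_ ?_ ?_
      · rw [hvva]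
        rfl
      · rw [hvva]
        rfl
      · intro T hT
        have h3 : m / 2 ≤ vv μ κ T 3 := (hbox μ hμ κ hκ T hT).1 3
        linarith
      · rw [hvva]
        exact (h.sol μ hμI κ hκ).con (tA X₀) hlt
    · change vv μ κ (tA X₀) 1 = _
      rw [hvva]
      rfl
    · change vv μ κ (tA X₀) 2 = _
      rw [hvva]
      rfl
    · change vv μ κ (tA X₀) 3 = _
      rw [hvva]
      rfl
    · change vv μ κ (tA X₀) 4 = _
      rw [hvva]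
      rfl
    · change vv μ κ (tA X₀) 5 = _
      rw [hvva]
      rfl
    · exact c1.trans hδ2
    · exact c2.trans hδ2
    · have e : vv μ κ T₁ 3 - 1 = (vv μ κ T₁ 3 - P0 T₁) + (P0 T₁ - 1) := by ring
      change |vv μ κ T₁ 3 - 1| ≤ η
      rw [e]
      exact (abs_add_le _ _).trans (by linarith)
    · have e : vv μ κ T₁ 4 - 3 * κ / 5 = (vv μ κ T₁ 4 - F0 κ T₁) + (F0 κ T₁ - 3 * κ / 5) := by ring
      change |vv μ κ T₁ 4 - 3 * κ / 5| ≤ η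
      rw [e]
      exact (abs_add_le _ _).trans (by linarith)
    · exact c5.trans hδ2
    · have h1 := hsMle μ hμ T₁ hT₁T
      have h2 := hsM0 μ hμ T₁
      have h3 : ν ≤ η' := min_le_left _ _
      nlinarith [mul_le_mul_of_nonneg_left hM'1 h2]
    · intro T hT
      obtain ⟨d1, d2, d3, d4, d5, d0, d6⟩ := hcomp μ hμ κ hκ T hT
      refine ⟨d5.trans hδ2, ?_⟩
      have h1 := hsMle μ hμ T hT
      have h2 := hsM0 μ hμ T
      have h3 : ν ≤ η' := min_le_left _ _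
      have h4 : |vv μ κ T 4| ≤ M' + 1 := by
        have := abs_sub_abs_le_abs_sub (vv μ κ T 4) (F0 κ T)
        have := hF0b κ hκ T hT.1
        linarith
      have h5 : vv μ κ T 4 ^ 2 ≤ (M' + 1) ^ 2 := by
        rw [← sq_abs]
        exact pow_le_pow_left₀ (abs_nonneg _) h4 2
      calc sM μ T * vv μ κ T 4 ^ 2 ≤ sM μ T * (M' + 1) ^ 2 := mul_le_mul_of_nonneg_left h5 h2
        _ ≤ η' := h1.trans h3
  · have hcont : ContinuousOn (fun p : ℝ × ℝ => vv p.1 p.2 T₁) (Ioc 0 μ₁ ×ˢ Icc (1 / 2 : ℝ) 1) := by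
      have h1 : Continuous (fun x : Fin 7 → ℝ => φ (T₁ - tA X₀) x) :=
        hφc.comp (continuous_const.prodMk continuous_id)
      exact h1.comp_continuousOn (B3b_va_cont h hμ₁1)
    have hci : ∀ i, ContinuousOn (fun p : ℝ × ℝ => vv p.1 p.2 T₁ i)
        (Ioc 0 μ₁ ×ˢ Icc (1 / 2 : ℝ) 1) := fun i => (continuous_apply i).comp_continuousOn hcont
    exact ⟨hci 1, hci 2, hci 3, hci 4, hci 5⟩

end Pool.Agent.RS
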