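import Pool.Agent.Lib.MP_35abc2_gt.T5_Glue
import Pool.Agent.Lib.MP_35abc2_gt.B3b_Flow

/-! # B3c: Proposition BD (MP_35abc2_gt) -/

open scoped ContDiff Topology NNReal
open Set Filter Real

noncomputable section

namespace Pool.Agent.RS

theorem B3c_tip {μ κ X₀ X₀' : ℝ} {z : Fin 5 → ℝ → ℝ} (h : Tip μ κ X₀' z) (hX : X₀ ≤ X₀') :
    Tip μ κ X₀ z := by
  have hsub : Ioo (-X₀) X₀ ⊆ Ioo (-X₀') X₀' := Ioo_subset_Ioo (by linarith) hX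
  exact ⟨fun j => (h.smooth j).mono hsub, fun j x hx => h.bound j x (hsub hx),
    fun j x hx => h.ode j x (hsub hx)⟩

/-- gluing of two solutions at `a` -/
theorem B3c_glue {μ κ a b τ : ℝ} {u₁ w₁ P₁ Φ₁ g₁ u₂ w₂ P₂ Φ₂ g₂ : ℝ → ℝ} (haτ : a < τ)
    (h1 : SolM μ κ (Iio τ) u₁ w₁ P₁ Φ₁ g₁) (h2 : SolM μ κ (Icc a b) u₂ w₂ P₂ Φ₂ g₂) (hab : a < b)
    (eu : u₂ a = u₁ a) (ew : w₂ a = w₁ a) (eP : P₂ a = P₁ a) (eΦ : Φ₂ a = Φ₁ a) (eg : g₂ a = g₁ a) :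
    SolM μ κ (Iic b) (fun T => if T ≤ a then u₁ T else u₂ T) (fun T => if T ≤ a then w₁ T else w₂ T)
      (fun T => if T ≤ a then P₁ T else P₂ T) (fun T => if T ≤ a then Φ₁ T else Φ₂ T)
      (fun T => if T ≤ a then g₁ T else g₂ T) := by
  have haa : a ∈ Icc a b := ⟨le_refl _, hab.le⟩
  have key : ∀ (f₁ f₂ : ℝ → ℝ) (F₁ F₂ : ℝ → ℝ), f₂ a = f₁ a →
      (∀ T, T < τ → HasDerivAt f₁ (F₁ T) T) → (∀ T ∈ Icc a b, HasDerivAt f₂ (F₂ T) T) →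
      F₂ a = F₁ a → ∀ T, T ≤ b → ∀ c, (T ≤ a → c = F₁ T) → (a < T → c = F₂ T) →
      HasDerivAt (fun T => if T ≤ a then f₁ T else f₂ T) c T := by
    intro f₁ f₂ F₁ F₂ hf d1 d2 eF T hT c e1 e2
    rcases lt_trichotomy T a with h | h | h
    · rw [e1 h.le]
      exact glue_hasDerivAt_left _ _ a _ T h (d1 T (h.trans haτ))
    · subst h
      rw [e1 (le_refl _)]
      refine glue_hasDerivAt _ _ T _ hf.symm (d1 T haτ) ?_
      rw [← eF]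
      exact d2 T haa
    · rw [e2 h]
      exact glue_hasDerivAt_right _ _ a _ T h (d2 T ⟨h.le, hT⟩)
  refine ⟨?_, ?_, ?_, ?_, ?_, ?_, ?_⟩
  · intro T hT
    rcases le_or_gt T a with h | h
    · simp only [if_pos h]
      exact h1.pos T (lt_of_le_of_lt h haτ)
    · simp only [if_neg (not_le.2 h)]
      exact h2.pos T ⟨h.le, hT⟩
  · intro T hT
    exact key u₁ u₂ w₁ w₂ eu (fun T hT => h1.du T hT) (fun T hT => h2.du T hT) ew T hT _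
      (fun hT => by simp only [if_pos hT]) (fun hT => by simp only [if_neg (not_le.2 hT)])
  · intro T hT
    exact key w₁ w₂ _ _ ew (fun T hT => h1.dw T hT) (fun T hT => h2.dw T hT)
      (by rw [eu, ew, eP]) T hT _
      (fun hT => by simp only [if_pos hT]) (fun hT => by simp only [if_neg (not_le.2 hT)])
  · intro T hT
    exact key P₁ P₂ _ _ eP (fun T hT => h1.dP T hT) (fun T hT => h2.dP T hT)
      (by rw [eu, eP, eΦ]) T hT _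
      (fun hT => by simp only [if_pos hT]) (fun hT => by simp only [if_neg (not_le.2 hT)])
  · intro T hT
    exact key Φ₁ Φ₂ _ _ eΦ (fun T hT => h1.dΦ T hT) (fun T hT => h2.dΦ T hT)
      (by rw [eP, eΦ, eg]) T hT _
      (fun hT => by simp only [if_pos hT]) (fun hT => by simp only [if_neg (not_le.2 hT)])
  · intro T hT
    exact key g₁ g₂ _ _ eg (fun T hT => h1.dg T hT) (fun T hT => h2.dg T hT)
      (by rw [eP, eΦ]) T hT _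
      (fun hT => by simp only [if_pos hT]) (fun hT => by simp only [if_neg (not_le.2 hT)])
  · intro T hT
    rcases le_or_gt T a with h | h
    · simp only [if_pos h]
      exact h1.con T (lt_of_le_of_lt h haτ)
    · simp only [if_neg (not_le.2 h)]
      exact h2.con T ⟨h.le, hT⟩

/-- B3c (Proposition BD). Solutions from the tip up to a fixed time `T₁`, for small `μ`, close to the Böhm solution.

PROOF. Take `X₀', Z, C, ua, wa` from `bd_data` and put `X₀ := X₀'/2`, so that `log X₀ / 4 = tA X₀' =: Ta`, and `Tip μ κ X₀ (Z μ κ)` holds by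
restriction.  Given `η`, take `T₁, u₀, w₀` from `bd_flow`; given `η'`, take the `μ₁` of `bd_flow` for `η'`, decreased so that `C μ₁ ≤ η'`
(restrict `Ioc`), and glue: `u μ κ T := if T ≤ Ta then tipU (Z μ κ) T else u^{bd_flow} μ κ T` etc.  `SolM` on `Iic T₁`: for `T < Ta` from `BDData.sol`
(`glue_hasDerivAt_left`), at `Ta` both pieces have the derivative prescribed by (M) and the same value (`glue_hasDerivAt`; note
`Ta < log X₀' / 4`, so `BDData.sol` applies at `Ta`), for `T > Ta` from `bd_flow`.  `|g|, sΦ² ≤ η'` for `T ≤ Ta` from `smallG`, `smallF`. -/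
theorem prop_bd : ∃ X₀ : ℝ, 0 < X₀ ∧ X₀ ≤ 1 / 100000 ∧ ∀ η : ℝ, 0 < η → ∃ T₁ u₀ w₀ : ℝ,
    log X₀ / 4 < T₁ ∧ (u₀, w₀) ≠ (0, 0) ∧ |u₀| ≤ η ∧ |w₀| ≤ η ∧ ∀ η' : ℝ, 0 < η' →
    ∃ μ₁ : ℝ, 0 < μ₁ ∧ μ₁ ≤ η' ∧ μ₁ ≤ 1 ∧ ∃ Z : ℝ → ℝ → Fin 5 → ℝ → ℝ,
    ∃ u w P Φ g : ℝ → ℝ → ℝ → ℝ,
      (∀ μ ∈ Ioc (0 : ℝ) μ₁, ∀ κ ∈ Icc (1 / 2 : ℝ) 1,
        TipSol μ κ X₀ (Iic T₁) (Z μ κ) (u μ κ) (w μ κ) (P μ κ) (Φ μ κ) (g μ κ) ∧
        |u μ κ T₁ - u₀| ≤ η' ∧ |w μ κ T₁ - w₀| ≤ η' ∧ |P μ κ T₁ - 1| ≤ η ∧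
        |Φ μ κ T₁ - 3 * κ / 5| ≤ η ∧ |g μ κ T₁| ≤ η' ∧ sM μ T₁ ≤ η' ∧
        (∀ T, T ≤ T₁ → |g μ κ T| ≤ η' ∧ sM μ T * Φ μ κ T ^ 2 ≤ η')) ∧
      ContinuousOn (fun p : ℝ × ℝ => u p.1 p.2 T₁) (Ioc 0 μ₁ ×ˢ Icc (1 / 2 : ℝ) 1) ∧
      ContinuousOn (fun p : ℝ × ℝ => w p.1 p.2 T₁) (Ioc 0 μ₁ ×ˢ Icc (1 / 2 : ℝ) 1) ∧
      ContinuousOn (fun p : ℝ × ℝ => P p.1 p.2 T₁) (Ioc 0 μ₁ ×ˢ Icc (1 / 2 : ℝ) 1) ∧
      ContinuousOn (fun p : ℝ × ℝ => Φ p.1 p.2 T₁) (Ioc 0 μ₁ ×ˢ Icc (1 / 2 : ℝ) 1) ∧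
      ContinuousOn (fun p : ℝ × ℝ => g p.1 p.2 T₁) (Ioc 0 μ₁ ×ˢ Icc (1 / 2 : ℝ) 1) := by
  obtain ⟨X₀, Z, C, ua, wa, h⟩ := bd_data
  have hX := h.hX
  have hX' := h.hX'
  have hC := h.hC
  have hlt : tA X₀ < Real.log X₀ / 4 := by
    unfold tA
    have : Real.log (X₀ / 2) < Real.log X₀ := Real.log_lt_log (by linarith) (by linarith)
    linarith
  refine ⟨X₀ / 2, by linarith, by linarith, ?_⟩
  intro η hη
  obtain ⟨T₁, u₀, w₀, hT₁, hne, hu₀, hw₀, hmain⟩ := bd_flow X₀ Z C ua wa h η hη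
  refine ⟨T₁, u₀, w₀, hT₁, hne, hu₀, hw₀, ?_⟩
  intro η' hη'
  obtain ⟨μ₁, hμ1, hμ2, hμ3, u, w, P, Φ, g, hall, hcu, hcw, hcP, hcΦ, hcg⟩ := hmain η' hη'
  set μ₂ : ℝ := min μ₁ (η' / C) with hμ₂
  have hμ₂1 : μ₂ ≤ μ₁ := min_le_left _ _
  have hμ₂2 : C * μ₂ ≤ η' := by
    have : μ₂ ≤ η' / C := min_le_right _ _
    rw [le_div_iff₀ hC] at this
    linarith
  have hμ₂pos : 0 < μ₂ := lt_min hμ1 (by positivity)
  have hsub : Ioc 0 μ₂ ×ˢ Icc (1 / 2 : ℝ) 1 ⊆ Ioc 0 μ₁ ×ˢ Icc (1 / 2 : ℝ) 1 :=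
    prod_mono (Ioc_subset_Ioc_right hμ₂1) (subset_refl _)
  have hnT : ¬ T₁ ≤ tA X₀ := not_le.2 hT₁
  refine ⟨μ₂, hμ₂pos, hμ₂1.trans hμ2, hμ₂1.trans hμ3, Z,
    fun μ κ T => if T ≤ tA X₀ then tipU (Z μ κ) T else u μ κ T,
    fun μ κ T => if T ≤ tA X₀ then tipW (Z μ κ) T else w μ κ T,
    fun μ κ T => if T ≤ tA X₀ then tipP (Z μ κ) T else P μ κ T,
    fun μ κ T => if T ≤ tA X₀ then tipF κ (Z μ κ) T else Φ μ κ T,
    fun μ κ T => if T ≤ tA X₀ then tipG (Z μ κ) T else g μ κ T, ?_, ?_, ?_, ?_, ?_, ?_⟩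
  · intro μ hμ κ hκ
    have hμ' : μ ∈ Ioc (0 : ℝ) μ₁ := ⟨hμ.1, hμ.2.trans hμ₂1⟩
    have hμI : μ ∈ Icc (0 : ℝ) 1 := ⟨hμ.1.le, hμ'.2.trans hμ3⟩
    obtain ⟨hs, eu, ew, eP, eΦ, eg, b1, b2, b3, b4, b5, b6, b7⟩ := hall μ hμ' κ hκ
    have hCμ : C * μ ≤ η' := (mul_le_mul_of_nonneg_left hμ.2 hC.le).trans hμ₂2
    refine ⟨⟨?_, ?_, ?_, ?_, ?_, ?_, ?_⟩, ?_, ?_, ?_, ?_, ?_, b6, ?_⟩
    · exact B3c_glue hlt (h.sol μ hμI κ hκ) hs hT₁ eu ew eP eΦ eg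
    · exact B3c_tip (h.tip μ hμI κ hκ) (by linarith)
    · intro T hT
      simp only [if_pos (le_of_lt hT : T ≤ tA X₀)]
    · intro T hT
      simp only [if_pos (le_of_lt hT : T ≤ tA X₀)]
    · intro T hT
      simp only [if_pos (le_of_lt hT : T ≤ tA X₀)]
    · intro T hT
      simp only [if_pos (le_of_lt hT : T ≤ tA X₀)]
    · intro T hT
      simp only [if_pos (le_of_lt hT : T ≤ tA X₀)]
    · simp only [if_neg hnT]
      exact b1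
    · simp only [if_neg hnT]
      exact b2
    · simp only [if_neg hnT]
      exact b3
    · simp only [if_neg hnT]
      exact b4
    · simp only [if_neg hnT]
      exact b5
    · intro T hT
      rcases le_or_gt T (tA X₀) with h1 | h1
      · simp only [if_pos h1]
        have hTl : T < Real.log X₀ / 4 := lt_of_le_of_lt h1 hlt
        exact ⟨(h.smallG μ hμI κ hκ T hTl).trans hCμ, (h.smallF μ hμI κ hκ T hTl).trans hCμ⟩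
      · simp only [if_neg (not_le.2 h1)]
        exact b7 T ⟨h1.le, hT⟩
  · simp only [if_neg hnT]
    exact hcu.mono hsub
  · simp only [if_neg hnT]
    exact hcw.mono hsub
  · simp only [if_neg hnT]
    exact hcP.mono hsub
  · simp only [if_neg hnT]
    exact hcΦ.mono hsub
  · simp only [if_neg hnT]
    exact hcg.mono hsub

end Pool.Agent.RS
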