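import Pool.Agent.Lib.MP_35abc2_gt.Stmt
import Pool.Agent.Lib.MP_35abc2_gt.Chr

/-! # From bilinear forms on `ℝⁿ` to index notation (MP_35abc2_gt) -/

open scoped ContDiff Topology
open Set Filter

noncomputable section

namespace Pool.Agent.RSB

open Pool.Agent.RS

variable {n : ℕ}

/-- The identification of `ℝⁿ` with its sup norm and Euclidean space. -/
def LL (n : ℕ) : (Fin n → ℝ) ≃L[ℝ] Euc n := (EuclideanSpace.equiv (Fin n) ℝ).symm

@[simp] theorem LL_apply (x : Fin n → ℝ) (i : Fin n) : LL n x i = x i := rfl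

@[simp] theorem LL_symm_apply (y : Euc n) (i : Fin n) : (LL n).symm y i = y i := rfl

theorem LL_single (i : Fin n) : LL n (Pi.single i 1) = eb i := rfl

/-- The matrix of a field of bilinear forms. -/
def mat (G : Euc n → Form2 (Euc n)) (x : Fin n → ℝ) : Matrix (Fin n) (Fin n) ℝ :=
  Matrix.of fun i j => G (LL n x) (eb i) (eb j)

@[simp] theorem mat_apply (G : Euc n → Form2 (Euc n)) (x : Fin n → ℝ) (i j : Fin n) :
    mat G x i j = G (LL n x) (eb i) (eb j) := rfl

theorem pd_comp (F : Euc n → ℝ) (i : Fin n) (x : Fin n → ℝ) :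
    RSC.pd i (fun z => F (LL n z)) x = fderiv ℝ F (LL n x) (eb i) := by
  unfold RSC.pd
  have h := (LL n).comp_right_fderiv (f := F) (x := x)
  have h2 : (fun z => F (LL n z)) = F ∘ (LL n) := rfl
  rw [h2, h]
  simp [LL_single]

theorem fderiv_form {G : Euc n → Form2 (Euc n)} {y : Euc n} (hG : DifferentiableAt ℝ G y)
    (a b u : Euc n) : fderiv ℝ (fun z => G z a b) y u = fderiv ℝ G y u a b := by
  have h1 : HasFDerivAt G (fderiv ℝ G y) y := hG.hasFDerivAt
  have h2 := (h1.clm_apply (hasFDerivAt_const a y)).clm_apply (hasFDerivAt_const b y)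
  rw [h2.fderiv]
  simp

theorem pd_mat {G : Euc n → Form2 (Euc n)} {x : Fin n → ℝ} (hG : DifferentiableAt ℝ G (LL n x))
    (i j k : Fin n) :
    RSC.pd i (fun z => mat G z j k) x = fderiv ℝ G (LL n x) (eb i) (eb j) (eb k) := by
  rw [← fderiv_form hG]
  exact pd_comp (fun y => G y (eb j) (eb k)) i x

theorem expand (v : Euc n) : v = ∑ i, v i • eb i := by
  ext j
  simp [eb, Pi.single_apply]

theorem lin_expand {F : Type*} [NormedAddCommGroup F] [NormedSpace ℝ F] (A : Euc n →L[ℝ] F)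
    (v : Euc n) : A v = ∑ i, v i • A (eb i) := by
  conv_lhs => rw [expand v]
  simp only [map_sum, map_smul]

theorem form_expand (B : Form2 (Euc n)) (v w : Euc n) :
    B v w = ∑ i, ∑ j, B (eb i) (eb j) * v i * w j := by
  have h1 : B v w = ∑ i, v i • (B (eb i) w) := lin_expand (B.flip w) v
  rw [h1]
  refine Finset.sum_congr rfl fun i _ => ?_
  rw [lin_expand (B (eb i)) w, Finset.smul_sum]
  refine Finset.sum_congr rfl fun j _ => ?_
  simp only [smul_eq_mul]
  ring

section Inv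

variable {G : Euc n → Form2 (Euc n)} {x : Fin n → ℝ}

theorem mat_det_ne (hpd : ∀ v, v ≠ 0 → 0 < G (LL n x) v v) : (mat G x).det ≠ 0 := by
  intro h
  obtain ⟨v, hv, h0⟩ := (Matrix.exists_mulVec_eq_zero_iff (M := mat G x)).mpr h
  have h1 : G (LL n x) (LL n v) (LL n v) = 0 := by
    rw [form_expand]
    have h2 : ∀ i, ∑ j, G (LL n x) (eb i) (eb j) * v j = 0 := fun i => by
      have := congrFun h0 i
      simpa [Matrix.mulVec, dotProduct] using this
    refine Finset.sum_eq_zero fun i _ => ?_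
    have h3 : ∑ j, G (LL n x) (eb i) (eb j) * (LL n v) i * (LL n v) j
        = v i * ∑ j, G (LL n x) (eb i) (eb j) * v j := by
      rw [Finset.mul_sum]
      refine Finset.sum_congr rfl fun j _ => ?_
      simp only [LL_apply]
      ring
    rw [h3, h2 i, mul_zero]
  have h2 : LL n v ≠ 0 := fun h => hv ((LL n).injective (by rw [h, map_zero]))
  exact absurd h1 (hpd _ h2).ne'

theorem inverse_apply (hpd : ∀ v, v ≠ 0 → 0 < G (LL n x) v v)
    (hsym : ∀ u v, G (LL n x) u v = G (LL n x) v u) (l : Euc n →L[ℝ] ℝ) (k : Fin n) :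
    ((G (LL n x)).inverse l) k = ∑ m, (mat G x)⁻¹ k m * l (eb m) := by
  set w := (G (LL n x)).inverse l with hw
  have h1 : G (LL n x) w = l := chr_apply_inverse _ hpd l
  have h2 : (mat G x).mulVec (fun p => w p) = fun m => l (eb m) := by
    funext m
    rw [← h1, hsym w (eb m)]
    have h3 := lin_expand (G (LL n x) (eb m)) w
    rw [h3]
    simp only [Matrix.mulVec, dotProduct, mat_apply, smul_eq_mul]
    refine Finset.sum_congr rfl fun p _ => ?_
    ring
  have hdet : IsUnit (mat G x).det := isUnit_iff_ne_zero.mpr (mat_det_ne hpd)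
  have h4 : (mat G x)⁻¹.mulVec ((mat G x).mulVec (fun p => w p)) = fun p => w p := by
    rw [Matrix.mulVec_mulVec, Matrix.nonsing_inv_mul _ hdet, Matrix.one_mulVec]
  rw [h2] at h4
  have h5 := congrFun h4 k
  simp only [Matrix.mulVec, dotProduct] at h5
  exact h5.symm

theorem chr_eq (hG : DifferentiableAt ℝ G (LL n x)) (hpd : ∀ v, v ≠ 0 → 0 < G (LL n x) v v)
    (hsym : ∀ u v, G (LL n x) u v = G (LL n x) v u) (k i j : Fin n) :
    RSC.chr (mat G) k i j x = (christoffel G (LL n x) (eb i) (eb j)) k := by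
  unfold christoffel
  rw [inverse_apply hpd hsym]
  unfold RSC.chr
  rw [Finset.mul_sum]
  refine Finset.sum_congr rfl fun m _ => ?_
  rw [chr_lower_apply, pd_mat hG, pd_mat hG, pd_mat hG]
  ring

end Inv

section Field

variable {G : Euc n → Form2 (Euc n)} {Ω : Set (Euc n)}

theorem nhds_LL (hΩ : IsOpen Ω) {x : Fin n → ℝ} (hx : LL n x ∈ Ω) :
    ∀ᶠ z in 𝓝 x, LL n z ∈ Ω :=
  (LL n).continuous.continuousAt.eventually (hΩ.mem_nhds hx)

theorem pd_chr (hΩ : IsOpen Ω) (hG : ContDiffOn ℝ ∞ G Ω)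
    (hpd : ∀ y ∈ Ω, ∀ v, v ≠ 0 → 0 < G y v v) (hsym : ∀ y ∈ Ω, ∀ u v, G y u v = G y v u)
    {x : Fin n → ℝ} (hx : LL n x ∈ Ω) (i l j k : Fin n) :
    RSC.pd i (RSC.chr (mat G) l j k) x
      = (fderiv ℝ (fun z => christoffel G z (eb j) (eb k)) (LL n x) (eb i)) l := by
  have h1 : RSC.chr (mat G) l j k =ᶠ[𝓝 x] fun z => (christoffel G (LL n z) (eb j) (eb k)) l := by
    filter_upwards [nhds_LL hΩ hx] with z hz
    exact chr_eq ((hG.contDiffAt (hΩ.mem_nhds hz)).differentiableAt (by simp)) (hpd _ hz)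
      (hsym _ hz) l j k
  have h2 : RSC.pd i (RSC.chr (mat G) l j k) x
      = RSC.pd i (fun z => (christoffel G (LL n z) (eb j) (eb k)) l) x := by
    unfold RSC.pd
    rw [h1.fderiv_eq]
  rw [h2, pd_comp (fun y => (christoffel G y (eb j) (eb k)) l)]
  obtain ⟨Γ, hΓ, hΓe⟩ := exists_christoffelCLM hΩ hG hpd
  have h3 : DifferentiableAt ℝ (fun y => christoffel G y (eb j) (eb k)) (LL n x) := by
    have h4 : DifferentiableAt ℝ (fun y => Γ y (eb j) (eb k)) (LL n x) := by
      have h5 : DifferentiableAt ℝ Γ (LL n x) :=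
        (hΓ.contDiffAt (hΩ.mem_nhds hx)).differentiableAt (by simp)
      exact (h5.clm_apply (differentiableAt_const _)).clm_apply (differentiableAt_const _)
    refine h4.congr_of_eventuallyEq ?_
    filter_upwards [hΩ.mem_nhds hx] with z hz
    exact (hΓe z hz _ _).symm
  have h6 := ((EuclideanSpace.proj l : Euc n →L[ℝ] ℝ).hasFDerivAt.comp (LL n x)
    h3.hasFDerivAt).fderiv
  have h7 : (fun y => (christoffel G y (eb j) (eb k)) l)
      = (EuclideanSpace.proj l : Euc n →L[ℝ] ℝ) ∘ (fun y => christoffel G y (eb j) (eb k)) := rfl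
  rw [h7, h6]
  rfl

theorem christoffel_expand (hΩ : IsOpen Ω) (hG : ContDiffOn ℝ ∞ G Ω)
    (hpd : ∀ y ∈ Ω, ∀ v, v ≠ 0 → 0 < G y v v) {y : Euc n} (hy : y ∈ Ω) (u v : Euc n) :
    christoffel G y u v = ∑ m, v m • christoffel G y u (eb m) := by
  obtain ⟨Γ, hΓ, hΓe⟩ := exists_christoffelCLM hΩ hG hpd
  rw [← hΓe y hy, lin_expand (Γ y u) v]
  refine Finset.sum_congr rfl fun m _ => ?_
  rw [hΓe y hy]

theorem riem_eq (hΩ : IsOpen Ω) (hG : ContDiffOn ℝ ∞ G Ω)
    (hpd : ∀ y ∈ Ω, ∀ v, v ≠ 0 → 0 < G y v v) (hsym : ∀ y ∈ Ω, ∀ u v, G y u v = G y v u)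
    {x : Fin n → ℝ} (hx : LL n x ∈ Ω) (l k i j : Fin n) :
    RSC.riem (mat G) l k i j x = (riemann G (LL n x) (eb i) (eb j) (eb k)) l := by
  unfold RSC.riem riemann
  have hd : DifferentiableAt ℝ G (LL n x) :=
    (hG.contDiffAt (hΩ.mem_nhds hx)).differentiableAt (by simp)
  have hc : ∀ a b c, RSC.chr (mat G) a b c x = (christoffel G (LL n x) (eb b) (eb c)) a :=
    fun a b c => chr_eq hd (hpd _ hx) (hsym _ hx) a b c
  rw [pd_chr hΩ hG hpd hsym hx, pd_chr hΩ hG hpd hsym hx]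
  rw [christoffel_expand hΩ hG hpd hx (eb i) (christoffel G (LL n x) (eb j) (eb k)),
    christoffel_expand hΩ hG hpd hx (eb j) (christoffel G (LL n x) (eb i) (eb k))]
  simp only [hc, PiLp.sub_apply, PiLp.add_apply, Finset.sum_sub_distrib, WithLp.ofLp_sum,
    Finset.sum_apply, PiLp.smul_apply, smul_eq_mul]
  have e1 : ∀ a b : Fin n, ∑ m, (christoffel G (LL n x) (eb a) (eb m)) l
      * (christoffel G (LL n x) (eb b) (eb k)) m
      = ∑ m, (christoffel G (LL n x) (eb b) (eb k)) m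
        * (christoffel G (LL n x) (eb a) (eb m)) l :=
    fun a b => Finset.sum_congr rfl fun m _ => mul_comm _ _
  rw [e1 i j, e1 j i]
  ring

theorem ric_eq (hΩ : IsOpen Ω) (hG : ContDiffOn ℝ ∞ G Ω)
    (hpd : ∀ y ∈ Ω, ∀ v, v ≠ 0 → 0 < G y v v) (hsym : ∀ y ∈ Ω, ∀ u v, G y u v = G y v u)
    {x : Fin n → ℝ} (hx : LL n x ∈ Ω) (j k : Fin n) :
    RSC.ric (mat G) j k x = ricci G (LL n x) (eb j) (eb k) := by
  unfold RSC.ric ricci
  exact Finset.sum_congr rfl fun i _ => riem_eq hΩ hG hpd hsym hx i k i j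

theorem invMetric_eq (hpd : ∀ y ∈ Ω, ∀ v, v ≠ 0 → 0 < G y v v)
    (hsym : ∀ y ∈ Ω, ∀ u v, G y u v = G y v u) {x : Fin n → ℝ} (hx : LL n x ∈ Ω) (i j : Fin n) :
    invMetric G (LL n x) i j = (mat G x)⁻¹ j i := by
  unfold invMetric
  rw [inverse_apply (hpd _ hx) (hsym _ hx)]
  have h : ∀ m, (EuclideanSpace.proj i : Euc n →L[ℝ] ℝ) (eb m) = if m = i then 1 else 0 := by
    intro m
    simp [eb, eq_comm]
  simp [h]

theorem inv_symm (hsym : ∀ y ∈ Ω, ∀ u v, G y u v = G y v u) {x : Fin n → ℝ} (hx : LL n x ∈ Ω)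
    (i j : Fin n) : (mat G x)⁻¹ j i = (mat G x)⁻¹ i j := by
  have h : (mat G x).transpose = mat G x := by
    ext a b
    simp only [Matrix.transpose_apply, mat_apply]
    exact hsym _ hx _ _
  have h2 : ((mat G x)⁻¹).transpose = (mat G x)⁻¹ := by
    rw [Matrix.transpose_nonsing_inv, h]
  exact congrFun (congrFun h2 i) j

theorem scal_eq (hΩ : IsOpen Ω) (hG : ContDiffOn ℝ ∞ G Ω)
    (hpd : ∀ y ∈ Ω, ∀ v, v ≠ 0 → 0 < G y v v) (hsym : ∀ y ∈ Ω, ∀ u v, G y u v = G y v u)
    {x : Fin n → ℝ} (hx : LL n x ∈ Ω) :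
    RSC.scal (mat G) x = RS.scal G (LL n x) := by
  unfold RSC.scal RS.scal
  refine Finset.sum_congr rfl fun i _ => Finset.sum_congr rfl fun j _ => ?_
  rw [invMetric_eq hpd hsym hx, inv_symm hsym hx, ric_eq hΩ hG hpd hsym hx]

theorem hess_eq (hΩ : IsOpen Ω) (hG : ContDiffOn ℝ ∞ G Ω)
    (hpd : ∀ y ∈ Ω, ∀ v, v ≠ 0 → 0 < G y v v) (hsym : ∀ y ∈ Ω, ∀ u v, G y u v = G y v u)
    {x : Fin n → ℝ} (hx : LL n x ∈ Ω) (f : Euc n → ℝ) (i j : Fin n) :
    RSC.hess (mat G) (fun z => f (LL n z)) i j x = RS.hess G f (LL n x) (eb i) (eb j) := by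
  unfold RSC.hess RS.hess
  have h1 : RSC.pd j (fun z => f (LL n z)) = fun z => fderiv ℝ f (LL n z) (eb j) :=
    funext fun z => pd_comp f j z
  rw [h1, pd_comp (fun y => fderiv ℝ f y (eb j))]
  congr 1
  rw [lin_expand (fderiv ℝ f (LL n x)) (christoffel G (LL n x) (eb i) (eb j))]
  refine Finset.sum_congr rfl fun k _ => ?_
  rw [pd_comp, chr_eq ((hG.contDiffAt (hΩ.mem_nhds hx)).differentiableAt (by simp)) (hpd _ hx)
    (hsym _ hx)]
  rfl

end Field

section Speed

variable {G : Euc n → Form2 (Euc n)}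

theorem vel_eq {c : ℝ → Fin n → ℝ} (hc : ContDiffOn ℝ 1 c (Ico 0 1)) {t : ℝ}
    (ht : t ∈ Ico (0 : ℝ) 1) (i : Fin n) :
    RSC.vel c i t = (derivWithin (fun s => LL n (c s)) (Ico 0 1) t) i := by
  have h1 : DifferentiableWithinAt ℝ c (Ico 0 1) t := (hc t ht).differentiableWithinAt (by simp)
  have hu : UniqueDiffWithinAt ℝ (Ico (0 : ℝ) 1) t := uniqueDiffOn_Ico 0 1 t ht
  have h2 : HasDerivWithinAt c (derivWithin c (Ico 0 1) t) (Ico 0 1) t := h1.hasDerivWithinAt
  have h3 : HasDerivWithinAt (fun s => LL n (c s)) (LL n (derivWithin c (Ico 0 1) t)) (Ico 0 1) t :=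
    (LL n : (Fin n → ℝ) →L[ℝ] Euc n).hasFDerivAt.comp_hasDerivWithinAt t h2
  rw [h3.derivWithin hu]
  have h4 : HasDerivWithinAt (fun s => c s i) (derivWithin c (Ico 0 1) t i) (Ico 0 1) t :=
    (hasDerivWithinAt_pi.mp h2) i
  unfold RSC.vel
  rw [h4.derivWithin hu]
  rfl

theorem speed_eq {c : ℝ → Fin n → ℝ} (hc : ContDiffOn ℝ 1 c (Ico 0 1)) {t : ℝ}
    (ht : t ∈ Ico (0 : ℝ) 1) :
    RSC.speed (mat G) c t = RS.speed G (fun s => LL n (c s)) t := by
  unfold RSC.speed RS.speed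
  rw [form_expand]
  simp only [mat_apply, vel_eq hc ht]

theorem complete_eq {Ω : Set (Euc n)} (h : RS.IsCompleteMetric Ω G) :
    RSC.IsCompleteMetric (LL n ⁻¹' Ω) (mat G) := by
  intro c hc hm hL
  obtain ⟨L, hL⟩ := hL
  obtain ⟨q, hq, hlim⟩ := h (fun s => LL n (c s))
    ((LL n).contDiff.comp_contDiffOn hc) hm ⟨L, fun b hb => by
      have h1 : ∫ t in (0 : ℝ)..b, RS.speed G (fun s => LL n (c s)) t
          = ∫ t in (0 : ℝ)..b, RSC.speed (mat G) c t := by
        refine intervalIntegral.integral_congr fun t ht => ?_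
        rw [uIcc_of_le hb.1] at ht
        exact (speed_eq hc ⟨ht.1, ht.2.trans_lt hb.2⟩).symm
      rw [h1]
      exact hL b hb⟩
  refine ⟨(LL n).symm q, by simpa using hq, ?_⟩
  have h2 := ((LL n).symm.continuous.tendsto q).comp hlim
  refine h2.congr fun s => ?_
  simp

end Speed

section NonFlat

variable {G : Euc n → Form2 (Euc n)} {Ω : Set (Euc n)}

theorem lin_zero {F : Type*} [AddCommGroup F] [Module ℝ F] {A : Euc n → F} (hA : IsLinearMap ℝ A)
    (h : ∀ i, A (eb i) = 0) (v : Euc n) : A v = 0 := by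
  have h1 : A v = ∑ i, v i • A (eb i) := by
    have h2 : A v = hA.mk' A v := rfl
    have h3 : ∀ i, A (eb i) = hA.mk' A (eb i) := fun i => rfl
    rw [h2]
    simp only [h3]
    conv_lhs => rw [expand v]
    simp only [map_sum, map_smul]
  rw [h1]
  simp [h]

theorem riemann_zero (hΩ : IsOpen Ω) (hG : ContDiffOn ℝ ∞ G Ω)
    (hpd : ∀ y ∈ Ω, ∀ v, v ≠ 0 → 0 < G y v v) {y : Euc n} (hy : y ∈ Ω)
    (h : ∀ i j k, riemann G y (eb i) (eb j) (eb k) = 0) (u v w : Euc n) :
    riemann G y u v w = 0 := by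
  obtain ⟨Γ, hΓ, hΓe⟩ := exists_christoffelCLM hΩ hG hpd
  have hD : DifferentiableAt ℝ Γ y := (hΓ.contDiffAt (hΩ.mem_nhds hy)).differentiableAt (by simp)
  have key : ∀ a b c : Euc n, riemann G y a b c
      = fderiv ℝ Γ y a b c - fderiv ℝ Γ y b a c + Γ y a (Γ y b c) - Γ y b (Γ y a c) := by
    intro a b c
    have h1 : ∀ p q r : Euc n, fderiv ℝ (fun z => christoffel G z p q) y r
        = fderiv ℝ Γ y r p q := by
      intro p q r
      have h2 : (fun z => christoffel G z p q) =ᶠ[𝓝 y] fun z => Γ z p q := by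
        filter_upwards [hΩ.mem_nhds hy] with z hz
        exact (hΓe z hz _ _).symm
      rw [h2.fderiv_eq]
      have h3 := (hD.hasFDerivAt.clm_apply (hasFDerivAt_const p y)).clm_apply
        (hasFDerivAt_const q y)
      rw [h3.fderiv]
      simp
    unfold riemann
    rw [h1, h1]
    simp only [hΓe y hy]
  have l3 : ∀ a b, IsLinearMap ℝ (fun c => riemann G y a b c) := by
    intro a b
    constructor
    · intro p q
      simp only [key, map_add]
      abel
    · intro r p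
      simp only [key, map_smul]
      module
  have l2 : ∀ a c, IsLinearMap ℝ (fun b => riemann G y a b c) := by
    intro a c
    constructor
    · intro p q
      simp only [key, map_add, add_apply]
      abel
    · intro r p
      simp only [key, map_smul, smul_apply]
      module
  have l1 : ∀ b c, IsLinearMap ℝ (fun a => riemann G y a b c) := by
    intro b c
    constructor
    · intro p q
      simp only [key, map_add, add_apply]
      abel
    · intro r p
      simp only [key, map_smul, smul_apply]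
      module
  have s3 : ∀ i j c, riemann G y (eb i) (eb j) c = 0 := fun i j c =>
    lin_zero (l3 (eb i) (eb j)) (fun k => h i j k) c
  have s2 : ∀ i b c, riemann G y (eb i) b c = 0 := fun i b c =>
    lin_zero (l2 (eb i) c) (fun j => s3 i j c) b
  exact lin_zero (l1 v w) (fun i => s2 i v w) u

theorem nonFlat_eq (hΩ : IsOpen Ω) (hG : ContDiffOn ℝ ∞ G Ω)
    (hpd : ∀ y ∈ Ω, ∀ v, v ≠ 0 → 0 < G y v v) (hsym : ∀ y ∈ Ω, ∀ u v, G y u v = G y v u)
    (h : RS.NonFlat Ω G) : RSC.NonFlat (LL n ⁻¹' Ω) (mat G) := by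
  obtain ⟨y, hy, u, v, w, hne⟩ := h
  by_contra hcon
  apply hne
  refine riemann_zero hΩ hG hpd hy (fun i j k => ?_) u v w
  ext l
  have hx : LL n ((LL n).symm y) ∈ Ω := by simpa using hy
  by_contra hl
  apply hcon
  refine ⟨(LL n).symm y, hx, l, k, i, j, ?_⟩
  rw [riem_eq hΩ hG hpd hsym hx]
  simpa using hl

end NonFlat

/-- **Bridge.** A Ricci shrinker in the invariant notation is one in index notation. -/
theorem isShrinker_eq {Ω : Set (Euc n)} {G : Euc n → Form2 (Euc n)} {f : Euc n → ℝ}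
    (h : RS.IsShrinker Ω G f) :
    RSC.IsShrinker (LL n ⁻¹' Ω) (mat G) (fun z => f (LL n z)) where
  isOpen := h.isOpen.preimage (LL n).continuous
  connected := by
    have h1 : (LL n).symm '' Ω = LL n ⁻¹' Ω := by
      ext x
      constructor
      · rintro ⟨y, hy, rfl⟩
        simpa using hy
      · intro hx
        exact ⟨LL n x, hx, by simp⟩
    rw [← h1]
    exact h.connected.image _ (LL n).symm.continuous.continuousOn
  smooth := by
    intro i j
    have h1 : ContDiffOn ℝ ∞ (fun x => G (LL n x)) (LL n ⁻¹' Ω) :=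
      h.smooth.comp (LL n).contDiff.contDiffOn fun x hx => hx
    exact (h1.clm_apply contDiffOn_const).clm_apply contDiffOn_const
  symm := fun x hx i j => h.symm _ hx _ _
  pos := by
    intro x hx v hv
    have h2 : LL n v ≠ 0 := fun h => hv ((LL n).injective (by rw [h, map_zero]))
    have h3 := h.pos _ hx _ h2
    rw [form_expand] at h3
    exact h3
  complete := complete_eq h.complete
  smooth_potential := h.smooth_potential.comp (LL n).contDiff.contDiffOn fun x hx => hx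
  soliton := by
    intro x hx i j
    rw [ric_eq h.isOpen h.smooth h.pos h.symm hx, hess_eq h.isOpen h.smooth h.pos h.symm hx,
      h.soliton _ hx]
    rfl

theorem bridge {n : ℕ} {ε : ℝ} (h : ∃ (Ω : Set (Euc n)) (G : Euc n → Form2 (Euc n)) (f : Euc n → ℝ),
      RS.IsShrinker Ω G f ∧ RS.NonFlat Ω G ∧ ∀ y ∈ Ω, |RS.scal G y| ≤ ε) :
    ∃ (Ω : Set (Fin n → ℝ)) (g : (Fin n → ℝ) → Matrix (Fin n) (Fin n) ℝ) (f : (Fin n → ℝ) → ℝ),
      RSC.IsShrinker Ω g f ∧ RSC.NonFlat Ω g ∧ ∀ x ∈ Ω, |RSC.scal g x| ≤ ε := by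
  obtain ⟨Ω, G, f, hs, hn, he⟩ := h
  refine ⟨LL n ⁻¹' Ω, mat G, fun z => f (LL n z), isShrinker_eq hs,
    nonFlat_eq hs.isOpen hs.smooth hs.pos hs.symm hn, fun x hx => ?_⟩
  rw [scal_eq hs.isOpen hs.smooth hs.pos hs.symm hx]
  exact he _ hx

end Pool.Agent.RSB
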