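import Pool.Agent.Lib.MP_35abc2_gt.T2_Clamp

/-! # C1: reference system, definitions (MP_35abc2_gt) -/

open scoped ContDiff Topology NNReal
open Set Filter Real

noncomputable section

namespace Pool.Agent.RS

/-- `σ_* = ½ log 200` -/
def sigS : ℝ := log 200 / 2

/-- `σ₀ = ½ log (1/100)` -/
def sigZ : ℝ := log (1 / 100) / 2

/-- integrating factor `n(σ) = exp(3σ - e^{2σ}/4)` -/
def nn (σ : ℝ) : ℝ := exp (3 * σ - exp (2 * σ) / 4)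

/-- `|z|²` for `z = w + (3/2) u + i ω u`, `ω² = 15/4` -/
def zz (u w : ℝ) : ℝ := (w + 3 / 2 * u) ^ 2 + 15 / 4 * u ^ 2

/-- `(U,V)` solves the linear reference system `U' = V`, `V' = -(3 - s/2) V - 6 U`, `s = e^{2σ}`, for `σ ≤ σ_*`. -/
structure RefSol (U V : ℝ → ℝ) : Prop where
  dU : ∀ σ, σ ≤ sigS → HasDerivAt U (V σ) σ
  dV : ∀ σ, σ ≤ sigS → HasDerivAt V (-(3 - exp (2 * σ) / 2) * V σ - 6 * U σ) σ

/-- The two reference solutions normalised at `σ_*`, with their Wronskian and bounds. -/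
structure RefPair (U₁ V₁ U₂ V₂ : ℝ → ℝ) (C : ℝ) : Prop where
  r1 : RefSol U₁ V₁
  r2 : RefSol U₂ V₂
  u1 : U₁ sigS = 0
  v1 : V₁ sigS = 1
  u2 : U₂ sigS = 1
  v2 : V₂ sigS = 0
  wr : ∀ σ, σ ≤ sigS → nn σ * (V₁ σ * U₂ σ - U₁ σ * V₂ σ) = nn sigS
  hC : 0 < C
  b1 : ∀ σ, σ ≤ sigS → |U₁ σ| + |V₁ σ| ≤ C * exp (-(3 / 2) * σ)
  b2 : ∀ σ, σ ≤ sigS → |U₂ σ| + |V₂ σ| ≤ C * exp (-(3 / 2) * σ)

end Pool.Agent.RS
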