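import Pool.Agent.Lib.MP_35abc2_gt.C1_Defs

/-! # C1a: two-sided bounds for the reference solutions (MP_35abc2_gt) -/

open scoped ContDiff Topology NNReal
open Set Filter Real

noncomputable section

namespace Pool.Agent.RS

/-- C1a. Two-sided bounds: `zz e^{3σ}` is comparable to its value at any `σb ≤ σ_*`:
`exp(-(2/3) e^{2σb}) zz(σb) e^{3σb} ≤ zz(σ) e^{3σ} ≤ exp((2/3) e^{2σb}) zz(σb) e^{3σb}` for `σ ≤ σb`.

PROOF. `d/dσ zz(U,V) = -3 zz + s V (V + (3/2)U)` and `|V (V + 3/2 U)| ≤ 1.27 zz ≤ (4/3) zz`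
(`|V| ≤ √1.6 |z|`, `|V + 3/2 U| ≤ |z|`; or as a quadratic form inequality), so `|(zz e^{3σ})'| ≤ (4/3) s · zz e^{3σ}`; and `∫ (4/3) s dσ = (2/3) s`. -/
theorem ref_bounds (U V : ℝ → ℝ) (h : RefSol U V) (σb : ℝ) (hb : σb ≤ sigS) (σ : ℝ) (hσ : σ ≤ σb) :
    exp (-(2 / 3) * exp (2 * σb)) * (zz (U σb) (V σb) * exp (3 * σb)) ≤ zz (U σ) (V σ) * exp (3 * σ) ∧
    zz (U σ) (V σ) * exp (3 * σ) ≤ exp ((2 / 3) * exp (2 * σb)) * (zz (U σb) (V σb) * exp (3 * σb)) := by
  set G : ℝ → ℝ := fun τ => zz (U τ) (V τ) * exp (3 * τ) with hG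
  set G' : ℝ → ℝ := fun τ => exp (2 * τ) * (V τ * (V τ + 3 / 2 * U τ)) * exp (3 * τ) with hG'
  have hGd : ∀ τ, τ ≤ sigS → HasDerivAt G (G' τ) τ := by
    intro τ hτ
    have hU := h.dU τ hτ
    have hV := h.dV τ hτ
    have hE : HasDerivAt (fun τ => exp (3 * τ)) (exp (3 * τ) * 3) τ := by
      have := ((hasDerivAt_id τ).const_mul 3).exp
      simpa using this
    have hA := (hV.add (hU.const_mul (3 / 2))).pow 2
    have hB := (hU.pow 2).const_mul (15 / 4 : ℝ)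
    have := (hA.add hB).mul hE
    refine this.congr_deriv ?_
    simp only [hG', Pi.add_apply, Pi.pow_apply]
    push_cast
    ring
  have hG0 : ∀ τ, 0 ≤ G τ := by
    intro τ
    have : 0 ≤ zz (U τ) (V τ) := by unfold zz; positivity
    exact mul_nonneg this (exp_pos _).le
  have hub : ∀ τ, |G' τ| ≤ 4 / 3 * exp (2 * τ) * G τ := by
    intro τ
    have hq : |V τ * (V τ + 3 / 2 * U τ)| ≤ 4 / 3 * zz (U τ) (V τ) := by
      unfold zz
      rw [abs_le]
      constructor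
      · nlinarith [sq_nonneg (V τ + 11 / 7 * U τ), sq_nonneg (U τ), sq_nonneg (V τ)]
      · nlinarith [sq_nonneg (V τ + 15 / 4 * U τ), sq_nonneg (U τ), sq_nonneg (V τ)]
    simp only [hG', hG]
    rw [abs_mul, abs_mul, abs_of_pos (exp_pos (2 * τ)), abs_of_pos (exp_pos (3 * τ))]
    have := mul_le_mul_of_nonneg_right (mul_le_mul_of_nonneg_left hq (exp_pos (2 * τ)).le)
      (exp_pos (3 * τ)).le
    refine this.trans (le_of_eq ?_)
    ring
  have hexpd : ∀ (c τ : ℝ), HasDerivAt (fun τ => exp (c * exp (2 * τ)))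
      (exp (c * exp (2 * τ)) * (c * (2 * exp (2 * τ)))) τ := by
    intro c τ
    have hE : HasDerivAt (fun τ => exp (2 * τ)) (exp (2 * τ) * 2) τ := by
      have := ((hasDerivAt_id τ).const_mul 2).exp
      simpa using this
    refine (hE.const_mul c).exp.congr_deriv ?_
    ring
  have hsub : ∀ τ ∈ Icc σ σb, τ ≤ sigS := fun τ hτ => hτ.2.trans hb
  have mono : MonotoneOn (fun τ => G τ * exp (2 / 3 * exp (2 * τ))) (Icc σ σb) := by
    have hd : ∀ τ ∈ Icc σ σb, HasDerivAt (fun τ => G τ * exp (2 / 3 * exp (2 * τ)))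
        (G' τ * exp (2 / 3 * exp (2 * τ)) + G τ * (exp (2 / 3 * exp (2 * τ)) * (2 / 3 * (2 * exp (2 * τ))))) τ :=
      fun τ hτ => (hGd τ (hsub τ hτ)).mul (hexpd (2 / 3) τ)
    refine monotoneOn_of_deriv_nonneg (convex_Icc _ _)
      (fun τ hτ => (hd τ hτ).continuousAt.continuousWithinAt) ?_ ?_
    · rw [interior_Icc]
      exact fun τ hτ => (hd τ (Ioo_subset_Icc_self hτ)).differentiableAt.differentiableWithinAt
    · rw [interior_Icc]
      intro τ hτ
      rw [(hd τ (Ioo_subset_Icc_self hτ)).deriv]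
      have h1 := (abs_le.1 (hub τ)).1
      have h2 : 0 < exp (2 / 3 * exp (2 * τ)) := exp_pos _
      have : 0 ≤ (G' τ + 4 / 3 * exp (2 * τ) * G τ) * exp (2 / 3 * exp (2 * τ)) :=
        mul_nonneg (by linarith) h2.le
      linarith
  have anti : AntitoneOn (fun τ => G τ * exp (-(2 / 3) * exp (2 * τ))) (Icc σ σb) := by
    have hd : ∀ τ ∈ Icc σ σb, HasDerivAt (fun τ => G τ * exp (-(2 / 3) * exp (2 * τ)))
        (G' τ * exp (-(2 / 3) * exp (2 * τ))
          + G τ * (exp (-(2 / 3) * exp (2 * τ)) * (-(2 / 3) * (2 * exp (2 * τ))))) τ :=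
      fun τ hτ => (hGd τ (hsub τ hτ)).mul (hexpd (-(2 / 3)) τ)
    refine antitoneOn_of_deriv_nonpos (convex_Icc _ _)
      (fun τ hτ => (hd τ hτ).continuousAt.continuousWithinAt) ?_ ?_
    · rw [interior_Icc]
      exact fun τ hτ => (hd τ (Ioo_subset_Icc_self hτ)).differentiableAt.differentiableWithinAt
    · rw [interior_Icc]
      intro τ hτ
      rw [(hd τ (Ioo_subset_Icc_self hτ)).deriv]
      have h1 := (abs_le.1 (hub τ)).2
      have h2 : 0 < exp (-(2 / 3) * exp (2 * τ)) := exp_pos _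
      have : 0 ≤ (4 / 3 * exp (2 * τ) * G τ - G' τ) * exp (-(2 / 3) * exp (2 * τ)) :=
        mul_nonneg (by linarith) h2.le
      linarith
  have m := mono (left_mem_Icc.2 hσ) (right_mem_Icc.2 hσ) hσ
  have n := anti (left_mem_Icc.2 hσ) (right_mem_Icc.2 hσ) hσ
  replace m : G σ * exp (2 / 3 * exp (2 * σ)) ≤ G σb * exp (2 / 3 * exp (2 * σb)) := m
  replace n : G σb * exp (-(2 / 3) * exp (2 * σb)) ≤ G σ * exp (-(2 / 3) * exp (2 * σ)) := n
  have e1 : 1 ≤ exp (2 / 3 * exp (2 * σ)) := one_le_exp (by positivity)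
  have e2 : exp (-(2 / 3) * exp (2 * σ)) ≤ 1 := by
    rw [exp_le_one_iff]
    have := exp_pos (2 * σ)
    linarith
  have e3 := hG0 σ
  constructor
  · have : G σ * exp (-(2 / 3) * exp (2 * σ)) ≤ G σ := mul_le_of_le_one_right e3 e2
    show exp (-(2 / 3) * exp (2 * σb)) * G σb ≤ G σ
    linarith
  · have : G σ ≤ G σ * exp (2 / 3 * exp (2 * σ)) := le_mul_of_one_le_right e3 e1
    show G σ ≤ exp (2 / 3 * exp (2 * σb)) * G σb
    linarith

end Pool.Agent.RS
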