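import Mathlib

/-! # T1: global flows of Lipschitz fields (MP_35abc2_gt) -/

open scoped ContDiff Topology NNReal
open Set Filter

noncomputable section

namespace Pool.Agent.RS

/-- local existence on an interval of uniform length -/
theorem t1_local {E : Type*} [NormedAddCommGroup E] [NormedSpace ℝ E] [CompleteSpace E]
    (F : ℝ → E → E) (L : ℝ≥0) (hL : ∀ t, LipschitzWith L (F t)) (hc : ∀ x, Continuous (fun t => F t x))
    (t₁ : ℝ) (x₁ : E) : ∃ α : ℝ → E, α t₁ = x₁ ∧
      ∀ t ∈ Ioo (t₁ - 1 / (2 * ((L : ℝ) + 1))) (t₁ + 1 / (2 * ((L : ℝ) + 1))),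
        HasDerivAt α (F t (α t)) t := by
  set h : ℝ := 1 / (2 * ((L : ℝ) + 1)) with hh
  have hL0 : (0 : ℝ) ≤ L := L.2
  have hpos : 0 < h := by positivity
  obtain ⟨M, hM⟩ := (isCompact_Icc (a := t₁ - h) (b := t₁ + h)).exists_bound_of_continuousOn
    (hc x₁).continuousOn
  have hmem : t₁ ∈ Icc (t₁ - h) (t₁ + h) := ⟨by linarith, by linarith⟩
  have hM0 : 0 ≤ M := (norm_nonneg _).trans (hM t₁ hmem)
  let a : ℝ≥0 := ⟨M, hM0⟩
  have hPL : IsPicardLindelof F (⟨t₁, hmem⟩ : Icc (t₁ - h) (t₁ + h)) x₁ a 0 (a + L * a) L := by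
    refine ⟨fun t _ => (hL t).lipschitzOnWith, fun x _ => (hc x).continuousOn, ?_, ?_⟩
    · intro t ht x hx
      have h1 : ‖F t x‖ ≤ ‖F t x - F t x₁‖ + ‖F t x₁‖ := by
        have := norm_add_le (F t x - F t x₁) (F t x₁)
        rwa [sub_add_cancel] at this
      have h2 : ‖F t x - F t x₁‖ ≤ L * ‖x - x₁‖ := by
        have := (hL t).dist_le_mul x x₁
        rwa [dist_eq_norm, dist_eq_norm] at this
      have h3 : ‖x - x₁‖ ≤ M := by
        rw [Metric.mem_closedBall, dist_eq_norm] at hx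
        exact hx
      have h4 := hM t ht
      have h5 : (L : ℝ) * ‖x - x₁‖ ≤ L * M := mul_le_mul_of_nonneg_left h3 hL0
      show ‖F t x‖ ≤ ((a + L * a : ℝ≥0) : ℝ)
      push_cast
      show ‖F t x‖ ≤ M + L * M
      linarith
    · show ((a + L * a : ℝ≥0) : ℝ) * max (t₁ + h - t₁) (t₁ - (t₁ - h)) ≤ (a : ℝ) - ((0 : ℝ≥0) : ℝ)
      have h1 : max (t₁ + h - t₁) (t₁ - (t₁ - h)) = h := by
        rw [show t₁ + h - t₁ = h by ring, show t₁ - (t₁ - h) = h by ring, max_self]
      rw [h1]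
      push_cast
      show (M + L * M) * h ≤ M - 0
      have h2 : (M + L * M) * h = M / 2 := by
        rw [hh]; field_simp; ring
      rw [h2]; linarith
  obtain ⟨α, hα, hα'⟩ := hPL.exists_eq_forall_mem_Icc_hasDerivWithinAt₀
  refine ⟨α, hα, fun t ht => ?_⟩
  exact (hα' t ⟨ht.1.le, ht.2.le⟩).hasDerivAt (Icc_mem_nhds ht.1 ht.2)

/-- gluing of two solutions on open intervals -/
theorem t1_glue {E : Type*} [NormedAddCommGroup E] [NormedSpace ℝ E]
    (F : ℝ → E → E) (L : ℝ≥0) (hL : ∀ t, LipschitzWith L (F t)) {a b c d t₁ : ℝ} {β γ : ℝ → E}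
    (hβ : ∀ t ∈ Ioo a b, HasDerivAt β (F t (β t)) t)
    (hγ : ∀ t ∈ Ioo c d, HasDerivAt γ (F t (γ t)) t) (h1 : t₁ ∈ Ioo a b) (h2 : t₁ ∈ Ioo c d)
    (he : β t₁ = γ t₁) :
    ∃ δ : ℝ → E, (∀ t ∈ Ioo a b, δ t = β t) ∧
      ∀ t, (t ∈ Ioo a b ∨ t ∈ Ioo c d) → HasDerivAt δ (F t (δ t)) t := by
  classical
  have huniq : EqOn β γ (Ioo (max a c) (min b d)) := by
    apply ODE_solution_unique_of_mem_Ioo (v := F) (K := L) (s := fun _ => univ) (t₀ := t₁)
      (fun t _ => (hL t).lipschitzOnWith) ⟨max_lt h1.1 h2.1, lt_min h1.2 h2.2⟩ _ _ he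
    · intro t ht
      exact ⟨hβ t ⟨(le_max_left _ _).trans_lt ht.1, ht.2.trans_le (min_le_left _ _)⟩, mem_univ _⟩
    · intro t ht
      exact ⟨hγ t ⟨(le_max_right _ _).trans_lt ht.1, ht.2.trans_le (min_le_right _ _)⟩, mem_univ _⟩
  let δ : ℝ → E := fun t => if t ∈ Ioo a b then β t else γ t
  have hδβ : ∀ t ∈ Ioo a b, δ t = β t := fun t ht => if_pos ht
  have hδγ : ∀ t ∈ Ioo c d, δ t = γ t := by
    intro t ht
    by_cases hab : t ∈ Ioo a b
    · rw [hδβ t hab]
      exact huniq ⟨max_lt hab.1 ht.1, lt_min hab.2 ht.2⟩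
    · exact if_neg hab
  refine ⟨δ, hδβ, ?_⟩
  rintro t (ht | ht)
  · rw [hδβ t ht]
    exact (hβ t ht).congr_of_eventuallyEq (by
      filter_upwards [Ioo_mem_nhds ht.1 ht.2] with s hs using hδβ s hs)
  · rw [hδγ t ht]
    exact (hγ t ht).congr_of_eventuallyEq (by
      filter_upwards [Ioo_mem_nhds ht.1 ht.2] with s hs using hδγ s hs)

theorem t1_ext {E : Type*} [NormedAddCommGroup E] [NormedSpace ℝ E] [CompleteSpace E]
    (F : ℝ → E → E) (L : ℝ≥0) (hL : ∀ t, LipschitzWith L (F t)) (hc : ∀ x, Continuous (fun t => F t x))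
    (t₀ : ℝ) (x : E) (n : ℕ) : ∃ β : ℝ → E, β t₀ = x ∧
      ∀ t ∈ Ioo (t₀ - ((n : ℝ) + 1) * (1 / (4 * ((L : ℝ) + 1))))
        (t₀ + ((n : ℝ) + 1) * (1 / (4 * ((L : ℝ) + 1)))), HasDerivAt β (F t (β t)) t := by
  set k : ℝ := 1 / (4 * ((L : ℝ) + 1)) with hk
  have hL0 : (0 : ℝ) ≤ L := L.2
  have hkpos : 0 < k := by positivity
  have hhk : 1 / (2 * ((L : ℝ) + 1)) = 2 * k := by
    rw [hk]; field_simp; norm_num
  induction n with
  | zero =>
    obtain ⟨α, hα, hα'⟩ := t1_local F L hL hc t₀ x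
    refine ⟨α, hα, fun t ht => hα' t ?_⟩
    rw [hhk]
    simp only [Nat.cast_zero, zero_add, one_mul] at ht
    exact ⟨by linarith [ht.1], by linarith [ht.2]⟩
  | succ n ih =>
    obtain ⟨β, hβ0, hβ⟩ := ih
    set T : ℝ := ((n : ℝ) + 1) * k with hT
    have hn0 : (0 : ℝ) ≤ n := Nat.cast_nonneg n
    have hTk : k ≤ T := by
      rw [hT]; nlinarith
    have hcast : (((n + 1 : ℕ) : ℝ) + 1) * k = T + k := by
      rw [hT]; push_cast; ring
    rw [hcast]
    -- extend to the right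
    obtain ⟨γ, hγ0, hγ⟩ := t1_local F L hL hc (t₀ + T - k / 2) (β (t₀ + T - k / 2))
    rw [hhk] at hγ
    obtain ⟨δ, hδβ, hδ⟩ := t1_glue F L hL hβ hγ (t₁ := t₀ + T - k / 2)
      ⟨by linarith, by linarith⟩ ⟨by linarith, by linarith⟩ hγ0.symm
    have hδ' : ∀ t ∈ Ioo (t₀ - T) (t₀ + T + k), HasDerivAt δ (F t (δ t)) t := by
      intro t ht
      apply hδ
      by_cases h : t < t₀ + T
      · exact Or.inl ⟨ht.1, h⟩
      · right
        push Not at h
        exact ⟨by linarith, by linarith [ht.2]⟩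
    have hδ0 : δ t₀ = x := by
      rw [hδβ t₀ ⟨by linarith, by linarith⟩, hβ0]
    -- extend to the left
    obtain ⟨γ', hγ'0, hγ'⟩ := t1_local F L hL hc (t₀ - T + k / 2) (δ (t₀ - T + k / 2))
    rw [hhk] at hγ'
    obtain ⟨ε, hεδ, hε⟩ := t1_glue F L hL hδ' hγ' (t₁ := t₀ - T + k / 2)
      ⟨by linarith, by linarith⟩ ⟨by linarith, by linarith⟩ hγ'0.symm
    refine ⟨ε, ?_, ?_⟩
    · rw [hεδ t₀ ⟨by linarith, by linarith⟩, hδ0]
    · intro t ht
      apply hε
      by_cases h : t₀ - T < t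
      · exact Or.inl ⟨h, by linarith [ht.2]⟩
      · right
        push Not at h
        exact ⟨by linarith [ht.1], by linarith⟩

/-- Global solutions of `x' = F(t,x)`, `F` Lipschitz in `x` with one constant and continuous in `t`:
there is a jointly continuous solution map with `φ t₀ x = x`.

PROOF. Existence on every compact interval (local solutions on intervals of a uniform length, glued together).
Uniqueness by Gronwall, so the solutions on the intervals agree and define `φ`.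
`dist (φ t x) (φ t y) ≤ exp (L |t - t₀|) dist x y` and continuity in `t` give joint continuity. -/
theorem tk_flow {E : Type*} [NormedAddCommGroup E] [NormedSpace ℝ E] [CompleteSpace E]
    (F : ℝ → E → E) (L : ℝ≥0) (hL : ∀ t, LipschitzWith L (F t)) (hc : ∀ x, Continuous (fun t => F t x))
    (t₀ : ℝ) : ∃ φ : ℝ → E → E, Continuous (fun p : ℝ × E => φ p.1 p.2) ∧ (∀ x, φ t₀ x = x) ∧
      ∀ t x, HasDerivAt (fun t => φ t x) (F t (φ t x)) t := by
  set k : ℝ := 1 / (4 * ((L : ℝ) + 1)) with hk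
  have hL0 : (0 : ℝ) ≤ L := L.2
  have hkpos : 0 < k := by positivity
  choose β hβ0 hβ using fun (x : E) (n : ℕ) => t1_ext F L hL hc t₀ x n
  -- the index of a time
  let N : ℝ → ℕ := fun t => ⌈|t - t₀| / k⌉₊
  have hN : ∀ t (n : ℕ), N t ≤ n → t ∈ Ioo (t₀ - ((n : ℝ) + 1) * k) (t₀ + ((n : ℝ) + 1) * k) := by
    intro t n hn
    have h1 : |t - t₀| / k ≤ n := (Nat.le_ceil _).trans (by exact_mod_cast hn)
    rw [div_le_iff₀ hkpos] at h1
    have h2 := abs_le.1 h1
    constructor <;> nlinarith [h2.1, h2.2]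
  have hagree : ∀ x t (n : ℕ), N t ≤ n → β x (N t) t = β x n t := by
    intro x t n hn
    have hmn : ((N t : ℕ) : ℝ) ≤ n := by exact_mod_cast hn
    have huniq : EqOn (β x (N t)) (β x n) (Ioo (t₀ - ((N t : ℝ) + 1) * k) (t₀ + ((N t : ℝ) + 1) * k)) := by
      apply ODE_solution_unique_of_mem_Ioo (v := F) (K := L) (s := fun _ => univ) (t₀ := t₀)
        (fun t _ => (hL t).lipschitzOnWith)
      · have h0 : (0 : ℝ) ≤ (N t : ℝ) := Nat.cast_nonneg _
        constructor <;> nlinarith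
      · intro s hs
        exact ⟨hβ x (N t) s hs, mem_univ _⟩
      · intro s hs
        refine ⟨hβ x n s ⟨?_, ?_⟩, mem_univ _⟩
        · have := hs.1
          nlinarith
        · have := hs.2
          nlinarith
      · rw [hβ0, hβ0]
    exact huniq (hN t (N t) le_rfl)
  let φ : ℝ → E → E := fun t x => β x (N t) t
  have hφd : ∀ t x, HasDerivAt (fun t => φ t x) (F t (φ t x)) t := by
    intro t x
    have h1 : φ t x = β x (N t + 1) t := hagree x t (N t + 1) (Nat.le_succ _)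
    rw [h1]
    refine (hβ x (N t + 1) t (hN t (N t + 1) (Nat.le_succ _))).congr_of_eventuallyEq ?_
    have h2 : ∀ᶠ s in 𝓝 t, |s - t₀| < ((N t : ℝ) + 1) * k := by
      apply (continuous_abs.comp (continuous_id.sub continuous_const)).continuousAt.eventually_lt
        continuousAt_const
      have h3 : |t - t₀| / k ≤ N t := Nat.le_ceil _
      rw [div_le_iff₀ hkpos] at h3
      show |t - t₀| < ((N t : ℝ) + 1) * k
      nlinarith
    filter_upwards [h2] with s hs
    apply hagree x s (N t + 1)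
    apply Nat.ceil_le.2
    rw [div_le_iff₀ hkpos]
    push_cast
    exact hs.le
  have hφ0 : ∀ x, φ t₀ x = x := fun x => hβ0 x _
  have hcont : ∀ x, Continuous (fun t => φ t x) := fun x =>
    continuous_iff_continuousAt.2 fun t => (hφd t x).continuousAt
  -- Lipschitz dependence
  have hlip : ∀ t x y, dist (φ t x) (φ t y) ≤ dist x y * Real.exp (L * |t - t₀|) := by
    intro t x y
    rcases le_total t₀ t with ht | ht
    · have h1 := dist_le_of_trajectories_ODE (v := F) (K := L) (a := t₀) (b := t)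
        (f := fun t => φ t x) (g := fun t => φ t y) (δ := dist x y) hL (hcont x).continuousOn
        (fun s _ => (hφd s x).hasDerivWithinAt) (hcont y).continuousOn
        (fun s _ => (hφd s y).hasDerivWithinAt) (by rw [hφ0, hφ0]) t ⟨ht, le_rfl⟩
      rw [abs_of_nonneg (by linarith)]
      exact h1
    · have hrev : ∀ x s, HasDerivAt (fun s => φ (-s) x) (-(F (-s) (φ (-s) x))) s := by
        intro x s
        have h2 := (hφd (-s) x).scomp s (hasDerivAt_neg s)
        rw [neg_one_smul] at h2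
        exact h2
      have hL' : ∀ s, LipschitzWith L (fun z => -(F (-s) z)) := fun s => (hL (-s)).neg
      have h1 := dist_le_of_trajectories_ODE (v := fun s z => -(F (-s) z)) (K := L) (a := -t₀)
        (b := -t) (f := fun s => φ (-s) x) (g := fun s => φ (-s) y) (δ := dist x y) hL'
        ((hcont x).comp continuous_neg).continuousOn
        (fun s _ => (hrev x s).hasDerivWithinAt) ((hcont y).comp continuous_neg).continuousOn
        (fun s _ => (hrev y s).hasDerivWithinAt) (by simp only [neg_neg]; rw [hφ0, hφ0]) (-t)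
        ⟨by linarith, le_rfl⟩
      simp only [neg_neg] at h1
      rw [abs_of_nonpos (by linarith)]
      have h3 : -t - -t₀ = -(t - t₀) := by ring
      rw [h3] at h1
      exact h1
  refine ⟨φ, ?_, hφ0, hφd⟩
  rw [continuous_iff_continuousAt]
  rintro ⟨t, x⟩
  set R : ℝ := |t - t₀| + 1 with hR
  let K : ℝ≥0 := ⟨Real.exp (L * R), (Real.exp_pos _).le⟩
  have h1 : ContinuousOn (fun p : ℝ × E => φ p.1 p.2) (Ioo (t₀ - R) (t₀ + R) ×ˢ univ) := by
    apply continuousOn_prod_of_continuousOn_lipschitzOnWith' _ K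
    · intro s hs
      apply LipschitzOnWith.of_dist_le_mul
      intro y _ z _
      show dist (φ s y) (φ s z) ≤ Real.exp (L * R) * dist y z
      rw [mul_comm]
      refine (hlip s y z).trans (mul_le_mul_of_nonneg_left ?_ dist_nonneg)
      apply Real.exp_le_exp.2
      apply mul_le_mul_of_nonneg_left _ hL0
      rw [abs_le]
      exact ⟨by linarith [hs.1], by linarith [hs.2]⟩
    · intro y _
      exact (hcont y).continuousOn
  apply h1.continuousAt
  apply prod_mem_nhds _ univ_mem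
  apply Ioo_mem_nhds
  · have := neg_abs_le (t - t₀)
    linarith
  · have := le_abs_self (t - t₀)
    linarith

/-- Forward uniqueness and Gronwall: two solutions on `[a,b]` (one of them for a perturbed field).
`dist (f t) (g t) ≤ dist (f a) (g a) * exp (L (t - a))`. (Mathlib: `dist_le_of_trajectories_ODE`.) -/
theorem tk_dist {E : Type*} [NormedAddCommGroup E] [NormedSpace ℝ E]
    (F : ℝ → E → E) (L : ℝ≥0) (hL : ∀ t, LipschitzWith L (F t)) (a b : ℝ) (f g : ℝ → E)
    (hf : ∀ t ∈ Icc a b, HasDerivAt f (F t (f t)) t) (hg : ∀ t ∈ Icc a b, HasDerivAt g (F t (g t)) t) :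
    ∀ t ∈ Icc a b, dist (f t) (g t) ≤ dist (f a) (g a) * Real.exp (L * (t - a)) :=
  dist_le_of_trajectories_ODE (v := F) hL (HasDerivAt.continuousOn fun t ht => hf t ht)
    (fun t ht => (hf t ⟨ht.1, ht.2.le⟩).hasDerivWithinAt)
    (HasDerivAt.continuousOn fun t ht => hg t ht)
    (fun t ht => (hg t ⟨ht.1, ht.2.le⟩).hasDerivWithinAt) le_rfl

end Pool.Agent.RS
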