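import Pool.Agent.Lib.MP_35abc2_gt.C1a_Bounds
import Pool.Agent.Lib.MP_35abc2_gt.T1_Flow

/-! # C1b: existence of the reference pair (MP_35abc2_gt) -/

open scoped ContDiff Topology NNReal
open Set Filter Real

noncomputable section

namespace Pool.Agent.RS

/-- the clamped reference field -/
def c1bF (σ : ℝ) (p : ℝ × ℝ) : ℝ × ℝ :=
  (p.2, -(3 - min (exp (2 * σ)) 200 / 2) * p.2 - 6 * p.1)

theorem c1b_lip (σ : ℝ) : LipschitzWith 110 (c1bF σ) := by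
  apply LipschitzWith.of_dist_le_mul
  intro x y
  have h1 : |x.1 - y.1| ≤ dist x y := by
    rw [Prod.dist_eq, ← Real.dist_eq]; exact le_max_left _ _
  have h2 : |x.2 - y.2| ≤ dist x y := by
    rw [Prod.dist_eq, ← Real.dist_eq x.2]; exact le_max_right _ _
  have hd : 0 ≤ dist x y := dist_nonneg
  have hm1 : min (exp (2 * σ)) 200 ≤ 200 := min_le_right _ _
  have hm0 : 0 ≤ min (exp (2 * σ)) 200 := le_min (exp_pos _).le (by norm_num)
  have hcast : ((110 : ℝ≥0) : ℝ) = 110 := by norm_num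
  rw [hcast, Prod.dist_eq]
  apply max_le
  · simp only [c1bF]
    rw [Real.dist_eq]
    linarith
  · simp only [c1bF]
    rw [Real.dist_eq]
    generalize min (exp (2 * σ)) 200 = m at hm0 hm1
    have e : -(3 - m / 2) * x.2 - 6 * x.1 - (-(3 - m / 2) * y.2 - 6 * y.1)
        = -(3 - m / 2) * (x.2 - y.2) - 6 * (x.1 - y.1) := by ring
    rw [e]
    have hc : |-(3 - m / 2)| ≤ 97 := by
      rw [abs_le]; constructor <;> linarith
    calc |-(3 - m / 2) * (x.2 - y.2) - 6 * (x.1 - y.1)|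
        ≤ |-(3 - m / 2) * (x.2 - y.2)| + |6 * (x.1 - y.1)| := abs_sub _ _
      _ = |-(3 - m / 2)| * |x.2 - y.2| + 6 * |x.1 - y.1| := by
          rw [abs_mul, abs_mul, abs_of_pos (by norm_num : (0:ℝ) < 6)]
      _ ≤ 97 * dist x y + 6 * dist x y := by
          gcongr
      _ ≤ 110 * dist x y := by linarith

theorem c1b_cont (p : ℝ × ℝ) : Continuous (fun σ => c1bF σ p) := by
  unfold c1bF
  fun_prop

theorem c1b_exp_sigS : exp (2 * sigS) = 200 := by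
  have : 2 * sigS = log 200 := by unfold sigS; ring
  rw [this, exp_log (by norm_num)]

theorem c1b_min {σ : ℝ} (h : σ ≤ sigS) : min (exp (2 * σ)) 200 = exp (2 * σ) := by
  apply min_eq_left
  rw [← c1b_exp_sigS]
  apply exp_le_exp.mpr
  linarith

theorem c1b_refsol (f : ℝ → ℝ × ℝ) (hf : ∀ t, HasDerivAt f (c1bF t (f t)) t) :
    RefSol (fun t => (f t).1) (fun t => (f t).2) := by
  refine ⟨?_, ?_⟩
  · intro σ _
    have := (hf σ).fst
    exact this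
  · intro σ hσ
    have := (hf σ).snd
    simp only [c1bF, c1b_min hσ] at this
    exact this

theorem c1b_nn_deriv (σ : ℝ) : HasDerivAt nn ((3 - exp (2 * σ) / 2) * nn σ) σ := by
  unfold nn
  have h1 : HasDerivAt (fun σ : ℝ => 2 * σ) 2 σ := by
    simpa using (hasDerivAt_id σ).const_mul 2
  have h3 : HasDerivAt (fun σ : ℝ => 3 * σ) 3 σ := by
    simpa using (hasDerivAt_id σ).const_mul 3
  have h2 : HasDerivAt (fun σ : ℝ => 3 * σ - exp (2 * σ) / 4) (3 - exp (2 * σ) * 2 / 4) σ :=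
    h3.sub (h1.exp.div_const 4)
  have := h2.exp
  refine this.congr_deriv ?_
  ring

theorem c1b_wr (U₁ V₁ U₂ V₂ : ℝ → ℝ) (r1 : RefSol U₁ V₁) (r2 : RefSol U₂ V₂)
    (u1 : U₁ sigS = 0) (v1 : V₁ sigS = 1) (u2 : U₂ sigS = 1) (v2 : V₂ sigS = 0) (σ : ℝ) (hσ : σ ≤ sigS) :
    nn σ * (V₁ σ * U₂ σ - U₁ σ * V₂ σ) = nn sigS := by
  have hd : ∀ t, t ≤ sigS → HasDerivAt (fun σ => nn σ * (V₁ σ * U₂ σ - U₁ σ * V₂ σ)) 0 t := by
    intro t ht
    have := (c1b_nn_deriv t).mul (((r1.dV t ht).mul (r2.dU t ht)).sub ((r1.dU t ht).mul (r2.dV t ht)))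
    refine this.congr_deriv ?_
    simp only [Pi.mul_apply, Pi.sub_apply]
    ring
  rcases hσ.eq_or_lt with h | h
  · subst h
    rw [u1, v1, u2, v2]; ring
  · have hcont : ContinuousOn (fun σ => nn σ * (V₁ σ * U₂ σ - U₁ σ * V₂ σ)) (Icc σ sigS) :=
      fun t ht => (hd t ht.2).continuousAt.continuousWithinAt
    have key := constant_of_has_deriv_right_zero hcont
      (fun t ht => (hd t ht.2.le).hasDerivWithinAt) sigS (right_mem_Icc.mpr h.le)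
    rw [← key, u1, v1, u2, v2]; ring

theorem c1b_bound (U V : ℝ → ℝ) (h : RefSol U V) : ∃ C : ℝ, 0 < C ∧
    ∀ σ, σ ≤ sigS → |U σ| + |V σ| ≤ C * exp (-(3 / 2) * σ) := by
  set M : ℝ := exp ((2 / 3) * exp (2 * sigS)) * (zz (U sigS) (V sigS) * exp (3 * sigS)) with hM
  have hzz : ∀ u w : ℝ, 0 ≤ zz u w := by
    intro u w; unfold zz; positivity
  have hM0 : 0 ≤ M := by
    rw [hM]
    have := hzz (U sigS) (V sigS)
    positivity
  refine ⟨2 * sqrt M + 1, by positivity, ?_⟩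
  intro σ hσ
  have hb := (ref_bounds U V h sigS le_rfl σ hσ).2
  rw [← hM] at hb
  have h1 : (|U σ| + |V σ|) ^ 2 ≤ 4 * zz (U σ) (V σ) := by
    have ha : |U σ| ^ 2 = U σ ^ 2 := sq_abs _
    have hb' : |V σ| ^ 2 = V σ ^ 2 := sq_abs _
    have : (|U σ| + |V σ|) ^ 2 ≤ 2 * (U σ ^ 2 + V σ ^ 2) := by
      nlinarith [sq_nonneg (|U σ| - |V σ|)]
    unfold zz
    nlinarith [sq_nonneg (V σ + 3 * U σ), sq_nonneg (U σ), sq_nonneg (V σ)]
  have h2 : zz (U σ) (V σ) ≤ M * exp (-(3 * σ)) := by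
    have hp : 0 < exp (-(3 * σ)) := exp_pos _
    have := mul_le_mul_of_nonneg_right hb hp.le
    rw [mul_assoc, ← exp_add] at this
    simpa using this
  have h3 : (|U σ| + |V σ|) ^ 2 ≤ (2 * sqrt M * exp (-(3 / 2) * σ)) ^ 2 := by
    have e : (2 * sqrt M * exp (-(3 / 2) * σ)) ^ 2 = 4 * (M * exp (-(3 * σ))) := by
      have e1 : exp (-(3 / 2) * σ) ^ 2 = exp (-(3 * σ)) := by
        rw [← exp_nat_mul]; congr 1; push_cast; ring
      have e2 : sqrt M ^ 2 = M := sq_sqrt hM0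
      calc (2 * sqrt M * exp (-(3 / 2) * σ)) ^ 2 = 4 * (sqrt M ^ 2 * exp (-(3 / 2) * σ) ^ 2) := by ring
        _ = _ := by rw [e1, e2]
    rw [e]
    linarith
  have h4 : |U σ| + |V σ| ≤ 2 * sqrt M * exp (-(3 / 2) * σ) :=
    le_of_sq_le_sq h3 (by positivity)
  have hp : 0 < exp (-(3 / 2) * σ) := exp_pos _
  calc |U σ| + |V σ| ≤ 2 * sqrt M * exp (-(3 / 2) * σ) := h4
    _ ≤ (2 * sqrt M + 1) * exp (-(3 / 2) * σ) := by nlinarith

/-- C1b. Existence.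

PROOF. `tk_flow` for `F σ (U,V) = (V, -(3 - min(e^{2σ}, 200)/2) V - 6U)` on `ℝ × ℝ` (or `Fin 2 → ℝ`), `t₀ = σ_*`; for `σ ≤ σ_*` the minimum is `e^{2σ}`.
Wronskian: `(V₁U₂ - U₁V₂)' = -(3 - s/2)(V₁U₂ - U₁V₂)` and `n' = (3 - s/2) n`.  Bounds from `ref_bounds` with `σb = σ_*`
(`|U| + |V| ≤ 2 √zz`). -/
theorem ref_exists : ∃ (U₁ V₁ U₂ V₂ : ℝ → ℝ) (C : ℝ), RefPair U₁ V₁ U₂ V₂ C := by
  obtain ⟨φ, -, h0, hd⟩ := tk_flow c1bF 110 c1b_lip c1b_cont sigS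
  have r1 := c1b_refsol (fun t => φ t (0, 1)) (fun t => hd t (0, 1))
  have r2 := c1b_refsol (fun t => φ t (1, 0)) (fun t => hd t (1, 0))
  obtain ⟨C₁, hC₁, b₁⟩ := c1b_bound _ _ r1
  obtain ⟨C₂, hC₂, b₂⟩ := c1b_bound _ _ r2
  have u1 : (φ sigS (0, 1)).1 = 0 := by rw [h0]
  have v1 : (φ sigS (0, 1)).2 = 1 := by rw [h0]
  have u2 : (φ sigS (1, 0)).1 = 1 := by rw [h0]
  have v2 : (φ sigS (1, 0)).2 = 0 := by rw [h0]
  refine ⟨fun t => (φ t (0, 1)).1, fun t => (φ t (0, 1)).2, fun t => (φ t (1, 0)).1,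
    fun t => (φ t (1, 0)).2, C₁ + C₂, r1, r2, u1, v1, u2, v2, ?_, by positivity, ?_, ?_⟩
  · intro σ hσ
    exact c1b_wr _ _ _ _ r1 r2 u1 v1 u2 v2 σ hσ
  · intro σ hσ
    have := b₁ σ hσ
    have hp : 0 < exp (-(3 / 2) * σ) := exp_pos _
    have h' : 0 ≤ C₂ * exp (-(3 / 2) * σ) := by positivity
    linarith
  · intro σ hσ
    have := b₂ σ hσ
    have hp : 0 < exp (-(3 / 2) * σ) := exp_pos _
    have h' : 0 ≤ C₁ * exp (-(3 / 2) * σ) := by positivity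
    linarith

end Pool.Agent.RS
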