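import Pool.Agent.Lib.MP_35abc2_gt.C1a_Bounds

/-! # C2: every direction is attained (MP_35abc2_gt) -/

open scoped ContDiff Topology NNReal
open Set Filter Real

noncomputable section

namespace Pool.Agent.RS

/-- `ω = √15 / 2` -/
def C2_om : ℝ := √15 / 2

lemma C2_om_pos : 0 < C2_om := by
  unfold C2_om
  positivity

lemma C2_om_sq : C2_om ^ 2 = 15 / 4 := by
  unfold C2_om
  rw [div_pow, Real.sq_sqrt (by norm_num)]
  norm_num

/-- the complex amplitude -/
def C2_z (u w : ℝ) : ℂ := ((w + 3 / 2 * u : ℝ) : ℂ) + ((C2_om * u : ℝ) : ℂ) * Complex.I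

/-- the eigenvalue -/
def C2_lam : ℂ := ((-(3 / 2) : ℝ) : ℂ) + ((C2_om : ℝ) : ℂ) * Complex.I

lemma C2_z_re (u w : ℝ) : (C2_z u w).re = w + 3 / 2 * u := by
  simp [C2_z]

lemma C2_z_im (u w : ℝ) : (C2_z u w).im = C2_om * u := by
  simp [C2_z]

lemma C2_norm_sq (u w : ℝ) : ‖C2_z u w‖ ^ 2 = zz u w := by
  rw [← Complex.normSq_eq_norm_sq, Complex.normSq_apply, C2_z_re, C2_z_im]
  unfold zz
  have := C2_om_sq
  linear_combination u ^ 2 * this

lemma C2_V_sq (u w : ℝ) : w ^ 2 ≤ 8 / 5 * zz u w := by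
  unfold zz
  nlinarith [sq_nonneg (w + 4 * u)]

lemma C2_zz_pos {u w : ℝ} (h : (u, w) ≠ (0, 0)) : 0 < zz u w := by
  unfold zz
  by_cases hu : u = 0
  · have hw : w ≠ 0 := by
      intro hw
      exact h (by rw [hu, hw])
    rw [hu]
    have : 0 < w ^ 2 := by positivity
    nlinarith
  · have : 0 < u ^ 2 := by positivity
    nlinarith [sq_nonneg (w + 3 / 2 * u)]

/-- the normalised amplitude -/
def C2_Y (U V : ℝ → ℝ) (c : ℂ) (σ : ℝ) : ℂ :=
  Complex.exp (-C2_lam * (σ : ℂ)) * C2_z (U σ) (V σ) * c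

lemma C2_norm_exp (σ : ℝ) : ‖Complex.exp (-C2_lam * (σ : ℂ))‖ = exp (3 / 2 * σ) := by
  rw [Complex.norm_exp]
  congr 1
  simp [C2_lam]

lemma C2_deriv {U V : ℝ → ℝ} (h : RefSol U V) (c : ℂ) {σ : ℝ} (hσ : σ ≤ sigS) :
    HasDerivAt (C2_Y U V c)
      (Complex.exp (-C2_lam * (σ : ℂ)) * ((exp (2 * σ) / 2 * V σ : ℝ) : ℂ) * c) σ := by
  have h1 : HasDerivAt (fun x : ℝ => C2_z (U x) (V x))
      (C2_lam * C2_z (U σ) (V σ) + ((exp (2 * σ) / 2 * V σ : ℝ) : ℂ)) σ := by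
    have hU := h.dU σ hσ
    have hV := h.dV σ hσ
    have h2 : HasDerivAt (fun x : ℝ => ((V x + 3 / 2 * U x : ℝ) : ℂ))
        (((-(3 - exp (2 * σ) / 2) * V σ - 6 * U σ) + 3 / 2 * V σ : ℝ) : ℂ) σ :=
      (hV.add (hU.const_mul (3 / 2))).ofReal_comp
    have h3 : HasDerivAt (fun x : ℝ => ((C2_om * U x : ℝ) : ℂ) * Complex.I)
        (((C2_om * V σ : ℝ) : ℂ) * Complex.I) σ :=
      ((hU.const_mul C2_om).ofReal_comp).mul_const _
    refine (h2.add h3).congr_deriv ?_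
    unfold C2_z C2_lam
    apply Complex.ext
    · simp
      have := C2_om_sq
      linear_combination (U σ) * this
    · simp
      ring
  have h4 : HasDerivAt (fun x : ℝ => Complex.exp (-C2_lam * (x : ℂ)))
      (Complex.exp (-C2_lam * (σ : ℂ)) * (-C2_lam)) σ := by
    have h5 : HasDerivAt (fun x : ℝ => -C2_lam * (x : ℂ)) (-C2_lam) σ := by
      simpa using ((hasDerivAt_id σ).ofReal_comp).const_mul (-C2_lam)
    exact h5.cexp
  refine ((h4.mul h1).mul_const c).congr_deriv ?_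
  ring

lemma C2_norm_Y (U V : ℝ → ℝ) (c : ℂ) (σ : ℝ) :
    ‖C2_Y U V c σ‖ ^ 2 = zz (U σ) (V σ) * exp (3 * σ) * ‖c‖ ^ 2 := by
  unfold C2_Y
  rw [norm_mul, norm_mul, mul_pow, mul_pow, C2_norm_exp, C2_norm_sq, ← Real.exp_nat_mul]
  have : ((2 : ℕ) : ℝ) * (3 / 2 * σ) = 3 * σ := by push_cast; ring
  rw [this]
  ring

/-- `σ_a = ½ log (1/10)` -/
def C2_sa : ℝ := log (1 / 10) / 2

lemma C2_sa_exp : exp (2 * C2_sa) = 1 / 10 := by
  unfold C2_sa
  rw [mul_div_cancel₀ _ (by norm_num), Real.exp_log (by norm_num)]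

lemma C2_sa_le : C2_sa ≤ sigS := by
  unfold C2_sa sigS
  have := Real.log_le_log (by norm_num : (0 : ℝ) < 1 / 10) (by norm_num : (1 / 10 : ℝ) ≤ 200)
  linarith

/-- the amplitude is almost constant -/
lemma C2_close {U V : ℝ → ℝ} (h : RefSol U V) (c : ℂ) {σ : ℝ} (hσ : σ ≤ C2_sa) :
    ‖C2_Y U V c C2_sa - C2_Y U V c σ‖ ≤ 1 / 20 * ‖C2_Y U V c C2_sa‖ := by
  set A := ‖C2_Y U V c C2_sa‖ with hA
  have hA0 : 0 ≤ A := norm_nonneg _
  have key : ∀ x ≤ C2_sa, ‖Complex.exp (-C2_lam * (x : ℂ)) *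
      ((exp (2 * x) / 2 * V x : ℝ) : ℂ) * c‖ ≤ 67 / 100 * A * exp (2 * x) := by
    intro x hx
    have h1 := (ref_bounds U V h C2_sa C2_sa_le x hx).2
    rw [C2_sa_exp] at h1
    have h2 : exp (2 / 3 * (1 / 10)) ≤ 15 / 14 := by
      have := Real.exp_bound_div_one_sub_of_interval' (x := 1 / 15) (by norm_num) (by norm_num)
      have h3 : (2 / 3 * (1 / 10) : ℝ) = 1 / 15 := by norm_num
      rw [h3]
      norm_num at this ⊢
      exact this.le
    have hzz : 0 ≤ zz (U C2_sa) (V C2_sa) * exp (3 * C2_sa) := by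
      have : 0 ≤ zz (U C2_sa) (V C2_sa) := by
        unfold zz
        positivity
      positivity
    have h4 : zz (U x) (V x) * exp (3 * x) ≤
        15 / 14 * (zz (U C2_sa) (V C2_sa) * exp (3 * C2_sa)) :=
      h1.trans (mul_le_mul_of_nonneg_right h2 hzz)
    have h5 : (exp (3 / 2 * x) * |V x| * ‖c‖) ^ 2 ≤ (134 / 100 * A) ^ 2 := by
      have h6 : (exp (3 / 2 * x)) ^ 2 = exp (3 * x) := by
        rw [← Real.exp_nat_mul]
        congr 1
        push_cast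
        ring
      rw [mul_pow, mul_pow, mul_pow, h6, sq_abs, hA, C2_norm_Y]
      have h7 := C2_V_sq (U x) (V x)
      have h8 : 0 < exp (3 * x) := Real.exp_pos _
      have h9 : 0 ≤ ‖c‖ ^ 2 := by positivity
      calc exp (3 * x) * V x ^ 2 * ‖c‖ ^ 2 ≤ exp (3 * x) * (8 / 5 * zz (U x) (V x)) * ‖c‖ ^ 2 := by
            gcongr
        _ = 8 / 5 * (zz (U x) (V x) * exp (3 * x)) * ‖c‖ ^ 2 := by ring
        _ ≤ 8 / 5 * (15 / 14 * (zz (U C2_sa) (V C2_sa) * exp (3 * C2_sa))) * ‖c‖ ^ 2 := by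
            gcongr
        _ = 12 / 7 * (zz (U C2_sa) (V C2_sa) * exp (3 * C2_sa) * ‖c‖ ^ 2) := by ring
        _ ≤ (134 / 100) ^ 2 * (zz (U C2_sa) (V C2_sa) * exp (3 * C2_sa) * ‖c‖ ^ 2) := by
            refine mul_le_mul_of_nonneg_right (by norm_num) (mul_nonneg hzz h9)
    have h10 : exp (3 / 2 * x) * |V x| * ‖c‖ ≤ 134 / 100 * A :=
      (pow_le_pow_iff_left₀ (by positivity) (by positivity) two_ne_zero).1 h5
    rw [norm_mul, norm_mul, C2_norm_exp, Complex.norm_real, Real.norm_eq_abs, abs_mul,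
      abs_of_pos (by positivity : 0 < exp (2 * x) / 2)]
    calc exp (3 / 2 * x) * (exp (2 * x) / 2 * |V x|) * ‖c‖
        = exp (2 * x) / 2 * (exp (3 / 2 * x) * |V x| * ‖c‖) := by ring
      _ ≤ exp (2 * x) / 2 * (134 / 100 * A) := by gcongr
      _ = 67 / 100 * A * exp (2 * x) := by ring
  have hB : ∀ x, HasDerivAt (fun x => 67 / 200 * A * (exp (2 * x) - exp (2 * σ)))
      (67 / 100 * A * exp (2 * x)) x := by
    intro x
    have h1 : HasDerivAt (fun x : ℝ => exp (2 * x)) (exp (2 * x) * 2) x := by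
      simpa using ((hasDerivAt_id x).const_mul 2).exp
    refine ((h1.sub_const (exp (2 * σ))).const_mul (67 / 200 * A)).congr_deriv ?_
    ring
  have hf : ∀ x ≤ C2_sa, HasDerivAt (fun x => C2_Y U V c x - C2_Y U V c σ)
      (Complex.exp (-C2_lam * (x : ℂ)) * ((exp (2 * x) / 2 * V x : ℝ) : ℂ) * c) x :=
    fun x hx => (C2_deriv h c (hx.trans C2_sa_le)).sub_const _
  have hmain := image_norm_le_of_norm_deriv_right_le_deriv_boundary (a := σ) (b := C2_sa)
    (f := fun x => C2_Y U V c x - C2_Y U V c σ)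
    (f' := fun x => Complex.exp (-C2_lam * (x : ℂ)) * ((exp (2 * x) / 2 * V x : ℝ) : ℂ) * c)
    (fun x hx => (hf x hx.2).continuousAt.continuousWithinAt)
    (fun x hx => (hf x hx.2.le).hasDerivWithinAt)
    (B := fun x => 67 / 200 * A * (exp (2 * x) - exp (2 * σ)))
    (B' := fun x => 67 / 100 * A * exp (2 * x))
    (by simp)
    hB (fun x hx => key x hx.2.le)
  have h2 := hmain (Set.right_mem_Icc.2 hσ)
  refine h2.trans ?_
  rw [C2_sa_exp]
  have h3 : 0 < exp (2 * σ) := Real.exp_pos _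
  nlinarith

/-- C2. A nonzero reference solution points in any prescribed direction at arbitrarily negative times.

PROOF. `λ = -3/2 + iω`, `ω = √15/2`, `z = V + (3/2)U + iωU : ℝ → ℂ`, `z' = λ z + (s/2) V`, `Z(σ) = e^{-λσ} z(σ)`,
`Z' = e^{-λσ} (s/2) V`, `|V| ≤ 1.27 |z|`, so `|Z'| ≤ 0.64 e^{2σ} |Z|`.  Fix `σa` with `e^{2σa} = 1/10` (note `σa ≤ σ_*`); for `σ ≤ σa`:
`|Z(σ) - Z(σa)| ≤ (e^{0.032} - 1)|Z(σa)| ≤ (1/20)|Z(σa)|` and `Z(σa) ≠ 0` (by `ref_bounds`, since the solution is nonzero at `σ_*`).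
Let `z₀ = w₀ + (3/2)u₀ + iωu₀ ≠ 0` and `h(σ) = Im(e^{iωσ} Z(σ) conj z₀)`, `ϑ = arg (Z(σa) conj z₀)`.  At `σ⁻_j = (-π/4 - ϑ - 2πj)/ω`,
`σ⁺_j = (π/4 - ϑ - 2πj)/ω` (both `< min(σb, σa)` for large `j ∈ ℕ`) the main term `e^{iωσ} Z(σa) conj z₀` has argument `∓π/4`, so `h < 0`, `h > 0` there (error at most
`(1/20)` of the modulus against `sin(π/4)`); on `[σ⁻_j, σ⁺_j]` the real part of `e^{iωσ} Z(σ) conj z₀` is positive (`cos(π/4) - 1/20 > 0`). At the zero `σ` of `h` given by the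
IVT, `z(σ) conj z₀ = e^{-(3/2)σ} e^{iωσ} Z(σ) conj z₀ > 0`, so `z₀ = r z(σ)` with `r > 0`, hence `u₀ = r U σ`, `w₀ = r V σ`
(compare imaginary and real parts). -/
theorem ref_direction (U V : ℝ → ℝ) (h : RefSol U V) (hne : (U sigS, V sigS) ≠ (0, 0)) (u₀ w₀ : ℝ)
    (h0 : (u₀, w₀) ≠ (0, 0)) (σb : ℝ) :
    ∃ σ, σ < σb ∧ σ ≤ sigS ∧ ∃ r, 0 < r ∧ u₀ = r * U σ ∧ w₀ = r * V σ := by
  have hom := C2_om_pos
  have hpi := Real.pi_pos
  set c : ℂ := (starRingEnd ℂ) (C2_z u₀ w₀) with hc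
  have hz0 : 0 < ‖C2_z u₀ w₀‖ ^ 2 := by
    rw [C2_norm_sq]
    exact C2_zz_pos h0
  have hcn : ‖c‖ ^ 2 = ‖C2_z u₀ w₀‖ ^ 2 := by
    rw [hc, RCLike.norm_conj]
  set A := ‖C2_Y U V c C2_sa‖ with hA
  have hApos : 0 < A := by
    have h1 : 0 < A ^ 2 := by
      rw [hA, C2_norm_Y, hcn]
      refine mul_pos ?_ hz0
      have h2 := (ref_bounds U V h sigS le_rfl C2_sa C2_sa_le).1
      have h3 := C2_zz_pos hne
      exact lt_of_lt_of_le (by positivity) h2
    have h4 : 0 ≤ A := norm_nonneg _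
    rcases h4.lt_or_eq with h5 | h5
    · exact h5
    · rw [← h5] at h1
      norm_num at h1
  set Ya := C2_Y U V c C2_sa with hYa
  set m := min σb C2_sa with hm
  obtain ⟨j, hj⟩ := exists_nat_gt ((π / 4 - Complex.arg Ya - C2_om * m) / (2 * π))
  rw [div_lt_iff₀ (by positivity)] at hj
  set θ : ℝ → ℝ := fun x => C2_om * x + Complex.arg Ya + 2 * π * j with hθ
  set σm := (-π / 4 - Complex.arg Ya - 2 * π * j) / C2_om with hσm
  set σp := (π / 4 - Complex.arg Ya - 2 * π * j) / C2_om with hσp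
  have hθm : θ σm = -π / 4 := by
    simp only [hθ, hσm]
    field_simp
    ring
  have hθp : θ σp = π / 4 := by
    simp only [hθ, hσp]
    field_simp
    ring
  have hmp : σm ≤ σp := by
    simp only [hσm, hσp]
    gcongr
    linarith
  have hpm : σp < m := by
    simp only [hσp]
    rw [div_lt_iff₀ hom]
    linarith
  have hrot : ∀ x : ℝ, Complex.exp (((C2_om * x : ℝ) : ℂ) * Complex.I) * Ya =
      ((A * cos (θ x) : ℝ) : ℂ) + ((A * sin (θ x) : ℝ) : ℂ) * Complex.I := by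
    intro x
    have h1 : Ya = (A : ℂ) * Complex.exp ((Complex.arg Ya : ℂ) * Complex.I) :=
      (Complex.norm_mul_exp_arg_mul_I Ya).symm
    have h2 : Complex.exp (((θ x : ℝ) : ℂ) * Complex.I) =
        Complex.exp (((C2_om * x : ℝ) : ℂ) * Complex.I) *
          Complex.exp ((Complex.arg Ya : ℂ) * Complex.I) := by
      rw [← Complex.exp_add]
      have h3 : ((θ x : ℝ) : ℂ) * Complex.I = (((C2_om * x : ℝ) : ℂ) * Complex.I +
          (Complex.arg Ya : ℂ) * Complex.I) + (j : ℂ) * (2 * π * Complex.I) := by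
        simp only [hθ]
        push_cast
        ring
      rw [h3, Complex.exp_add, Complex.exp_nat_mul_two_pi_mul_I, mul_one]
    have h4 : Complex.exp (((θ x : ℝ) : ℂ) * Complex.I) =
        ((cos (θ x) : ℝ) : ℂ) + ((sin (θ x) : ℝ) : ℂ) * Complex.I := by
      rw [Complex.exp_mul_I, Complex.ofReal_cos, Complex.ofReal_sin]
    calc Complex.exp (((C2_om * x : ℝ) : ℂ) * Complex.I) * Ya
        = (A : ℂ) * (Complex.exp (((C2_om * x : ℝ) : ℂ) * Complex.I) *
          Complex.exp ((Complex.arg Ya : ℂ) * Complex.I)) := by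
          conv_lhs => rw [h1]
          ring
      _ = (A : ℂ) * (((cos (θ x) : ℝ) : ℂ) + ((sin (θ x) : ℝ) : ℂ) * Complex.I) := by
          rw [← h2, h4]
      _ = _ := by push_cast; ring
  set G : ℝ → ℂ := fun x => Complex.exp (((C2_om * x : ℝ) : ℂ) * Complex.I) * C2_Y U V c x
    with hG
  have hnr : ∀ x : ℝ, ‖Complex.exp (((C2_om * x : ℝ) : ℂ) * Complex.I)‖ = 1 :=
    fun x => Complex.norm_exp_ofReal_mul_I _
  have herr : ∀ x ≤ C2_sa, ‖G x - (((A * cos (θ x) : ℝ) : ℂ) +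
      ((A * sin (θ x) : ℝ) : ℂ) * Complex.I)‖ ≤ 1 / 20 * A := by
    intro x hx
    rw [← hrot x]
    simp only [hG]
    rw [← mul_sub, norm_mul, hnr, one_mul, norm_sub_rev]
    exact C2_close h c hx
  have him : ∀ x ≤ C2_sa, |(G x).im - A * sin (θ x)| ≤ 1 / 20 * A := by
    intro x hx
    have h1 := (Complex.abs_im_le_norm _).trans (herr x hx)
    rw [Complex.sub_im, Complex.add_im, Complex.ofReal_im, Complex.im_ofReal_mul, Complex.I_im,
      zero_add, mul_one] at h1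
    exact h1
  have hre : ∀ x ≤ C2_sa, |(G x).re - A * cos (θ x)| ≤ 1 / 20 * A := by
    intro x hx
    have h1 := (Complex.abs_re_le_norm _).trans (herr x hx)
    rw [Complex.sub_re, Complex.add_re, Complex.ofReal_re, Complex.re_ofReal_mul, Complex.I_re,
      mul_zero, add_zero] at h1
    exact h1
  have hsqrt : (7 / 10 : ℝ) ≤ √2 / 2 := by
    have : (7 / 5 : ℝ) ≤ √2 := Real.le_sqrt_of_sq_le (by norm_num)
    linarith
  have hpa : σp ≤ C2_sa := hpm.le.trans (min_le_right _ _)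
  have hma : σm ≤ C2_sa := hmp.trans hpa
  have hneg : (G σm).im ≤ 0 := by
    have h1 := abs_le.1 (him σm hma)
    rw [hθm] at h1
    have h2 : sin (-π / 4) = -(√2 / 2) := by
      rw [neg_div, Real.sin_neg, Real.sin_pi_div_four]
    rw [h2] at h1
    nlinarith [h1.2]
  have hpos : 0 ≤ (G σp).im := by
    have h1 := abs_le.1 (him σp hpa)
    rw [hθp, Real.sin_pi_div_four] at h1
    nlinarith [h1.1]
  have hcont : ContinuousOn (fun x => (G x).im) (Icc σm σp) := by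
    intro x hx
    have h1 : ContinuousAt (C2_Y U V c) x :=
      (C2_deriv h c ((hx.2.trans hpa).trans C2_sa_le)).continuousAt
    have h2 : ContinuousAt (fun x : ℝ => Complex.exp (((C2_om * x : ℝ) : ℂ) * Complex.I)) x := by
      fun_prop
    have h3 : ContinuousAt G x := h2.mul h1
    exact (Complex.continuous_im.continuousAt.comp h3).continuousWithinAt
  obtain ⟨σ, hσ, hσ0⟩ := intermediate_value_Icc hmp hcont ⟨hneg, hpos⟩
  have hσ0' : (G σ).im = 0 := hσ0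
  have hσa : σ ≤ C2_sa := hσ.2.trans hpa
  have hρ : 0 < (G σ).re := by
    have h1 := abs_le.1 (hre σ hσa)
    have h2 : √2 / 2 ≤ cos (θ σ) := by
      rw [← Real.cos_pi_div_four, ← Real.cos_abs (θ σ)]
      refine Real.cos_le_cos_of_nonneg_of_le_pi (abs_nonneg _) (by linarith) ?_
      have h3 : θ σm ≤ θ σ := by
        simp only [hθ]
        have := mul_le_mul_of_nonneg_left hσ.1 hom.le
        linarith
      have h4 : θ σ ≤ θ σp := by
        simp only [hθ]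
        have := mul_le_mul_of_nonneg_left hσ.2 hom.le
        linarith
      rw [hθm] at h3
      rw [hθp] at h4
      rw [abs_le]
      constructor <;> linarith
    nlinarith [h1.1]
  set ρ := (G σ).re with hρdef
  have hGρ : G σ = (ρ : ℂ) := Complex.ext (by simp [hρdef]) (by simp [hσ0'])
  -- the amplitude is a positive multiple
  have hG2 : G σ = ((exp (3 / 2 * σ) : ℝ) : ℂ) * C2_z (U σ) (V σ) * c := by
    simp only [hG]
    unfold C2_Y
    rw [← mul_assoc, ← mul_assoc, ← Complex.exp_add]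
    congr 3
    rw [Complex.ofReal_exp]
    congr 1
    unfold C2_lam
    push_cast
    ring
  have hcz : c * C2_z u₀ w₀ = ((‖C2_z u₀ w₀‖ ^ 2 : ℝ) : ℂ) := by
    rw [hc, mul_comm, Complex.mul_conj, Complex.normSq_eq_norm_sq]
  have hfin : ((exp (3 / 2 * σ) * ‖C2_z u₀ w₀‖ ^ 2 : ℝ) : ℂ) * C2_z (U σ) (V σ) =
      (ρ : ℂ) * C2_z u₀ w₀ := by
    rw [← hGρ, hG2]
    push_cast
    push_cast at hcz
    rw [← hcz]
    ring
  set r := exp (3 / 2 * σ) * ‖C2_z u₀ w₀‖ ^ 2 / ρ with hr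
  have hrpos : 0 < r := by positivity
  have hfin2 : C2_z u₀ w₀ = (r : ℂ) * C2_z (U σ) (V σ) := by
    have hρ0 : (ρ : ℂ) ≠ 0 := by exact_mod_cast hρ.ne'
    rw [hr, Complex.ofReal_div, div_mul_eq_mul_div, hfin, mul_div_cancel_left₀ _ hρ0]
  have hreq := congrArg Complex.re hfin2
  have himq := congrArg Complex.im hfin2
  rw [Complex.re_ofReal_mul, C2_z_re, C2_z_re] at hreq
  rw [Complex.im_ofReal_mul, C2_z_im, C2_z_im] at himq
  have hu : u₀ = r * U σ := by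
    have h1 : C2_om * u₀ = C2_om * (r * U σ) := by rw [himq]; ring
    exact mul_left_cancel₀ hom.ne' h1
  refine ⟨σ, lt_of_le_of_lt hσ.2 (hpm.trans_le (min_le_left _ _)), hσa.trans C2_sa_le, r, hrpos,
    hu, ?_⟩
  rw [hu] at hreq
  linarith

end Pool.Agent.RS
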