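import Pool.Agent.Lib.MP_35abc2_gt.C1_Defs

/-! # C3: the tracking property, definitions (MP_35abc2_gt) -/

open scoped ContDiff Topology NNReal
open Set Filter Real

noncomputable section

namespace Pool.Agent.RS

/-- `𝒥(σ) = n(σ)(w U - u V)` -/
def JJ (U V : ℝ → ℝ) (u w : ℝ → ℝ) (σ : ℝ) : ℝ := nn σ * (w σ * U σ - u σ * V σ)

/-- The tracking property with constant `C'`. -/
structure TrackProp (U₁ V₁ U₂ V₂ : ℝ → ℝ) (C' : ℝ) : Prop where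
  pos : 0 < C'
  size : ∀ (u w : ℝ → ℝ) (σ : ℝ), σ ≤ sigS →
    |u σ| + |w σ| ≤ C' * exp (-(3 / 2) * σ) * max |JJ U₁ V₁ u w σ| |JJ U₂ V₂ u w σ|
  step : ∀ (a b : ℝ) (u w e Dl δ : ℝ → ℝ), a ≤ b → b ≤ sigS →
    (∀ σ ∈ Icc a b, HasDerivAt u (w σ) σ) →
    (∀ σ ∈ Icc a b, HasDerivAt w (-(3 - exp (2 * σ) / 2) * w σ - 6 * u σ + e σ) σ) →
    (∀ σ ∈ Icc a b, HasDerivAt Dl (δ σ) σ) → (∀ σ ∈ Icc a b, 0 ≤ δ σ) →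
    (∀ σ ∈ Icc a b, |e σ| ≤ 110 * δ σ * (|u σ| + |w σ|)) →
    max |JJ U₁ V₁ u w b - JJ U₁ V₁ u w a| |JJ U₂ V₂ u w b - JJ U₂ V₂ u w a| ≤
      (exp (C' * (Dl b - Dl a)) - 1) * max |JJ U₁ V₁ u w a| |JJ U₂ V₂ u w a|

end Pool.Agent.RS
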