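import Mathlib

/-! # T3: scalar comparison lemmas (MP_35abc2_gt) -/

open scoped ContDiff Topology NNReal
open Set Filter

noncomputable section

namespace Pool.Agent.RS

/-- Comparison for `y' = -a y + N`: if `|y| ≤ β` at the left end and at every point where `|y| = β` one has
`|N| < β' + a β`, then `|y| ≤ β`.

PROOF. Apply `image_norm_le_of_norm_deriv_right_lt_deriv_boundary'` to `e^{aσ} y` and `e^{aσ} β`. -/
theorem ode_compare (a σ₁ σ₂ : ℝ) (y N β β' : ℝ → ℝ)
    (hy : ∀ σ ∈ Icc σ₁ σ₂, HasDerivAt y (-a * y σ + N σ) σ)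
    (hβ : ∀ σ ∈ Icc σ₁ σ₂, HasDerivAt β (β' σ) σ) (h0 : |y σ₁| ≤ β σ₁)
    (hN : ∀ σ ∈ Ico σ₁ σ₂, |y σ| = β σ → |N σ| < β' σ + a * β σ) :
    ∀ σ ∈ Icc σ₁ σ₂, |y σ| ≤ β σ := by
  have hz : ∀ σ ∈ Icc σ₁ σ₂, HasDerivAt (fun σ => Real.exp (a * σ) * y σ) (Real.exp (a * σ) * N σ) σ := by
    intro σ hσ
    have h1 : HasDerivAt (fun σ => Real.exp (a * σ)) (Real.exp (a * σ) * a) σ := by
      have := ((hasDerivAt_id σ).const_mul a).exp
      simpa using this
    exact (h1.mul (hy σ hσ)).congr_deriv (by ring)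
  have hB : ∀ σ ∈ Icc σ₁ σ₂, HasDerivAt (fun σ => Real.exp (a * σ) * β σ)
      (Real.exp (a * σ) * (β' σ + a * β σ)) σ := by
    intro σ hσ
    have h1 : HasDerivAt (fun σ => Real.exp (a * σ)) (Real.exp (a * σ) * a) σ := by
      have := ((hasDerivAt_id σ).const_mul a).exp
      simpa using this
    exact (h1.mul (hβ σ hσ)).congr_deriv (by ring)
  have habs : ∀ σ t : ℝ, ‖Real.exp (a * σ) * t‖ = Real.exp (a * σ) * |t| := by
    intro σ t
    rw [Real.norm_eq_abs, abs_mul, abs_of_pos (Real.exp_pos _)]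
  have key := image_norm_le_of_norm_deriv_right_lt_deriv_boundary'
    (f := fun σ => Real.exp (a * σ) * y σ) (f' := fun σ => Real.exp (a * σ) * N σ)
    (a := σ₁) (b := σ₂) (B := fun σ => Real.exp (a * σ) * β σ)
    (B' := fun σ => Real.exp (a * σ) * (β' σ + a * β σ))
    (fun σ hσ => (hz σ hσ).continuousAt.continuousWithinAt)
    (fun σ hσ => (hz σ (Ico_subset_Icc_self hσ)).hasDerivWithinAt)
    (by
      show ‖Real.exp (a * σ₁) * y σ₁‖ ≤ Real.exp (a * σ₁) * β σ₁
      rw [habs]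
      exact mul_le_mul_of_nonneg_left h0 (Real.exp_pos _).le)
    (fun σ hσ => (hB σ hσ).continuousAt.continuousWithinAt)
    (fun σ hσ => (hB σ (Ico_subset_Icc_self hσ)).hasDerivWithinAt)
    (by
      intro σ hσ h
      replace h : ‖Real.exp (a * σ) * y σ‖ = Real.exp (a * σ) * β σ := h
      show ‖Real.exp (a * σ) * N σ‖ < Real.exp (a * σ) * (β' σ + a * β σ)
      rw [habs] at h ⊢
      have h' : |y σ| = β σ := mul_left_cancel₀ (Real.exp_pos _).ne' h
      exact mul_lt_mul_of_pos_left (hN σ hσ h') (Real.exp_pos _))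
  intro σ hσ
  have := key hσ
  replace this : ‖Real.exp (a * σ) * y σ‖ ≤ Real.exp (a * σ) * β σ := this
  rw [habs] at this
  exact le_of_mul_le_mul_left this (Real.exp_pos _)

/-- Two positive functions whose derivatives are nonnegative wherever both are positive stay positive
(and are bounded below by their initial values).

PROOF. Let `A` be the set of `t ∈ [a,b]` with `g₁ a ≤ g₁`, `g₂ a ≤ g₂` on `[a,t]`; it is closed, contains `a`; if
`t ∈ A`, `t < b`, then `g₁, g₂ > 0` near `t`, so both are monotone there and a right neighbourhood of `t` is in `A`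
(`IsClosed.Icc_subset_of_forall_exists_gt` or a sup argument). -/
theorem pos_persist (a b : ℝ) (g₁ g₂ g₁' g₂' : ℝ → ℝ) (h1 : ∀ t ∈ Icc a b, HasDerivAt g₁ (g₁' t) t)
    (h2 : ∀ t ∈ Icc a b, HasDerivAt g₂ (g₂' t) t) (h1a : 0 < g₁ a) (h2a : 0 < g₂ a)
    (h : ∀ t ∈ Icc a b, 0 < g₁ t → 0 < g₂ t → 0 ≤ g₁' t ∧ 0 ≤ g₂' t) :
    ∀ t ∈ Icc a b, g₁ a ≤ g₁ t ∧ g₂ a ≤ g₂ t := by
  have hc1 : ContinuousOn g₁ (Icc a b) := fun t ht => (h1 t ht).continuousAt.continuousWithinAt
  have hc2 : ContinuousOn g₂ (Icc a b) := fun t ht => (h2 t ht).continuousAt.continuousWithinAt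
  have hmono : ∀ c ∈ Icc a b, (∀ t ∈ Ioo a c, 0 < g₁ t ∧ 0 < g₂ t) → g₁ a ≤ g₁ c ∧ g₂ a ≤ g₂ c := by
    intro c hc hpos
    have hsub : Icc a c ⊆ Icc a b := Icc_subset_Icc_right hc.2
    have m1 : MonotoneOn g₁ (Icc a c) := by
      refine monotoneOn_of_deriv_nonneg (convex_Icc a c) (hc1.mono hsub) ?_ ?_
      · rw [interior_Icc]
        intro t ht
        exact (h1 t (hsub (Ioo_subset_Icc_self ht))).differentiableAt.differentiableWithinAt
      · rw [interior_Icc]
        intro t ht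
        rw [(h1 t (hsub (Ioo_subset_Icc_self ht))).deriv]
        exact (h t (hsub (Ioo_subset_Icc_self ht)) (hpos t ht).1 (hpos t ht).2).1
    have m2 : MonotoneOn g₂ (Icc a c) := by
      refine monotoneOn_of_deriv_nonneg (convex_Icc a c) (hc2.mono hsub) ?_ ?_
      · rw [interior_Icc]
        intro t ht
        exact (h2 t (hsub (Ioo_subset_Icc_self ht))).differentiableAt.differentiableWithinAt
      · rw [interior_Icc]
        intro t ht
        rw [(h2 t (hsub (Ioo_subset_Icc_self ht))).deriv]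
        exact (h t (hsub (Ioo_subset_Icc_self ht)) (hpos t ht).1 (hpos t ht).2).2
    exact ⟨m1 (left_mem_Icc.2 hc.1) (right_mem_Icc.2 hc.1) hc.1,
      m2 (left_mem_Icc.2 hc.1) (right_mem_Icc.2 hc.1) hc.1⟩
  have hall : ∀ t ∈ Icc a b, 0 < g₁ t ∧ 0 < g₂ t := by
    by_contra hcon
    push Not at hcon
    set Z : Set ℝ := {t ∈ Icc a b | min (g₁ t) (g₂ t) ≤ 0} with hZ
    have hZne : Z.Nonempty := by
      obtain ⟨t, ht, hh⟩ := hcon
      refine ⟨t, ht, ?_⟩
      by_cases h' : 0 < g₁ t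
      · exact (min_le_right _ _).trans (hh h')
      · exact (min_le_left _ _).trans (not_lt.1 h')
    have hZc : IsClosed Z := by
      have : ContinuousOn (fun t => min (g₁ t) (g₂ t)) (Icc a b) := hc1.inf hc2
      have := this.preimage_isClosed_of_isClosed isClosed_Icc (isClosed_Iic (a := (0:ℝ)))
      exact this
    have hZb : BddBelow Z := ⟨a, fun t ht => ht.1.1⟩
    have ht0 : sInf Z ∈ Z := hZc.csInf_mem hZne hZb
    have hlt : ∀ t ∈ Ioo a (sInf Z), 0 < g₁ t ∧ 0 < g₂ t := by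
      intro t ht
      by_contra hh
      have : t ∈ Z := by
        refine ⟨⟨ht.1.le, ht.2.le.trans ht0.1.2⟩, ?_⟩
        by_contra h3
        exact hh (lt_min_iff.1 (not_le.1 h3))
      exact absurd (csInf_le hZb this) (not_le.2 ht.2)
    obtain ⟨e1, e2⟩ := hmono _ ht0.1 hlt
    have := ht0.2
    rcases min_le_iff.1 this with h' | h'
    · linarith
    · linarith
  intro t ht
  exact hmono t ht (fun u hu => hall u ⟨hu.1.le, hu.2.le.trans ht.2⟩)

/-- Gronwall with an integrable rate `δ = Dl' ≥ 0`: `‖J'‖ ≤ c δ ‖J‖` implies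
`‖J t - J a‖ ≤ (exp (c (Dl t - Dl a)) - 1) ‖J a‖`.

PROOF. `Y = J - J a` satisfies `‖Y'‖ ≤ c δ (‖Y‖ + ‖J a‖)`; compare with
`B_ε(t) = (‖J a‖ + ε) (exp (c (Dl t - Dl a)) - 1) + ε exp(..)` ... or first show `‖J t‖ ≤ ‖J a‖ exp (c (Dl t - Dl a))` (the
function `exp (- 2 c Dl) ‖J‖²` in the real inner product case is not available in general normed spaces; use
`image_norm_le_of_norm_deriv_right_le_deriv_boundary`-type lemmas with the boundary
`B t = (‖J a‖ + ε) exp (c (Dl t - Dl a) + ε (t - a))` and let `ε → 0`), and then integrate: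
the boundary `B t = (exp (c (Dl t - Dl a)) - 1) ‖J a‖` has derivative `c δ exp(..) ‖J a‖ ≥ ‖J'‖`. -/
theorem gronwall_track {E : Type*} [NormedAddCommGroup E] [NormedSpace ℝ E] (a b c : ℝ) (hc : 0 ≤ c)
    (J J' : ℝ → E) (Dl δ : ℝ → ℝ) (hJ : ∀ t ∈ Icc a b, HasDerivAt J (J' t) t)
    (hD : ∀ t ∈ Icc a b, HasDerivAt Dl (δ t) t) (hδ : ∀ t ∈ Icc a b, 0 ≤ δ t)
    (hb : ∀ t ∈ Icc a b, ‖J' t‖ ≤ c * δ t * ‖J t‖) :
    ∀ t ∈ Icc a b, ‖J t - J a‖ ≤ (Real.exp (c * (Dl t - Dl a)) - 1) * ‖J a‖ := by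
  have hJc : ContinuousOn J (Icc a b) := fun t ht => (hJ t ht).continuousAt.continuousWithinAt
  have step : ∀ ε : ℝ, 0 < ε → ∀ t ∈ Icc a b,
      ‖J t‖ ≤ (‖J a‖ + ε) * Real.exp (c * (Dl t - Dl a) + ε * (t - a)) := by
    intro ε hε
    have hB : ∀ t ∈ Icc a b, HasDerivAt (fun t => (‖J a‖ + ε) * Real.exp (c * (Dl t - Dl a) + ε * (t - a)))
        ((‖J a‖ + ε) * (Real.exp (c * (Dl t - Dl a) + ε * (t - a)) * (c * δ t + ε))) t := by
      intro t ht
      have h1 : HasDerivAt (fun t => c * (Dl t - Dl a) + ε * (t - a)) (c * δ t + ε) t := by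
        have e1 := ((hD t ht).sub_const (Dl a)).const_mul c
        have e2 := ((hasDerivAt_id t).sub_const a).const_mul ε
        exact (e1.add e2).congr_deriv (by ring)
      exact h1.exp.const_mul _
    have key := image_norm_le_of_norm_deriv_right_lt_deriv_boundary'
      (f := J) (f' := J') (a := a) (b := b)
      (B := fun t => (‖J a‖ + ε) * Real.exp (c * (Dl t - Dl a) + ε * (t - a)))
      (B' := fun t => (‖J a‖ + ε) * (Real.exp (c * (Dl t - Dl a) + ε * (t - a)) * (c * δ t + ε)))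
      hJc (fun t ht => (hJ t (Ico_subset_Icc_self ht)).hasDerivWithinAt)
      (by
        show ‖J a‖ ≤ (‖J a‖ + ε) * Real.exp (c * (Dl a - Dl a) + ε * (a - a))
        simp only [sub_self, mul_zero, add_zero, Real.exp_zero, mul_one]
        linarith)
      (fun t ht => (hB t ht).continuousAt.continuousWithinAt)
      (fun t ht => (hB t (Ico_subset_Icc_self ht)).hasDerivWithinAt)
      (by
        intro t ht h
        replace h : ‖J t‖ = (‖J a‖ + ε) * Real.exp (c * (Dl t - Dl a) + ε * (t - a)) := h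
        show ‖J' t‖ < (‖J a‖ + ε) * (Real.exp (c * (Dl t - Dl a) + ε * (t - a)) * (c * δ t + ε))
        refine (hb t (Ico_subset_Icc_self ht)).trans_lt ?_
        rw [h]
        have hpos : 0 < (‖J a‖ + ε) * Real.exp (c * (Dl t - Dl a) + ε * (t - a)) :=
          mul_pos (by positivity) (Real.exp_pos _)
        nlinarith [mul_pos hpos hε])
    exact fun t ht => key ht
  have step2 : ∀ t ∈ Icc a b, ‖J t‖ ≤ ‖J a‖ * Real.exp (c * (Dl t - Dl a)) := by
    intro t ht
    have hlim : Tendsto (fun ε : ℝ => (‖J a‖ + ε) * Real.exp (c * (Dl t - Dl a) + ε * (t - a)))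
        (𝓝[>] 0) (𝓝 ((‖J a‖ + 0) * Real.exp (c * (Dl t - Dl a) + 0 * (t - a)))) := by
      have : Continuous (fun ε : ℝ => (‖J a‖ + ε) * Real.exp (c * (Dl t - Dl a) + ε * (t - a))) := by
        fun_prop
      exact this.continuousWithinAt.tendsto
    rw [add_zero, zero_mul, add_zero] at hlim
    refine ge_of_tendsto hlim ?_
    filter_upwards [self_mem_nhdsWithin] with ε hε
    exact step ε hε t ht
  have hB : ∀ t ∈ Icc a b, HasDerivAt (fun t => (Real.exp (c * (Dl t - Dl a)) - 1) * ‖J a‖)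
      ((Real.exp (c * (Dl t - Dl a)) * (c * δ t)) * ‖J a‖) t := by
    intro t ht
    have h1 : HasDerivAt (fun t => c * (Dl t - Dl a)) (c * δ t) t :=
      ((hD t ht).sub_const (Dl a)).const_mul c
    exact (h1.exp.sub_const 1).mul_const _
  have key := image_norm_le_of_norm_deriv_right_le_deriv_boundary'
      (f := fun t => J t - J a) (f' := J') (a := a) (b := b)
      (B := fun t => (Real.exp (c * (Dl t - Dl a)) - 1) * ‖J a‖)
      (B' := fun t => (Real.exp (c * (Dl t - Dl a)) * (c * δ t)) * ‖J a‖)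
      (hJc.sub continuousOn_const)
      (fun t ht => ((hJ t (Ico_subset_Icc_self ht)).sub_const (J a)).hasDerivWithinAt)
      (by simp)
      (fun t ht => (hB t ht).continuousAt.continuousWithinAt)
      (fun t ht => (hB t (Ico_subset_Icc_self ht)).hasDerivWithinAt)
      (by
        intro t ht
        show ‖J' t‖ ≤ (Real.exp (c * (Dl t - Dl a)) * (c * δ t)) * ‖J a‖
        have ht' := Ico_subset_Icc_self ht
        refine (hb t ht').trans ?_
        have h1 : c * δ t * ‖J t‖ ≤ c * δ t * (‖J a‖ * Real.exp (c * (Dl t - Dl a))) :=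
          mul_le_mul_of_nonneg_left (step2 t ht') (mul_nonneg hc (hδ t ht'))
        refine h1.trans (le_of_eq ?_)
        ring)
  exact fun t ht => key ht

end Pool.Agent.RS
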