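import Pool.Agent.Lib.MP_35abc2_gt.C3_Defs
import Pool.Agent.Lib.MP_35abc2_gt.T3_Compare

/-! # C3: tracking a perturbed solution with the reference solutions (MP_35abc2_gt) -/

open scoped ContDiff Topology NNReal
open Set Filter Real

noncomputable section

namespace Pool.Agent.RS

theorem c3t_nn_pos (σ : ℝ) : 0 < nn σ := exp_pos _

theorem c3t_nn_le (σ : ℝ) : nn σ * (exp (-(3 / 2) * σ) * exp (-(3 / 2) * σ)) ≤ 1 := by
  rw [nn, ← exp_add, ← exp_add]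
  refine exp_le_one_iff.2 ?_
  have := exp_pos (2 * σ)
  linarith

theorem c3t_nn_deriv (σ : ℝ) : HasDerivAt nn ((3 - exp (2 * σ) / 2) * nn σ) σ := by
  have h1 : HasDerivAt (fun s : ℝ => 3 * s - exp (2 * s) / 4) (3 * 1 - exp (2 * σ) * (2 * 1) / 4) σ :=
    ((hasDerivAt_id' σ).const_mul 3).sub ((((hasDerivAt_id' σ).const_mul 2).exp).div_const 4)
  have h2 := h1.exp
  have h3 : (exp (3 * σ - exp (2 * σ) / 4) * (3 * 1 - exp (2 * σ) * (2 * 1) / 4))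
      = (3 - exp (2 * σ) / 2) * nn σ := by
    rw [nn]; ring
  rw [← h3]
  exact h2

theorem c3t_JJ_deriv {U V : ℝ → ℝ} (hR : RefSol U V) {u w e : ℝ → ℝ} {σ : ℝ} (hσ : σ ≤ sigS)
    (hu : HasDerivAt u (w σ) σ)
    (hw : HasDerivAt w (-(3 - exp (2 * σ) / 2) * w σ - 6 * u σ + e σ) σ) :
    HasDerivAt (JJ U V u w) (nn σ * e σ * U σ) σ := by
  have h1 := (c3t_nn_deriv σ).mul ((hw.mul (hR.dU σ hσ)).sub (hu.mul (hR.dV σ hσ)))
  have h2 : ((3 - exp (2 * σ) / 2) * nn σ * ((w * U - u * V) σ)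
      + nn σ * ((-(3 - exp (2 * σ) / 2) * w σ - 6 * u σ + e σ) * U σ + w σ * V σ
        - (w σ * V σ + u σ * (-(3 - exp (2 * σ) / 2) * V σ - 6 * U σ))))
      = nn σ * e σ * U σ := by
    simp only [Pi.sub_apply, Pi.mul_apply]
    ring
  rw [← h2]
  exact h1

theorem c3t_size {U₁ V₁ U₂ V₂ : ℝ → ℝ} {C : ℝ} (hR : RefPair U₁ V₁ U₂ V₂ C) (u w : ℝ → ℝ) (σ : ℝ)
    (hσ : σ ≤ sigS) :
    |u σ| + |w σ| ≤ 2 * C / nn sigS * exp (-(3 / 2) * σ)
      * max |JJ U₁ V₁ u w σ| |JJ U₂ V₂ u w σ| := by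
  set J1 := JJ U₁ V₁ u w σ with hJ1
  set J2 := JJ U₂ V₂ u w σ with hJ2
  set M := max |J1| |J2| with hM
  have hn : 0 < nn sigS := c3t_nn_pos _
  have hwr := hR.wr σ hσ
  have ew : V₁ σ * J2 - V₂ σ * J1 = w σ * nn sigS := by
    rw [hJ1, hJ2, JJ, JJ, ← hwr]; ring
  have eu : U₁ σ * J2 - U₂ σ * J1 = u σ * nn sigS := by
    rw [hJ1, hJ2, JJ, JJ, ← hwr]; ring
  have m1 : |J1| ≤ M := le_max_left _ _
  have m2 : |J2| ≤ M := le_max_right _ _
  have hM0 : 0 ≤ M := (abs_nonneg _).trans m1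
  have bw : |w σ| * nn sigS ≤ (|V₁ σ| + |V₂ σ|) * M := by
    rw [← abs_of_pos hn, ← abs_mul, ← ew]
    refine (abs_sub _ _).trans ?_
    rw [abs_mul, abs_mul, add_mul]
    exact add_le_add (mul_le_mul_of_nonneg_left m2 (abs_nonneg _))
      (mul_le_mul_of_nonneg_left m1 (abs_nonneg _))
  have bu : |u σ| * nn sigS ≤ (|U₁ σ| + |U₂ σ|) * M := by
    rw [← abs_of_pos hn, ← abs_mul, ← eu]
    refine (abs_sub _ _).trans ?_
    rw [abs_mul, abs_mul, add_mul]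
    exact add_le_add (mul_le_mul_of_nonneg_left m2 (abs_nonneg _))
      (mul_le_mul_of_nonneg_left m1 (abs_nonneg _))
  have b1 := hR.b1 σ hσ
  have b2 := hR.b2 σ hσ
  have hsum : (|u σ| + |w σ|) * nn sigS ≤ (2 * C * exp (-(3 / 2) * σ)) * M := by
    have h1 : (|U₁ σ| + |V₁ σ| + (|U₂ σ| + |V₂ σ|)) * M ≤ (2 * C * exp (-(3 / 2) * σ)) * M :=
      mul_le_mul_of_nonneg_right (by linarith) hM0
    calc (|u σ| + |w σ|) * nn sigS = |u σ| * nn sigS + |w σ| * nn sigS := by ring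
      _ ≤ (|U₁ σ| + |U₂ σ|) * M + (|V₁ σ| + |V₂ σ|) * M := add_le_add bu bw
      _ = (|U₁ σ| + |V₁ σ| + (|U₂ σ| + |V₂ σ|)) * M := by ring
      _ ≤ _ := h1
  have h3 : |u σ| + |w σ| ≤ ((2 * C * exp (-(3 / 2) * σ)) * M) / nn sigS :=
    (le_div_iff₀ hn).2 hsum
  refine h3.trans (le_of_eq ?_)
  ring

theorem c3t_monotone {a b : ℝ} {Dl δ : ℝ → ℝ} (hab : a ≤ b)
    (hD : ∀ σ ∈ Icc a b, HasDerivAt Dl (δ σ) σ) (hδ : ∀ σ ∈ Icc a b, 0 ≤ δ σ) : Dl a ≤ Dl b := by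
  have hm : MonotoneOn Dl (Icc a b) := by
    refine monotoneOn_of_deriv_nonneg (convex_Icc a b)
      (fun t ht => (hD t ht).continuousAt.continuousWithinAt) ?_ ?_
    · intro t ht
      rw [interior_Icc] at ht
      exact (hD t (Ioo_subset_Icc_self ht)).differentiableAt.differentiableWithinAt
    · intro t ht
      rw [interior_Icc] at ht
      rw [(hD t (Ioo_subset_Icc_self ht)).deriv]
      exact hδ t (Ioo_subset_Icc_self ht)
  exact hm (left_mem_Icc.2 hab) (right_mem_Icc.2 hab) hab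

theorem c3t_step {U₁ V₁ U₂ V₂ : ℝ → ℝ} {C : ℝ} (hR : RefPair U₁ V₁ U₂ V₂ C) (a b : ℝ)
    (u w e Dl δ : ℝ → ℝ) (hab : a ≤ b) (hb : b ≤ sigS)
    (hu : ∀ σ ∈ Icc a b, HasDerivAt u (w σ) σ)
    (hw : ∀ σ ∈ Icc a b, HasDerivAt w (-(3 - exp (2 * σ) / 2) * w σ - 6 * u σ + e σ) σ)
    (hD : ∀ σ ∈ Icc a b, HasDerivAt Dl (δ σ) σ) (hδ : ∀ σ ∈ Icc a b, 0 ≤ δ σ)
    (he : ∀ σ ∈ Icc a b, |e σ| ≤ 110 * δ σ * (|u σ| + |w σ|)) :
    max |JJ U₁ V₁ u w b - JJ U₁ V₁ u w a| |JJ U₂ V₂ u w b - JJ U₂ V₂ u w a| ≤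
      (exp (220 * C ^ 2 / nn sigS * (Dl b - Dl a)) - 1)
        * max |JJ U₁ V₁ u w a| |JJ U₂ V₂ u w a| := by
  have hn : 0 < nn sigS := c3t_nn_pos _
  have hC := hR.hC
  have key := gronwall_track (E := ℝ × ℝ) a b (220 * C ^ 2 / nn sigS) (by positivity)
    (fun t => (JJ U₁ V₁ u w t, JJ U₂ V₂ u w t))
    (fun t => (nn t * e t * U₁ t, nn t * e t * U₂ t)) Dl δ
    (fun t ht => (c3t_JJ_deriv hR.r1 (ht.2.trans hb) (hu t ht) (hw t ht)).prodMk
      (c3t_JJ_deriv hR.r2 (ht.2.trans hb) (hu t ht) (hw t ht))) hD hδ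
    (by
      intro t ht
      have hts : t ≤ sigS := ht.2.trans hb
      have hsz := c3t_size hR u w t hts
      have het := he t ht
      have hδt := hδ t ht
      have hnt := c3t_nn_pos t
      have hE : 0 < exp (-(3 / 2) * t) := exp_pos _
      set E := exp (-(3 / 2) * t) with hEdef
      set M := max |JJ U₁ V₁ u w t| |JJ U₂ V₂ u w t| with hM
      have hM0 : 0 ≤ M := (abs_nonneg _).trans (le_max_left _ _)
      have hnorm : ‖((JJ U₁ V₁ u w t, JJ U₂ V₂ u w t) : ℝ × ℝ)‖ = M := by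
        rw [Prod.norm_def]
        rfl
      have hU1 : |U₁ t| ≤ C * E := (le_add_of_nonneg_right (abs_nonneg _)).trans (hR.b1 t hts)
      have hU2 : |U₂ t| ≤ C * E := (le_add_of_nonneg_right (abs_nonneg _)).trans (hR.b2 t hts)
      have hnE := c3t_nn_le t
      have hbound : ∀ Uv : ℝ, |Uv| ≤ C * E →
          |nn t * e t * Uv| ≤ 220 * C ^ 2 / nn sigS * δ t * M := by
        intro Uv hUv
        rw [abs_mul, abs_mul, abs_of_pos hnt]
        have h1 : nn t * |e t| * |Uv| ≤ nn t * (110 * δ t * (2 * C / nn sigS * E * M)) * (C * E) := by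
          refine mul_le_mul (mul_le_mul_of_nonneg_left (het.trans ?_) hnt.le) hUv (abs_nonneg _) ?_
          · exact mul_le_mul_of_nonneg_left hsz (by positivity)
          · positivity
        have h2 : nn t * (110 * δ t * (2 * C / nn sigS * E * M)) * (C * E)
            = (nn t * (E * E)) * (220 * C ^ 2 / nn sigS * δ t * M) := by ring
        rw [h2] at h1
        refine h1.trans ?_
        exact mul_le_of_le_one_left (by positivity) hnE
      rw [hnorm, Prod.norm_def]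
      exact max_le (hbound _ hU1) (hbound _ hU2))
    b (right_mem_Icc.2 hab)
  simpa only [Prod.norm_def, Prod.fst_sub, Prod.snd_sub, Prod.mk_sub_mk, Real.norm_eq_abs] using key

/-- C3. There is a constant `C'` (depending only on the reference pair) with the tracking property.

PROOF. `𝒥_i' = n e U_i` (the linear terms cancel, `n' = (3 - s/2) n`).  From `nn σ (V₁U₂ - U₁V₂) = n_*`:
`w = (V₁ 𝒥₂ - V₂ 𝒥₁)/n_*`, `u = (U₁ 𝒥₂ - U₂ 𝒥₁)/n_*`, so `|u| + |w| ≤ (2C/n_*) e^{-(3/2)σ} ‖𝒥‖` (sup norm) and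
`|𝒥_i'| ≤ n · 110 δ · (2C/n_*) e^{-(3/2)σ} ‖𝒥‖ · C e^{-(3/2)σ} ≤ (220 C²/n_*) δ ‖𝒥‖` (`n ≤ e^{3σ}`).  Apply `gronwall_track`
with `E = ℝ × ℝ`.  `C' = 220 C²/n_* + 2C/n_*`. -/
theorem track (U₁ V₁ U₂ V₂ : ℝ → ℝ) (C : ℝ) (hR : RefPair U₁ V₁ U₂ V₂ C) :
    ∃ C' : ℝ, TrackProp U₁ V₁ U₂ V₂ C' := by
  have hn : 0 < nn sigS := c3t_nn_pos _
  have hC := hR.hC
  refine ⟨220 * C ^ 2 / nn sigS + 2 * C / nn sigS, ?_, ?_, ?_⟩
  · positivity
  · intro u w σ hσ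
    refine (c3t_size hR u w σ hσ).trans ?_
    refine mul_le_mul_of_nonneg_right ?_ ((abs_nonneg _).trans (le_max_left _ _))
    refine mul_le_mul_of_nonneg_right ?_ (exp_pos _).le
    have : 0 ≤ 220 * C ^ 2 / nn sigS := by positivity
    linarith
  · intro a b u w e Dl δ hab hb hu hw hD hδ he
    refine (c3t_step hR a b u w e Dl δ hab hb hu hw hD hδ he).trans ?_
    refine mul_le_mul_of_nonneg_right ?_ ((abs_nonneg _).trans (le_max_left _ _))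
    have hm := c3t_monotone hab hD hδ
    have h0 : 0 ≤ 2 * C / nn sigS := by positivity
    have : 220 * C ^ 2 / nn sigS * (Dl b - Dl a)
        ≤ (220 * C ^ 2 / nn sigS + 2 * C / nn sigS) * (Dl b - Dl a) :=
      mul_le_mul_of_nonneg_right (by linarith) (by linarith)
    linarith [exp_le_exp.2 this]

end Pool.Agent.RS
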