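import Pool.Agent.Lib.MP_35abc2_gt.Sys

/-! # D0: the clamped fields are globally Lipschitz (MP_35abc2_gt) -/

open scoped ContDiff Topology NNReal
open Set Filter Real

noncomputable section

namespace Pool.Agent.RS

/-- linear part of `F2` -/
def D0_A : (Fin 7 → ℝ) →ₗ[ℝ] (Fin 7 → ℝ) where
  toFun v := ![2 * v 0, v 2, -3 * v 2 - 6 * v 1, -6 * v 3, -5 * v 4, 0, 0]
  map_add' v w := by
    funext i
    fin_cases i <;> simp <;> ring
  map_smul' c v := by
    funext i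
    fin_cases i <;> simp <;> ring

/-- nonlinear part of `F2` -/
def D0_G (x : Fin 7 → ℝ) : Fin 7 → ℝ :=
  ![0, 0, e2 (x 0) (x 1) (x 2) (x 3), Np (x 0) (x 1) (x 3) (x 4),
    3 * x 6 + Nφ (x 0) (x 3) (x 4) (x 5) (x 6), Nγ (x 0) (x 3) (x 4), 0]

lemma D0_contDiff : ContDiffOn ℝ 1 D0_G {x : Fin 7 → ℝ | -1 < x 3} := by
  have hne : ∀ x ∈ {x : Fin 7 → ℝ | -1 < x 3}, 1 + x 3 ≠ 0 := fun x hx => by
    have : -1 < x 3 := hx
    linarith
  have hc : ∀ i : Fin 7, ContDiffOn ℝ 1 (fun x : Fin 7 → ℝ => x i) {x : Fin 7 → ℝ | -1 < x 3} :=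
    fun i => (contDiff_apply ℝ ℝ i).contDiffOn
  have h1 : ContDiffOn ℝ 1 (fun x : Fin 7 → ℝ => 1 + x 3) {x : Fin 7 → ℝ | -1 < x 3} :=
    contDiffOn_const.add (hc 3)
  have hcosh : ContDiffOn ℝ 1 (fun x : Fin 7 → ℝ => cosh (x 1)) {x : Fin 7 → ℝ | -1 < x 3} :=
    Real.contDiff_cosh.comp_contDiffOn (hc 1)
  have hsinh : ContDiffOn ℝ 1 (fun x : Fin 7 → ℝ => sinh (x 1)) {x : Fin 7 → ℝ | -1 < x 3} :=
    Real.contDiff_sinh.comp_contDiffOn (hc 1)
  rw [contDiffOn_pi]
  intro i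
  fin_cases i
  · exact contDiffOn_const
  · exact contDiffOn_const
  · show ContDiffOn ℝ 1 (fun x : Fin 7 → ℝ => e2 (x 0) (x 1) (x 2) (x 3)) _
    unfold e2
    have h2 : ∀ x ∈ {x : Fin 7 → ℝ | -1 < x 3}, (1 + x 3) ^ 2 ≠ 0 := fun x hx =>
      pow_ne_zero 2 (hne x hx)
    refine ContDiffOn.sub (ContDiffOn.mul (ContDiffOn.div ?_ (h1.pow 2) h2) (hc 2))
      (ContDiffOn.div ?_ (h1.pow 2) h2)
    · exact ((((contDiffOn_const.mul (hcosh.sub contDiffOn_const)).sub
        ((hc 0).div_const 2)).sub (contDiffOn_const.mul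
          ((contDiffOn_const.mul (hc 3)).add ((hc 3).pow 2))))).neg
    · exact contDiffOn_const.mul ((hsinh.sub (hc 1)).sub
        (((contDiffOn_const.mul (hc 3)).add ((hc 3).pow 2)).mul (hc 1)))
  · show ContDiffOn ℝ 1 (fun x : Fin 7 → ℝ => Np (x 0) (x 1) (x 3) (x 4)) _
    unfold Np
    refine ((((((hc 0).div_const 2).mul (hc 3)).div h1 hne).add ((hc 0).mul (hc 4))).add
      ((contDiffOn_const.mul ((hc 3).pow 2)).div h1 hne)).add
      ((contDiffOn_const.mul (hcosh.sub contDiffOn_const)).div h1 hne)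
  · show ContDiffOn ℝ 1 (fun x : Fin 7 → ℝ => 3 * x 6 + Nφ (x 0) (x 3) (x 4) (x 5) (x 6)) _
    unfold Nφ
    refine (contDiffOn_const.mul (hc 6)).add ((((contDiffOn_const.mul (hc 3)).div h1 hne).sub
      (((contDiffOn_const.mul (hc 6)).mul (hc 3)).div h1 hne)).add
      ((((hc 5).neg.add ((hc 0).mul (hc 4))).add ((hc 0).mul ((hc 4).pow 2))).div h1 hne))
  · show ContDiffOn ℝ 1 (fun x : Fin 7 → ℝ => Nγ (x 0) (x 3) (x 4)) _
    unfold Nγ
    exact (((hc 0).mul (hc 4)).sub (((hc 0).div_const 2).mul (hc 3))).div h1 hne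
  · exact contDiffOn_const

/-- D0a. PROOF. `F2 k v = A v + G (clampV lo hi v)` with `A` linear and `G` smooth on `{v | -1 < v 3}` (here
`lo = (0,-1/20,-1/20,-k/20,-k,-k/20,-k)`, `hi = (1/100,1/20,1/20,k/20,k,k/20,k)`); `lip_clamp`. -/
theorem F2_lip (k : ℝ) (hk : 0 < k) (hk' : k ≤ 1 / 100) : ∃ L : ℝ≥0, LipschitzWith L (F2 k) := by
  set lo : Fin 7 → ℝ := ![0, -(1 / 20), -(1 / 20), -(k / 20), -k, -(k / 20), -k] with hlo
  set hi : Fin 7 → ℝ := ![1 / 100, 1 / 20, 1 / 20, k / 20, k, k / 20, k] with hhi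
  have hle : lo ≤ hi := by
    intro i
    rw [hlo, hhi]
    fin_cases i <;> simp <;> linarith
  have hopen : IsOpen {x : Fin 7 → ℝ | -1 < x 3} :=
    isOpen_lt continuous_const (continuous_apply 3)
  have hsub : Icc lo hi ⊆ {x : Fin 7 → ℝ | -1 < x 3} := by
    intro x hx
    have h1 := hx.1 3
    have h2 : lo 3 = -(k / 20) := rfl
    rw [h2] at h1
    show -1 < x 3
    linarith
  obtain ⟨L, hL⟩ := lip_clamp lo hi hle D0_G _ hopen hsub D0_contDiff
  refine ⟨‖LinearMap.toContinuousLinearMap D0_A‖₊ + L, ?_⟩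
  have h1 : F2 k = fun v => D0_A v + D0_G (clampV lo hi v) := by
    funext v i
    have e0 : clampV lo hi v 0 = max 0 (min (1 / 100) (v 0)) := rfl
    have e1 : clampV lo hi v 1 = cl (1 / 20) (v 1) := rfl
    have e2' : clampV lo hi v 2 = cl (1 / 20) (v 2) := rfl
    have e3 : clampV lo hi v 3 = cl (k / 20) (v 3) := rfl
    have e4 : clampV lo hi v 4 = cl k (v 4) := rfl
    have e5 : clampV lo hi v 5 = cl (k / 20) (v 5) := rfl
    have e6 : clampV lo hi v 6 = cl k (v 6) := rfl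
    show F2 k v i = D0_A v i + D0_G (clampV lo hi v) i
    unfold D0_G
    rw [e0, e1, e2', e3, e4, e5, e6]
    unfold F2
    fin_cases i <;> simp [D0_A] <;> ring
  rw [h1]
  exact (LinearMap.toContinuousLinearMap D0_A).lipschitz.add hL

/-- linear part of `F3` -/
def D0_B : (Fin 4 → ℝ) →ₗ[ℝ] (Fin 4 → ℝ) where
  toFun v := ![0, v 1 / 4, 0, v 3 / 4]
  map_add' v w := by
    funext i
    fin_cases i <;> simp <;> ring
  map_smul' c v := by
    funext i
    fin_cases i <;> simp <;> ring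

/-- nonlinear part of `F3` -/
def D0_H (x : Fin 5 → ℝ) : Fin 4 → ℝ :=
  ![x 1 * x 4 ^ 2 / 2, rW (x 4) (x 0) (x 1) (x 2), x 3 * x 4 ^ 2, rD (x 4) (x 0) (x 1) (x 2) (x 3)]

lemma D0_contDiff' : ContDiffOn ℝ 1 D0_H {x : Fin 5 → ℝ | -1 < x 2} := by
  have hne : ∀ x ∈ {x : Fin 5 → ℝ | -1 < x 2}, 1 + x 2 ≠ 0 := fun x hx => by
    have : -1 < x 2 := hx
    linarith
  have hne2 : ∀ x ∈ {x : Fin 5 → ℝ | -1 < x 2}, 2 * (1 + x 2) ≠ 0 := fun x hx =>
    mul_ne_zero two_ne_zero (hne x hx)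
  have hc : ∀ i : Fin 5, ContDiffOn ℝ 1 (fun x : Fin 5 → ℝ => x i) {x : Fin 5 → ℝ | -1 < x 2} :=
    fun i => (contDiff_apply ℝ ℝ i).contDiffOn
  have h1 : ContDiffOn ℝ 1 (fun x : Fin 5 → ℝ => 1 + x 2) {x : Fin 5 → ℝ | -1 < x 2} :=
    contDiffOn_const.add (hc 2)
  have h2 : ContDiffOn ℝ 1 (fun x : Fin 5 → ℝ => 2 * (1 + x 2)) {x : Fin 5 → ℝ | -1 < x 2} :=
    contDiffOn_const.mul h1
  have hcosh : ContDiffOn ℝ 1 (fun x : Fin 5 → ℝ => cosh (x 0)) {x : Fin 5 → ℝ | -1 < x 2} :=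
    Real.contDiff_cosh.comp_contDiffOn (hc 0)
  have hsinh : ContDiffOn ℝ 1 (fun x : Fin 5 → ℝ => sinh (x 0)) {x : Fin 5 → ℝ | -1 < x 2} :=
    Real.contDiff_sinh.comp_contDiffOn (hc 0)
  rw [contDiffOn_pi]
  intro i
  fin_cases i
  · exact ((hc 1).mul ((hc 4).pow 2)).div_const 2
  · show ContDiffOn ℝ 1 (fun x : Fin 5 → ℝ => rW (x 4) (x 0) (x 1) (x 2)) _
    unfold rW
    exact ((((contDiffOn_const.mul ((contDiffOn_const.div h1 hne).sub contDiffOn_const)).mul
      (hc 1)).add ((hc 1).mul (hc 4))).sub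
      ((((contDiffOn_const.mul hcosh).div h2 hne2).mul (hc 1)).mul (hc 4))).sub
      ((contDiffOn_const.mul hsinh).div h1 hne)
  · exact (hc 3).mul ((hc 4).pow 2)
  · show ContDiffOn ℝ 1 (fun x : Fin 5 → ℝ => rD (x 4) (x 0) (x 1) (x 2) (x 3)) _
    unfold rD
    exact ((((((((contDiffOn_const.mul ((contDiffOn_const.div h1 hne).sub contDiffOn_const)).mul
      (hc 3)).add ((contDiffOn_const.mul (hc 3)).mul (hc 4))).add
      ((((hc 3).pow 2).mul ((hc 4).pow 2)).div h2 hne2)).add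
      (contDiffOn_const.mul ((hc 2).sub (hcosh.sub contDiffOn_const)))).add
      (((contDiffOn_const.mul h1).mul ((hc 1).pow 2)).mul ((hc 4).pow 2))).add
      (((contDiffOn_const.mul (hc 1)).mul (hc 4)).mul hsinh)).sub
      ((((contDiffOn_const.mul hcosh).div h2 hne2).mul (hc 3)).mul (hc 4)))

lemma D0_sig (s : ℝ) : 0 ≤ sig s ∧ sig s ≤ 100 := by
  unfold sig
  have h1 : (1 / 100 : ℝ) ≤ max s (1 / 100) := le_max_right _ _
  have h2 : (0 : ℝ) < max s (1 / 100) := lt_of_lt_of_le (by norm_num) h1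
  refine ⟨by positivity, ?_⟩
  rw [div_le_iff₀ h2]
  linarith

lemma D0_sig_cont : Continuous sig := by
  unfold sig
  refine continuous_const.div (continuous_id.max continuous_const) fun s => ?_
  have h1 : (1 / 100 : ℝ) ≤ max s (1 / 100) := le_max_right _ _
  exact (lt_of_lt_of_le (by norm_num) h1).ne'

/-- D0b. PROOF. Same; here `sig s ∈ (0,100]` is treated as an additional clamped coordinate (box `[0,100]`), so that the constant
is uniform in `s`.  Continuity in `s`: `sig` is continuous. -/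
theorem F3_lip (εu εq : ℝ) (hu : 0 < εu) (hu' : 20 * εu ≤ 1 / 100) (hq : 0 < εq) (hq' : 8 * εq ≤ 1 / 100) :
    (∃ L : ℝ≥0, ∀ s, LipschitzWith L (F3 εu εq s)) ∧ ∀ v, Continuous (fun s => F3 εu εq s v) := by
  set lo : Fin 5 → ℝ := ![-εu, -(20 * εu), -εq, -(8 * εq), 0] with hlo
  set hi : Fin 5 → ℝ := ![εu, 20 * εu, εq, 8 * εq, 100] with hhi
  have hle : lo ≤ hi := by
    intro i
    rw [hlo, hhi]
    fin_cases i <;> simp <;> linarith
  have hopen : IsOpen {x : Fin 5 → ℝ | -1 < x 2} :=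
    isOpen_lt continuous_const (continuous_apply 2)
  have hsub : Icc lo hi ⊆ {x : Fin 5 → ℝ | -1 < x 2} := by
    intro x hx
    have h1 := hx.1 2
    have h2 : lo 2 = -εq := rfl
    rw [h2] at h1
    show -1 < x 2
    linarith
  have hF : ∀ s v, F3 εu εq s v = D0_B v + D0_H (clampV lo hi ![v 0, v 1, v 2, v 3, sig s]) := by
    intro s v
    have e0 : clampV lo hi ![v 0, v 1, v 2, v 3, sig s] 0 = cl εu (v 0) := rfl
    have e1 : clampV lo hi ![v 0, v 1, v 2, v 3, sig s] 1 = cl (20 * εu) (v 1) := rfl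
    have e2' : clampV lo hi ![v 0, v 1, v 2, v 3, sig s] 2 = cl εq (v 2) := rfl
    have e3 : clampV lo hi ![v 0, v 1, v 2, v 3, sig s] 3 = cl (8 * εq) (v 3) := rfl
    have e4 : clampV lo hi ![v 0, v 1, v 2, v 3, sig s] 4 = sig s := by
      have h1 : clampV lo hi ![v 0, v 1, v 2, v 3, sig s] 4 = max 0 (min 100 (sig s)) := rfl
      rw [h1, min_eq_right (D0_sig s).2, max_eq_right (D0_sig s).1]
    funext i
    show F3 εu εq s v i = D0_B v i + D0_H (clampV lo hi ![v 0, v 1, v 2, v 3, sig s]) i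
    unfold D0_H
    rw [e0, e1, e2', e3, e4]
    unfold F3
    fin_cases i <;> simp [D0_B]
  constructor
  · obtain ⟨L, hL⟩ := lip_clamp lo hi hle D0_H _ hopen hsub D0_contDiff'
    refine ⟨‖LinearMap.toContinuousLinearMap D0_B‖₊ + L, fun s => ?_⟩
    have h1 : F3 εu εq s = fun v => D0_B v + D0_H (clampV lo hi ![v 0, v 1, v 2, v 3, sig s]) :=
      funext (hF s)
    rw [h1]
    refine (LinearMap.toContinuousLinearMap D0_B).lipschitz.add ?_
    have h2 : LipschitzWith 1 fun v : Fin 4 → ℝ => (![v 0, v 1, v 2, v 3, sig s] : Fin 5 → ℝ) := by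
      refine LipschitzWith.of_dist_le_mul fun v w => ?_
      rw [NNReal.coe_one, one_mul, dist_pi_le_iff dist_nonneg]
      intro i
      fin_cases i
      · exact dist_le_pi_dist v w 0
      · exact dist_le_pi_dist v w 1
      · exact dist_le_pi_dist v w 2
      · exact dist_le_pi_dist v w 3
      · show dist (sig s) (sig s) ≤ _
        rw [dist_self]
        exact dist_nonneg
    have h3 := hL.comp h2
    rw [mul_one] at h3
    exact h3
  · intro v
    have h1 : (fun s => F3 εu εq s v) =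
        fun s => D0_B v + D0_H (clampV lo hi ![v 0, v 1, v 2, v 3, sig s]) :=
      funext fun s => hF s v
    rw [h1]
    refine continuous_const.add ?_
    have h2 : Continuous fun s : ℝ => clampV lo hi ![v 0, v 1, v 2, v 3, sig s] := by
      refine continuous_pi fun i => ?_
      unfold clampV
      refine continuous_const.max (continuous_const.min ?_)
      fin_cases i
      · exact continuous_const
      · exact continuous_const
      · exact continuous_const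
      · exact continuous_const
      · exact D0_sig_cont
    refine D0_contDiff'.continuousOn.comp_continuous h2 fun s => hsub (clampV_mem hle _)

end Pool.Agent.RS
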