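import Pool.Agent.Lib.MP_35abc2_gt.Sys
import Pool.Agent.Lib.MP_35abc2_gt.C1_Defs

/-! # D1: hypotheses near the cone (MP_35abc2_gt) -/

open scoped ContDiff Topology NNReal
open Set Filter Real

noncomputable section

namespace Pool.Agent.RS

/-- Hypotheses on a solution of the clamped near-cone system on `[a,b]`. -/
structure NearHyp (k η a b : ℝ) (v : ℝ → Fin 7 → ℝ) : Prop where
  hk : 0 < k
  hk' : k ≤ 1 / 100
  hη : 0 < η
  hη' : η ≤ 1 / 100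
  hab : a ≤ b
  ode : ∀ t ∈ Icc a b, HasDerivAt v (F2 k (v t)) t
  s0 : 0 < v a 0
  s1 : v a 0 ≤ η * k
  s2 : v a 0 * exp (2 * (b - a)) ≤ 1 / 100
  z0 : zz (v a 1) (v a 2) ≤ η * k
  p0 : |v a 3| ≤ η * k
  f0 : |v a 4 - 3 * v a 6 / 5| ≤ η * k
  g0 : |v a 5| ≤ η * k
  k0 : |v a 6| ≤ k

end Pool.Agent.RS
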