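import Pool.Agent.Lib.MP_35abc2_gt.D1_Defs
import Pool.Agent.Lib.MP_35abc2_gt.T3_Compare

/-! # D1a: the z-estimate near the cone (MP_35abc2_gt) -/

open scoped ContDiff Topology NNReal
open Set Filter Real

noncomputable section

namespace Pool.Agent.RS

theorem D1a_cosh {x : ℝ} (hx : |x| ≤ 1 / 20) : |cosh x - 1| ≤ 1 / 400 := by
  have h1 := Real.abs_exp_sub_one_sub_id_le (x := x) (by linarith)
  have h2 := Real.abs_exp_sub_one_sub_id_le (x := -x) (by rw [abs_neg]; linarith)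
  have h3 : x ^ 2 ≤ 1 / 400 := by
    rw [← sq_abs]
    have := abs_nonneg x
    nlinarith
  have h4 : cosh x - 1 = ((exp x - 1 - x) + (exp (-x) - 1 - -x)) / 2 := by
    rw [Real.cosh_eq]; ring
  rw [h4, abs_div, abs_two, div_le_iff₀ (by norm_num)]
  have h5 := abs_add_le (exp x - 1 - x) (exp (-x) - 1 - -x)
  have h6 : (-x) ^ 2 = x ^ 2 := by ring
  rw [h6] at h2
  linarith

theorem D1a_sinh {x : ℝ} (hx : |x| ≤ 1 / 20) : |sinh x - x| ≤ 1 / 20 * |x| := by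
  have h1 := Real.abs_exp_sub_one_sub_id_le (x := x) (by linarith)
  have h2 := Real.abs_exp_sub_one_sub_id_le (x := -x) (by rw [abs_neg]; linarith)
  have h3 : x ^ 2 ≤ 1 / 20 * |x| := by
    rw [← sq_abs]
    have := abs_nonneg x
    nlinarith
  have h4 : sinh x - x = ((exp x - 1 - x) - (exp (-x) - 1 - -x)) / 2 := by
    rw [Real.sinh_eq]; ring
  rw [h4, abs_div, abs_two, div_le_iff₀ (by norm_num)]
  have h5 := abs_sub (exp x - 1 - x) (exp (-x) - 1 - -x)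
  have h6 : (-x) ^ 2 = x ^ 2 := by ring
  rw [h6] at h2
  linarith

theorem D1a_e2_bound {s u w p : ℝ} (hs0 : 0 ≤ s) (hs : s ≤ 1 / 100) (hu : |u| ≤ 1 / 20)
    (hp : |p| ≤ 1 / 2000) : |e2 s u w p| ≤ 1 / 10 * |w| + 1 / 3 * |u| := by
  have hc := D1a_cosh hu
  have hsn := D1a_sinh hu
  have hp' := abs_le.1 hp
  have hD : 99 / 100 ≤ (1 + p) ^ 2 := by nlinarith [hp'.1]
  have hD0 : 0 < (1 + p) ^ 2 := by linarith
  have hq : |2 * p + p ^ 2| ≤ 1 / 900 := by
    rw [abs_le]; constructor <;> nlinarith [hp'.1, hp'.2]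
  have hq' := abs_le.1 hq
  have hc' := abs_le.1 hc
  have hN1 : |3 * (cosh u - 1) - s / 2 - 3 * (2 * p + p ^ 2)| ≤ 1 / 50 := by
    rw [abs_le]; constructor <;> linarith [hc'.1, hc'.2, hq'.1, hq'.2]
  have hN2 : |(sinh u - u) - (2 * p + p ^ 2) * u| ≤ 52 / 1000 * |u| := by
    have h1 := abs_sub (sinh u - u) ((2 * p + p ^ 2) * u)
    rw [abs_mul] at h1
    have h2 : |2 * p + p ^ 2| * |u| ≤ 1 / 900 * |u| := mul_le_mul_of_nonneg_right hq (abs_nonneg u)
    have h3 := abs_nonneg u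
    linarith
  have hA : |-(3 * (cosh u - 1) - s / 2 - 3 * (2 * p + p ^ 2)) / (1 + p) ^ 2 * w| ≤ 1 / 10 * |w| := by
    rw [abs_mul, abs_div, abs_neg, abs_of_pos hD0]
    refine mul_le_mul_of_nonneg_right ?_ (abs_nonneg w)
    rw [div_le_iff₀ hD0]
    linarith
  have hB : |6 * ((sinh u - u) - (2 * p + p ^ 2) * u) / (1 + p) ^ 2| ≤ 1 / 3 * |u| := by
    rw [abs_div, abs_mul, abs_of_pos hD0, abs_of_pos (by norm_num : (0 : ℝ) < 6), div_le_iff₀ hD0]
    have h3 := abs_nonneg u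
    nlinarith
  unfold e2
  refine (abs_sub _ _).trans ?_
  linarith

theorem D1a_wsq (u w : ℝ) : w ^ 2 ≤ 8 / 5 * zz u w := by
  unfold zz; nlinarith [sq_nonneg (w + 4 * u)]

theorem D1a_usq (u w : ℝ) : u ^ 2 ≤ 4 / 15 * zz u w := by
  unfold zz; nlinarith [sq_nonneg (w + 3 / 2 * u)]

theorem D1a_mix {u w E : ℝ} (hE : |E| ≤ 1 / 10 * |w| + 1 / 3 * |u|) :
    2 * (w + 3 / 2 * u) * E ≤ zz u w := by
  have hw := D1a_wsq u w
  have hu := D1a_usq u w
  have hx : (w + 3 / 2 * u) ^ 2 ≤ zz u w := by unfold zz; nlinarith [sq_nonneg u]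
  have hz : 0 ≤ zz u w := le_trans (sq_nonneg _) hx
  have hE2 : E ^ 2 ≤ 1 / 4 * zz u w := by
    have h1 : E ^ 2 ≤ (1 / 10 * |w| + 1 / 3 * |u|) ^ 2 := by
      rw [← sq_abs E]
      exact pow_le_pow_left₀ (abs_nonneg _) hE 2
    have h2 : (1 / 10 * |w| + 1 / 3 * |u|) ^ 2 ≤ 2 * (1 / 100 * w ^ 2 + 1 / 9 * u ^ 2) := by
      rw [← sq_abs w, ← sq_abs u]
      nlinarith [sq_nonneg (1 / 10 * |w| - 1 / 3 * |u|)]
    linarith
  nlinarith [sq_nonneg ((w + 3 / 2 * u) - 2 * E)]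

/-- D1a. `s`, `k'` and the `z`-estimate.

PROOF. `s' = 2s`, `k'' = 0` explicitly.  `zz' = -3 zz + 2 (w + (3/2)u) e₂` and, since the clamps satisfy `|ū| ≤ |u|`, `|w̄| ≤ |w|`, `|ū|,|w̄| ≤ 1/20`, `s̄ ≤ 1/100`,
`|p̄| ≤ k/20 ≤ 1/2000`: `|3(cosh ū-1) - s̄/2 - 3q̄| ≤ 0.00376 + 0.005 + 0.00301 ≤ 0.0118`, `|sinh ū - ū| ≤ 0.00042|ū|`, `|q̄| ≤ 0.00101`, `(1+p̄)² ≥ 0.998`, so
`|e₂| ≤ 0.0122|w| + 0.0092|u| ≤ 0.05 √zz` (`|w| ≤ √1.6 √zz`, `|u| ≤ 0.52 √zz`), and `|w + (3/2) u| ≤ √zz`; hence `zz' ≤ -2.9 zz ≤ -2 zz`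
(state the middle bound as `2|(w+(3/2)u) e₂| ≤ 0.1 zz`). -/
theorem near_z (k η a b : ℝ) (v : ℝ → Fin 7 → ℝ) (h : NearHyp k η a b v) :
    ∀ t ∈ Icc a b, v t 0 = v a 0 * exp (2 * (t - a)) ∧ v t 6 = v a 6 ∧
      zz (v t 1) (v t 2) ≤ zz (v a 1) (v a 2) * exp (-2 * (t - a)) := by
  have hcomp : ∀ i, ∀ t ∈ Icc a b, HasDerivAt (fun t => v t i) (F2 k (v t) i) t := by
    intro i t ht
    exact (hasDerivAt_pi.1 (h.ode t ht)) i
  have d0 : ∀ t ∈ Icc a b, HasDerivAt (fun t => v t 0) (2 * v t 0) t := by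
    intro t ht
    have := hcomp 0 t ht
    simpa [F2] using this
  have d1 : ∀ t ∈ Icc a b, HasDerivAt (fun t => v t 1) (v t 2) t := by
    intro t ht
    have := hcomp 1 t ht
    simpa [F2] using this
  have d6 : ∀ t ∈ Icc a b, HasDerivAt (fun t => v t 6) 0 t := by
    intro t ht
    have := hcomp 6 t ht
    simpa [F2] using this
  have d2 : ∀ t ∈ Icc a b, ∃ E : ℝ, |E| ≤ 1 / 10 * |v t 2| + 1 / 3 * |v t 1| ∧
      HasDerivAt (fun t => v t 2) (-3 * v t 2 - 6 * v t 1 + E) t := by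
    intro t ht
    have h2 := hcomp 2 t ht
    have hk := h.hk
    have hk' := h.hk'
    refine ⟨e2 (max 0 (min (1 / 100) (v t 0))) (cl (1 / 20) (v t 1)) (cl (1 / 20) (v t 2))
      (cl (k / 20) (v t 3)), ?_, ?_⟩
    · refine (D1a_e2_bound (le_max_left _ _) (max_le (by norm_num) (min_le_left _ _))
        (cl_abs_le (by norm_num) _)
        ((cl_abs_le (by linarith) _).trans (by linarith))).trans ?_
      have e1 := cl_abs_le' (c := 1 / 20) (by norm_num) (v t 1)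
      have e2' := cl_abs_le' (c := 1 / 20) (by norm_num) (v t 2)
      linarith
    · have : F2 k (v t) 2 = -3 * v t 2 - 6 * v t 1 + e2 (max 0 (min (1 / 100) (v t 0))) (cl (1 / 20) (v t 1))
          (cl (1 / 20) (v t 2)) (cl (k / 20) (v t 3)) := rfl
      rw [this] at h2
      exact h2
  have hab := h.hab
  have ha : a ∈ Icc a b := left_mem_Icc.2 hab
  -- s
  have c0 : ∀ t ∈ Icc a b, v t 0 * exp (-2 * (t - a)) = v a 0 * exp (-2 * (a - a)) := by
    have hd : ∀ t ∈ Icc a b, HasDerivAt (fun t => v t 0 * exp (-2 * (t - a))) 0 t := by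
      intro t ht
      have e1 : HasDerivAt (fun t : ℝ => exp (-2 * (t - a))) (exp (-2 * (t - a)) * (-2 * 1)) t :=
        (((hasDerivAt_id t).sub_const a).const_mul (-2)).exp
      have e2' := (d0 t ht).mul e1
      have e3 : 2 * v t 0 * exp (-2 * (t - a)) + v t 0 * (exp (-2 * (t - a)) * (-2 * 1)) = 0 := by ring
      rw [e3] at e2'
      exact e2'
    exact constant_of_has_deriv_right_zero (fun t ht => (hd t ht).continuousAt.continuousWithinAt)
      (fun t ht => (hd t (Ico_subset_Icc_self ht)).hasDerivWithinAt)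
  have c6 : ∀ t ∈ Icc a b, v t 6 = v a 6 :=
    constant_of_has_deriv_right_zero (fun t ht => (d6 t ht).continuousAt.continuousWithinAt)
      (fun t ht => (d6 t (Ico_subset_Icc_self ht)).hasDerivWithinAt)
  -- zz
  have hzz : ∀ t ∈ Icc a b, ∃ D : ℝ, D ≤ -2 * zz (v t 1) (v t 2) ∧
      HasDerivAt (fun t => zz (v t 1) (v t 2)) D t := by
    intro t ht
    obtain ⟨E, hE, h2⟩ := d2 t ht
    have h1 := d1 t ht
    have hx : HasDerivAt (fun t => v t 2 + 3 / 2 * v t 1) ((-3 * v t 2 - 6 * v t 1 + E) + 3 / 2 * v t 2) t :=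
      h2.add (h1.const_mul (3 / 2))
    have hx2 := (hx.pow 2).add ((h1.pow 2).const_mul (15 / 4))
    refine ⟨-3 * zz (v t 1) (v t 2) + 2 * (v t 2 + 3 / 2 * v t 1) * E, ?_, ?_⟩
    · have := D1a_mix hE
      linarith
    · have e3 : (↑(2 : ℕ) : ℝ) * (v t 2 + 3 / 2 * v t 1) ^ (2 - 1) * ((-3 * v t 2 - 6 * v t 1 + E) + 3 / 2 * v t 2) +
          15 / 4 * ((↑(2 : ℕ) : ℝ) * v t 1 ^ (2 - 1) * v t 2) =
          -3 * zz (v t 1) (v t 2) + 2 * (v t 2 + 3 / 2 * v t 1) * E := by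
        simp only [zz]
        push_cast
        ring
      rw [← e3]
      exact hx2
  have hg : AntitoneOn (fun t => zz (v t 1) (v t 2) * exp (2 * (t - a))) (Icc a b) := by
    have hd : ∀ t ∈ Icc a b, ∃ D : ℝ, D ≤ 0 ∧ HasDerivAt (fun t => zz (v t 1) (v t 2) * exp (2 * (t - a))) D t := by
      intro t ht
      obtain ⟨D, hD, hd⟩ := hzz t ht
      have e1 : HasDerivAt (fun t : ℝ => exp (2 * (t - a))) (exp (2 * (t - a)) * (2 * 1)) t :=
        (((hasDerivAt_id t).sub_const a).const_mul 2).exp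
      refine ⟨_, ?_, hd.mul e1⟩
      have hp := exp_pos (2 * (t - a))
      nlinarith
    refine antitoneOn_of_deriv_nonpos (convex_Icc a b) ?_ ?_ ?_
    · intro t ht
      obtain ⟨D, _, hD⟩ := hd t ht
      exact hD.continuousAt.continuousWithinAt
    · intro t ht
      rw [interior_Icc] at ht
      obtain ⟨D, _, hD⟩ := hd t (Ioo_subset_Icc_self ht)
      exact hD.differentiableAt.differentiableWithinAt
    · intro t ht
      rw [interior_Icc] at ht
      obtain ⟨D, hD0, hD⟩ := hd t (Ioo_subset_Icc_self ht)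
      rw [hD.deriv]
      exact hD0
  intro t ht
  refine ⟨?_, c6 t ht, ?_⟩
  · have h1 := c0 t ht
    have h2 : exp (2 * (t - a)) * exp (-2 * (t - a)) = 1 := by
      rw [← exp_add]; simp
    rw [sub_self, mul_zero, exp_zero, mul_one] at h1
    rw [← h1]
    linear_combination (- v t 0) * h2
  · have h1 := hg ha ht ht.1
    simp only [sub_self, mul_zero, exp_zero, mul_one] at h1
    have h2 : exp (2 * (t - a)) * exp (-2 * (t - a)) = 1 := by
      rw [← exp_add]; simp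
    have hp := exp_pos (-2 * (t - a))
    calc zz (v t 1) (v t 2) = (zz (v t 1) (v t 2) * exp (2 * (t - a))) * exp (-2 * (t - a)) := by
          rw [mul_assoc, h2, mul_one]
      _ ≤ zz (v a 1) (v a 2) * exp (-2 * (t - a)) := mul_le_mul_of_nonneg_right h1 hp.le

end Pool.Agent.RS
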