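import Pool.Agent.Lib.MP_35abc2_gt.D1a_NearZ

/-! # D1b: estimates for p, γ, φ near the cone (MP_35abc2_gt) -/

open scoped ContDiff Topology NNReal
open Set Filter Real

noncomputable section

namespace Pool.Agent.RS

lemma D1b_div {p : ℝ} (hp : |p| ≤ 1 / 2000) (x : ℝ) : |x / (1 + p)| ≤ |x| * (2000 / 1999) := by
  have h1 := (abs_le.1 hp).1
  have h2 : (1999 / 2000 : ℝ) ≤ 1 + p := by linarith
  have h3 : (0 : ℝ) < 1 + p := by linarith
  rw [abs_div, abs_of_pos h3, div_le_iff₀ h3]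
  have h4 : (1 : ℝ) ≤ 2000 / 1999 * (1 + p) := by linarith
  calc |x| = |x| * 1 := (mul_one _).symm
    _ ≤ |x| * (2000 / 1999 * (1 + p)) := mul_le_mul_of_nonneg_left h4 (abs_nonneg _)
    _ = |x| * (2000 / 1999) * (1 + p) := by ring

lemma D1b_cosh {u A : ℝ} (hu : |u| ≤ 1 / 20) (hA : u ^ 2 ≤ 4 / 15 * A) :
    |3 * (cosh u - 1)| ≤ 4006 / 10000 * A := by
  have h0 : 0 ≤ cosh u - 1 := by linarith [one_le_cosh u]
  have h1 : u ^ 2 ≤ 1 / 400 := by
    have := sq_le_sq' (by linarith [(abs_le.1 hu).1]) (abs_le.1 hu).2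
    calc u ^ 2 ≤ (1 / 20) ^ 2 := this
      _ = 1 / 400 := by norm_num
  have h2 := cosh_le_exp_half_sq u
  have h3 : |u ^ 2 / 2| ≤ 1 := by
    rw [abs_of_nonneg (by positivity)]
    linarith
  have h4 := (abs_le.1 (abs_exp_sub_one_sub_id_le h3)).2
  have h5 : (u ^ 2 / 2) ^ 2 ≤ 1 / 800 * (u ^ 2 / 2) := by
    nlinarith [sq_nonneg u]
  rw [abs_of_nonneg (by linarith)]
  nlinarith [sq_nonneg u]

lemma D1b_Np {k s u p φ P A : ℝ} (hk : 0 < k) (hk' : k ≤ 1 / 100) (hs : 0 < s)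
    (hu : |u| ≤ 1 / 20) (hA : u ^ 2 ≤ 4 / 15 * A) (hp : |p| ≤ k / 20) (hpP : |p| ≤ |P|)
    (hφ : |φ| ≤ k) :
    |Np s u p φ| ≤ 103 / 100 * (k * s) + 2 / 1000 * |P| + 404 / 1000 * A := by
  have hp' : |p| ≤ 1 / 2000 := by linarith
  have h1 : |s / 2 * p / (1 + p)| ≤ 2502 / 100000 * (k * s) := by
    refine (D1b_div hp' _).trans ?_
    rw [abs_mul, abs_of_pos (by positivity : 0 < s / 2)]
    calc s / 2 * |p| * (2000 / 1999) ≤ s / 2 * (k / 20) * (2000 / 1999) := by gcongr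
      _ ≤ 2502 / 100000 * (k * s) := by nlinarith [mul_pos hk hs]
  have h2 : |s * φ| ≤ k * s := by
    rw [abs_mul, abs_of_pos hs, mul_comm]
    gcongr
  have h3 : |3 * p ^ 2 / (1 + p)| ≤ 2 / 1000 * |P| := by
    refine (D1b_div hp' _).trans ?_
    rw [abs_mul, abs_of_pos (by norm_num : (0 : ℝ) < 3), abs_pow]
    have h4 : |p| ^ 2 ≤ 1 / 2000 * |P| := by
      rw [sq]
      exact mul_le_mul hp' hpP (abs_nonneg _) (by norm_num)
    nlinarith [abs_nonneg P]
  have h4 : |3 * (cosh u - 1) / (1 + p)| ≤ 404 / 1000 * A := by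
    refine (D1b_div hp' _).trans ?_
    have h5 := D1b_cosh hu hA
    have h6 : 0 ≤ A := by nlinarith [sq_nonneg u]
    nlinarith [abs_nonneg (3 * (cosh u - 1))]
  unfold Np
  calc |s / 2 * p / (1 + p) + s * φ + 3 * p ^ 2 / (1 + p) + 3 * (cosh u - 1) / (1 + p)|
      ≤ |s / 2 * p / (1 + p)| + |s * φ| + |3 * p ^ 2 / (1 + p)| + |3 * (cosh u - 1) / (1 + p)| := by
        refine (abs_add_le _ _).trans (add_le_add_left ?_ _)
        refine (abs_add_le _ _).trans (add_le_add_left ?_ _)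
        exact abs_add_le _ _
    _ ≤ _ := by linarith [mul_pos hk hs]

lemma D1b_Ng {k s p φ : ℝ} (hk : 0 < k) (hk' : k ≤ 1 / 100) (hs : 0 < s)
    (hp : |p| ≤ k / 20) (hφ : |φ| ≤ k) : |Nγ s p φ| ≤ 103 / 100 * (k * s) := by
  have hp' : |p| ≤ 1 / 2000 := by linarith
  unfold Nγ
  refine (D1b_div hp' _).trans ?_
  have h1 : |s * φ - s / 2 * p| ≤ s * k + s / 2 * (k / 20) := by
    refine (abs_sub _ _).trans ?_
    rw [abs_mul, abs_mul, abs_of_pos hs, abs_of_pos (by positivity : 0 < s / 2)]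
    gcongr
  nlinarith [mul_pos hk hs]

lemma D1b_Nf {k s p φ γ k' X : ℝ} (hk : 0 < k) (hk' : k ≤ 1 / 100) (hs : 0 < s)
    (hX : 0 ≤ X)
    (hp : |p| ≤ k / 20) (hpP : |p| ≤ k * s / 7 + 2 * X) (hγ : |γ| ≤ X + 52 / 100 * (k * s))
    (hφ : |φ| ≤ k) (hkk : |k'| ≤ k) :
    |Nφ s p φ γ k'| ≤ 19 / 10 * (k * s) + 61 / 10 * X := by
  have hp' : |p| ≤ 1 / 2000 := by linarith
  have h1 : |-(5 / 2) * p / (1 + p)| ≤ 5 / 2 * (k * s / 7 + 2 * X) * (2000 / 1999) := by
    refine (D1b_div hp' _).trans ?_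
    rw [abs_mul, abs_neg, abs_of_pos (by norm_num : (0 : ℝ) < 5 / 2)]
    gcongr
  have h2 : |3 * k' * p / (1 + p)| ≤ 3 / 100 * (k * s / 7 + 2 * X) * (2000 / 1999) := by
    refine (D1b_div hp' _).trans ?_
    rw [abs_mul, abs_mul, abs_of_pos (by norm_num : (0 : ℝ) < 3)]
    have h3 : 3 * |k'| ≤ 3 / 100 := by linarith
    gcongr
  have h3 : |(-γ + s * φ + s * φ ^ 2) / (1 + p)| ≤
      (X + 52 / 100 * (k * s) + k * s + 1 / 100 * (k * s)) * (2000 / 1999) := by
    refine (D1b_div hp' _).trans ?_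
    gcongr
    refine (abs_add_le _ _).trans (add_le_add ?_ ?_)
    · refine (abs_add_le _ _).trans (add_le_add ?_ ?_)
      · rw [abs_neg]; exact hγ
      · rw [abs_mul, abs_of_pos hs, mul_comm]
        gcongr
    · rw [abs_mul, abs_of_pos hs, abs_pow]
      have h4 : |φ| ^ 2 ≤ 1 / 100 * k := by
        rw [sq]
        exact mul_le_mul (hφ.trans hk') hφ (abs_nonneg _) (by norm_num)
      calc s * |φ| ^ 2 ≤ s * (1 / 100 * k) := by gcongr
        _ = 1 / 100 * (k * s) := by ring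
  unfold Nφ
  have h5 : |-(5 / 2) * p / (1 + p) - 3 * k' * p / (1 + p) + (-γ + s * φ + s * φ ^ 2) / (1 + p)|
      ≤ |-(5 / 2) * p / (1 + p)| + |3 * k' * p / (1 + p)|
        + |(-γ + s * φ + s * φ ^ 2) / (1 + p)| := by
    refine (abs_add_le _ _).trans (add_le_add_left ?_ _)
    exact abs_sub _ _
  have h6 := mul_pos hk hs
  linarith

/-- D1b. The estimates for `p`, `γ`, `φ`.

PROOF. Here `s = v t 0 ∈ (0, 1/100]`, so `s̄ = s`; `u² ≤ (4/15) zz ≤ (4/15) ηk e^{-2(t-a)}` (D1a). Use `ode_compare` three times.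
(p) `p' = -6p + N_p`, `|N_p| ≤ (s/2)(k/20)/(1-k/20) + sk + 3(k/20)|p|/(1-k/20) + 3·0.501 ū²/(1-k/20) ≤ 1.03 sk + 0.002|p| + 0.404 ηk e^{-2(t-a)}`;
β = k s/7 + 2ηk e^{-2(t-a)}, β' + 6β = (8/7) ks + 8ηk e^{-2(t-a)}.
(γ) `|γ'| ≤ (s k + (s/2)(k/20))/(1-k/20) ≤ 1.03 sk`, β = ηk + 0.515 (ks - k s(a)) + tiny — use a = 0 in `ode_compare` with β = ηk + 0.516·k·s... or integrate directly; the
conclusion has the constant `0.52`.
(φ) `ψ = φ - 3k'/5` (`|k'| ≤ k`, so `cl k k' = k'`): `ψ' = -5ψ + N_φ`, `|N_φ| ≤ 2.54|p̄| + 1.001|γ̄| + 1.012 sk ≤ (0.363 + 0.521 + 1.012) ks + 6.1 ηk`, β = 0.28ks + 1.3ηk,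
β' + 5β = 1.96ks + 6.5ηk. -/
theorem near_pgf (k η a b : ℝ) (v : ℝ → Fin 7 → ℝ) (h : NearHyp k η a b v) :
    ∀ t ∈ Icc a b,
      |v t 3| ≤ k * v t 0 / 7 + 2 * (η * k) * exp (-2 * (t - a)) ∧
      |v t 5| ≤ η * k + 52 / 100 * k * v t 0 ∧
      |v t 4 - 3 * v a 6 / 5| ≤ 28 / 100 * k * v t 0 + 13 / 10 * (η * k) := by
  have hk := h.hk
  have hk' := h.hk'
  have hη := h.hη
  have hηk : 0 < η * k := mul_pos hη hk
  have hz := near_z k η a b v h
  -- the function s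
  have hS : ∀ t ∈ Icc a b, 0 < v t 0 ∧ v t 0 ≤ 1 / 100 := by
    intro t ht
    rw [(hz t ht).1]
    refine ⟨mul_pos h.s0 (exp_pos _), le_trans ?_ h.s2⟩
    have : exp (2 * (t - a)) ≤ exp (2 * (b - a)) := exp_le_exp.2 (by linarith [ht.2])
    exact mul_le_mul_of_nonneg_left this h.s0.le
  have hcl : ∀ t ∈ Icc a b, max 0 (min (1 / 100) (v t 0)) = v t 0 := by
    intro t ht
    rw [min_eq_right (hS t ht).2, max_eq_right (hS t ht).1.le]
  have hcoord : ∀ t ∈ Icc a b, ∀ i, HasDerivAt (fun t => v t i) (F2 k (v t) i) t := fun t ht i =>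
    hasDerivAt_pi.1 (h.ode t ht) i
  have hSd : ∀ t ∈ Icc a b, HasDerivAt (fun t => v t 0) (2 * v t 0) t := fun t ht => by
    simpa [F2] using hcoord t ht 0
  have hEd : ∀ t : ℝ, HasDerivAt (fun t => exp (-2 * (t - a))) (-2 * exp (-2 * (t - a))) t := by
    intro t
    have h1 : HasDerivAt (fun t : ℝ => -2 * (t - a)) (-2) t := by
      simpa using ((hasDerivAt_id t).sub_const a).const_mul (-2)
    simpa [mul_comm] using h1.exp
  have hu2 : ∀ t ∈ Icc a b, (v t 1) ^ 2 ≤ 4 / 15 * (η * k * exp (-2 * (t - a))) := by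
    intro t ht
    have h1 := (hz t ht).2.2
    have h2 : zz (v a 1) (v a 2) * exp (-2 * (t - a)) ≤ η * k * exp (-2 * (t - a)) :=
      mul_le_mul_of_nonneg_right h.z0 (exp_pos _).le
    have h3 : 15 / 4 * (v t 1) ^ 2 ≤ zz (v t 1) (v t 2) := by
      unfold zz
      nlinarith [sq_nonneg (v t 2 + 3 / 2 * v t 1)]
    linarith
  -- (p)
  have hP : ∀ t ∈ Icc a b, |v t 3| ≤ k * v t 0 / 7 + 2 * (η * k) * exp (-2 * (t - a)) := by
    refine ode_compare 6 a b (fun t => v t 3)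
      (fun t => Np (max 0 (min (1 / 100) (v t 0))) (cl (1 / 20) (v t 1)) (cl (k / 20) (v t 3))
        (cl k (v t 4)))
      (fun t => k * v t 0 / 7 + 2 * (η * k) * exp (-2 * (t - a)))
      (fun t => k * (2 * v t 0) / 7 + 2 * (η * k) * (-2 * exp (-2 * (t - a)))) ?_ ?_ ?_ ?_
    · intro t ht
      have h1 := hcoord t ht 3
      simpa [F2] using h1
    · intro t ht
      exact (((hSd t ht).const_mul k).div_const 7).add ((hEd t).const_mul _)
    · have h1 := h.p0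
      have h2 : 0 < k * v a 0 := mul_pos hk h.s0
      simp only [sub_self, mul_zero, exp_zero, mul_one]
      linarith
    · intro t ht hy
      have ht' : t ∈ Icc a b := ⟨ht.1, ht.2.le⟩
      have h1 := D1b_Np (A := η * k * exp (-2 * (t - a))) (P := v t 3) hk hk' (hS t ht').1
        (cl_abs_le (c := 1 / 20) (by norm_num) (v t 1)) ?_
        (cl_abs_le (c := k / 20) (by positivity) (v t 3)) (cl_abs_le' (by positivity) (v t 3))
        (cl_abs_le hk.le (v t 4))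
      · simp only [hcl t ht']
        have h2 : 0 < k * v t 0 := mul_pos hk (hS t ht').1
        have h3 : 0 < η * k * exp (-2 * (t - a)) := mul_pos hηk (exp_pos _)
        rw [hy] at h1
        linarith
      · refine le_trans ?_ (hu2 t ht')
        exact sq_le_sq.2 (cl_abs_le' (by norm_num) _)
  -- (γ)
  have hG : ∀ t ∈ Icc a b, |v t 5| ≤ η * k + 52 / 100 * k * v t 0 := by
    refine ode_compare 0 a b (fun t => v t 5)
      (fun t => Nγ (max 0 (min (1 / 100) (v t 0))) (cl (k / 20) (v t 3)) (cl k (v t 4)))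
      (fun t => η * k + 52 / 100 * k * v t 0) (fun t => 52 / 100 * k * (2 * v t 0)) ?_ ?_ ?_ ?_
    · intro t ht
      have h1 := hcoord t ht 5
      simpa [F2] using h1
    · intro t ht
      exact ((hSd t ht).const_mul _).const_add _
    · have h1 := h.g0
      have h2 : 0 < k * v a 0 := mul_pos hk h.s0
      linarith
    · intro t ht hy
      have ht' : t ∈ Icc a b := ⟨ht.1, ht.2.le⟩
      have h1 := D1b_Ng hk hk' (hS t ht').1
        (cl_abs_le (c := k / 20) (by positivity) (v t 3)) (cl_abs_le hk.le (v t 4))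
      simp only [hcl t ht']
      have h2 : 0 < k * v t 0 := mul_pos hk (hS t ht').1
      linarith
  -- (φ)
  have hF : ∀ t ∈ Icc a b, |v t 4 - 3 * v a 6 / 5| ≤
      28 / 100 * k * v t 0 + 13 / 10 * (η * k) := by
    refine ode_compare 5 a b (fun t => v t 4 - 3 * v a 6 / 5)
      (fun t => Nφ (max 0 (min (1 / 100) (v t 0))) (cl (k / 20) (v t 3)) (cl k (v t 4))
        (cl (k / 20) (v t 5)) (cl k (v t 6)))
      (fun t => 28 / 100 * k * v t 0 + 13 / 10 * (η * k))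
      (fun t => 28 / 100 * k * (2 * v t 0)) ?_ ?_ ?_ ?_
    · intro t ht
      have h1 := hcoord t ht 4
      have h2 : cl k (v t 6) = v a 6 := by
        rw [(hz t ht).2.1]
        exact cl_of_abs_le h.k0
      have h3 : F2 k (v t) 4 = -5 * (v t 4 - 3 * v a 6 / 5) +
          Nφ (max 0 (min (1 / 100) (v t 0))) (cl (k / 20) (v t 3)) (cl k (v t 4))
            (cl (k / 20) (v t 5)) (cl k (v t 6)) := by
        have h4 : F2 k (v t) 4 = -5 * v t 4 + 3 * cl k (v t 6) +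
          Nφ (max 0 (min (1 / 100) (v t 0))) (cl (k / 20) (v t 3)) (cl k (v t 4))
            (cl (k / 20) (v t 5)) (cl k (v t 6)) := rfl
        rw [h4, h2]
        ring
      rw [h3] at h1
      exact h1.sub_const _
    · intro t ht
      exact ((hSd t ht).const_mul _).add_const _
    · have h1 := h.f0
      have h2 : 0 < k * v a 0 := mul_pos hk h.s0
      linarith
    · intro t ht hy
      have ht' : t ∈ Icc a b := ⟨ht.1, ht.2.le⟩
      have hE : exp (-2 * (t - a)) ≤ 1 := exp_le_one_iff.2 (by linarith [ht.1])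
      have h1 := D1b_Nf (X := η * k) hk hk' (hS t ht').1 hηk.le
        (cl_abs_le (c := k / 20) (by positivity) (v t 3)) ?_ ?_ (cl_abs_le hk.le (v t 4))
        (cl_abs_le hk.le (v t 6)) (γ := cl (k / 20) (v t 5))
      · simp only [hcl t ht']
        have h2 : 0 < k * v t 0 := mul_pos hk (hS t ht').1
        linarith
      · refine (cl_abs_le' (by positivity) (v t 3)).trans ((hP t ht').trans ?_)
        have : 2 * (η * k) * exp (-2 * (t - a)) ≤ 2 * (η * k) * 1 :=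
          mul_le_mul_of_nonneg_left hE (by positivity)
        linarith
      · refine (cl_abs_le' (by positivity) (v t 5)).trans ((hG t ht').trans ?_)
        linarith
  exact fun t ht => ⟨hP t ht, hG t ht, hF t ht⟩

end Pool.Agent.RS
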