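import Pool.Agent.Lib.MP_35abc2_gt.D1b_NearPGF

/-! # D2: precise position of p near the cone (MP_35abc2_gt) -/

open scoped ContDiff Topology NNReal
open Set Filter Real

noncomputable section

namespace Pool.Agent.RS

lemma D2_div {p : ℝ} (hp : |p| ≤ 1 / 2000) (x : ℝ) : |x / (1 + p)| ≤ |x| * (2000 / 1999) := by
  have h1 := (abs_le.1 hp).1
  have h2 : (1999 / 2000 : ℝ) ≤ 1 + p := by linarith
  have h3 : (0 : ℝ) < 1 + p := by linarith
  rw [abs_div, abs_of_pos h3, div_le_iff₀ h3]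
  have h4 : (1 : ℝ) ≤ 2000 / 1999 * (1 + p) := by linarith
  calc |x| = |x| * 1 := (mul_one _).symm
    _ ≤ |x| * (2000 / 1999 * (1 + p)) := mul_le_mul_of_nonneg_left h4 (abs_nonneg _)
    _ = |x| * (2000 / 1999) * (1 + p) := by ring

lemma D2_cosh {u A : ℝ} (hu : |u| ≤ 1 / 20) (hA : u ^ 2 ≤ 4 / 15 * A) :
    |3 * (cosh u - 1)| ≤ 4006 / 10000 * A := by
  have h0 : 0 ≤ cosh u - 1 := by linarith [one_le_cosh u]
  have h1 : u ^ 2 ≤ 1 / 400 := by
    have := sq_le_sq' (by linarith [(abs_le.1 hu).1]) (abs_le.1 hu).2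
    calc u ^ 2 ≤ (1 / 20) ^ 2 := this
      _ = 1 / 400 := by norm_num
  have h2 := cosh_le_exp_half_sq u
  have h3 : |u ^ 2 / 2| ≤ 1 := by
    rw [abs_of_nonneg (by positivity)]
    linarith
  have h4 := (abs_le.1 (abs_exp_sub_one_sub_id_le h3)).2
  have h5 : (u ^ 2 / 2) ^ 2 ≤ 1 / 800 * (u ^ 2 / 2) := by
    nlinarith [sq_nonneg u]
  rw [abs_of_nonneg (by linarith)]
  nlinarith [sq_nonneg u]

lemma D2_M {k η s u p φ k' : ℝ} (hk : 0 < k) (hk' : k ≤ 1 / 100) (hη : 0 < η)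
    (hη' : η ≤ 1 / 100) (hs : 0 < s) (hs' : s ≤ 1 / 100)
    (hp : |p| ≤ k * s / 7 + 2 * (η * k))
    (hφ : |φ - 3 * k' / 5| ≤ 28 / 100 * k * s + 13 / 10 * (η * k))
    (hu : |u| ≤ 1 / 20) (hu2 : u ^ 2 ≤ 4 / 15 * (η * k)) :
    |Np s u p φ - 3 / 5 * k' * s| ≤ 353 / 1000 * k * s ^ 2 + 1 / 2 * (η * k) := by
  have hks : 0 < k * s := mul_pos hk hs
  have hηk : 0 < η * k := mul_pos hη hk
  have hkss : 0 < k * s ^ 2 := by positivity
  have e1 : k * s * s ≤ k * s * (1 / 100) := mul_le_mul_of_nonneg_left hs' hks.le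
  have e2' : η * k * s ≤ η * k * (1 / 100) := mul_le_mul_of_nonneg_left hs' hηk.le
  have hp' : |p| ≤ 1 / 2000 := by
    have h1 : k * s ≤ 1 / 100 * (1 / 100) := mul_le_mul hk' hs' hs.le (by norm_num)
    have h2 : η * k ≤ 1 / 100 * (1 / 100) := mul_le_mul hη' hk' hk.le (by norm_num)
    linarith
  have h1 : |s * (φ - 3 * k' / 5)| ≤ 28 / 100 * k * s ^ 2 + 13 / 1000 * (η * k) := by
    rw [abs_mul, abs_of_pos hs]
    calc s * |φ - 3 * k' / 5| ≤ s * (28 / 100 * k * s + 13 / 10 * (η * k)) := by gcongr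
      _ = 28 / 100 * k * s ^ 2 + 13 / 10 * (η * k * s) := by ring
      _ ≤ _ := by linarith
  have h2 : |s / 2 * p / (1 + p)| ≤ 715 / 10000 * k * s ^ 2 + 101 / 10000 * (η * k) := by
    refine (D2_div hp' _).trans ?_
    rw [abs_mul, abs_of_pos (by positivity : 0 < s / 2)]
    calc s / 2 * |p| * (2000 / 1999)
        ≤ s / 2 * (k * s / 7 + 2 * (η * k)) * (2000 / 1999) := by gcongr
      _ = 1000 / 13993 * (k * s ^ 2) + 2000 / 1999 * (η * k * s) := by ring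
      _ ≤ _ := by linarith
  have h3 : |3 * p ^ 2 / (1 + p)| ≤ 62 / 100000 * k * s ^ 2 + 2 / 1000 * (η * k) := by
    refine (D2_div hp' _).trans ?_
    rw [abs_mul, abs_of_pos (by norm_num : (0 : ℝ) < 3), abs_pow]
    have h4 : |p| ^ 2 ≤ (k * s / 7 + 2 * (η * k)) ^ 2 := by gcongr
    have h5 : (k * s / 7 + 2 * (η * k)) ^ 2 =
        k * (k * s ^ 2) / 49 + 4 / 7 * ((η * k) * (k * s)) + 4 * (η * k) * (η * k) := by ring
    have h6 : k * (k * s ^ 2) ≤ 1 / 100 * (k * s ^ 2) := mul_le_mul_of_nonneg_right hk' hkss.le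
    have h7 : k * s ≤ 1 / 10000 := by
      calc k * s ≤ 1 / 100 * (1 / 100) := mul_le_mul hk' hs' hs.le (by norm_num)
        _ = 1 / 10000 := by norm_num
    have h8 : η * k ≤ 1 / 10000 := by
      calc η * k ≤ 1 / 100 * (1 / 100) := mul_le_mul hη' hk' hk.le (by norm_num)
        _ = 1 / 10000 := by norm_num
    have h9 : (η * k) * (k * s) ≤ (η * k) * (1 / 10000) := mul_le_mul_of_nonneg_left h7 hηk.le
    have h10 : (η * k) * (η * k) ≤ (η * k) * (1 / 10000) := mul_le_mul_of_nonneg_left h8 hηk.le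
    rw [h5] at h4
    calc 3 * |p| ^ 2 * (2000 / 1999)
        ≤ 3 * (k * (k * s ^ 2) / 49 + 4 / 7 * ((η * k) * (k * s)) + 4 * (η * k) * (η * k))
          * (2000 / 1999) := by gcongr
      _ ≤ _ := by
        have h11 : 4 * (η * k) * (η * k) = 4 * ((η * k) * (η * k)) := by ring
        rw [h11]
        linarith
  have h4 : |3 * (cosh u - 1) / (1 + p)| ≤ 404 / 1000 * (η * k) := by
    refine (D2_div hp' _).trans ?_
    have h5 := D2_cosh hu hu2
    linarith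
  have h5 : Np s u p φ - 3 / 5 * k' * s = s * (φ - 3 * k' / 5) + s / 2 * p / (1 + p)
      + 3 * p ^ 2 / (1 + p) + 3 * (cosh u - 1) / (1 + p) := by
    unfold Np
    ring
  rw [h5]
  calc _ ≤ |s * (φ - 3 * k' / 5)| + |s / 2 * p / (1 + p)| + |3 * p ^ 2 / (1 + p)|
        + |3 * (cosh u - 1) / (1 + p)| := by
        refine (abs_add_le _ _).trans (add_le_add_left ?_ _)
        refine (abs_add_le _ _).trans (add_le_add_left ?_ _)
        exact abs_add_le _ _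
    _ ≤ _ := by linarith

/-- D2. Precise position of `p` and of `p' = -6p + N_p`.

PROOF. By D1a, D1b all clamps are inactive.  With `M := N_p - (3/5)k's = s(φ - 3k'/5) + (s/2)p/(1+p) + 3p²/(1+p) + 3(cosh u-1)/(1+p)`:
`|M| ≤ 0.353 ks² + 0.5 ηk` [`s(0.28ks+1.3ηk) + 0.501s(ks/7+2ηk) + 3.004(ks/7+2ηk)² + 0.404ηk`, `s, k ≤ 1/100`, `η ≤ 1/100`].
`p̂ := p - (3/40)k's` satisfies `p̂' = -6p̂ + M`; `ode_compare` with β = 0.036ks² + 1.1ηk (`|p̂(a)| ≤ ηk + (3/40)k s(a) ≤ 1.1ηk`;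
β' + 6β = 0.36ks² + 6.6ηk).  Finally `-6p + N_p - (3/20)k's = -6p̂ + M`, `|·| ≤ 0.57ks² + 7.1ηk`. -/
theorem near_precise (k η a b : ℝ) (v : ℝ → Fin 7 → ℝ) (h : NearHyp k η a b v) :
    ∀ t ∈ Icc a b,
      |v t 3 - 3 / 40 * v a 6 * v t 0| ≤ 36 / 1000 * k * v t 0 ^ 2 + 11 / 10 * (η * k) ∧
      |(-6 * v t 3 + Np (v t 0) (v t 1) (v t 3) (v t 4)) - 3 / 20 * v a 6 * v t 0|
        ≤ 57 / 100 * k * v t 0 ^ 2 + 71 / 10 * (η * k) := by
  have hk := h.hk
  have hk' := h.hk'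
  have hη := h.hη
  have hη' := h.hη'
  have hηk : 0 < η * k := mul_pos hη hk
  have hηk1 : η * k ≤ 1 / 10000 := by
    calc η * k ≤ 1 / 100 * (1 / 100) := mul_le_mul hη' hk' hk.le (by norm_num)
      _ = 1 / 10000 := by norm_num
  have hηk2 : η * k ≤ 1 / 100 * k := mul_le_mul_of_nonneg_right hη' hk.le
  have hz := near_z k η a b v h
  have hpgf := near_pgf k η a b v h
  -- the function s
  have hS : ∀ t ∈ Icc a b, 0 < v t 0 ∧ v t 0 ≤ 1 / 100 := by
    intro t ht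
    rw [(hz t ht).1]
    refine ⟨mul_pos h.s0 (exp_pos _), le_trans ?_ h.s2⟩
    have : exp (2 * (t - a)) ≤ exp (2 * (b - a)) := exp_le_exp.2 (by linarith [ht.2])
    exact mul_le_mul_of_nonneg_left this h.s0.le
  have hcl : ∀ t ∈ Icc a b, max 0 (min (1 / 100) (v t 0)) = v t 0 := by
    intro t ht
    rw [min_eq_right (hS t ht).2, max_eq_right (hS t ht).1.le]
  have hE : ∀ t ∈ Icc a b, exp (-2 * (t - a)) ≤ 1 := fun t ht =>
    exp_le_one_iff.2 (by linarith [ht.1])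
  have hks : ∀ t ∈ Icc a b, 0 < k * v t 0 ∧ k * v t 0 ≤ 1 / 100 * k := fun t ht =>
    ⟨mul_pos hk (hS t ht).1, by
      rw [mul_comm (1 / 100) k]
      exact mul_le_mul_of_nonneg_left (hS t ht).2 hk.le⟩
  have hu2 : ∀ t ∈ Icc a b, (v t 1) ^ 2 ≤ 4 / 15 * (η * k) := by
    intro t ht
    have h1 := (hz t ht).2.2
    have h0 : 0 ≤ zz (v a 1) (v a 2) := by unfold zz; positivity
    have h2 : zz (v a 1) (v a 2) * exp (-2 * (t - a)) ≤ η * k := by
      calc _ ≤ zz (v a 1) (v a 2) * 1 := mul_le_mul_of_nonneg_left (hE t ht) h0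
        _ ≤ η * k := by rw [mul_one]; exact h.z0
    have h3 : 15 / 4 * (v t 1) ^ 2 ≤ zz (v t 1) (v t 2) := by
      unfold zz
      nlinarith [sq_nonneg (v t 2 + 3 / 2 * v t 1)]
    linarith
  have hu : ∀ t ∈ Icc a b, |v t 1| ≤ 1 / 20 := by
    intro t ht
    have h1 := hu2 t ht
    refine abs_le_of_sq_le_sq ?_ (by norm_num)
    linarith
  have hp : ∀ t ∈ Icc a b, |v t 3| ≤ k * v t 0 / 7 + 2 * (η * k) := by
    intro t ht
    have h1 := (hpgf t ht).1
    have h2 : 2 * (η * k) * exp (-2 * (t - a)) ≤ 2 * (η * k) * 1 :=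
      mul_le_mul_of_nonneg_left (hE t ht) (by positivity)
    linarith
  have hpc : ∀ t ∈ Icc a b, cl (k / 20) (v t 3) = v t 3 := by
    intro t ht
    have h1 := hp t ht
    have h2 := hks t ht
    exact cl_of_abs_le (by linarith)
  have hφc : ∀ t ∈ Icc a b, cl k (v t 4) = v t 4 := by
    intro t ht
    have h1 := (hpgf t ht).2.2
    have h2 := hks t ht
    have h3 := h.k0
    refine cl_of_abs_le ?_
    have h4 : |v t 4| ≤ |v t 4 - 3 * v a 6 / 5| + |3 * v a 6 / 5| := by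
      have := abs_add_le (v t 4 - 3 * v a 6 / 5) (3 * v a 6 / 5)
      simpa using this
    have h5 : |3 * v a 6 / 5| ≤ 3 * k / 5 := by
      rw [abs_div, abs_mul, abs_of_pos (by norm_num : (0 : ℝ) < 3),
        abs_of_pos (by norm_num : (0 : ℝ) < 5)]
      linarith
    linarith
  have huc : ∀ t ∈ Icc a b, cl (1 / 20) (v t 1) = v t 1 := fun t ht => cl_of_abs_le (hu t ht)
  have hM : ∀ t ∈ Icc a b, |Np (v t 0) (v t 1) (v t 3) (v t 4) - 3 / 5 * v a 6 * v t 0|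
      ≤ 353 / 1000 * k * v t 0 ^ 2 + 1 / 2 * (η * k) := fun t ht =>
    D2_M hk hk' hη hη' (hS t ht).1 (hS t ht).2 (hp t ht) (hpgf t ht).2.2 (hu t ht) (hu2 t ht)
  have hcoord : ∀ t ∈ Icc a b, ∀ i, HasDerivAt (fun t => v t i) (F2 k (v t) i) t := fun t ht i =>
    hasDerivAt_pi.1 (h.ode t ht) i
  have hSd : ∀ t ∈ Icc a b, HasDerivAt (fun t => v t 0) (2 * v t 0) t := fun t ht => by
    simpa [F2] using hcoord t ht 0
  have hmain : ∀ t ∈ Icc a b, |v t 3 - 3 / 40 * v a 6 * v t 0| ≤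
      36 / 1000 * k * v t 0 ^ 2 + 11 / 10 * (η * k) := by
    refine ode_compare 6 a b (fun t => v t 3 - 3 / 40 * v a 6 * v t 0)
      (fun t => Np (v t 0) (v t 1) (v t 3) (v t 4) - 3 / 5 * v a 6 * v t 0)
      (fun t => 36 / 1000 * k * v t 0 ^ 2 + 11 / 10 * (η * k))
      (fun t => 36 / 1000 * k * (2 * v t 0 * (2 * v t 0))) ?_ ?_ ?_ ?_
    · intro t ht
      have h1 : HasDerivAt (fun t => v t 3)
          (-6 * v t 3 + Np (v t 0) (v t 1) (v t 3) (v t 4)) t := by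
        have h2 := hcoord t ht 3
        have h3 : F2 k (v t) 3 = -6 * v t 3 + Np (max 0 (min (1 / 100) (v t 0)))
          (cl (1 / 20) (v t 1)) (cl (k / 20) (v t 3)) (cl k (v t 4)) := rfl
        rwa [h3, hcl t ht, huc t ht, hpc t ht, hφc t ht] at h2
      have h2 := h1.sub ((hSd t ht).const_mul (3 / 40 * v a 6))
      refine h2.congr_deriv ?_
      ring
    · intro t ht
      have h1 := (((hSd t ht).pow 2).const_mul (36 / 1000 * k)).add_const (11 / 10 * (η * k))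
      refine h1.congr_deriv ?_
      norm_num
    · have h1 := h.p0
      have h2 := h.s1
      have h3 := h.k0
      have ha : a ∈ Icc a b := left_mem_Icc.2 h.hab
      have h4 : |3 / 40 * v a 6 * v a 0| ≤ 1 / 10 * (η * k) := by
        rw [abs_mul, abs_mul, abs_of_pos (by norm_num : (0 : ℝ) < 3 / 40), abs_of_pos h.s0]
        have h5 : |v a 6| * v a 0 ≤ 1 * (η * k) :=
          mul_le_mul (by linarith) h2 h.s0.le (by norm_num)
        nlinarith
      have h5 : |v a 3 - 3 / 40 * v a 6 * v a 0| ≤ |v a 3| + |3 / 40 * v a 6 * v a 0| :=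
        abs_sub _ _
      have h6 : 0 ≤ 36 / 1000 * k * v a 0 ^ 2 := by positivity
      change |v a 3 - 3 / 40 * v a 6 * v a 0| ≤ 36 / 1000 * k * v a 0 ^ 2 + 11 / 10 * (η * k)
      linarith
    · intro t ht _
      have ht' : t ∈ Icc a b := ⟨ht.1, ht.2.le⟩
      have h1 := hM t ht'
      have h2 : 0 < k * v t 0 ^ 2 := mul_pos hk (pow_pos (hS t ht').1 2)
      change |Np (v t 0) (v t 1) (v t 3) (v t 4) - 3 / 5 * v a 6 * v t 0| <
        36 / 1000 * k * (2 * v t 0 * (2 * v t 0)) + 6 * (36 / 1000 * k * v t 0 ^ 2 + 11 / 10 * (η * k))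
      nlinarith
  intro t ht
  refine ⟨hmain t ht, ?_⟩
  have h1 := hmain t ht
  have h2 := hM t ht
  have h3 : (-6 * v t 3 + Np (v t 0) (v t 1) (v t 3) (v t 4)) - 3 / 20 * v a 6 * v t 0 =
      -6 * (v t 3 - 3 / 40 * v a 6 * v t 0)
      + (Np (v t 0) (v t 1) (v t 3) (v t 4) - 3 / 5 * v a 6 * v t 0) := by ring
  rw [h3]
  refine (abs_add_le _ _).trans ?_
  rw [abs_mul, abs_neg, abs_of_pos (by norm_num : (0 : ℝ) < 6)]
  have h4 : 0 < k * v t 0 ^ 2 := mul_pos hk (pow_pos (hS t ht).1 2)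
  nlinarith

end Pool.Agent.RS
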