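import Pool.Agent.Lib.MP_35abc2_gt.Sys

/-! # K: propagation of the constraint (MP_35abc2_gt) -/

open scoped ContDiff Topology NNReal
open Set Filter Real

noncomputable section

namespace Pool.Agent.RS

/-- KP1. `K' = (-6 + 2 s Φ / P) K` along solutions of the five equations. (Pure algebra: `field_simp; ring` after
computing the derivative of `conK`; checked numerically.) -/
theorem conK_deriv (μ κ T : ℝ) (u w P Φ g : ℝ → ℝ) (hP : 0 < P T) (hu : HasDerivAt u (w T) T)
    (hw : HasDerivAt w (-((3 * cosh (u T) - sM μ T / 2) * w T + 6 * sinh (u T)) / P T ^ 2) T)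
    (hPd : HasDerivAt P (-3 * P T + (3 * cosh (u T) - sM μ T / 2) / P T + sM μ T * Φ T) T)
    (hΦ : HasDerivAt Φ (-5 * Φ T + (3 * κ - g T + sM μ T * Φ T ^ 2) / P T) T)
    (hg : HasDerivAt g (sM μ T * Φ T / P T) T) :
    HasDerivAt (fun T => conK κ (sM μ T) (u T) (w T) (P T) (Φ T) (g T))
      ((-6 + 2 * sM μ T * Φ T / P T) * conK κ (sM μ T) (u T) (w T) (P T) (Φ T) (g T)) T := by
  have hs : HasDerivAt (fun T => sM μ T) (2 * sM μ T) T := by
    have h1 : HasDerivAt (fun T : ℝ => 2 * T) 2 T := by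
      simpa using (hasDerivAt_id T).const_mul (2 : ℝ)
    have h2 := h1.exp.const_mul μ
    unfold sM
    refine h2.congr_deriv ?_
    ring
  have hP0 : P T ≠ 0 := hP.ne'
  have hC : HasDerivAt (fun T => cosh (u T)) (sinh (u T) * w T) T := hu.cosh
  unfold conK
  have hD := ((((((hC.const_mul 12).sub ((hPd.pow 2).const_mul 12)).add ((hPd.pow 2).mul (hw.pow 2))).add
    (((hs.mul hPd).mul hΦ).const_mul 8)).sub ((hs.pow 2).mul (hΦ.pow 2))).sub
    (hs.const_mul (3 / 2))).sub (hs.mul (hg.const_sub (3 * κ)))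
  refine (hD.congr_deriv ?_).congr_of_eventuallyEq ?_
  · simp only [Nat.cast_ofNat, Pi.pow_apply, Pi.mul_apply]
    field_simp
    ring
  · apply Filter.Eventually.of_forall
    intro t
    simp only [Pi.sub_apply, Pi.add_apply, Pi.mul_apply, Pi.pow_apply]
    ring

/-- KP2. If the constraint holds at the left end of `[a,b]` it holds on `[a,b]`.
PROOF. Linear ODE `K' = c(T) K` with continuous `c` (continuity from differentiability of `P, Φ`), Gronwall. -/
theorem con_propagate (μ κ a b : ℝ) (u w P Φ g : ℝ → ℝ)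
    (hP : ∀ T ∈ Icc a b, 0 < P T) (hu : ∀ T ∈ Icc a b, HasDerivAt u (w T) T)
    (hw : ∀ T ∈ Icc a b, HasDerivAt w
      (-((3 * cosh (u T) - sM μ T / 2) * w T + 6 * sinh (u T)) / P T ^ 2) T)
    (hPd : ∀ T ∈ Icc a b,
      HasDerivAt P (-3 * P T + (3 * cosh (u T) - sM μ T / 2) / P T + sM μ T * Φ T) T)
    (hΦ : ∀ T ∈ Icc a b, HasDerivAt Φ (-5 * Φ T + (3 * κ - g T + sM μ T * Φ T ^ 2) / P T) T)
    (hg : ∀ T ∈ Icc a b, HasDerivAt g (sM μ T * Φ T / P T) T)
    (h0 : conK κ (sM μ a) (u a) (w a) (P a) (Φ a) (g a) = 0) :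
    ∀ T ∈ Icc a b, conK κ (sM μ T) (u T) (w T) (P T) (Φ T) (g T) = 0 := by
  have hD : ∀ T ∈ Icc a b, HasDerivAt (fun T => conK κ (sM μ T) (u T) (w T) (P T) (Φ T) (g T))
      ((-6 + 2 * sM μ T * Φ T / P T) * conK κ (sM μ T) (u T) (w T) (P T) (Φ T) (g T)) T :=
    fun T hT => conK_deriv μ κ T u w P Φ g (hP T hT) (hu T hT) (hw T hT) (hPd T hT) (hΦ T hT)
      (hg T hT)
  have hsc : Continuous (fun T => sM μ T) := by unfold sM; fun_prop
  have hΦc : ContinuousOn Φ (Icc a b) := HasDerivAt.continuousOn hΦ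
  have hPc : ContinuousOn P (Icc a b) := HasDerivAt.continuousOn hPd
  have hcc : ContinuousOn (fun T => -6 + 2 * sM μ T * Φ T / P T) (Icc a b) :=
    continuousOn_const.add
      ((((continuousOn_const.mul hsc.continuousOn).mul hΦc)).div hPc fun T hT => (hP T hT).ne')
  obtain ⟨M, hM⟩ := isCompact_Icc.exists_bound_of_continuousOn hcc
  intro T hT
  have hgr := norm_le_gronwallBound_of_norm_deriv_right_le
    (f := fun T => conK κ (sM μ T) (u T) (w T) (P T) (Φ T) (g T))
    (f' := fun T => (-6 + 2 * sM μ T * Φ T / P T) *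
      conK κ (sM μ T) (u T) (w T) (P T) (Φ T) (g T)) (δ := 0) (K := M) (ε := 0) (a := a) (b := b)
    (HasDerivAt.continuousOn hD) (fun t ht => (hD t ⟨ht.1, ht.2.le⟩).hasDerivWithinAt)
    (by rw [h0, norm_zero]) (by
      intro t ht
      rw [norm_mul, add_zero]
      exact mul_le_mul_of_nonneg_right (hM t ⟨ht.1, ht.2.le⟩) (norm_nonneg _)) T hT
  rw [gronwallBound_ε0_δ0] at hgr
  exact norm_le_zero_iff.1 hgr

end Pool.Agent.RS
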