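import Pool.Agent.Lib.MP_35abc2_gt.D1b_NearPGF
import Pool.Agent.Lib.MP_35abc2_gt.K_Con

/-! # D3: the clamped near-cone solution solves (M) (MP_35abc2_gt) -/

open scoped ContDiff Topology NNReal
open Set Filter Real

noncomputable section

namespace Pool.Agent.RS

/-- D3. The clamped near-cone solution is a solution of (M).

PROOF. By `near_z`, `near_pgf`: `s ≤ 1/100`, `|u| ≤ 0.52√zz ≤ 1/20`, `|w| ≤ 1.27 √zz ≤ 1/20` (`zz ≤ ηk ≤ 10⁻⁴`), `|p| ≤ k/20`
(`k/700 + 2ηk ≤ k/20`), `|φ| ≤ 0.6k + 0.0028k + 0.013k ≤ k`, `|γ| ≤ k/20`, `|k'| ≤ k`: the clamps are inactive on `[a,b]`, and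
`v t 0 = μ e^{2t}` because of `hs`.  With `P = 1 + p`, `Φ = 1/2 + φ`, `g = s/4 + γ`, `κ = 5/6 + k'` the equations are exactly those of (M) (algebra:
`-3P + (3cosh u - s/2)/P + sΦ = -6p + N_p`, `-5Φ + (3κ - g + sΦ²)/P = -5φ + 3k' + N_φ`, `sΦ/P = s/2 + N_γ`,
`-((3cosh u - s/2)w + 6 sinh u)/P² = -3w - 6u + e₂`).  Constraint: `con_propagate`. -/
theorem near_solM (μ k η a b : ℝ) (v : ℝ → Fin 7 → ℝ) (h : NearHyp k η a b v) (hs : v a 0 = sM μ a)
    (hK : conK (5 / 6 + v a 6) (v a 0) (v a 1) (v a 2) (1 + v a 3) (1 / 2 + v a 4)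
      (v a 0 / 4 + v a 5) = 0) :
    SolM μ (5 / 6 + v a 6) (Icc a b) (fun t => v t 1) (fun t => v t 2) (fun t => 1 + v t 3)
      (fun t => 1 / 2 + v t 4) (fun t => v t 0 / 4 + v t 5) := by
  have hk := h.hk
  have hk' := h.hk'
  have hη := h.hη
  have hη' := h.hη'
  have hηk : 0 < η * k := mul_pos hη hk
  have hηk1 : η * k ≤ 1 / 10000 := by
    calc η * k ≤ 1 / 100 * (1 / 100) := mul_le_mul hη' hk' hk.le (by norm_num)
      _ = 1 / 10000 := by norm_num
  have hηk2 : η * k ≤ 1 / 100 * k := mul_le_mul_of_nonneg_right hη' hk.le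
  have hz := near_z k η a b v h
  have hpgf := near_pgf k η a b v h
  have hS : ∀ t ∈ Icc a b, 0 < v t 0 ∧ v t 0 ≤ 1 / 100 := by
    intro t ht
    rw [(hz t ht).1]
    refine ⟨mul_pos h.s0 (exp_pos _), le_trans ?_ h.s2⟩
    have : exp (2 * (t - a)) ≤ exp (2 * (b - a)) := exp_le_exp.2 (by linarith [ht.2])
    exact mul_le_mul_of_nonneg_left this h.s0.le
  have hsM : ∀ t ∈ Icc a b, v t 0 = sM μ t := by
    intro t ht
    rw [(hz t ht).1, hs]
    unfold sM
    rw [mul_assoc, ← exp_add]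
    congr 2
    ring
  have hcl : ∀ t ∈ Icc a b, max 0 (min (1 / 100) (v t 0)) = v t 0 := by
    intro t ht
    rw [min_eq_right (hS t ht).2, max_eq_right (hS t ht).1.le]
  have hE : ∀ t ∈ Icc a b, exp (-2 * (t - a)) ≤ 1 := fun t ht =>
    exp_le_one_iff.2 (by linarith [ht.1])
  have hks : ∀ t ∈ Icc a b, 0 < k * v t 0 ∧ k * v t 0 ≤ 1 / 100 * k := fun t ht =>
    ⟨mul_pos hk (hS t ht).1, by
      rw [mul_comm (1 / 100) k]
      exact mul_le_mul_of_nonneg_left (hS t ht).2 hk.le⟩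
  have hzz : ∀ t ∈ Icc a b, zz (v t 1) (v t 2) ≤ 1 / 10000 := by
    intro t ht
    have h1 := (hz t ht).2.2
    have h0 : 0 ≤ zz (v a 1) (v a 2) := by unfold zz; positivity
    have h2 : zz (v a 1) (v a 2) * exp (-2 * (t - a)) ≤ η * k := by
      calc _ ≤ zz (v a 1) (v a 2) * 1 := mul_le_mul_of_nonneg_left (hE t ht) h0
        _ ≤ η * k := by rw [mul_one]; exact h.z0
    linarith
  have hu : ∀ t ∈ Icc a b, |v t 1| ≤ 1 / 20 := by
    intro t ht
    have h1 := hzz t ht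
    refine abs_le_of_sq_le_sq ?_ (by norm_num)
    unfold zz at h1
    nlinarith [sq_nonneg (v t 2 + 3 / 2 * v t 1)]
  have hw : ∀ t ∈ Icc a b, |v t 2| ≤ 1 / 20 := by
    intro t ht
    have h1 := hzz t ht
    refine abs_le_of_sq_le_sq ?_ (by norm_num)
    unfold zz at h1
    nlinarith [sq_nonneg (v t 1 + 1 / 4 * v t 2)]
  have hp : ∀ t ∈ Icc a b, |v t 3| ≤ k * v t 0 / 7 + 2 * (η * k) := by
    intro t ht
    have h1 := (hpgf t ht).1
    have h2 : 2 * (η * k) * exp (-2 * (t - a)) ≤ 2 * (η * k) * 1 :=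
      mul_le_mul_of_nonneg_left (hE t ht) (by positivity)
    linarith
  have hpb : ∀ t ∈ Icc a b, |v t 3| ≤ k / 20 := by
    intro t ht
    have h1 := hp t ht
    have h2 := hks t ht
    linarith
  have hP : ∀ t ∈ Icc a b, 0 < 1 + v t 3 := by
    intro t ht
    have h1 := (abs_le.1 (hpb t ht)).1
    linarith
  have hpc : ∀ t ∈ Icc a b, cl (k / 20) (v t 3) = v t 3 := fun t ht => cl_of_abs_le (hpb t ht)
  have hφc : ∀ t ∈ Icc a b, cl k (v t 4) = v t 4 := by
    intro t ht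
    have h1 := (hpgf t ht).2.2
    have h2 := hks t ht
    have h3 := h.k0
    refine cl_of_abs_le ?_
    have h4 : |v t 4| ≤ |v t 4 - 3 * v a 6 / 5| + |3 * v a 6 / 5| := by
      have := abs_add_le (v t 4 - 3 * v a 6 / 5) (3 * v a 6 / 5)
      simpa using this
    have h5 : |3 * v a 6 / 5| ≤ 3 * k / 5 := by
      rw [abs_div, abs_mul, abs_of_pos (by norm_num : (0 : ℝ) < 3),
        abs_of_pos (by norm_num : (0 : ℝ) < 5)]
      linarith
    linarith
  have hγc : ∀ t ∈ Icc a b, cl (k / 20) (v t 5) = v t 5 := by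
    intro t ht
    have h1 := (hpgf t ht).2.1
    have h2 := hks t ht
    exact cl_of_abs_le (by linarith)
  have huc : ∀ t ∈ Icc a b, cl (1 / 20) (v t 1) = v t 1 := fun t ht => cl_of_abs_le (hu t ht)
  have hwc : ∀ t ∈ Icc a b, cl (1 / 20) (v t 2) = v t 2 := fun t ht => cl_of_abs_le (hw t ht)
  have hkc : ∀ t ∈ Icc a b, cl k (v t 6) = v a 6 := by
    intro t ht
    rw [(hz t ht).2.1]
    exact cl_of_abs_le h.k0
  have hcoord : ∀ t ∈ Icc a b, ∀ i, HasDerivAt (fun t => v t i) (F2 k (v t) i) t := fun t ht i =>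
    hasDerivAt_pi.1 (h.ode t ht) i
  have hSd : ∀ t ∈ Icc a b, HasDerivAt (fun t => v t 0) (2 * v t 0) t := fun t ht => by
    simpa [F2] using hcoord t ht 0
  have e1 : ∀ t ∈ Icc a b, HasDerivAt (fun t => v t 1) (v t 2) t := fun t ht => by
    simpa [F2] using hcoord t ht 1
  have e2' : ∀ t ∈ Icc a b, HasDerivAt (fun t => v t 2)
      (-((3 * cosh (v t 1) - sM μ t / 2) * v t 2 + 6 * sinh (v t 1)) / (1 + v t 3) ^ 2) t := by
    intro t ht
    have h2 := hcoord t ht 2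
    have h3 : F2 k (v t) 2 = -3 * v t 2 - 6 * v t 1 + e2 (max 0 (min (1 / 100) (v t 0)))
      (cl (1 / 20) (v t 1)) (cl (1 / 20) (v t 2)) (cl (k / 20) (v t 3)) := rfl
    rw [h3, hcl t ht, huc t ht, hpc t ht, hwc t ht] at h2
    refine h2.congr_deriv ?_
    rw [← hsM t ht]
    have hne := (hP t ht).ne'
    unfold e2
    field_simp
    ring
  have e3 : ∀ t ∈ Icc a b, HasDerivAt (fun t => 1 + v t 3)
      (-3 * (1 + v t 3) + (3 * cosh (v t 1) - sM μ t / 2) / (1 + v t 3)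
        + sM μ t * (1 / 2 + v t 4)) t := by
    intro t ht
    have h2 := hcoord t ht 3
    have h3 : F2 k (v t) 3 = -6 * v t 3 + Np (max 0 (min (1 / 100) (v t 0)))
      (cl (1 / 20) (v t 1)) (cl (k / 20) (v t 3)) (cl k (v t 4)) := rfl
    rw [h3, hcl t ht, huc t ht, hpc t ht, hφc t ht] at h2
    refine (h2.const_add 1).congr_deriv ?_
    rw [← hsM t ht]
    have hne := (hP t ht).ne'
    unfold Np
    field_simp
    ring
  have e4 : ∀ t ∈ Icc a b, HasDerivAt (fun t => 1 / 2 + v t 4)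
      (-5 * (1 / 2 + v t 4) + (3 * (5 / 6 + v a 6) - (v t 0 / 4 + v t 5)
        + sM μ t * (1 / 2 + v t 4) ^ 2) / (1 + v t 3)) t := by
    intro t ht
    have h2 := hcoord t ht 4
    have h3 : F2 k (v t) 4 = -5 * v t 4 + 3 * cl k (v t 6) +
      Nφ (max 0 (min (1 / 100) (v t 0))) (cl (k / 20) (v t 3)) (cl k (v t 4))
        (cl (k / 20) (v t 5)) (cl k (v t 6)) := rfl
    rw [h3, hcl t ht, hkc t ht, hpc t ht, hφc t ht, hγc t ht] at h2
    refine (h2.const_add (1 / 2)).congr_deriv ?_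
    rw [← hsM t ht]
    have hne := (hP t ht).ne'
    unfold Nφ
    field_simp
    ring
  have e5 : ∀ t ∈ Icc a b, HasDerivAt (fun t => v t 0 / 4 + v t 5)
      (sM μ t * (1 / 2 + v t 4) / (1 + v t 3)) t := by
    intro t ht
    have h2 := hcoord t ht 5
    have h3 : F2 k (v t) 5 =
      Nγ (max 0 (min (1 / 100) (v t 0))) (cl (k / 20) (v t 3)) (cl k (v t 4)) := rfl
    rw [h3, hcl t ht, hpc t ht, hφc t ht] at h2
    refine (((hSd t ht).div_const 4).add h2).congr_deriv ?_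
    rw [← hsM t ht]
    have hne := (hP t ht).ne'
    unfold Nγ
    field_simp
    ring
  refine ⟨hP, e1, e2', e3, e4, e5, ?_⟩
  refine con_propagate μ (5 / 6 + v a 6) a b (fun t => v t 1) (fun t => v t 2)
    (fun t => 1 + v t 3) (fun t => 1 / 2 + v t 4) (fun t => v t 0 / 4 + v t 5)
    hP e1 e2' e3 e4 e5 ?_
  rw [← hs]
  exact hK

end Pool.Agent.RS
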