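import Mathlib

/-! # D4: the perturbation of the linear reference system (MP_35abc2_gt) -/

open scoped ContDiff Topology NNReal
open Set Filter Real

noncomputable section

namespace Pool.Agent.RS

/-- D4. The `(u,w)`-part of any solution of (M) near the cone is a perturbation of the linear reference system.
Here `q = P² - 1`; `s ≤ 200`, `|u| ≤ 1/20`, `|q| ≤ 1/100`.

PROOF. The `w`-equation of (M) is `w' = -(3-s/2)w - 6u + e` with
`e = -[3(cosh u-1) - (3-s/2)q]/Q·w - 6[(sinh u-u) - qu]/Q`, `Q = 1+q = P²`, and `3(cosh u-1) ≤ 1.51u²`, `|3-s/2| ≤ 97`, `|sinh u-u| ≤ u²|u|/5`, `Q ≥ 0.99`. -/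
theorem e_bound (s u w q : ℝ) (hs : 0 ≤ s) (hs' : s ≤ 200) (hu : |u| ≤ 1 / 20) (hq : |q| ≤ 1 / 100) :
    |-((3 * cosh u - s / 2) * w + 6 * sinh u) / (1 + q) - (-(3 - s / 2) * w - 6 * u)|
      ≤ 110 * (u ^ 2 + |q|) * (|u| + |w|) := by
  have hu1 : |u| ≤ 1 := by linarith
  have hnu1 : |-u| ≤ 1 := by rw [abs_neg]; exact hu1
  have b1 := Real.exp_bound hu1 (n := 3) (by norm_num)
  have b2 := Real.exp_bound hnu1 (n := 3) (by norm_num)
  have f3 : Nat.factorial 3 = 6 := by decide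
  have f2 : Nat.factorial 2 = 2 := by decide
  have f1 : Nat.factorial 1 = 1 := by decide
  have f0 : Nat.factorial 0 = 1 := by decide
  rw [abs_neg] at b2
  simp only [Finset.sum_range_succ, Finset.sum_range_zero, f3, f2, f1, f0] at b1 b2
  norm_num at b1 b2
  rw [abs_le] at b1 b2
  have hsq : |u| ^ 2 = u ^ 2 := sq_abs u
  have hu0 : 0 ≤ |u| := abs_nonneg u
  have hcube : |u| ^ 3 ≤ u ^ 2 * (1 / 20) := by
    have : |u| ^ 3 = u ^ 2 * |u| := by rw [pow_succ, hsq]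
    rw [this]
    exact mul_le_mul_of_nonneg_left hu (sq_nonneg u)
  have hcosh : |cosh u - 1| ≤ 0.52 * u ^ 2 := by
    rw [Real.cosh_eq, abs_le]
    constructor
    · nlinarith [b1.1, b1.2, b2.1, b2.2, sq_nonneg u]
    · nlinarith [b1.1, b1.2, b2.1, b2.2, sq_nonneg u]
  have hsinh : |sinh u - u| ≤ 0.3 * |u| ^ 3 := by
    have h3 : 0 ≤ |u| ^ 3 := by positivity
    rw [Real.sinh_eq, abs_le]
    constructor
    · nlinarith [b1.1, b1.2, b2.1, b2.2]
    · nlinarith [b1.1, b1.2, b2.1, b2.2]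
  have hQ : (0.99 : ℝ) ≤ 1 + q := by
    have := (abs_le.1 hq).1
    linarith
  have hQ0 : (0 : ℝ) < 1 + q := by linarith
  have h97 : |3 - s / 2| ≤ 97 := by
    rw [abs_le]
    constructor <;> linarith
  have hid : -((3 * cosh u - s / 2) * w + 6 * sinh u) / (1 + q) - (-(3 - s / 2) * w - 6 * u)
      = ((-3 * (cosh u - 1) + q * (3 - s / 2)) * w + (-6 * (sinh u - u) + 6 * q * u)) / (1 + q) := by
    field_simp
    ring
  rw [hid, abs_div, abs_of_pos hQ0, div_le_iff₀ hQ0]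
  have hw0 : 0 ≤ |w| := abs_nonneg w
  have hq0 : 0 ≤ |q| := abs_nonneg q
  have i1 : |(-3 * (cosh u - 1) + q * (3 - s / 2)) * w| ≤ (1.56 * u ^ 2 + 97 * |q|) * |w| := by
    rw [abs_mul]
    refine mul_le_mul_of_nonneg_right ?_ hw0
    refine (abs_add_le _ _).trans ?_
    rw [abs_mul, abs_mul]
    have e1 : |(-3 : ℝ)| = 3 := by norm_num
    rw [e1]
    have e2 : |q| * |3 - s / 2| ≤ |q| * 97 := mul_le_mul_of_nonneg_left h97 hq0
    linarith
  have i2 : |-6 * (sinh u - u) + 6 * q * u| ≤ (1.8 * u ^ 2 + 6 * |q|) * |u| := by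
    refine (abs_add_le _ _).trans ?_
    rw [abs_mul, abs_mul, abs_mul]
    have e1 : |(-6 : ℝ)| = 6 := by norm_num
    have e2 : |(6 : ℝ)| = 6 := by norm_num
    rw [e1, e2]
    have e3 : |u| ^ 3 = u ^ 2 * |u| := by rw [pow_succ, hsq]
    have e5 : 6 * |sinh u - u| ≤ 1.8 * (u ^ 2 * |u|) := by rw [← e3]; linarith
    linarith
  have hu2 : 0 ≤ u ^ 2 := sq_nonneg u
  have p1 : 0 ≤ u ^ 2 * |w| := mul_nonneg hu2 hw0
  have p2 : 0 ≤ |q| * |w| := mul_nonneg hq0 hw0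
  have p3 : 0 ≤ u ^ 2 * |u| := mul_nonneg hu2 hu0
  have p4 : 0 ≤ |q| * |u| := mul_nonneg hq0 hu0
  have hsum := (abs_add_le ((-3 * (cosh u - 1) + q * (3 - s / 2)) * w) (-6 * (sinh u - u) + 6 * q * u)).trans
    (add_le_add i1 i2)
  refine hsum.trans ?_
  have hR0 : 0 ≤ 110 * (u ^ 2 + |q|) * (|u| + |w|) := by positivity
  have hR : 110 * (u ^ 2 + |q|) * (|u| + |w|) * 0.99 ≤ 110 * (u ^ 2 + |q|) * (|u| + |w|) * (1 + q) :=
    mul_le_mul_of_nonneg_left hQ hR0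
  refine le_trans ?_ hR
  nlinarith

end Pool.Agent.RS
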