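import Mathlib

/-!
# Ricci shrinkers on open subsets of `ℝⁿ`: definitions (MP_35abc2_gt)

All objects are the classical coordinate expressions on an open set `Ω ⊆ ℝⁿ`, i.e. on a manifold
covered by a single chart.
-/

open scoped ContDiff Topology
open Set Filter

noncomputable section

namespace Pool.Agent.RS

/-- Euclidean space of dimension `n`. -/
abbrev Euc (n : ℕ) := EuclideanSpace ℝ (Fin n)

/-- Bilinear forms on a normed space. -/
abbrev Form2 (E : Type*) [NormedAddCommGroup E] [NormedSpace ℝ E] := E →L[ℝ] E →L[ℝ] ℝ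

section Flat

variable {E : Type*} [NormedAddCommGroup E] [NormedSpace ℝ E]

/-- Christoffel symbols of the first kind of the metric `G` at the point `y`:
`w ↦ ½ (∂_u G(v,w) + ∂_v G(u,w) - ∂_w G(u,v))`. -/
def christoffelLower (G : E → Form2 E) (y u v : E) : E →L[ℝ] ℝ :=
  (1 / 2 : ℝ) • (fderiv ℝ G y u v + fderiv ℝ G y v u - ((fderiv ℝ G y).flip u).flip v)

/-- Christoffel symbols of the second kind: the vector `Γ(u,v)` with
`G(Γ(u,v), w) = ½ (∂_u G(v,w) + ∂_v G(u,w) - ∂_w G(u,v))` for all `w`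
(for a nondegenerate symmetric `G`). -/
def christoffel (G : E → Form2 E) (y u v : E) : E :=
  (G y).inverse (christoffelLower G y u v)

/-- Riemann curvature in coordinates:
`R(u,v)w = (∂_u Γ)(v,w) - (∂_v Γ)(u,w) + Γ(u,Γ(v,w)) - Γ(v,Γ(u,w))`. -/
def riemann (G : E → Form2 E) (y u v w : E) : E :=
  fderiv ℝ (fun z => christoffel G z v w) y u - fderiv ℝ (fun z => christoffel G z u w) y v
    + christoffel G y u (christoffel G y v w) - christoffel G y v (christoffel G y u w)

/-- The Hessian of `f` (second covariant derivative) in coordinates: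
`∇²f(v,w) = ∂_v ∂_w f - df(Γ(v,w))`. -/
def hess (G : E → Form2 E) (f : E → ℝ) (y v w : E) : ℝ :=
  fderiv ℝ (fun z => fderiv ℝ f z w) y v - fderiv ℝ f y (christoffel G y v w)

end Flat

section Coord

variable {n : ℕ}

/-- The `i`-th standard basis vector of `ℝⁿ`. -/
def eb (i : Fin n) : Euc n := EuclideanSpace.single i (1 : ℝ)

/-- Ricci tensor: `Ric(v,w)` is the trace of `u ↦ R(u,v)w`. -/
def ricci (G : Euc n → Form2 (Euc n)) (y v w : Euc n) : ℝ :=
  ∑ i, (riemann G y (eb i) v w) i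

/-- The coefficient `g^{ij}` of the inverse metric: the `j`-th coordinate of the vector which `G`
identifies with the coordinate covector `dx^i`. -/
def invMetric (G : Euc n → Form2 (Euc n)) (y : Euc n) (i j : Fin n) : ℝ :=
  ((G y).inverse (EuclideanSpace.proj i : Euc n →L[ℝ] ℝ)) j

/-- Scalar curvature `R = g^{ij} Ric_{ij}`. -/
def scal (G : Euc n → Form2 (Euc n)) (y : Euc n) : ℝ :=
  ∑ i, ∑ j, invMetric G y i j * ricci G y (eb i) (eb j)

/-- The length of the velocity of the curve `γ : [0,1) → ℝⁿ` at time `t`. -/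
def speed (G : Euc n → Form2 (Euc n)) (γ : ℝ → Euc n) (t : ℝ) : ℝ :=
  Real.sqrt (G (γ t) (derivWithin γ (Ico 0 1) t) (derivWithin γ (Ico 0 1) t))

/-- Completeness of the Riemannian metric `G` on `Ω`: every `C¹` curve `γ : [0,1) → Ω` of finite
length converges to a point of `Ω`. (By the Hopf–Rinow theorem this is equivalent to completeness of
`Ω` for the Riemannian distance, and to geodesic completeness.) -/
def IsCompleteMetric (Ω : Set (Euc n)) (G : Euc n → Form2 (Euc n)) : Prop :=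
  ∀ γ : ℝ → Euc n, ContDiffOn ℝ 1 γ (Ico 0 1) → (∀ t ∈ Ico (0 : ℝ) 1, γ t ∈ Ω) →
    (∃ L : ℝ, ∀ b ∈ Ico (0 : ℝ) 1, ∫ t in (0 : ℝ)..b, speed G γ t ≤ L) →
    ∃ q ∈ Ω, Tendsto γ (𝓝[<] 1) (𝓝 q)

/-- `(Ω, G, f)` is an `n`-dimensional Ricci shrinker (complete gradient shrinking Ricci soliton):
`Ω` is a connected open subset of `ℝⁿ` (a manifold with one chart), `G` is a complete smooth
Riemannian metric on it and `Ric_G + ∇²f = ½ G` with `f` smooth. -/
structure IsShrinker (Ω : Set (Euc n)) (G : Euc n → Form2 (Euc n)) (f : Euc n → ℝ) : Prop where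
  isOpen : IsOpen Ω
  connected : IsConnected Ω
  smooth : ContDiffOn ℝ ∞ G Ω
  symm : ∀ y ∈ Ω, ∀ v w, G y v w = G y w v
  pos : ∀ y ∈ Ω, ∀ v, v ≠ 0 → 0 < G y v v
  complete : IsCompleteMetric Ω G
  smooth_potential : ContDiffOn ℝ ∞ f Ω
  soliton : ∀ y ∈ Ω, ∀ v w, ricci G y v w + hess G f y v w = (1 / 2 : ℝ) * G y v w

/-- The metric is not flat: its Riemann tensor does not vanish identically on `Ω`. -/
def NonFlat (Ω : Set (Euc n)) (G : Euc n → Form2 (Euc n)) : Prop :=
  ∃ y ∈ Ω, ∃ u v w, riemann G y u v w ≠ 0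

end Coord

end Pool.Agent.RS
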