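import Pool.Agent.Lib.MP_35abc2_gt.Sys

/-! # E0: conditions on the clamp levels (MP_35abc2_gt) -/

open scoped ContDiff Topology NNReal
open Set Filter Real

noncomputable section

namespace Pool.Agent.RS

/-- conditions on the clamp levels of the outer system -/
structure EpsCond (εu εq : ℝ) : Prop where
  hu : 0 < εu
  hu' : 20 * εu ≤ 1 / 100
  hq : 0 < εq
  hq' : εq ≤ 1 / 2000
  huq : 3 * 10 ^ 8 * εu ^ 2 ≤ εq

end Pool.Agent.RS
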