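import Pool.Agent.Lib.MP_35abc2_gt.E0_Defs

/-! # E1: growth on [1/100, 200] (MP_35abc2_gt) -/

open scoped ContDiff Topology NNReal
open Set Filter Real

noncomputable section

namespace Pool.Agent.RS

theorem E1_sinh {x : ℝ} (hx : |x| ≤ 1) : |Real.sinh x| ≤ 2 * |x| := by
  have h1 := Real.abs_exp_sub_one_sub_id_le hx
  have h2 := Real.abs_exp_sub_one_sub_id_le (x := -x) (by rwa [abs_neg])
  have h3 : Real.sinh x = x + ((Real.exp x - 1 - x) - (Real.exp (-x) - 1 - (-x))) / 2 := by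
    rw [Real.sinh_eq]
    ring
  have h4 : x ^ 2 ≤ |x| := by
    rw [← sq_abs]
    nlinarith [abs_nonneg x]
  rw [h3]
  rw [abs_le] at h1 h2
  have h5 : |((Real.exp x - 1 - x) - (Real.exp (-x) - 1 - (-x))) / 2| ≤ x ^ 2 := by
    rw [abs_le]
    constructor <;> nlinarith [h1.1, h1.2, h2.1, h2.2]
  have h6 := abs_add_le x (((Real.exp x - 1 - x) - (Real.exp (-x) - 1 - (-x))) / 2)
  linarith

theorem E1_cosh {x : ℝ} (hx : |x| ≤ 1) : |Real.cosh x - 1| ≤ x ^ 2 := by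
  have h1 := Real.abs_exp_sub_one_sub_id_le hx
  have h2 := Real.abs_exp_sub_one_sub_id_le (x := -x) (by rwa [abs_neg])
  have h3 : Real.cosh x - 1 = ((Real.exp x - 1 - x) + (Real.exp (-x) - 1 - (-x))) / 2 := by
    rw [Real.cosh_eq]
    ring
  rw [h3]
  rw [abs_le] at h1 h2
  rw [abs_le]
  constructor <;> nlinarith [h1.1, h1.2, h2.1, h2.2]

theorem E1_sig {s : ℝ} (_hs : 1 / 100 ≤ s) : 0 < sig s ∧ sig s ≤ 100 := by
  have h1 : (1 / 100 : ℝ) ≤ max s (1 / 100) := le_max_right _ _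
  unfold sig
  constructor
  · positivity
  · rw [div_le_iff₀ (by linarith)]
    linarith

theorem E1_q {q : ℝ} (hq : |q| ≤ 1 / 2000) : 0 < 1 / (1 + q) ∧ 1 / (1 + q) ≤ 2 ∧
    |1 / (1 + q) - 1| ≤ 1 := by
  rw [abs_le] at hq
  have h0 : 0 < 1 + q := by linarith [hq.1]
  have h1 : 0 < 1 / (1 + q) := by positivity
  have h2 : 1 / (1 + q) ≤ 2 := by
    rw [div_le_iff₀ h0]
    linarith [hq.1]
  refine ⟨h1, h2, ?_⟩
  rw [abs_le]
  constructor <;> linarith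

theorem E1_rW {σ u W q : ℝ} (hσ0 : 0 < σ) (hσ : σ ≤ 100) (hu : |u| ≤ 1 / 2000)
    (hq : |q| ≤ 1 / 2000) : |rW σ u W q| ≤ 800 * |W| + 20 * |u| := by
  obtain ⟨q1, q2, q3⟩ := E1_q hq
  have hs := E1_sinh (x := u) (by linarith)
  have hc := E1_cosh (x := u) (by linarith)
  have hu2 : u ^ 2 ≤ 1 := by
    rw [← sq_abs]
    nlinarith [abs_nonneg u]
  have hc2 : |Real.cosh u| ≤ 2 := by
    rw [abs_le] at hc ⊢
    constructor <;> linarith [hc.1, hc.2]
  have hW0 := abs_nonneg W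
  have hu0 := abs_nonneg u
  have e1 : |1 / 4 * (1 / (1 + q) - 1) * W| ≤ |W| := by
    rw [abs_mul, abs_mul, abs_of_pos (by norm_num : (0 : ℝ) < 1 / 4)]
    nlinarith [abs_nonneg (1 / (1 + q) - 1)]
  have e2 : |W * σ| ≤ 100 * |W| := by
    rw [abs_mul, abs_of_pos hσ0]
    nlinarith
  have e3 : |3 * Real.cosh u / (2 * (1 + q)) * W * σ| ≤ 600 * |W| := by
    have : 3 * Real.cosh u / (2 * (1 + q)) * W * σ =
        (3 / 2) * Real.cosh u * (1 / (1 + q)) * (W * σ) := by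
      field_simp
    rw [this, abs_mul, abs_mul, abs_mul, abs_of_pos (by norm_num : (0 : ℝ) < 3 / 2), abs_of_pos q1]
    have h1 : 3 / 2 * |Real.cosh u| * (1 / (1 + q)) ≤ 3 / 2 * 2 * 2 := by
      gcongr
    calc 3 / 2 * |Real.cosh u| * (1 / (1 + q)) * |W * σ| ≤ (3 / 2 * 2 * 2) * (100 * |W|) := by
          gcongr
      _ = 600 * |W| := by ring
  have e4 : |3 * Real.sinh u / (1 + q)| ≤ 12 * |u| := by
    have : 3 * Real.sinh u / (1 + q) = 3 * Real.sinh u * (1 / (1 + q)) := by ring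
    rw [this, abs_mul, abs_mul, abs_of_pos (by norm_num : (0 : ℝ) < 3), abs_of_pos q1]
    calc 3 * |Real.sinh u| * (1 / (1 + q)) ≤ 3 * (2 * |u|) * 2 := by gcongr
      _ = 12 * |u| := by ring
  unfold rW
  rw [abs_le] at e1 e2 e3 e4 ⊢
  constructor <;> linarith [e1.1, e1.2, e2.1, e2.2, e3.1, e3.2, e4.1, e4.2]

theorem E1_rD {σ u W q D ε : ℝ} (hσ0 : 0 < σ) (hσ : σ ≤ 100) (hu : |u| ≤ 1 / 2000)
    (hq : |q| ≤ 1 / 2000) (hD : |D| ≤ 1 / 250) (hε : 0 < ε) (hue : |u| ≤ ε) (hWe : |W| ≤ 20 * ε) :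
    |rD σ u W q D| ≤ 1000 * |D| + 2 * |q| + 5 * 10 ^ 6 * ε ^ 2 := by
  obtain ⟨q1, q2, q3⟩ := E1_q hq
  have hs := E1_sinh (x := u) (by linarith)
  have hc := E1_cosh (x := u) (by linarith)
  have hu2 : u ^ 2 ≤ 1 := by
    rw [← sq_abs]
    nlinarith [abs_nonneg u]
  have hue2 : u ^ 2 ≤ ε ^ 2 := by
    rw [← sq_abs]
    exact pow_le_pow_left₀ (abs_nonneg u) hue 2
  have hWe2 : W ^ 2 ≤ 400 * ε ^ 2 := by
    rw [← sq_abs]
    calc |W| ^ 2 ≤ (20 * ε) ^ 2 := pow_le_pow_left₀ (abs_nonneg W) hWe 2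
      _ = 400 * ε ^ 2 := by ring
  have hc2 : |Real.cosh u| ≤ 2 := by
    rw [abs_le] at hc ⊢
    constructor <;> linarith [hc.1, hc.2]
  have hD0 := abs_nonneg D
  have hu0 := abs_nonneg u
  have hσ2 : σ ^ 2 ≤ 10000 := by nlinarith
  have e1 : |1 / 4 * (1 / (1 + q) - 1) * D| ≤ |D| := by
    rw [abs_mul, abs_mul, abs_of_pos (by norm_num : (0 : ℝ) < 1 / 4)]
    nlinarith [abs_nonneg (1 / (1 + q) - 1)]
  have e2 : |2 * D * σ| ≤ 200 * |D| := by
    rw [abs_mul, abs_mul, abs_of_pos hσ0, abs_of_pos (by norm_num : (0 : ℝ) < 2)]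
    nlinarith
  have e3 : |D ^ 2 * σ ^ 2 / (2 * (1 + q))| ≤ 40 * |D| := by
    have : D ^ 2 * σ ^ 2 / (2 * (1 + q)) = D ^ 2 * σ ^ 2 * (1 / (1 + q)) / 2 := by
      field_simp
    rw [this, abs_of_nonneg (by positivity)]
    have h1 : D ^ 2 ≤ 1 / 250 * |D| := by
      rw [← sq_abs]
      nlinarith
    calc D ^ 2 * σ ^ 2 * (1 / (1 + q)) / 2 ≤ (1 / 250 * |D|) * 10000 * 2 / 2 := by gcongr
      _ = 40 * |D| := by ring
  have e4 : |3 / 2 * (q - (Real.cosh u - 1))| ≤ 3 / 2 * |q| + 2 * ε ^ 2 := by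
    rw [abs_mul, abs_of_pos (by norm_num : (0 : ℝ) < 3 / 2)]
    have h1 := abs_sub q (Real.cosh u - 1)
    nlinarith
  have hq' : |q| ≤ 1 := by linarith
  have e5 : |1 / 2 * (1 + q) * W ^ 2 * σ ^ 2| ≤ 4 * 10 ^ 6 * ε ^ 2 := by
    rw [abs_le] at hq'
    have h0 : 0 ≤ 1 + q := by linarith [hq'.1]
    rw [abs_of_nonneg (by positivity)]
    calc 1 / 2 * (1 + q) * W ^ 2 * σ ^ 2 ≤ 1 / 2 * (1 + 1) * (400 * ε ^ 2) * 10000 := by
          gcongr
          exact hq'.2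
      _ = 4 * 10 ^ 6 * ε ^ 2 := by ring
  have e6 : |3 / 2 * W * σ * Real.sinh u| ≤ 6000 * ε ^ 2 := by
    rw [abs_mul, abs_mul, abs_mul, abs_of_pos hσ0, abs_of_pos (by norm_num : (0 : ℝ) < 3 / 2)]
    calc 3 / 2 * |W| * σ * |Real.sinh u| ≤ 3 / 2 * (20 * ε) * 100 * (2 * ε) := by
          gcongr
          linarith
      _ = 6000 * ε ^ 2 := by ring
  have e7 : |3 * Real.cosh u / (2 * (1 + q)) * D * σ| ≤ 600 * |D| := by
    have : 3 * Real.cosh u / (2 * (1 + q)) * D * σ =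
        (3 / 2) * Real.cosh u * (1 / (1 + q)) * (D * σ) := by
      field_simp
    rw [this, abs_mul, abs_mul, abs_mul, abs_of_pos (by norm_num : (0 : ℝ) < 3 / 2), abs_of_pos q1]
    have h1 : 3 / 2 * |Real.cosh u| * (1 / (1 + q)) ≤ 3 / 2 * 2 * 2 := by
      gcongr
    have h2 : |D * σ| ≤ 100 * |D| := by
      rw [abs_mul, abs_of_pos hσ0]
      nlinarith
    calc 3 / 2 * |Real.cosh u| * (1 / (1 + q)) * |D * σ| ≤ (3 / 2 * 2 * 2) * (100 * |D|) := by
          gcongr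
      _ = 600 * |D| := by ring
  unfold rD
  have hε2 : 0 ≤ ε ^ 2 := sq_nonneg ε
  have hq0 := abs_nonneg q
  rw [abs_le] at e1 e2 e3 e4 e5 e6 e7 ⊢
  constructor <;> linarith [e1.1, e1.2, e2.1, e2.2, e3.1, e3.2, e4.1, e4.2, e5.1, e5.2, e6.1, e6.2,
    e7.1, e7.2]

/-- Gronwall for a pair -/
theorem E1_gr {f g f' g' : ℝ → ℝ} {K e a b : ℝ} (hK : 0 < K) (he : 0 ≤ e)
    (hf : ∀ s ∈ Icc a b, HasDerivAt f (f' s) s) (hg : ∀ s ∈ Icc a b, HasDerivAt g (g' s) s)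
    (hb : ∀ s ∈ Icc a b, |f' s| ≤ K * (|f s| + |g s|) / 2 + e ∧ |g' s| ≤ K * (|f s| + |g s|) / 2 + e) :
    ∀ s ∈ Icc a b, |f s| + |g s| ≤ 2 * ((|f a| + |g a|) + e / K) * Real.exp (K * (b - a)) := by
  intro s hs
  have hab : a ≤ b := hs.1.trans hs.2
  have h1 : ∀ s ∈ Icc a b, HasDerivAt (fun t => (f t, g t)) (f' s, g' s) s := fun s hs =>
    (hf s hs).prodMk (hg s hs)
  have h2 := norm_le_gronwallBound_of_norm_deriv_right_le (f := fun t => (f t, g t))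
    (f' := fun t => (f' t, g' t)) (δ := |f a| + |g a|) (K := K) (ε := e) (a := a) (b := b)
    (fun t ht => (h1 t ht).continuousAt.continuousWithinAt)
    (fun t ht => (h1 t ⟨ht.1, ht.2.le⟩).hasDerivWithinAt) ?_ ?_ s hs
  · have h3 : |f s| + |g s| ≤ 2 * ‖(f s, g s)‖ := by
      have h4 := norm_fst_le (f s, g s)
      have h5 := norm_snd_le (f s, g s)
      rw [Real.norm_eq_abs] at h4 h5
      linarith
    refine h3.trans ?_
    rw [gronwallBound_of_K_ne_0 hK.ne'] at h2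
    have h6 : Real.exp (K * (s - a)) ≤ Real.exp (K * (b - a)) := by
      apply Real.exp_le_exp.2
      have := hs.2
      nlinarith
    have h7 : 0 ≤ e / K := by positivity
    have h8 := abs_nonneg (f a)
    have h9 := abs_nonneg (g a)
    have h10 : 0 < Real.exp (K * (s - a)) := Real.exp_pos _
    nlinarith
  · have h8 := abs_nonneg (f a)
    have h9 := abs_nonneg (g a)
    rw [Prod.norm_def, Real.norm_eq_abs, Real.norm_eq_abs]
    exact max_le (by linarith) (by linarith)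
  · intro t ht
    obtain ⟨h3, h4⟩ := hb t ⟨ht.1, ht.2.le⟩
    have h5 := norm_fst_le (f t, g t)
    have h6 := norm_snd_le (f t, g t)
    rw [Real.norm_eq_abs] at h5 h6
    rw [Prod.norm_def (f' t, g' t), Real.norm_eq_abs, Real.norm_eq_abs]
    simp only at h5 h6 ⊢
    refine max_le ?_ ?_
    · nlinarith
    · nlinarith

/-- E1. Growth on `[1/100, 200]`.

PROOF. On `[1/100,200]`, `σ = 1/s ≤ 100`. With the bars denoting clamped values (`|x̄| ≤ |x|`, `|ū| ≤ 1/2000`, `|W̄| ≤ 1/100`, `|q̄| ≤ 1/2000`, `|Δ̄| ≤ 1/250`):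
`|u'| ≤ 5000|W|`, `|W'| ≤ |W|/4 + |rW| ≤ 100|W| + 4|u|`, `|q'| ≤ 10⁴|Δ|`,
`|Δ'| ≤ |Δ|/4 + |rD| ≤ 500|Δ| + 2|q| + 3·10⁶ εu²` (`Δ̄²σ²/(2Q̄) ≤ 21|Δ|`, `½Q̄W̄²σ² ≤ 2.1·10⁶ εu²`, `(3/2)|W̄|σ|sinh ū| ≤ 3100 εu²`).
Gronwall (`norm_le_gronwallBound_of_norm_deriv_right_le`) for `(u,W)` and `(q,Δ)` in `ℝ × ℝ`. -/
theorem outer_gronwall : ∃ CL : ℝ, 1 ≤ CL ∧ ∀ (εu εq : ℝ), EpsCond εu εq → ∀ v : ℝ → Fin 4 → ℝ,
    (∀ s ∈ Icc (1 / 100 : ℝ) 200, HasDerivAt v (F3 εu εq s (v s)) s) →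
    ∀ s ∈ Icc (1 / 100 : ℝ) 200,
      |v s 0| + |v s 1| ≤ CL * (|v (1 / 100) 0| + |v (1 / 100) 1|) ∧
      |v s 2| + |v s 3| ≤ CL * (|v (1 / 100) 2| + |v (1 / 100) 3| + εu ^ 2) := by
  refine ⟨10000 * Real.exp (20000 * (200 - 1 / 100)), ?_, ?_⟩
  · have := Real.one_le_exp (x := 20000 * (200 - 1 / 100)) (by norm_num)
    linarith
  intro εu εq hE v hv
  have hεu := hE.hu
  have hεu' := hE.hu'
  have hεq := hE.hq
  have hεq' := hE.hq'
  have hcomp : ∀ i, ∀ s ∈ Icc (1 / 100 : ℝ) 200, HasDerivAt (fun t => v t i) (F3 εu εq s (v s) i) s :=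
    fun i s hs => (hasDerivAt_pi.1 (hv s hs)) i
  have hexp : 0 < Real.exp (20000 * (200 - 1 / 100)) := Real.exp_pos _
  intro s hs
  constructor
  · have h1 := E1_gr (f := fun t => v t 0) (g := fun t => v t 1) (K := 20000) (e := 0)
      (by norm_num) le_rfl (hcomp 0) (hcomp 1) ?_ s hs
    · simp only [zero_div, add_zero] at h1
      refine h1.trans ?_
      have h2 := abs_nonneg (v (1 / 100) 0)
      have h3 := abs_nonneg (v (1 / 100) 1)
      nlinarith [mul_nonneg (add_nonneg h2 h3) hexp.le]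
    · intro t ht
      obtain ⟨s1, s2⟩ := E1_sig ht.1
      have hu1 := cl_abs_le hεu.le (v t 0)
      have hu2 := cl_abs_le' hεu.le (v t 0)
      have hW1 := cl_abs_le (c := 20 * εu) (by linarith) (v t 1)
      have hW2 := cl_abs_le' (c := 20 * εu) (by linarith) (v t 1)
      have hq1 := cl_abs_le hεq.le (v t 2)
      have h0 := abs_nonneg (v t 0)
      have h1 := abs_nonneg (v t 1)
      have hs2 : sig t ^ 2 ≤ 10000 := by nlinarith
      constructor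
      · show |cl (20 * εu) (v t 1) * sig t ^ 2 / 2| ≤ _
        rw [abs_div, abs_mul, abs_of_pos (by norm_num : (0 : ℝ) < 2), abs_of_nonneg (sq_nonneg (sig t))]
        have h3 : |cl (20 * εu) (v t 1)| * sig t ^ 2 ≤ |v t 1| * 10000 := by gcongr
        linarith
      · show |v t 1 / 4 + rW (sig t) (cl εu (v t 0)) (cl (20 * εu) (v t 1)) (cl εq (v t 2))| ≤ _
        have h3 := E1_rW (σ := sig t) (u := cl εu (v t 0)) (W := cl (20 * εu) (v t 1))
          (q := cl εq (v t 2)) s1 s2 (by linarith) (by linarith)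
        have h4 := abs_add_le (v t 1 / 4)
          (rW (sig t) (cl εu (v t 0)) (cl (20 * εu) (v t 1)) (cl εq (v t 2)))
        rw [abs_div, abs_of_pos (by norm_num : (0 : ℝ) < 4)] at h4
        linarith
  · have h1 := E1_gr (f := fun t => v t 2) (g := fun t => v t 3) (K := 20000)
      (e := 5 * 10 ^ 6 * εu ^ 2) (by norm_num) (by positivity) (hcomp 2) (hcomp 3) ?_ s hs
    · refine h1.trans ?_
      have h2 := abs_nonneg (v (1 / 100) 2)
      have h3 := abs_nonneg (v (1 / 100) 3)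
      have h4 : 2 * (|v (1 / 100) 2| + |v (1 / 100) 3| + 5 * 10 ^ 6 * εu ^ 2 / 20000) ≤
          10000 * (|v (1 / 100) 2| + |v (1 / 100) 3| + εu ^ 2) := by
        nlinarith [sq_nonneg εu]
      calc 2 * (|v (1 / 100) 2| + |v (1 / 100) 3| + 5 * 10 ^ 6 * εu ^ 2 / 20000) *
            Real.exp (20000 * (200 - 1 / 100)) ≤
            10000 * (|v (1 / 100) 2| + |v (1 / 100) 3| + εu ^ 2) *
            Real.exp (20000 * (200 - 1 / 100)) := by gcongr
        _ = _ := by ring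
    · intro t ht
      obtain ⟨s1, s2⟩ := E1_sig ht.1
      have hu1 := cl_abs_le hεu.le (v t 0)
      have hW1 := cl_abs_le (c := 20 * εu) (by linarith) (v t 1)
      have hq1 := cl_abs_le hεq.le (v t 2)
      have hq2 := cl_abs_le' hεq.le (v t 2)
      have hD1 := cl_abs_le (c := 8 * εq) (by linarith) (v t 3)
      have hD2 := cl_abs_le' (c := 8 * εq) (by linarith) (v t 3)
      have h0 := abs_nonneg (v t 2)
      have h1 := abs_nonneg (v t 3)
      have hs2 : sig t ^ 2 ≤ 10000 := by nlinarith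
      have hε2 := sq_nonneg εu
      constructor
      · show |cl (8 * εq) (v t 3) * sig t ^ 2| ≤ _
        rw [abs_mul, abs_of_nonneg (sq_nonneg (sig t))]
        have h3 : |cl (8 * εq) (v t 3)| * sig t ^ 2 ≤ |v t 3| * 10000 := by gcongr
        linarith
      · show |v t 3 / 4 + rD (sig t) (cl εu (v t 0)) (cl (20 * εu) (v t 1)) (cl εq (v t 2))
          (cl (8 * εq) (v t 3))| ≤ _
        have h3 := E1_rD (σ := sig t) (u := cl εu (v t 0)) (W := cl (20 * εu) (v t 1))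
          (q := cl εq (v t 2)) (D := cl (8 * εq) (v t 3)) s1 s2 (by linarith) (by linarith)
          (by linarith) hεu hu1 hW1
        have h4 := abs_add_le (v t 3 / 4)
          (rD (sig t) (cl εu (v t 0)) (cl (20 * εu) (v t 1)) (cl εq (v t 2)) (cl (8 * εq) (v t 3)))
        rw [abs_div, abs_of_pos (by norm_num : (0 : ℝ) < 4)] at h4
        linarith

end Pool.Agent.RS
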