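import Pool.Agent.Lib.MP_35abc2_gt.E0_Defs
import Pool.Agent.Lib.MP_35abc2_gt.T3_Compare

/-! # E2: the W-tube (MP_35abc2_gt) -/

open scoped ContDiff Topology NNReal
open Set Filter Real

noncomputable section

namespace Pool.Agent.RS

theorem E2_cosh {x : ℝ} (h : |x| ≤ 1 / 100) : cosh x ≤ 1 + 51 / 100 * x ^ 2 := by
  have h1 : cosh x ≤ exp (x ^ 2 / 2) := Real.cosh_le_exp_half_sq x
  have hx2 : x ^ 2 ≤ 1 / 10000 := by
    rw [← sq_abs]
    calc |x| ^ 2 ≤ (1 / 100) ^ 2 := by gcongr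
      _ = 1 / 10000 := by norm_num
  have h2 : |exp (x ^ 2 / 2) - 1 - x ^ 2 / 2| ≤ (x ^ 2 / 2) ^ 2 := by
    apply Real.abs_exp_sub_one_sub_id_le
    rw [abs_of_nonneg (by positivity)]
    linarith
  have h3 := (abs_le.1 h2).2
  nlinarith [sq_nonneg x]

theorem E2_sinh {x : ℝ} (h : |x| ≤ 1 / 100) : |sinh x| ≤ 101 / 100 * |x| := by
  have h1 : |exp x - 1 - x| ≤ x ^ 2 :=
    Real.abs_exp_sub_one_sub_id_le (h.trans (by norm_num))
  have h2 : |exp (-x) - 1 - (-x)| ≤ (-x) ^ 2 :=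
    Real.abs_exp_sub_one_sub_id_le (by rw [abs_neg]; exact h.trans (by norm_num))
  have h3 : |sinh x - x| ≤ x ^ 2 := by
    rw [Real.sinh_eq, abs_le]
    have := abs_le.1 h1
    have := abs_le.1 h2
    constructor <;> nlinarith
  have h4 : |sinh x| ≤ |x| + x ^ 2 := by
    calc |sinh x| = |x + (sinh x - x)| := by ring_nf
      _ ≤ |x| + |sinh x - x| := abs_add_le _ _
      _ ≤ |x| + x ^ 2 := by linarith
  have h5 : x ^ 2 ≤ 1 / 100 * |x| := by
    rw [← sq_abs, sq]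
    exact mul_le_mul_of_nonneg_right h (abs_nonneg x)
  linarith

theorem E2_rW (σ u W q : ℝ) : rW σ u W q =
    (1 / 4 * ((1 + q)⁻¹ - 1) + σ * (1 - 3 / 2 * (cosh u * (1 + q)⁻¹))) * W
      - 3 * (sinh u * (1 + q)⁻¹) := by
  unfold rW
  simp only [div_eq_mul_inv, mul_inv, one_mul]
  ring

theorem E2_rW_neg (σ u W q : ℝ) : rW σ (-u) (-W) q = -rW σ u W q := by
  rw [E2_rW, E2_rW, Real.cosh_neg, Real.sinh_neg]
  ring

theorem E2_key {σ u W q : ℝ} (hσ : 0 ≤ σ) (hσ' : σ ≤ 1 / 200)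
    (hu : |u| ≤ 1 / 2000) (hW : 20 * |u| ≤ W) (hq : |q| ≤ 1 / 2000) :
    |rW σ u W q| ≤ 16 / 100 * W := by
  have hq' := abs_le.1 hq
  have hW0 : 0 ≤ W := by linarith [abs_nonneg u]
  have hQ0 : 0 < 1 + q := by linarith [hq'.1]
  have hi0 : 999 / 1000 ≤ (1 + q)⁻¹ := by
    rw [le_inv_comm₀ (by norm_num) hQ0]
    norm_num
    linarith [hq'.2]
  have hi1 : (1 + q)⁻¹ ≤ 1001 / 1000 := by
    rw [inv_le_comm₀ hQ0 (by norm_num)]
    norm_num
    linarith [hq'.1]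
  have hu' : |u| ≤ 1 / 100 := hu.trans (by norm_num)
  have hc := E2_cosh hu'
  have hc1 := Real.one_le_cosh u
  have hu2 : u ^ 2 ≤ 1 / 4000000 := by
    rw [← sq_abs]
    calc |u| ^ 2 ≤ (1 / 2000) ^ 2 := by gcongr
      _ = _ := by norm_num
  have hcu : cosh u ≤ 1001 / 1000 := by linarith
  have hci : cosh u * (1 + q)⁻¹ ≤ 1003 / 1000 := by
    calc cosh u * (1 + q)⁻¹ ≤ 1001 / 1000 * (1001 / 1000) := by gcongr
      _ ≤ 1003 / 1000 := by norm_num
  have hci' : 999 / 1000 ≤ cosh u * (1 + q)⁻¹ := by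
    calc (999 / 1000 : ℝ) = 1 * (999 / 1000) := by ring
      _ ≤ cosh u * (1 + q)⁻¹ := by gcongr
  have hs : |sinh u * (1 + q)⁻¹| ≤ 1012 / 1000 * |u| := by
    rw [abs_mul, abs_of_nonneg (by linarith : 0 ≤ (1 + q)⁻¹)]
    calc |sinh u| * (1 + q)⁻¹ ≤ (101 / 100 * |u|) * (1001 / 1000) := by
          gcongr
          exact E2_sinh hu'
      _ ≤ 1012 / 1000 * |u| := by nlinarith [abs_nonneg u]
  have hA : |1 / 4 * ((1 + q)⁻¹ - 1) + σ * (1 - 3 / 2 * (cosh u * (1 + q)⁻¹))| ≤ 3 / 1000 := by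
    have h1 : σ * (3 / 2 * (cosh u * (1 + q)⁻¹) - 1) ≤ 1 / 200 * (506 / 1000) := by
      apply mul_le_mul hσ' (by linarith) (by linarith) (by norm_num)
    have h2 : 0 ≤ σ * (3 / 2 * (cosh u * (1 + q)⁻¹) - 1) := by
      apply mul_nonneg hσ
      linarith
    rw [abs_le]
    constructor <;> linarith
  rw [E2_rW]
  refine (abs_sub _ _).trans ?_
  rw [abs_mul, abs_mul, abs_of_nonneg hW0, abs_of_nonneg (by norm_num : (0:ℝ) ≤ 3)]
  have h3 := mul_le_mul_of_nonneg_right hA hW0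
  linarith

theorem E2_sig {s : ℝ} (hs : 200 ≤ s) : 0 ≤ sig s ∧ sig s ≤ 1 / 200 ∧ sig s ^ 2 ≤ 1 / 40000 := by
  unfold sig
  have h : (200 : ℝ) ≤ max s (1 / 100) := hs.trans (le_max_left _ _)
  have h0 : 0 ≤ 1 / max s (1 / 100) := by positivity
  have h1 : 1 / max s (1 / 100) ≤ 1 / 200 := by
    rw [div_le_div_iff₀ (by linarith) (by norm_num)]
    linarith
  refine ⟨h0, h1, ?_⟩
  calc (1 / max s (1 / 100)) ^ 2 ≤ (1 / 200) ^ 2 := by gcongr
    _ = _ := by norm_num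

theorem E2_cl_neg {c : ℝ} (hc : 0 ≤ c) (x : ℝ) : cl c (-x) = -cl c x := by
  rcases le_total 0 x with h | h
  · rw [cl_of_nonneg hc h, cl_of_nonpos hc (neg_nonpos.2 h), neg_neg]
  · rw [cl_of_nonpos hc h, cl_of_nonneg hc (neg_nonneg.2 h), neg_neg]

/-- the derivative estimate -/
theorem E2_est {εu εq : ℝ} (hε : EpsCond εu εq) {s u W q : ℝ} (hs : 200 ≤ s)
    (h : 20 * |u| < W) (θ : ℝ) (hθ : |θ| ≤ 1) :
    0 ≤ W / 4 + rW (sig s) (cl εu u) (cl (20 * εu) W) (cl εq q)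
      + θ * (20 * (cl (20 * εu) W * sig s ^ 2 / 2)) := by
  obtain ⟨e1, e2, e3, e4, e5⟩ := hε
  obtain ⟨s1, s2, s3⟩ := E2_sig hs
  have hW0 : 0 ≤ W := by linarith [abs_nonneg u]
  have hWc : cl (20 * εu) W = min (20 * εu) W := cl_of_nonneg (by linarith) hW0
  have hu1 : |cl εu u| ≤ εu := cl_abs_le e1.le u
  have hu2 : |cl εu u| ≤ |u| := cl_abs_le' e1.le u
  have hWle : cl (20 * εu) W ≤ W := by rw [hWc]; exact min_le_right _ _
  have hW00 : 0 ≤ cl (20 * εu) W := by rw [hWc]; exact le_min (by linarith) hW0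
  have hcmp : 20 * |cl εu u| ≤ cl (20 * εu) W := by
    rw [hWc]
    exact le_min (by linarith) (by linarith)
  have hk := E2_key s1 s2 (hu1.trans (by linarith)) hcmp ((cl_abs_le e3.le q).trans e4)
  have hk' := (abs_le.1 hk).1
  set Wb := cl (20 * εu) W with hWb
  have hlast : |θ * (20 * (Wb * sig s ^ 2 / 2))| ≤ 1 / 4000 * Wb := by
    have h1 : 0 ≤ 20 * (Wb * sig s ^ 2 / 2) := by positivity
    rw [abs_mul, abs_of_nonneg h1]
    calc |θ| * (20 * (Wb * sig s ^ 2 / 2)) ≤ 1 * (20 * (Wb * (1 / 40000) / 2)) := by gcongr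
      _ = 1 / 4000 * Wb := by ring
  have hl := (abs_le.1 hlast).1
  linarith

/-- E2. Once `|W| > 20|u|` (at some `s ≥ 200`) this persists, with the same sign of `W`.

PROOF. For `s ≥ 200`, `σ ≤ 1/200`: `|rW| ≤ 0.01|W̄| + 3.1|ū|`. Case `W > 20|u|` at `a`: `pos_persist` with `g₁ = W - 20u`, `g₂ = W + 20u`; where both are
positive, `W > 20|u|` and `g_i' ≥ W/4 - 0.01W - 3.1|u| - 10 W σ² ≥ W(0.25 - 0.01 - 0.155 - 0.001) ≥ 0`. Case `-W > 20|u|`: apply this to `-v`?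
(`F3` is not odd in `(u,W)` alone but `rW` is odd in `(u,W)`), or repeat the argument with `g₁ = -W - 20u`, `g₂ = -W + 20u`. -/
theorem outer_Wtube (εu εq : ℝ) (hε : EpsCond εu εq) (v : ℝ → Fin 4 → ℝ) (a b : ℝ) (ha : 200 ≤ a)
    (hv : ∀ s ∈ Icc a b, HasDerivAt v (F3 εu εq s (v s)) s) :
    (20 * |v a 0| < v a 1 → ∀ s ∈ Icc a b, 20 * |v s 0| < v s 1) ∧
    (20 * |v a 0| < -v a 1 → ∀ s ∈ Icc a b, 20 * |v s 0| < -v s 1) := by
  have hd0 : ∀ s ∈ Icc a b, HasDerivAt (fun s => v s 0)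
      (cl (20 * εu) (v s 1) * sig s ^ 2 / 2) s := fun s hs => hasDerivAt_pi.1 (hv s hs) 0
  have hd1 : ∀ s ∈ Icc a b, HasDerivAt (fun s => v s 1)
      (v s 1 / 4 + rW (sig s) (cl εu (v s 0)) (cl (20 * εu) (v s 1)) (cl εq (v s 2))) s :=
    fun s hs => hasDerivAt_pi.1 (hv s hs) 1
  constructor
  · intro h s hs
    have hab := abs_lt.1 (show |20 * v a 0| < v a 1 by
      rw [abs_mul, abs_of_pos (by norm_num : (0:ℝ) < 20)]; exact h)
    have key := pos_persist a b (fun s => v s 1 + (-1) * (20 * v s 0))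
      (fun s => v s 1 + 1 * (20 * v s 0)) _ _
      (fun t ht => (hd1 t ht).add (((hd0 t ht).const_mul 20).const_mul (-1)))
      (fun t ht => (hd1 t ht).add (((hd0 t ht).const_mul 20).const_mul 1))
      (by linarith [hab.2]) (by linarith [hab.1]) (by
        intro t ht hp1 hp2
        have hlt : 20 * |v t 0| < v t 1 := by
          rcases abs_cases (v t 0) with ⟨h1, _⟩ | ⟨h1, _⟩ <;> rw [h1] <;> linarith
        exact ⟨E2_est hε (ha.trans ht.1) hlt (-1) (by norm_num),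
          E2_est hε (ha.trans ht.1) hlt 1 (by norm_num)⟩) s hs
    rcases abs_cases (v s 0) with ⟨h1, _⟩ | ⟨h1, _⟩ <;> rw [h1] <;>
      linarith [key.1, key.2, hab.1, hab.2]
  · intro h s hs
    have hab := abs_lt.1 (show |20 * v a 0| < -v a 1 by
      rw [abs_mul, abs_of_pos (by norm_num : (0:ℝ) < 20)]; exact h)
    have key := pos_persist a b (fun s => -v s 1 + (-1) * (20 * v s 0))
      (fun s => -v s 1 + 1 * (20 * v s 0)) _ _
      (fun t ht => (hd1 t ht).neg.add (((hd0 t ht).const_mul 20).const_mul (-1)))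
      (fun t ht => (hd1 t ht).neg.add (((hd0 t ht).const_mul 20).const_mul 1))
      (by linarith [hab.2]) (by linarith [hab.1]) (by
        intro t ht hp1 hp2
        have hlt : 20 * |v t 0| < -v t 1 := by
          rcases abs_cases (v t 0) with ⟨h1, _⟩ | ⟨h1, _⟩ <;> rw [h1] <;> linarith
        have hlt' : 20 * |(-v t 0)| < -v t 1 := by rwa [abs_neg]
        have e1 := E2_est (q := v t 2) hε (ha.trans ht.1) hlt' 1 (by norm_num)
        have e2 := E2_est (q := v t 2) hε (ha.trans ht.1) hlt' (-1) (by norm_num)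
        rw [E2_cl_neg hε.hu.le, E2_cl_neg (by linarith [hε.hu]), E2_rW_neg] at e1 e2
        constructor <;> linarith) s hs
    rcases abs_cases (v s 0) with ⟨h1, _⟩ | ⟨h1, _⟩ <;> rw [h1] <;>
      linarith [key.1, key.2, hab.1, hab.2]

end Pool.Agent.RS
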