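import Pool.Agent.Lib.MP_35abc2_gt.E0_Defs
import Pool.Agent.Lib.MP_35abc2_gt.T3_Compare

/-! # E3: the Δ-tube (MP_35abc2_gt) -/

open scoped ContDiff Topology NNReal
open Set Filter Real

noncomputable section

namespace Pool.Agent.RS

theorem E3_cosh {x : ℝ} (h : |x| ≤ 1 / 100) : cosh x ≤ 1 + 51 / 100 * x ^ 2 := by
  have h1 : cosh x ≤ exp (x ^ 2 / 2) := Real.cosh_le_exp_half_sq x
  have hx2 : x ^ 2 ≤ 1 / 10000 := by
    rw [← sq_abs]
    calc |x| ^ 2 ≤ (1 / 100) ^ 2 := by gcongr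
      _ = 1 / 10000 := by norm_num
  have h2 : |exp (x ^ 2 / 2) - 1 - x ^ 2 / 2| ≤ (x ^ 2 / 2) ^ 2 := by
    apply Real.abs_exp_sub_one_sub_id_le
    rw [abs_of_nonneg (by positivity)]
    linarith
  have h3 := (abs_le.1 h2).2
  nlinarith [sq_nonneg x]

theorem E3_sinh {x : ℝ} (h : |x| ≤ 1 / 100) : |sinh x| ≤ 101 / 100 * |x| := by
  have h1 : |exp x - 1 - x| ≤ x ^ 2 :=
    Real.abs_exp_sub_one_sub_id_le (h.trans (by norm_num))
  have h2 : |exp (-x) - 1 - (-x)| ≤ (-x) ^ 2 :=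
    Real.abs_exp_sub_one_sub_id_le (by rw [abs_neg]; exact h.trans (by norm_num))
  have h3 : |sinh x - x| ≤ x ^ 2 := by
    rw [Real.sinh_eq, abs_le]
    have := abs_le.1 h1
    have := abs_le.1 h2
    constructor <;> nlinarith
  have h4 : |sinh x| ≤ |x| + x ^ 2 := by
    calc |sinh x| = |x + (sinh x - x)| := by ring_nf
      _ ≤ |x| + |sinh x - x| := abs_add_le _ _
      _ ≤ |x| + x ^ 2 := by linarith
  have h5 : x ^ 2 ≤ 1 / 100 * |x| := by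
    rw [← sq_abs, sq]
    exact mul_le_mul_of_nonneg_right h (abs_nonneg x)
  linarith

/-- the form of `rD` with the inverse of `1 + q` -/
theorem E3_rD (σ u W q D : ℝ) : rD σ u W q D =
    1 / 4 * ((1 + q)⁻¹ - 1) * D + (2 - 3 / 2 * (cosh u * (1 + q)⁻¹)) * (D * σ)
      + (D * σ) ^ 2 * (1 + q)⁻¹ / 2 + 3 / 2 * (q - (cosh u - 1))
      + 1 / 2 * (1 + q) * (W * σ) ^ 2 + 3 / 2 * (W * σ * sinh u) := by
  unfold rD
  simp only [div_eq_mul_inv, mul_inv, one_mul]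
  ring

theorem E3_key {εu εq σ u W q D : ℝ} (hε : EpsCond εu εq) (hσ : 0 ≤ σ) (hσ' : σ ≤ 1 / 200)
    (hu : |u| ≤ εu) (hW : |W| ≤ 20 * εu) (hq : |q| ≤ εq) (hD : |D| ≤ 8 * εq) :
    |rD σ u W q D| ≤ 2 * εq := by
  obtain ⟨e1, e2, e3, e4, e5⟩ := hε
  have hq' := abs_le.1 (hq.trans e4)
  have hQ0 : 0 < 1 + q := by linarith [hq'.1]
  have hi0 : 999 / 1000 ≤ (1 + q)⁻¹ := by
    rw [le_inv_comm₀ (by norm_num) hQ0]
    norm_num
    linarith [hq'.2]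
  have hi1 : (1 + q)⁻¹ ≤ 1001 / 1000 := by
    rw [inv_le_comm₀ hQ0 (by norm_num)]
    norm_num
    linarith [hq'.1]
  have hu' : |u| ≤ 1 / 100 := hu.trans (by linarith)
  have hc := E3_cosh hu'
  have hc1 := Real.one_le_cosh u
  have hu2 : u ^ 2 ≤ εu ^ 2 := by
    rw [← sq_abs]; gcongr
  have hε2 : εu ^ 2 ≤ 1 / 4000000 := by
    have : εu ≤ 1 / 2000 := by linarith
    calc εu ^ 2 ≤ (1 / 2000) ^ 2 := by gcongr
      _ = _ := by norm_num
  have hcu : cosh u ≤ 1001 / 1000 := by linarith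
  have hci : cosh u * (1 + q)⁻¹ ≤ 1003 / 1000 := by
    calc cosh u * (1 + q)⁻¹ ≤ 1001 / 1000 * (1001 / 1000) := by gcongr
      _ ≤ 1003 / 1000 := by norm_num
  have hci' : 999 / 1000 ≤ cosh u * (1 + q)⁻¹ := by
    calc (999 / 1000 : ℝ) = 1 * (999 / 1000) := by ring
      _ ≤ cosh u * (1 + q)⁻¹ := by gcongr
  have t1 : |1 / 4 * ((1 + q)⁻¹ - 1) * D| ≤ 1 / 100 * εq := by
    have h1 : |1 / 4 * ((1 + q)⁻¹ - 1)| ≤ 1 / 4000 := by
      rw [abs_le]; constructor <;> linarith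
    rw [abs_mul]
    calc |1 / 4 * ((1 + q)⁻¹ - 1)| * |D| ≤ 1 / 4000 * (8 * εq) := by gcongr
      _ ≤ 1 / 100 * εq := by linarith
  have hDσ : |D * σ| ≤ 4 / 100 * εq := by
    rw [abs_mul, abs_of_nonneg hσ]
    calc |D| * σ ≤ 8 * εq * (1 / 200) := by gcongr
      _ = 4 / 100 * εq := by ring
  have t2 : |(2 - 3 / 2 * (cosh u * (1 + q)⁻¹)) * (D * σ)| ≤ 4 / 100 * εq := by
    have h1 : |2 - 3 / 2 * (cosh u * (1 + q)⁻¹)| ≤ 1 := by
      rw [abs_le]; constructor <;> linarith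
    rw [abs_mul]
    calc |2 - 3 / 2 * (cosh u * (1 + q)⁻¹)| * |D * σ| ≤ 1 * (4 / 100 * εq) := by gcongr
      _ = 4 / 100 * εq := by ring
  have t3 : |(D * σ) ^ 2 * (1 + q)⁻¹ / 2| ≤ 1 / 100 * εq := by
    rw [abs_of_nonneg (by positivity), ← sq_abs]
    calc |D * σ| ^ 2 * (1 + q)⁻¹ / 2 ≤ (4 / 100 * εq) ^ 2 * (1001 / 1000) / 2 := by gcongr
      _ ≤ 1 / 100 * εq := by nlinarith
  have t4 : |3 / 2 * (q - (cosh u - 1))| ≤ 151 / 100 * εq := by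
    have h1 := abs_le.1 hq
    rw [abs_le]
    constructor <;> nlinarith
  have hWσ : |W * σ| ≤ 1 / 10 * εu := by
    rw [abs_mul, abs_of_nonneg hσ]
    calc |W| * σ ≤ 20 * εu * (1 / 200) := by gcongr
      _ = 1 / 10 * εu := by ring
  have t5 : |1 / 2 * (1 + q) * (W * σ) ^ 2| ≤ 1 / 100 * εq := by
    rw [abs_of_nonneg (by positivity), ← sq_abs]
    calc 1 / 2 * (1 + q) * |W * σ| ^ 2 ≤ 1 / 2 * 2 * (1 / 10 * εu) ^ 2 := by
          gcongr
          linarith [hq'.2]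
      _ ≤ 1 / 100 * εq := by nlinarith
  have t6 : |3 / 2 * (W * σ * sinh u)| ≤ 1 / 100 * εq := by
    have h2 : |sinh u| ≤ 101 / 100 * εu := (E3_sinh hu').trans (by linarith)
    rw [abs_mul, abs_mul, abs_of_nonneg (by norm_num : (0:ℝ) ≤ 3 / 2)]
    calc 3 / 2 * (|W * σ| * |sinh u|) ≤ 3 / 2 * (1 / 10 * εu * (101 / 100 * εu)) := by gcongr
      _ ≤ 1 / 100 * εq := by nlinarith
  rw [E3_rD]
  have a1 := abs_le.1 t1
  have a2 := abs_le.1 t2
  have a3 := abs_le.1 t3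
  have a4 := abs_le.1 t4
  have a5 := abs_le.1 t5
  have a6 := abs_le.1 t6
  rw [abs_le]
  constructor <;> linarith [a1.1, a1.2, a2.1, a2.2, a3.1, a3.2, a4.1, a4.2, a5.1, a5.2, a6.1, a6.2]

theorem E3_sig {s : ℝ} (hs : 200 ≤ s) : 0 ≤ sig s ∧ sig s ≤ 1 / 200 := by
  unfold sig
  have h : (200 : ℝ) ≤ max s (1 / 100) := hs.trans (le_max_left _ _)
  refine ⟨by positivity, ?_⟩
  rw [div_le_div_iff₀ (by linarith) (by norm_num)]
  linarith

/-- E3. Once `|Δ| > 8 εq` (at some `s ≥ 200`) this persists.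

PROOF. `|rD| ≤ 0.01|Δ̄| + (3/2)εq + 0.02εq ≤ 1.68 εq` (as `|Δ̄| ≤ 8εq`, `εu² ≤ 10⁻⁸ εq`), and `Δ/4 ≥ 2εq`: `pos_persist` with `g₁ = g₂ = ±Δ - 8εq`. -/
theorem outer_Dtube (εu εq : ℝ) (hε : EpsCond εu εq) (v : ℝ → Fin 4 → ℝ) (a b : ℝ) (ha : 200 ≤ a)
    (hv : ∀ s ∈ Icc a b, HasDerivAt v (F3 εu εq s (v s)) s) :
    (8 * εq < v a 3 → ∀ s ∈ Icc a b, 8 * εq < v s 3) ∧
    (8 * εq < -v a 3 → ∀ s ∈ Icc a b, 8 * εq < -v s 3) := by
  have hd3 : ∀ s ∈ Icc a b, HasDerivAt (fun s => v s 3)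
      (v s 3 / 4 + rD (sig s) (cl εu (v s 0)) (cl (20 * εu) (v s 1)) (cl εq (v s 2))
        (cl (8 * εq) (v s 3))) s := fun s hs => hasDerivAt_pi.1 (hv s hs) 3
  have h8 : 0 ≤ 8 * εq := by linarith [hε.hq]
  have h20 : 0 ≤ 20 * εu := by linarith [hε.hu]
  have hk : ∀ t ∈ Icc a b, |rD (sig t) (cl εu (v t 0)) (cl (20 * εu) (v t 1)) (cl εq (v t 2))
        (cl (8 * εq) (v t 3))| ≤ 2 * εq := fun t ht =>
    E3_key hε (E3_sig (ha.trans ht.1)).1 (E3_sig (ha.trans ht.1)).2 (cl_abs_le hε.hu.le _)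
      (cl_abs_le h20 _) (cl_abs_le hε.hq.le _) (cl_abs_le h8 _)
  constructor
  · intro h s hs
    have key := pos_persist a b (fun s => v s 3 - 8 * εq) (fun s => v s 3 - 8 * εq) _ _
      (fun t ht => (hd3 t ht).sub_const _) (fun t ht => (hd3 t ht).sub_const _)
      (by linarith) (by linarith) (by
        intro t ht hp _
        have := (abs_le.1 (hk t ht)).1
        constructor <;> linarith) s hs
    linarith [key.1]
  · intro h s hs
    have key := pos_persist a b (fun s => -v s 3 - 8 * εq) (fun s => -v s 3 - 8 * εq) _ _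
      (fun t ht => (hd3 t ht).neg.sub_const _) (fun t ht => (hd3 t ht).neg.sub_const _)
      (by linarith) (by linarith) (by
        intro t ht hp _
        have := (abs_le.1 (hk t ht)).2
        constructor <;> linarith) s hs
    linarith [key.1]

end Pool.Agent.RS
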