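import Pool.Agent.Lib.MP_35abc2_gt.E0_Defs
import Pool.Agent.Lib.MP_35abc2_gt.T3_Compare

/-! # E4: signs at the κ-edges (MP_35abc2_gt) -/

open scoped ContDiff Topology NNReal
open Set Filter Real

noncomputable section

namespace Pool.Agent.RS

theorem E4_cosh {x : ℝ} (h : |x| ≤ 1 / 100) : cosh x ≤ 1 + 51 / 100 * x ^ 2 := by
  have h1 : cosh x ≤ exp (x ^ 2 / 2) := Real.cosh_le_exp_half_sq x
  have hx2 : x ^ 2 ≤ 1 / 10000 := by
    rw [← sq_abs]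
    calc |x| ^ 2 ≤ (1 / 100) ^ 2 := by gcongr
      _ = 1 / 10000 := by norm_num
  have h2 : |exp (x ^ 2 / 2) - 1 - x ^ 2 / 2| ≤ (x ^ 2 / 2) ^ 2 := by
    apply Real.abs_exp_sub_one_sub_id_le
    rw [abs_of_nonneg (by positivity)]
    linarith
  have h3 := (abs_le.1 h2).2
  nlinarith [sq_nonneg x]

theorem E4_sinh {x : ℝ} (h : |x| ≤ 1 / 100) : |sinh x| ≤ 101 / 100 * |x| := by
  have h1 : |exp x - 1 - x| ≤ x ^ 2 :=
    Real.abs_exp_sub_one_sub_id_le (h.trans (by norm_num))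
  have h2 : |exp (-x) - 1 - (-x)| ≤ (-x) ^ 2 :=
    Real.abs_exp_sub_one_sub_id_le (by rw [abs_neg]; exact h.trans (by norm_num))
  have h3 : |sinh x - x| ≤ x ^ 2 := by
    rw [Real.sinh_eq, abs_le]
    have := abs_le.1 h1
    have := abs_le.1 h2
    constructor <;> nlinarith
  have h4 : |sinh x| ≤ |x| + x ^ 2 := by
    calc |sinh x| = |x + (sinh x - x)| := by ring_nf
      _ ≤ |x| + |sinh x - x| := abs_add_le _ _
      _ ≤ |x| + x ^ 2 := by linarith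
  have h5 : x ^ 2 ≤ 1 / 100 * |x| := by
    rw [← sq_abs, sq]
    exact mul_le_mul_of_nonneg_right h (abs_nonneg x)
  linarith

/-- the form of `rD` with the inverse of `1 + q` -/
theorem E4_rD (σ u W q D : ℝ) : rD σ u W q D =
    1 / 4 * ((1 + q)⁻¹ - 1) * D + (2 - 3 / 2 * cosh u * (1 + q)⁻¹) * (D * σ)
      + (D * σ) * (D * σ) * (1 + q)⁻¹ / 2 + 3 / 2 * (q - (cosh u - 1))
      + 1 / 2 * (1 + q) * (W * σ) ^ 2 + 3 / 2 * (W * σ * sinh u) := by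
  unfold rD
  simp only [div_eq_mul_inv, mul_inv, one_mul]
  ring

theorem E4_cross {εu σ u W : ℝ} (h0 : 0 < εu) (h1 : 20 * εu ≤ 1 / 100) (hσ : 0 ≤ σ) (hσ' : σ ≤ 100)
    (hu : |u| ≤ εu) (hW : |W| ≤ 20 * εu) : |W * σ * sinh u| ≤ 2020 * εu ^ 2 := by
  have h2 : |sinh u| ≤ 101 / 100 * εu := (E4_sinh (hu.trans (by linarith))).trans (by linarith)
  rw [abs_mul, abs_mul, abs_of_nonneg hσ]
  calc |W| * σ * |sinh u| ≤ (20 * εu) * 100 * (101 / 100 * εu) := by gcongr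
    _ = 2020 * εu ^ 2 := by ring

theorem E4_Wsq {εu σ W : ℝ} (h0 : 0 < εu) (hσ : 0 ≤ σ) (hσ' : σ ≤ 100)
    (hW : |W| ≤ 20 * εu) : (W * σ) ^ 2 ≤ 4000000 * εu ^ 2 := by
  rw [← sq_abs, abs_mul, abs_of_nonneg hσ]
  calc (|W| * σ) ^ 2 ≤ ((20 * εu) * 100) ^ 2 := by gcongr
    _ = 4000000 * εu ^ 2 := by ring

theorem E4_pos {εu εq σ u W q D D' : ℝ} (hε : EpsCond εu εq) (hσ : 0 ≤ σ) (hσ' : σ ≤ 100)
    (hu : |u| ≤ εu) (hW : |W| ≤ 20 * εu) (hq : 5000000 * εu ^ 2 ≤ q) (hD : 0 ≤ D) (hD' : D ≤ D') :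
    0 ≤ D' / 4 + rD σ u W q D := by
  obtain ⟨e1, e2, e3, e4, e5⟩ := hε
  rw [E4_rD]
  have hq0 : 0 ≤ q := by nlinarith [sq_nonneg εu]
  have hi0 : 0 ≤ (1 + q)⁻¹ := by positivity
  have hi1 : (1 + q)⁻¹ ≤ 1 := inv_le_one_of_one_le₀ (by linarith)
  have hc := E4_cosh (hu.trans (by linarith : εu ≤ 1 / 100))
  have hc1 := Real.one_le_cosh u
  have hu2 : u ^ 2 ≤ εu ^ 2 := by
    rw [← sq_abs]; gcongr
  have hcr := (abs_le.1 (E4_cross e1 e2 hσ hσ' hu hW)).1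
  have hε2 : εu ^ 2 ≤ 1 / 4000000 := by
    have : εu ≤ 1 / 2000 := by linarith
    calc εu ^ 2 ≤ (1 / 2000) ^ 2 := by gcongr
      _ = _ := by norm_num
  have t1 : 0 ≤ D' / 4 + 1 / 4 * ((1 + q)⁻¹ - 1) * D := by nlinarith [mul_nonneg hD hi0]
  have hci : cosh u * (1 + q)⁻¹ ≤ 4 / 3 := by
    calc cosh u * (1 + q)⁻¹ ≤ cosh u * 1 := by gcongr
      _ ≤ 4 / 3 := by linarith
  have t2 : 0 ≤ (2 - 3 / 2 * cosh u * (1 + q)⁻¹) * (D * σ) := by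
    apply mul_nonneg
    · linarith
    · positivity
  have t3 : 0 ≤ (D * σ) * (D * σ) * (1 + q)⁻¹ / 2 := by positivity
  have t4 : 0 ≤ 1 / 2 * (1 + q) * (W * σ) ^ 2 := by positivity
  have t5 : 0 ≤ 3 / 2 * (q - (cosh u - 1)) + 3 / 2 * (W * σ * sinh u) := by nlinarith
  linarith

theorem E4_neg {εu εq σ u W q D D' : ℝ} (hε : EpsCond εu εq) (hσ : 0 ≤ σ) (hσ' : σ ≤ 100)
    (hu : |u| ≤ εu) (hW : |W| ≤ 20 * εu) (hq : q ≤ -(5000000 * εu ^ 2)) (hq' : -εq ≤ q)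
    (hD : D ≤ 0) (hDq : -(8 * εq) ≤ D) (hD' : D' ≤ D) :
    D' / 4 + rD σ u W q D ≤ 0 := by
  obtain ⟨e1, e2, e3, e4, e5⟩ := hε
  rw [E4_rD]
  have hq0 : q ≤ 0 := by nlinarith [sq_nonneg εu]
  have hQ : 1999 / 2000 ≤ 1 + q := by linarith
  have hQ0 : 0 < 1 + q := by linarith
  have hi0 : 0 ≤ (1 + q)⁻¹ := by positivity
  have hi1 : (1 + q)⁻¹ ≤ 1001 / 1000 := by
    rw [inv_le_comm₀ hQ0 (by norm_num)]
    refine le_trans ?_ hQ
    norm_num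
  have hc := E4_cosh (hu.trans (by linarith : εu ≤ 1 / 100))
  have hc1 := Real.one_le_cosh u
  have hu2 : u ^ 2 ≤ εu ^ 2 := by
    rw [← sq_abs]; gcongr
  have hcr := (abs_le.1 (E4_cross e1 e2 hσ hσ' hu hW)).2
  have hε2 : εu ^ 2 ≤ 1 / 4000000 := by
    have : εu ≤ 1 / 2000 := by linarith
    calc εu ^ 2 ≤ (1 / 2000) ^ 2 := by gcongr
      _ = _ := by norm_num
  have t1 : D' / 4 + 1 / 4 * ((1 + q)⁻¹ - 1) * D ≤ 0 := by
    nlinarith [mul_nonneg (neg_nonneg.2 hD) hi0]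
  have hci : cosh u * (1 + q)⁻¹ ≤ 1003 / 1000 := by
    have : cosh u ≤ 1001 / 1000 := by linarith
    calc cosh u * (1 + q)⁻¹ ≤ 1001 / 1000 * (1001 / 1000) := by gcongr
      _ ≤ 1003 / 1000 := by norm_num
  -- `E = -D`
  have hE : 0 ≤ -D * σ := mul_nonneg (neg_nonneg.2 hD) hσ
  have hE2 : -D * σ ≤ 4 / 10 := by
    have : -D ≤ 8 * (1 / 2000) := by linarith
    calc -D * σ ≤ 8 * (1 / 2000) * 100 := by gcongr
      _ = 4 / 10 := by norm_num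
  have t2 : (2 - 3 / 2 * cosh u * (1 + q)⁻¹) * (D * σ) + (D * σ) * (D * σ) * (1 + q)⁻¹ / 2 ≤ 0 := by
    have e : (2 - 3 / 2 * cosh u * (1 + q)⁻¹) * (D * σ) + (D * σ) * (D * σ) * (1 + q)⁻¹ / 2
        = -((-D * σ) * ((2 - 3 / 2 * (cosh u * (1 + q)⁻¹)) - (-D * σ) * (1 + q)⁻¹ / 2)) := by ring
    rw [e, neg_nonpos]
    apply mul_nonneg hE
    have h7 : (-D * σ) * (1 + q)⁻¹ ≤ 4 / 10 * (1001 / 1000) := by gcongr
    linarith
  have t4 : 1 / 2 * (1 + q) * (W * σ) ^ 2 ≤ 2000000 * εu ^ 2 := by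
    have h8 := E4_Wsq e1 hσ hσ' hW
    calc 1 / 2 * (1 + q) * (W * σ) ^ 2 ≤ 1 / 2 * 1 * (4000000 * εu ^ 2) := by
          gcongr
          linarith
      _ = 2000000 * εu ^ 2 := by ring
  have t5 : 3 / 2 * (q - (cosh u - 1)) + 1 / 2 * (1 + q) * (W * σ) ^ 2
      + 3 / 2 * (W * σ * sinh u) ≤ 0 := by nlinarith
  linarith

theorem E4_sig (s : ℝ) : 0 ≤ sig s ∧ sig s ≤ 100 := by
  unfold sig
  have h : (1 / 100 : ℝ) ≤ max s (1 / 100) := le_max_right _ _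
  constructor
  · positivity
  · rw [div_le_iff₀ (by linarith)]
    linarith

/-- E4. Signs at the `κ`-edges.

PROOF. Positive case: `pos_persist` with `g₁ = q`, `g₂ = Δ`. Where both are positive: `q' = Δ̄σ² ≥ 0`, but to use `q ≥ c` one first needs
monotonicity of `q`: apply `pos_persist` to `g₁ = q - c/2` and `g₂ = Δ`: where both are positive, `q̄ ≥ min (c/2) εq`, and
`Δ' = Δ/4 + rD ≥ Δ̄/(4Q̄) + (2 - 3cosh ū/(2Q̄))σΔ̄ + Δ̄²σ²/(2Q̄) + (3/2)(q̄ - (cosh ū - 1)) + ½Q̄W̄²σ² - (3/2)|W̄|σ|sinh ū|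
≥ (3/2) min (c/2) εq - 0.76εu² - 3031εu² ≥ 0`.
Negative case: symmetric, except for the terms `Δ̄²σ²/(2Q̄) ≤ 0.51·8εq·100·σ|Δ̄| ≤ 0.21σ|Δ̄|` (absorbed by `(2 - 3cosh ū/(2Q̄))σ|Δ̄| ≥ 0.48σ|Δ̄|`) and
`½Q̄W̄²σ² ≤ 2.03·10⁶εu²`. -/
theorem outer_sign (εu εq : ℝ) (hε : EpsCond εu εq) (c : ℝ) (hc : 0 < c)
    (hcε : 10 ^ 7 * εu ^ 2 ≤ c) (v : ℝ → Fin 4 → ℝ) (b : ℝ)
    (hv : ∀ s ∈ Icc (1 / 100 : ℝ) b, HasDerivAt v (F3 εu εq s (v s)) s) :
    (c ≤ v (1 / 100) 2 → 0 < v (1 / 100) 3 → ∀ s ∈ Icc (1 / 100 : ℝ) b, 0 < v s 2 ∧ 0 < v s 3) ∧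
    (v (1 / 100) 2 ≤ -c → v (1 / 100) 3 < 0 → ∀ s ∈ Icc (1 / 100 : ℝ) b, v s 2 < 0 ∧ v s 3 < 0) := by
  have hd2 : ∀ s ∈ Icc (1 / 100 : ℝ) b, HasDerivAt (fun s => v s 2)
      (cl (8 * εq) (v s 3) * sig s ^ 2) s := fun s hs => hasDerivAt_pi.1 (hv s hs) 2
  have hd3 : ∀ s ∈ Icc (1 / 100 : ℝ) b, HasDerivAt (fun s => v s 3)
      (v s 3 / 4 + rD (sig s) (cl εu (v s 0)) (cl (20 * εu) (v s 1)) (cl εq (v s 2))
        (cl (8 * εq) (v s 3))) s := fun s hs => hasDerivAt_pi.1 (hv s hs) 3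
  have h8 : 0 ≤ 8 * εq := by linarith [hε.hq]
  have h20 : 0 ≤ 20 * εu := by linarith [hε.hu]
  constructor
  · intro h2 h3 s hs
    have key := pos_persist (1 / 100) b (fun s => v s 2 - c / 2) (fun s => v s 3)
      (fun s => cl (8 * εq) (v s 3) * sig s ^ 2)
      (fun s => v s 3 / 4 + rD (sig s) (cl εu (v s 0)) (cl (20 * εu) (v s 1)) (cl εq (v s 2))
        (cl (8 * εq) (v s 3))) (fun t ht => (hd2 t ht).sub_const _) hd3
      (by linarith) h3 (by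
        intro t ht hp1 hp2
        have hD : cl (8 * εq) (v t 3) = min (8 * εq) (v t 3) := cl_of_nonneg h8 hp2.le
        have hD0 : 0 ≤ cl (8 * εq) (v t 3) := by rw [hD]; exact le_min h8 hp2.le
        refine ⟨mul_nonneg hD0 (by positivity), ?_⟩
        have hq : cl εq (v t 2) = min εq (v t 2) := cl_of_nonneg hε.hq.le (by linarith)
        refine E4_pos hε (E4_sig t).1 (E4_sig t).2 (cl_abs_le hε.hu.le _) (cl_abs_le h20 _) ?_ hD0 ?_
        · rw [hq]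
          refine le_min ?_ ?_
          · have := hε.huq
            nlinarith [sq_nonneg εu]
          · nlinarith
        · rw [hD]; exact min_le_right _ _) s hs
    constructor <;> linarith [key.1, key.2]
  · intro h2 h3 s hs
    have key := pos_persist (1 / 100) b (fun s => -v s 2 - c / 2) (fun s => -v s 3)
      (fun s => -(cl (8 * εq) (v s 3) * sig s ^ 2))
      (fun s => -(v s 3 / 4 + rD (sig s) (cl εu (v s 0)) (cl (20 * εu) (v s 1)) (cl εq (v s 2))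
        (cl (8 * εq) (v s 3)))) (fun t ht => (hd2 t ht).neg.sub_const _) (fun t ht => (hd3 t ht).neg)
      (by linarith) (by linarith) (by
        intro t ht hp1 hp2
        have hv3 : v t 3 ≤ 0 := by linarith
        have hv2 : v t 2 ≤ 0 := by linarith
        have hD : cl (8 * εq) (v t 3) = -min (8 * εq) (-v t 3) := cl_of_nonpos h8 hv3
        have hD0 : cl (8 * εq) (v t 3) ≤ 0 := by
          rw [hD, neg_nonpos]; exact le_min h8 (by linarith)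
        refine ⟨neg_nonneg.2 (mul_nonpos_of_nonpos_of_nonneg hD0 (by positivity)), ?_⟩
        have hq : cl εq (v t 2) = -min εq (-v t 2) := cl_of_nonpos hε.hq.le hv2
        refine neg_nonneg.2 (E4_neg hε (E4_sig t).1 (E4_sig t).2 (cl_abs_le hε.hu.le _)
          (cl_abs_le h20 _) ?_ ?_ hD0 ?_ ?_)
        · rw [hq, neg_le_neg_iff]
          refine le_min ?_ ?_
          · have := hε.huq
            nlinarith [sq_nonneg εu]
          · nlinarith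
        · exact (abs_le.1 (cl_abs_le hε.hq.le _)).1
        · exact (abs_le.1 (cl_abs_le h8 _)).1
        · rw [hD]
          have := min_le_right (8 * εq) (-v t 3)
          linarith) s hs
    constructor <;> linarith [key.1, key.2]

end Pool.Agent.RS
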