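import Pool.Agent.Lib.MP_35abc2_gt.E0_Defs
import Pool.Agent.Lib.MP_35abc2_gt.T3_Compare

/-! # E4b: inside the tube (MP_35abc2_gt) -/

open scoped ContDiff Topology NNReal
open Set Filter Real

noncomputable section

namespace Pool.Agent.RS

theorem E4b_sig {s : ℝ} (hs : 200 ≤ s) : sig s = 1 / s := by
  unfold sig
  rw [max_eq_left (by linarith)]

/-- bounds for a function with `|f'| ≤ m/s²` -/
theorem E4b_int {f f' : ℝ → ℝ} {b m : ℝ} (hm : 0 ≤ m)
    (hf : ∀ s ∈ Icc (200 : ℝ) b, HasDerivAt f (f' s) s)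
    (hf' : ∀ s ∈ Icc (200 : ℝ) b, |f' s| ≤ m / s ^ 2) :
    ∀ s ∈ Icc (200 : ℝ) b, |f s - f 200| ≤ m / 200 := by
  intro s hs
  have hinv : ∀ t ∈ Icc (200 : ℝ) b, HasDerivAt (fun t : ℝ => m / t) (-(m / t ^ 2)) t := by
    intro t ht
    have ht0 : t ≠ 0 := by have := ht.1; intro h; linarith
    have h1 := (hasDerivAt_inv ht0).const_mul m
    have h2 : (fun t : ℝ => m / t) = fun t => m * t⁻¹ := by
      funext t; rw [div_eq_mul_inv]
    rw [h2]
    exact h1.congr_deriv (by rw [div_eq_mul_inv]; ring)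
  have hs0 : 0 ≤ m / s := by have := hs.1; positivity
  have hsub : Icc (200 : ℝ) s ⊆ Icc (200 : ℝ) b := Icc_subset_Icc le_rfl hs.2
  -- `f + m/t` is antitone
  have hA : AntitoneOn (fun t => f t + m / t) (Icc (200 : ℝ) s) := by
    apply antitoneOn_of_deriv_nonpos (convex_Icc _ _)
    · intro t ht
      exact ((hf t (hsub ht)).add (hinv t (hsub ht))).continuousAt.continuousWithinAt
    · intro t ht
      rw [interior_Icc] at ht
      exact ((hf t (hsub (Ioo_subset_Icc_self ht))).add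
        (hinv t (hsub (Ioo_subset_Icc_self ht)))).differentiableAt.differentiableWithinAt
    · intro t ht
      rw [interior_Icc] at ht
      have ht' := hsub (Ioo_subset_Icc_self ht)
      have hd : deriv (fun t => f t + m / t) t = f' t + -(m / t ^ 2) :=
        ((hf t ht').add (hinv t ht')).deriv
      rw [hd]
      have := (abs_le.1 (hf' t ht')).2
      linarith
  have hM : MonotoneOn (fun t => f t - m / t) (Icc (200 : ℝ) s) := by
    apply monotoneOn_of_deriv_nonneg (convex_Icc _ _)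
    · intro t ht
      exact ((hf t (hsub ht)).sub (hinv t (hsub ht))).continuousAt.continuousWithinAt
    · intro t ht
      rw [interior_Icc] at ht
      exact ((hf t (hsub (Ioo_subset_Icc_self ht))).sub
        (hinv t (hsub (Ioo_subset_Icc_self ht)))).differentiableAt.differentiableWithinAt
    · intro t ht
      rw [interior_Icc] at ht
      have ht' := hsub (Ioo_subset_Icc_self ht)
      have hd : deriv (fun t => f t - m / t) t = f' t - -(m / t ^ 2) :=
        ((hf t ht').sub (hinv t ht')).deriv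
      rw [hd]
      have := (abs_le.1 (hf' t ht')).1
      linarith
  have h1 := hA (left_mem_Icc.2 hs.1) (right_mem_Icc.2 hs.1) hs.1
  have h2 := hM (left_mem_Icc.2 hs.1) (right_mem_Icc.2 hs.1) hs.1
  simp only at h1 h2
  rw [abs_le]
  constructor <;> linarith

/-- E4b. In the tube, `u` and `q` stay inside the clamp levels.

PROOF. `|u'| = |W̄|σ²/2 ≤ 10|u|/s²` so `|u(s)| ≤ |u(200)| exp (10/200)` (Gronwall: e.g. `u² exp(20/s)` is nonincreasing);
`|q(s) - q(200)| ≤ ∫ 8εq/s² ≤ 8εq/200`. -/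
theorem outer_inside (εu εq : ℝ) (hε : EpsCond εu εq) (v : ℝ → Fin 4 → ℝ) (b : ℝ)
    (hv : ∀ s ∈ Icc (200 : ℝ) b, HasDerivAt v (F3 εu εq s (v s)) s)
    (hW : ∀ s ∈ Icc (200 : ℝ) b, |v s 1| ≤ 20 * |v s 0|) (h0 : |v 200 0| ≤ εu / 2)
    (hq : |v 200 2| ≤ εq / 2) :
    ∀ s ∈ Icc (200 : ℝ) b, |v s 0| ≤ εu ∧ |v s 1| ≤ 20 * εu ∧ |v s 2| ≤ εq := by
  intro s hs
  have hd0 : ∀ s ∈ Icc (200 : ℝ) b, HasDerivAt (fun s => v s 0)
      (cl (20 * εu) (v s 1) * sig s ^ 2 / 2) s := fun s hs => hasDerivAt_pi.1 (hv s hs) 0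
  have hd2 : ∀ s ∈ Icc (200 : ℝ) b, HasDerivAt (fun s => v s 2)
      (cl (8 * εq) (v s 3) * sig s ^ 2) s := fun s hs => hasDerivAt_pi.1 (hv s hs) 2
  have h8 : 0 ≤ 8 * εq := by linarith [hε.hq]
  have h20 : 0 ≤ 20 * εu := by linarith [hε.hu]
  have hu : |v s 0| ≤ εu := by
    have hg := gronwall_track 200 b 1 zero_le_one (fun s => v s 0)
      (fun s => cl (20 * εu) (v s 1) * sig s ^ 2 / 2) (fun s => 1 / 200 - 10 / s)
      (fun s => 10 / s ^ 2) hd0 (by
        intro t ht
        have ht0 : t ≠ 0 := by have := ht.1; intro h; linarith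
        have h1 := ((hasDerivAt_inv ht0).const_mul 10).const_sub (1 / 200)
        have h2 : (fun t : ℝ => 1 / 200 - 10 / t) = fun t => 1 / 200 - 10 * t⁻¹ := by
          funext t; rw [div_eq_mul_inv 10 t]
        rw [h2]
        exact h1.congr_deriv (by rw [div_eq_mul_inv]; ring)) (by intro t ht; positivity) (by
        intro t ht
        rw [E4b_sig ht.1, Real.norm_eq_abs, Real.norm_eq_abs, one_mul]
        have ht0 : 0 < t := by linarith [ht.1]
        have h1 : |cl (20 * εu) (v t 1)| ≤ 20 * |v t 0| := (cl_abs_le' h20 _).trans (hW t ht)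
        rw [abs_div, abs_mul, abs_of_nonneg (by positivity : 0 ≤ (1 / t) ^ 2),
          abs_of_pos (by norm_num : (0:ℝ) < 2)]
        calc |cl (20 * εu) (v t 1)| * (1 / t) ^ 2 / 2 ≤ (20 * |v t 0|) * (1 / t) ^ 2 / 2 := by
              gcongr
          _ = 10 / t ^ 2 * |v t 0| := by
              field_simp
              ring) s hs
    rw [Real.norm_eq_abs, Real.norm_eq_abs, one_mul] at hg
    have he : Real.exp (1 / 200 - 10 / s - (1 / 200 - 10 / 200)) - 1 ≤ 1 / 10 := by
      have hs0 : 0 < s := by linarith [hs.1]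
      have h1 : 1 / 200 - 10 / s - (1 / 200 - 10 / 200) ≤ 1 / 20 := by
        have : 0 ≤ 10 / s := by positivity
        linarith
      have h2 := Real.exp_le_exp.2 h1
      have h3 : |Real.exp (1 / 20) - 1 - 1 / 20| ≤ (1 / 20) ^ 2 :=
        Real.abs_exp_sub_one_sub_id_le (by rw [abs_of_pos] <;> norm_num)
      have h4 := (abs_le.1 h3).2
      norm_num at h4
      linarith
    have h5 : |v s 0| ≤ |v s 0 - v 200 0| + |v 200 0| := by
      calc |v s 0| = |(v s 0 - v 200 0) + v 200 0| := by ring_nf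
        _ ≤ _ := abs_add_le _ _
    have h6 := mul_le_mul_of_nonneg_right he (abs_nonneg (v 200 0))
    linarith [hε.hu]
  refine ⟨hu, (hW s hs).trans (by linarith), ?_⟩
  have hi := E4b_int (f := fun s => v s 2) h8 hd2 (by
    intro t ht
    rw [E4b_sig ht.1, abs_mul, abs_of_nonneg (by positivity : 0 ≤ (1 / t) ^ 2)]
    calc |cl (8 * εq) (v t 3)| * (1 / t) ^ 2 ≤ (8 * εq) * (1 / t) ^ 2 := by
          gcongr
          exact cl_abs_le h8 _
      _ = 8 * εq / t ^ 2 := by
          rw [one_div, inv_pow, div_eq_mul_inv]) s hs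
  have h5 : |v s 2| ≤ |v s 2 - v 200 2| + |v 200 2| := by
    calc |v s 2| = |(v s 2 - v 200 2) + v 200 2| := by ring_nf
      _ ≤ _ := abs_add_le _ _
  linarith [hε.hq]

end Pool.Agent.RS
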