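import Pool.Agent.Lib.MP_35abc2_gt.H0_Defs
import Pool.Agent.Lib.MP_35abc2_gt.E0_Defs

/-! # E5: outer functions, definitions (MP_35abc2_gt) -/

open scoped ContDiff Topology NNReal
open Set Filter Real

noncomputable section

namespace Pool.Agent.RS

/-- the functions of `T` belonging to an outer solution `v(s)` -/
def oU (μ : ℝ) (v : ℝ → Fin 4 → ℝ) (T : ℝ) : ℝ := v (sM μ T) 0

def oW (μ : ℝ) (v : ℝ → Fin 4 → ℝ) (T : ℝ) : ℝ := v (sM μ T) 1 / sM μ T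

def oP (μ : ℝ) (v : ℝ → Fin 4 → ℝ) (T : ℝ) : ℝ := Real.sqrt (1 + v (sM μ T) 2)

def oF (μ : ℝ) (v : ℝ → Fin 4 → ℝ) (T : ℝ) : ℝ :=
  (v (sM μ T) 3 / sM μ T + 3 * (1 + v (sM μ T) 2) - 3 * cosh (v (sM μ T) 0) + sM μ T / 2)
    / (sM μ T * oP μ v T)

def oG (μ κ : ℝ) (v : ℝ → Fin 4 → ℝ) (T : ℝ) : ℝ :=
  3 * κ - (12 * cosh (oU μ v T) - 12 * oP μ v T ^ 2 + oP μ v T ^ 2 * oW μ v T ^ 2
    + 8 * sM μ T * oP μ v T * oF μ v T - sM μ T ^ 2 * oF μ v T ^ 2 - 3 / 2 * sM μ T) / sM μ T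

/-- the clamps are inactive for `v` at time `s` -/
def Inactive (εu εq : ℝ) (w : Fin 4 → ℝ) : Prop :=
  |w 0| ≤ εu ∧ |w 1| ≤ 20 * εu ∧ |w 2| ≤ εq ∧ |w 3| ≤ 8 * εq

end Pool.Agent.RS
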