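import Pool.Agent.Lib.MP_35abc2_gt.E5_Defs

/-! # E5a: derivatives with respect to T (MP_35abc2_gt) -/

open scoped ContDiff Topology NNReal
open Set Filter Real

noncomputable section

namespace Pool.Agent.RS

/-- E5a. Derivatives with respect to `T` (algebra part 1): with `s = sM μ T ≥ 1/100` and inactive clamps,
`oU' = oW`, `oW' = -((3cosh u - s/2) w + 6 sinh u)/Q`, `(1+q)' = 2D` with `D = Δ/s`, and
`D' = 2D + D²/Q + 3(Q - cosh u) + Qw² + 3w sinh u - D(3cosh u - s/2)/Q`, `Q = 1 + q`.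

PROOF. chain rule with `ds/dT = 2s`; `sig s = 1/s`; the definitions of `F3`, `rW`, `rD`; `field_simp; ring`. -/
theorem outer_derivs (μ εu εq T : ℝ) (hε : EpsCond εu εq) (v : ℝ → Fin 4 → ℝ)
    (hs : 1 / 100 ≤ sM μ T) (hv : HasDerivAt v (F3 εu εq (sM μ T) (v (sM μ T))) (sM μ T))
    (hin : Inactive εu εq (v (sM μ T))) :
    HasDerivAt (oU μ v) (oW μ v T) T ∧
    HasDerivAt (oW μ v) (-((3 * cosh (oU μ v T) - sM μ T / 2) * oW μ v T + 6 * sinh (oU μ v T))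
      / (1 + v (sM μ T) 2)) T ∧
    HasDerivAt (fun T => 1 + v (sM μ T) 2) (2 * (v (sM μ T) 3 / sM μ T)) T ∧
    HasDerivAt (fun T => v (sM μ T) 3 / sM μ T)
      (2 * (v (sM μ T) 3 / sM μ T) + (v (sM μ T) 3 / sM μ T) ^ 2 / (1 + v (sM μ T) 2)
        + 3 * ((1 + v (sM μ T) 2) - cosh (oU μ v T)) + (1 + v (sM μ T) 2) * oW μ v T ^ 2
        + 3 * oW μ v T * sinh (oU μ v T)
        - (v (sM μ T) 3 / sM μ T) * (3 * cosh (oU μ v T) - sM μ T / 2) / (1 + v (sM μ T) 2)) T := by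
  have hs0 : 0 < sM μ T := by linarith
  have hsne : sM μ T ≠ 0 := hs0.ne'
  obtain ⟨i0, i1, i2, i3⟩ := hin
  have hsig : sig (sM μ T) = 1 / sM μ T := by
    unfold sig
    rw [max_eq_left hs]
  have hQ : (1 : ℝ) + v (sM μ T) 2 ≠ 0 := by
    have h1 := (abs_le.1 i2).1
    have h2 := hε.hq'
    have : (0 : ℝ) < 1 + v (sM μ T) 2 := by linarith
    exact this.ne'
  have hsd : HasDerivAt (fun T => sM μ T) (2 * sM μ T) T := by
    unfold sM
    have := (((hasDerivAt_id T).const_mul 2).exp).const_mul μ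
    refine this.congr_deriv ?_
    simp only [id]
    ring
  have hcomp : HasDerivAt (fun T => v (sM μ T)) ((2 * sM μ T) • F3 εu εq (sM μ T) (v (sM μ T))) T :=
    HasDerivAt.scomp T hv hsd
  have hc : ∀ i, HasDerivAt (fun T => v (sM μ T) i) (2 * sM μ T * F3 εu εq (sM μ T) (v (sM μ T)) i) T := by
    intro i
    have := (hasDerivAt_pi.1 hcomp) i
    simpa using this
  have f0 : F3 εu εq (sM μ T) (v (sM μ T)) 0 = v (sM μ T) 1 * (1 / sM μ T) ^ 2 / 2 := by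
    simp only [F3, Matrix.cons_val_zero, hsig, cl_of_abs_le i1]
  have f1 : F3 εu εq (sM μ T) (v (sM μ T)) 1 = v (sM μ T) 1 / 4
      + rW (1 / sM μ T) (v (sM μ T) 0) (v (sM μ T) 1) (v (sM μ T) 2) := by
    simp only [F3, hsig, cl_of_abs_le i0, cl_of_abs_le i1, cl_of_abs_le i2]
    rfl
  have f2 : F3 εu εq (sM μ T) (v (sM μ T)) 2 = v (sM μ T) 3 * (1 / sM μ T) ^ 2 := by
    simp only [F3, hsig, cl_of_abs_le i3]
    rfl
  have f3 : F3 εu εq (sM μ T) (v (sM μ T)) 3 = v (sM μ T) 3 / 4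
      + rD (1 / sM μ T) (v (sM μ T) 0) (v (sM μ T) 1) (v (sM μ T) 2) (v (sM μ T) 3) := by
    simp only [F3, hsig, cl_of_abs_le i0, cl_of_abs_le i1, cl_of_abs_le i2, cl_of_abs_le i3]
    rfl
  have h0 := hc 0
  have h1 := hc 1
  have h2 := hc 2
  have h3 := hc 3
  rw [f0] at h0
  rw [f1] at h1
  rw [f2] at h2
  rw [f3] at h3
  refine ⟨?_, ?_, ?_, ?_⟩
  · show HasDerivAt (fun T => v (sM μ T) 0) (v (sM μ T) 1 / sM μ T) T
    refine h0.congr_deriv ?_
    field_simp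
  · show HasDerivAt (fun T => v (sM μ T) 1 / sM μ T)
      (-((3 * cosh (v (sM μ T) 0) - sM μ T / 2) * (v (sM μ T) 1 / sM μ T) + 6 * sinh (v (sM μ T) 0))
      / (1 + v (sM μ T) 2)) T
    refine (h1.div hsd hsne).congr_deriv ?_
    unfold rW
    field_simp
    ring
  · refine (h2.const_add 1).congr_deriv ?_
    field_simp
  · show HasDerivAt (fun T => v (sM μ T) 3 / sM μ T)
      (2 * (v (sM μ T) 3 / sM μ T) + (v (sM μ T) 3 / sM μ T) ^ 2 / (1 + v (sM μ T) 2)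
        + 3 * ((1 + v (sM μ T) 2) - cosh (v (sM μ T) 0)) + (1 + v (sM μ T) 2) * (v (sM μ T) 1 / sM μ T) ^ 2
        + 3 * (v (sM μ T) 1 / sM μ T) * sinh (v (sM μ T) 0)
        - (v (sM μ T) 3 / sM μ T) * (3 * cosh (v (sM μ T) 0) - sM μ T / 2) / (1 + v (sM μ T) 2)) T
    refine (h3.div hsd hsne).congr_deriv ?_
    unfold rD
    field_simp
    ring

end Pool.Agent.RS
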