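import Pool.Agent.Lib.MP_35abc2_gt.E5a_Derivs

/-! # E5b: the outer solution solves (M) (MP_35abc2_gt) -/

open scoped ContDiff Topology NNReal
open Set Filter Real

noncomputable section

namespace Pool.Agent.RS

lemma E5b_sM_deriv (μ T : ℝ) : HasDerivAt (sM μ) (2 * sM μ T) T := by
  unfold sM
  have h1 : HasDerivAt (fun T : ℝ => 2 * T) 2 T := by
    simpa using (hasDerivAt_id T).const_mul 2
  have h2 := (h1.exp).const_mul μ
  exact h2.congr_deriv (by ring)

lemma E5b_sM_ge {μ T : ℝ} (hμ : 0 < μ) (hT : tZ μ ≤ T) : 1 / 100 ≤ sM μ T := by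
  have h : sM μ (tZ μ) = 1 / 100 := by
    unfold sM tZ
    rw [mul_div_cancel₀ _ (by norm_num : (2 : ℝ) ≠ 0), Real.exp_log (by positivity)]
    field_simp
  rw [← h]
  unfold sM
  exact mul_le_mul_of_nonneg_left (Real.exp_le_exp.2 (by linarith)) hμ.le

/-- algebra for `F'` -/
lemma E5b_algF (s c sh w P F D N dN : ℝ) (hs : s ≠ 0) (hP : P ≠ 0)
    (hN : N = D + 3 * P ^ 2 - 3 * c + s / 2) (hF : F = N / (s * P))
    (hdN : dN = (2 * D + D ^ 2 / P ^ 2 + 3 * (P ^ 2 - c) + P ^ 2 * w ^ 2 + 3 * w * sh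
      - D * (3 * c - s / 2) / P ^ 2) + 3 * (2 * D) - 3 * (sh * w) + 2 * s / 2) :
    (dN * (s * P) - N * (2 * s * P + s * (D / P))) / (s * P) ^ 2 =
      -5 * F + ((12 * c - 12 * P ^ 2 + P ^ 2 * w ^ 2 + 8 * s * P * F - s ^ 2 * F ^ 2
        - 3 / 2 * s) / s + s * F ^ 2) / P := by
  subst hdN hF hN
  field_simp
  ring

/-- algebra for `g'` -/
lemma E5b_algG (s c sh w P F : ℝ) (hs : s ≠ 0) (hP : P ≠ 0) (D H dw dP dF dH : ℝ)
    (hD : D = s * P * F - 3 * P ^ 2 + 3 * c - s / 2)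
    (hH : H = 12 * c - 12 * P ^ 2 + P ^ 2 * w ^ 2 + 8 * s * P * F - s ^ 2 * F ^ 2 - 3 / 2 * s)
    (hdw : dw = -((3 * c - s / 2) * w + 6 * sh) / P ^ 2) (hdP : dP = D / P)
    (hdF : dF = -5 * F + (H / s + s * F ^ 2) / P)
    (hdH : dH = 12 * (sh * w) - 12 * (2 * P * dP) + ((2 * P * dP) * w ^ 2 + P ^ 2 * (2 * w * dw))
      + ((8 * (2 * s) * P + 8 * s * dP) * F + 8 * s * P * dF)
      - ((2 * s * (2 * s)) * F ^ 2 + s ^ 2 * (2 * F * dF)) - 3 / 2 * (2 * s)) :
    0 - (dH * s - H * (2 * s)) / s ^ 2 = s * F / P := by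
  subst hdH hdF hdP hdw hH hD
  field_simp
  ring

theorem outer_solM (μ κ εu εq : ℝ) (hμ : 0 < μ) (hε : EpsCond εu εq) (v : ℝ → Fin 4 → ℝ)
    (hv : ∀ s, 1 / 100 ≤ s → HasDerivAt v (F3 εu εq s (v s)) s)
    (hin : ∀ s, 1 / 100 ≤ s → Inactive εu εq (v s)) :
    SolM μ κ (Ici (tZ μ)) (oU μ v) (oW μ v) (oP μ v) (oF μ v) (oG μ κ v) := by
  have main : ∀ T, tZ μ ≤ T → 0 < oP μ v T ∧ HasDerivAt (oU μ v) (oW μ v T) T ∧
      HasDerivAt (oW μ v) (-((3 * cosh (oU μ v T) - sM μ T / 2) * oW μ v T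
        + 6 * sinh (oU μ v T)) / oP μ v T ^ 2) T ∧
      HasDerivAt (oP μ v) (-3 * oP μ v T + (3 * cosh (oU μ v T) - sM μ T / 2) / oP μ v T
        + sM μ T * oF μ v T) T ∧
      HasDerivAt (oF μ v) (-5 * oF μ v T + (3 * κ - oG μ κ v T + sM μ T * oF μ v T ^ 2)
        / oP μ v T) T ∧
      HasDerivAt (oG μ κ v) (sM μ T * oF μ v T / oP μ v T) T ∧
      conK κ (sM μ T) (oU μ v T) (oW μ v T) (oP μ v T) (oF μ v T) (oG μ κ v T) = 0 := by
    intro T hT
    have hs := E5b_sM_ge hμ hT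
    have hs0 : 0 < sM μ T := by linarith
    have hsne : sM μ T ≠ 0 := hs0.ne'
    obtain ⟨dU, dW, dQ, dD⟩ := outer_derivs μ εu εq T hε v hs (hv _ hs) (hin _ hs)
    have hq := (hin _ hs).2.2.1
    have hQ : 0 < 1 + v (sM μ T) 2 := by
      have := (abs_le.1 hq).1
      have := hε.hq'
      linarith
    have hP : 0 < oP μ v T := Real.sqrt_pos.2 hQ
    have hPne := hP.ne'
    have hP2 : oP μ v T ^ 2 = 1 + v (sM μ T) 2 := Real.sq_sqrt hQ.le
    have ds := E5b_sM_deriv μ T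
    have dP0 : HasDerivAt (oP μ v) (2 * (v (sM μ T) 3 / sM μ T) / (2 * oP μ v T)) T :=
      dQ.sqrt hQ.ne'
    have dP : HasDerivAt (oP μ v) ((v (sM μ T) 3 / sM μ T) / oP μ v T) T :=
      dP0.congr_deriv (mul_div_mul_left _ _ (by norm_num : (2 : ℝ) ≠ 0))
    rw [← hP2] at dD dW
    set s := sM μ T with hsdef
    set P := oP μ v T with hPdef
    set D := v s 3 / s with hDdef
    set c := cosh (oU μ v T) with hcdef
    set sh := sinh (oU μ v T) with hshdef
    set w := oW μ v T with hwdef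
    have hF : oF μ v T = (D + 3 * P ^ 2 - 3 * c + s / 2) / (s * P) := by
      rw [hP2]; rfl
    have hN : s * P * oF μ v T = D + 3 * P ^ 2 - 3 * c + s / 2 := by
      rw [hF]; field_simp
    have hD' : D = s * P * oF μ v T - 3 * P ^ 2 + 3 * c - s / 2 := by linarith
    have hG : oG μ κ v T = 3 * κ - (12 * c - 12 * P ^ 2 + P ^ 2 * w ^ 2 + 8 * s * P * oF μ v T
        - s ^ 2 * oF μ v T ^ 2 - 3 / 2 * s) / s := rfl
    have hG' : 3 * κ - oG μ κ v T = (12 * c - 12 * P ^ 2 + P ^ 2 * w ^ 2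
        + 8 * s * P * oF μ v T - s ^ 2 * oF μ v T ^ 2 - 3 / 2 * s) / s := by
      rw [hG]; ring
    have dF : HasDerivAt (oF μ v) (-5 * oF μ v T + (3 * κ - oG μ κ v T + s * oF μ v T ^ 2)
        / P) T := by
      have h1 := (((dD.add (dQ.const_mul 3)).sub (dU.cosh.const_mul 3)).add
        (ds.div_const 2)).div (ds.mul dP) (mul_ne_zero hsne hPne)
      have h2 := E5b_algF s c sh w P (oF μ v T) D _ _ hsne hPne rfl hF rfl
      have h1' : HasDerivAt (oF μ v) _ T := h1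
      refine h1'.congr_deriv ?_
      rw [hG', ← h2]
      simp only [Pi.add_apply, Pi.sub_apply, Pi.mul_apply]
      rw [hP2]
    have dG : HasDerivAt (oG μ κ v) (s * oF μ v T / P) T := by
      have e1 := (dU.cosh).const_mul (12 : ℝ)
      have e2 := (dP.pow 2).const_mul (12 : ℝ)
      have e3 := (dP.pow 2).mul (dW.pow 2)
      have e4 := ((ds.const_mul (8 : ℝ)).mul dP).mul dF
      have e5 := (ds.pow 2).mul (dF.pow 2)
      have e6 := ds.const_mul (3 / 2 : ℝ)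
      have h1 := ((((((e1.sub e2).add e3).add e4).sub e5).sub e6).div ds hsne).const_sub (3 * κ)
      have h2 := E5b_algG s c sh w P (oF μ v T) hsne hPne D _ _ _ _ _ hD' rfl rfl rfl rfl rfl
      have h1' : HasDerivAt (oG μ κ v) _ T := h1
      refine h1'.congr_deriv ?_
      rw [← h2, hG', zero_sub]
      simp only [Pi.add_apply, Pi.sub_apply, Pi.mul_apply, Pi.pow_apply]
      push_cast
      ring
    refine ⟨hP, dU, dW, ?_, dF, dG, ?_⟩
    · refine dP.congr_deriv ?_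
      have : s * oF μ v T = (D + 3 * P ^ 2 - 3 * c + s / 2) / P := by
        rw [← hN]; field_simp
      rw [this]
      field_simp
      ring
    · unfold conK
      rw [hG']
      field_simp
      ring
  refine ⟨fun T hT => (main T hT).1, fun T hT => (main T hT).2.1, fun T hT => (main T hT).2.2.1,
    fun T hT => (main T hT).2.2.2.1, fun T hT => (main T hT).2.2.2.2.1,
    fun T hT => (main T hT).2.2.2.2.2.1, fun T hT => (main T hT).2.2.2.2.2.2⟩

end Pool.Agent.RS
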