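import Pool.Agent.Lib.MP_35abc2_gt.E5_Defs

/-! # E5c: matching and bounds (MP_35abc2_gt) -/

open scoped ContDiff Topology NNReal
open Set Filter Real

noncomputable section

namespace Pool.Agent.RS

/-- E5c. Matching at `s = 1/100` and bounds.

PROOF. Matching: `oP = √(1 + (P²-1)) = P`; `s P oF = DD + 3P² - 3cosh u + s/2 = sPΦ`; `oG` from `conK = 0`.
Bounds: `Q = 1 + q ≤ 1.01`; `scalR κ s oF oG = [12(cosh u - Q) - 8D - Qw²]/s` (algebra), `|·| ≤ 1200(εq + εu²) + 8·8εq·10⁴ + 1.01·400εu²·10⁶ ≤ 10⁶ εq`. -/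
theorem outer_match (μ κ εu εq : ℝ) (hμ : 0 < μ) (hε : EpsCond εu εq) (v : ℝ → Fin 4 → ℝ)
    (hin : ∀ s, 1 / 100 ≤ s → Inactive εu εq (v s)) :
    (∀ u w P Φ g : ℝ, 0 < P → conK κ (1 / 100) u w P Φ g = 0 →
      v (1 / 100) = ![u, w / 100, P ^ 2 - 1, DD (1 / 100) u P Φ / 100] →
      oU μ v (tZ μ) = u ∧ oW μ v (tZ μ) = w ∧ oP μ v (tZ μ) = P ∧ oF μ v (tZ μ) = Φ ∧
      oG μ κ v (tZ μ) = g) ∧
    (∀ T, tZ μ ≤ T → oP μ v T ≤ 2) ∧
    (∀ T, tZ μ ≤ T → |scalR κ (sM μ T) (oF μ v T) (oG μ κ v T)| ≤ 10 ^ 6 * εq) := by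
  have hexp : exp (2 * tZ μ) = 1 / (100 * μ) := by
    unfold tZ
    rw [mul_div_cancel₀ _ (two_ne_zero), exp_log (by positivity)]
  have hsZ : sM μ (tZ μ) = 1 / 100 := by
    unfold sM
    rw [hexp]
    field_simp
  have hsge : ∀ T, tZ μ ≤ T → 1 / 100 ≤ sM μ T := by
    intro T hT
    rw [← hsZ]
    unfold sM
    exact mul_le_mul_of_nonneg_left (exp_le_exp.2 (by linarith)) hμ.le
  have hqb : ∀ T, tZ μ ≤ T → |v (sM μ T) 2| ≤ 1 / 2000 := fun T hT =>
    (hin _ (hsge T hT)).2.2.1.trans hε.hq'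
  have hP2 : ∀ T, tZ μ ≤ T → oP μ v T ^ 2 = 1 + v (sM μ T) 2 ∧ 0 < oP μ v T := by
    intro T hT
    have h1 := (abs_le.1 (hqb T hT)).1
    have h2 : (0 : ℝ) < 1 + v (sM μ T) 2 := by linarith
    refine ⟨?_, Real.sqrt_pos.2 h2⟩
    unfold oP
    exact Real.sq_sqrt h2.le
  refine ⟨?_, ?_, ?_⟩
  · intro u w P Φ g hP hK hv
    have v0 : v (1 / 100) 0 = u := by rw [hv]; rfl
    have v1 : v (1 / 100) 1 = w / 100 := by rw [hv]; rfl
    have v2 : v (1 / 100) 2 = P ^ 2 - 1 := by rw [hv]; rfl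
    have v3 : v (1 / 100) 3 = DD (1 / 100) u P Φ / 100 := by rw [hv]; rfl
    have eU : oU μ v (tZ μ) = u := by unfold oU; rw [hsZ, v0]
    have eW : oW μ v (tZ μ) = w := by unfold oW; rw [hsZ, v1]; ring
    have eP : oP μ v (tZ μ) = P := by
      unfold oP
      rw [hsZ, v2, add_sub_cancel, Real.sqrt_sq hP.le]
    have eF : oF μ v (tZ μ) = Φ := by
      unfold oF
      rw [eP, hsZ, v3, v2, v0]
      unfold DD
      field_simp
      ring
    refine ⟨eU, eW, eP, eF, ?_⟩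
    unfold oG
    rw [eU, eW, eP, eF, hsZ]
    unfold conK at hK
    have : 12 * cosh u - 12 * P ^ 2 + P ^ 2 * w ^ 2 + 8 * (1 / 100) * P * Φ - (1 / 100) ^ 2 * Φ ^ 2
        - 3 / 2 * (1 / 100) = 1 / 100 * (3 * κ - g) := by linarith
    rw [this]
    ring
  · intro T hT
    obtain ⟨h1, h2⟩ := hP2 T hT
    have h3 := (abs_le.1 (hqb T hT)).2
    nlinarith
  · intro T hT
    have hs := hsge T hT
    obtain ⟨i0, i1, i2, i3⟩ := hin _ hs
    obtain ⟨hPsq, hPpos⟩ := hP2 T hT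
    set S := sM μ T with hS
    have hS0 : 0 < S := by linarith
    have hQ1 := hqb T hT
    rw [← hS] at hQ1
    have hFeq : S * oP μ v T * oF μ v T
        = v S 3 / S + 3 * (1 + v S 2) - 3 * cosh (v S 0) + S / 2 := by
      unfold oF
      rw [← hS]
      field_simp
    have key : scalR κ S (oF μ v T) (oG μ κ v T)
        = (12 * (cosh (v S 0) - 1) - 12 * v S 2 - 8 * (v S 3 / S) - (1 + v S 2) * (v S 1 / S) ^ 2) / S := by
      unfold scalR oG
      rw [← hS, hPsq]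
      have e1 : oU μ v T = v S 0 := rfl
      have e2 : oW μ v T = v S 1 / S := rfl
      have e3 : 8 * S * oP μ v T * oF μ v T = 8 * (S * oP μ v T * oF μ v T) := by ring
      rw [e1, e2, e3, hFeq]
      field_simp
      ring
    rw [key]
    have hεu := hε.hu
    have hεu' := hε.hu'
    have hεq := hε.hq
    have hεq' := hε.hq'
    have huq := hε.huq
    have hc : |cosh (v S 0) - 1| ≤ εu ^ 2 := by
      have h1 : 1 ≤ cosh (v S 0) := Real.one_le_cosh _
      rw [abs_of_nonneg (by linarith)]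
      have h2 := Real.cosh_le_exp_half_sq (v S 0)
      have h3 : (v S 0) ^ 2 ≤ εu ^ 2 := sq_le_sq' (by linarith [(abs_le.1 i0).1]) (abs_le.1 i0).2
      have h4 : εu ^ 2 ≤ 1 / 4000000 := by nlinarith
      have h5 : |(v S 0) ^ 2 / 2| ≤ 1 := by
        rw [abs_of_nonneg (by positivity)]
        linarith
      have h6 := (abs_le.1 (Real.abs_exp_sub_one_sub_id_le h5)).2
      have h7 : 0 ≤ (v S 0) ^ 2 := sq_nonneg _
      nlinarith
    have hinv : 1 / S ≤ 100 := by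
      rw [div_le_iff₀ hS0]
      linarith
    have hinv0 : 0 < 1 / S := by positivity
    have a1 : |12 * (cosh (v S 0) - 1)| ≤ 12 * εu ^ 2 := by
      rw [abs_mul, abs_of_pos (by norm_num : (0:ℝ) < 12)]
      linarith
    have a2 : |12 * v S 2| ≤ 12 * εq := by
      rw [abs_mul, abs_of_pos (by norm_num : (0:ℝ) < 12)]
      linarith
    have a3 : |8 * (v S 3 / S)| ≤ 6400 * εq := by
      rw [abs_mul, abs_of_pos (by norm_num : (0:ℝ) < 8), div_eq_mul_one_div, abs_mul, abs_of_pos hinv0]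
      have : |v S 3| * (1 / S) ≤ (8 * εq) * 100 :=
        mul_le_mul i3 hinv hinv0.le (by positivity)
      linarith
    have a4 : |(1 + v S 2) * (v S 1 / S) ^ 2| ≤ 8 * 10 ^ 6 * εu ^ 2 := by
      have hw : (v S 1 / S) ^ 2 ≤ (2000 * εu) ^ 2 := by
        have : |v S 1 / S| ≤ 2000 * εu := by
          rw [div_eq_mul_one_div, abs_mul, abs_of_pos hinv0]
          have : |v S 1| * (1 / S) ≤ (20 * εu) * 100 :=
            mul_le_mul i1 hinv hinv0.le (by positivity)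
          linarith
        exact sq_le_sq' (by linarith [(abs_le.1 this).1]) (abs_le.1 this).2
      have hq2 : |1 + v S 2| ≤ 2 := by
        have := abs_le.1 hQ1
        rw [abs_le]
        constructor <;> linarith [this.1, this.2]
      rw [abs_mul, abs_of_nonneg (sq_nonneg (v S 1 / S))]
      have := mul_le_mul hq2 hw (sq_nonneg _) (by norm_num : (0:ℝ) ≤ 2)
      refine this.trans (le_of_eq ?_)
      ring
    rw [div_eq_mul_one_div, abs_mul, abs_of_pos hinv0]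
    have tot : |12 * (cosh (v S 0) - 1) - 12 * v S 2 - 8 * (v S 3 / S) - (1 + v S 2) * (v S 1 / S) ^ 2|
        ≤ 12 * εu ^ 2 + 12 * εq + 6400 * εq + 8 * 10 ^ 6 * εu ^ 2 := by
      refine (abs_sub _ _).trans (add_le_add ((abs_sub _ _).trans (add_le_add ((abs_sub _ _).trans
        (add_le_add a1 a2)) a3)) a4)
    have tot0 : 0 ≤ 12 * εu ^ 2 + 12 * εq + 6400 * εq + 8 * 10 ^ 6 * εu ^ 2 := by positivity
    have fin := mul_le_mul tot hinv hinv0.le tot0
    refine fin.trans ?_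
    nlinarith

end Pool.Agent.RS
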