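import Pool.Agent.Lib.MP_35abc2_gt.E5a_Derivs
import Pool.Agent.Lib.MP_35abc2_gt.C3_Defs
import Pool.Agent.Lib.MP_35abc2_gt.D4_EBound

/-! # E6: tracking in the outer region (MP_35abc2_gt) -/

open scoped ContDiff Topology NNReal
open Set Filter Real

noncomputable section

namespace Pool.Agent.RS

lemma E6_sM (σ : ℝ) : sM 1 σ = exp (2 * σ) := by
  unfold sM; rw [one_mul]

lemma E6_S : exp (2 * sigS) = 200 := by
  unfold sigS
  rw [mul_div_cancel₀ _ (by norm_num : (2 : ℝ) ≠ 0), Real.exp_log (by norm_num)]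

lemma E6_Z : exp (2 * sigZ) = 1 / 100 := by
  unfold sigZ
  rw [mul_div_cancel₀ _ (by norm_num : (2 : ℝ) ≠ 0), Real.exp_log (by norm_num)]

lemma E6_diff : 0 ≤ sigS - sigZ ∧ sigS - sigZ ≤ 5 := by
  have h1 : sigS - sigZ = Real.log 20000 / 2 := by
    unfold sigS sigZ
    rw [← sub_div, ← Real.log_div (by norm_num) (by norm_num)]
    norm_num
  rw [h1]
  constructor
  · have := Real.log_nonneg (by norm_num : (1 : ℝ) ≤ 20000)
    linarith
  · have h2 : Real.log 20000 ≤ 10 := by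
      rw [Real.log_le_iff_le_exp (by norm_num)]
      have h3 : Real.exp 10 = Real.exp 1 ^ 10 := by
        rw [← Real.exp_nat_mul]; norm_num
      rw [h3]
      have h4 : (2.718 : ℝ) ≤ Real.exp 1 := by
        have := Real.exp_one_gt_d9
        linarith
      calc (20000 : ℝ) ≤ 2.718 ^ 10 := by norm_num
        _ ≤ Real.exp 1 ^ 10 := pow_le_pow_left₀ (by norm_num) h4 10
    linarith

theorem outer_track (U₁ V₁ U₂ V₂ : ℝ → ℝ) (C C' : ℝ) (hR : RefPair U₁ V₁ U₂ V₂ C)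
    (hT : TrackProp U₁ V₁ U₂ V₂ C') (εu εq : ℝ) (hε : EpsCond εu εq) (v : ℝ → Fin 4 → ℝ)
    (hv : ∀ s ∈ Icc (1 / 100 : ℝ) 200, HasDerivAt v (F3 εu εq s (v s)) s)
    (hin : ∀ s ∈ Icc (1 / 100 : ℝ) 200, Inactive εu εq (v s)) :
    max |nn sigS * (-v 200 0) - J0 U₁ V₁ (v (1 / 100) 0) (100 * v (1 / 100) 1)|
      |nn sigS * (v 200 1 / 200) - J0 U₂ V₂ (v (1 / 100) 0) (100 * v (1 / 100) 1)| ≤
    (exp (C' * (6 * εq)) - 1) * max |J0 U₁ V₁ (v (1 / 100) 0) (100 * v (1 / 100) 1)|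
      |J0 U₂ V₂ (v (1 / 100) 0) (100 * v (1 / 100) 1)| := by
  obtain ⟨hd0, hd5⟩ := E6_diff
  have hmem : ∀ σ ∈ Icc sigZ sigS, exp (2 * σ) ∈ Icc (1 / 100 : ℝ) 200 := by
    intro σ hσ
    rw [← E6_Z, ← E6_S]
    exact ⟨Real.exp_le_exp.2 (by linarith [hσ.1]), Real.exp_le_exp.2 (by linarith [hσ.2])⟩
  have hder : ∀ σ ∈ Icc sigZ sigS, HasDerivAt (oU 1 v) (oW 1 v σ) σ ∧
      HasDerivAt (oW 1 v) (-((3 * cosh (oU 1 v σ) - exp (2 * σ) / 2) * oW 1 v σ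
        + 6 * sinh (oU 1 v σ)) / (1 + v (exp (2 * σ)) 2)) σ := by
    intro σ hσ
    have hs := hmem σ hσ
    have h1 := outer_derivs 1 εu εq σ hε v (by rw [E6_sM]; exact hs.1)
      (by rw [E6_sM]; exact hv _ hs) (by rw [E6_sM]; exact hin _ hs)
    rw [E6_sM] at h1
    exact ⟨h1.1, h1.2.1⟩
  have key := hT.step sigZ sigS (oU 1 v) (oW 1 v)
    (fun σ => -((3 * cosh (oU 1 v σ) - exp (2 * σ) / 2) * oW 1 v σ
        + 6 * sinh (oU 1 v σ)) / (1 + v (exp (2 * σ)) 2)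
        - (-(3 - exp (2 * σ) / 2) * oW 1 v σ - 6 * oU 1 v σ))
    (fun σ => (εu ^ 2 + εq) * σ) (fun _ => εu ^ 2 + εq) (by linarith) le_rfl
    (fun σ hσ => (hder σ hσ).1)
    (fun σ hσ => (hder σ hσ).2.congr_deriv (by ring))
    (fun σ _ => by simpa using (hasDerivAt_id σ).const_mul (εu ^ 2 + εq))
    (fun σ _ => by have := hε.hq; positivity)
    (by
      intro σ hσ
      have hs := hmem σ hσ
      obtain ⟨i0, i1, i2, i3⟩ := hin _ hs
      have hu : |oU 1 v σ| ≤ εu := by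
        have : oU 1 v σ = v (exp (2 * σ)) 0 := by unfold oU; rw [E6_sM]
        rw [this]; exact i0
      have h1 := hε.hu'
      have h2 := hε.hq'
      have h3 := e_bound (exp (2 * σ)) (oU 1 v σ) (oW 1 v σ) (v (exp (2 * σ)) 2)
        (Real.exp_pos _).le hs.2 (by linarith) (by linarith)
      refine h3.trans ?_
      have h4 : (oU 1 v σ) ^ 2 ≤ εu ^ 2 := by
        rw [← sq_abs (oU 1 v σ)]
        exact pow_le_pow_left₀ (abs_nonneg _) hu 2
      have h5 : 0 ≤ |oU 1 v σ| + |oW 1 v σ| := by positivity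
      refine mul_le_mul_of_nonneg_right ?_ h5
      linarith)
  have eU : ∀ σ, oU 1 v σ = v (exp (2 * σ)) 0 := fun σ => by unfold oU; rw [E6_sM]
  have eW : ∀ σ, oW 1 v σ = v (exp (2 * σ)) 1 / exp (2 * σ) := fun σ => by
    unfold oW; rw [E6_sM]
  have j1 : JJ U₁ V₁ (oU 1 v) (oW 1 v) sigS = nn sigS * (-v 200 0) := by
    unfold JJ
    rw [eU, eW, E6_S, hR.u1, hR.v1]; ring
  have j2 : JJ U₂ V₂ (oU 1 v) (oW 1 v) sigS = nn sigS * (v 200 1 / 200) := by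
    unfold JJ
    rw [eU, eW, E6_S, hR.u2, hR.v2]; ring
  have j3 : JJ U₁ V₁ (oU 1 v) (oW 1 v) sigZ = J0 U₁ V₁ (v (1 / 100) 0) (100 * v (1 / 100) 1) := by
    unfold JJ J0
    rw [eU, eW, E6_Z]; ring
  have j4 : JJ U₂ V₂ (oU 1 v) (oW 1 v) sigZ = J0 U₂ V₂ (v (1 / 100) 0) (100 * v (1 / 100) 1) := by
    unfold JJ J0
    rw [eU, eW, E6_Z]; ring
  rw [j1, j2, j3, j4] at key
  refine key.trans ?_
  have hq := hε.hq
  refine mul_le_mul_of_nonneg_right ?_ (le_max_of_le_left (abs_nonneg _))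
  have h6 : (εu ^ 2 + εq) * sigS - (εu ^ 2 + εq) * sigZ ≤ 6 * εq := by
    have h7 : (εu ^ 2 + εq) * (sigS - sigZ) ≤ (εu ^ 2 + εq) * 5 :=
      mul_le_mul_of_nonneg_left hd5 (by positivity)
    have h8 := hε.huq
    have h9 : 0 ≤ εu ^ 2 := by positivity
    linarith
  have h10 : C' * ((εu ^ 2 + εq) * sigS - (εu ^ 2 + εq) * sigZ) ≤ C' * (6 * εq) :=
    mul_le_mul_of_nonneg_left h6 hT.pos.le
  have h11 := Real.exp_le_exp.2 h10
  linarith

end Pool.Agent.RS
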