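import Pool.Agent.Lib.MP_35abc2_gt.Chr

/-! # G0: the metric on `Ω = {P₂ y ≠ 0} ⊆ ℝⁿ` (MP_35abc2_gt): definitions -/

open scoped ContDiff Topology
open Set Filter Real

noncomputable section

namespace Pool.Agent.RS

variable {n : ℕ}

/-- Splitting of `ℝⁿ` into three orthogonal coordinate subspaces of dimensions `3, 3, n - 6`. -/
structure Split (n : ℕ) where
  P1 : Euc n →L[ℝ] Euc n
  P2 : Euc n →L[ℝ] Euc n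
  P3 : Euc n →L[ℝ] Euc n
  sum : ∀ v, P1 v + P2 v + P3 v = v
  i11 : ∀ v, P1 (P1 v) = P1 v
  i22 : ∀ v, P2 (P2 v) = P2 v
  i33 : ∀ v, P3 (P3 v) = P3 v
  i12 : ∀ v, P1 (P2 v) = 0
  i13 : ∀ v, P1 (P3 v) = 0
  i21 : ∀ v, P2 (P1 v) = 0
  i23 : ∀ v, P2 (P3 v) = 0
  i31 : ∀ v, P3 (P1 v) = 0
  i32 : ∀ v, P3 (P2 v) = 0
  s1 : ∀ v w, inner ℝ (P1 v) w = inner ℝ v (P1 w)
  s2 : ∀ v w, inner ℝ (P2 v) w = inner ℝ v (P2 w)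
  s3 : ∀ v w, inner ℝ (P3 v) w = inner ℝ v (P3 w)
  t1 : ∑ i, (P1 (eb i)) i = 3
  t2 : ∑ i, (P2 (eb i)) i = 3
  /-- an orthonormal pair in the range of `P2` -/
  u1 : Euc n
  u2 : Euc n
  hu1 : P2 u1 = u1
  hu2 : P2 u2 = u2
  nu1 : inner ℝ u1 u1 = (1 : ℝ)
  nu2 : inner ℝ u2 u2 = (1 : ℝ)
  u12 : inner ℝ u1 u2 = (0 : ℝ)
  conn : IsConnected {y : Euc n | P2 y ≠ 0}

/-- `x = |X|²`, `X = P₁ y` -/
def xx (S : Split n) (y : Euc n) : ℝ := inner ℝ (S.P1 y) (S.P1 y)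
/-- `ζ = |Z|²`, `Z = P₂ y` -/
def ze (S : Split n) (y : Euc n) : ℝ := inner ℝ (S.P2 y) (S.P2 y)
/-- `τ = ½ log x` -/
def ta (S : Split n) (y : Euc n) : ℝ := log (xx S y) / 2

/-- the domain -/
def Om (S : Split n) : Set (Euc n) := {y | S.P2 y ≠ 0}

/-- the bilinear form `⟨P v, w⟩` -/
def ipL (P : Euc n →L[ℝ] Euc n) : Form2 (Euc n) :=
  ∑ i, ((EuclideanSpace.proj i : Euc n →L[ℝ] ℝ).comp P).smulRight (EuclideanSpace.proj i : Euc n →L[ℝ] ℝ)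

/-- the functional `⟨a, ·⟩` -/
def ip1 (a : Euc n) : Euc n →L[ℝ] ℝ := ∑ i, a i • (EuclideanSpace.proj i : Euc n →L[ℝ] ℝ)

/-- the metric
`α(x)⟨P₁v,w⟩ + β(x)⟨X,v⟩⟨X,w⟩ + A(x)(⟨P₂v,w⟩/ζ - ⟨Z,v⟩⟨Z,w⟩/ζ²) + ⟨Z,v⟩⟨Z,w⟩/ζ² + ⟨P₃v,w⟩` -/
def gMet (S : Split n) (α β A : ℝ → ℝ) (y : Euc n) : Form2 (Euc n) :=
  α (xx S y) • ipL S.P1 + β (xx S y) • (ip1 (S.P1 y)).smulRight (ip1 (S.P1 y))
    + (A (xx S y) / ze S y) • ipL S.P2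
    + ((1 - A (xx S y)) / ze S y ^ 2) • (ip1 (S.P2 y)).smulRight (ip1 (S.P2 y)) + ipL S.P3

/-- the potential `h(x) + (log |Z|)²/4 + |P₃ y|²/4` -/
def fPot (S : Split n) (h : ℝ → ℝ) (y : Euc n) : ℝ :=
  h (xx S y) + log (ze S y) ^ 2 / 16 + inner ℝ (S.P3 y) (S.P3 y) / 4

/-- the profile functions are smooth on a neighbourhood of `[0,∞)`, positive, and the radial direction is complete -/
structure Profile (α β A h : ℝ → ℝ) (X₀ : ℝ) : Prop where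
  hX : 0 < X₀
  sα : ContDiffOn ℝ ∞ α (Ioi (-X₀))
  sβ : ContDiffOn ℝ ∞ β (Ioi (-X₀))
  sA : ContDiffOn ℝ ∞ A (Ioi (-X₀))
  sh : ContDiffOn ℝ ∞ h (Ioi (-X₀))
  pα : ∀ x, 0 ≤ x → 0 < α x
  pl : ∀ x, 0 ≤ x → 0 < α x + x * β x
  pA : ∀ x, 0 ≤ x → 0 < A x
  comp : ∃ c : ℝ, 0 < c ∧ ∀ x, 0 ≤ x → c ≤ (α x + x * β x) * Real.sqrt (1 + x)

/-- The functions of `τ = ½ log x` belonging to a profile, with their derivatives, and the soliton equations.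
`Sf = x α(x)` and `B = A(x)` are the squared radii of the two spheres, `Λ = x (α + xβ)` the coefficient of `dτ²`, `H` the potential;
`ℓ = Λ'/(2Λ)`, `a1 = Sf'/(2 Sf)`, `a2 = B'/(2B)`, `h1 = H'`. -/
structure Radial (α β A h : ℝ → ℝ) (Sf Λ B H ℓ a1 a2 h1 ℓ' a1' a2' h1' R : ℝ → ℝ) : Prop where
  eS : ∀ τ, Sf τ = exp (2 * τ) * α (exp (2 * τ))
  eΛ : ∀ τ, Λ τ = exp (2 * τ) * (α (exp (2 * τ)) + exp (2 * τ) * β (exp (2 * τ)))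
  eB : ∀ τ, B τ = A (exp (2 * τ))
  eH : ∀ τ, H τ = h (exp (2 * τ))
  pS : ∀ τ, 0 < Sf τ
  pΛ : ∀ τ, 0 < Λ τ
  pB : ∀ τ, 0 < B τ
  dS : ∀ τ, HasDerivAt Sf (2 * a1 τ * Sf τ) τ
  dΛ : ∀ τ, HasDerivAt Λ (2 * ℓ τ * Λ τ) τ
  dB : ∀ τ, HasDerivAt B (2 * a2 τ * B τ) τ
  dH : ∀ τ, HasDerivAt H (h1 τ) τ
  dℓ : ∀ τ, HasDerivAt ℓ (ℓ' τ) τ
  da1 : ∀ τ, HasDerivAt a1 (a1' τ) τ
  da2 : ∀ τ, HasDerivAt a2 (a2' τ) τ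
  dh1 : ∀ τ, HasDerivAt h1 (h1' τ) τ
  I1 : ∀ τ, -2 * (a1' τ + a1 τ ^ 2 - ℓ τ * a1 τ) - 2 * (a2' τ + a2 τ ^ 2 - ℓ τ * a2 τ)
    + h1' τ - ℓ τ * h1 τ = Λ τ / 2
  I2 : ∀ τ, 1 - Sf τ / Λ τ * (a1' τ + 2 * a1 τ ^ 2 - ℓ τ * a1 τ + 2 * a1 τ * a2 τ)
    + a1 τ * Sf τ / Λ τ * h1 τ = Sf τ / 2
  I3 : ∀ τ, 1 - B τ / Λ τ * (a2' τ + 2 * a2 τ ^ 2 - ℓ τ * a2 τ + 2 * a1 τ * a2 τ)
    + a2 τ * B τ / Λ τ * h1 τ = B τ / 2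
  I4 : ∀ τ, 5 / 2 - (h1' τ - ℓ τ * h1 τ + 2 * (a1 τ + a2 τ) * h1 τ) / Λ τ = R τ

/-- trace of a rank one operator -/
theorem tr_rank_one (a c : Euc n) : ∑ i, (inner ℝ a (eb i) • c) i = (inner ℝ a c : ℝ) := by
  have h : ∀ i, inner ℝ a (eb i) = a i := by
    intro i
    simp [eb, EuclideanSpace.inner_single_right]
  simp only [h, PiLp.smul_apply, smul_eq_mul]
  simp [PiLp.inner_apply, mul_comm]

/-! ## frame quantities at points with `X ≠ 0` -/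

/-- `θ(v) = ⟨X,v⟩/x` -/
def th (S : Split n) (y v : Euc n) : ℝ := inner ℝ (S.P1 y) v / xx S y
/-- `η(v) = ⟨Z,v⟩/ζ` -/
def et (S : Split n) (y v : Euc n) : ℝ := inner ℝ (S.P2 y) v / ze S y
/-- `P₁(v,w) = ⟨P₁v,w⟩/x - θ(v)θ(w)` -/
def p1 (S : Split n) (y v w : Euc n) : ℝ := inner ℝ (S.P1 v) w / xx S y - th S y v * th S y w
/-- `P₂(v,w) = ⟨P₂v,w⟩/ζ - η(v)η(w)` -/
def p2 (S : Split n) (y v w : Euc n) : ℝ := inner ℝ (S.P2 v) w / ze S y - et S y v * et S y w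
/-- `Π₁v = P₁v - θ(v)X` -/
def q1 (S : Split n) (y v : Euc n) : Euc n := S.P1 v - th S y v • S.P1 y
/-- `Π₂v = P₂v - η(v)Z` -/
def q2 (S : Split n) (y v : Euc n) : Euc n := S.P2 v - et S y v • S.P2 y

/-- The explicit Christoffel symbols, for functions `ℓ, m1, m2, a1, a2` of `τ`. -/
def Gam (S : Split n) (ℓ m1 m2 a1 a2 : ℝ → ℝ) (y v w : Euc n) : Euc n :=
  ((ℓ (ta S y) - 1) * th S y v * th S y w + (1 - m1 (ta S y)) * p1 S y v w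
      - m2 (ta S y) * p2 S y v w) • S.P1 y
    + (a1 (ta S y) - 1) • (th S y v • q1 S y w + th S y w • q1 S y v)
    + a2 (ta S y) • (th S y v • q2 S y w + th S y w • q2 S y v)
    - (et S y v • q2 S y w + et S y w • q2 S y v) - (et S y v * et S y w) • S.P2 y
    + p2 S y v w • S.P2 y

end Pool.Agent.RS
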