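import Pool.Agent.Lib.MP_35abc2_gt.G0_Geom

/-! # G1a: the splitting exists (MP_35abc2_gt) -/

open scoped ContDiff Topology
open Set Filter Real

noncomputable section

namespace Pool.Agent.RS

variable {n : ℕ}

/-- coordinate projection -/
def g1aPrj (p : ℕ → Prop) [DecidablePred p] : Euc n →L[ℝ] Euc n :=
  LinearMap.toContinuousLinearMap
    { toFun := fun v => WithLp.toLp 2 fun i : Fin n => if p i then v i else 0
      map_add' := by
        intro v w
        ext i
        simp only [PiLp.add_apply]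
        split_ifs <;> simp
      map_smul' := by
        intro c v
        ext i
        simp only [PiLp.smul_apply, RingHom.id_apply]
        split_ifs <;> simp }

theorem g1aPrj_apply (p : ℕ → Prop) [DecidablePred p] (v : Euc n) (i : Fin n) :
    g1aPrj p v i = if p i then v i else 0 := rfl

theorem g1aPrj_symm (p : ℕ → Prop) [DecidablePred p] (v w : Euc n) :
    inner ℝ (g1aPrj p v) w = inner ℝ v (g1aPrj p w) := by
  simp only [PiLp.inner_apply, g1aPrj_apply]
  refine Finset.sum_congr rfl fun i _ => ?_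
  split_ifs <;> simp

theorem g1aPrj_idem (p : ℕ → Prop) [DecidablePred p] (v : Euc n) :
    g1aPrj p (g1aPrj p v) = g1aPrj p v := by
  ext i
  simp only [g1aPrj_apply]
  split_ifs <;> simp

theorem g1aPrj_comp (p q : ℕ → Prop) [DecidablePred p] [DecidablePred q]
    (h : ∀ i, p i → q i → False) (v : Euc n) : g1aPrj p (g1aPrj q v) = 0 := by
  ext i
  simp only [g1aPrj_apply, PiLp.zero_apply]
  by_cases h1 : p i
  · by_cases h2 : q i
    · exact (h _ h1 h2).elim
    · simp [h2]
  · simp [h1]

theorem g1aPrj_trace (p : ℕ → Prop) [DecidablePred p] :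
    ∑ i : Fin n, (g1aPrj p (eb i)) i = (((Finset.range n).filter p).card : ℝ) := by
  have h : ∀ i : Fin n, (g1aPrj p (eb i)) i = if p i then (1 : ℝ) else 0 := by
    intro i
    rw [g1aPrj_apply]
    simp [eb]
  simp only [h]
  rw [Fin.sum_univ_eq_sum_range (fun i => if p i then (1 : ℝ) else 0) n, Finset.sum_boole]

/-- G1a. For `n ≥ 6` there is a splitting.
PROOF. `P1, P2, P3` are the coordinate projections onto the coordinates `i < 3`, `3 ≤ i < 6`, `6 ≤ i`; `u1 = eb 3`, `u2 = eb 4`.
`conn`: complement of the kernel of `P2`, a subspace of codimension `3 > 1`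
(Mathlib: `isConnected_compl_of_one_lt_codim` / `isPathConnected_compl_of_one_lt_codim`, or explicitly by paths). -/
theorem split_exists (hn : 6 ≤ n) : Nonempty (Split n) := by
  have e1 : (Finset.range n).filter (fun i => i < 3) = Finset.range 3 := by
    ext i
    simp only [Finset.mem_filter, Finset.mem_range]
    omega
  have e2 : (Finset.range n).filter (fun i => 3 ≤ i ∧ i < 6) = Finset.Ico 3 6 := by
    ext i
    simp only [Finset.mem_filter, Finset.mem_range, Finset.mem_Ico]
    omega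
  let u1 : Euc n := eb ⟨3, by omega⟩
  let u2 : Euc n := eb ⟨4, by omega⟩
  have hP1 : g1aPrj (fun i => 3 ≤ i ∧ i < 6) u1 = u1 := by
    ext i
    rw [g1aPrj_apply]
    by_cases h : i = ⟨3, by omega⟩
    · subst h
      simp
    · have : u1 i = 0 := by simp [u1, eb, h]
      rw [this]
      simp
  have hP2 : g1aPrj (fun i => 3 ≤ i ∧ i < 6) u2 = u2 := by
    ext i
    rw [g1aPrj_apply]
    by_cases h : i = ⟨4, by omega⟩
    · subst h
      simp
    · have : u2 i = 0 := by simp [u2, eb, h]
      rw [this]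
      simp
  have n1 : inner ℝ u1 u1 = (1 : ℝ) := by simp [u1, eb]
  have n2 : inner ℝ u2 u2 = (1 : ℝ) := by simp [u2, eb]
  have n12 : inner ℝ u1 u2 = (0 : ℝ) := by
    simp [u1, u2, eb, EuclideanSpace.inner_single_left]
  refine ⟨{
    P1 := g1aPrj fun i => i < 3
    P2 := g1aPrj fun i => 3 ≤ i ∧ i < 6
    P3 := g1aPrj fun i => 6 ≤ i
    sum := ?_
    i11 := g1aPrj_idem _
    i22 := g1aPrj_idem _
    i33 := g1aPrj_idem _
    i12 := g1aPrj_comp _ _ fun i h1 h2 => by omega
    i13 := g1aPrj_comp _ _ fun i h1 h2 => by omega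
    i21 := g1aPrj_comp _ _ fun i h1 h2 => by omega
    i23 := g1aPrj_comp _ _ fun i h1 h2 => by omega
    i31 := g1aPrj_comp _ _ fun i h1 h2 => by omega
    i32 := g1aPrj_comp _ _ fun i h1 h2 => by omega
    s1 := g1aPrj_symm _
    s2 := g1aPrj_symm _
    s3 := g1aPrj_symm _
    t1 := ?_
    t2 := ?_
    u1 := u1
    u2 := u2
    hu1 := hP1
    hu2 := hP2
    nu1 := n1
    nu2 := n2
    u12 := n12
    conn := ?_ }⟩
  · intro v
    ext i
    simp only [PiLp.add_apply, g1aPrj_apply]
    by_cases h1 : (i : ℕ) < 3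
    · have h2 : ¬ (3 ≤ (i : ℕ) ∧ (i : ℕ) < 6) := by omega
      have h3 : ¬ 6 ≤ (i : ℕ) := by omega
      simp [h1, h2, h3]
    · by_cases h2 : (i : ℕ) < 6
      · have h4 : 3 ≤ (i : ℕ) ∧ (i : ℕ) < 6 := by omega
        have h3 : ¬ 6 ≤ (i : ℕ) := by omega
        simp [h1, h4, h3]
      · have h4 : ¬ (3 ≤ (i : ℕ) ∧ (i : ℕ) < 6) := by omega
        have h3 : 6 ≤ (i : ℕ) := by omega
        simp [h1, h4, h3]
  · rw [g1aPrj_trace, e1]
    simp
  · rw [g1aPrj_trace, e2]
    simp
  · let K : Submodule ℝ (Euc n) := LinearMap.ker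
      ((g1aPrj fun i => 3 ≤ i ∧ i < 6 : Euc n →L[ℝ] Euc n) : Euc n →ₗ[ℝ] Euc n)
    have hK : {y : Euc n | (g1aPrj fun i => 3 ≤ i ∧ i < 6) y ≠ 0} = (K : Set (Euc n))ᶜ := by
      ext y
      simp [K]
    rw [hK]
    refine isConnected_compl_of_one_lt_codim ?_
    let g : (ℝ × ℝ) →ₗ[ℝ] (Euc n ⧸ K) :=
      K.mkQ.comp ((LinearMap.fst ℝ ℝ ℝ).smulRight u1 + (LinearMap.snd ℝ ℝ ℝ).smulRight u2)
    have hg : Function.Injective g := by
      rw [← LinearMap.ker_eq_bot, LinearMap.ker_eq_bot']
      rintro ⟨a, b⟩ hab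
      have h1 : a • u1 + b • u2 ∈ K := by
        have h2 : K.mkQ (a • u1 + b • u2) = 0 := hab
        rwa [Submodule.mkQ_apply, Submodule.Quotient.mk_eq_zero] at h2
      have h3 : (g1aPrj fun i => 3 ≤ i ∧ i < 6) (a • u1 + b • u2) = 0 := h1
      rw [map_add, map_smul, map_smul, hP1, hP2] at h3
      have ha : a = 0 := by
        have h4 : inner ℝ (a • u1 + b • u2) u1 = (0 : ℝ) := by rw [h3, inner_zero_left]
        rw [inner_add_left, real_inner_smul_left, real_inner_smul_left, n1,
          real_inner_comm, n12] at h4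
        linarith
      have hb : b = 0 := by
        have h4 : inner ℝ (a • u1 + b • u2) u2 = (0 : ℝ) := by rw [h3, inner_zero_left]
        rw [inner_add_left, real_inner_smul_left, real_inner_smul_left, n2, n12] at h4
        linarith
      rw [ha, hb]
      rfl
    have h1 := LinearMap.rank_le_of_injective g hg
    have h2 : Module.rank ℝ (ℝ × ℝ) = 2 := by
      rw [rank_prod']
      simp
      norm_num
    rw [h2] at h1
    exact lt_of_lt_of_le (by norm_num) h1

end Pool.Agent.RS
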