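import Pool.Agent.Lib.MP_35abc2_gt.G0_Geom

/-! # G1b: basic properties of the metric (MP_35abc2_gt) -/

open scoped ContDiff Topology
open Set Filter Real

noncomputable section

namespace Pool.Agent.RS

variable {n : ℕ}

/-- `ipL P v w = ⟨P v, w⟩`, `ip1 a v = ⟨a, v⟩` -/
theorem ipL_apply (P : Euc n →L[ℝ] Euc n) (v w : Euc n) : ipL P v w = inner ℝ (P v) w := by
  simp only [ipL, sum_apply, ContinuousLinearMap.smulRight_apply,
    ContinuousLinearMap.comp_apply, smul_apply, PiLp.proj_apply,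
    smul_eq_mul, PiLp.inner_apply, RCLike.inner_apply, conj_trivial]
  exact Finset.sum_congr rfl fun i _ => mul_comm _ _

theorem ip1_apply (a v : Euc n) : ip1 a v = inner ℝ a v := by
  simp only [ip1, sum_apply,
    smul_apply, PiLp.proj_apply,
    smul_eq_mul, PiLp.inner_apply, RCLike.inner_apply, conj_trivial]
  exact Finset.sum_congr rfl fun i _ => mul_comm _ _

theorem gMet_apply (S : Split n) (α β A : ℝ → ℝ) (y v w : Euc n) :
    gMet S α β A y v w = α (xx S y) * inner ℝ (S.P1 v) w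
      + β (xx S y) * inner ℝ (S.P1 y) v * inner ℝ (S.P1 y) w
      + A (xx S y) / ze S y * inner ℝ (S.P2 v) w
      + (1 - A (xx S y)) / ze S y ^ 2 * (inner ℝ (S.P2 y) v * inner ℝ (S.P2 y) w)
      + inner ℝ (S.P3 v) w := by
  simp only [gMet, add_apply, smul_apply, ipL_apply,
    ContinuousLinearMap.smulRight_apply, ip1_apply, smul_eq_mul]
  ring

theorem gMet_symm (S : Split n) (α β A : ℝ → ℝ) (y v w : Euc n) :
    gMet S α β A y v w = gMet S α β A y w v := by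
  rw [gMet_apply, gMet_apply, S.s1 v w, S.s2 v w, S.s3 v w, real_inner_comm (S.P1 w) v,
    real_inner_comm (S.P2 w) v, real_inner_comm (S.P3 w) v]
  ring

theorem G1b_xx_nonneg (S : Split n) (y : Euc n) : 0 ≤ xx S y := real_inner_self_nonneg

theorem G1b_ze_pos (S : Split n) {y : Euc n} (hy : S.P2 y ≠ 0) : 0 < ze S y :=
  real_inner_self_pos.mpr hy

/-- Cauchy–Schwarz for the first block -/
theorem G1b_cs (a b : Euc n) : (inner ℝ a b : ℝ) ^ 2 ≤ inner ℝ a a * inner ℝ b b := by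
  have h := real_inner_mul_inner_self_le a b
  nlinarith [h]

/-- PROOF. `α|a|² + β⟨X,a⟩² ≥ min(α, α + xβ)|a|²`-type: if `β ≥ 0` it is `≥ α|a|²`; if `β < 0`, Cauchy–Schwarz `⟨X,a⟩² ≤ x|a|²`. Similarly
`A(|b|²/ζ - ⟨Z,b⟩²/ζ²) + ⟨Z,b⟩²/ζ²` is positive for `b ≠ 0`. -/
theorem gMet_pos (S : Split n) {α β A h : ℝ → ℝ} {X₀ : ℝ} (hp : Profile α β A h X₀) (y : Euc n)
    (hy : y ∈ Om S) (v : Euc n) (hv : v ≠ 0) : 0 < gMet S α β A y v v := by
  rw [gMet_apply]
  have hz : 0 < ze S y := G1b_ze_pos S hy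
  have hx : 0 ≤ xx S y := G1b_xx_nonneg S y
  have e1 : (inner ℝ (S.P1 v) v : ℝ) = inner ℝ (S.P1 v) (S.P1 v) := by
    rw [← S.i11 v, S.s1 (S.P1 v) v, S.i11]
  have e2 : (inner ℝ (S.P2 v) v : ℝ) = inner ℝ (S.P2 v) (S.P2 v) := by
    rw [← S.i22 v, S.s2 (S.P2 v) v, S.i22]
  have e3 : (inner ℝ (S.P3 v) v : ℝ) = inner ℝ (S.P3 v) (S.P3 v) := by
    rw [← S.i33 v, S.s3 (S.P3 v) v, S.i33]
  have e4 : (inner ℝ (S.P1 y) v : ℝ) = inner ℝ (S.P1 y) (S.P1 v) := by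
    rw [← S.i11 y, S.s1 (S.P1 y) v, S.i11]
  have e5 : (inner ℝ (S.P2 y) v : ℝ) = inner ℝ (S.P2 y) (S.P2 v) := by
    rw [← S.i22 y, S.s2 (S.P2 y) v, S.i22]
  rw [e1, e2, e3, e4, e5]
  set a := S.P1 v with ha
  set b := S.P2 v with hb
  set c := S.P3 v with hc
  have hcs1 : (inner ℝ (S.P1 y) a : ℝ) ^ 2 ≤ xx S y * inner ℝ a a := G1b_cs _ _
  have hcs2 : (inner ℝ (S.P2 y) b : ℝ) ^ 2 ≤ ze S y * inner ℝ b b := G1b_cs _ _
  have ha0 : 0 ≤ (inner ℝ a a : ℝ) := real_inner_self_nonneg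
  have hb0 : 0 ≤ (inner ℝ b b : ℝ) := real_inner_self_nonneg
  have hc0 : 0 ≤ (inner ℝ c c : ℝ) := real_inner_self_nonneg
  have hα := hp.pα _ hx
  have hl := hp.pl _ hx
  have hA := hp.pA _ hx
  -- the first block
  have k1 : 0 ≤ α (xx S y) * inner ℝ a a
      + β (xx S y) * inner ℝ (S.P1 y) a * inner ℝ (S.P1 y) a
      ∧ (a ≠ 0 → 0 < α (xx S y) * inner ℝ a a
      + β (xx S y) * inner ℝ (S.P1 y) a * inner ℝ (S.P1 y) a) := by
    rcases le_or_gt 0 (β (xx S y)) with hβ | hβ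
    · have h1 : 0 ≤ β (xx S y) * inner ℝ (S.P1 y) a * inner ℝ (S.P1 y) a := by
        rw [mul_assoc]
        exact mul_nonneg hβ (mul_self_nonneg _)
      refine ⟨by positivity, fun h => ?_⟩
      have h2 : 0 < (inner ℝ a a : ℝ) := real_inner_self_pos.mpr h
      have := mul_pos hα h2
      linarith
    · have h1 : (α (xx S y) + xx S y * β (xx S y)) * inner ℝ a a
          ≤ α (xx S y) * inner ℝ a a
            + β (xx S y) * inner ℝ (S.P1 y) a * inner ℝ (S.P1 y) a := by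
        nlinarith [hcs1, hβ]
      refine ⟨le_trans (mul_nonneg hl.le ha0) h1, fun h => ?_⟩
      have h2 : 0 < (inner ℝ a a : ℝ) := real_inner_self_pos.mpr h
      exact lt_of_lt_of_le (mul_pos hl h2) h1
  -- the second block
  have k2e : A (xx S y) / ze S y * inner ℝ b b
      + (1 - A (xx S y)) / ze S y ^ 2 * (inner ℝ (S.P2 y) b * inner ℝ (S.P2 y) b)
      = A (xx S y) * ((ze S y * inner ℝ b b - (inner ℝ (S.P2 y) b : ℝ) ^ 2) / ze S y ^ 2)
        + (inner ℝ (S.P2 y) b : ℝ) ^ 2 / ze S y ^ 2 := by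
    field_simp
    ring
  have k2a : 0 ≤ (ze S y * inner ℝ b b - (inner ℝ (S.P2 y) b : ℝ) ^ 2) / ze S y ^ 2 :=
    div_nonneg (by linarith) (by positivity)
  have k2b : 0 ≤ (inner ℝ (S.P2 y) b : ℝ) ^ 2 / ze S y ^ 2 := by positivity
  have k2 : 0 ≤ A (xx S y) / ze S y * inner ℝ b b
      + (1 - A (xx S y)) / ze S y ^ 2 * (inner ℝ (S.P2 y) b * inner ℝ (S.P2 y) b)
      ∧ (b ≠ 0 → 0 < A (xx S y) / ze S y * inner ℝ b b
      + (1 - A (xx S y)) / ze S y ^ 2 * (inner ℝ (S.P2 y) b * inner ℝ (S.P2 y) b)) := by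
    rw [k2e]
    refine ⟨add_nonneg (mul_nonneg hA.le k2a) k2b, fun h => ?_⟩
    have h2 : 0 < (inner ℝ b b : ℝ) := real_inner_self_pos.mpr h
    by_cases h3 : (inner ℝ (S.P2 y) b : ℝ) = 0
    · have h4 : 0 < (ze S y * inner ℝ b b - (inner ℝ (S.P2 y) b : ℝ) ^ 2) / ze S y ^ 2 := by
        rw [h3]
        have := mul_pos hz h2
        exact div_pos (by linarith) (by positivity)
      exact add_pos_of_pos_of_nonneg (mul_pos hA h4) k2b
    · have h4 : 0 < (inner ℝ (S.P2 y) b : ℝ) ^ 2 / ze S y ^ 2 := by positivity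
      exact add_pos_of_nonneg_of_pos (mul_nonneg hA.le k2a) h4
  by_cases h1 : a = 0
  · by_cases h2 : b = 0
    · have h3 : c ≠ 0 := by
        intro h3
        apply hv
        rw [← S.sum v, ← ha, ← hb, ← hc, h1, h2, h3]
        simp
      have h4 : 0 < (inner ℝ c c : ℝ) := real_inner_self_pos.mpr h3
      linarith [k1.1, k2.1]
    · linarith [k1.1, k2.2 h2]
  · linarith [k1.2 h1, k2.1]

theorem G1b_smooth_xx (S : Split n) : ContDiff ℝ ∞ (xx S) :=
  (S.P1.contDiff).inner ℝ (S.P1.contDiff)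

theorem G1b_smooth_ze (S : Split n) : ContDiff ℝ ∞ (ze S) :=
  (S.P2.contDiff).inner ℝ (S.P2.contDiff)

theorem G1b_smooth_comp (S : Split n) {X₀ : ℝ} (hX : 0 < X₀) {a : ℝ → ℝ}
    (ha : ContDiffOn ℝ ∞ a (Ioi (-X₀))) : ContDiff ℝ ∞ (fun y => a (xx S y)) := by
  rw [← contDiffOn_univ]
  refine ha.comp (G1b_smooth_xx S).contDiffOn fun y _ => ?_
  have := G1b_xx_nonneg S y
  simp only [mem_Ioi]
  linarith

set_option maxSynthPendingDepth 3 in
theorem G1b_smooth_ip1 (P : Euc n →L[ℝ] Euc n) :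
    ContDiff ℝ ∞ (fun y => (ip1 (P y)).smulRight (ip1 (P y))) := by
  have h1 : ContDiff ℝ ∞ (fun y => ip1 (P y)) := by
    unfold ip1
    refine ContDiff.sum fun i _ => ?_
    have h2 : ContDiff ℝ ∞ (fun y => ((EuclideanSpace.proj i : Euc n →L[ℝ] ℝ).comp P) y) :=
      ((EuclideanSpace.proj i : Euc n →L[ℝ] ℝ).comp P).contDiff
    exact h2.smul contDiff_const
  exact h1.smulRight h1

set_option maxSynthPendingDepth 3 in
theorem gMet_smooth (S : Split n) {α β A h : ℝ → ℝ} {X₀ : ℝ} (hp : Profile α β A h X₀) :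
    IsOpen (Om S) ∧ ContDiffOn ℝ ∞ (gMet S α β A) (Om S) ∧ ContDiffOn ℝ ∞ (fPot S h) (Om S) := by
  have hα := (G1b_smooth_comp S hp.hX hp.sα).contDiffOn (s := Om S)
  have hβ := (G1b_smooth_comp S hp.hX hp.sβ).contDiffOn (s := Om S)
  have hA := (G1b_smooth_comp S hp.hX hp.sA).contDiffOn (s := Om S)
  have hh := (G1b_smooth_comp S hp.hX hp.sh).contDiffOn (s := Om S)
  have hz := (G1b_smooth_ze S).contDiffOn (s := Om S)
  have hz0 : ∀ y ∈ Om S, ze S y ≠ 0 := fun y hy => (G1b_ze_pos S hy).ne'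
  refine ⟨?_, ?_, ?_⟩
  · exact isOpen_ne_fun S.P2.continuous continuous_const
  · unfold gMet
    refine ContDiffOn.add (ContDiffOn.add (ContDiffOn.add (ContDiffOn.add ?_ ?_) ?_) ?_) ?_
    · exact hα.smul contDiffOn_const
    · exact hβ.smul (G1b_smooth_ip1 S.P1).contDiffOn
    · exact (hA.div hz hz0).smul contDiffOn_const
    · have h3 : ContDiffOn ℝ ∞ (fun y => (1 - A (xx S y)) / ze S y ^ 2) (Om S) :=
        (contDiffOn_const.sub hA).div (hz.pow 2) fun y hy => pow_ne_zero _ (hz0 y hy)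
      exact h3.smul (G1b_smooth_ip1 S.P2).contDiffOn
    · exact contDiffOn_const
  · unfold fPot
    refine ContDiffOn.add (ContDiffOn.add hh ?_) ?_
    · refine ContDiffOn.div_const ?_ _
      exact (hz.log hz0).pow 2
    · refine ContDiffOn.div_const ?_ _
      exact ((S.P3.contDiff).inner ℝ (S.P3.contDiff)).contDiffOn

/-- For `X ≠ 0` the metric is `Λθθ' + Sf P₁ + B P₂ + ηη' + ⟨P₃·,·⟩`. -/
theorem gMet_frame (S : Split n) {α β A h : ℝ → ℝ}
    {Sf Λ B H ℓ a1 a2 h1 ℓ' a1' a2' h1' R : ℝ → ℝ}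
    (hr : Radial α β A h Sf Λ B H ℓ a1 a2 h1 ℓ' a1' a2' h1' R) (y : Euc n) (hx : S.P1 y ≠ 0)
    (hz : S.P2 y ≠ 0) (v w : Euc n) :
    gMet S α β A y v w = Λ (ta S y) * (th S y v * th S y w) + Sf (ta S y) * p1 S y v w
      + B (ta S y) * p2 S y v w + et S y v * et S y w + inner ℝ (S.P3 v) w := by
  have hx0 : 0 < xx S y := real_inner_self_pos.mpr hx
  have hz0 : 0 < ze S y := real_inner_self_pos.mpr hz
  have hexp : exp (2 * ta S y) = xx S y := by
    rw [ta, mul_div_cancel₀ _ (by norm_num : (2 : ℝ) ≠ 0), exp_log hx0]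
  rw [gMet_apply, hr.eS, hr.eΛ, hr.eB, hexp]
  simp only [p1, p2, th, et]
  field_simp
  ring

end Pool.Agent.RS
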