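import Pool.Agent.Lib.MP_35abc2_gt.G0_Geom

/-! # G2: derivatives of the frame quantities (MP_35abc2_gt) -/

open scoped ContDiff Topology
open Set Filter Real

noncomputable section

namespace Pool.Agent.RS

variable {n : ℕ}

namespace G2aux

/-- `f` is differentiable at `y` with derivative `D` -/
def HD {F : Type*} [NormedAddCommGroup F] [NormedSpace ℝ F] (f : Euc n → F) (y : Euc n)
    (D : Euc n → F) : Prop :=
  DifferentiableAt ℝ f y ∧ ∀ u, fderiv ℝ f y u = D u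

variable {F : Type*} [NormedAddCommGroup F] [NormedSpace ℝ F]

theorem HD.of {f : Euc n → F} {y : Euc n} {L : Euc n →L[ℝ] F} {D : Euc n → F}
    (h : HasFDerivAt f L y) (hD : ∀ u, L u = D u) : HD f y D :=
  ⟨h.differentiableAt, fun u => by rw [h.fderiv, hD]⟩

theorem HD.congr {f : Euc n → F} {y : Euc n} {D D' : Euc n → F}
    (h : HD f y D) (hD : ∀ u, D u = D' u) : HD f y D' :=
  ⟨h.1, fun u => by rw [h.2, hD]⟩

theorem HD.lin (L : Euc n →L[ℝ] F) (y : Euc n) : HD (fun z => L z) y (fun u => L u) :=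
  HD.of (L.hasFDerivAt) (fun _ => rfl)

theorem HD.const (c : F) (y : Euc n) : HD (fun _ => c) y (fun _ => 0) :=
  HD.of (hasFDerivAt_const c y) (fun _ => rfl)

theorem HD.inner {f g : Euc n → Euc n} {y : Euc n} {Df Dg : Euc n → Euc n}
    (hf : HD f y Df) (hg : HD g y Dg) :
    HD (fun z => (inner ℝ (f z) (g z) : ℝ)) y
      (fun u => inner ℝ (f y) (Dg u) + inner ℝ (Df u) (g y)) := by
  refine HD.of (hf.1.hasFDerivAt.inner ℝ hg.1.hasFDerivAt) ?_
  intro u
  simp [fderivInnerCLM_apply, hf.2, hg.2]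

theorem HD.mul {f g : Euc n → ℝ} {y : Euc n} {Df Dg : Euc n → ℝ}
    (hf : HD f y Df) (hg : HD g y Dg) :
    HD (fun z => f z * g z) y (fun u => f y * Dg u + g y * Df u) := by
  refine HD.of (hf.1.hasFDerivAt.fun_mul hg.1.hasFDerivAt) ?_
  intro u
  simp [hf.2, hg.2]

theorem HD.smul {f : Euc n → ℝ} {g : Euc n → F} {y : Euc n} {Df : Euc n → ℝ} {Dg : Euc n → F}
    (hf : HD f y Df) (hg : HD g y Dg) :
    HD (fun z => f z • g z) y (fun u => f y • Dg u + Df u • g y) := by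
  refine HD.of (hf.1.hasFDerivAt.fun_smul hg.1.hasFDerivAt) ?_
  intro u
  simp [hf.2, hg.2]

theorem HD.sub {f g : Euc n → F} {y : Euc n} {Df Dg : Euc n → F}
    (hf : HD f y Df) (hg : HD g y Dg) :
    HD (fun z => f z - g z) y (fun u => Df u - Dg u) := by
  refine HD.of (hf.1.hasFDerivAt.fun_sub hg.1.hasFDerivAt) ?_
  intro u
  simp [hf.2, hg.2]

theorem HD.inv {f : Euc n → ℝ} {y : Euc n} {Df : Euc n → ℝ}
    (hf : HD f y Df) (h0 : f y ≠ 0) :
    HD (fun z => (f z)⁻¹) y (fun u => -(Df u) / f y ^ 2) := by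
  refine HD.of ((hasDerivAt_inv h0).comp_hasFDerivAt y hf.1.hasFDerivAt) ?_
  intro u
  simp [hf.2]
  field_simp

theorem HD.div {f g : Euc n → ℝ} {y : Euc n} {Df Dg : Euc n → ℝ}
    (hf : HD f y Df) (hg : HD g y Dg) (h0 : g y ≠ 0) :
    HD (fun z => f z / g z) y (fun u => Df u / g y - f y * Dg u / g y ^ 2) := by
  have h := hf.mul (hg.inv h0)
  have h2 : (fun z => f z / g z) = (fun z => f z * (g z)⁻¹) := by
    funext z
    rw [div_eq_mul_inv]
  rw [h2]
  refine h.congr ?_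
  intro u
  field_simp
  ring

theorem HD.log {f : Euc n → ℝ} {y : Euc n} {Df : Euc n → ℝ}
    (hf : HD f y Df) (h0 : f y ≠ 0) :
    HD (fun z => Real.log (f z)) y (fun u => Df u / f y) := by
  refine HD.of (hf.1.hasFDerivAt.log h0) ?_
  intro u
  simp [hf.2]
  field_simp

/-- `|P y|²` -/
def X2 (P : Euc n →L[ℝ] Euc n) (y : Euc n) : ℝ := inner ℝ (P y) (P y)

/-- `⟨P y, v⟩ / |P y|²` -/
def TH (P : Euc n →L[ℝ] Euc n) (y v : Euc n) : ℝ := inner ℝ (P y) v / X2 P y

/-- `⟨P v, w⟩/|P y|² - TH TH` -/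
def PP (P : Euc n →L[ℝ] Euc n) (y v w : Euc n) : ℝ :=
  inner ℝ (P v) w / X2 P y - TH P y v * TH P y w

/-- `P v - TH v • P y` -/
def QQ (P : Euc n →L[ℝ] Euc n) (y v : Euc n) : Euc n := P v - TH P y v • P y

variable {P : Euc n →L[ℝ] Euc n} (hi : ∀ v, P (P v) = P v)
  (hs : ∀ v w, (inner ℝ (P v) w : ℝ) = inner ℝ v (P w)) {y : Euc n} (hy : P y ≠ 0)

include hy in
theorem X2_ne : X2 P y ≠ 0 := by
  unfold X2
  rw [ne_eq, inner_self_eq_zero]
  exact hy

include hi hs in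
theorem inner_PP (a b : Euc n) : (inner ℝ (P a) (P b) : ℝ) = inner ℝ (P a) b := by
  rw [hs a (P b), hi b, ← hs a b]

include hi hs in
theorem d_X2 : HD (fun z => X2 P z) y (fun u => 2 * inner ℝ (P y) u) := by
  refine ((HD.lin P y).inner (HD.lin P y)).congr ?_
  intro u
  have h1 : (inner ℝ (P y) (P u) : ℝ) = inner ℝ (P y) u := inner_PP hi hs y u
  have h2 : (inner ℝ (P u) (P y) : ℝ) = inner ℝ (P y) u := by
    rw [real_inner_comm]
    exact h1
  rw [h1, h2]
  ring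

include hi hs hy in
theorem d_TH (v : Euc n) :
    HD (fun z => TH P z v) y (fun u => PP P y u v - TH P y u * TH P y v) := by
  have h1 : HD (fun z => (inner ℝ (P z) v : ℝ)) y (fun u => inner ℝ (P u) v) :=
    ((HD.lin P y).inner (HD.const v y)).congr (fun u => by simp)
  refine (h1.div (d_X2 hi hs) (X2_ne hy)).congr ?_
  intro u
  have h0 := X2_ne hy
  unfold PP TH
  field_simp
  ring

include hi hs hy in
theorem d_LX : HD (fun z => Real.log (X2 P z) / 2) y (fun u => TH P y u) := by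
  have h := ((d_X2 hi hs (y := y)).log (X2_ne hy)).div (HD.const (2 : ℝ) y) (by norm_num)
  refine h.congr ?_
  intro u
  have h0 := X2_ne hy
  unfold TH
  field_simp
  ring

include hi hs hy in
theorem d_PP (v w : Euc n) :
    HD (fun z => PP P z v w) y
      (fun u => -2 * TH P y u * PP P y v w - PP P y u v * TH P y w - PP P y u w * TH P y v) := by
  have h1 : HD (fun z => (inner ℝ (P v) w : ℝ) / X2 P z) y
      (fun u => -(2 * TH P y u) * (inner ℝ (P v) w / X2 P y)) := by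
    refine ((HD.const (inner ℝ (P v) w : ℝ) y).div (d_X2 hi hs (y := y)) (X2_ne hy)).congr ?_
    intro u
    have h0 := X2_ne hy
    unfold TH
    field_simp
    ring
  refine (h1.sub ((d_TH hi hs hy v).mul (d_TH hi hs hy w))).congr ?_
  intro u
  have e : (inner ℝ (P v) w : ℝ) / X2 P y = PP P y v w + TH P y v * TH P y w := by
    unfold PP
    ring
  rw [e]
  ring

include hi hs hy in
theorem d_QQ (v : Euc n) :
    HD (fun z => QQ P z v) y (fun u => -(PP P y u v) • P y - TH P y v • QQ P y u) := by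
  refine ((HD.const (P v) y).sub ((d_TH hi hs hy v).smul (HD.lin P y))).congr ?_
  intro u
  unfold QQ
  module

end G2aux

open G2aux

/-- G2a. Derivatives of the frame quantities at points with `X ≠ 0`, `Z ≠ 0`:
`D_uθ(v) = P₁(u,v) - θ(u)θ(v)`, `D_uη(v) = P₂(u,v) - η(u)η(v)`, `D_u τ = θ(u)`,
`D_u P₁(v,w) = -2θ(u)P₁(v,w) - P₁(u,v)θ(w) - P₁(u,w)θ(v)` (same for `P₂, η`),
`D_u(Π₁v) = -P₁(u,v)X - θ(v)Π₁u`, `D_u(Π₂v) = -P₂(u,v)Z - η(v)Π₂u`, `D_u X = Π₁u + θ(u)X`, `D_u Z = Π₂u + η(u)Z`.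
Stated as: differentiable, with the given value of the derivative. -/
theorem d_th (S : Split n) (y : Euc n) (hx : S.P1 y ≠ 0) (v : Euc n) :
    DifferentiableAt ℝ (fun z => th S z v) y ∧
      ∀ u, fderiv ℝ (fun z => th S z v) y u = p1 S y u v - th S y u * th S y v :=
  d_TH S.i11 S.s1 hx v

theorem d_et (S : Split n) (y : Euc n) (hz : S.P2 y ≠ 0) (v : Euc n) :
    DifferentiableAt ℝ (fun z => et S z v) y ∧
      ∀ u, fderiv ℝ (fun z => et S z v) y u = p2 S y u v - et S y u * et S y v :=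
  d_TH S.i22 S.s2 hz v

theorem d_ta (S : Split n) (y : Euc n) (hx : S.P1 y ≠ 0) :
    DifferentiableAt ℝ (fun z => ta S z) y ∧ ∀ u, fderiv ℝ (fun z => ta S z) y u = th S y u :=
  d_LX S.i11 S.s1 hx

theorem d_p1 (S : Split n) (y : Euc n) (hx : S.P1 y ≠ 0) (v w : Euc n) :
    DifferentiableAt ℝ (fun z => p1 S z v w) y ∧
      ∀ u, fderiv ℝ (fun z => p1 S z v w) y u
        = -2 * th S y u * p1 S y v w - p1 S y u v * th S y w - p1 S y u w * th S y v :=
  d_PP S.i11 S.s1 hx v w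

theorem d_p2 (S : Split n) (y : Euc n) (hz : S.P2 y ≠ 0) (v w : Euc n) :
    DifferentiableAt ℝ (fun z => p2 S z v w) y ∧
      ∀ u, fderiv ℝ (fun z => p2 S z v w) y u
        = -2 * et S y u * p2 S y v w - p2 S y u v * et S y w - p2 S y u w * et S y v :=
  d_PP S.i22 S.s2 hz v w

theorem d_q1 (S : Split n) (y : Euc n) (hx : S.P1 y ≠ 0) (v : Euc n) :
    DifferentiableAt ℝ (fun z => q1 S z v) y ∧
      ∀ u, fderiv ℝ (fun z => q1 S z v) y u = -(p1 S y u v) • S.P1 y - th S y v • q1 S y u :=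
  d_QQ S.i11 S.s1 hx v

theorem d_q2 (S : Split n) (y : Euc n) (hz : S.P2 y ≠ 0) (v : Euc n) :
    DifferentiableAt ℝ (fun z => q2 S z v) y ∧
      ∀ u, fderiv ℝ (fun z => q2 S z v) y u = -(p2 S y u v) • S.P2 y - et S y v • q2 S y u :=
  d_QQ S.i22 S.s2 hz v

end Pool.Agent.RS
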