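import Pool.Agent.Lib.MP_35abc2_gt.G1b_Basic
import Pool.Agent.Lib.MP_35abc2_gt.G2_Frame

/-! # G2b: the Christoffel symbols at X ≠ 0 (MP_35abc2_gt) -/

open scoped ContDiff Topology
open Set Filter Real

noncomputable section

namespace Pool.Agent.RS

variable {n : ℕ}

theorem G2b_xx_pos (S : Split n) (y : Euc n) (hx : S.P1 y ≠ 0) : 0 < xx S y := by
  unfold xx
  exact real_inner_self_pos.2 hx

theorem G2b_ze_pos (S : Split n) (y : Euc n) (hz : S.P2 y ≠ 0) : 0 < ze S y := by
  unfold ze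
  exact real_inner_self_pos.2 hz

theorem G2b_p1_symm (S : Split n) (y v w : Euc n) : p1 S y v w = p1 S y w v := by
  unfold p1
  rw [S.s1 v w, real_inner_comm, mul_comm (th S y v)]

theorem G2b_p2_symm (S : Split n) (y v w : Euc n) : p2 S y v w = p2 S y w v := by
  unfold p2
  rw [S.s2 v w, real_inner_comm, mul_comm (et S y v)]

/-! ### linearity -/

theorem G2b_th_add (S : Split n) (y v w : Euc n) : th S y (v + w) = th S y v + th S y w := by
  simp only [th, inner_add_right, add_div]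

theorem G2b_th_sub (S : Split n) (y v w : Euc n) : th S y (v - w) = th S y v - th S y w := by
  simp only [th, inner_sub_right, sub_div]

theorem G2b_th_smul (S : Split n) (y v : Euc n) (c : ℝ) : th S y (c • v) = c * th S y v := by
  simp only [th, inner_smul_right, mul_div_assoc]

theorem G2b_et_add (S : Split n) (y v w : Euc n) : et S y (v + w) = et S y v + et S y w := by
  simp only [et, inner_add_right, add_div]

theorem G2b_et_sub (S : Split n) (y v w : Euc n) : et S y (v - w) = et S y v - et S y w := by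
  simp only [et, inner_sub_right, sub_div]

theorem G2b_et_smul (S : Split n) (y v : Euc n) (c : ℝ) : et S y (c • v) = c * et S y v := by
  simp only [et, inner_smul_right, mul_div_assoc]

theorem G2b_p1_add (S : Split n) (y v w u : Euc n) :
    p1 S y (v + w) u = p1 S y v u + p1 S y w u := by
  simp only [p1, map_add, inner_add_left, G2b_th_add]
  ring

theorem G2b_p1_sub (S : Split n) (y v w u : Euc n) :
    p1 S y (v - w) u = p1 S y v u - p1 S y w u := by
  simp only [p1, map_sub, inner_sub_left, G2b_th_sub]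
  ring

theorem G2b_p1_smul (S : Split n) (y v u : Euc n) (c : ℝ) :
    p1 S y (c • v) u = c * p1 S y v u := by
  simp only [p1, map_smul, inner_smul_left, G2b_th_smul]
  simp only [conj_trivial]
  ring

theorem G2b_p2_add (S : Split n) (y v w u : Euc n) :
    p2 S y (v + w) u = p2 S y v u + p2 S y w u := by
  simp only [p2, map_add, inner_add_left, G2b_et_add]
  ring

theorem G2b_p2_sub (S : Split n) (y v w u : Euc n) :
    p2 S y (v - w) u = p2 S y v u - p2 S y w u := by
  simp only [p2, map_sub, inner_sub_left, G2b_et_sub]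
  ring

theorem G2b_p2_smul (S : Split n) (y v u : Euc n) (c : ℝ) :
    p2 S y (c • v) u = c * p2 S y v u := by
  simp only [p2, map_smul, inner_smul_left, G2b_et_smul]
  simp only [conj_trivial]
  ring

/-! ### values on the frame vectors -/

theorem G2b_th_P1 (S : Split n) (y w : Euc n) : th S y (S.P1 w) = th S y w := by
  simp only [th, ← S.s1 (S.P1 y) w, S.i11]

theorem G2b_th_P2 (S : Split n) (y w : Euc n) : th S y (S.P2 w) = 0 := by
  simp only [th, S.s1 y, S.i12, inner_zero_right, zero_div]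

theorem G2b_et_P2 (S : Split n) (y w : Euc n) : et S y (S.P2 w) = et S y w := by
  simp only [et, ← S.s2 (S.P2 y) w, S.i22]

theorem G2b_et_P1 (S : Split n) (y w : Euc n) : et S y (S.P1 w) = 0 := by
  simp only [et, S.s2 y, S.i21, inner_zero_right, zero_div]

theorem G2b_th_self (S : Split n) (y : Euc n) (hx : S.P1 y ≠ 0) : th S y y = 1 := by
  have h := (G2b_xx_pos S y hx).ne'
  have h2 : inner ℝ (S.P1 y) y = xx S y := by
    unfold xx
    rw [← S.s1 (S.P1 y) y, S.i11]
  rw [th, h2, div_self h]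

theorem G2b_et_self (S : Split n) (y : Euc n) (hz : S.P2 y ≠ 0) : et S y y = 1 := by
  have h := (G2b_ze_pos S y hz).ne'
  have h2 : inner ℝ (S.P2 y) y = ze S y := by
    unfold ze
    rw [← S.s2 (S.P2 y) y, S.i22]
  rw [et, h2, div_self h]

theorem G2b_p1_P1 (S : Split n) (y w u : Euc n) : p1 S y (S.P1 w) u = p1 S y w u := by
  simp only [p1, S.i11, G2b_th_P1]

theorem G2b_p1_P2 (S : Split n) (y w u : Euc n) : p1 S y (S.P2 w) u = 0 := by
  simp only [p1, S.i12, G2b_th_P2, inner_zero_left, zero_div, zero_mul, sub_zero]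

theorem G2b_p2_P2 (S : Split n) (y w u : Euc n) : p2 S y (S.P2 w) u = p2 S y w u := by
  simp only [p2, S.i22, G2b_et_P2]

theorem G2b_p2_P1 (S : Split n) (y w u : Euc n) : p2 S y (S.P1 w) u = 0 := by
  simp only [p2, S.i21, G2b_et_P1, inner_zero_left, zero_div, zero_mul, sub_zero]

theorem G2b_p1_self (S : Split n) (y u : Euc n) (hx : S.P1 y ≠ 0) : p1 S y y u = 0 := by
  simp only [p1, G2b_th_self S y hx, one_mul]
  simp only [th, sub_self]

theorem G2b_p2_self (S : Split n) (y u : Euc n) (hz : S.P2 y ≠ 0) : p2 S y y u = 0 := by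
  simp only [p2, G2b_et_self S y hz, one_mul]
  simp only [et, sub_self]

theorem G2b_inv {E : Type*} [NormedAddCommGroup E] [NormedSpace ℝ E] [FiniteDimensional ℝ E]
    (B : Form2 E) (hpd : ∀ v, v ≠ 0 → 0 < B v v) (x : E) : B.inverse (B x) = x := by
  obtain ⟨e, he⟩ := chr_equiv B hpd
  rw [← he, ContinuousLinearMap.inverse_equiv]
  simp

/-- derivative of the metric coefficients -/
theorem G2b_dG (S : Split n) {α β A h : ℝ → ℝ} {X₀ : ℝ} (hp : Profile α β A h X₀)
    {Sf Λ B H ℓ a1 a2 h1 ℓ' a1' a2' h1' R : ℝ → ℝ}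
    (hr : Radial α β A h Sf Λ B H ℓ a1 a2 h1 ℓ' a1' a2' h1' R) (y : Euc n) (hx : S.P1 y ≠ 0)
    (hz : S.P2 y ≠ 0) (v w u : Euc n) :
    fderiv ℝ (gMet S α β A) y v w u
      = 2 * ℓ (ta S y) * Λ (ta S y) * (th S y v * th S y w * th S y u)
        + Λ (ta S y) * ((p1 S y v w - th S y v * th S y w) * th S y u
          + th S y w * (p1 S y v u - th S y v * th S y u))
        + 2 * a1 (ta S y) * Sf (ta S y) * (th S y v * p1 S y w u)
        + Sf (ta S y) * (-2 * th S y v * p1 S y w u - p1 S y v w * th S y u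
          - p1 S y v u * th S y w)
        + 2 * a2 (ta S y) * B (ta S y) * (th S y v * p2 S y w u)
        + B (ta S y) * (-2 * et S y v * p2 S y w u - p2 S y v w * et S y u
          - p2 S y v u * et S y w)
        + ((p2 S y v w - et S y v * et S y w) * et S y u
          + et S y w * (p2 S y v u - et S y v * et S y u)) := by
  obtain ⟨hO, hG, -⟩ := gMet_smooth S hp
  have hy : y ∈ Om S := hz
  have hGd : DifferentiableAt ℝ (gMet S α β A) y :=
    ((hG.contDiffAt (hO.mem_nhds hy)).differentiableAt (by simp))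
  have h1 : fderiv ℝ (fun z => gMet S α β A z w u) y v = fderiv ℝ (gMet S α β A) y v w u := by
    have h2 := (hGd.hasFDerivAt.clm_apply (hasFDerivAt_const w y)).clm_apply
      (hasFDerivAt_const u y)
    rw [h2.fderiv]
    simp
  have hnx : ∀ᶠ z in 𝓝 y, S.P1 z ≠ 0 := S.P1.continuous.continuousAt.eventually_ne hx
  have hnz : ∀ᶠ z in 𝓝 y, S.P2 z ≠ 0 := S.P2.continuous.continuousAt.eventually_ne hz
  have h3 : (fun z => gMet S α β A z w u) =ᶠ[𝓝 y] fun z => Λ (ta S z) * (th S z w * th S z u)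
      + Sf (ta S z) * p1 S z w u + B (ta S z) * p2 S z w u + et S z w * et S z u
      + inner ℝ (S.P3 w) u := by
    filter_upwards [hnx, hnz] with z h4 h5
    exact gMet_frame S hr z h4 h5 w u
  obtain ⟨dta, eta⟩ := d_ta S y hx
  obtain ⟨dthw, ethw⟩ := d_th S y hx w
  obtain ⟨dthu, ethu⟩ := d_th S y hx u
  obtain ⟨detw, eetw⟩ := d_et S y hz w
  obtain ⟨detu, eetu⟩ := d_et S y hz u
  obtain ⟨dp1, ep1⟩ := d_p1 S y hx w u
  obtain ⟨dp2, ep2⟩ := d_p2 S y hz w u
  have hΛ := (hr.dΛ (ta S y)).comp_hasFDerivAt y dta.hasFDerivAt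
  have hS := (hr.dS (ta S y)).comp_hasFDerivAt y dta.hasFDerivAt
  have hB := (hr.dB (ta S y)).comp_hasFDerivAt y dta.hasFDerivAt
  have h6 := ((((hΛ.mul (dthw.hasFDerivAt.mul dthu.hasFDerivAt)).add
    (hS.mul dp1.hasFDerivAt)).add (hB.mul dp2.hasFDerivAt)).add
    (detw.hasFDerivAt.mul detu.hasFDerivAt)).add_const (inner ℝ (S.P3 w) u)
  have h7 := h6.fderiv
  rw [← h1, h3.fderiv_eq]
  have h8 := congrArg (fun l => l v) h7
  simp only [ContinuousLinearMap.add_apply, ContinuousLinearMap.smul_apply, smul_eq_mul,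
    Function.comp_apply, eta, ethw, ethu, eetw, eetu, ep1, ep2, Pi.add_apply, Pi.mul_apply] at h8
  refine Eq.trans ?_ (h8.trans ?_)
  · rfl
  · ring

/-- G2b. For `X ≠ 0`, `Z ≠ 0` the Christoffel symbols are `Gam`.

PROOF. `christoffel_spec`/`chr_apply_inverse`: it suffices that `gMet y (Gam y v w) u = christoffelLower (gMet) y v w u` for all `u`
(the form is positive definite, hence injective; then `christoffel = (G y).inverse (G y (Gam))= Gam`).  By `chr_lower_apply` the
right side is `½ (D_v G(w,u) + D_w G(v,u) - D_u G(v,w))`, and by `gMet_frame` (valid in a neighbourhood) and G2a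
`D_v G(w,u) = 2ℓΛθvθwθu + Λ(p1(v,w) - θvθw)θu + Λθw(p1(v,u) - θvθu) + 2a1 Sf θv p1(w,u) + Sf(-2θv p1(w,u) - p1(v,w)θu - p1(v,u)θw)
 + 2a2 B θv p2(w,u) + B(-2ηv p2(w,u) - p2(v,w)ηu - p2(v,u)ηw) + (p2(v,w) - ηvηw)ηu + ηw(p2(v,u) - ηvηu)`.
For the left side use `θ(X) = 1`, `θ(Π₁v) = 0`, `p1(X,·) = 0`, `p1(Π₁v,u) = p1(v,u)`, everything from the other block vanishes, similarly for `Z`.
Then `ring` after `field_simp` (`m1 = a1 Sf/Λ`, `m2 = a2 B/Λ`). (Formula checked numerically.) -/
theorem christoffel_eq_Gam (S : Split n) {α β A h : ℝ → ℝ} {X₀ : ℝ} (hp : Profile α β A h X₀)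
    {Sf Λ B H ℓ a1 a2 h1 ℓ' a1' a2' h1' R : ℝ → ℝ}
    (hr : Radial α β A h Sf Λ B H ℓ a1 a2 h1 ℓ' a1' a2' h1' R) (y : Euc n) (hx : S.P1 y ≠ 0)
    (hz : S.P2 y ≠ 0) (v w : Euc n) :
    christoffel (gMet S α β A) y v w
      = Gam S ℓ (fun t => a1 t * Sf t / Λ t) (fun t => a2 t * B t / Λ t) a1 a2 y v w := by
  have hpd : ∀ v, v ≠ 0 → 0 < gMet S α β A y v v := gMet_pos S hp y hz
  have key : gMet S α β A y
      (Gam S ℓ (fun t => a1 t * Sf t / Λ t) (fun t => a2 t * B t / Λ t) a1 a2 y v w)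
      = christoffelLower (gMet S α β A) y v w := by
    ext u
    rw [chr_lower_apply, G2b_dG S hp hr y hx hz v w u, G2b_dG S hp hr y hx hz w v u,
      G2b_dG S hp hr y hx hz u v w, gMet_frame S hr y hx hz]
    have e1 : th S y (Gam S ℓ (fun t => a1 t * Sf t / Λ t) (fun t => a2 t * B t / Λ t) a1 a2 y v w)
        = (ℓ (ta S y) - 1) * th S y v * th S y w
          + (1 - a1 (ta S y) * Sf (ta S y) / Λ (ta S y)) * p1 S y v w
          - a2 (ta S y) * B (ta S y) / Λ (ta S y) * p2 S y v w := by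
      simp only [Gam, q1, q2, G2b_th_add, G2b_th_sub, G2b_th_smul, G2b_th_P1, G2b_th_P2,
        G2b_th_self S y hx]
      ring
    have e2 : et S y (Gam S ℓ (fun t => a1 t * Sf t / Λ t) (fun t => a2 t * B t / Λ t) a1 a2 y v w)
        = p2 S y v w - et S y v * et S y w := by
      simp only [Gam, q1, q2, G2b_et_add, G2b_et_sub, G2b_et_smul, G2b_et_P1, G2b_et_P2,
        G2b_et_self S y hz]
      ring
    have e3 : p1 S y (Gam S ℓ (fun t => a1 t * Sf t / Λ t) (fun t => a2 t * B t / Λ t) a1 a2 y v w)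
        u = (a1 (ta S y) - 1) * (th S y v * p1 S y w u + th S y w * p1 S y v u) := by
      simp only [Gam, q1, q2, G2b_p1_add, G2b_p1_sub, G2b_p1_smul, G2b_p1_P1, G2b_p1_P2,
        G2b_p1_self S y u hx]
      ring
    have e4 : p2 S y (Gam S ℓ (fun t => a1 t * Sf t / Λ t) (fun t => a2 t * B t / Λ t) a1 a2 y v w)
        u = a2 (ta S y) * (th S y v * p2 S y w u + th S y w * p2 S y v u)
          - (et S y v * p2 S y w u + et S y w * p2 S y v u) := by
      simp only [Gam, q1, q2, G2b_p2_add, G2b_p2_sub, G2b_p2_smul, G2b_p2_P1, G2b_p2_P2,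
        G2b_p2_self S y u hz]
      ring
    have e5 : S.P3 (Gam S ℓ (fun t => a1 t * Sf t / Λ t) (fun t => a2 t * B t / Λ t) a1 a2 y v w)
        = 0 := by
      simp only [Gam, q1, q2, map_add, map_sub, map_smul, S.i31, S.i32, smul_zero, add_zero,
        sub_zero]
    rw [e1, e2, e3, e4, e5, inner_zero_left]
    have hΛ : Λ (ta S y) ≠ 0 := (hr.pΛ _).ne'
    rw [G2b_p1_symm S y w v, G2b_p1_symm S y u v, G2b_p1_symm S y u w, G2b_p2_symm S y w v,
      G2b_p2_symm S y u v, G2b_p2_symm S y u w]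
    field_simp
    ring
  unfold christoffel
  rw [← key, G2b_inv _ hpd]

end Pool.Agent.RS
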