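import Pool.Agent.Lib.MP_35abc2_gt.G2_Frame

/-! # G3a: the divergence of the Christoffel symbols (MP_35abc2_gt) -/

open scoped ContDiff Topology
open Set Filter Real

noncomputable section

namespace Pool.Agent.RS

variable {n : ℕ}

/-- the divergence of a vector field -/
def G3a_div (F : Euc n → Euc n) (y : Euc n) : ℝ := ∑ i, (fderiv ℝ F y (eb i)) i

theorem G3a_fun (f : Euc n →L[ℝ] ℝ) (a : Euc n) : ∑ i, f (eb i) * a i = f a := by
  have h : a = ∑ i, a i • eb i := by
    ext j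
    simp only [eb, WithLp.ofLp_sum, Finset.sum_apply, PiLp.smul_apply, smul_eq_mul,
      PiLp.single_apply]
    simp
  conv_rhs => rw [h]
  rw [map_sum]
  refine Finset.sum_congr rfl fun i _ => ?_
  rw [map_smul, smul_eq_mul, mul_comm]

theorem G3a_div_add {F G : Euc n → Euc n} {y : Euc n} (hF : DifferentiableAt ℝ F y)
    (hG : DifferentiableAt ℝ G y) :
    G3a_div (fun z => F z + G z) y = G3a_div F y + G3a_div G y := by
  unfold G3a_div
  rw [← Finset.sum_add_distrib]
  refine Finset.sum_congr rfl fun i _ => ?_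
  rw [fderiv_fun_add hF hG]
  simp

theorem G3a_div_sub {F G : Euc n → Euc n} {y : Euc n} (hF : DifferentiableAt ℝ F y)
    (hG : DifferentiableAt ℝ G y) :
    G3a_div (fun z => F z - G z) y = G3a_div F y - G3a_div G y := by
  unfold G3a_div
  rw [← Finset.sum_sub_distrib]
  refine Finset.sum_congr rfl fun i _ => ?_
  rw [fderiv_fun_sub hF hG]
  simp

theorem G3a_div_smul {c : Euc n → ℝ} {F : Euc n → Euc n} {y : Euc n}
    (hc : DifferentiableAt ℝ c y) (hF : DifferentiableAt ℝ F y) :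
    G3a_div (fun z => c z • F z) y = c y * G3a_div F y + fderiv ℝ c y (F y) := by
  unfold G3a_div
  rw [fderiv_fun_smul hc hF, ← G3a_fun (fderiv ℝ c y) (F y), Finset.mul_sum,
    ← Finset.sum_add_distrib]
  refine Finset.sum_congr rfl fun i _ => ?_
  simp [mul_comm]

/-! ### relations of the frame -/

section Rel

variable (S : Split n) (y : Euc n)

theorem G3a_in1 (v w : Euc n) : (inner ℝ (S.P1 v) (S.P2 w) : ℝ) = 0 := by
  rw [S.s1, S.i12, inner_zero_right]

theorem G3a_in2 (v w : Euc n) : (inner ℝ (S.P2 v) (S.P1 w) : ℝ) = 0 := by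
  rw [S.s2, S.i21, inner_zero_right]

theorem G3a_in11 (v w : Euc n) : (inner ℝ (S.P1 v) (S.P1 w) : ℝ) = inner ℝ (S.P1 v) w := by
  rw [← S.s1, S.i11]

theorem G3a_in22 (v w : Euc n) : (inner ℝ (S.P2 v) (S.P2 w) : ℝ) = inner ℝ (S.P2 v) w := by
  rw [← S.s2, S.i22]

variable {y}

theorem G3a_xx (hx : S.P1 y ≠ 0) : xx S y ≠ 0 := (real_inner_self_pos.mpr hx).ne'
theorem G3a_ze (hz : S.P2 y ≠ 0) : ze S y ≠ 0 := (real_inner_self_pos.mpr hz).ne'

theorem G3a_thX (hx : S.P1 y ≠ 0) : th S y (S.P1 y) = 1 := div_self (G3a_xx S hx)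
theorem G3a_etZ (hz : S.P2 y ≠ 0) : et S y (S.P2 y) = 1 := div_self (G3a_ze S hz)

variable (y)
theorem G3a_thP2 (v : Euc n) : th S y (S.P2 v) = 0 := by rw [th, G3a_in1, zero_div]
theorem G3a_etP1 (v : Euc n) : et S y (S.P1 v) = 0 := by rw [et, G3a_in2, zero_div]
theorem G3a_thP1 (v : Euc n) : th S y (S.P1 v) = th S y v := by rw [th, th, G3a_in11]
theorem G3a_etP2 (v : Euc n) : et S y (S.P2 v) = et S y v := by rw [et, et, G3a_in22]

theorem G3a_th_sub (v w : Euc n) : th S y (v - w) = th S y v - th S y w := by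
  simp only [th, inner_sub_right, sub_div]
theorem G3a_et_sub (v w : Euc n) : et S y (v - w) = et S y v - et S y w := by
  simp only [et, inner_sub_right, sub_div]
theorem G3a_th_add (v w : Euc n) : th S y (v + w) = th S y v + th S y w := by
  simp only [th, inner_add_right, add_div]
theorem G3a_th_smul (a : ℝ) (v : Euc n) : th S y (a • v) = a * th S y v := by
  simp only [th, inner_smul_right, mul_div_assoc]
theorem G3a_et_smul (a : ℝ) (v : Euc n) : et S y (a • v) = a * et S y v := by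
  simp only [et, inner_smul_right, mul_div_assoc]
variable {y}

theorem G3a_thq1 (hx : S.P1 y ≠ 0) (w : Euc n) : th S y (q1 S y w) = 0 := by
  rw [q1, G3a_th_sub, G3a_th_smul, G3a_thX S hx, G3a_thP1, mul_one, sub_self]
theorem G3a_etq2 (hz : S.P2 y ≠ 0) (w : Euc n) : et S y (q2 S y w) = 0 := by
  rw [q2, G3a_et_sub, G3a_et_smul, G3a_etZ S hz, G3a_etP2, mul_one, sub_self]
theorem G3a_thq2 (w : Euc n) : th S y (q2 S y w) = 0 := by
  rw [q2, G3a_th_sub, G3a_th_smul, G3a_thP2, G3a_thP2, mul_zero, sub_self]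

theorem G3a_p1X (hx : S.P1 y ≠ 0) (v : Euc n) : p1 S y (S.P1 y) v = 0 := by
  rw [p1, G3a_thX S hx, S.i11, one_mul, th, sub_self]
theorem G3a_p2Z (hz : S.P2 y ≠ 0) (v : Euc n) : p2 S y (S.P2 y) v = 0 := by
  rw [p2, G3a_etZ S hz, S.i22, one_mul, et, sub_self]
theorem G3a_p2X (v : Euc n) : p2 S y (S.P1 y) v = 0 := by
  rw [p2, G3a_etP1, S.i21, inner_zero_left, zero_div, zero_mul, sub_self]
theorem G3a_p1q1 (hx : S.P1 y ≠ 0) (w v : Euc n) : p1 S y (q1 S y w) v = p1 S y v w := by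
  have e1 : S.P1 (q1 S y w) = S.P1 w - th S y w • S.P1 y := by
    rw [q1, map_sub, map_smul, S.i11, S.i11]
  rw [p1, p1, G3a_thq1 S hx, e1, inner_sub_left, real_inner_smul_left, S.s1 v w,
    real_inner_comm (S.P1 w) v]
  have e2 : (inner ℝ (S.P1 y) v : ℝ) = th S y v * xx S y := by
    rw [th, div_mul_cancel₀ _ (G3a_xx S hx)]
  rw [e2]
  field_simp [G3a_xx S hx]
  ring
theorem G3a_p1q2 (w v : Euc n) : p1 S y (q2 S y w) v = 0 := by
  have e1 : S.P1 (q2 S y w) = 0 := by
    rw [q2, map_sub, map_smul, S.i12, S.i12, smul_zero, sub_zero]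
  rw [p1, G3a_thq2 S, e1, inner_zero_left, zero_div, zero_mul, sub_self]
theorem G3a_p2q2 (hz : S.P2 y ≠ 0) (w v : Euc n) : p2 S y (q2 S y w) v = p2 S y v w := by
  have e1 : S.P2 (q2 S y w) = S.P2 w - et S y w • S.P2 y := by
    rw [q2, map_sub, map_smul, S.i22, S.i22]
  rw [p2, p2, G3a_etq2 S hz, e1, inner_sub_left, real_inner_smul_left, S.s2 v w,
    real_inner_comm (S.P2 w) v]
  have e2 : (inner ℝ (S.P2 y) v : ℝ) = et S y v * ze S y := by
    rw [et, div_mul_cancel₀ _ (G3a_ze S hz)]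
  rw [e2]
  field_simp [G3a_ze S hz]
  ring

end Rel

/-! ### divergences of the basic fields -/

theorem G3a_divX (S : Split n) (y : Euc n) : G3a_div (fun z => S.P1 z) y = 3 := by
  unfold G3a_div
  rw [S.P1.fderiv]
  exact S.t1

theorem G3a_divZ (S : Split n) (y : Euc n) : G3a_div (fun z => S.P2 z) y = 3 := by
  unfold G3a_div
  rw [S.P2.fderiv]
  exact S.t2

theorem G3a_trP (f : Euc n →L[ℝ] ℝ) (c : Euc n) : ∑ i, (f (eb i) • c) i = f c := by
  simp only [PiLp.smul_apply, smul_eq_mul]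
  exact G3a_fun f c

theorem G3a_divq1 (S : Split n) {y : Euc n} (hx : S.P1 y ≠ 0) (v : Euc n) :
    G3a_div (fun z => q1 S z v) y = -2 * th S y v := by
  unfold G3a_div
  have e1 : ∀ i, (fderiv ℝ (fun z => q1 S z v) y (eb i)) i
      = -((inner ℝ (S.P1 v) (eb i) : ℝ) * (S.P1 y) i) / xx S y
        + 2 * th S y v * ((inner ℝ (S.P1 y) (eb i) : ℝ) * (S.P1 y) i) / xx S y
        - th S y v * (S.P1 (eb i)) i := by
    intro i
    rw [(d_q1 S y hx v).2]
    simp only [q1, p1, PiLp.sub_apply, PiLp.smul_apply, smul_eq_mul, neg_mul]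
    rw [real_inner_comm v (S.P1 (eb i)), ← S.s1 v (eb i)]
    simp only [th]
    ring
  have h2 : ∀ a c : Euc n, ∑ i, (inner ℝ a (eb i) : ℝ) * c i = inner ℝ a c := by
    intro a c
    have := tr_rank_one a c
    simpa only [PiLp.smul_apply, smul_eq_mul] using this
  rw [Finset.sum_congr rfl fun i _ => e1 i, Finset.sum_sub_distrib, Finset.sum_add_distrib,
    ← Finset.sum_div, ← Finset.sum_div, Finset.sum_neg_distrib, ← Finset.mul_sum,
    ← Finset.mul_sum, S.t1, h2, h2]
  have e3 : (inner ℝ (S.P1 v) (S.P1 y) : ℝ) = th S y v * xx S y := by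
    rw [th, div_mul_cancel₀ _ (G3a_xx S hx), real_inner_comm, G3a_in11]
  have e4 : (inner ℝ (S.P1 y) (S.P1 y) : ℝ) = xx S y := rfl
  rw [e3, e4]
  field_simp [G3a_xx S hx]
  ring

theorem G3a_divq2 (S : Split n) {y : Euc n} (hz : S.P2 y ≠ 0) (v : Euc n) :
    G3a_div (fun z => q2 S z v) y = -2 * et S y v := by
  unfold G3a_div
  have e1 : ∀ i, (fderiv ℝ (fun z => q2 S z v) y (eb i)) i
      = -((inner ℝ (S.P2 v) (eb i) : ℝ) * (S.P2 y) i) / ze S y
        + 2 * et S y v * ((inner ℝ (S.P2 y) (eb i) : ℝ) * (S.P2 y) i) / ze S y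
        - et S y v * (S.P2 (eb i)) i := by
    intro i
    rw [(d_q2 S y hz v).2]
    simp only [q2, p2, PiLp.sub_apply, PiLp.smul_apply, smul_eq_mul, neg_mul]
    rw [real_inner_comm v (S.P2 (eb i)), ← S.s2 v (eb i)]
    simp only [et]
    ring
  have h2 : ∀ a c : Euc n, ∑ i, (inner ℝ a (eb i) : ℝ) * c i = inner ℝ a c := by
    intro a c
    have := tr_rank_one a c
    simpa only [PiLp.smul_apply, smul_eq_mul] using this
  rw [Finset.sum_congr rfl fun i _ => e1 i, Finset.sum_sub_distrib, Finset.sum_add_distrib,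
    ← Finset.sum_div, ← Finset.sum_div, Finset.sum_neg_distrib, ← Finset.mul_sum,
    ← Finset.mul_sum, S.t2, h2, h2]
  have e3 : (inner ℝ (S.P2 v) (S.P2 y) : ℝ) = et S y v * ze S y := by
    rw [et, div_mul_cancel₀ _ (G3a_ze S hz), real_inner_comm, G3a_in22]
  have e4 : (inner ℝ (S.P2 y) (S.P2 y) : ℝ) = ze S y := rfl
  rw [e3, e4]
  field_simp [G3a_ze S hz]
  ring

/-- a function of `τ` -/
theorem G3a_comp (S : Split n) {y : Euc n} (hx : S.P1 y ≠ 0) {a : ℝ → ℝ} {a' : ℝ}
    (ha : HasDerivAt a a' (ta S y)) :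
    DifferentiableAt ℝ (fun z => a (ta S z)) y ∧
      ∀ u, fderiv ℝ (fun z => a (ta S z)) y u = a' * th S y u := by
  have h1 := (d_ta S y hx).1.hasFDerivAt
  have h2 : HasFDerivAt (fun z => a (ta S z)) (a' • fderiv ℝ (fun z => ta S z) y) y :=
    ha.comp_hasFDerivAt y h1
  refine ⟨h2.differentiableAt, fun u => ?_⟩
  rw [h2.fderiv, smul_apply, (d_ta S y hx).2, smul_eq_mul]

/-- G3a. Divergence of `Gam(v,w)`. -/
theorem trace_div (S : Split n) (ℓ m1 m2 a1 a2 ℓ' m1' m2' a1' a2' : ℝ → ℝ)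
    (y : Euc n) (hx : S.P1 y ≠ 0) (hz : S.P2 y ≠ 0)
    (hℓ : HasDerivAt ℓ (ℓ' (ta S y)) (ta S y)) (hm1 : HasDerivAt m1 (m1' (ta S y)) (ta S y))
    (hm2 : HasDerivAt m2 (m2' (ta S y)) (ta S y)) (ha1 : HasDerivAt a1 (a1' (ta S y)) (ta S y))
    (ha2 : HasDerivAt a2 (a2' (ta S y)) (ta S y)) (v w : Euc n) :
    ∑ i, (fderiv ℝ (fun z => Gam S ℓ m1 m2 a1 a2 z v w) y (eb i)) i
      = th S y v * th S y w * (ℓ' (ta S y) + ℓ (ta S y) + 3 - 4 * a1 (ta S y))
        + p1 S y v w * (2 * a1 (ta S y) - 1 - m1 (ta S y) - m1' (ta S y))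
        + p2 S y v w * (-1 - 3 * m2 (ta S y) - m2' (ta S y))
        - 2 * a2 (ta S y) * (th S y v * et S y w + et S y v * th S y w)
        + 3 * (et S y v * et S y w) := by
  change G3a_div (fun z => Gam S ℓ m1 m2 a1 a2 z v w) y = _
  -- the differentiable pieces
  obtain ⟨dℓ, fℓ⟩ := G3a_comp S hx hℓ
  obtain ⟨dm1, fm1⟩ := G3a_comp S hx hm1
  obtain ⟨dm2, fm2⟩ := G3a_comp S hx hm2
  obtain ⟨da1, fa1⟩ := G3a_comp S hx ha1
  obtain ⟨da2, fa2⟩ := G3a_comp S hx ha2
  obtain ⟨dtv, ftv⟩ := d_th S y hx v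
  obtain ⟨dtw, ftw⟩ := d_th S y hx w
  obtain ⟨dev, fev⟩ := d_et S y hz v
  obtain ⟨dew, few⟩ := d_et S y hz w
  obtain ⟨dp1, fp1⟩ := d_p1 S y hx v w
  obtain ⟨dp2, fp2⟩ := d_p2 S y hz v w
  have dq1v := (d_q1 S y hx v).1
  have dq1w := (d_q1 S y hx w).1
  have dq2v := (d_q2 S y hz v).1
  have dq2w := (d_q2 S y hz w).1
  have dX : DifferentiableAt ℝ (fun z => S.P1 z) y := S.P1.differentiableAt
  have dZ : DifferentiableAt ℝ (fun z => S.P2 z) y := S.P2.differentiableAt
  -- the coefficient of `X`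
  have dc1 : DifferentiableAt ℝ (fun z => (ℓ (ta S z) - 1) * th S z v * th S z w) y :=
    ((dℓ.sub_const 1).mul dtv).mul dtw
  have dc2 : DifferentiableAt ℝ (fun z => (1 - m1 (ta S z)) * p1 S z v w) y :=
    ((differentiableAt_const _).sub dm1).mul dp1
  have dc3 : DifferentiableAt ℝ (fun z => m2 (ta S z) * p2 S z v w) y := dm2.mul dp2
  have dc12 : DifferentiableAt ℝ (fun z => (ℓ (ta S z) - 1) * th S z v * th S z w
      + (1 - m1 (ta S z)) * p1 S z v w) y := dc1.add dc2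
  have dc : DifferentiableAt ℝ (fun z => (ℓ (ta S z) - 1) * th S z v * th S z w
      + (1 - m1 (ta S z)) * p1 S z v w - m2 (ta S z) * p2 S z v w) y := dc12.sub dc3
  have dl1 : DifferentiableAt ℝ (fun z => ℓ (ta S z) - 1) y := dℓ.sub_const 1
  have dl2 : DifferentiableAt ℝ (fun z => (ℓ (ta S z) - 1) * th S z v) y := dl1.mul dtv
  have dn1 : DifferentiableAt ℝ (fun z => 1 - m1 (ta S z)) y := (differentiableAt_const _).sub dm1
  have hc : fderiv ℝ (fun z => (ℓ (ta S z) - 1) * th S z v * th S z w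
      + (1 - m1 (ta S z)) * p1 S z v w - m2 (ta S z) * p2 S z v w) y (S.P1 y)
      = ℓ' (ta S y) * th S y v * th S y w - 2 * (ℓ (ta S y) - 1) * th S y v * th S y w
        - m1' (ta S y) * p1 S y v w - 2 * (1 - m1 (ta S y)) * p1 S y v w
        - m2' (ta S y) * p2 S y v w := by
    rw [fderiv_fun_sub dc12 dc3, fderiv_fun_add dc1 dc2,
      fderiv_fun_mul dl2 dtw, fderiv_fun_mul dl1 dtv,
      fderiv_fun_mul dn1 dp1, fderiv_fun_mul dm2 dp2,
      fderiv_sub_const, fderiv_const_sub]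
    simp only [sub_apply, add_apply, smul_apply, neg_apply, smul_eq_mul, fℓ, fm1, fm2, ftv, ftw,
      fp1, fp2, G3a_thX S hx, G3a_p1X S hx, G3a_p2X S, G3a_etP1]
    ring
  -- the first piece
  have t1 : G3a_div (fun z => ((ℓ (ta S z) - 1) * th S z v * th S z w
      + (1 - m1 (ta S z)) * p1 S z v w - m2 (ta S z) * p2 S z v w) • S.P1 z) y
      = 3 * ((ℓ (ta S y) - 1) * th S y v * th S y w
      + (1 - m1 (ta S y)) * p1 S y v w - m2 (ta S y) * p2 S y v w)
      + (ℓ' (ta S y) * th S y v * th S y w - 2 * (ℓ (ta S y) - 1) * th S y v * th S y w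
        - m1' (ta S y) * p1 S y v w - 2 * (1 - m1 (ta S y)) * p1 S y v w
        - m2' (ta S y) * p2 S y v w) := by
    rw [G3a_div_smul dc dX, G3a_divX, hc]
    ring
  -- the second piece
  have da1' : DifferentiableAt ℝ (fun z => a1 (ta S z) - 1) y := da1.sub_const 1
  have ds1 : DifferentiableAt ℝ (fun z => th S z v • q1 S z w) y := dtv.smul dq1w
  have ds2 : DifferentiableAt ℝ (fun z => th S z w • q1 S z v) y := dtw.smul dq1v
  have ds : DifferentiableAt ℝ (fun z => th S z v • q1 S z w + th S z w • q1 S z v) y :=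
    ds1.add ds2
  have t2 : G3a_div (fun z => (a1 (ta S z) - 1) • (th S z v • q1 S z w + th S z w • q1 S z v)) y
      = (a1 (ta S y) - 1) * (-4 * (th S y v * th S y w) + 2 * p1 S y v w) := by
    rw [G3a_div_smul da1' ds, G3a_div_add ds1 ds2, G3a_div_smul dtv dq1w, G3a_div_smul dtw dq1v,
      G3a_divq1 S hx, G3a_divq1 S hx, ftv, ftw, fderiv_sub_const, fa1, G3a_th_add, G3a_th_smul,
      G3a_th_smul, G3a_thq1 S hx, G3a_thq1 S hx, G3a_p1q1 S hx, G3a_p1q1 S hx]
    have : p1 S y w v = p1 S y v w := by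
      simp only [p1]
      rw [S.s1 w v, real_inner_comm (S.P1 v) w]
      ring
    rw [this]
    ring
  -- the third piece
  have du1 : DifferentiableAt ℝ (fun z => th S z v • q2 S z w) y := dtv.smul dq2w
  have du2 : DifferentiableAt ℝ (fun z => th S z w • q2 S z v) y := dtw.smul dq2v
  have du : DifferentiableAt ℝ (fun z => th S z v • q2 S z w + th S z w • q2 S z v) y :=
    du1.add du2
  have t3 : G3a_div (fun z => a2 (ta S z) • (th S z v • q2 S z w + th S z w • q2 S z v)) y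
      = a2 (ta S y) * (-2 * (th S y v * et S y w + et S y v * th S y w)) := by
    rw [G3a_div_smul da2 du, G3a_div_add du1 du2, G3a_div_smul dtv dq2w, G3a_div_smul dtw dq2v,
      G3a_divq2 S hz, G3a_divq2 S hz, ftv, ftw, fa2, G3a_th_add, G3a_th_smul,
      G3a_th_smul, G3a_thq2 S, G3a_thq2 S, G3a_p1q2 S, G3a_p1q2 S]
    ring
  -- the fourth piece
  have dv1 : DifferentiableAt ℝ (fun z => et S z v • q2 S z w) y := dev.smul dq2w
  have dv2 : DifferentiableAt ℝ (fun z => et S z w • q2 S z v) y := dew.smul dq2v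
  have dv : DifferentiableAt ℝ (fun z => et S z v • q2 S z w + et S z w • q2 S z v) y :=
    dv1.add dv2
  have t4 : G3a_div (fun z => et S z v • q2 S z w + et S z w • q2 S z v) y
      = -4 * (et S y v * et S y w) + 2 * p2 S y v w := by
    rw [G3a_div_add dv1 dv2, G3a_div_smul dev dq2w, G3a_div_smul dew dq2v,
      G3a_divq2 S hz, G3a_divq2 S hz, fev, few, G3a_etq2 S hz, G3a_etq2 S hz,
      G3a_p2q2 S hz, G3a_p2q2 S hz]
    have : p2 S y w v = p2 S y v w := by
      simp only [p2]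
      rw [S.s2 w v, real_inner_comm (S.P2 v) w]
      ring
    rw [this]
    ring
  -- the fifth piece
  have dw1 : DifferentiableAt ℝ (fun z => et S z v * et S z w) y := dev.mul dew
  have t5 : G3a_div (fun z => (et S z v * et S z w) • S.P2 z) y = et S y v * et S y w := by
    rw [G3a_div_smul dw1 dZ, G3a_divZ, fderiv_fun_mul dev dew]
    simp only [add_apply, smul_apply, smul_eq_mul, fev, few, G3a_etZ S hz, G3a_p2Z S hz]
    ring
  -- the sixth piece
  have t6 : G3a_div (fun z => p2 S z v w • S.P2 z) y = p2 S y v w := by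
    rw [G3a_div_smul dp2 dZ, G3a_divZ, fp2, G3a_etZ S hz, G3a_p2Z S hz, G3a_p2Z S hz]
    ring
  have g1 := dc.smul dX
  have g2 := da1'.smul ds
  have g3 := da2.smul du
  have g5 := dw1.smul dZ
  have g6 := dp2.smul dZ
  have e0 : G3a_div (fun z => Gam S ℓ m1 m2 a1 a2 z v w) y
      = G3a_div (fun z => ((ℓ (ta S z) - 1) * th S z v * th S z w
      + (1 - m1 (ta S z)) * p1 S z v w - m2 (ta S z) * p2 S z v w) • S.P1 z) y
      + G3a_div (fun z => (a1 (ta S z) - 1) • (th S z v • q1 S z w + th S z w • q1 S z v)) y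
      + G3a_div (fun z => a2 (ta S z) • (th S z v • q2 S z w + th S z w • q2 S z v)) y
      - G3a_div (fun z => et S z v • q2 S z w + et S z w • q2 S z v) y
      - G3a_div (fun z => (et S z v * et S z w) • S.P2 z) y
      + G3a_div (fun z => p2 S z v w • S.P2 z) y := by
    have g12 := g1.add g2
    have g123 := g12.add g3
    have g1234 := g123.sub dv
    have g12345 := g1234.sub g5
    have r5 := G3a_div_add g12345 g6
    have r4 := G3a_div_sub g1234 g5
    have r3 := G3a_div_sub g123 dv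
    have r2 := G3a_div_add g12 g3
    have r1 := G3a_div_add g1 g2
    calc G3a_div (fun z => Gam S ℓ m1 m2 a1 a2 z v w) y = _ := r5
      _ = _ := by
        congr 1
        refine r4.trans ?_
        congr 1
        refine r3.trans ?_
        congr 1
        refine r2.trans ?_
        congr 1
  rw [e0, t1, t2, t3, t4, t5, t6]
  ring

end Pool.Agent.RS
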