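import Pool.Agent.Lib.MP_35abc2_gt.G2_Frame

/-! # G3b: traces of the Christoffel symbols (MP_35abc2_gt) -/

open scoped ContDiff Topology
open Set Filter Real

noncomputable section

namespace Pool.Agent.RS

variable {n : ℕ}

lemma G3b_xx_pos (S : Split n) {y : Euc n} (hx : S.P1 y ≠ 0) : 0 < xx S y :=
  real_inner_self_pos.2 hx

lemma G3b_ze_pos (S : Split n) {y : Euc n} (hz : S.P2 y ≠ 0) : 0 < ze S y :=
  real_inner_self_pos.2 hz

lemma G3b_th_add (S : Split n) (y a b : Euc n) : th S y (a + b) = th S y a + th S y b := by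
  unfold th
  rw [inner_add_right, add_div]

lemma G3b_th_sub (S : Split n) (y a b : Euc n) : th S y (a - b) = th S y a - th S y b := by
  unfold th
  rw [inner_sub_right, sub_div]

lemma G3b_th_smul (S : Split n) (y a : Euc n) (c : ℝ) : th S y (c • a) = c * th S y a := by
  unfold th
  rw [real_inner_smul_right, mul_div_assoc]

lemma G3b_et_add (S : Split n) (y a b : Euc n) : et S y (a + b) = et S y a + et S y b := by
  unfold et
  rw [inner_add_right, add_div]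

lemma G3b_et_sub (S : Split n) (y a b : Euc n) : et S y (a - b) = et S y a - et S y b := by
  unfold et
  rw [inner_sub_right, sub_div]

lemma G3b_et_smul (S : Split n) (y a : Euc n) (c : ℝ) : et S y (c • a) = c * et S y a := by
  unfold et
  rw [real_inner_smul_right, mul_div_assoc]

lemma G3b_th_P1 (S : Split n) (y a : Euc n) : th S y (S.P1 a) = th S y a := by
  unfold th
  rw [← S.s1, S.i11]

lemma G3b_th_P2 (S : Split n) (y a : Euc n) : th S y (S.P2 a) = 0 := by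
  unfold th
  rw [← S.s2, S.i21, inner_zero_left, zero_div]

lemma G3b_et_P2 (S : Split n) (y a : Euc n) : et S y (S.P2 a) = et S y a := by
  unfold et
  rw [← S.s2, S.i22]

lemma G3b_et_P1 (S : Split n) (y a : Euc n) : et S y (S.P1 a) = 0 := by
  unfold et
  rw [← S.s1, S.i12, inner_zero_left, zero_div]

lemma G3b_th_X (S : Split n) {y : Euc n} (hx : S.P1 y ≠ 0) : th S y (S.P1 y) = 1 := by
  unfold th
  exact div_self (G3b_xx_pos S hx).ne'

lemma G3b_et_Z (S : Split n) {y : Euc n} (hz : S.P2 y ≠ 0) : et S y (S.P2 y) = 1 := by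
  unfold et
  exact div_self (G3b_ze_pos S hz).ne'

lemma G3b_th_q1 (S : Split n) {y : Euc n} (hx : S.P1 y ≠ 0) (v : Euc n) :
    th S y (q1 S y v) = 0 := by
  unfold q1
  rw [G3b_th_sub, G3b_th_P1, G3b_th_smul, G3b_th_X S hx, mul_one, sub_self]

lemma G3b_th_q2 (S : Split n) (y v : Euc n) : th S y (q2 S y v) = 0 := by
  unfold q2
  rw [G3b_th_sub, G3b_th_P2, G3b_th_smul, G3b_th_P2, mul_zero, sub_self]

lemma G3b_et_q2 (S : Split n) {y : Euc n} (hz : S.P2 y ≠ 0) (v : Euc n) :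
    et S y (q2 S y v) = 0 := by
  unfold q2
  rw [G3b_et_sub, G3b_et_P2, G3b_et_smul, G3b_et_Z S hz, mul_one, sub_self]

lemma G3b_et_q1 (S : Split n) (y v : Euc n) : et S y (q1 S y v) = 0 := by
  unfold q1
  rw [G3b_et_sub, G3b_et_P1, G3b_et_smul, G3b_et_P1, mul_zero, sub_self]

lemma G3b_p1_X (S : Split n) {y : Euc n} (hx : S.P1 y ≠ 0) (w : Euc n) :
    p1 S y (S.P1 y) w = 0 := by
  unfold p1
  rw [G3b_th_X S hx, S.i11, one_mul]
  unfold th
  ring

lemma G3b_p2_Z (S : Split n) {y : Euc n} (hz : S.P2 y ≠ 0) (w : Euc n) :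
    p2 S y (S.P2 y) w = 0 := by
  unfold p2
  rw [G3b_et_Z S hz, S.i22, one_mul]
  unfold et
  ring

lemma G3b_p2_X (S : Split n) (y w : Euc n) : p2 S y (S.P1 y) w = 0 := by
  unfold p2
  rw [G3b_et_P1, S.i21, inner_zero_left]
  ring

lemma G3b_tr_inner (a c : Euc n) : ∑ i, (inner ℝ a (eb i) : ℝ) * c i = inner ℝ a c := by
  rw [← tr_rank_one a c]
  simp only [PiLp.smul_apply, smul_eq_mul]

lemma G3b_tr_th (S : Split n) (y c : Euc n) : ∑ i, th S y (eb i) * c i = th S y c := by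
  unfold th
  rw [← G3b_tr_inner, Finset.sum_div]
  refine Finset.sum_congr rfl fun i _ => ?_
  ring

lemma G3b_tr_et (S : Split n) (y c : Euc n) : ∑ i, et S y (eb i) * c i = et S y c := by
  unfold et
  rw [← G3b_tr_inner, Finset.sum_div]
  refine Finset.sum_congr rfl fun i _ => ?_
  ring

lemma G3b_tr_p1 (S : Split n) (y w c : Euc n) :
    ∑ i, p1 S y (eb i) w * c i = p1 S y c w := by
  have h1 : ∀ u, p1 S y u w = inner ℝ (S.P1 w) u / xx S y - th S y u * th S y w := by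
    intro u
    unfold p1
    rw [S.s1 u w, real_inner_comm]
  rw [h1 c, ← G3b_tr_inner (S.P1 w) c, ← G3b_tr_th S y c, Finset.sum_div, Finset.sum_mul,
    ← Finset.sum_sub_distrib]
  refine Finset.sum_congr rfl fun i _ => ?_
  rw [h1]
  ring

lemma G3b_tr_p2 (S : Split n) (y w c : Euc n) :
    ∑ i, p2 S y (eb i) w * c i = p2 S y c w := by
  have h1 : ∀ u, p2 S y u w = inner ℝ (S.P2 w) u / ze S y - et S y u * et S y w := by
    intro u
    unfold p2
    rw [S.s2 u w, real_inner_comm]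
  rw [h1 c, ← G3b_tr_inner (S.P2 w) c, ← G3b_tr_et S y c, Finset.sum_div, Finset.sum_mul,
    ← Finset.sum_sub_distrib]
  refine Finset.sum_congr rfl fun i _ => ?_
  rw [h1]
  ring

lemma G3b_tr_q1 (S : Split n) {y : Euc n} (hx : S.P1 y ≠ 0) : ∑ i, (q1 S y (eb i)) i = 2 := by
  have h : ∀ i, (q1 S y (eb i)) i = (S.P1 (eb i)) i - th S y (eb i) * (S.P1 y) i := by
    intro i
    simp only [q1, PiLp.sub_apply, PiLp.smul_apply, smul_eq_mul]
  rw [Finset.sum_congr rfl fun i _ => h i, Finset.sum_sub_distrib, S.t1, G3b_tr_th, G3b_th_X S hx]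
  norm_num

lemma G3b_tr_q2 (S : Split n) {y : Euc n} (hz : S.P2 y ≠ 0) : ∑ i, (q2 S y (eb i)) i = 2 := by
  have h : ∀ i, (q2 S y (eb i)) i = (S.P2 (eb i)) i - et S y (eb i) * (S.P2 y) i := by
    intro i
    simp only [q2, PiLp.sub_apply, PiLp.smul_apply, smul_eq_mul]
  rw [Finset.sum_congr rfl fun i _ => h i, Finset.sum_sub_distrib, S.t2, G3b_tr_et, G3b_et_Z S hz]
  norm_num

/-- G3b. The trace of `u ↦ Gam(u,w)` is `M θ(w) - 3 η(w)`, `M = ℓ - 3 + 2a1 + 2a2`. -/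
theorem trace_Gam (S : Split n) (ℓ m1 m2 a1 a2 : ℝ → ℝ)
    (y : Euc n) (hx : S.P1 y ≠ 0) (hz : S.P2 y ≠ 0) (w : Euc n) :
    ∑ i, (Gam S ℓ m1 m2 a1 a2 y (eb i) w) i
      = (ℓ (ta S y) - 3 + 2 * a1 (ta S y) + 2 * a2 (ta S y)) * th S y w - 3 * et S y w := by
  have h : ∀ i, (Gam S ℓ m1 m2 a1 a2 y (eb i) w) i
      = (ℓ (ta S y) - 1) * th S y w * (th S y (eb i) * (S.P1 y) i)
        + (1 - m1 (ta S y)) * (p1 S y (eb i) w * (S.P1 y) i)
        - m2 (ta S y) * (p2 S y (eb i) w * (S.P1 y) i)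
        + (a1 (ta S y) - 1) * (th S y (eb i) * (q1 S y w) i)
        + (a1 (ta S y) - 1) * th S y w * (q1 S y (eb i)) i
        + a2 (ta S y) * (th S y (eb i) * (q2 S y w) i)
        + a2 (ta S y) * th S y w * (q2 S y (eb i)) i
        - 1 * (et S y (eb i) * (q2 S y w) i) - et S y w * (q2 S y (eb i)) i
        - et S y w * (et S y (eb i) * (S.P2 y) i) + 1 * (p2 S y (eb i) w * (S.P2 y) i) := by
    intro i
    simp only [Gam, PiLp.add_apply, PiLp.sub_apply, PiLp.smul_apply, smul_eq_mul]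
    ring
  rw [Finset.sum_congr rfl fun i _ => h i]
  simp only [Finset.sum_add_distrib, Finset.sum_sub_distrib, ← Finset.mul_sum]
  rw [G3b_tr_th, G3b_tr_p1, G3b_tr_p2, G3b_tr_th, G3b_tr_q1 S hx, G3b_tr_th, G3b_tr_q2 S hz,
    G3b_tr_et, G3b_tr_et, G3b_tr_p2, G3b_th_X S hx, G3b_p1_X S hx, G3b_p2_X, G3b_th_q1 S hx,
    G3b_th_q2, G3b_et_q2 S hz, G3b_et_Z S hz, G3b_p2_Z S hz]
  ring

lemma G3b_diff_Gam (S : Split n) (ℓ m1 m2 a1 a2 ℓ' m1' m2' a1' a2' : ℝ → ℝ)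
    (y : Euc n) (hx : S.P1 y ≠ 0) (hz : S.P2 y ≠ 0)
    (hℓ : HasDerivAt ℓ (ℓ' (ta S y)) (ta S y)) (hm1 : HasDerivAt m1 (m1' (ta S y)) (ta S y))
    (hm2 : HasDerivAt m2 (m2' (ta S y)) (ta S y)) (ha1 : HasDerivAt a1 (a1' (ta S y)) (ta S y))
    (ha2 : HasDerivAt a2 (a2' (ta S y)) (ta S y)) (v w : Euc n) :
    DifferentiableAt ℝ (fun z => Gam S ℓ m1 m2 a1 a2 z v w) y := by
  have ht := (d_ta S y hx).1
  have e1 : DifferentiableAt ℝ (fun z => ℓ (ta S z)) y :=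
    DifferentiableAt.comp y hℓ.differentiableAt ht
  have e2 : DifferentiableAt ℝ (fun z => m1 (ta S z)) y :=
    DifferentiableAt.comp y hm1.differentiableAt ht
  have e3 : DifferentiableAt ℝ (fun z => m2 (ta S z)) y :=
    DifferentiableAt.comp y hm2.differentiableAt ht
  have e4 : DifferentiableAt ℝ (fun z => a1 (ta S z)) y :=
    DifferentiableAt.comp y ha1.differentiableAt ht
  have e5 : DifferentiableAt ℝ (fun z => a2 (ta S z)) y :=
    DifferentiableAt.comp y ha2.differentiableAt ht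
  have f1 := (d_th S y hx v).1
  have f2 := (d_th S y hx w).1
  have f3 := (d_et S y hz v).1
  have f4 := (d_et S y hz w).1
  have f5 := (d_p1 S y hx v w).1
  have f6 := (d_p2 S y hz v w).1
  have f7 := (d_q1 S y hx v).1
  have f8 := (d_q1 S y hx w).1
  have f9 := (d_q2 S y hz v).1
  have f10 := (d_q2 S y hz w).1
  have g1 : DifferentiableAt ℝ (fun z => S.P1 z) y := S.P1.differentiableAt
  have g2 : DifferentiableAt ℝ (fun z => S.P2 z) y := S.P2.differentiableAt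
  unfold Gam
  refine DifferentiableAt.fun_add (DifferentiableAt.fun_sub (DifferentiableAt.fun_sub
    (DifferentiableAt.fun_add (DifferentiableAt.fun_add (DifferentiableAt.fun_smul ?_ g1) ?_) ?_)
    ?_) ?_) (f6.fun_smul g2)
  · exact ((((e1.sub_const 1).fun_mul f1).fun_mul f2).fun_add
      (((differentiableAt_const 1).fun_sub e2).fun_mul f5)).fun_sub (e3.fun_mul f6)
  · exact (e4.sub_const 1).fun_smul ((f1.fun_smul f8).fun_add (f2.fun_smul f7))
  · exact e5.fun_smul ((f1.fun_smul f10).fun_add (f2.fun_smul f9))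
  · exact (f3.fun_smul f10).fun_add (f4.fun_smul f9)
  · exact (f3.fun_mul f4).fun_smul g2

/-- G3b'. The sum of the derivatives in direction `v` of `Gam(e_i,w)_i`.
PROOF. Sum and derivative commute; differentiate G3b (valid near `y`) with G2a; each `z ↦ Gam z (eb i) w` is differentiable. -/
theorem trace_dGam (S : Split n) (ℓ m1 m2 a1 a2 ℓ' m1' m2' a1' a2' : ℝ → ℝ)
    (y : Euc n) (hx : S.P1 y ≠ 0) (hz : S.P2 y ≠ 0)
    (hℓ : HasDerivAt ℓ (ℓ' (ta S y)) (ta S y)) (hm1 : HasDerivAt m1 (m1' (ta S y)) (ta S y))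
    (hm2 : HasDerivAt m2 (m2' (ta S y)) (ta S y)) (ha1 : HasDerivAt a1 (a1' (ta S y)) (ta S y))
    (ha2 : HasDerivAt a2 (a2' (ta S y)) (ta S y)) (v w : Euc n) :
    ∑ i, (fderiv ℝ (fun z => Gam S ℓ m1 m2 a1 a2 z (eb i) w) y v) i
      = (ℓ' (ta S y) + 2 * a1' (ta S y) + 2 * a2' (ta S y)) * (th S y v * th S y w)
        + (ℓ (ta S y) - 3 + 2 * a1 (ta S y) + 2 * a2 (ta S y)) * (p1 S y v w - th S y v * th S y w)
        - 3 * (p2 S y v w - et S y v * et S y w) := by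
  have hd := fun u => G3b_diff_Gam S ℓ m1 m2 a1 a2 ℓ' m1' m2' a1' a2' y hx hz hℓ hm1 hm2 ha1 ha2 u w
  have ht := (d_ta S y hx).1.hasFDerivAt
  have e1 : HasFDerivAt (fun z => ℓ (ta S z)) (ℓ' (ta S y) • fderiv ℝ (fun z => ta S z) y) y :=
    hℓ.comp_hasFDerivAt y ht
  have e4 : HasFDerivAt (fun z => a1 (ta S z)) (a1' (ta S y) • fderiv ℝ (fun z => ta S z) y) y :=
    ha1.comp_hasFDerivAt y ht
  have e5 : HasFDerivAt (fun z => a2 (ta S z)) (a2' (ta S y) • fderiv ℝ (fun z => ta S z) y) y :=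
    ha2.comp_hasFDerivAt y ht
  have f2 := (d_th S y hx w).1.hasFDerivAt
  have f4 := (d_et S y hz w).1.hasFDerivAt
  -- the sum of the components
  have h1 : HasFDerivAt (fun z => ∑ i, (Gam S ℓ m1 m2 a1 a2 z (eb i) w) i)
      (∑ i, (EuclideanSpace.proj i : Euc n →L[ℝ] ℝ).comp
        (fderiv ℝ (fun z => Gam S ℓ m1 m2 a1 a2 z (eb i) w) y)) y := by
    refine HasFDerivAt.fun_sum fun i _ => ?_
    exact (EuclideanSpace.proj i : Euc n →L[ℝ] ℝ).hasFDerivAt.comp y (hd (eb i)).hasFDerivAt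
  have h2 : HasFDerivAt (fun z => (ℓ (ta S z) - 3 + 2 * a1 (ta S z) + 2 * a2 (ta S z)) * th S z w
      - 3 * et S z w) _ y :=
    (((((e1.sub_const 3).add (e4.const_mul 2)).add (e5.const_mul 2))).mul f2).sub
      (f4.const_mul 3)
  have hev : (fun z => ∑ i, (Gam S ℓ m1 m2 a1 a2 z (eb i) w) i) =ᶠ[𝓝 y]
      (fun z => (ℓ (ta S z) - 3 + 2 * a1 (ta S z) + 2 * a2 (ta S z)) * th S z w
      - 3 * et S z w) := by
    have o1 : ∀ᶠ z in 𝓝 y, S.P1 z ≠ 0 :=
      S.P1.continuous.continuousAt.eventually_ne hx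
    have o2 : ∀ᶠ z in 𝓝 y, S.P2 z ≠ 0 :=
      S.P2.continuous.continuousAt.eventually_ne hz
    filter_upwards [o1, o2] with z h1 h2
    exact trace_Gam S ℓ m1 m2 a1 a2 z h1 h2 w
  have h3 := (h2.congr_of_eventuallyEq hev).unique h1
  have h4 := congrArg (fun L : Euc n →L[ℝ] ℝ => L v) h3
  simp only [sum_apply, ContinuousLinearMap.comp_apply, Pi.add_apply,
    sub_apply, add_apply, smul_apply, smul_eq_mul] at h4
  have h5 : ∀ (i : Fin n) (u : Euc n), (EuclideanSpace.proj i : Euc n →L[ℝ] ℝ) u = u i :=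
    fun _ _ => rfl
  simp only [h5] at h4
  rw [← h4, (d_ta S y hx).2 v, (d_th S y hx w).2 v, (d_et S y hz w).2 v]
  ring

/-- G3c. `∑ (Gam(e_i, Gam(v,w)))_i`. PROOF. G3b and `θ(Gam(v,w)) = (ℓ-1)θvθw + (1-m1)p1 - m2 p2`, `η(Gam(v,w)) = p2 - ηvηw`. -/
theorem trace_GamGam (S : Split n) (ℓ m1 m2 a1 a2 : ℝ → ℝ)
    (y : Euc n) (hx : S.P1 y ≠ 0) (hz : S.P2 y ≠ 0) (v w : Euc n) :
    ∑ i, (Gam S ℓ m1 m2 a1 a2 y (eb i) (Gam S ℓ m1 m2 a1 a2 y v w)) i
      = (ℓ (ta S y) - 3 + 2 * a1 (ta S y) + 2 * a2 (ta S y))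
          * ((ℓ (ta S y) - 1) * (th S y v * th S y w) + (1 - m1 (ta S y)) * p1 S y v w
            - m2 (ta S y) * p2 S y v w)
        - 3 * (p2 S y v w - et S y v * et S y w) := by
  rw [trace_Gam S ℓ m1 m2 a1 a2 y hx hz]
  have h1 : th S y (Gam S ℓ m1 m2 a1 a2 y v w) = (ℓ (ta S y) - 1) * (th S y v * th S y w)
      + (1 - m1 (ta S y)) * p1 S y v w - m2 (ta S y) * p2 S y v w := by
    simp only [Gam, G3b_th_add, G3b_th_sub, G3b_th_smul, G3b_th_X S hx, G3b_th_q1 S hx, G3b_th_q2,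
      G3b_th_P2]
    ring
  have h2 : et S y (Gam S ℓ m1 m2 a1 a2 y v w) = p2 S y v w - et S y v * et S y w := by
    simp only [Gam, G3b_et_add, G3b_et_sub, G3b_et_smul, G3b_et_Z S hz, G3b_et_q2 S hz, G3b_et_q1,
      G3b_et_P1]
    ring
  rw [h1, h2]

end Pool.Agent.RS
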