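import Pool.Agent.Lib.MP_35abc2_gt.G0_Geom

/-! # G3d: the trace of the square (MP_35abc2_gt) -/

open scoped ContDiff Topology
open Set Filter Real

noncomputable section

namespace Pool.Agent.RS

variable {n : ℕ}

namespace G3dAux

section alg
variable (S : Split n) (y : Euc n)

theorem inner_eb (a : Euc n) (i : Fin n) : (inner ℝ a (eb i) : ℝ) = a i := by
  simp [eb, EuclideanSpace.inner_single_right]

theorem ip11 (v w : Euc n) : (inner ℝ (S.P1 v) (S.P1 w) : ℝ) = inner ℝ (S.P1 v) w := by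
  rw [S.s1 v (S.P1 w), S.i11 w, ← S.s1 v w]
theorem ip22 (v w : Euc n) : (inner ℝ (S.P2 v) (S.P2 w) : ℝ) = inner ℝ (S.P2 v) w := by
  rw [S.s2 v (S.P2 w), S.i22 w, ← S.s2 v w]
theorem ip12 (v w : Euc n) : (inner ℝ (S.P1 v) (S.P2 w) : ℝ) = 0 := by
  rw [S.s1 v (S.P2 w), S.i12 w, inner_zero_right]
theorem ip21 (v w : Euc n) : (inner ℝ (S.P2 v) (S.P1 w) : ℝ) = 0 := by
  rw [S.s2 v (S.P1 w), S.i21 w, inner_zero_right]

theorem th_add (v w : Euc n) : th S y (v + w) = th S y v + th S y w := by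
  simp only [th, inner_add_right]; ring
theorem th_sub (v w : Euc n) : th S y (v - w) = th S y v - th S y w := by
  simp only [th, inner_sub_right]; ring
theorem th_smul (c : ℝ) (v : Euc n) : th S y (c • v) = c * th S y v := by
  simp only [th, inner_smul_right]; ring
theorem th_neg (v : Euc n) : th S y (-v) = - th S y v := by
  simp only [th, inner_neg_right]; ring
theorem et_add (v w : Euc n) : et S y (v + w) = et S y v + et S y w := by
  simp only [et, inner_add_right]; ring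
theorem et_sub (v w : Euc n) : et S y (v - w) = et S y v - et S y w := by
  simp only [et, inner_sub_right]; ring
theorem et_smul (c : ℝ) (v : Euc n) : et S y (c • v) = c * et S y v := by
  simp only [et, inner_smul_right]; ring
theorem et_neg (v : Euc n) : et S y (-v) = - et S y v := by
  simp only [et, inner_neg_right]; ring

theorem p1_add (u v w : Euc n) : p1 S y u (v + w) = p1 S y u v + p1 S y u w := by
  simp only [p1, inner_add_right, th_add]; ring
theorem p1_sub (u v w : Euc n) : p1 S y u (v - w) = p1 S y u v - p1 S y u w := by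
  simp only [p1, inner_sub_right, th_sub]; ring
theorem p1_smul (u : Euc n) (c : ℝ) (v : Euc n) : p1 S y u (c • v) = c * p1 S y u v := by
  simp only [p1, inner_smul_right, th_smul]; ring
theorem p1_neg (u v : Euc n) : p1 S y u (-v) = - p1 S y u v := by
  simp only [p1, inner_neg_right, th_neg]; ring
theorem p2_add (u v w : Euc n) : p2 S y u (v + w) = p2 S y u v + p2 S y u w := by
  simp only [p2, inner_add_right, et_add]; ring
theorem p2_sub (u v w : Euc n) : p2 S y u (v - w) = p2 S y u v - p2 S y u w := by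
  simp only [p2, inner_sub_right, et_sub]; ring
theorem p2_smul (u : Euc n) (c : ℝ) (v : Euc n) : p2 S y u (c • v) = c * p2 S y u v := by
  simp only [p2, inner_smul_right, et_smul]; ring
theorem p2_neg (u v : Euc n) : p2 S y u (-v) = - p2 S y u v := by
  simp only [p2, inner_neg_right, et_neg]; ring
theorem p1_comm (u v : Euc n) : p1 S y u v = p1 S y v u := by
  simp only [p1, S.s1 u v, real_inner_comm (S.P1 v) u]
  ring
theorem p2_comm (u v : Euc n) : p2 S y u v = p2 S y v u := by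
  simp only [p2, S.s2 u v, real_inner_comm (S.P2 v) u]
  ring

theorem q1_add (v w : Euc n) : q1 S y (v + w) = q1 S y v + q1 S y w := by
  simp only [q1, map_add, th_add]; module
theorem q1_sub (v w : Euc n) : q1 S y (v - w) = q1 S y v - q1 S y w := by
  simp only [q1, map_sub, th_sub]; module
theorem q1_smul (c : ℝ) (v : Euc n) : q1 S y (c • v) = c • q1 S y v := by
  simp only [q1, map_smul, th_smul]; module
theorem q1_neg (v : Euc n) : q1 S y (-v) = - q1 S y v := by
  simp only [q1, map_neg, th_neg]; module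
theorem q2_add (v w : Euc n) : q2 S y (v + w) = q2 S y v + q2 S y w := by
  simp only [q2, map_add, et_add]; module
theorem q2_sub (v w : Euc n) : q2 S y (v - w) = q2 S y v - q2 S y w := by
  simp only [q2, map_sub, et_sub]; module
theorem q2_smul (c : ℝ) (v : Euc n) : q2 S y (c • v) = c • q2 S y v := by
  simp only [q2, map_smul, et_smul]; module
theorem q2_neg (v : Euc n) : q2 S y (-v) = - q2 S y v := by
  simp only [q2, map_neg, et_neg]; module

variable (hx : S.P1 y ≠ 0) (hz : S.P2 y ≠ 0)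

include hx in
theorem xx_ne : xx S y ≠ 0 := by
  unfold xx
  rw [ne_eq, inner_self_eq_zero]
  exact hx
include hz in
theorem ze_ne : ze S y ≠ 0 := by
  unfold ze
  rw [ne_eq, inner_self_eq_zero]
  exact hz

include hx in
theorem th_X : th S y (S.P1 y) = 1 := by
  have := xx_ne S y hx
  unfold th
  rw [show (inner ℝ (S.P1 y) (S.P1 y) : ℝ) = xx S y from rfl]
  field_simp
theorem th_Z : th S y (S.P2 y) = 0 := by
  unfold th
  rw [ip12]
  simp
include hz in
theorem et_Z : et S y (S.P2 y) = 1 := by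
  have := ze_ne S y hz
  unfold et
  rw [show (inner ℝ (S.P2 y) (S.P2 y) : ℝ) = ze S y from rfl]
  field_simp
theorem et_X : et S y (S.P1 y) = 0 := by
  unfold et
  rw [ip21]
  simp

theorem th_P1 (v : Euc n) : th S y (S.P1 v) = th S y v := by
  unfold th
  rw [ip11]
theorem th_P2 (v : Euc n) : th S y (S.P2 v) = 0 := by
  unfold th
  rw [ip12]
  simp
theorem et_P2 (v : Euc n) : et S y (S.P2 v) = et S y v := by
  unfold et
  rw [ip22]
theorem et_P1 (v : Euc n) : et S y (S.P1 v) = 0 := by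
  unfold et
  rw [ip21]
  simp

include hx in
theorem th_q1 (v : Euc n) : th S y (q1 S y v) = 0 := by
  rw [q1, th_sub, th_smul, th_P1, th_X S y hx]
  ring
theorem th_q2 (v : Euc n) : th S y (q2 S y v) = 0 := by
  rw [q2, th_sub, th_smul, th_P2, th_P2]
  ring
include hz in
theorem et_q2 (v : Euc n) : et S y (q2 S y v) = 0 := by
  rw [q2, et_sub, et_smul, et_P2, et_Z S y hz]
  ring
theorem et_q1 (v : Euc n) : et S y (q1 S y v) = 0 := by
  rw [q1, et_sub, et_smul, et_P1, et_P1]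
  ring

theorem p1_P1 (u v : Euc n) : p1 S y u (S.P1 v) = p1 S y u v := by
  unfold p1
  rw [ip11, th_P1]
theorem p1_P2 (u v : Euc n) : p1 S y u (S.P2 v) = 0 := by
  unfold p1
  rw [ip12, th_P2]
  simp
theorem p2_P2 (u v : Euc n) : p2 S y u (S.P2 v) = p2 S y u v := by
  unfold p2
  rw [ip22, et_P2]
theorem p2_P1 (u v : Euc n) : p2 S y u (S.P1 v) = 0 := by
  unfold p2
  rw [ip21, et_P1]
  simp

include hx in
theorem p1_X (u : Euc n) : p1 S y u (S.P1 y) = 0 := by
  unfold p1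
  rw [th_X S y hx, real_inner_comm, ip11]
  unfold th
  ring
include hz in
theorem p2_Z (u : Euc n) : p2 S y u (S.P2 y) = 0 := by
  unfold p2
  rw [et_Z S y hz, real_inner_comm, ip22]
  unfold et
  ring

include hx in
theorem p1_q1 (u v : Euc n) : p1 S y u (q1 S y v) = p1 S y u v := by
  rw [q1, p1_sub, p1_smul, p1_P1, p1_X S y hx]
  ring
theorem p1_q2 (u v : Euc n) : p1 S y u (q2 S y v) = 0 := by
  rw [q2, p1_sub, p1_smul, p1_P2, p1_P2]
  ring
include hz in
theorem p2_q2 (u v : Euc n) : p2 S y u (q2 S y v) = p2 S y u v := by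
  rw [q2, p2_sub, p2_smul, p2_P2, p2_Z S y hz]
  ring
theorem p2_q1 (u v : Euc n) : p2 S y u (q1 S y v) = 0 := by
  rw [q1, p2_sub, p2_smul, p2_P1, p2_P1]
  ring

include hx in
theorem q1_X : q1 S y (S.P1 y) = 0 := by
  rw [q1, th_X S y hx, S.i11]
  simp
theorem q1_P2 (v : Euc n) : q1 S y (S.P2 v) = 0 := by
  rw [q1, th_P2, S.i12]
  simp
include hz in
theorem q2_Z : q2 S y (S.P2 y) = 0 := by
  rw [q2, et_Z S y hz, S.i22]
  simp
theorem q2_P1 (v : Euc n) : q2 S y (S.P1 v) = 0 := by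
  rw [q2, et_P1, S.i21]
  simp

include hx in
theorem q1_q1 (v : Euc n) : q1 S y (q1 S y v) = q1 S y v := by
  rw [q1, th_q1 S y hx, q1, map_sub, map_smul, S.i11, S.i11]
  simp
theorem q1_q2 (v : Euc n) : q1 S y (q2 S y v) = 0 := by
  rw [q1, th_q2, q2, map_sub, map_smul, S.i12, S.i12]
  simp
include hz in
theorem q2_q2 (v : Euc n) : q2 S y (q2 S y v) = q2 S y v := by
  rw [q2, et_q2 S y hz, q2, map_sub, map_smul, S.i22, S.i22]
  simp
theorem q2_q1 (v : Euc n) : q2 S y (q1 S y v) = 0 := by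
  rw [q2, et_q1, q1, map_sub, map_smul, S.i21, S.i21]
  simp

/-! traces -/

/-- trace of a map -/
def TR (f : Euc n → Euc n) : ℝ := ∑ i, (f (eb i)) i

theorem TR_add (f g : Euc n → Euc n) : TR (fun u => f u + g u) = TR f + TR g := by
  simp [TR, Finset.sum_add_distrib]
theorem TR_smul (c : ℝ) (f : Euc n → Euc n) : TR (fun u => c • f u) = c * TR f := by
  simp [TR, Finset.mul_sum]

theorem TR_inner (a c : Euc n) : TR (fun u => (inner ℝ a u : ℝ) • c) = inner ℝ a c :=
  tr_rank_one a c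

theorem TR_th (c : Euc n) : TR (fun u => th S y u • c) = th S y c := by
  have h : (fun u : Euc n => th S y u • c)
      = fun u => (xx S y)⁻¹ • ((inner ℝ (S.P1 y) u : ℝ) • c) := by
    funext u
    rw [smul_smul]
    unfold th
    congr 1
    ring
  rw [h, TR_smul, TR_inner]
  unfold th
  ring
theorem TR_et (c : Euc n) : TR (fun u => et S y u • c) = et S y c := by
  have h : (fun u : Euc n => et S y u • c)
      = fun u => (ze S y)⁻¹ • ((inner ℝ (S.P2 y) u : ℝ) • c) := by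
    funext u
    rw [smul_smul]
    unfold et
    congr 1
    ring
  rw [h, TR_smul, TR_inner]
  unfold et
  ring
theorem TR_p1 (v c : Euc n) : TR (fun u => p1 S y v u • c) = p1 S y v c := by
  have h : (fun u : Euc n => p1 S y v u • c)
      = fun u => (xx S y)⁻¹ • ((inner ℝ (S.P1 v) u : ℝ) • c) + (-th S y v) • (th S y u • c) := by
    funext u
    rw [smul_smul, smul_smul, ← add_smul]
    unfold p1
    congr 1
    ring
  rw [h, TR_add, TR_smul, TR_smul, TR_inner, TR_th]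
  unfold p1
  ring
theorem TR_p2 (v c : Euc n) : TR (fun u => p2 S y v u • c) = p2 S y v c := by
  have h : (fun u : Euc n => p2 S y v u • c)
      = fun u => (ze S y)⁻¹ • ((inner ℝ (S.P2 v) u : ℝ) • c) + (-et S y v) • (et S y u • c) := by
    funext u
    rw [smul_smul, smul_smul, ← add_smul]
    unfold p2
    congr 1
    ring
  rw [h, TR_add, TR_smul, TR_smul, TR_inner, TR_et]
  unfold p2
  ring

include hx in
theorem TR_q1 : TR (fun u => q1 S y u) = 2 := by
  have h : (fun u : Euc n => q1 S y u)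
      = fun u => S.P1 u + (-1 : ℝ) • (th S y u • S.P1 y) := by
    funext u
    unfold q1
    module
  rw [h, TR_add, TR_smul, TR_th, th_X S y hx]
  have : TR (fun u => S.P1 u) = 3 := S.t1
  rw [this]
  norm_num
include hz in
theorem TR_q2 : TR (fun u => q2 S y u) = 2 := by
  have h : (fun u : Euc n => q2 S y u)
      = fun u => S.P2 u + (-1 : ℝ) • (et S y u • S.P2 y) := by
    funext u
    unfold q2
    module
  rw [h, TR_add, TR_smul, TR_et, et_Z S y hz]
  have : TR (fun u => S.P2 u) = 3 := S.t2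
  rw [this]
  norm_num

/-! `Gam` -/

variable (ℓ m1 m2 a1 a2 : ℝ → ℝ)

theorem Gam_add (v u w : Euc n) : Gam S ℓ m1 m2 a1 a2 y v (u + w)
    = Gam S ℓ m1 m2 a1 a2 y v u + Gam S ℓ m1 m2 a1 a2 y v w := by
  simp only [Gam, th_add, et_add, p1_add, p2_add, q1_add, q2_add]
  module
theorem Gam_sub (v u w : Euc n) : Gam S ℓ m1 m2 a1 a2 y v (u - w)
    = Gam S ℓ m1 m2 a1 a2 y v u - Gam S ℓ m1 m2 a1 a2 y v w := by
  simp only [Gam, th_sub, et_sub, p1_sub, p2_sub, q1_sub, q2_sub]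
  module
theorem Gam_smul (v : Euc n) (c : ℝ) (w : Euc n) : Gam S ℓ m1 m2 a1 a2 y v (c • w)
    = c • Gam S ℓ m1 m2 a1 a2 y v w := by
  simp only [Gam, th_smul, et_smul, p1_smul, p2_smul, q1_smul, q2_smul]
  module

include hx in
theorem Gam_X (v : Euc n) : Gam S ℓ m1 m2 a1 a2 y v (S.P1 y)
    = ((ℓ (ta S y) - 1) * th S y v) • S.P1 y + (a1 (ta S y) - 1) • q1 S y v
      + a2 (ta S y) • q2 S y v := by
  simp only [Gam, th_X S y hx, et_X, p1_X S y hx, p2_P1, q1_X S y hx, q2_P1]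
  module

include hz in
theorem Gam_Z (v : Euc n) : Gam S ℓ m1 m2 a1 a2 y v (S.P2 y)
    = (-1 : ℝ) • q2 S y v + (-et S y v) • S.P2 y := by
  simp only [Gam, th_Z, et_Z S y hz, p1_P2, p2_Z S y hz, q1_P2, q2_Z S y hz]
  module

include hx in
theorem Gam_q1 (v u : Euc n) : Gam S ℓ m1 m2 a1 a2 y v (q1 S y u)
    = ((1 - m1 (ta S y)) * p1 S y v u) • S.P1 y
      + ((a1 (ta S y) - 1) * th S y v) • q1 S y u := by
  simp only [Gam, th_q1 S y hx, et_q1, p1_q1 S y hx, p2_q1, q1_q1 S y hx, q2_q1]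
  module

include hz in
theorem Gam_q2 (v u : Euc n) : Gam S ℓ m1 m2 a1 a2 y v (q2 S y u)
    = (-(m2 (ta S y)) * p2 S y v u) • S.P1 y
      + (a2 (ta S y) * th S y v - et S y v) • q2 S y u + (p2 S y v u) • S.P2 y := by
  simp only [Gam, th_q2, et_q2 S y hz, p1_q2, p2_q2 S y hz, q1_q2, q2_q2 S y hz]
  module

end alg

end G3dAux

open G3dAux

/-- G3d. `∑ (Gam(v, Gam(e_i, w)))_i`.
PROOF. `Gam(u,w)` is, as a function of `u`, a sum of rank one operators (`θ(u)·`, `η(u)·`, `p1(u,w)·`, `p2(u,w)·`) and of `scalar • Π_j u`: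
`Gam(u,w) = [(ℓ-1)θ_uθ_w + (1-m1)p1(u,w) - m2 p2(u,w)] X + (a1-1)(θ_uΠ₁w + θ_wΠ₁u) + a2(θ_uΠ₂w + θ_wΠ₂u) - (η_uΠ₂w + η_wΠ₂u) - η_uη_w Z + p2(u,w) Z`.
Apply `Gam(v,·)` (linear) and take traces, using
`Gam(v,X) = (ℓ-1)θ_v X + (a1-1)Π₁v + a2Π₂v`, `Gam(v,Z) = -Π₂v - η_v Z`,
`Gam(v,Π₁u) = (1-m1)p1(v,u) X + (a1-1)θ_vΠ₁u`, `Gam(v,Π₂u) = -m2 p2(v,u) X + (a2θ_v - η_v)Π₂u + p2(v,u) Z`.
(Formula checked numerically.) -/
theorem trace_sq (S : Split n) (ℓ m1 m2 a1 a2 : ℝ → ℝ)
    (y : Euc n) (hx : S.P1 y ≠ 0) (hz : S.P2 y ≠ 0) (v w : Euc n) :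
    ∑ i, (Gam S ℓ m1 m2 a1 a2 y v (Gam S ℓ m1 m2 a1 a2 y (eb i) w)) i
      = th S y v * th S y w
          * ((ℓ (ta S y) - 1) ^ 2 + 2 * (a1 (ta S y) - 1) ^ 2 + 2 * a2 (ta S y) ^ 2)
        + p1 S y v w * (2 * (1 - m1 (ta S y)) * (a1 (ta S y) - 1))
        + p2 S y v w * (-2 * a2 (ta S y) * m2 (ta S y) - 2)
        + 3 * (et S y v * et S y w)
        - 2 * a2 (ta S y) * (th S y v * et S y w + et S y v * th S y w) := by
  have key : ∀ u, Gam S ℓ m1 m2 a1 a2 y v (Gam S ℓ m1 m2 a1 a2 y u w)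
      = th S y u • (((ℓ (ta S y) - 1) * th S y w) • Gam S ℓ m1 m2 a1 a2 y v (S.P1 y)
            + (a1 (ta S y) - 1) • Gam S ℓ m1 m2 a1 a2 y v (q1 S y w)
            + a2 (ta S y) • Gam S ℓ m1 m2 a1 a2 y v (q2 S y w))
        + et S y u • ((-1 : ℝ) • Gam S ℓ m1 m2 a1 a2 y v (q2 S y w)
            + (-et S y w) • Gam S ℓ m1 m2 a1 a2 y v (S.P2 y))
        + p1 S y w u • ((1 - m1 (ta S y)) • Gam S ℓ m1 m2 a1 a2 y v (S.P1 y))
        + p2 S y w u • ((-m2 (ta S y)) • Gam S ℓ m1 m2 a1 a2 y v (S.P1 y)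
            + Gam S ℓ m1 m2 a1 a2 y v (S.P2 y))
        + p1 S y v u • (((a1 (ta S y) - 1) * th S y w * (1 - m1 (ta S y))) • S.P1 y)
        + p2 S y v u • ((a2 (ta S y) * th S y w - et S y w) •
            ((-m2 (ta S y)) • S.P1 y + S.P2 y))
        + ((a1 (ta S y) - 1) ^ 2 * (th S y w * th S y v)) • q1 S y u
        + ((a2 (ta S y) * th S y w - et S y w) * (a2 (ta S y) * th S y v - et S y v))
            • q2 S y u := by
    intro u
    conv_lhs => rw [show Gam S ℓ m1 m2 a1 a2 y u w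
      = ((ℓ (ta S y) - 1) * th S y u * th S y w + (1 - m1 (ta S y)) * p1 S y u w
          - m2 (ta S y) * p2 S y u w) • S.P1 y
        + (a1 (ta S y) - 1) • (th S y u • q1 S y w + th S y w • q1 S y u)
        + a2 (ta S y) • (th S y u • q2 S y w + th S y w • q2 S y u)
        - (et S y u • q2 S y w + et S y w • q2 S y u) - (et S y u * et S y w) • S.P2 y
        + p2 S y u w • S.P2 y from rfl]
    simp only [Gam_add, Gam_sub, Gam_smul]
    rw [Gam_q1 S y hx ℓ m1 m2 a1 a2 v u, Gam_q2 S y hz ℓ m1 m2 a1 a2 v u,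
      p1_comm S y u w, p2_comm S y u w]
    module
  have h1 : ∑ i, (Gam S ℓ m1 m2 a1 a2 y v (Gam S ℓ m1 m2 a1 a2 y (eb i) w)) i
      = TR (fun u => Gam S ℓ m1 m2 a1 a2 y v (Gam S ℓ m1 m2 a1 a2 y u w)) := rfl
  rw [h1, funext key]
  simp only [TR_add, TR_smul, TR_th, TR_et, TR_p1, TR_p2]
  rw [show TR (q1 S y) = 2 from TR_q1 S y hx, show TR (q2 S y) = 2 from TR_q2 S y hz]
  simp only [Gam_X S y hx, Gam_Z S y hz, Gam_q1 S y hx, Gam_q2 S y hz,
    th_add, et_add, p1_add, p2_add, th_smul, et_smul, p1_smul, p2_smul,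
    th_X S y hx, th_Z, et_Z S y hz, et_X, th_q1 S y hx, th_q2, et_q2 S y hz,
    p1_X S y hx, p2_Z S y hz, p2_P1, p1_q1 S y hx, p2_q2 S y hz, p1_q2, p2_q1]
  rw [p1_comm S y w v, p2_comm S y w v]
  ring

end Pool.Agent.RS
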