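import Pool.Agent.Lib.MP_35abc2_gt.G2b_Christoffel
import Pool.Agent.Lib.MP_35abc2_gt.G3a_Div
import Pool.Agent.Lib.MP_35abc2_gt.G3b_Traces
import Pool.Agent.Lib.MP_35abc2_gt.G3d_Square

/-! # G4a: the Ricci tensor at X ≠ 0 (MP_35abc2_gt) -/

open scoped ContDiff Topology
open Set Filter Real

noncomputable section

namespace Pool.Agent.RS

variable {n : ℕ}

/-- derivative of `a S / L` -/
theorem G4a_dm {a S L : ℝ → ℝ} {a' s l τ : ℝ} (ha : HasDerivAt a a' τ)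
    (hS : HasDerivAt S (2 * s * S τ) τ) (hL : HasDerivAt L (2 * l * L τ) τ) (h0 : L τ ≠ 0) :
    HasDerivAt (fun t => a t * S t / L t) (S τ / L τ * (a' + 2 * s * a τ - 2 * l * a τ)) τ := by
  have h := (ha.mul hS).div hL h0
  refine h.congr_deriv ?_
  simp only [Pi.mul_apply]
  field_simp

/-- G4a. Ricci tensor at `X ≠ 0`.

PROOF. `ricci = ∑ (riemann y (eb i) v w)_i = TR1 - TR2' + TR3 - TR4` (G3), because `christoffel (gMet) z = Gam z` for all `z` near `y` (G2b and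
openness of `X ≠ 0, Z ≠ 0`).  `m1 = a1 Sf/Λ` has `m1' = (Sf/Λ)(a1' + 2a1² - 2ℓa1)`, similarly `m2`. `ring`. (Formula checked numerically.) -/
theorem ricci_frame (S : Split n) {α β A h : ℝ → ℝ} {X₀ : ℝ} (hp : Profile α β A h X₀)
    {Sf Λ B H ℓ a1 a2 h1 ℓ' a1' a2' h1' R : ℝ → ℝ}
    (hr : Radial α β A h Sf Λ B H ℓ a1 a2 h1 ℓ' a1' a2' h1' R) (y : Euc n) (hx : S.P1 y ≠ 0)
    (hz : S.P2 y ≠ 0) (v w : Euc n) :
    ricci (gMet S α β A) y v w =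
      (-2 * (a1' (ta S y) + a1 (ta S y) ^ 2 - ℓ (ta S y) * a1 (ta S y))
        - 2 * (a2' (ta S y) + a2 (ta S y) ^ 2 - ℓ (ta S y) * a2 (ta S y))) * (th S y v * th S y w)
      + (1 - Sf (ta S y) / Λ (ta S y) * (a1' (ta S y) + 2 * a1 (ta S y) ^ 2
          - ℓ (ta S y) * a1 (ta S y) + 2 * a1 (ta S y) * a2 (ta S y))) * p1 S y v w
      + (1 - B (ta S y) / Λ (ta S y) * (a2' (ta S y) + 2 * a2 (ta S y) ^ 2
          - ℓ (ta S y) * a2 (ta S y) + 2 * a1 (ta S y) * a2 (ta S y))) * p2 S y v w := by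
  set m1 : ℝ → ℝ := fun t => a1 t * Sf t / Λ t with hm1
  set m2 : ℝ → ℝ := fun t => a2 t * B t / Λ t with hm2
  have hΛ : Λ (ta S y) ≠ 0 := (hr.pΛ _).ne'
  have hy1 : ∀ v w, christoffel (gMet S α β A) y v w = Gam S ℓ m1 m2 a1 a2 y v w :=
    fun v w => christoffel_eq_Gam S hp hr y hx hz v w
  have hnx : ∀ᶠ z in 𝓝 y, S.P1 z ≠ 0 := S.P1.continuous.continuousAt.eventually_ne hx
  have hnz : ∀ᶠ z in 𝓝 y, S.P2 z ≠ 0 := S.P2.continuous.continuousAt.eventually_ne hz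
  have hy2 : ∀ v w, (fun z => christoffel (gMet S α β A) z v w)
      =ᶠ[𝓝 y] fun z => Gam S ℓ m1 m2 a1 a2 z v w := by
    intro v w
    filter_upwards [hnx, hnz] with z h4 h5
    exact christoffel_eq_Gam S hp hr z h4 h5 v w
  have d1 : HasDerivAt m1 (Sf (ta S y) / Λ (ta S y) * (a1' (ta S y)
      + 2 * a1 (ta S y) * a1 (ta S y) - 2 * ℓ (ta S y) * a1 (ta S y))) (ta S y) :=
    G4a_dm (hr.da1 _) (hr.dS _) (hr.dΛ _) hΛ
  have d2 : HasDerivAt m2 (B (ta S y) / Λ (ta S y) * (a2' (ta S y)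
      + 2 * a2 (ta S y) * a2 (ta S y) - 2 * ℓ (ta S y) * a2 (ta S y))) (ta S y) :=
    G4a_dm (hr.da2 _) (hr.dB _) (hr.dΛ _) hΛ
  have e1 := trace_div S ℓ m1 m2 a1 a2 ℓ'
    (fun t => Sf t / Λ t * (a1' t + 2 * a1 t * a1 t - 2 * ℓ t * a1 t))
    (fun t => B t / Λ t * (a2' t + 2 * a2 t * a2 t - 2 * ℓ t * a2 t)) a1' a2' y hx hz
    (hr.dℓ _) d1 d2 (hr.da1 _) (hr.da2 _) v w
  have e2 := trace_dGam S ℓ m1 m2 a1 a2 ℓ'
    (fun t => Sf t / Λ t * (a1' t + 2 * a1 t * a1 t - 2 * ℓ t * a1 t))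
    (fun t => B t / Λ t * (a2' t + 2 * a2 t * a2 t - 2 * ℓ t * a2 t)) a1' a2' y hx hz
    (hr.dℓ _) d1 d2 (hr.da1 _) (hr.da2 _) v w
  have e3 := trace_GamGam S ℓ m1 m2 a1 a2 y hx hz v w
  have e4 := trace_sq S ℓ m1 m2 a1 a2 y hx hz v w
  have e0 : ricci (gMet S α β A) y v w
      = ∑ i, (fderiv ℝ (fun z => Gam S ℓ m1 m2 a1 a2 z v w) y (eb i)) i
        - ∑ i, (fderiv ℝ (fun z => Gam S ℓ m1 m2 a1 a2 z (eb i) w) y v) i
        + ∑ i, (Gam S ℓ m1 m2 a1 a2 y (eb i) (Gam S ℓ m1 m2 a1 a2 y v w)) i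
        - ∑ i, (Gam S ℓ m1 m2 a1 a2 y v (Gam S ℓ m1 m2 a1 a2 y (eb i) w)) i := by
    rw [← Finset.sum_sub_distrib, ← Finset.sum_add_distrib, ← Finset.sum_sub_distrib]
    unfold ricci
    refine Finset.sum_congr rfl fun i _ => ?_
    unfold riemann
    rw [(hy2 v w).fderiv_eq, (hy2 (eb i) w).fderiv_eq, hy1 v w, hy1 (eb i) w, hy1, hy1]
    simp only [PiLp.add_apply, PiLp.sub_apply]
  rw [e0, e1, e2, e3, e4]
  simp only [hm1, hm2]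
  field_simp
  ring

end Pool.Agent.RS
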