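import Pool.Agent.Lib.MP_35abc2_gt.G2b_Christoffel

/-! # G4b: the Hessian at X ≠ 0 (MP_35abc2_gt) -/

open scoped ContDiff Topology
open Set Filter Real

noncomputable section

namespace Pool.Agent.RS

variable {n : ℕ}

lemma G4b_xx_pos (S : Split n) {y : Euc n} (hx : S.P1 y ≠ 0) : 0 < xx S y :=
  real_inner_self_pos.2 hx

lemma G4b_ze_pos (S : Split n) {y : Euc n} (hz : S.P2 y ≠ 0) : 0 < ze S y :=
  real_inner_self_pos.2 hz

lemma G4b_th_add (S : Split n) (y a b : Euc n) : th S y (a + b) = th S y a + th S y b := by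
  unfold th
  rw [inner_add_right, add_div]

lemma G4b_th_sub (S : Split n) (y a b : Euc n) : th S y (a - b) = th S y a - th S y b := by
  unfold th
  rw [inner_sub_right, sub_div]

lemma G4b_th_smul (S : Split n) (y a : Euc n) (c : ℝ) : th S y (c • a) = c * th S y a := by
  unfold th
  rw [real_inner_smul_right, mul_div_assoc]

lemma G4b_et_add (S : Split n) (y a b : Euc n) : et S y (a + b) = et S y a + et S y b := by
  unfold et
  rw [inner_add_right, add_div]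

lemma G4b_et_sub (S : Split n) (y a b : Euc n) : et S y (a - b) = et S y a - et S y b := by
  unfold et
  rw [inner_sub_right, sub_div]

lemma G4b_et_smul (S : Split n) (y a : Euc n) (c : ℝ) : et S y (c • a) = c * et S y a := by
  unfold et
  rw [real_inner_smul_right, mul_div_assoc]

lemma G4b_th_P1 (S : Split n) (y a : Euc n) : th S y (S.P1 a) = th S y a := by
  unfold th
  rw [← S.s1, S.i11]

lemma G4b_th_P2 (S : Split n) (y a : Euc n) : th S y (S.P2 a) = 0 := by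
  unfold th
  rw [← S.s2, S.i21, inner_zero_left, zero_div]

lemma G4b_et_P2 (S : Split n) (y a : Euc n) : et S y (S.P2 a) = et S y a := by
  unfold et
  rw [← S.s2, S.i22]

lemma G4b_et_P1 (S : Split n) (y a : Euc n) : et S y (S.P1 a) = 0 := by
  unfold et
  rw [← S.s1, S.i12, inner_zero_left, zero_div]

lemma G4b_th_X (S : Split n) {y : Euc n} (hx : S.P1 y ≠ 0) : th S y (S.P1 y) = 1 := by
  unfold th
  exact div_self (G4b_xx_pos S hx).ne'

lemma G4b_et_Z (S : Split n) {y : Euc n} (hz : S.P2 y ≠ 0) : et S y (S.P2 y) = 1 := by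
  unfold et
  exact div_self (G4b_ze_pos S hz).ne'

lemma G4b_th_q1 (S : Split n) {y : Euc n} (hx : S.P1 y ≠ 0) (v : Euc n) :
    th S y (q1 S y v) = 0 := by
  unfold q1
  rw [G4b_th_sub, G4b_th_P1, G4b_th_smul, G4b_th_X S hx, mul_one, sub_self]

lemma G4b_th_q2 (S : Split n) (y v : Euc n) : th S y (q2 S y v) = 0 := by
  unfold q2
  rw [G4b_th_sub, G4b_th_P2, G4b_th_smul, G4b_th_P2, mul_zero, sub_self]

lemma G4b_et_q2 (S : Split n) {y : Euc n} (hz : S.P2 y ≠ 0) (v : Euc n) :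
    et S y (q2 S y v) = 0 := by
  unfold q2
  rw [G4b_et_sub, G4b_et_P2, G4b_et_smul, G4b_et_Z S hz, mul_one, sub_self]

lemma G4b_et_q1 (S : Split n) (y v : Euc n) : et S y (q1 S y v) = 0 := by
  unfold q1
  rw [G4b_et_sub, G4b_et_P1, G4b_et_smul, G4b_et_P1, mul_zero, sub_self]

lemma G4b_i3_P1 (S : Split n) (y a : Euc n) : inner ℝ (S.P3 y) (S.P1 a) = (0 : ℝ) := by
  rw [← S.s1, S.i13, inner_zero_left]

lemma G4b_i3_P2 (S : Split n) (y a : Euc n) : inner ℝ (S.P3 y) (S.P2 a) = (0 : ℝ) := by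
  rw [← S.s2, S.i23, inner_zero_left]

lemma G4b_i3_q1 (S : Split n) (y z v : Euc n) : inner ℝ (S.P3 z) (q1 S y v) = (0 : ℝ) := by
  unfold q1
  rw [inner_sub_right, real_inner_smul_right, G4b_i3_P1, G4b_i3_P1, mul_zero, sub_self]

lemma G4b_i3_q2 (S : Split n) (y z v : Euc n) : inner ℝ (S.P3 z) (q2 S y v) = (0 : ℝ) := by
  unfold q2
  rw [inner_sub_right, real_inner_smul_right, G4b_i3_P2, G4b_i3_P2, mul_zero, sub_self]

/-- derivative of `log ζ` -/
lemma G4b_dlog (S : Split n) {y : Euc n} (hz : S.P2 y ≠ 0) :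
    ∃ L : Euc n →L[ℝ] ℝ, HasFDerivAt (fun z => log (ze S z)) L y ∧ ∀ v, L v = 2 * et S y v := by
  have h0 : HasFDerivAt (fun z => S.P2 z) S.P2 y := S.P2.hasFDerivAt
  have h1 := (h0.inner ℝ h0).log (G4b_ze_pos S hz).ne'
  refine ⟨_, h1, fun v => ?_⟩
  have e1 : inner ℝ (S.P2 y) (S.P2 v) = (inner ℝ (S.P2 y) v : ℝ) := by
    rw [← S.s2, S.i22]
  simp only [smul_apply, ContinuousLinearMap.comp_apply, ContinuousLinearMap.prod_apply,
    fderivInnerCLM_apply, smul_eq_mul]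
  rw [real_inner_comm (S.P2 y) (S.P2 v), e1]
  unfold et ze
  ring

/-- derivative of `|P₃|²` -/
lemma G4b_d3 (S : Split n) (y : Euc n) :
    ∃ L : Euc n →L[ℝ] ℝ, HasFDerivAt (fun z => (inner ℝ (S.P3 z) (S.P3 z) : ℝ)) L y ∧
      ∀ v, L v = 2 * inner ℝ (S.P3 y) v := by
  have h0 : HasFDerivAt (fun z => S.P3 z) S.P3 y := S.P3.hasFDerivAt
  have h1 := h0.inner ℝ h0
  refine ⟨_, h1, fun v => ?_⟩
  have e1 : inner ℝ (S.P3 y) (S.P3 v) = (inner ℝ (S.P3 y) v : ℝ) := by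
    rw [← S.s3, S.i33]
  simp only [ContinuousLinearMap.comp_apply, ContinuousLinearMap.prod_apply,
    fderivInnerCLM_apply]
  rw [real_inner_comm (S.P3 y) (S.P3 v), e1]
  ring

lemma G4b_df (S : Split n) {α β A h : ℝ → ℝ}
    {Sf Λ B H ℓ a1 a2 h1 ℓ' a1' a2' h1' R : ℝ → ℝ}
    (hr : Radial α β A h Sf Λ B H ℓ a1 a2 h1 ℓ' a1' a2' h1' R) (y : Euc n) (hx : S.P1 y ≠ 0)
    (hz : S.P2 y ≠ 0) (w : Euc n) :
    fderiv ℝ (fPot S h) y w = h1 (ta S y) * th S y w + log (ze S y) / 4 * et S y w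
      + 1 / 2 * inner ℝ (S.P3 y) w := by
  obtain ⟨L2, hL2, eL2⟩ := G4b_dlog S hz
  obtain ⟨L3, hL3, eL3⟩ := G4b_d3 S y
  have ht := (d_ta S y hx).1.hasFDerivAt
  have e1 : HasFDerivAt (fun z => H (ta S z)) (h1 (ta S y) • fderiv ℝ (fun z => ta S z) y) y :=
    (hr.dH (ta S y)).comp_hasFDerivAt y ht
  have hs : HasFDerivAt (fun z => H (ta S z) + log (ze S z) * log (ze S z) * (1 / 16)
      + inner ℝ (S.P3 z) (S.P3 z) * (1 / 4)) _ y :=
    (e1.fun_add ((hL2.fun_mul hL2).mul_const (1 / 16))).fun_add (hL3.mul_const (1 / 4))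
  have hev : fPot S h =ᶠ[𝓝 y] (fun z => H (ta S z) + log (ze S z) * log (ze S z) * (1 / 16)
      + inner ℝ (S.P3 z) (S.P3 z) * (1 / 4)) := by
    have o1 : ∀ᶠ z in 𝓝 y, S.P1 z ≠ 0 :=
      S.P1.continuous.continuousAt.eventually_ne hx
    filter_upwards [o1] with z h1
    unfold fPot
    have e : Real.exp (2 * ta S z) = xx S z := by
      unfold ta
      rw [mul_div_cancel₀ _ (two_ne_zero), Real.exp_log (G4b_xx_pos S h1)]
    rw [hr.eH, e]
    ring
  rw [(hs.congr_of_eventuallyEq hev).fderiv]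
  simp only [add_apply, smul_apply, smul_eq_mul, (d_ta S y hx).2, eL2, eL3]
  ring

/-- G4b. Hessian of the potential at `X ≠ 0`.

PROOF. Near `y`, `fPot = H(τ) + (log ζ)²/16 + |P₃y|²/4`, `df(w) = h1(τ) θ(w) + (log ζ/4) η(w) + ½⟨P₃y, w⟩`;
`D_v df(w) = h1' θvθw + h1 (p1 - θvθw) + ½ηvηw + (log ζ/4)(p2 - ηvηw) + ½⟨P₃v,w⟩`, and
`df(Gam(v,w)) = h1 ((ℓ-1)θvθw + (1-m1)p1 - m2 p2) + (log ζ/4)(p2 - ηvηw)` (`P₃ Gam = 0`). -/
theorem hess_frame (S : Split n) {α β A h : ℝ → ℝ} {X₀ : ℝ} (hp : Profile α β A h X₀)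
    {Sf Λ B H ℓ a1 a2 h1 ℓ' a1' a2' h1' R : ℝ → ℝ}
    (hr : Radial α β A h Sf Λ B H ℓ a1 a2 h1 ℓ' a1' a2' h1' R) (y : Euc n) (hx : S.P1 y ≠ 0)
    (hz : S.P2 y ≠ 0) (v w : Euc n) :
    hess (gMet S α β A) (fPot S h) y v w =
      (h1' (ta S y) - ℓ (ta S y) * h1 (ta S y)) * (th S y v * th S y w)
      + a1 (ta S y) * Sf (ta S y) / Λ (ta S y) * h1 (ta S y) * p1 S y v w
      + a2 (ta S y) * B (ta S y) / Λ (ta S y) * h1 (ta S y) * p2 S y v w
      + 1 / 2 * (et S y v * et S y w) + 1 / 2 * inner ℝ (S.P3 v) w := by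
  obtain ⟨L2, hL2, eL2⟩ := G4b_dlog S hz
  have ht := (d_ta S y hx).1.hasFDerivAt
  have e1 : HasFDerivAt (fun z => h1 (ta S z)) (h1' (ta S y) • fderiv ℝ (fun z => ta S z) y) y :=
    (hr.dh1 (ta S y)).comp_hasFDerivAt y ht
  have f1 := (d_th S y hx w).1.hasFDerivAt
  have f2 := (d_et S y hz w).1.hasFDerivAt
  have h3 : HasFDerivAt (fun z => (inner ℝ (S.P3 z) w : ℝ))
      ((fderivInnerCLM ℝ (S.P3 y, w)).comp (S.P3.prod 0)) y := by
    have h0 : HasFDerivAt (fun z => S.P3 z) S.P3 y := S.P3.hasFDerivAt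
    exact h0.inner ℝ (hasFDerivAt_const w y)
  have hs : HasFDerivAt (fun z => h1 (ta S z) * th S z w + log (ze S z) / 4 * et S z w
      + 1 / 2 * inner ℝ (S.P3 z) w) _ y :=
    ((e1.fun_mul f1).fun_add ((hL2.mul_const (4⁻¹)).fun_mul f2)).fun_add (h3.const_mul (1 / 2))
  have hev : (fun z => fderiv ℝ (fPot S h) z w) =ᶠ[𝓝 y]
      (fun z => h1 (ta S z) * th S z w + log (ze S z) / 4 * et S z w
      + 1 / 2 * inner ℝ (S.P3 z) w) := by
    have o1 : ∀ᶠ z in 𝓝 y, S.P1 z ≠ 0 :=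
      S.P1.continuous.continuousAt.eventually_ne hx
    have o2 : ∀ᶠ z in 𝓝 y, S.P2 z ≠ 0 :=
      S.P2.continuous.continuousAt.eventually_ne hz
    filter_upwards [o1, o2] with z h1 h2
    exact G4b_df S hr z h1 h2 w
  unfold hess
  rw [(hs.congr_of_eventuallyEq hev).fderiv, christoffel_eq_Gam S hp hr y hx hz,
    G4b_df S hr y hx hz]
  have g1 : th S y (Gam S ℓ (fun t => a1 t * Sf t / Λ t) (fun t => a2 t * B t / Λ t) a1 a2 y v w)
      = (ℓ (ta S y) - 1) * (th S y v * th S y w)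
      + (1 - a1 (ta S y) * Sf (ta S y) / Λ (ta S y)) * p1 S y v w
      - a2 (ta S y) * B (ta S y) / Λ (ta S y) * p2 S y v w := by
    simp only [Gam, G4b_th_add, G4b_th_sub, G4b_th_smul, G4b_th_X S hx, G4b_th_q1 S hx, G4b_th_q2,
      G4b_th_P2]
    ring
  have g2 : et S y (Gam S ℓ (fun t => a1 t * Sf t / Λ t) (fun t => a2 t * B t / Λ t) a1 a2 y v w)
      = p2 S y v w - et S y v * et S y w := by
    simp only [Gam, G4b_et_add, G4b_et_sub, G4b_et_smul, G4b_et_Z S hz, G4b_et_q2 S hz, G4b_et_q1,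
      G4b_et_P1]
    ring
  have g3 : inner ℝ (S.P3 y)
      (Gam S ℓ (fun t => a1 t * Sf t / Λ t) (fun t => a2 t * B t / Λ t) a1 a2 y v w)
      = (0 : ℝ) := by
    simp only [Gam, inner_add_right, inner_sub_right, real_inner_smul_right, G4b_i3_q1, G4b_i3_q2,
      G4b_i3_P1, G4b_i3_P2]
    ring
  rw [g1, g2, g3]
  simp only [add_apply, smul_apply, smul_eq_mul, (d_ta S y hx).2, (d_th S y hx w).2,
    (d_et S y hz w).2, eL2, ContinuousLinearMap.comp_apply, ContinuousLinearMap.prod_apply,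
    fderivInnerCLM_apply, zero_apply, inner_zero_right]
  ring

end Pool.Agent.RS
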