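import Pool.Agent.Lib.MP_35abc2_gt.G4a_Ricci
import Pool.Agent.Lib.MP_35abc2_gt.G4b_Hess

/-! # G4c: the soliton equation at X ≠ 0 (MP_35abc2_gt) -/

open scoped ContDiff Topology
open Set Filter Real

noncomputable section

namespace Pool.Agent.RS

variable {n : ℕ}

/-- G4c. The soliton equation at `X ≠ 0`: G4a + G4b + I1, I2, I3 + `gMet_frame`. -/
theorem soliton_frame (S : Split n) {α β A h : ℝ → ℝ} {X₀ : ℝ} (hp : Profile α β A h X₀)
    {Sf Λ B H ℓ a1 a2 h1 ℓ' a1' a2' h1' R : ℝ → ℝ}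
    (hr : Radial α β A h Sf Λ B H ℓ a1 a2 h1 ℓ' a1' a2' h1' R) (y : Euc n) (hx : S.P1 y ≠ 0)
    (hz : S.P2 y ≠ 0) (v w : Euc n) :
    ricci (gMet S α β A) y v w + hess (gMet S α β A) (fPot S h) y v w
      = 1 / 2 * gMet S α β A y v w := by
  rw [ricci_frame S hp hr y hx hz v w, hess_frame S hp hr y hx hz v w,
    gMet_frame S hr y hx hz v w]
  have hI1 := hr.I1 (ta S y)
  have hI2 := hr.I2 (ta S y)
  have hI3 := hr.I3 (ta S y)
  linear_combination (th S y v * th S y w) * hI1 + p1 S y v w * hI2 + p2 S y v w * hI3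

end Pool.Agent.RS
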