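import Pool.Agent.Lib.MP_35abc2_gt.Chr

/-! # G5a: continuity of curvature (MP_35abc2_gt) -/

open scoped ContDiff Topology
open Set Filter Real

noncomputable section

namespace Pool.Agent.RS

variable {n : ℕ}

theorem G5a_app {X F F' : Type*} [TopologicalSpace X] [NormedAddCommGroup F] [NormedSpace ℝ F]
    [NormedAddCommGroup F'] [NormedSpace ℝ F'] {g : X → F →L[ℝ] F'} {U : Set X}
    (h : ContinuousOn g U) (a : F) : ContinuousOn (fun y => g y a) U :=
  h.clm_apply continuousOn_const

/-- the Riemann tensor through a smooth field of Christoffel symbols -/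
theorem G5a_riemann {G : Euc n → Form2 (Euc n)} {U : Set (Euc n)} (hU : IsOpen U)
    {Γ : Euc n → Euc n →L[ℝ] Euc n →L[ℝ] Euc n} (hΓ : ContDiffOn ℝ ∞ Γ U)
    (he : ∀ y ∈ U, ∀ u v, Γ y u v = christoffel G y u v) {y : Euc n} (hy : y ∈ U) (u v w : Euc n) :
    riemann G y u v w = fderiv ℝ Γ y u v w - fderiv ℝ Γ y v u w + Γ y u (Γ y v w)
      - Γ y v (Γ y u w) := by
  have hd : DifferentiableAt ℝ Γ y :=
    (hΓ.contDiffAt (hU.mem_nhds hy)).differentiableAt (by simp)
  have key : ∀ a b c : Euc n, fderiv ℝ (fun z => christoffel G z a b) y c = fderiv ℝ Γ y c a b := by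
    intro a b c
    have h1 : (fun z => christoffel G z a b) =ᶠ[𝓝 y] fun z => Γ z a b := by
      filter_upwards [hU.mem_nhds hy] with z hz
      exact (he z hz a b).symm
    rw [h1.fderiv_eq]
    have h2 := (hd.hasFDerivAt.clm_apply (hasFDerivAt_const a y)).clm_apply
      (hasFDerivAt_const b y)
    rw [h2.fderiv]
    simp
  unfold riemann
  rw [key, key, he y hy, he y hy, he y hy, he y hy]

theorem G5a_ricci (G : Euc n → Form2 (Euc n)) (U : Set (Euc n))
    (hU : IsOpen U) (hG : ContDiffOn ℝ ∞ G U) (hpd : ∀ y ∈ U, ∀ v, v ≠ 0 → 0 < G y v v)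
    (v w : Euc n) : ContinuousOn (fun y => ricci G y v w) U := by
  obtain ⟨Γ, hΓ, he⟩ := exists_christoffelCLM hU hG hpd
  have h1 : ContinuousOn Γ U := hΓ.continuousOn
  have h2 : ContinuousOn (fderiv ℝ Γ) U := hΓ.continuousOn_fderiv_of_isOpen hU (by simp)
  unfold ricci
  refine continuousOn_finsetSum _ fun i _ => ?_
  have h3 : ContinuousOn (fun y => fderiv ℝ Γ y (eb i) v w - fderiv ℝ Γ y v (eb i) w
      + Γ y (eb i) (Γ y v w) - Γ y v (Γ y (eb i) w)) U := by
    have a0 : ∀ a b c : Euc n, ContinuousOn (fun y => fderiv ℝ Γ y a b c) U := by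
      intro a b c
      exact G5a_app (G5a_app (G5a_app h2 a) b) c
    have a1 := a0 (eb i) v w
    have a2 := a0 v (eb i) w
    have a3 := (h1.clm_apply (continuousOn_const (c := v))).clm_apply
      (continuousOn_const (c := w))
    have a4 := (h1.clm_apply (continuousOn_const (c := eb i))).clm_apply
      (continuousOn_const (c := w))
    exact ((a1.sub a2).add ((h1.clm_apply (continuousOn_const (c := eb i))).clm_apply a3)).sub
      ((h1.clm_apply (continuousOn_const (c := v))).clm_apply a4)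
  have h4 : ContinuousOn (fun y => riemann G y (eb i) v w) U :=
    h3.congr fun y hy => G5a_riemann hU hΓ he hy _ _ _
  exact (EuclideanSpace.proj i : Euc n →L[ℝ] ℝ).continuous.comp_continuousOn h4

theorem G5a_hess (G : Euc n → Form2 (Euc n)) (f : Euc n → ℝ) (U : Set (Euc n))
    (hU : IsOpen U) (hG : ContDiffOn ℝ ∞ G U) (hpd : ∀ y ∈ U, ∀ v, v ≠ 0 → 0 < G y v v)
    (hf : ContDiffOn ℝ ∞ f U) (v w : Euc n) : ContinuousOn (fun y => hess G f y v w) U := by
  obtain ⟨Γ, hΓ, he⟩ := exists_christoffelCLM hU hG hpd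
  have h1 : ContinuousOn Γ U := hΓ.continuousOn
  have h2 : ContDiffOn ℝ ∞ (fderiv ℝ f) U := hf.fderiv_of_isOpen hU (by simp)
  have h3 : ContDiffOn ℝ ∞ (fun z => fderiv ℝ f z w) U := h2.clm_apply contDiffOn_const
  have h4 : ContinuousOn (fderiv ℝ (fun z => fderiv ℝ f z w)) U :=
    h3.continuousOn_fderiv_of_isOpen hU (by simp)
  have h5 : ContinuousOn (fun y => Γ y v w) U :=
    (h1.clm_apply (continuousOn_const (c := v))).clm_apply (continuousOn_const (c := w))
  have h6 : ContinuousOn (fun y => fderiv ℝ (fun z => fderiv ℝ f z w) y v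
      - fderiv ℝ f y (Γ y v w)) U :=
    (h4.clm_apply (continuousOn_const (c := v))).sub (h2.continuousOn.clm_apply h5)
  refine h6.congr fun y hy => ?_
  simp only [hess, he y hy]

theorem G5a_inverse (G : Euc n → Form2 (Euc n)) (U : Set (Euc n))
    (hG : ContDiffOn ℝ ∞ G U) (hpd : ∀ y ∈ U, ∀ v, v ≠ 0 → 0 < G y v v) :
    ContinuousOn (fun y => (G y).inverse) U := by
  have : CompleteSpace (Euc n) := FiniteDimensional.complete ℝ (Euc n)
  intro y hy
  obtain ⟨e, he⟩ := chr_equiv (G y) (hpd y hy)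
  have h3 : ContDiffAt ℝ ∞ ContinuousLinearMap.inverse (G y) := by
    rw [← he]
    exact contDiffAt_map_inverse e
  exact (h3.comp_contDiffWithinAt y (hG y hy)).continuousWithinAt

/-- G5. For a smooth positive definite metric on an open set, Ricci, Hessian and scalar curvature are continuous.

PROOF. `exists_christoffelCLM`: `christoffel G y u v = Γ y u v` on `U` with `Γ` smooth, so
`fderiv (fun z => christoffel G z v w) y u = (fderiv Γ y u) v w` on `U` (eventual equality) is continuous in `y`; hence `riemann G y u v w` is continuous on `U`, so is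
`ricci`.  `hess`: `f` smooth.  `scal`: `y ↦ (G y).inverse` is continuous on `U` (as in the proof of `exists_christoffelCLM`). -/
theorem curvature_continuous (G : Euc n → Form2 (Euc n)) (f : Euc n → ℝ) (U : Set (Euc n))
    (hU : IsOpen U) (hG : ContDiffOn ℝ ∞ G U) (hpd : ∀ y ∈ U, ∀ v, v ≠ 0 → 0 < G y v v)
    (hf : ContDiffOn ℝ ∞ f U) :
    (∀ v w, ContinuousOn (fun y => ricci G y v w) U) ∧
    (∀ v w, ContinuousOn (fun y => hess G f y v w) U) ∧
    ContinuousOn (fun y => scal G y) U := by
  refine ⟨fun v w => G5a_ricci G U hU hG hpd v w, fun v w => G5a_hess G f U hU hG hpd hf v w, ?_⟩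
  unfold scal
  refine continuousOn_finsetSum _ fun i _ => continuousOn_finsetSum _ fun j _ => ?_
  refine ContinuousOn.mul ?_ (G5a_ricci G U hU hG hpd _ _)
  have h1 := (G5a_inverse G U hG hpd).clm_apply
    (continuousOn_const (c := (EuclideanSpace.proj i : Euc n →L[ℝ] ℝ)))
  exact (EuclideanSpace.proj j : Euc n →L[ℝ] ℝ).continuous.comp_continuousOn h1

end Pool.Agent.RS
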