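import Pool.Agent.Lib.MP_35abc2_gt.Chr

/-! # G5b: metric traces (MP_35abc2_gt) -/

open scoped ContDiff Topology
open Set Filter Real

noncomputable section

namespace Pool.Agent.RS

variable {n : ℕ}

/-- Trace of a bilinear form `G(L·,·)` with respect to `G` is the trace of `L`.
PROOF. `G(L e_i, e_j) = ∑_k L_{ki} G(e_k,e_j)`, and `∑_j invMetric i j G(e_k, e_j) = G(e_k, G⁻¹ dx^i) = dx^i(e_k) = δ_{ik}` (symmetry). -/
theorem metric_trace (G : Euc n → Form2 (Euc n)) (y : Euc n) (hpd : ∀ v, v ≠ 0 → 0 < G y v v)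
    (hs : ∀ v w, G y v w = G y w v) (L : Euc n →ₗ[ℝ] Euc n) :
    ∑ i, ∑ j, invMetric G y i j * G y (L (eb i)) (eb j) = ∑ i, (L (eb i)) i := by
  refine Finset.sum_congr rfl fun i _ => ?_
  set u : Euc n := (G y).inverse (EuclideanSpace.proj i : Euc n →L[ℝ] ℝ) with hu
  have h1 : G y u = (EuclideanSpace.proj i : Euc n →L[ℝ] ℝ) := chr_apply_inverse (G y) hpd _
  have h2 : (∑ j, u j • eb j : Euc n) = u := by
    ext k
    simp [eb, Finset.sum_apply, Pi.single_apply]
  have h3 : ∑ j, u j * G y (L (eb i)) (eb j) = G y (L (eb i)) u := by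
    conv_rhs => rw [← h2]
    rw [map_sum]
    refine Finset.sum_congr rfl fun j _ => ?_
    rw [map_smul, smul_eq_mul]
  calc ∑ j, invMetric G y i j * G y (L (eb i)) (eb j)
      = ∑ j, u j * G y (L (eb i)) (eb j) := rfl
    _ = G y (L (eb i)) u := h3
    _ = G y u (L (eb i)) := hs _ _
    _ = (L (eb i)) i := by rw [h1]; rfl

end Pool.Agent.RS
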