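import Pool.Agent.Lib.MP_35abc2_gt.G4c_Soliton
import Pool.Agent.Lib.MP_35abc2_gt.G5b_Trace

/-! # G6a: scalar curvature at X ≠ 0 (MP_35abc2_gt) -/

open scoped ContDiff Topology
open Set Filter Real

noncomputable section

namespace Pool.Agent.RS

variable {n : ℕ}

namespace G6aAux

section alg
variable (S : Split n) (y : Euc n)

theorem ip11 (v w : Euc n) : (inner ℝ (S.P1 v) (S.P1 w) : ℝ) = inner ℝ (S.P1 v) w := by
  rw [S.s1 v (S.P1 w), S.i11 w, ← S.s1 v w]
theorem ip22 (v w : Euc n) : (inner ℝ (S.P2 v) (S.P2 w) : ℝ) = inner ℝ (S.P2 v) w := by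
  rw [S.s2 v (S.P2 w), S.i22 w, ← S.s2 v w]
theorem ip12 (v w : Euc n) : (inner ℝ (S.P1 v) (S.P2 w) : ℝ) = 0 := by
  rw [S.s1 v (S.P2 w), S.i12 w, inner_zero_right]
theorem ip21 (v w : Euc n) : (inner ℝ (S.P2 v) (S.P1 w) : ℝ) = 0 := by
  rw [S.s2 v (S.P1 w), S.i21 w, inner_zero_right]
theorem ip13 (v w : Euc n) : (inner ℝ (S.P1 v) (S.P3 w) : ℝ) = 0 := by
  rw [S.s1 v (S.P3 w), S.i13 w, inner_zero_right]
theorem ip23 (v w : Euc n) : (inner ℝ (S.P2 v) (S.P3 w) : ℝ) = 0 := by
  rw [S.s2 v (S.P3 w), S.i23 w, inner_zero_right]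

theorem th_add (v w : Euc n) : th S y (v + w) = th S y v + th S y w := by
  simp only [th, inner_add_right]; ring
theorem th_sub (v w : Euc n) : th S y (v - w) = th S y v - th S y w := by
  simp only [th, inner_sub_right]; ring
theorem th_smul (c : ℝ) (v : Euc n) : th S y (c • v) = c * th S y v := by
  simp only [th, inner_smul_right]; ring
theorem et_add (v w : Euc n) : et S y (v + w) = et S y v + et S y w := by
  simp only [et, inner_add_right]; ring
theorem et_sub (v w : Euc n) : et S y (v - w) = et S y v - et S y w := by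
  simp only [et, inner_sub_right]; ring
theorem et_smul (c : ℝ) (v : Euc n) : et S y (c • v) = c * et S y v := by
  simp only [et, inner_smul_right]; ring

theorem q1_add (v w : Euc n) : q1 S y (v + w) = q1 S y v + q1 S y w := by
  simp only [q1, map_add, th_add]; module
theorem q1_smul (c : ℝ) (v : Euc n) : q1 S y (c • v) = c • q1 S y v := by
  simp only [q1, map_smul, th_smul]; module
theorem q2_add (v w : Euc n) : q2 S y (v + w) = q2 S y v + q2 S y w := by
  simp only [q2, map_add, et_add]; module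
theorem q2_smul (c : ℝ) (v : Euc n) : q2 S y (c • v) = c • q2 S y v := by
  simp only [q2, map_smul, et_smul]; module

variable (hx : S.P1 y ≠ 0) (hz : S.P2 y ≠ 0)

include hx in
theorem th_X : th S y (S.P1 y) = 1 := by
  have h0 : xx S y ≠ 0 := by
    unfold xx
    rw [ne_eq, inner_self_eq_zero]
    exact hx
  unfold th
  rw [show (inner ℝ (S.P1 y) (S.P1 y) : ℝ) = xx S y from rfl]
  field_simp
include hz in
theorem et_Z : et S y (S.P2 y) = 1 := by
  have h0 : ze S y ≠ 0 := by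
    unfold ze
    rw [ne_eq, inner_self_eq_zero]
    exact hz
  unfold et
  rw [show (inner ℝ (S.P2 y) (S.P2 y) : ℝ) = ze S y from rfl]
  field_simp

theorem th_P1 (v : Euc n) : th S y (S.P1 v) = th S y v := by
  unfold th
  rw [ip11]
theorem th_P2 (v : Euc n) : th S y (S.P2 v) = 0 := by
  unfold th
  rw [ip12]
  simp
theorem th_P3 (v : Euc n) : th S y (S.P3 v) = 0 := by
  unfold th
  rw [ip13]
  simp
theorem et_P1 (v : Euc n) : et S y (S.P1 v) = 0 := by
  unfold et
  rw [ip21]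
  simp
theorem et_P2 (v : Euc n) : et S y (S.P2 v) = et S y v := by
  unfold et
  rw [ip22]
theorem et_P3 (v : Euc n) : et S y (S.P3 v) = 0 := by
  unfold et
  rw [ip23]
  simp

include hx in
theorem th_q1 (v : Euc n) : th S y (q1 S y v) = 0 := by
  rw [q1, th_sub, th_smul, th_P1, th_X S y hx]
  ring
theorem th_q2 (v : Euc n) : th S y (q2 S y v) = 0 := by
  rw [q2, th_sub, th_smul, th_P2, th_P2]
  ring
include hz in
theorem et_q2 (v : Euc n) : et S y (q2 S y v) = 0 := by
  rw [q2, et_sub, et_smul, et_P2, et_Z S y hz]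
  ring
theorem et_q1 (v : Euc n) : et S y (q1 S y v) = 0 := by
  rw [q1, et_sub, et_smul, et_P1, et_P1]
  ring

/-! first argument of p1, p2 -/

include hx in
theorem p1_X (w : Euc n) : p1 S y (S.P1 y) w = 0 := by
  unfold p1
  rw [th_X S y hx, S.i11]
  unfold th
  ring
theorem p1_P2 (v w : Euc n) : p1 S y (S.P2 v) w = 0 := by
  unfold p1
  rw [th_P2, S.i12]
  simp
theorem p1_P3 (v w : Euc n) : p1 S y (S.P3 v) w = 0 := by
  unfold p1
  rw [th_P3, S.i13]
  simp
theorem p2_P1 (v w : Euc n) : p2 S y (S.P1 v) w = 0 := by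
  unfold p2
  rw [et_P1, S.i21]
  simp
theorem p2_P3 (v w : Euc n) : p2 S y (S.P3 v) w = 0 := by
  unfold p2
  rw [et_P3, S.i23]
  simp
include hz in
theorem p2_Z (w : Euc n) : p2 S y (S.P2 y) w = 0 := by
  unfold p2
  rw [et_Z S y hz, S.i22]
  unfold et
  ring

include hx in
theorem p1_q1 (v w : Euc n) : p1 S y (q1 S y v) w = p1 S y v w := by
  unfold p1
  rw [th_q1 S y hx, q1, map_sub, map_smul, S.i11, S.i11, inner_sub_left, inner_smul_left]
  simp only [conj_trivial]
  unfold th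
  ring
theorem p1_q2 (v w : Euc n) : p1 S y (q2 S y v) w = 0 := by
  unfold p1
  rw [th_q2, q2, map_sub, map_smul, S.i12, S.i12]
  simp
include hz in
theorem p2_q2 (v w : Euc n) : p2 S y (q2 S y v) w = p2 S y v w := by
  unfold p2
  rw [et_q2 S y hz, q2, map_sub, map_smul, S.i22, S.i22, inner_sub_left, inner_smul_left]
  simp only [conj_trivial]
  unfold et
  ring
theorem p2_q1 (v w : Euc n) : p2 S y (q1 S y v) w = 0 := by
  unfold p2
  rw [et_q1, q1, map_sub, map_smul, S.i21, S.i21]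
  simp

/-! traces -/

/-- trace of a map -/
def TR (f : Euc n → Euc n) : ℝ := ∑ i, (f (eb i)) i

theorem TR_add (f g : Euc n → Euc n) : TR (fun u => f u + g u) = TR f + TR g := by
  simp [TR, Finset.sum_add_distrib]
theorem TR_smul (c : ℝ) (f : Euc n → Euc n) : TR (fun u => c • f u) = c * TR f := by
  simp [TR, Finset.mul_sum]

theorem TR_inner (a c : Euc n) : TR (fun u => (inner ℝ a u : ℝ) • c) = inner ℝ a c :=
  tr_rank_one a c

theorem TR_th (c : Euc n) : TR (fun u => th S y u • c) = th S y c := by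
  have h : (fun u : Euc n => th S y u • c)
      = fun u => (xx S y)⁻¹ • ((inner ℝ (S.P1 y) u : ℝ) • c) := by
    funext u
    rw [smul_smul]
    unfold th
    congr 1
    ring
  rw [h, TR_smul, TR_inner]
  unfold th
  ring
theorem TR_et (c : Euc n) : TR (fun u => et S y u • c) = et S y c := by
  have h : (fun u : Euc n => et S y u • c)
      = fun u => (ze S y)⁻¹ • ((inner ℝ (S.P2 y) u : ℝ) • c) := by
    funext u
    rw [smul_smul]
    unfold et
    congr 1
    ring
  rw [h, TR_smul, TR_inner]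
  unfold et
  ring

include hx in
theorem TR_q1 : TR (fun u => q1 S y u) = 2 := by
  have h : (fun u : Euc n => q1 S y u)
      = fun u => S.P1 u + (-1 : ℝ) • (th S y u • S.P1 y) := by
    funext u
    unfold q1
    module
  rw [h, TR_add, TR_smul, TR_th, th_X S y hx]
  have : TR (fun u => S.P1 u) = 3 := S.t1
  rw [this]
  norm_num
include hz in
theorem TR_q2 : TR (fun u => q2 S y u) = 2 := by
  have h : (fun u : Euc n => q2 S y u)
      = fun u => S.P2 u + (-1 : ℝ) • (et S y u • S.P2 y) := by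
    funext u
    unfold q2
    module
  rw [h, TR_add, TR_smul, TR_et, et_Z S y hz]
  have : TR (fun u => S.P2 u) = 3 := S.t2
  rw [this]
  norm_num

theorem TR_id : TR (fun u : Euc n => u) = n := by
  simp [TR, eb]

theorem TR_P3 : TR (fun u => S.P3 u) = n - 6 := by
  have h : (fun u : Euc n => S.P3 u)
      = fun u => (u + (-1 : ℝ) • S.P1 u) + (-1 : ℝ) • S.P2 u := by
    funext u
    have := S.sum u
    rw [eq_comm, ← sub_eq_zero]
    conv_lhs => rw [← this]
    have h1 : S.P1 (S.P1 u + S.P2 u + S.P3 u) = S.P1 u := by rw [this]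
    have h2 : S.P2 (S.P1 u + S.P2 u + S.P3 u) = S.P2 u := by rw [this]
    have h3 : S.P3 (S.P1 u + S.P2 u + S.P3 u) = S.P3 u := by rw [this]
    rw [h1, h2, h3]
    module
  have e1 : TR (fun u => S.P1 u) = 3 := S.t1
  have e2 : TR (fun u => S.P2 u) = 3 := S.t2
  rw [h, TR_add, TR_add, TR_smul, TR_smul, TR_id, e1, e2]
  ring

end alg

end G6aAux

open G6aAux

/-- G6a. Scalar curvature at `X ≠ 0`.
PROOF. `Ric = ½G - Hess = G(L·,·)` with `L = ½ id - L_f`,
`L_f v = ((h1' - ℓh1)/Λ) θ(v) X + (a1 h1/Λ) Π₁v + (a2 h1/Λ) Π₂v + ½η(v) Z + ½P₃v` (use `gMet_frame`, `hess_frame`), so by `metric_trace`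
`scal = tr L = n/2 - (h1' - ℓh1)/Λ - 2(a1 + a2)h1/Λ - ½ - ½ tr P₃`, `tr P₃ = n - 6`, which is `R` by I4. -/
theorem scal_frame (S : Split n) {α β A h : ℝ → ℝ} {X₀ : ℝ} (hp : Profile α β A h X₀)
    {Sf Λ B H ℓ a1 a2 h1 ℓ' a1' a2' h1' R : ℝ → ℝ}
    (hr : Radial α β A h Sf Λ B H ℓ a1 a2 h1 ℓ' a1' a2' h1' R) (y : Euc n) (hx : S.P1 y ≠ 0)
    (hz : S.P2 y ≠ 0) : scal (gMet S α β A) y = R (ta S y) := by
  have hΛ : Λ (ta S y) ≠ 0 := (hr.pΛ _).ne'
  set cθ : ℝ := -((h1' (ta S y) - ℓ (ta S y) * h1 (ta S y)) / Λ (ta S y)) with hcθ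
  set c1 : ℝ := -(a1 (ta S y) * h1 (ta S y) / Λ (ta S y)) with hc1
  set c2 : ℝ := -(a2 (ta S y) * h1 (ta S y) / Λ (ta S y)) with hc2
  let Lf : Euc n → Euc n := fun v => (((((1 / 2 : ℝ) • v + cθ • (th S y v • S.P1 y))
    + c1 • q1 S y v) + c2 • q2 S y v) + (-1 / 2 : ℝ) • (et S y v • S.P2 y))
    + (-1 / 2 : ℝ) • S.P3 v
  have hlin : IsLinearMap ℝ Lf := by
    constructor
    · intro v w
      simp only [Lf, th_add, et_add, q1_add, q2_add, map_add]
      module
    · intro c v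
      simp only [Lf, th_smul, et_smul, q1_smul, q2_smul, map_smul]
      module
  have hfr := gMet_frame S hr y hx hz
  -- `G(Lf v, w) = Ric(v, w)`
  have hric : ∀ v w, ricci (gMet S α β A) y v w = gMet S α β A y (Lf v) w := by
    intro v w
    have h1 := soliton_frame S hp hr y hx hz v w
    have h2 := hess_frame S hp hr y hx hz v w
    have h3 : ricci (gMet S α β A) y v w
        = 1 / 2 * gMet S α β A y v w - hess (gMet S α β A) (fPot S h) y v w := by linarith
    rw [h3, h2]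
    have gX : gMet S α β A y (S.P1 y) w = Λ (ta S y) * th S y w := by
      rw [hfr, th_X S y hx, p1_X S y hx, p2_P1, et_P1, S.i31]
      simp
    have gZ : gMet S α β A y (S.P2 y) w = et S y w := by
      rw [hfr, th_P2, p1_P2, p2_Z S y hz, et_Z S y hz, S.i32]
      simp
    have g1 : gMet S α β A y (q1 S y v) w = Sf (ta S y) * p1 S y v w := by
      rw [hfr, th_q1 S y hx, p1_q1 S y hx, p2_q1, et_q1, q1, map_sub, map_smul, S.i31, S.i31]
      simp
    have g2 : gMet S α β A y (q2 S y v) w = B (ta S y) * p2 S y v w := by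
      rw [hfr, th_q2, p1_q2, p2_q2 S y hz, et_q2 S y hz, q2, map_sub, map_smul, S.i32, S.i32]
      simp
    have g3 : gMet S α β A y (S.P3 v) w = inner ℝ (S.P3 v) w := by
      rw [hfr, th_P3, p1_P3, p2_P3, et_P3, S.i33]
      simp
    have hL : gMet S α β A y (Lf v) w = (1 / 2 : ℝ) * gMet S α β A y v w
        + cθ * (th S y v * gMet S α β A y (S.P1 y) w) + c1 * gMet S α β A y (q1 S y v) w
        + c2 * gMet S α β A y (q2 S y v) w
        + (-1 / 2 : ℝ) * (et S y v * gMet S α β A y (S.P2 y) w)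
        + (-1 / 2 : ℝ) * gMet S α β A y (S.P3 v) w := by
      simp only [Lf, map_add, map_smul, ContinuousLinearMap.add_apply,
        ContinuousLinearMap.smul_apply, smul_eq_mul]
    rw [hL, gX, gZ, g1, g2, g3, hcθ, hc1, hc2]
    field_simp
    ring
  have hsc : scal (gMet S α β A) y = ∑ i, ∑ j, invMetric (gMet S α β A) y i j
      * gMet S α β A y ((hlin.mk' Lf) (eb i)) (eb j) := by
    unfold scal
    refine Finset.sum_congr rfl fun i _ => Finset.sum_congr rfl fun j _ => ?_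
    rw [hric]
    rfl
  rw [hsc, metric_trace (gMet S α β A) y (fun v hv => gMet_pos S hp y hz v hv)
    (fun v w => gMet_symm S α β A y v w) (hlin.mk' Lf)]
  have htr : ∑ i, ((hlin.mk' Lf) (eb i)) i = TR Lf := rfl
  rw [htr]
  have hTR : TR Lf = (1 / 2 : ℝ) * n + cθ * 1 + c1 * 2 + c2 * 2 + (-1 / 2 : ℝ) * 1
      + (-1 / 2 : ℝ) * (n - 6) := by
    have e1 := TR_th S y (S.P1 y)
    have e2 := TR_et S y (S.P2 y)
    rw [th_X S y hx] at e1
    rw [et_Z S y hz] at e2
    simp only [Lf]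
    rw [TR_add, TR_add, TR_add, TR_add, TR_add, TR_smul, TR_smul, TR_smul, TR_smul, TR_smul,
      TR_smul, e1, e2, TR_q1 S y hx, TR_q2 S y hz, TR_P3, TR_id]
  rw [hTR, ← hr.I4 (ta S y), hcθ, hc1, hc2]
  field_simp
  ring

end Pool.Agent.RS
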