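import Pool.Agent.Lib.MP_35abc2_gt.G6a_Scal
import Pool.Agent.Lib.MP_35abc2_gt.G5a_Continuity

/-! # G6b: the soliton equation on all of Ω (MP_35abc2_gt) -/

open scoped ContDiff Topology
open Set Filter Real

noncomputable section

namespace Pool.Agent.RS

variable {n : ℕ}

/-- a closed condition on a continuous function which holds for `X ≠ 0` holds on all of `Ω` -/
lemma G6b_dense (S : Split n) (hO : IsOpen (Om S)) {F : Euc n → ℝ}
    (hF : ContinuousOn F (Om S)) {C : Set ℝ}
    (hC : IsClosed C) (h : ∀ y, S.P1 y ≠ 0 → S.P2 y ≠ 0 → F y ∈ C) : ∀ y ∈ Om S, F y ∈ C := by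
  intro y hy
  obtain ⟨i, hi⟩ : ∃ i, S.P1 (eb i) ≠ 0 := by
    by_contra hcon
    push Not at hcon
    have h1 := S.t1
    rw [Finset.sum_eq_zero fun i _ => by rw [hcon i]; rfl] at h1
    norm_num at h1
  by_cases hx : S.P1 y = 0
  · have hc : Continuous fun t : ℝ => y + t • eb i := by fun_prop
    have h0 : Tendsto (fun t : ℝ => y + t • eb i) (𝓝[≠] 0) (𝓝 y) := by
      have := hc.tendsto 0
      rw [zero_smul, add_zero] at this
      exact this.mono_left nhdsWithin_le_nhds
    have hFy : ContinuousAt F y := hF.continuousAt (hO.mem_nhds hy)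
    have h1 : Tendsto (fun t : ℝ => F (y + t • eb i)) (𝓝[≠] 0) (𝓝 (F y)) := hFy.tendsto.comp h0
    refine hC.mem_of_tendsto h1 ?_
    have h2 : ∀ᶠ t : ℝ in 𝓝[≠] 0, y + t • eb i ∈ Om S := h0.eventually (hO.mem_nhds hy)
    filter_upwards [h2, self_mem_nhdsWithin] with t ht ht0
    refine h _ ?_ ht
    rw [map_add, map_smul, hx, zero_add]
    exact smul_ne_zero ht0 hi
  · exact h y hx hy

/-- G6b. The soliton equation and the bound of the scalar curvature extend to `X = 0` by continuity
(`{X ≠ 0}` is dense in `Ω`: `P1 ≠ 0` since its trace is `3`). -/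
theorem soliton_all (S : Split n) {α β A h : ℝ → ℝ} {X₀ : ℝ} (hp : Profile α β A h X₀)
    {Sf Λ B H ℓ a1 a2 h1 ℓ' a1' a2' h1' R : ℝ → ℝ}
    (hr : Radial α β A h Sf Λ B H ℓ a1 a2 h1 ℓ' a1' a2' h1' R) (ε : ℝ) (hR : ∀ τ, |R τ| ≤ ε) :
    (∀ y ∈ Om S, ∀ v w, ricci (gMet S α β A) y v w + hess (gMet S α β A) (fPot S h) y v w
      = 1 / 2 * gMet S α β A y v w) ∧
    ∀ y ∈ Om S, |scal (gMet S α β A) y| ≤ ε := by
  obtain ⟨hO, hG, hf⟩ := gMet_smooth S hp
  obtain ⟨c1, c2, c3⟩ := curvature_continuous (gMet S α β A) (fPot S h) (Om S) hO hG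
    (fun y hy v hv => gMet_pos S hp y hy v hv) hf
  constructor
  · intro y hy v w
    have c4 : ContinuousOn (fun z => gMet S α β A z v w) (Om S) :=
      (hG.continuousOn.clm_apply continuousOn_const).clm_apply continuousOn_const
    have hF : ContinuousOn (fun z => ricci (gMet S α β A) z v w
        + hess (gMet S α β A) (fPot S h) z v w - 1 / 2 * gMet S α β A z v w) (Om S) :=
      ((c1 v w).add (c2 v w)).sub (c4.const_mul (1 / 2))
    have h0 := G6b_dense S hO hF (isClosed_singleton (x := (0 : ℝ))) (fun z hx hz => by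
      rw [mem_singleton_iff, soliton_frame S hp hr z hx hz, sub_self]) y hy
    rw [mem_singleton_iff] at h0
    linarith
  · exact G6b_dense S hO c3 (C := {x : ℝ | |x| ≤ ε})
      (isClosed_le continuous_abs continuous_const) (fun z hx hz => by
        rw [mem_ofPred_eq, scal_frame S hp hr z hx hz]
        exact hR _)

end Pool.Agent.RS
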