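import Pool.Agent.Lib.MP_35abc2_gt.G1b_Basic

/-! # G7: completeness (MP_35abc2_gt) -/

open scoped ContDiff Topology
open Set Filter Real

noncomputable section

namespace Pool.Agent.RS

variable {n : ℕ}

/-- growth along a curve, controlled by an integral -/
theorem g7_growth {E : Type*} [NormedAddCommGroup E] [NormedSpace ℝ E] {f f' : ℝ → E} {g : ℝ → ℝ}
    {K : ℝ}
    (hf : ∀ t ∈ Ico (0 : ℝ) 1, HasDerivWithinAt f (f' t) (Ico 0 1) t)
    (hg : ContinuousOn g (Ico 0 1)) (hb : ∀ t ∈ Ico (0 : ℝ) 1, ‖f' t‖ ≤ K * g t)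
    {s t : ℝ} (hs : 0 ≤ s) (hst : s ≤ t) (ht : t < 1) :
    ‖f t - f s‖ ≤ K * ∫ u in s..t, g u := by
  have hsub : Icc s t ⊆ Ico (0 : ℝ) 1 := fun x hx => ⟨hs.trans hx.1, hx.2.trans_lt ht⟩
  have hfc : ContinuousOn f (Icc s t) := fun x hx => ((hf x (hsub hx)).continuousWithinAt).mono hsub
  have hgi : IntervalIntegrable g MeasureTheory.volume s t := by
    apply ContinuousOn.intervalIntegrable
    rw [uIcc_of_le hst]
    exact hg.mono hsub
  have hright : ∀ x ∈ Ico s t, Ico (0 : ℝ) 1 ∈ 𝓝[≥] x := by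
    intro x hx
    have h1 : Ico x 1 ∈ 𝓝[≥] x := Ico_mem_nhdsGE (hx.2.trans ht)
    exact mem_of_superset h1 (Ico_subset_Ico_left (hs.trans hx.1))
  have key := image_norm_le_of_norm_deriv_right_le_deriv_boundary' (f := fun x => f x - f s) (f' := f')
    (a := s) (b := t) (B := fun x => K * ∫ u in s..x, g u) (B' := fun x => K * g x)
    (hfc.sub continuousOn_const)
    (fun x hx => by
      have h1 := (hf x (hsub ⟨hx.1, hx.2.le⟩)).mono_of_mem_nhdsWithin (hright x hx)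
      exact h1.sub_const _)
    (by simp)
    (by
      apply ContinuousOn.mul continuousOn_const
      exact intervalIntegral.continuousOn_primitive_interval' hgi (by rw [uIcc_of_le hst]; exact ⟨le_rfl, hst⟩) |>.mono
        (by rw [uIcc_of_le hst]))
    (fun x hx => by
      have hxi : IntervalIntegrable g MeasureTheory.volume s x := by
        apply ContinuousOn.intervalIntegrable
        rw [uIcc_of_le hx.1]
        exact hg.mono (fun y hy => hsub ⟨hy.1, hy.2.trans hx.2.le⟩)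
      have hcx : ContinuousWithinAt g (Ici x) x :=
        (hg x (hsub ⟨hx.1, hx.2.le⟩)).mono_of_mem_nhdsWithin (hright x hx)
      have hcx' : ContinuousWithinAt g (Ioi x) x := hcx.mono Ioi_subset_Ici_self
      have hmeas : StronglyMeasurableAtFilter g (𝓝[>] x) MeasureTheory.volume := by
        have h2 : Ioo x 1 ∈ 𝓝[>] x := Ioo_mem_nhdsGT (hx.2.trans ht)
        refine ⟨Ioo x 1, h2, ?_⟩
        apply ContinuousOn.aestronglyMeasurable _ measurableSet_Ioo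
        exact hg.mono (fun y hy => ⟨(hs.trans hx.1).trans hy.1.le, hy.2⟩)
      exact (intervalIntegral.integral_hasDerivWithinAt_right hxi (s := Ici x) (t := Ioi x) hmeas hcx').const_mul K)
    (fun x hx => hb x (hsub ⟨hx.1, hx.2.le⟩))
  exact key ⟨hst, le_rfl⟩

/-- the squared length, grouped -/
theorem g7_groups (S : Split n) {α β A h : ℝ → ℝ} {X₀ : ℝ} (hp : Profile α β A h X₀) {c : ℝ} (hc : 0 < c)
    (hcomp : ∀ x, 0 ≤ x → c ≤ (α x + x * β x) * Real.sqrt (1 + x))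
    (y : Euc n) (hy : y ∈ Om S) (v : Euc n) :
    0 ≤ gMet S α β A y v v ∧
    (inner ℝ (S.P2 y) v / ze S y) ^ 2 ≤ gMet S α β A y v v ∧
    ‖S.P3 v‖ ^ 2 ≤ gMet S α β A y v v ∧
    c * (inner ℝ (S.P1 y) v) ^ 2 ≤ gMet S α β A y v v * ((1 + xx S y) * Real.sqrt (1 + xx S y)) := by
  have hP : ∀ (P : Euc n →L[ℝ] Euc n), (∀ v, P (P v) = P v) → (∀ v w, inner ℝ (P v) w = inner ℝ v (P w)) →
      ∀ v, inner ℝ (P v) v = ‖P v‖ ^ 2 := by
    intro P h1 h2 v
    rw [← real_inner_self_eq_norm_sq, ← h2 (P v) v, h1]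
  have hCS : ∀ (P : Euc n →L[ℝ] Euc n), (∀ v, P (P v) = P v) → (∀ v w, inner ℝ (P v) w = inner ℝ v (P w)) →
      ∀ y v, (inner ℝ (P y) v) ^ 2 ≤ inner ℝ (P y) (P y) * ‖P v‖ ^ 2 := by
    intro P h1 h2 y v
    have e : inner ℝ (P y) v = inner ℝ (P y) (P v) := by rw [← h2 (P y) v, h1]
    rw [e, real_inner_self_eq_norm_sq, ← mul_pow, ← sq_abs]
    exact pow_le_pow_left₀ (abs_nonneg _) (abs_real_inner_le_norm _ _) 2
  have hx0 : 0 ≤ xx S y := real_inner_self_nonneg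
  have hz0 : 0 < ze S y := by
    unfold ze
    rw [real_inner_self_eq_norm_sq]
    have : 0 < ‖S.P2 y‖ := norm_pos_iff.mpr hy
    positivity
  have e1 := hCS S.P1 S.i11 S.s1 y v
  have e2 := hCS S.P2 S.i22 S.s2 y v
  rw [gMet_apply, hP S.P1 S.i11 S.s1, hP S.P2 S.i22 S.s2, hP S.P3 S.i33 S.s3]
  change (inner ℝ (S.P1 y) v) ^ 2 ≤ xx S y * ‖S.P1 v‖ ^ 2 at e1
  change (inner ℝ (S.P2 y) v) ^ 2 ≤ ze S y * ‖S.P2 v‖ ^ 2 at e2
  have hα := hp.pα _ hx0
  have hpl := hp.pl _ hx0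
  have hA := hp.pA _ hx0
  have hcx := hcomp _ hx0
  set x := xx S y
  set ζ := ze S y
  set p := inner ℝ (S.P1 y) v
  set r := inner ℝ (S.P2 y) v
  set a2 := ‖S.P1 v‖ ^ 2
  set b2 := ‖S.P2 v‖ ^ 2
  set c2 := ‖S.P3 v‖ ^ 2
  have ha2 : 0 ≤ a2 := by positivity
  have hc2 : 0 ≤ c2 := by positivity
  -- group 2
  have g2 : 0 ≤ A x * (b2 / ζ - r ^ 2 / ζ ^ 2) := by
    apply mul_nonneg hA.le
    have : r ^ 2 / ζ ^ 2 ≤ b2 / ζ := by
      rw [div_le_div_iff₀ (by positivity) hz0]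
      nlinarith
    linarith
  -- group 1
  set sq := Real.sqrt (1 + x) with hsq
  have hsq0 : 0 < sq := Real.sqrt_pos.mpr (by linarith)
  have hsq2 : sq * sq = 1 + x := Real.mul_self_sqrt (by linarith)
  have g1 : c * p ^ 2 ≤ (α x * a2 + β x * p ^ 2) * ((1 + x) * sq) := by
    rcases eq_or_lt_of_le hx0 with h0 | h0
    · have hp0 : p ^ 2 = 0 := by
        have : p ^ 2 ≤ 0 := by rw [← h0] at e1; linarith
        exact le_antisymm this (sq_nonneg p)
      rw [hp0, mul_zero, mul_zero, add_zero]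
      positivity
    · have h1 : (α x + x * β x) * p ^ 2 ≤ x * (α x * a2 + β x * p ^ 2) := by
        nlinarith
      have h2 : c * p ^ 2 ≤ (α x + x * β x) * sq * p ^ 2 := by
        exact mul_le_mul_of_nonneg_right hcx (sq_nonneg p)
      have h3 : 0 ≤ α x * a2 + β x * p ^ 2 := by
        have : 0 ≤ x * (α x * a2 + β x * p ^ 2) := le_trans (mul_nonneg hpl.le (sq_nonneg p)) h1
        exact nonneg_of_mul_nonneg_right this h0
      calc c * p ^ 2 ≤ (α x + x * β x) * sq * p ^ 2 := h2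
        _ = ((α x + x * β x) * p ^ 2) * sq := by ring
        _ ≤ (x * (α x * a2 + β x * p ^ 2)) * sq := mul_le_mul_of_nonneg_right h1 hsq0.le
        _ ≤ ((1 + x) * (α x * a2 + β x * p ^ 2)) * sq := by
            apply mul_le_mul_of_nonneg_right _ hsq0.le
            nlinarith
        _ = _ := by ring
  have g1' : 0 ≤ α x * a2 + β x * p ^ 2 := by
    have h1 : 0 ≤ (α x * a2 + β x * p ^ 2) * ((1 + x) * sq) := le_trans (by positivity) g1
    exact nonneg_of_mul_nonneg_left h1 (by positivity)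
  have hG : α x * a2 + β x * p * p + A x / ζ * b2 + (1 - A x) / ζ ^ 2 * (r * r) + c2
      = (α x * a2 + β x * p ^ 2) + A x * (b2 / ζ - r ^ 2 / ζ ^ 2) + (r / ζ) ^ 2 + c2 := by
    field_simp
    ring
  rw [hG]
  have hr : 0 ≤ (r / ζ) ^ 2 := sq_nonneg _
  refine ⟨by linarith, by linarith, by linarith, ?_⟩
  refine g1.trans ?_
  apply mul_le_mul_of_nonneg_right _ (by positivity)
  linarith

/-- G7. The metric is complete on `Ω`.

PROOF. Let `γ : [0,1) → Ω` be `C¹` of length `≤ L`; `X, Z, C` its components, `x = |X|²`, `v = γ'`.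
`G(v,v) = α|a|² + β⟨X,a⟩² + A(|b|²/ζ - ⟨Z,b⟩²/ζ²) + ⟨Z,b⟩²/ζ² + |c|²` (each group nonnegative), so
(1) `|⟨Z,b⟩|/ζ ≤ √G(v,v)`: `|log |Z(t)| - log |Z(0)|| ≤ L`;
(2) `|c| ≤ √G(v,v)`: `|C(t) - C(0)| ≤ L`;
(3) `α|a|² + β⟨X,a⟩² ≥ (α + xβ)⟨X,a⟩²/x ≥ (c₀/√(1+x)) ⟨X,a⟩²/x` for `x ≠ 0` (for every `x`: `≥ c₀⟨X,a⟩²/(1+x)^{3/2}`), and the derivative of
`ϱ := (1+x)^{1/4}` along `γ` is `½(1+x)^{-3/4}⟨X,a⟩`, so `|ϱ'| ≤ √(1/c₀) √G(v,v)/2`... hence `ϱ` is bounded by `ϱ(0) + L/(2√c₀)`.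
So `γ` stays in the compact set `K = {x ≤ R, r₁ ≤ |Z| ≤ r₂, |C| ≤ r₃} ⊂ Ω`. On `K`, `G(v,v) ≥ m|v|²` with `m > 0` (compactness of `K ×` unit sphere, continuity and
positivity), so `γ` has finite Euclidean length `∫|γ'| ≤ L/√m`, hence `γ(t)` is Cauchy as `t → 1⁻` and converges to a point of `K`. -/
theorem gMet_complete (S : Split n) {α β A h : ℝ → ℝ} {X₀ : ℝ} (hp : Profile α β A h X₀) :
    IsCompleteMetric (Om S) (gMet S α β A) := by
  intro γ hγ hγΩ ⟨L, hL⟩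
  obtain ⟨c, hc, hcomp⟩ := hp.comp
  obtain ⟨hOpen, hGs, -⟩ := gMet_smooth S hp
  set v : ℝ → Euc n := fun t => derivWithin γ (Ico 0 1) t with hv
  have hud : UniqueDiffOn ℝ (Ico (0 : ℝ) 1) := uniqueDiffOn_Ico 0 1
  have hdγ : ∀ t ∈ Ico (0 : ℝ) 1, HasDerivWithinAt γ (v t) (Ico 0 1) t := fun t ht =>
    ((hγ.differentiableOn one_ne_zero) t ht).hasDerivWithinAt
  have hvc : ContinuousOn v (Ico 0 1) := hγ.continuousOn_derivWithin hud le_rfl
  have hγc : ContinuousOn γ (Ico 0 1) := hγ.continuousOn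
  have hGc : ContinuousOn (gMet S α β A) (Om S) := hGs.continuousOn
  have hGγ : ContinuousOn (fun t => gMet S α β A (γ t)) (Ico 0 1) := hGc.comp hγc hγΩ
  have hspc : ContinuousOn (speed (gMet S α β A) γ) (Ico 0 1) := by
    unfold speed
    apply ContinuousOn.sqrt
    exact (hGγ.clm_apply hvc).clm_apply hvc
  have hgr := fun t (ht : t ∈ Ico (0 : ℝ) 1) => g7_groups S hp hc hcomp (γ t) (hγΩ t ht) (v t)
  have hsp2 : ∀ t ∈ Ico (0 : ℝ) 1, speed (gMet S α β A) γ t ^ 2 = gMet S α β A (γ t) (v t) (v t) := by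
    intro t ht
    unfold speed
    exact Real.sq_sqrt (hgr t ht).1
  have hsp0 : ∀ t, 0 ≤ speed (gMet S α β A) γ t := fun t => Real.sqrt_nonneg _
  have h0 : (0 : ℝ) ∈ Ico (0 : ℝ) 1 := ⟨le_rfl, one_pos⟩
  -- derivative facts
  have hP1 : ∀ t ∈ Ico (0 : ℝ) 1, HasDerivWithinAt (fun t => S.P1 (γ t)) (S.P1 (v t)) (Ico 0 1) t :=
    fun t ht => S.P1.hasFDerivAt.comp_hasDerivWithinAt t (hdγ t ht)
  have hP2 : ∀ t ∈ Ico (0 : ℝ) 1, HasDerivWithinAt (fun t => S.P2 (γ t)) (S.P2 (v t)) (Ico 0 1) t :=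
    fun t ht => S.P2.hasFDerivAt.comp_hasDerivWithinAt t (hdγ t ht)
  have hP3 : ∀ t ∈ Ico (0 : ℝ) 1, HasDerivWithinAt (fun t => S.P3 (γ t)) (S.P3 (v t)) (Ico 0 1) t :=
    fun t ht => S.P3.hasFDerivAt.comp_hasDerivWithinAt t (hdγ t ht)
  have hxx : ∀ t ∈ Ico (0 : ℝ) 1, HasDerivWithinAt (fun t => xx S (γ t)) (2 * inner ℝ (S.P1 (γ t)) (v t)) (Ico 0 1) t := by
    intro t ht
    have h1 := (hP1 t ht).inner ℝ (hP1 t ht)
    have h2 : inner ℝ (S.P1 (γ t)) (S.P1 (v t)) + inner ℝ (S.P1 (v t)) (S.P1 (γ t)) = 2 * inner ℝ (S.P1 (γ t)) (v t) := by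
      rw [real_inner_comm (S.P1 (γ t)) (S.P1 (v t)), ← S.s1 (S.P1 (γ t)) (v t), S.i11]
      ring
    rw [← h2]
    exact h1
  have hze : ∀ t ∈ Ico (0 : ℝ) 1, HasDerivWithinAt (fun t => ze S (γ t)) (2 * inner ℝ (S.P2 (γ t)) (v t)) (Ico 0 1) t := by
    intro t ht
    have h1 := (hP2 t ht).inner ℝ (hP2 t ht)
    have h2 : inner ℝ (S.P2 (γ t)) (S.P2 (v t)) + inner ℝ (S.P2 (v t)) (S.P2 (γ t)) = 2 * inner ℝ (S.P2 (γ t)) (v t) := by
      rw [real_inner_comm (S.P2 (γ t)) (S.P2 (v t)), ← S.s2 (S.P2 (γ t)) (v t), S.i22]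
      ring
    rw [← h2]
    exact h1
  have hzpos : ∀ t ∈ Ico (0 : ℝ) 1, 0 < ze S (γ t) := by
    intro t ht
    unfold ze
    rw [real_inner_self_eq_norm_sq]
    have : 0 < ‖S.P2 (γ t)‖ := norm_pos_iff.mpr (hγΩ t ht)
    positivity
  have hxnn : ∀ y, 0 ≤ xx S y := fun y => real_inner_self_nonneg
  -- (1)
  have b1 : ∀ t ∈ Ico (0 : ℝ) 1, |Real.log (ze S (γ t)) - Real.log (ze S (γ 0))| ≤ 2 * L := by
    intro t ht
    have h1 := g7_growth (f := fun t => Real.log (ze S (γ t)))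
      (f' := fun t => (2 * inner ℝ (S.P2 (γ t)) (v t)) / ze S (γ t)) (g := speed (gMet S α β A) γ) (K := 2)
      (fun t ht => (hze t ht).log (hzpos t ht).ne') hspc (fun t ht => by
        have h2 := (hgr t ht).2.1
        rw [← hsp2 t ht] at h2
        have h3 := abs_le_of_sq_le_sq h2 (hsp0 t)
        rw [mul_div_assoc, norm_mul, Real.norm_eq_abs, Real.norm_eq_abs, abs_two]
        linarith) le_rfl ht.1 ht.2
    rw [Real.norm_eq_abs] at h1
    exact h1.trans (mul_le_mul_of_nonneg_left (hL t ht) (by norm_num))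
  -- (2)
  have b2 : ∀ t ∈ Ico (0 : ℝ) 1, ‖S.P3 (γ t) - S.P3 (γ 0)‖ ≤ 1 * L := by
    intro t ht
    have h1 := g7_growth (f := fun t => S.P3 (γ t))
      (f' := fun t => S.P3 (v t)) (g := speed (gMet S α β A) γ) (K := 1)
      hP3 hspc (fun t ht => by
        have h2 := (hgr t ht).2.2.1
        rw [← hsp2 t ht] at h2
        have h3 := abs_le_of_sq_le_sq h2 (hsp0 t)
        rw [abs_of_nonneg (norm_nonneg _)] at h3
        linarith) le_rfl ht.1 ht.2
    exact h1.trans (mul_le_mul_of_nonneg_left (hL t ht) (by norm_num))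
  -- (3)
  set κ : ℝ := 1 / (2 * Real.sqrt c) with hκ
  have hsc : 0 < Real.sqrt c := Real.sqrt_pos.mpr hc
  have hκ0 : 0 < κ := by positivity
  have b3 : ∀ t ∈ Ico (0 : ℝ) 1, |(1 + xx S (γ t)) ^ (1/4 : ℝ) - (1 + xx S (γ 0)) ^ (1/4 : ℝ)| ≤ κ * L := by
    intro t ht
    have h1 := g7_growth (f := fun t => (1 + xx S (γ t)) ^ (1/4 : ℝ))
      (f' := fun t => (2 * inner ℝ (S.P1 (γ t)) (v t)) * (1/4 : ℝ) * (1 + xx S (γ t)) ^ ((1/4 : ℝ) - 1))
      (g := speed (gMet S α β A) γ) (K := κ)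
      (fun t ht => ((hxx t ht).const_add 1).rpow_const (Or.inl (by have := hxnn (γ t); linarith))) hspc
      (fun t ht => by
        have h2 := (hgr t ht).2.2.2
        rw [← hsp2 t ht] at h2
        have hx1 : 0 < 1 + xx S (γ t) := by have := hxnn (γ t); linarith
        set w := 1 + xx S (γ t)
        set p := inner ℝ (S.P1 (γ t)) (v t)
        set sp := speed (gMet S α β A) γ t
        have hw : w ^ ((1/4 : ℝ) - 1) * w ^ ((1/4 : ℝ) - 1) * (w * Real.sqrt w) = 1 := by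
          rw [Real.sqrt_eq_rpow, ← Real.rpow_add hx1]
          nth_rewrite 2 [← Real.rpow_one w]
          rw [← Real.rpow_add hx1, ← Real.rpow_add hx1]
          norm_num
        have hwp : 0 < w ^ ((1/4 : ℝ) - 1) := Real.rpow_pos_of_pos hx1 _
        have hws : 0 < w * Real.sqrt w := mul_pos hx1 (Real.sqrt_pos.mpr hx1)
        have h3 : (2 * p * (1/4 : ℝ) * w ^ ((1/4 : ℝ) - 1)) ^ 2 ≤ (κ * sp) ^ 2 := by
          have h4 : (2 * p * (1/4 : ℝ) * w ^ ((1/4 : ℝ) - 1)) ^ 2 * (4 * c) * (w * Real.sqrt w)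
              = (c * p ^ 2) := by
            have : (2 * p * (1/4 : ℝ) * w ^ ((1/4 : ℝ) - 1)) ^ 2 * (4 * c) * (w * Real.sqrt w)
              = (c * p ^ 2) * (w ^ ((1/4 : ℝ) - 1) * w ^ ((1/4 : ℝ) - 1) * (w * Real.sqrt w)) := by ring
            rw [this, hw, mul_one]
          have h5 : (κ * sp) ^ 2 * (4 * c) * (w * Real.sqrt w) = sp ^ 2 * (w * Real.sqrt w) := by
            have : κ ^ 2 * (4 * c) = 1 := by
              rw [hκ, div_pow, mul_pow, Real.sq_sqrt hc.le]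
              field_simp
              norm_num
            calc (κ * sp) ^ 2 * (4 * c) * (w * Real.sqrt w) = (κ ^ 2 * (4 * c)) * (sp ^ 2 * (w * Real.sqrt w)) := by ring
              _ = _ := by rw [this, one_mul]
          have h6 : (2 * p * (1/4 : ℝ) * w ^ ((1/4 : ℝ) - 1)) ^ 2 * ((4 * c) * (w * Real.sqrt w))
              ≤ (κ * sp) ^ 2 * ((4 * c) * (w * Real.sqrt w)) := by
            rw [← mul_assoc _ (4 * c), ← mul_assoc _ (4 * c), h4, h5]
            exact h2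
          exact le_of_mul_le_mul_right h6 (by positivity)
        have h7 := abs_le_of_sq_le_sq h3 (mul_nonneg hκ0.le (hsp0 t))
        rw [Real.norm_eq_abs]
        exact h7) le_rfl ht.1 ht.2
    rw [Real.norm_eq_abs] at h1
    exact h1.trans (mul_le_mul_of_nonneg_left (hL t ht) hκ0.le)
  -- the compact set
  set r0 := (1 + xx S (γ 0)) ^ (1/4 : ℝ) + κ * L with hr0
  set R := r0 ^ 4 with hR
  set z0 := Real.log (ze S (γ 0)) with hz0
  set c3 := ‖S.P3 (γ 0)‖ + L with hc3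
  set Kset : Set (Euc n) := {y | xx S y ≤ R ∧ Real.exp (z0 - 2 * L) ≤ ze S y ∧ ze S y ≤ Real.exp (z0 + 2 * L) ∧ ‖S.P3 y‖ ≤ c3} with hK
  have hxxc : Continuous (fun y => xx S y) := by
    unfold xx
    exact (S.P1.continuous).inner (S.P1.continuous)
  have hzec : Continuous (fun y => ze S y) := by
    unfold ze
    exact (S.P2.continuous).inner (S.P2.continuous)
  have hKclosed : IsClosed Kset := by
    apply IsClosed.inter (isClosed_le hxxc continuous_const)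
    apply IsClosed.inter (isClosed_le continuous_const hzec)
    apply IsClosed.inter (isClosed_le hzec continuous_const)
    exact isClosed_le (S.P3.continuous.norm) continuous_const
  have hKbdd : Bornology.IsBounded Kset := by
    rw [isBounded_iff_forall_norm_le]
    refine ⟨Real.sqrt R + Real.sqrt (Real.exp (z0 + 2 * L)) + c3, fun y hy => ?_⟩
    obtain ⟨k1, _, k3, k4⟩ := hy
    have e1 : ‖S.P1 y‖ ≤ Real.sqrt R := by
      apply Real.le_sqrt_of_sq_le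
      rw [← real_inner_self_eq_norm_sq]; exact k1
    have e2 : ‖S.P2 y‖ ≤ Real.sqrt (Real.exp (z0 + 2 * L)) := by
      apply Real.le_sqrt_of_sq_le
      rw [← real_inner_self_eq_norm_sq]; exact k3
    calc ‖y‖ = ‖S.P1 y + S.P2 y + S.P3 y‖ := by rw [S.sum]
      _ ≤ ‖S.P1 y‖ + ‖S.P2 y‖ + ‖S.P3 y‖ := norm_add₃_le
      _ ≤ _ := by linarith
  have hKc : IsCompact Kset := Metric.isCompact_of_isClosed_isBounded hKclosed hKbdd
  have hKΩ : Kset ⊆ Om S := by
    intro y hy hy0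
    have h1 : ze S y = 0 := by
      unfold ze
      rw [show S.P2 y = 0 from hy0]; simp
    have h2 := hy.2.1
    rw [h1] at h2
    exact absurd h2 (not_le.mpr (Real.exp_pos _))
  have hγK : ∀ t ∈ Ico (0 : ℝ) 1, γ t ∈ Kset := by
    intro t ht
    refine ⟨?_, ?_, ?_, ?_⟩
    · have h1 := (abs_le.mp (b3 t ht)).2
      have h2 : (1 + xx S (γ t)) ^ (1/4 : ℝ) ≤ r0 := by rw [hr0]; linarith
      have hx1 : 0 < 1 + xx S (γ t) := by have := hxnn (γ t); linarith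
      have h3 : ((1 + xx S (γ t)) ^ (1/4 : ℝ)) ^ 4 ≤ r0 ^ 4 :=
        pow_le_pow_left₀ (Real.rpow_nonneg hx1.le _) h2 4
      rw [← Real.rpow_natCast, ← Real.rpow_mul hx1.le] at h3
      norm_num at h3
      linarith
    · have h1 := (abs_le.mp (b1 t ht)).1
      rw [← Real.le_log_iff_exp_le (hzpos t ht)]
      linarith
    · have h1 := (abs_le.mp (b1 t ht)).2
      rw [← Real.log_le_iff_le_exp (hzpos t ht)]
      linarith
    · have h1 := b2 t ht
      have h2 := norm_le_norm_add_norm_sub' (S.P3 (γ t)) (S.P3 (γ 0))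
      linarith
  -- lower bound on K
  obtain ⟨m, hm, hmK⟩ : ∃ m : ℝ, 0 < m ∧ ∀ y ∈ Kset, ∀ w : Euc n, m * ‖w‖ ^ 2 ≤ gMet S α β A y w w := by
    have hcomp2 : IsCompact (Kset ×ˢ Metric.sphere (0 : Euc n) 1) := hKc.prod (isCompact_sphere _ _)
    have hcont : ContinuousOn (fun yw : Euc n × Euc n => gMet S α β A yw.1 yw.2 yw.2)
        (Kset ×ˢ Metric.sphere (0 : Euc n) 1) := by
      have h1 : ContinuousOn (fun yw : Euc n × Euc n => gMet S α β A yw.1) (Kset ×ˢ Metric.sphere (0 : Euc n) 1) :=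
        hGc.comp continuousOn_fst (fun yw h => hKΩ h.1)
      exact (h1.clm_apply continuousOn_snd).clm_apply continuousOn_snd
    rcases (Kset ×ˢ Metric.sphere (0 : Euc n) 1).eq_empty_or_nonempty with hE | hN
    · refine ⟨1, one_pos, fun y hy w => ?_⟩
      have hw : w = 0 := by
        by_contra hw
        have : (y, (‖w‖⁻¹ : ℝ) • w) ∈ Kset ×ˢ Metric.sphere (0 : Euc n) 1 := by
          refine ⟨hy, ?_⟩
          rw [mem_sphere_zero_iff_norm, norm_smul, norm_inv, norm_norm, inv_mul_cancel₀ (norm_ne_zero_iff.mpr hw)]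
        rw [hE] at this
        exact this
      rw [hw]; simp
    · obtain ⟨yw, hyw, hmin⟩ := hcomp2.exists_isMinOn hN hcont
      have hpos : 0 < gMet S α β A yw.1 yw.2 yw.2 := by
        apply gMet_pos S hp yw.1 (hKΩ hyw.1)
        intro h0
        have := hyw.2
        rw [h0] at this
        simp at this
      refine ⟨_, hpos, fun y hy w => ?_⟩
      by_cases hw : w = 0
      · rw [hw]; simp
      · have hwn : 0 < ‖w‖ := norm_pos_iff.mpr hw
        have hmem : (y, (‖w‖⁻¹ : ℝ) • w) ∈ Kset ×ˢ Metric.sphere (0 : Euc n) 1 := by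
          refine ⟨hy, ?_⟩
          rw [mem_sphere_zero_iff_norm, norm_smul, norm_inv, norm_norm, inv_mul_cancel₀ (norm_ne_zero_iff.mpr hw)]
        have h1 := hmin hmem
        simp only [mem_ofPred_eq, map_smul, smul_apply, smul_eq_mul] at h1
        have h2 : ‖w‖⁻¹ * (‖w‖⁻¹ * gMet S α β A y w w) * ‖w‖ ^ 2 = gMet S α β A y w w := by
          field_simp
        calc _ ≤ (‖w‖⁻¹ * (‖w‖⁻¹ * gMet S α β A y w w)) * ‖w‖ ^ 2 :=
              mul_le_mul_of_nonneg_right h1 (by positivity)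
          _ = _ := h2
  have hsm : 0 < Real.sqrt m := Real.sqrt_pos.mpr hm
  -- Euclidean speed bound
  have hvb : ∀ t ∈ Ico (0 : ℝ) 1, ‖v t‖ ≤ (1 / Real.sqrt m) * speed (gMet S α β A) γ t := by
    intro t ht
    have h1 := hmK (γ t) (hγK t ht) (v t)
    rw [← hsp2 t ht] at h1
    have h2 : (Real.sqrt m * ‖v t‖) ^ 2 ≤ speed (gMet S α β A) γ t ^ 2 := by
      rw [mul_pow, Real.sq_sqrt hm.le]; exact h1
    have h3 := abs_le_of_sq_le_sq h2 (hsp0 t)
    have h4 := (abs_le.mp h3).2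
    rw [div_mul_eq_mul_div, one_mul, le_div_iff₀ hsm]
    linarith
  have hgrow : ∀ s t : ℝ, 0 ≤ s → s ≤ t → t < 1 →
      ‖γ t - γ s‖ ≤ (1 / Real.sqrt m) * ∫ u in s..t, speed (gMet S α β A) γ u :=
    fun s t hs hst ht => g7_growth hdγ hspc hvb hs hst ht
  -- the length function
  set Λ : ℝ → ℝ := fun t => ∫ u in (0 : ℝ)..t, speed (gMet S α β A) γ u with hΛ
  have hint : ∀ s t : ℝ, 0 ≤ s → s ≤ t → t < 1 → IntervalIntegrable (speed (gMet S α β A) γ) MeasureTheory.volume s t := by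
    intro s t hs hst ht
    apply ContinuousOn.intervalIntegrable
    rw [uIcc_of_le hst]
    exact hspc.mono (fun y hy => ⟨hs.trans hy.1, hy.2.trans_lt ht⟩)
  have hΛsub : ∀ s t : ℝ, 0 ≤ s → s ≤ t → t < 1 → ∫ u in s..t, speed (gMet S α β A) γ u = Λ t - Λ s := by
    intro s t hs hst ht
    rw [hΛ]
    simp only
    rw [← intervalIntegral.integral_add_adjacent_intervals (hint 0 s le_rfl hs (hst.trans_lt ht)) (hint s t hs hst ht)]
    ring
  have hΛmono : ∀ s t : ℝ, 0 ≤ s → s ≤ t → t < 1 → Λ s ≤ Λ t := by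
    intro s t hs hst ht
    have h1 : 0 ≤ ∫ u in s..t, speed (gMet S α β A) γ u := intervalIntegral.integral_nonneg hst (fun u _ => hsp0 u)
    rw [hΛsub s t hs hst ht] at h1
    linarith
  -- supremum
  set B := sSup (Λ '' Ico 0 1) with hB
  have hBdd : BddAbove (Λ '' Ico 0 1) := ⟨L, by rintro _ ⟨t, ht, rfl⟩; exact hL t ht⟩
  have hcau : Cauchy (Filter.map γ (𝓝[<] (1 : ℝ))) := by
    rw [Metric.cauchy_iff]
    refine ⟨Filter.map_neBot, fun ε hε => ?_⟩
    set ε' := ε * Real.sqrt m / 2 with hε'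
    have hε'0 : 0 < ε' := by positivity
    obtain ⟨_, ⟨s, hs, rfl⟩, hsB⟩ := exists_lt_of_lt_csSup (⟨Λ 0, ⟨0, h0, rfl⟩⟩ : (Λ '' Ico 0 1).Nonempty)
      (sub_lt_self B hε'0)
    refine ⟨γ '' (Ico s 1), ?_, ?_⟩
    · rw [Filter.mem_map]
      have : Ioo s 1 ∈ 𝓝[<] (1 : ℝ) := Ioo_mem_nhdsLT hs.2
      exact mem_of_superset this (fun t ht => ⟨t, ⟨ht.1.le, ht.2⟩, rfl⟩)
    · have key : ∀ t t' : ℝ, t ∈ Ico s 1 → t' ∈ Ico s 1 → t ≤ t' → dist (γ t) (γ t') < ε := by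
        intro t t' ht ht' htt
        have e0 : 0 ≤ t := hs.1.trans ht.1
        have e1 := hgrow t t' e0 htt ht'.2
        rw [hΛsub t t' e0 htt ht'.2] at e1
        have e2 : Λ t' ≤ B := le_csSup hBdd ⟨t', ⟨e0.trans htt, ht'.2⟩, rfl⟩
        have e3 : Λ s ≤ Λ t := hΛmono s t hs.1 ht.1 ht.2
        have e4 : Λ t' - Λ t < ε' := by linarith
        rw [dist_comm, dist_eq_norm]
        calc ‖γ t' - γ t‖ ≤ 1 / Real.sqrt m * (Λ t' - Λ t) := e1
          _ < 1 / Real.sqrt m * ε' := mul_lt_mul_of_pos_left e4 (by positivity)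
          _ = ε / 2 := by rw [hε']; field_simp
          _ < ε := by linarith
      rintro _ ⟨t, ht, rfl⟩ _ ⟨t', ht', rfl⟩
      rcases le_total t t' with h | h
      · exact key t t' ht ht' h
      · rw [dist_comm]; exact key t' t ht' ht h
  obtain ⟨q, hq⟩ := CompleteSpace.complete hcau
  refine ⟨q, hKΩ ?_, hq⟩
  have hev : ∀ᶠ t in 𝓝[<] (1 : ℝ), γ t ∈ Kset := by
    have : Ioo (0 : ℝ) 1 ∈ 𝓝[<] (1 : ℝ) := Ioo_mem_nhdsLT one_pos
    exact mem_of_superset this (fun t ht => hγK t ⟨ht.1.le, ht.2⟩)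
  exact hKclosed.mem_of_tendsto hq hev

end Pool.Agent.RS
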