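import Pool.Agent.Lib.MP_35abc2_gt.G1b_Basic

/-! # G8: non-flatness (MP_35abc2_gt) -/

open scoped ContDiff Topology
open Set Filter Real

noncomputable section

namespace Pool.Agent.RS

variable {n : ℕ}

theorem g8_sq (P : Euc n →L[ℝ] Euc n) (z : Euc n) :
    ∃ L : Euc n →L[ℝ] ℝ, HasFDerivAt (fun y => (inner ℝ (P y) (P y) : ℝ)) L z ∧
      ∀ w, L w = 2 * inner ℝ (P z) (P w) := by
  have h := (P.hasFDerivAt (x := z)).inner ℝ (P.hasFDerivAt (x := z))
  refine ⟨_, h, fun w => ?_⟩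
  rw [ContinuousLinearMap.comp_apply, ContinuousLinearMap.prod_apply, fderivInnerCLM_apply,
    real_inner_comm (P z) (P w)]
  ring

theorem g8_ze_pos (S : Split n) {z : Euc n} (hz : z ∈ Om S) : 0 < ze S z := by
  have h : S.P2 z ≠ 0 := hz
  exact real_inner_self_pos.2 h

theorem g8_xx_nonneg (S : Split n) (z : Euc n) : 0 ≤ xx S z := real_inner_self_nonneg

theorem g8_log (S : Split n) {z : Euc n} (hz : z ∈ Om S) :
    ∃ L : Euc n →L[ℝ] ℝ, HasFDerivAt (fun y => log (ze S y)) L z ∧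
      ∀ w, L w = 2 * inner ℝ (S.P2 z) (S.P2 w) / ze S z := by
  obtain ⟨L, hL, hL'⟩ := g8_sq S.P2 z
  have hpos := g8_ze_pos S hz
  have h := HasFDerivAt.log (f := fun y => ze S y) hL hpos.ne'
  refine ⟨_, h, fun w => ?_⟩
  rw [_root_.smul_apply, hL', smul_eq_mul]
  ring

theorem g8_fd (S : Split n) {α β A h : ℝ → ℝ} {X₀ : ℝ} (hp : Profile α β A h X₀) {z : Euc n}
    (hz : z ∈ Om S) :
    ∃ L : Euc n →L[ℝ] ℝ, HasFDerivAt (fPot S h) L z ∧
      ∀ w, L w = deriv h (xx S z) * (2 * inner ℝ (S.P1 z) (S.P1 w))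
        + log (ze S z) * (inner ℝ (S.P2 z) (S.P2 w) / (4 * ze S z))
        + inner ℝ (S.P3 z) (S.P3 w) / 2 := by
  obtain ⟨L1, hL1, hL1'⟩ := g8_sq S.P1 z
  obtain ⟨L3, hL3, hL3'⟩ := g8_sq S.P3 z
  obtain ⟨L2, hL2, hL2'⟩ := g8_log S hz
  have hx := g8_xx_nonneg S z
  have hmem : Ioi (-X₀) ∈ 𝓝 (xx S z) := Ioi_mem_nhds (by have := hp.hX; linarith)
  have hh : HasDerivAt h (deriv h (xx S z)) (xx S z) :=
    ((hp.sh.contDiffAt hmem).differentiableAt (by simp)).hasDerivAt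
  have c1 := hh.comp_hasFDerivAt_of_eq z hL1 rfl
  have c2 := (hL2.pow 2).mul_const (1 / 16 : ℝ)
  have c3 := hL3.mul_const (1 / 4 : ℝ)
  have hz' := (g8_ze_pos S hz).ne'
  refine ⟨_, ((c1.add c2).add c3).congr_of_eventuallyEq (Eventually.of_forall fun y => ?_),
    fun w => ?_⟩
  · simp only [fPot, Pi.add_apply, Function.comp_apply]
    show h (inner ℝ (S.P1 y) (S.P1 y)) + log (ze S y) ^ 2 / 16 + inner ℝ (S.P3 y) (S.P3 y) / 4 = _
    ring
  · simp only [_root_.add_apply, _root_.smul_apply, smul_eq_mul,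
      hL1', hL2', hL3']
    simp only [pow_one, Nat.cast_ofNat, nsmul_eq_mul, Nat.add_one_sub_one]
    field_simp
    ring

/-- G8. Non-flatness, from the soliton equation at the point `y = u1` (`X = 0`, `|Z| = 1`, `C = 0`) in the direction `v = u2`.

PROOF. `df_y = 0` for `y = u1`: `df(w) = 2h'(0)⟨X,w⟩ + (log ζ)⟨Z,w⟩/(4ζ) + ½⟨C,w⟩ = 0` as `X = 0`, `ζ = 1`, `C = 0`.  `D_vD_v f = 0` for `v = u2 ∈ Im P₂`, `v ⊥ Z`:
`z ↦ df_z(v) = 2h'(x)⟨P₁z,v⟩ + (log ζ)⟨P₂z,v⟩/(4ζ) + ½⟨P₃z,v⟩ = (log ζ)⟨P₂z,v⟩/(4ζ)` has derivative `0` at `z = u1` in direction `v` (`log ζ = 0`,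
`⟨Z,v⟩ = 0`: both factors vanish).  So `hess = 0` and `ricci(v,v) = ½ gMet(v,v) > 0`; if `riemann` vanished at `y` then `ricci = 0`. -/
theorem gMet_nonflat (S : Split n) {α β A h : ℝ → ℝ} {X₀ : ℝ} (hp : Profile α β A h X₀)
    (hsol : ∀ y ∈ Om S, ∀ v w, ricci (gMet S α β A) y v w
      + hess (gMet S α β A) (fPot S h) y v w = 1 / 2 * gMet S α β A y v w) :
    NonFlat (Om S) (gMet S α β A) := by
  have hu1 : S.P1 S.u1 = 0 := by
    have := S.i12 S.u1
    rwa [S.hu1] at this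
  have hu3 : S.P3 S.u1 = 0 := by
    have := S.i32 S.u1
    rwa [S.hu1] at this
  have hv1 : S.P1 S.u2 = 0 := by
    have := S.i12 S.u2
    rwa [S.hu2] at this
  have hv3 : S.P3 S.u2 = 0 := by
    have := S.i32 S.u2
    rwa [S.hu2] at this
  have hze : ze S S.u1 = 1 := by
    rw [ze, S.hu1, S.nu1]
  have hmem : S.u1 ∈ Om S := by
    show S.P2 S.u1 ≠ 0
    rw [S.hu1]
    intro h0
    have := S.nu1
    rw [h0, inner_zero_left] at this
    exact zero_ne_one this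
  have hne : S.u2 ≠ 0 := by
    intro h0
    have := S.nu2
    rw [h0, inner_zero_left] at this
    exact zero_ne_one this
  have hopen := (gMet_smooth S hp).1
  by_contra hcon
  have hflat : ∀ u v w, riemann (gMet S α β A) S.u1 u v w = 0 := by
    intro u v w
    by_contra h1
    exact hcon ⟨S.u1, hmem, u, v, w, h1⟩
  have hric : ricci (gMet S α β A) S.u1 S.u2 S.u2 = 0 := by
    rw [ricci]
    refine Finset.sum_eq_zero fun i _ => ?_
    rw [hflat]
    rfl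
  have hd0 : fderiv ℝ (fPot S h) S.u1 = 0 := by
    obtain ⟨L, hL, hL'⟩ := g8_fd S hp hmem
    rw [hL.fderiv]
    ext w
    rw [hL', hu1, hu3, hze]
    simp
  have hdd : fderiv ℝ (fun z => fderiv ℝ (fPot S h) z S.u2) S.u1 S.u2 = 0 := by
    have hev : (fun z => fderiv ℝ (fPot S h) z S.u2) =ᶠ[𝓝 S.u1]
        fun z => log (ze S z) * (inner ℝ (S.P2 z) (S.P2 S.u2) / (4 * ze S z)) := by
      filter_upwards [hopen.mem_nhds hmem] with z hz
      obtain ⟨L, hL, hL'⟩ := g8_fd S hp hz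
      rw [hL.fderiv, hL', hv1, hv3, inner_zero_right, inner_zero_right]
      ring
    rw [hev.fderiv_eq]
    obtain ⟨L2, hL2, -⟩ := g8_log S hmem
    obtain ⟨L, hL, -⟩ := g8_sq S.P2 S.u1
    have hL4 : DifferentiableAt ℝ (fun z => ((4 * ze S z)⁻¹ : ℝ)) S.u1 := by
      refine DifferentiableAt.fun_inv (hL.differentiableAt.const_mul (4 : ℝ)) ?_
      show 4 * ze S S.u1 ≠ 0
      rw [hze]
      norm_num
    have hI : DifferentiableAt ℝ (fun z => (inner ℝ (S.P2 z) (S.P2 S.u2) : ℝ)) S.u1 :=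
      (S.P2.differentiableAt).inner ℝ (differentiableAt_const _)
    have hG : DifferentiableAt ℝ
        (fun z => (inner ℝ (S.P2 z) (S.P2 S.u2) / (4 * ze S z) : ℝ)) S.u1 := by
      simp only [div_eq_mul_inv]
      exact hI.fun_mul hL4
    have hm := hL2.mul hG.hasFDerivAt
    have h0 : (inner ℝ (S.P2 S.u1) (S.P2 S.u2) / (4 * ze S S.u1) : ℝ) = 0 := by
      rw [S.hu1, S.hu2, S.u12, zero_div]
    have h00 : log (ze S S.u1) = 0 := by rw [hze, log_one]
    have hm' : fderiv ℝ (fun z => log (ze S z) *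
        (inner ℝ (S.P2 z) (S.P2 S.u2) / (4 * ze S z))) S.u1 = _ := hm.fderiv
    rw [hm', h0, h00]
    simp
  have h1 := hsol S.u1 hmem S.u2 S.u2
  have hhess : hess (gMet S α β A) (fPot S h) S.u1 S.u2 S.u2 = 0 := by
    rw [hess, hdd, hd0]
    simp
  rw [hric, hhess] at h1
  have h2 := gMet_pos S hp S.u1 hmem S.u2 hne
  linarith

end Pool.Agent.RS
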