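import Pool.Agent.Lib.MP_35abc2_gt.G0_Geom
import Pool.Agent.Lib.MP_35abc2_gt.Sys

/-! # G9: the profile of a solution, definitions (MP_35abc2_gt) -/

open scoped ContDiff Topology
open Set Filter Real

noncomputable section

namespace Pool.Agent.RS

/-- the profile functions of a solution (`T = ¼ log x` for `x > 0`; the tip formulas for `x < X₀`) -/
def prα (μ X₀ : ℝ) (z : Fin 5 → ℝ → ℝ) (u : ℝ → ℝ) (x : ℝ) : ℝ :=
  if x < X₀ then μ / 3 * tipy z x ^ 2 else μ / 3 * exp (u (log x / 4) - log x / 2)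

def prβ (μ X₀ : ℝ) (z : Fin 5 → ℝ → ℝ) (u P : ℝ → ℝ) (x : ℝ) : ℝ :=
  if x < X₀ then -(μ * tipy z x ^ 2 / (3 * tipp z x ^ 2)) * z 2 x * (tipp z x + q0)
  else (μ * exp (-(log x / 2)) / (4 * P (log x / 4) ^ 2) - μ / 3 * exp (u (log x / 4) - log x / 2)) / x

def prA (μ X₀ : ℝ) (z : Fin 5 → ℝ → ℝ) (u : ℝ → ℝ) (x : ℝ) : ℝ :=
  if x < X₀ then μ / (3 * tipy z x ^ 2) else μ / 3 * exp (log x / 2 - u (log x / 4))

def prh (X₀ : ℝ) (z : Fin 5 → ℝ → ℝ) (g : ℝ → ℝ) (x : ℝ) : ℝ :=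
  if x < X₀ then tipg z x else g (log x / 4)

end Pool.Agent.RS
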