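import Pool.Agent.Lib.MP_35abc2_gt.G9_Defs

/-! # G9a: the profile for x > 0 (MP_35abc2_gt) -/

open scoped ContDiff Topology
open Set Filter Real

noncomputable section

namespace Pool.Agent.RS

/-- G9a. The values for `x > 0` in terms of the solution.
PROOF. for `0 < x < X₀`: `T = log x/4 < log X₀/4` and `e^{u} = y² e^{2T}`, `P = p e^{-T}/y`; `3 - 4p² = -4 x z₂ (p + q0)`. -/
theorem pr_pos (μ κ X₀ : ℝ) (hμ : 0 < μ) (hX : 0 < X₀) (hX' : X₀ ≤ 1 / 100000) (z : Fin 5 → ℝ → ℝ)
    (u w P Φ g : ℝ → ℝ) (h : TipSol μ κ X₀ univ z u w P Φ g) (x : ℝ) (hx : 0 < x) :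
    prα μ X₀ z u x = μ / 3 * exp (u (log x / 4) - log x / 2) ∧
    prα μ X₀ z u x + x * prβ μ X₀ z u P x = μ * exp (-(log x / 2)) / (4 * P (log x / 4) ^ 2) ∧
    prA μ X₀ z u x = μ / 3 * exp (log x / 2 - u (log x / 4)) ∧
    prh X₀ z g x = g (log x / 4) := by
  by_cases hlt : x < X₀
  · have hT : log x / 4 < log X₀ / 4 := by
      have := Real.log_lt_log hx hlt
      linarith
    have he : Real.exp (4 * (log x / 4)) = x := by
      rw [mul_div_cancel₀ _ (by norm_num : (4 : ℝ) ≠ 0), Real.exp_log hx]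
    have hmem : x ∈ Ioo (-X₀) X₀ := ⟨by linarith, hlt⟩
    have hz0 := h.tip.bound 0 x hmem
    have hz2 := h.tip.bound 2 x hmem
    have hy : 0 < tipy z x := by
      unfold tipy
      have := abs_le.1 hz0
      nlinarith [this.1, this.2]
    have hq0 : q0 ^ 2 = 3 / 4 := by
      unfold q0
      rw [div_pow, Real.sq_sqrt (by norm_num)]; norm_num
    have hq0p : 1 / 2 < q0 := by
      have h0 : 0 ≤ q0 := by unfold q0; positivity
      nlinarith
    have hp : 0 < tipp z x := by
      unfold tipp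
      have := abs_le.1 hz2
      nlinarith [this.1, this.2]
    have hu : u (log x / 4) = log x / 2 + 2 * log (tipy z x) := by
      rw [h.eu _ hT]; unfold tipU; rw [he]; ring
    have hP : P (log x / 4) = tipp z x * Real.exp (-(log x / 4)) / tipy z x := by
      rw [h.eP _ hT]; unfold tipP; rw [he]
    have hg : g (log x / 4) = tipg z x := by
      rw [h.eg _ hT]; unfold tipG; rw [he]
    have hexpy : Real.exp (2 * log (tipy z x)) = tipy z x ^ 2 := by
      rw [mul_comm, Real.exp_mul, Real.exp_log hy]; norm_num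
    have hα : prα μ X₀ z u x = μ / 3 * tipy z x ^ 2 := by simp [prα, hlt]
    have hβ : prβ μ X₀ z u P x
        = -(μ * tipy z x ^ 2 / (3 * tipp z x ^ 2)) * z 2 x * (tipp z x + q0) := by simp [prβ, hlt]
    refine ⟨?_, ?_, ?_, ?_⟩
    · rw [hα, hu, show log x / 2 + 2 * log (tipy z x) - log x / 2 = 2 * log (tipy z x) by ring, hexpy]
    · rw [hα, hβ, hP]
      have hE : Real.exp (-(log x / 4)) ^ 2 = Real.exp (-(log x / 2)) := by
        rw [← Real.exp_nat_mul]; congr 1; push_cast; ring
      have hne : Real.exp (-(log x / 2)) ≠ 0 := (Real.exp_pos _).ne'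
      rw [div_pow, mul_pow, hE]
      have hp2 : tipp z x = q0 + x * z 2 x := rfl
      have key : x * z 2 x * (tipp z x + q0) = tipp z x ^ 2 - 3 / 4 := by
        rw [← hq0, hp2]; ring
      have e1 : μ / 3 * tipy z x ^ 2
          + x * (-(μ * tipy z x ^ 2 / (3 * tipp z x ^ 2)) * z 2 x * (tipp z x + q0))
          = μ / 3 * tipy z x ^ 2
          - μ * tipy z x ^ 2 / (3 * tipp z x ^ 2) * (x * z 2 x * (tipp z x + q0)) := by ring
      rw [e1, key]
      field_simp
      ring
    · have : prA μ X₀ z u x = μ / (3 * tipy z x ^ 2) := by simp [prA, hlt]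
      rw [this, hu, show log x / 2 - (log x / 2 + 2 * log (tipy z x)) = -(2 * log (tipy z x)) by ring,
        Real.exp_neg, hexpy]
      field_simp
    · have : prh X₀ z g x = tipg z x := by simp [prh, hlt]
      rw [this, hg]
  · have hα : prα μ X₀ z u x = μ / 3 * exp (u (log x / 4) - log x / 2) := by simp [prα, hlt]
    have hβ : prβ μ X₀ z u P x = (μ * exp (-(log x / 2)) / (4 * P (log x / 4) ^ 2)
        - μ / 3 * exp (u (log x / 4) - log x / 2)) / x := by simp [prβ, hlt]
    refine ⟨hα, ?_, by simp [prA, hlt], by simp [prh, hlt]⟩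
    rw [hα, hβ, mul_div_cancel₀ _ hx.ne']
    ring

end Pool.Agent.RS
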