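import Mathlib

/-! # T5: gluing and smoothness of solutions (MP_35abc2_gt) -/

open scoped ContDiff Topology NNReal
open Set Filter

noncomputable section

namespace Pool.Agent.RS

/-- Gluing at `b`: if `f₁` and `f₂` agree at `b` and both have derivative `c` at `b`, the glued function has derivative `c` at `b`. -/
theorem glue_hasDerivAt (f₁ f₂ : ℝ → ℝ) (b c : ℝ) (h : f₁ b = f₂ b) (h1 : HasDerivAt f₁ c b)
    (h2 : HasDerivAt f₂ c b) : HasDerivAt (fun t => if t ≤ b then f₁ t else f₂ t) c b := by
  have e1 : HasDerivWithinAt (fun t => if t ≤ b then f₁ t else f₂ t) c (Iic b) b := by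
    refine h1.hasDerivWithinAt.congr ?_ ?_
    · intro x hx
      exact if_pos hx
    · exact if_pos le_rfl
  have e2 : HasDerivWithinAt (fun t => if t ≤ b then f₁ t else f₂ t) c (Ici b) b := by
    refine h2.hasDerivWithinAt.congr ?_ ?_
    · intro x hx
      rcases eq_or_lt_of_le (show b ≤ x from hx) with h' | h'
      · subst h'
        rw [if_pos le_rfl, h]
      · rw [if_neg (not_le.2 h')]
    · rw [if_pos le_rfl, h]
  have := e1.union e2
  rw [Iic_union_Ici] at this
  exact this.hasDerivAt univ_mem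

theorem glue_hasDerivAt_left (f₁ f₂ : ℝ → ℝ) (b c t : ℝ) (ht : t < b) (h1 : HasDerivAt f₁ c t) :
    HasDerivAt (fun t => if t ≤ b then f₁ t else f₂ t) c t := by
  refine h1.congr_of_eventuallyEq ?_
  filter_upwards [Iio_mem_nhds ht] with x hx
  exact if_pos (le_of_lt hx)

theorem glue_hasDerivAt_right (f₁ f₂ : ℝ → ℝ) (b c t : ℝ) (ht : b < t) (h1 : HasDerivAt f₂ c t) :
    HasDerivAt (fun t => if t ≤ b then f₁ t else f₂ t) c t := by
  refine h1.congr_of_eventuallyEq ?_
  filter_upwards [Ioi_mem_nhds ht] with x hx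
  exact if_neg (not_le.2 hx)

/-- Solutions of a smooth (time dependent) differential equation are smooth: `f' = F (t, f t)` on an open set `I`, with
`F` smooth on an open set `U ⊆ ℝ × E` containing the graph.

PROOF. Induction: `f` is continuous on `I`; if `f` is `Cᵏ` on `I` then `f' = F ∘ (t, f t)` is `Cᵏ`, so `f` is `C^{k+1}`
(`contDiffOn_succ_iff_deriv_of_isOpen`, `contDiffOn_infty`). -/
theorem ode_smooth {E : Type*} [NormedAddCommGroup E] [NormedSpace ℝ E] (F : ℝ × E → E) (U : Set (ℝ × E))
    (hU : IsOpen U) (hF : ContDiffOn ℝ ∞ F U) (I : Set ℝ) (hI : IsOpen I) (f : ℝ → E)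
    (hmem : ∀ t ∈ I, (t, f t) ∈ U) (hf : ∀ t ∈ I, HasDerivAt f (F (t, f t)) t) : ContDiffOn ℝ ∞ f I := by
  have key : ∀ n : ℕ, ContDiffOn ℝ n f I := by
    intro n
    induction n with
    | zero =>
      rw [Nat.cast_zero, contDiffOn_zero]
      exact fun t ht => (hf t ht).continuousAt.continuousWithinAt
    | succ n ih =>
      have hcast : ((n + 1 : ℕ) : WithTop ℕ∞) = (n : WithTop ℕ∞) + 1 := by push_cast; rfl
      rw [hcast, contDiffOn_succ_iff_deriv_of_isOpen hI]
      refine ⟨fun t ht => (hf t ht).differentiableAt.differentiableWithinAt, by simp, ?_⟩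
      have hcomp : ContDiffOn ℝ n (fun t => F (t, f t)) I := by
        have h1 : ContDiffOn ℝ n (fun t => (t, f t)) I := contDiffOn_id.prodMk ih
        have h2 : ContDiffOn ℝ n F U := hF.of_le (by exact_mod_cast le_top)
        exact h2.comp h1 hmem
      exact hcomp.congr (fun t ht => (hf t ht).deriv)
  rw [contDiffOn_infty]
  exact key

end Pool.Agent.RS
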