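import Pool.Agent.Lib.MP_35abc2_gt.G9a_Pos
import Pool.Agent.Lib.MP_35abc2_gt.T5_Glue

/-! # G9b: the profile property (MP_35abc2_gt) -/

open scoped ContDiff Topology
open Set Filter Real

noncomputable section

namespace Pool.Agent.RS

/-- the solution functions are smooth -/
theorem g9b_smooth (μ κ : ℝ) (u w P Φ g : ℝ → ℝ) (h : SolM μ κ univ u w P Φ g) :
    ContDiff ℝ ∞ u ∧ ContDiff ℝ ∞ P ∧ ContDiff ℝ ∞ g := by
  let F : ℝ × (ℝ × ℝ × ℝ × ℝ × ℝ) → (ℝ × ℝ × ℝ × ℝ × ℝ) := fun q =>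
    (q.2.2.1,
     -((3 * cosh q.2.1 - μ * exp (2 * q.1) / 2) * q.2.2.1 + 6 * sinh q.2.1) / q.2.2.2.1 ^ 2,
     -3 * q.2.2.2.1 + (3 * cosh q.2.1 - μ * exp (2 * q.1) / 2) / q.2.2.2.1
       + μ * exp (2 * q.1) * q.2.2.2.2.1,
     -5 * q.2.2.2.2.1 + (3 * κ - q.2.2.2.2.2 + μ * exp (2 * q.1) * q.2.2.2.2.1 ^ 2) / q.2.2.2.1,
     μ * exp (2 * q.1) * q.2.2.2.2.1 / q.2.2.2.1)
  let U : Set (ℝ × (ℝ × ℝ × ℝ × ℝ × ℝ)) := {q | q.2.2.2.1 ≠ 0}
  have hU : IsOpen U := by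
    have : Continuous (fun q : ℝ × (ℝ × ℝ × ℝ × ℝ × ℝ) => q.2.2.2.1) := by fun_prop
    exact isOpen_compl_singleton.preimage this
  have c1 : ContDiff ℝ ∞ (fun q : ℝ × (ℝ × ℝ × ℝ × ℝ × ℝ) => q.2.1) := by fun_prop
  have c2 : ContDiff ℝ ∞ (fun q : ℝ × (ℝ × ℝ × ℝ × ℝ × ℝ) => q.2.2.1) := by fun_prop
  have c3 : ContDiff ℝ ∞ (fun q : ℝ × (ℝ × ℝ × ℝ × ℝ × ℝ) => q.2.2.2.1) := by fun_prop
  have c4 : ContDiff ℝ ∞ (fun q : ℝ × (ℝ × ℝ × ℝ × ℝ × ℝ) => q.2.2.2.2.1) := by fun_prop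
  have c5 : ContDiff ℝ ∞ (fun q : ℝ × (ℝ × ℝ × ℝ × ℝ × ℝ) => q.2.2.2.2.2) := by fun_prop
  have cs : ContDiff ℝ ∞ (fun q : ℝ × (ℝ × ℝ × ℝ × ℝ × ℝ) => μ * exp (2 * q.1)) := by fun_prop
  have cch : ContDiff ℝ ∞ (fun q : ℝ × (ℝ × ℝ × ℝ × ℝ × ℝ) => cosh q.2.1) :=
    Real.contDiff_cosh.comp c1
  have csh : ContDiff ℝ ∞ (fun q : ℝ × (ℝ × ℝ × ℝ × ℝ × ℝ) => sinh q.2.1) :=
    Real.contDiff_sinh.comp c1
  have cA : ContDiff ℝ ∞ (fun q : ℝ × (ℝ × ℝ × ℝ × ℝ × ℝ) =>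
      3 * cosh q.2.1 - μ * exp (2 * q.1) / 2) := (contDiff_const.mul cch).sub (cs.div_const 2)
  have hF : ContDiffOn ℝ ∞ F U := by
    refine ContDiffOn.prodMk c2.contDiffOn (ContDiffOn.prodMk ?_ (ContDiffOn.prodMk ?_
      (ContDiffOn.prodMk ?_ ?_)))
    · exact (((cA.mul c2).add (contDiff_const.mul csh)).neg).contDiffOn.div ((c3.pow 2).contDiffOn)
        (fun q hq => pow_ne_zero 2 hq)
    · exact ((contDiff_const.mul c3).contDiffOn.add (cA.contDiffOn.div c3.contDiffOn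
        (fun q hq => hq))).add (cs.mul c4).contDiffOn
    · exact (contDiff_const.mul c4).contDiffOn.add
        ((((contDiff_const.sub c5).add (cs.mul (c4.pow 2))).contDiffOn).div c3.contDiffOn
          (fun q hq => hq))
    · exact (cs.mul c4).contDiffOn.div c3.contDiffOn (fun q hq => hq)
  let f : ℝ → (ℝ × ℝ × ℝ × ℝ × ℝ) := fun T => (u T, w T, P T, Φ T, g T)
  have hf := ode_smooth F U hU hF univ isOpen_univ f
    (fun t _ => (h.pos t (mem_univ t)).ne') (fun t _ => by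
      have h1 := h.du t (mem_univ t)
      have h2 := h.dw t (mem_univ t)
      have h3 := h.dP t (mem_univ t)
      have h4 := h.dΦ t (mem_univ t)
      have h5 := h.dg t (mem_univ t)
      unfold sM at h2 h3 h4 h5
      exact h1.prodMk (h2.prodMk (h3.prodMk (h4.prodMk h5))))
  rw [contDiffOn_univ] at hf
  refine ⟨?_, ?_, ?_⟩
  · exact contDiff_fst.comp hf
  · exact contDiff_fst.comp (contDiff_snd.comp (contDiff_snd.comp hf))
  · exact contDiff_snd.comp (contDiff_snd.comp (contDiff_snd.comp (contDiff_snd.comp hf)))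

theorem g9b_q0 : 4 / 5 < q0 := by
  unfold q0
  have : (8 / 5 : ℝ) < Real.sqrt 3 := by
    rw [Real.lt_sqrt (by norm_num)]
    norm_num
  linarith

theorem g9b_bounds {μ κ X₀ : ℝ} (hX' : X₀ ≤ 1 / 100000) {z : Fin 5 → ℝ → ℝ} (h : Tip μ κ X₀ z)
    {x : ℝ} (hx : x ∈ Ioo (-X₀) X₀) : 0 < tipy z x ∧ 0 < tipp z x := by
  have hxa : |x| ≤ 1 / 100000 := by
    rw [abs_le]; constructor <;> linarith [hx.1, hx.2]
  have hb : ∀ j, |x * z j x| ≤ 1 / 10000 := by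
    intro j
    rw [abs_mul]
    calc |x| * |z j x| ≤ 1 / 100000 * 10 :=
          mul_le_mul hxa (h.bound j x hx) (abs_nonneg _) (by norm_num)
      _ = 1 / 10000 := by norm_num
  have h0 := abs_le.1 (hb 0)
  have h2 := abs_le.1 (hb 2)
  have hq := g9b_q0
  unfold tipy tipp
  constructor <;> linarith [h0.1, h2.1]

/-- gluing of smoothness on `(-X₀, X₀)` and `(0, ∞)` -/
theorem g9b_glue {X₀ : ℝ} (hX : 0 < X₀) {f a b : ℝ → ℝ} (hfa : ∀ x, x < X₀ → f x = a x)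
    (hfb : ∀ x, 0 < x → f x = b x) (ha : ContDiffOn ℝ ∞ a (Ioo (-X₀) X₀))
    (hb : ContDiffOn ℝ ∞ b (Ioi 0)) : ContDiffOn ℝ ∞ f (Ioi (-X₀)) := by
  intro x hx
  apply ContDiffAt.contDiffWithinAt
  rcases lt_or_ge x X₀ with h | h
  · have h1 : ContDiffAt ℝ ∞ a x := (ha x ⟨hx, h⟩).contDiffAt (isOpen_Ioo.mem_nhds ⟨hx, h⟩)
    exact h1.congr_of_eventuallyEq (Filter.eventuallyEq_of_mem (isOpen_Iio.mem_nhds h)
      (fun y hy => hfa y hy))
  · have h0 : 0 < x := hX.trans_le h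
    have h1 : ContDiffAt ℝ ∞ b x := (hb x h0).contDiffAt (isOpen_Ioi.mem_nhds h0)
    exact h1.congr_of_eventuallyEq (Filter.eventuallyEq_of_mem (isOpen_Ioi.mem_nhds h0)
      (fun y hy => hfb y hy))

/-- G9b. The profile property.
PROOF. Smoothness on `(-X₀, X₀)`: tip formulas (`Tip.smooth`, `y, p ≠ 0` there as `|xz_j| ≤ 10⁻⁴`); on `(0,∞)`: G9a and smoothness of `u, P, g` (`ode_smooth` applied to
the vector `(u,w,P,Φ,g)`, which satisfies `SolM`); the two open sets cover `(-X₀,∞)` (`ContDiffOn.union_of_isOpen`/local property; near `X₀` use G9a).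
Positivity: `x = 0`: `α = μ/3`, `α + 0 = μ/3`, `A = μ/3`; `x > 0`: G9a.  `comp`: for `x ≥ e^{4Tc}`, `(α + xβ)√(1+x) ≥ μ x^{-1/2}/(16) · x^{1/2} = μ/16`; on the compact `[0, e^{4Tc}]` the
continuous positive function has a positive minimum. -/
theorem pr_profile (μ κ X₀ : ℝ) (hμ : 0 < μ) (hX : 0 < X₀) (hX' : X₀ ≤ 1 / 100000)
    (z : Fin 5 → ℝ → ℝ) (u w P Φ g : ℝ → ℝ) (h : TipSol μ κ X₀ univ z u w P Φ g) (Tc : ℝ)
    (hTc : ∀ T, Tc ≤ T → P T ≤ 2) :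
    Profile (prα μ X₀ z u) (prβ μ X₀ z u P) (prA μ X₀ z u) (prh X₀ z g) X₀ := by
  obtain ⟨su, sP, sg⟩ := g9b_smooth μ κ u w P Φ g h.sol
  have hpos := fun x hx => pr_pos μ κ X₀ hμ hX hX' z u w P Φ g h x hx
  have hlog : ContDiffOn ℝ ∞ (fun x : ℝ => log x) (Ioi 0) := fun x hx =>
    (Real.contDiffAt_log.2 (ne_of_gt hx)).contDiffWithinAt
  have hlog4 : ContDiffOn ℝ ∞ (fun x : ℝ => log x / 4) (Ioi 0) := hlog.div_const 4
  have hlog2 : ContDiffOn ℝ ∞ (fun x : ℝ => log x / 2) (Ioi 0) := hlog.div_const 2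
  have hu4 : ContDiffOn ℝ ∞ (fun x : ℝ => u (log x / 4)) (Ioi 0) := su.comp_contDiffOn hlog4
  have hP4 : ContDiffOn ℝ ∞ (fun x : ℝ => P (log x / 4)) (Ioi 0) := sP.comp_contDiffOn hlog4
  have hg4 : ContDiffOn ℝ ∞ (fun x : ℝ => g (log x / 4)) (Ioi 0) := sg.comp_contDiffOn hlog4
  have hid : ContDiffOn ℝ ∞ (fun x : ℝ => x) (Ioo (-X₀) X₀) := contDiff_id.contDiffOn
  have hy : ContDiffOn ℝ ∞ (tipy z) (Ioo (-X₀) X₀) :=
    contDiffOn_const.add (hid.mul (h.tip.smooth 0))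
  have hp : ContDiffOn ℝ ∞ (tipp z) (Ioo (-X₀) X₀) :=
    contDiffOn_const.add (hid.mul (h.tip.smooth 2))
  have hy0 : ∀ x ∈ Ioo (-X₀) X₀, tipy z x ≠ 0 := fun x hx => (g9b_bounds hX' h.tip hx).1.ne'
  have hp0 : ∀ x ∈ Ioo (-X₀) X₀, tipp z x ≠ 0 := fun x hx => (g9b_bounds hX' h.tip hx).2.ne'
  have hP0 : ∀ T, P T ≠ 0 := fun T => (h.sol.pos T (mem_univ T)).ne'
  have hα : ContDiffOn ℝ ∞ (prα μ X₀ z u) (Ioi (-X₀)) := by
    refine g9b_glue hX (a := fun x => μ / 3 * tipy z x ^ 2)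
      (b := fun x => μ / 3 * exp (u (log x / 4) - log x / 2)) ?_ (fun x hx => (hpos x hx).1) ?_ ?_
    · intro x hx; unfold prα; rw [if_pos hx]
    · exact contDiffOn_const.mul (hy.pow 2)
    · exact contDiffOn_const.mul (Real.contDiff_exp.comp_contDiffOn (hu4.sub hlog2))
  have hl : ∀ x, 0 < x → prα μ X₀ z u x + x * prβ μ X₀ z u P x
      = μ * exp (-(log x / 2)) / (4 * P (log x / 4) ^ 2) := fun x hx => (hpos x hx).2.1
  have hβ : ContDiffOn ℝ ∞ (prβ μ X₀ z u P) (Ioi (-X₀)) := by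
    refine g9b_glue hX (a := fun x => -(μ * tipy z x ^ 2 / (3 * tipp z x ^ 2)) * z 2 x
        * (tipp z x + q0))
      (b := fun x => (μ * exp (-(log x / 2)) / (4 * P (log x / 4) ^ 2)
        - μ / 3 * exp (u (log x / 4) - log x / 2)) / x) ?_ ?_ ?_ ?_
    · intro x hx; unfold prβ; rw [if_pos hx]
    · intro x hx
      have h1 := hl x hx
      have h2 := (hpos x hx).1
      rw [← h1, ← h2]
      field_simp
      ring
    · refine ((((contDiffOn_const.mul (hy.pow 2)).div (contDiffOn_const.mul (hp.pow 2))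
        (fun x hx => ?_)).neg).mul (h.tip.smooth 2)).mul (hp.add contDiffOn_const)
      exact mul_ne_zero three_ne_zero (pow_ne_zero 2 (hp0 x hx))
    · refine (((contDiffOn_const.mul (Real.contDiff_exp.comp_contDiffOn hlog2.neg)).div
        (contDiffOn_const.mul (hP4.pow 2)) (fun x _ => ?_)).sub
        (contDiffOn_const.mul (Real.contDiff_exp.comp_contDiffOn (hu4.sub hlog2)))).div
        contDiff_id.contDiffOn (fun x hx => ne_of_gt hx)
      exact mul_ne_zero four_ne_zero (pow_ne_zero 2 (hP0 _))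
  have hA : ContDiffOn ℝ ∞ (prA μ X₀ z u) (Ioi (-X₀)) := by
    refine g9b_glue hX (a := fun x => μ / (3 * tipy z x ^ 2))
      (b := fun x => μ / 3 * exp (log x / 2 - u (log x / 4))) ?_ (fun x hx => (hpos x hx).2.2.1) ?_ ?_
    · intro x hx; unfold prA; rw [if_pos hx]
    · refine contDiffOn_const.div (contDiffOn_const.mul (hy.pow 2)) (fun x hx => ?_)
      exact mul_ne_zero three_ne_zero (pow_ne_zero 2 (hy0 x hx))
    · exact contDiffOn_const.mul (Real.contDiff_exp.comp_contDiffOn (hlog2.sub hu4))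
  have hh : ContDiffOn ℝ ∞ (prh X₀ z g) (Ioi (-X₀)) := by
    refine g9b_glue hX (a := fun x => tipg z x)
      (b := fun x => g (log x / 4)) ?_ (fun x hx => (hpos x hx).2.2.2) ?_ hg4
    · intro x hx; unfold prh; rw [if_pos hx]
    · exact hid.mul (h.tip.smooth 4)
  have y0 : tipy z 0 = 1 := by unfold tipy; simp
  have hpα : ∀ x, 0 ≤ x → 0 < prα μ X₀ z u x := by
    intro x hx
    rcases hx.eq_or_lt with rfl | hx
    · unfold prα; rw [if_pos hX, y0]; positivity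
    · rw [(hpos x hx).1]; positivity
  have hpl : ∀ x, 0 ≤ x → 0 < prα μ X₀ z u x + x * prβ μ X₀ z u P x := by
    intro x hx
    rcases hx.eq_or_lt with rfl | hx
    · rw [zero_mul, add_zero]; exact hpα 0 le_rfl
    · rw [hl x hx]
      have := h.sol.pos (log x / 4) (mem_univ _)
      positivity
  have hpA : ∀ x, 0 ≤ x → 0 < prA μ X₀ z u x := by
    intro x hx
    rcases hx.eq_or_lt with rfl | hx
    · unfold prA; rw [if_pos hX, y0]; positivity
    · rw [(hpos x hx).2.2.1]; positivity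
  refine ⟨hX, hα, hβ, hA, hh, hpα, hpl, hpA, ?_⟩
  -- completeness of the radial direction
  set M := exp (4 * Tc) with hM
  have hM0 : 0 < M := exp_pos _
  have hsub : Icc 0 M ⊆ Ioi (-X₀) := fun x hx => by
    have := hx.1
    simp only [mem_Ioi]; linarith
  have hcont : ContinuousOn (fun x => (prα μ X₀ z u x + x * prβ μ X₀ z u P x) * Real.sqrt (1 + x))
      (Icc 0 M) := by
    refine ((hα.continuousOn.mono hsub).add (continuousOn_id.mul (hβ.continuousOn.mono hsub))).mul ?_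
    exact (Real.continuous_sqrt.comp (continuous_const.add continuous_id)).continuousOn
  obtain ⟨x₁, hx₁, hmin⟩ := isCompact_Icc.exists_isMinOn (nonempty_Icc.2 hM0.le) hcont
  have hc1 : 0 < (prα μ X₀ z u x₁ + x₁ * prβ μ X₀ z u P x₁) * Real.sqrt (1 + x₁) :=
    mul_pos (hpl x₁ hx₁.1) (Real.sqrt_pos.2 (by linarith [hx₁.1]))
  refine ⟨min ((prα μ X₀ z u x₁ + x₁ * prβ μ X₀ z u P x₁) * Real.sqrt (1 + x₁)) (μ / 16),
    lt_min hc1 (by positivity), ?_⟩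
  intro x hx
  rcases le_or_gt x M with hxM | hxM
  · exact (min_le_left _ _).trans (hmin ⟨hx, hxM⟩)
  · refine (min_le_right _ _).trans ?_
    have hx0 : 0 < x := hM0.trans hxM
    rw [hl x hx0]
    have hT : Tc ≤ log x / 4 := by
      have : 4 * Tc ≤ log x := by
        rw [← log_exp (4 * Tc)]
        exact log_le_log hM0 hxM.le
      linarith
    have hP2 := hTc _ hT
    have hPp := h.sol.pos (log x / 4) (mem_univ _)
    have hP4' : 4 * P (log x / 4) ^ 2 ≤ 16 := by nlinarith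
    have hexp : exp (-(log x / 2)) = (Real.sqrt x)⁻¹ := by
      rw [exp_neg, Real.sqrt_eq_rpow, Real.rpow_def_of_pos hx0]
      congr 2
      ring
    have hsq : Real.sqrt x ≤ Real.sqrt (1 + x) := Real.sqrt_le_sqrt (by linarith)
    have hsx : 0 < Real.sqrt x := Real.sqrt_pos.2 hx0
    have h1 : 1 ≤ exp (-(log x / 2)) * Real.sqrt (1 + x) := by
      rw [hexp]
      calc (1 : ℝ) = (Real.sqrt x)⁻¹ * Real.sqrt x := by field_simp
        _ ≤ (Real.sqrt x)⁻¹ * Real.sqrt (1 + x) := by gcongr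
    calc μ / 16 = μ * 1 / 16 := by ring
      _ ≤ μ * (exp (-(log x / 2)) * Real.sqrt (1 + x)) / 16 := by gcongr
      _ ≤ μ * (exp (-(log x / 2)) * Real.sqrt (1 + x)) / (4 * P (log x / 4) ^ 2) := by
          gcongr
      _ = μ * exp (-(log x / 2)) / (4 * P (log x / 4) ^ 2) * Real.sqrt (1 + x) := by ring

end Pool.Agent.RS
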