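import Pool.Agent.Lib.MP_35abc2_gt.G9a_Pos

/-! # G9c: the radial functions (MP_35abc2_gt) -/

open scoped ContDiff Topology
open Set Filter Real

noncomputable section

namespace Pool.Agent.RS

/-- G9c. The radial functions (`T = τ/2`) and the soliton equations.

PROOF. `Sf = (s/3)e^u`, `Λ = s/(4P²)`, `B = (s/3)e^{-u}`, `H = g` at `T = τ/2`, `s = μe^τ` (G9a).  With `' = d/dT`, `P' = -3P + (3cosh u - s/2)/P + sΦ`,
`w' = -((3cosh u - s/2)w + 6sinh u)/P²`: `a1 = 1/2 + w/4`, `a2 = 1/2 - w/4`, `ℓ = (1 - P'/P)/2`, `h1 = sΦ/(2P)`, `a1' = w'/8`, `a2' = -w'/8`, `h1' = ½ (sΦ/(2P))'`,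
`ℓ' = ½ ((1 - P'/P)/2)'` (all explicit in terms of `s,u,w,P,Φ,g`), `R = scalR κ s Φ g`.  I1-I4 are algebraic identities modulo `conK = 0`
(solve `3κ - g` from `conK = 0`; `cosh u = (e^u+e^{-u})/2`, `sinh u`; `field_simp; ring`). (Checked numerically.) -/
theorem pr_radial (μ κ X₀ : ℝ) (hμ : 0 < μ) (hX : 0 < X₀) (hX' : X₀ ≤ 1 / 100000)
    (z : Fin 5 → ℝ → ℝ) (u w P Φ g : ℝ → ℝ) (h : TipSol μ κ X₀ univ z u w P Φ g) :
    ∃ Sf Λ B H ℓ a1 a2 h1 ℓ' a1' a2' h1' : ℝ → ℝ,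
      Radial (prα μ X₀ z u) (prβ μ X₀ z u P) (prA μ X₀ z u) (prh X₀ z g)
        Sf Λ B H ℓ a1 a2 h1 ℓ' a1' a2' h1'
        (fun τ => scalR κ (sM μ (τ / 2)) (Φ (τ / 2)) (g (τ / 2))) := by
  have hsol := h.sol
  -- derivatives with respect to `τ`
  have hhalf : ∀ τ : ℝ, HasDerivAt (fun τ : ℝ => τ / 2) (1 / 2) τ := fun τ =>
    (hasDerivAt_id τ).div_const 2
  have hU : ∀ τ, HasDerivAt (fun τ => u (τ / 2)) (w (τ / 2) * (1 / 2)) τ := fun τ =>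
    (hsol.du (τ / 2) (mem_univ _)).comp τ (hhalf τ)
  have hW : ∀ τ, HasDerivAt (fun τ => w (τ / 2))
      (-((3 * cosh (u (τ / 2)) - sM μ (τ / 2) / 2) * w (τ / 2) + 6 * sinh (u (τ / 2)))
        / P (τ / 2) ^ 2 * (1 / 2)) τ := fun τ =>
    (hsol.dw (τ / 2) (mem_univ _)).comp τ (hhalf τ)
  have hP : ∀ τ, HasDerivAt (fun τ => P (τ / 2))
      ((-3 * P (τ / 2) + (3 * cosh (u (τ / 2)) - sM μ (τ / 2) / 2) / P (τ / 2)
        + sM μ (τ / 2) * Φ (τ / 2)) * (1 / 2)) τ := fun τ =>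
    (hsol.dP (τ / 2) (mem_univ _)).comp τ (hhalf τ)
  have hF : ∀ τ, HasDerivAt (fun τ => Φ (τ / 2))
      ((-5 * Φ (τ / 2) + (3 * κ - g (τ / 2) + sM μ (τ / 2) * Φ (τ / 2) ^ 2) / P (τ / 2))
        * (1 / 2)) τ := fun τ =>
    (hsol.dΦ (τ / 2) (mem_univ _)).comp τ (hhalf τ)
  have hG : ∀ τ, HasDerivAt (fun τ => g (τ / 2))
      (sM μ (τ / 2) * Φ (τ / 2) / P (τ / 2) * (1 / 2)) τ := fun τ =>
    (hsol.dg (τ / 2) (mem_univ _)).comp τ (hhalf τ)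
  have hs : ∀ τ, HasDerivAt (fun τ => sM μ (τ / 2)) (sM μ (τ / 2)) τ := by
    intro τ
    have h1 : HasDerivAt (fun τ : ℝ => 2 * (τ / 2)) 1 τ := by
      refine ((hhalf τ).const_mul 2).congr_deriv ?_
      norm_num
    unfold sM
    refine (h1.exp.const_mul μ).congr_deriv ?_
    ring
  have hPp : ∀ τ, 0 < P (τ / 2) := fun τ => hsol.pos _ (mem_univ _)
  have hsp : ∀ τ, 0 < sM μ (τ / 2) := fun τ => by unfold sM; positivity
  have hC : ∀ τ, HasDerivAt (fun τ => cosh (u (τ / 2)))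
      (sinh (u (τ / 2)) * (w (τ / 2) * (1 / 2))) τ := fun τ => (hU τ).cosh
  -- `x = e^{2τ}`
  have hlog : ∀ τ : ℝ, log (exp (2 * τ)) / 4 = τ / 2 := fun τ => by rw [log_exp]; ring
  have hlog2 : ∀ τ : ℝ, log (exp (2 * τ)) / 2 = τ := fun τ => by rw [log_exp]; ring
  have hpos := fun τ : ℝ => pr_pos μ κ X₀ hμ hX hX' z u w P Φ g h (exp (2 * τ)) (exp_pos _)
  have hexp2 : ∀ τ : ℝ, exp (2 * τ) = exp τ * exp τ := fun τ => by
    rw [← exp_add]; ring_nf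
  have hsM : ∀ τ : ℝ, sM μ (τ / 2) = μ * exp τ := fun τ => by
    unfold sM; ring_nf
  refine ⟨fun τ => sM μ (τ / 2) / 3 * exp (u (τ / 2)),
    fun τ => sM μ (τ / 2) / (4 * P (τ / 2) ^ 2),
    fun τ => sM μ (τ / 2) / 3 * exp (-u (τ / 2)),
    fun τ => g (τ / 2),
    fun τ => 1 / 2 - (-3 * P (τ / 2) + (3 * cosh (u (τ / 2)) - sM μ (τ / 2) / 2) / P (τ / 2)
        + sM μ (τ / 2) * Φ (τ / 2)) / P (τ / 2) / 2,
    fun τ => 1 / 2 + w (τ / 2) / 4,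
    fun τ => 1 / 2 - w (τ / 2) / 4,
    fun τ => sM μ (τ / 2) * Φ (τ / 2) / P (τ / 2) * (1 / 2),
    fun τ => -(1 / 4) * ((3 * sinh (u (τ / 2)) * w (τ / 2) - sM μ (τ / 2)) / P (τ / 2) ^ 2
      - 2 * (3 * cosh (u (τ / 2)) - sM μ (τ / 2) / 2) * (-3 * P (τ / 2)
        + (3 * cosh (u (τ / 2)) - sM μ (τ / 2) / 2) / P (τ / 2) + sM μ (τ / 2) * Φ (τ / 2))
        / P (τ / 2) ^ 3
      + (2 * sM μ (τ / 2) * Φ (τ / 2) + sM μ (τ / 2) * (-5 * Φ (τ / 2)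
        + (3 * κ - g (τ / 2) + sM μ (τ / 2) * Φ (τ / 2) ^ 2) / P (τ / 2))) / P (τ / 2)
      - sM μ (τ / 2) * Φ (τ / 2) * (-3 * P (τ / 2)
        + (3 * cosh (u (τ / 2)) - sM μ (τ / 2) / 2) / P (τ / 2) + sM μ (τ / 2) * Φ (τ / 2))
        / P (τ / 2) ^ 2),
    fun τ => -((3 * cosh (u (τ / 2)) - sM μ (τ / 2) / 2) * w (τ / 2) + 6 * sinh (u (τ / 2)))
        / P (τ / 2) ^ 2 / 8,
    fun τ => ((3 * cosh (u (τ / 2)) - sM μ (τ / 2) / 2) * w (τ / 2) + 6 * sinh (u (τ / 2)))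
        / P (τ / 2) ^ 2 / 8,
    fun τ => 1 / 4 * ((2 * sM μ (τ / 2) * Φ (τ / 2) + sM μ (τ / 2) * (-5 * Φ (τ / 2)
        + (3 * κ - g (τ / 2) + sM μ (τ / 2) * Φ (τ / 2) ^ 2) / P (τ / 2))) / P (τ / 2)
      - sM μ (τ / 2) * Φ (τ / 2) * (-3 * P (τ / 2)
        + (3 * cosh (u (τ / 2)) - sM μ (τ / 2) / 2) / P (τ / 2) + sM μ (τ / 2) * Φ (τ / 2))
        / P (τ / 2) ^ 2), ?_⟩
  refine ⟨?_, ?_, ?_, ?_, ?_, ?_, ?_, ?_, ?_, ?_, ?_, ?_, ?_, ?_, ?_, ?_, ?_, ?_, ?_⟩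
  · -- eS
    intro τ
    rw [(hpos τ).1, hlog, hlog2, hsM, exp_sub, hexp2]
    field_simp
  · -- eΛ
    intro τ
    rw [(hpos τ).2.1, hlog, hlog2, hsM, exp_neg, hexp2]
    field_simp
  · -- eB
    intro τ
    rw [(hpos τ).2.2.1, hlog, hlog2, hsM, exp_sub, exp_neg]
    field_simp
  · -- eH
    intro τ
    rw [(hpos τ).2.2.2, hlog]
  · intro τ
    have := hsp τ
    positivity
  · intro τ
    have h1 := hsp τ
    have h2 := hPp τ
    positivity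
  · intro τ
    have := hsp τ
    positivity
  · -- dS
    intro τ
    refine (((hs τ).div_const 3).mul (hU τ).exp).congr_deriv ?_
    ring
  · -- dΛ
    intro τ
    have h2 := (hPp τ).ne'
    refine ((hs τ).div (((hP τ).pow 2).const_mul 4) (by
      simp only [Pi.pow_apply]; positivity)).congr_deriv ?_
    simp only [Pi.pow_apply, Nat.cast_ofNat]
    field_simp
    ring
  · -- dB
    intro τ
    refine (((hs τ).div_const 3).mul (hU τ).neg.exp).congr_deriv ?_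
    simp only [Pi.neg_apply]
    ring
  · -- dH
    intro τ
    exact hG τ
  · -- dℓ
    intro τ
    have h2 := (hPp τ).ne'
    have h3 : HasDerivAt (fun τ => (3 : ℝ) / 2 + 1 / 2 - ((3 * cosh (u (τ / 2)) - sM μ (τ / 2) / 2)
        / P (τ / 2) ^ 2 + sM μ (τ / 2) * Φ (τ / 2) / P (τ / 2)) / 2) (-(1 / 4) * ((3 * sinh (u (τ / 2)) * w (τ / 2) - sM μ (τ / 2)) / P (τ / 2) ^ 2
      - 2 * (3 * cosh (u (τ / 2)) - sM μ (τ / 2) / 2) * (-3 * P (τ / 2)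
        + (3 * cosh (u (τ / 2)) - sM μ (τ / 2) / 2) / P (τ / 2) + sM μ (τ / 2) * Φ (τ / 2))
        / P (τ / 2) ^ 3
      + (2 * sM μ (τ / 2) * Φ (τ / 2) + sM μ (τ / 2) * (-5 * Φ (τ / 2)
        + (3 * κ - g (τ / 2) + sM μ (τ / 2) * Φ (τ / 2) ^ 2) / P (τ / 2))) / P (τ / 2)
      - sM μ (τ / 2) * Φ (τ / 2) * (-3 * P (τ / 2)
        + (3 * cosh (u (τ / 2)) - sM μ (τ / 2) / 2) / P (τ / 2) + sM μ (τ / 2) * Φ (τ / 2))
        / P (τ / 2) ^ 2)) τ := by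
      refine ((((((hC τ).const_mul 3).sub ((hs τ).div_const 2)).div ((hP τ).pow 2) (by
        simp only [Pi.pow_apply]; positivity)).add (((hs τ).mul (hF τ)).div (hP τ) h2)).div_const
        2).const_sub (3 / 2 + 1 / 2) |>.congr_deriv ?_
      simp only [Pi.pow_apply, Nat.cast_ofNat, Pi.mul_apply, Pi.sub_apply]
      field_simp
      ring
    refine h3.congr_of_eventuallyEq (Filter.Eventually.of_forall fun t => ?_)
    have h4 := (hPp t).ne'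
    simp only []
    field_simp
    ring
  · -- da1
    intro τ
    refine (((hW τ).div_const 4).const_add (1 / 2)).congr_deriv ?_
    ring
  · -- da2
    intro τ
    refine (((hW τ).div_const 4).const_sub (1 / 2)).congr_deriv ?_
    ring
  · -- dh1
    intro τ
    have h2 := (hPp τ).ne'
    refine ((((hs τ).mul (hF τ)).div (hP τ) h2).mul_const (1 / 2)).congr_deriv ?_
    simp only [Pi.mul_apply]
    field_simp
    ring
  · -- I1
    intro τ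
    have h2 := (hPp τ).ne'
    have h3 := (hsp τ).ne'
    have hc := hsol.con (τ / 2) (mem_univ _)
    unfold conK at hc
    have h5 : 3 * κ - g (τ / 2) = (12 * cosh (u (τ / 2)) - 12 * P (τ / 2) ^ 2
      + P (τ / 2) ^ 2 * w (τ / 2) ^ 2 + 8 * sM μ (τ / 2) * P (τ / 2) * Φ (τ / 2)
      - sM μ (τ / 2) ^ 2 * Φ (τ / 2) ^ 2 - 3 / 2 * sM μ (τ / 2)) / sM μ (τ / 2) := by
      rw [eq_div_iff h3]
      linarith
    rw [h5]
    field_simp
    ring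
  · -- I2
    intro τ
    have h2 := (hPp τ).ne'
    have h3 := (hsp τ).ne'
    rw [cosh_eq, sinh_eq, exp_neg]
    have hE := (exp_pos (u (τ / 2))).ne'
    field_simp
    ring
  · -- I3
    intro τ
    have h2 := (hPp τ).ne'
    have h3 := (hsp τ).ne'
    rw [cosh_eq, sinh_eq, exp_neg]
    have hE := (exp_pos (u (τ / 2))).ne'
    field_simp
    ring
  · -- I4
    intro τ
    have h2 := (hPp τ).ne'
    have h3 := (hsp τ).ne'
    unfold scalR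
    field_simp
    ring

end Pool.Agent.RS
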