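import Pool.Agent.Lib.MP_35abc2_gt.D1_Defs
import Pool.Agent.Lib.MP_35abc2_gt.C3_Defs

/-! # H0: definitions for the shooting argument (MP_35abc2_gt) -/

open scoped ContDiff Topology NNReal
open Set Filter Real

noncomputable section

namespace Pool.Agent.RS

/-- the time `T` at which `s = μ e^{2T} = 1/100` -/
def tZ (μ : ℝ) : ℝ := log (1 / (100 * μ)) / 2

/-- `D = P P'` in terms of the values -/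
def DD (s u P Φ : ℝ) : ℝ := -3 * P ^ 2 + 3 * cosh u - s / 2 + s * P * Φ

/-- `𝒥_i` at `σ₀` in terms of the values `u, w` there -/
def J0 (U V : ℝ → ℝ) (u w : ℝ) : ℝ := nn sigZ * (w * U sigZ - u * V sigZ)

/-- the shooting data at `s = 1/100` on the rectangle `[μa,μb] × [κa,κb]`: values `a0 = u`, `a1 = w`, `a2 = P² - 1`, `a3 = D`. -/
structure ShootData (U₁ V₁ U₂ V₂ : ℝ → ℝ) (k ζ μa μb κa κb : ℝ) (a0 a1 a2 a3 : ℝ × ℝ → ℝ) : Prop where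
  hμ : μa < μb
  hκ : κa < κb
  c0 : ContinuousOn a0 (Icc μa μb ×ˢ Icc κa κb)
  c1 : ContinuousOn a1 (Icc μa μb ×ˢ Icc κa κb)
  c2 : ContinuousOn a2 (Icc μa μb ×ˢ Icc κa κb)
  c3 : ContinuousOn a3 (Icc μa μb ×ˢ Icc κa κb)
  b0 : ∀ p ∈ Icc μa μb ×ˢ Icc κa κb, |a0 p| ≤ ζ
  b1 : ∀ p ∈ Icc μa μb ×ˢ Icc κa κb, |a1 p| ≤ ζ
  b2 : ∀ p ∈ Icc μa μb ×ˢ Icc κa κb, |a2 p| ≤ k
  b3 : ∀ p ∈ Icc μa μb ×ˢ Icc κa κb, |a3 p| ≤ k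
  top2 : ∀ μ ∈ Icc μa μb, k / 1000 ≤ a2 (μ, κb)
  top3 : ∀ μ ∈ Icc μa μb, 0 < a3 (μ, κb)
  bot2 : ∀ μ ∈ Icc μa μb, a2 (μ, κa) ≤ -(k / 1000)
  bot3 : ∀ μ ∈ Icc μa μb, a3 (μ, κa) < 0
  right2 : ∀ κ ∈ Icc κa κb, 0 < J0 U₂ V₂ (a0 (μb, κ)) (a1 (μb, κ))
  right1 : ∀ κ ∈ Icc κa κb,
    |J0 U₁ V₁ (a0 (μb, κ)) (a1 (μb, κ))| ≤ J0 U₂ V₂ (a0 (μb, κ)) (a1 (μb, κ)) / 8
  left2 : ∀ κ ∈ Icc κa κb, J0 U₂ V₂ (a0 (μa, κ)) (a1 (μa, κ)) < 0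
  left1 : ∀ κ ∈ Icc κa κb,
    |J0 U₁ V₁ (a0 (μa, κ)) (a1 (μa, κ))| ≤ -J0 U₂ V₂ (a0 (μa, κ)) (a1 (μa, κ)) / 8

end Pool.Agent.RS
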