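import Pool.Agent.Lib.MP_35abc2_gt.H0_Defs
import Pool.Agent.Lib.MP_35abc2_gt.D2_Precise

/-! # H1a: end values of the near-cone region (MP_35abc2_gt) -/

open scoped ContDiff Topology NNReal
open Set Filter Real

noncomputable section

namespace Pool.Agent.RS

/-- bounds for `u², w²` by `zz` -/
theorem h1a_zz_bounds (u w : ℝ) : u ^ 2 ≤ 4 / 15 * zz u w ∧ w ^ 2 ≤ 8 / 5 * zz u w := by
  unfold zz
  constructor
  · nlinarith [sq_nonneg (w + 3 / 2 * u)]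
  · nlinarith [sq_nonneg (3 * w + 3 / 2 * 3 * u), sq_nonneg (w + 4 * u), sq_nonneg (2 * w + 3 * u),
      sq_nonneg ((w + 3 / 2 * u) * 3 + 5 / 2 * 3 * u)]

theorem h1a_zz_nonneg (u w : ℝ) : 0 ≤ zz u w := by
  unfold zz; positivity

/-- `DD = P (-6p + N_p)` -/
theorem h1a_DD_eq (s u p φ : ℝ) (hp : 1 + p ≠ 0) :
    DD s u (1 + p) (1 / 2 + φ) = (1 + p) * (-6 * p + Np s u p φ) := by
  unfold DD Np
  field_simp
  ring

/-- H1a1. Values at the end `s = 1/100`.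

PROOF. `near_precise` at `t = b` (`s = 1/100`, `η = 10⁻⁶`): `|p - (3/4000)k'| ≤ 4.7·10⁻⁶ k`, `|p' - (3/2000)k'| ≤ 6.5·10⁻⁵ k` with
`p' = -6p + N_p`; `q = P² - 1 = 2p + p²`, `DD = P p'` (algebra: `-3P² + 3cosh u - s/2 + sPΦ = P (-6p + N_p)` for `P = 1+p`, `Φ = 1/2+φ`).
So `|q|, |DD| ≤ k/500`; for `k' = ±k`: `±q, ±DD ≥ k/1000`.  `|R| = |-3k' + γ - sφ - sφ²| ≤ 4k` on `[a,b]` by `near_pgf`;
`|u|, |w| ≤ 1.27 √zz`. -/
theorem near_end (k a b : ℝ) (v : ℝ → Fin 7 → ℝ) (h : NearHyp k (1 / 10 ^ 6) a b v)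
    (hb : v b 0 = 1 / 100) :
    |(1 + v b 3) ^ 2 - 1| ≤ k ∧ |DD (1 / 100) (v b 1) (1 + v b 3) (1 / 2 + v b 4)| ≤ k ∧
    (v a 6 = k → k / 1000 ≤ (1 + v b 3) ^ 2 - 1 ∧
      0 < DD (1 / 100) (v b 1) (1 + v b 3) (1 / 2 + v b 4)) ∧
    (v a 6 = -k → (1 + v b 3) ^ 2 - 1 ≤ -(k / 1000) ∧
      DD (1 / 100) (v b 1) (1 + v b 3) (1 / 2 + v b 4) < 0) ∧
    (∀ t ∈ Icc a b, |scalR (5 / 6 + v a 6) (v t 0) (1 / 2 + v t 4) (v t 0 / 4 + v t 5)| ≤ 4 * k) ∧
    v b 1 ^ 2 ≤ 2 * zz (v a 1) (v a 2) ∧ v b 2 ^ 2 ≤ 2 * zz (v a 1) (v a 2) := by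
  have hk := h.hk
  have hk' := h.hk'
  have hk0 := abs_le.1 h.k0
  have hbm : b ∈ Icc a b := ⟨h.hab, le_refl b⟩
  obtain ⟨hpr1, hpr2⟩ := near_precise k (1 / 10 ^ 6) a b v h b hbm
  rw [hb] at hpr1 hpr2
  set p := v b 3 with hpdef
  set κ' := v a 6 with hκ
  set p' := -6 * p + Np (1 / 100) (v b 1) p (v b 4) with hp'def
  have h1 := abs_le.1 hpr1
  have h2 := abs_le.1 hpr2
  have hpb : |p| ≤ k / 1000 := by
    rw [abs_le]; constructor <;> linarith [h1.1, h1.2, hk0.1, hk0.2]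
  have hpb' := abs_le.1 hpb
  have hP : 1 + p ≠ 0 := by
    have : -(1 / 100000 : ℝ) ≤ p := by linarith [hpb'.1]
    intro h0; linarith
  have hDD := h1a_DD_eq (1 / 100) (v b 1) p (v b 4) hP
  rw [← hp'def] at hDD
  have hP1 : 0 < 1 + p := by linarith [hpb'.1]
  have hP2 : 1 + p ≤ 2 := by linarith [hpb'.2]
  have hp'b : |p'| ≤ k / 500 := by
    rw [abs_le]; constructor <;> linarith [h2.1, h2.2, hk0.1, hk0.2]
  have hsq : (1 + p) ^ 2 - 1 = 2 * p + p ^ 2 := by ring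
  have hpp : p ^ 2 ≤ k / 100000 := by
    have : p ^ 2 ≤ (k / 1000) ^ 2 := by
      rw [← sq_abs]; exact pow_le_pow_left₀ (abs_nonneg _) hpb 2
    nlinarith
  refine ⟨?_, ?_, ?_, ?_, ?_, ?_, ?_⟩
  · rw [hsq, abs_le]; constructor <;> linarith [hpb'.1, hpb'.2, sq_nonneg p]
  · rw [hDD, abs_mul, abs_of_pos hP1]
    nlinarith [abs_nonneg p']
  · intro hkk
    rw [hkk] at h1 h2
    constructor
    · rw [hsq]
      have hA : 7 / 10000 * k ≤ p := by linarith [h1.1]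
      linarith [sq_nonneg p]
    · rw [hDD]
      apply mul_pos hP1
      have hA : 1 / 1000 * k ≤ p' := by linarith [h2.1]
      linarith
  · intro hkk
    rw [hkk] at h1 h2
    constructor
    · rw [hsq]
      have hA : p ≤ -(7 / 10000 * k) := by linarith [h1.2]
      linarith
    · rw [hDD]
      apply mul_neg_of_pos_of_neg hP1
      have hA : p' ≤ -(1 / 1000 * k) := by linarith [h2.2]
      linarith
  · intro t ht
    obtain ⟨hs, -, -⟩ := near_z k (1 / 10 ^ 6) a b v h t ht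
    obtain ⟨-, hg, hf⟩ := near_pgf k (1 / 10 ^ 6) a b v h t ht
    have hs0 : 0 < v t 0 := by rw [hs]; exact mul_pos h.s0 (exp_pos _)
    have hs1 : v t 0 ≤ 1 / 100 := by
      rw [hs]
      refine le_trans ?_ h.s2
      apply mul_le_mul_of_nonneg_left _ h.s0.le
      apply Real.exp_le_exp.2
      linarith [ht.2]
    set s := v t 0 with hsdef
    set φ := v t 4 with hφ
    set γ := v t 5 with hγ
    have hR : scalR (5 / 6 + κ') s (1 / 2 + φ) (s / 4 + γ) = -3 * κ' + γ - s * φ - s * φ ^ 2 := by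
      unfold scalR; ring
    rw [hR]
    have hg' := abs_le.1 hg
    have hf' := abs_le.1 hf
    have hks : k * s ≤ k / 100 := by nlinarith
    have hks0 : 0 < k * s := mul_pos hk hs0
    have hφb : |φ| ≤ k := by
      rw [abs_le]; constructor <;> linarith [hf'.1, hf'.2, hk0.1, hk0.2]
    have hφb' := abs_le.1 hφb
    have hsφ : |s * φ| ≤ k / 100 := by
      rw [abs_mul, abs_of_pos hs0]
      nlinarith [abs_nonneg φ]
    have hsφ2 : |s * φ ^ 2| ≤ k / 100 := by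
      rw [abs_mul, abs_of_pos hs0, abs_of_nonneg (sq_nonneg φ)]
      have : φ ^ 2 ≤ k ^ 2 := by
        rw [← sq_abs]; exact pow_le_pow_left₀ (abs_nonneg _) hφb 2
      nlinarith
    have h3 := abs_le.1 hsφ
    have h4 := abs_le.1 hsφ2
    rw [abs_le]; constructor <;> linarith [hg'.1, hg'.2, hk0.1, hk0.2, h3.1, h3.2, h4.1, h4.2]
  · obtain ⟨-, -, hzz⟩ := near_z k (1 / 10 ^ 6) a b v h b hbm
    have hz1 := (h1a_zz_bounds (v b 1) (v b 2)).1
    have hz0 := h1a_zz_nonneg (v a 1) (v a 2)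
    have he : exp (-2 * (b - a)) ≤ 1 := by
      rw [← Real.exp_zero]; apply Real.exp_le_exp.2; nlinarith [h.hab]
    nlinarith [exp_pos (-2 * (b - a))]
  · obtain ⟨-, -, hzz⟩ := near_z k (1 / 10 ^ 6) a b v h b hbm
    have hz1 := (h1a_zz_bounds (v b 1) (v b 2)).2
    have hz0 := h1a_zz_nonneg (v a 1) (v a 2)
    have he : exp (-2 * (b - a)) ≤ 1 := by
      rw [← Real.exp_zero]; apply Real.exp_le_exp.2; nlinarith [h.hab]
    nlinarith [exp_pos (-2 * (b - a))]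

end Pool.Agent.RS
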