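import Pool.Agent.Lib.MP_35abc2_gt.H0_Defs
import Pool.Agent.Lib.MP_35abc2_gt.D1b_NearPGF
import Pool.Agent.Lib.MP_35abc2_gt.D4_EBound

/-! # H1a2: tracking through the near-cone region (MP_35abc2_gt) -/

open scoped ContDiff Topology NNReal
open Set Filter Real

noncomputable section

namespace Pool.Agent.RS

theorem h1a2_zz_u (u w : ℝ) : u ^ 2 ≤ 4 / 15 * zz u w := by
  unfold zz
  nlinarith [sq_nonneg (w + 3 / 2 * u)]

theorem h1a2_zz_w (u w : ℝ) : w ^ 2 ≤ 8 / 5 * zz u w := by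
  unfold zz
  nlinarith [sq_nonneg (3 * w + 3 / 2 * 3 * u), sq_nonneg (w + 4 * u), sq_nonneg (2 * w + 3 * u),
    sq_nonneg ((w + 3 / 2 * u) * 3 + 5 / 2 * 3 * u)]

/-- the `w`-component of the unclamped field -/
theorem h1a2_field (s u w p : ℝ) (hp : 1 + p ≠ 0) :
    -3 * w - 6 * u + e2 s u w p
      = -((3 * cosh u - s / 2) * w + 6 * sinh u) / (1 + (2 * p + p ^ 2)) := by
  unfold e2
  rw [show (1 : ℝ) + (2 * p + p ^ 2) = (1 + p) ^ 2 by ring]
  field_simp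
  ring

/-- all bounds for the near-cone solution which are needed here -/
theorem h1a2_bounds (k η a b : ℝ) (v : ℝ → Fin 7 → ℝ) (h : NearHyp k η a b v) (t : ℝ)
    (ht : t ∈ Icc a b) :
    0 < v t 0 ∧ v t 0 ≤ 1 / 100 ∧ |v t 1| ≤ 1 / 20 ∧ |v t 2| ≤ 1 / 20 ∧ |v t 3| ≤ k / 20 ∧
    (v t 1) ^ 2 + |2 * v t 3 + v t 3 ^ 2| ≤
      21 / 10 * (k * v t 0 / 7 + 2 * (η * k) * exp (-2 * (t - a)))
        + 27 / 100 * (η * k) * exp (-2 * (t - a)) := by
  have hk := h.hk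
  have hk' := h.hk'
  have hη := h.hη
  have hη' := h.hη'
  obtain ⟨hs, -, hz⟩ := near_z k η a b v h t ht
  obtain ⟨hp, -, -⟩ := near_pgf k η a b v h t ht
  have hs0 : 0 < v t 0 := by rw [hs]; exact mul_pos h.s0 (exp_pos _)
  have hs1 : v t 0 ≤ 1 / 100 := by
    rw [hs]
    refine le_trans ?_ h.s2
    apply mul_le_mul_of_nonneg_left _ h.s0.le
    apply Real.exp_le_exp.2
    linarith [ht.2]
  have hE0 : 0 < exp (-2 * (t - a)) := exp_pos _
  have hE1 : exp (-2 * (t - a)) ≤ 1 := by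
    rw [← Real.exp_zero]; apply Real.exp_le_exp.2; linarith [ht.1]
  have hηk : 0 < η * k := mul_pos hη hk
  have hηk' : η * k ≤ k / 100 := by nlinarith
  have hzz : zz (v t 1) (v t 2) ≤ (η * k) * exp (-2 * (t - a)) := by
    refine hz.trans ?_
    apply mul_le_mul_of_nonneg_right h.z0 hE0.le
  have hEk : (η * k) * exp (-2 * (t - a)) ≤ η * k := by nlinarith
  have hu2 := h1a2_zz_u (v t 1) (v t 2)
  have hw2 := h1a2_zz_w (v t 1) (v t 2)
  have hks : k * v t 0 ≤ k / 100 := by nlinarith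
  have hpk : |v t 3| ≤ k / 20 := by linarith
  refine ⟨hs0, hs1, ?_, ?_, hpk, ?_⟩
  · apply abs_le_of_sq_le_sq _ (by norm_num)
    linarith
  · apply abs_le_of_sq_le_sq _ (by norm_num)
    linarith
  · have hq : |2 * v t 3 + v t 3 ^ 2| ≤ 21 / 10 * |v t 3| := by
      rw [show 2 * v t 3 + v t 3 ^ 2 = v t 3 * (2 + v t 3) by ring, abs_mul]
      have : |2 + v t 3| ≤ 21 / 10 := by
        have h1 := abs_le.1 hpk
        rw [abs_le]; constructor <;> linarith [h1.1, h1.2]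
      nlinarith [abs_nonneg (v t 3)]
    have hX : 0 < η * k * exp (-2 * (t - a)) := mul_pos hηk hE0
    linarith

/-- H1a2. Tracking through the near-cone region. Here `σ = t + τ`, `s = e^{2σ}`.

PROOF. Apply `TrackProp.step` on `[a+τ, b+τ]` to `ũ σ = v (σ-τ) 1`, `w̃ σ = v (σ-τ) 2`; the clamps are inactive (as in `near_solM`), so
`w̃' = -((3cosh ũ - s/2)w̃ + 6 sinh ũ)/P²`, and `e` is the difference to the linear right-hand side, bounded by `e_bound` with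
`q = 2p + p²`.  `u² + |q| ≤ δ := (21/10)(k s/7 + 2ηk e^{-2(σ-a-τ)}) + (27/100) ηk e^{-2(σ-a-τ)}`, with the antiderivative
`Dl = (21/10)(k s/14 - ηk e^{-2(σ-a-τ)}) - (27/200) ηk e^{-2(σ-a-τ)}`, `Dl b - Dl a ≤ k`. -/
theorem near_track (U₁ V₁ U₂ V₂ : ℝ → ℝ) (C' : ℝ) (hT : TrackProp U₁ V₁ U₂ V₂ C')
    (k η a b τ : ℝ) (v : ℝ → Fin 7 → ℝ) (h : NearHyp k η a b v) (hs : v a 0 = exp (2 * (a + τ))) :
    max |JJ U₁ V₁ (fun σ => v (σ - τ) 1) (fun σ => v (σ - τ) 2) (b + τ)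
          - JJ U₁ V₁ (fun σ => v (σ - τ) 1) (fun σ => v (σ - τ) 2) (a + τ)|
        |JJ U₂ V₂ (fun σ => v (σ - τ) 1) (fun σ => v (σ - τ) 2) (b + τ)
          - JJ U₂ V₂ (fun σ => v (σ - τ) 1) (fun σ => v (σ - τ) 2) (a + τ)| ≤
      (exp (C' * k) - 1) * max |JJ U₁ V₁ (fun σ => v (σ - τ) 1) (fun σ => v (σ - τ) 2) (a + τ)|
        |JJ U₂ V₂ (fun σ => v (σ - τ) 1) (fun σ => v (σ - τ) 2) (a + τ)| := by
  have hk := h.hk
  have hk' := h.hk'
  have hη := h.hη
  have hη' := h.hη'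
  have hab := h.hab
  have hηk : 0 < η * k := mul_pos hη hk
  have hηk' : η * k ≤ k / 100 := by nlinarith
  have hbS : b + τ ≤ sigS := by
    have h2 := h.s2
    rw [hs, ← Real.exp_add, show 2 * (a + τ) + 2 * (b - a) = 2 * (b + τ) by ring] at h2
    have h3 : 2 * (b + τ) ≤ log 200 := by
      rw [Real.le_log_iff_exp_le (by norm_num)]
      linarith
    unfold sigS
    linarith
  set Dl : ℝ → ℝ := fun σ => 21 / 10 * (k * exp (2 * σ) / 14 - (η * k) * exp (-2 * (σ - τ - a)))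
    - 27 / 200 * (η * k) * exp (-2 * (σ - τ - a)) with hDl
  set δ : ℝ → ℝ := fun σ => 21 / 10 * (k * exp (2 * σ) / 7 + 2 * (η * k) * exp (-2 * (σ - τ - a)))
    + 27 / 100 * (η * k) * exp (-2 * (σ - τ - a)) with hδ
  set u : ℝ → ℝ := fun σ => v (σ - τ) 1 with hu
  set w : ℝ → ℝ := fun σ => v (σ - τ) 2 with hw
  set e : ℝ → ℝ := fun σ => (F2 k (v (σ - τ)) 2) + (3 - exp (2 * σ) / 2) * w σ + 6 * u σ with he
  have hmem : ∀ σ ∈ Icc (a + τ) (b + τ), σ - τ ∈ Icc a b := by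
    intro σ hσ
    exact ⟨by linarith [hσ.1], by linarith [hσ.2]⟩
  have hvs : ∀ σ ∈ Icc (a + τ) (b + τ), v (σ - τ) 0 = exp (2 * σ) := by
    intro σ hσ
    rw [(near_z k η a b v h _ (hmem σ hσ)).1, hs, ← Real.exp_add]
    congr 1; ring
  have hder : ∀ σ ∈ Icc (a + τ) (b + τ), ∀ i, HasDerivAt (fun σ => v (σ - τ) i)
      (F2 k (v (σ - τ)) i) σ := by
    intro σ hσ i
    have h1 := h.ode _ (hmem σ hσ)
    have h2 := (hasDerivAt_pi.1 h1) i
    have h3 : HasDerivAt (fun σ : ℝ => σ - τ) 1 σ := (hasDerivAt_id σ).sub_const τ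
    have := h2.comp σ h3
    simpa [Function.comp_def] using this
  have key := hT.step (a + τ) (b + τ) u w e Dl δ (by linarith) hbS ?_ ?_ ?_ ?_ ?_
  · refine key.trans ?_
    apply mul_le_mul_of_nonneg_right _ (le_max_of_le_left (abs_nonneg _))
    have hDk : Dl (b + τ) - Dl (a + τ) ≤ k := by
      simp only [hDl]
      rw [show b + τ - τ - a = b - a by ring, show a + τ - τ - a = 0 by ring]
      have h1 : exp (2 * (b + τ)) ≤ 1 / 100 := by
        have h2 := h.s2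
        rwa [hs, ← Real.exp_add, show 2 * (a + τ) + 2 * (b - a) = 2 * (b + τ) by ring] at h2
      have h2 : 0 < exp (2 * (a + τ)) := exp_pos _
      have h3 : 0 < exp (-2 * (b - a)) := exp_pos _
      have h4 : k * exp (2 * (b + τ)) ≤ k / 100 := by nlinarith
      have h5 : 0 < k * exp (2 * (a + τ)) := mul_pos hk h2
      have h6 : 0 < (η * k) * exp (-2 * (b - a)) := mul_pos hηk h3
      simp only [mul_zero, Real.exp_zero, mul_one]
      linarith
    have : exp (C' * (Dl (b + τ) - Dl (a + τ))) ≤ exp (C' * k) := by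
      apply Real.exp_le_exp.2
      exact mul_le_mul_of_nonneg_left hDk hT.pos.le
    linarith
  · intro σ hσ
    have := hder σ hσ 1
    simpa [F2, hu, hw] using this
  · intro σ hσ
    have h1 := hder σ hσ 2
    have h2 : -(3 - exp (2 * σ) / 2) * w σ - 6 * u σ + e σ = F2 k (v (σ - τ)) 2 := by
      simp only [he]; ring
    rw [h2]
    exact h1
  · intro σ hσ
    have h1 : HasDerivAt (fun σ : ℝ => exp (2 * σ)) (exp (2 * σ) * (2 * 1)) σ :=
      ((hasDerivAt_id σ).const_mul 2).exp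
    have h2 : HasDerivAt (fun σ : ℝ => exp (-2 * (σ - τ - a))) (exp (-2 * (σ - τ - a)) * (-2 * 1)) σ :=
      ((((hasDerivAt_id σ).sub_const τ).sub_const a).const_mul (-2)).exp
    have h3 := ((((h1.const_mul k).div_const 14).sub (h2.const_mul (η * k))).const_mul (21 / 10)).sub
      (h2.const_mul (27 / 200 * (η * k)))
    refine h3.congr_deriv ?_
    simp only [hδ]
    ring
  · intro σ hσ
    simp only [hδ]
    have h2 : 0 < exp (2 * σ) := exp_pos _
    have h3 : 0 < exp (-2 * (σ - τ - a)) := exp_pos _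
    positivity
  · intro σ hσ
    obtain ⟨b0, b1, b2, b3, b4, b5⟩ := h1a2_bounds k η a b v h (σ - τ) (hmem σ hσ)
    have hsσ := hvs σ hσ
    have hp1 : 1 + v (σ - τ) 3 ≠ 0 := by
      have := (abs_le.1 b4).1
      intro h0
      linarith
    have hF : F2 k (v (σ - τ)) 2 = -((3 * cosh (v (σ - τ) 1) - v (σ - τ) 0 / 2) * v (σ - τ) 2
        + 6 * sinh (v (σ - τ) 1)) / (1 + (2 * v (σ - τ) 3 + v (σ - τ) 3 ^ 2)) := by
      rw [← h1a2_field _ _ _ _ hp1]
      have c1 : cl (1 / 20) (v (σ - τ) 1) = v (σ - τ) 1 := cl_of_abs_le b2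
      have c2 : cl (1 / 20) (v (σ - τ) 2) = v (σ - τ) 2 := cl_of_abs_le b3
      have c3 : cl (k / 20) (v (σ - τ) 3) = v (σ - τ) 3 := cl_of_abs_le b4
      have c0 : max 0 (min (1 / 100) (v (σ - τ) 0)) = v (σ - τ) 0 := by
        rw [min_eq_right b1, max_eq_right b0.le]
      have : F2 k (v (σ - τ)) 2 = -3 * v (σ - τ) 2 - 6 * v (σ - τ) 1
          + e2 (max 0 (min (1 / 100) (v (σ - τ) 0))) (cl (1 / 20) (v (σ - τ) 1))
            (cl (1 / 20) (v (σ - τ) 2)) (cl (k / 20) (v (σ - τ) 3)) := rfl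
      rw [this, c0, c1, c2, c3]
    have hq : |2 * v (σ - τ) 3 + v (σ - τ) 3 ^ 2| ≤ 1 / 100 := by
      rw [show 2 * v (σ - τ) 3 + v (σ - τ) 3 ^ 2 = v (σ - τ) 3 * (2 + v (σ - τ) 3) by ring, abs_mul]
      have h1 := abs_le.1 b4
      have : |2 + v (σ - τ) 3| ≤ 21 / 10 := by
        rw [abs_le]; constructor <;> linarith [h1.1, h1.2]
      nlinarith [abs_nonneg (v (σ - τ) 3), abs_nonneg (2 + v (σ - τ) 3)]
    have hb := e_bound (v (σ - τ) 0) (v (σ - τ) 1) (v (σ - τ) 2)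
      (2 * v (σ - τ) 3 + v (σ - τ) 3 ^ 2) b0.le (by linarith) b2 hq
    rw [← hF, hsσ] at hb
    have hee : e σ = F2 k (v (σ - τ)) 2 - (-(3 - exp (2 * σ) / 2) * v (σ - τ) 2 - 6 * v (σ - τ) 1) := by
      simp only [he, hu, hw]; ring
    rw [hee]
    refine hb.trans ?_
    rw [hsσ] at b5
    have hδσ : δ σ = 21 / 10 * (k * exp (2 * σ) / 7 + 2 * (η * k) * exp (-2 * (σ - τ - a)))
        + 27 / 100 * (η * k) * exp (-2 * (σ - τ - a)) := rfl
    rw [← hδσ] at b5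
    have hn : 0 ≤ |v (σ - τ) 1| + |v (σ - τ) 2| := by positivity
    have : 110 * ((v (σ - τ) 1) ^ 2 + |2 * v (σ - τ) 3 + v (σ - τ) 3 ^ 2|) ≤ 110 * δ σ := by
      linarith
    exact mul_le_mul_of_nonneg_right this hn

end Pool.Agent.RS
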