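import Pool.Agent.Lib.MP_35abc2_gt.H0_Defs

/-! # H1b: the family of solutions up to s = 1/100, definition (MP_35abc2_gt) -/

open scoped ContDiff Topology NNReal
open Set Filter Real

noncomputable section

namespace Pool.Agent.RS

/-- The family of solutions up to `s = 1/100`, on `Ioc 0 μ₁ × Icc (5/6-k) (5/6+k)`; `m₀ = max |u₀| |w₀|` is the size of the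
Böhm solution at `T₁` and `θ` the relative accuracy. -/
structure Family (U₁ V₁ U₂ V₂ : ℝ → ℝ) (C' k ζ θ X₀ T₁ u₀ w₀ μ₁ : ℝ) (Z : ℝ → ℝ → Fin 5 → ℝ → ℝ)
    (u w P Φ g : ℝ → ℝ → ℝ → ℝ) : Prop where
  sol : ∀ μ ∈ Ioc (0 : ℝ) μ₁, ∀ κ ∈ Icc (5 / 6 - k) (5 / 6 + k),
    TipSol μ κ X₀ (Iic (tZ μ)) (Z μ κ) (u μ κ) (w μ κ) (P μ κ) (Φ μ κ) (g μ κ)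
  lx : log X₀ / 4 < T₁
  lt : ∀ μ ∈ Ioc (0 : ℝ) μ₁, T₁ < tZ μ
  near : ∀ μ ∈ Ioc (0 : ℝ) μ₁, ∀ κ ∈ Icc (5 / 6 - k) (5 / 6 + k),
    |u μ κ T₁ - u₀| ≤ θ * max |u₀| |w₀| ∧ |w μ κ T₁ - w₀| ≤ θ * max |u₀| |w₀|
  scal : ∀ μ ∈ Ioc (0 : ℝ) μ₁, ∀ κ ∈ Icc (5 / 6 - k) (5 / 6 + k), ∀ T, T ≤ tZ μ →
    |scalR κ (sM μ T) (Φ μ κ T) (g μ κ T)| ≤ 4 * k
  b0 : ∀ μ ∈ Ioc (0 : ℝ) μ₁, ∀ κ ∈ Icc (5 / 6 - k) (5 / 6 + k), |u μ κ (tZ μ)| ≤ ζ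
  b1 : ∀ μ ∈ Ioc (0 : ℝ) μ₁, ∀ κ ∈ Icc (5 / 6 - k) (5 / 6 + k), |w μ κ (tZ μ)| ≤ ζ
  b2 : ∀ μ ∈ Ioc (0 : ℝ) μ₁, ∀ κ ∈ Icc (5 / 6 - k) (5 / 6 + k), |P μ κ (tZ μ) ^ 2 - 1| ≤ k
  b3 : ∀ μ ∈ Ioc (0 : ℝ) μ₁, ∀ κ ∈ Icc (5 / 6 - k) (5 / 6 + k),
    |DD (1 / 100) (u μ κ (tZ μ)) (P μ κ (tZ μ)) (Φ μ κ (tZ μ))| ≤ k
  top : ∀ μ ∈ Ioc (0 : ℝ) μ₁, k / 1000 ≤ P μ (5 / 6 + k) (tZ μ) ^ 2 - 1 ∧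
    0 < DD (1 / 100) (u μ (5 / 6 + k) (tZ μ)) (P μ (5 / 6 + k) (tZ μ)) (Φ μ (5 / 6 + k) (tZ μ))
  bot : ∀ μ ∈ Ioc (0 : ℝ) μ₁, P μ (5 / 6 - k) (tZ μ) ^ 2 - 1 ≤ -(k / 1000) ∧
    DD (1 / 100) (u μ (5 / 6 - k) (tZ μ)) (P μ (5 / 6 - k) (tZ μ)) (Φ μ (5 / 6 - k) (tZ μ)) < 0
  cu : ContinuousOn (fun p : ℝ × ℝ => u p.1 p.2 (tZ p.1)) (Ioc 0 μ₁ ×ˢ Icc (5 / 6 - k) (5 / 6 + k))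
  cw : ContinuousOn (fun p : ℝ × ℝ => w p.1 p.2 (tZ p.1)) (Ioc 0 μ₁ ×ˢ Icc (5 / 6 - k) (5 / 6 + k))
  cP : ContinuousOn (fun p : ℝ × ℝ => P p.1 p.2 (tZ p.1)) (Ioc 0 μ₁ ×ˢ Icc (5 / 6 - k) (5 / 6 + k))
  cΦ : ContinuousOn (fun p : ℝ × ℝ => Φ p.1 p.2 (tZ p.1)) (Ioc 0 μ₁ ×ˢ Icc (5 / 6 - k) (5 / 6 + k))
  tr : ∀ μ ∈ Ioc (0 : ℝ) μ₁, ∀ κ ∈ Icc (5 / 6 - k) (5 / 6 + k), ∀ σ₁, σ₁ = T₁ + log μ / 2 →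
    max |J0 U₁ V₁ (u μ κ (tZ μ)) (w μ κ (tZ μ)) - nn σ₁ * (w μ κ T₁ * U₁ σ₁ - u μ κ T₁ * V₁ σ₁)|
      |J0 U₂ V₂ (u μ κ (tZ μ)) (w μ κ (tZ μ)) - nn σ₁ * (w μ κ T₁ * U₂ σ₁ - u μ κ T₁ * V₂ σ₁)| ≤
    (exp (C' * k) - 1) * max |nn σ₁ * (w μ κ T₁ * U₁ σ₁ - u μ κ T₁ * V₁ σ₁)|
      |nn σ₁ * (w μ κ T₁ * U₂ σ₁ - u μ κ T₁ * V₂ σ₁)|

end Pool.Agent.RS
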