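import Pool.Agent.Lib.MP_35abc2_gt.H1a_NearEnd
import Pool.Agent.Lib.MP_35abc2_gt.D3_Unclamp
import Pool.Agent.Lib.MP_35abc2_gt.T5_Glue

/-! # H1b1: continuing one solution through the near-cone region (MP_35abc2_gt) -/

open scoped ContDiff Topology NNReal
open Set Filter Real

noncomputable section

namespace Pool.Agent.RS

/-- gluing of two solutions at `a` -/
theorem H1b1_glue {μ κ a b : ℝ} {u₁ w₁ P₁ Φ₁ g₁ u₂ w₂ P₂ Φ₂ g₂ : ℝ → ℝ}
    (h1 : SolM μ κ (Iic a) u₁ w₁ P₁ Φ₁ g₁) (h2 : SolM μ κ (Icc a b) u₂ w₂ P₂ Φ₂ g₂) (hab : a < b)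
    (eu : u₂ a = u₁ a) (ew : w₂ a = w₁ a) (eP : P₂ a = P₁ a) (eΦ : Φ₂ a = Φ₁ a) (eg : g₂ a = g₁ a) :
    SolM μ κ (Iic b) (fun T => if T ≤ a then u₁ T else u₂ T) (fun T => if T ≤ a then w₁ T else w₂ T)
      (fun T => if T ≤ a then P₁ T else P₂ T) (fun T => if T ≤ a then Φ₁ T else Φ₂ T)
      (fun T => if T ≤ a then g₁ T else g₂ T) := by
  have haa : a ∈ Icc a b := ⟨le_refl _, hab.le⟩
  have key : ∀ (f₁ f₂ : ℝ → ℝ) (F₁ F₂ : ℝ → ℝ), f₂ a = f₁ a →
      (∀ T, T ≤ a → HasDerivAt f₁ (F₁ T) T) → (∀ T ∈ Icc a b, HasDerivAt f₂ (F₂ T) T) →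
      F₂ a = F₁ a → ∀ T, T ≤ b → ∀ c, (T ≤ a → c = F₁ T) → (a < T → c = F₂ T) →
      HasDerivAt (fun T => if T ≤ a then f₁ T else f₂ T) c T := by
    intro f₁ f₂ F₁ F₂ hf d1 d2 eF T hT c e1 e2
    rcases lt_trichotomy T a with h | h | h
    · rw [e1 h.le]
      exact glue_hasDerivAt_left _ _ a _ T h (d1 T h.le)
    · subst h
      rw [e1 (le_refl _)]
      refine glue_hasDerivAt _ _ T _ hf.symm (d1 T (le_refl _)) ?_
      rw [← eF]
      exact d2 T haa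
    · rw [e2 h]
      exact glue_hasDerivAt_right _ _ a _ T h (d2 T ⟨h.le, hT⟩)
  refine ⟨?_, ?_, ?_, ?_, ?_, ?_, ?_⟩
  · intro T hT
    rcases le_or_gt T a with h | h
    · simp only [if_pos h]
      exact h1.pos T h
    · simp only [if_neg (not_le.2 h)]
      exact h2.pos T ⟨h.le, hT⟩
  · intro T hT
    exact key u₁ u₂ w₁ w₂ eu (fun T hT => h1.du T hT) (fun T hT => h2.du T hT) ew T hT _
      (fun hT => by simp only [if_pos hT]) (fun hT => by simp only [if_neg (not_le.2 hT)])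
  · intro T hT
    exact key w₁ w₂ _ _ ew (fun T hT => h1.dw T hT) (fun T hT => h2.dw T hT)
      (by rw [eu, ew, eP]) T hT _
      (fun hT => by simp only [if_pos hT]) (fun hT => by simp only [if_neg (not_le.2 hT)])
  · intro T hT
    exact key P₁ P₂ _ _ eP (fun T hT => h1.dP T hT) (fun T hT => h2.dP T hT)
      (by rw [eu, eP, eΦ]) T hT _
      (fun hT => by simp only [if_pos hT]) (fun hT => by simp only [if_neg (not_le.2 hT)])
  · intro T hT
    exact key Φ₁ Φ₂ _ _ eΦ (fun T hT => h1.dΦ T hT) (fun T hT => h2.dΦ T hT)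
      (by rw [eP, eΦ, eg]) T hT _
      (fun hT => by simp only [if_pos hT]) (fun hT => by simp only [if_neg (not_le.2 hT)])
  · intro T hT
    exact key g₁ g₂ _ _ eg (fun T hT => h1.dg T hT) (fun T hT => h2.dg T hT)
      (by rw [eP, eΦ]) T hT _
      (fun hT => by simp only [if_pos hT]) (fun hT => by simp only [if_neg (not_le.2 hT)])
  · intro T hT
    rcases le_or_gt T a with h | h
    · simp only [if_pos h]
      exact h1.con T h
    · simp only [if_neg (not_le.2 h)]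
      exact h2.con T ⟨h.le, hT⟩

/-- the first component of a near-cone solution is `s` -/
theorem H1b1_s {μ a b : ℝ} (f : ℝ → ℝ) (hf : ∀ t ∈ Icc a b, HasDerivAt f (2 * f t) t)
    (h0 : f a = sM μ a) : ∀ T ∈ Icc a b, f T = sM μ T := by
  intro T hT
  have hd : ∀ t ∈ Icc a b, HasDerivAt (fun T => f T * Real.exp (-(2 * T))) 0 t := by
    intro t ht
    have h2' : HasDerivAt (fun T : ℝ => 2 * T) 2 t := by
      simpa using (hasDerivAt_id t).const_mul 2
    have h2 : HasDerivAt (fun T : ℝ => -(2 * T)) (-2) t := h2'.neg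
    have e : (0 : ℝ) = 2 * f t * Real.exp (-(2 * t)) + f t * (Real.exp (-(2 * t)) * (-2)) := by
      ring
    rw [e]
    exact (hf t ht).mul h2.exp
  have hc := constant_of_has_deriv_right_zero
    (fun t ht => (hd t ht).continuousAt.continuousWithinAt)
    (fun t ht => (hd t ⟨ht.1, ht.2.le⟩).hasDerivWithinAt) T hT
  rw [h0] at hc
  unfold sM at hc ⊢
  have e1 : μ * Real.exp (2 * a) * Real.exp (-(2 * a)) = μ := by
    rw [mul_assoc, ← Real.exp_add]
    simp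
  rw [e1] at hc
  rw [← hc, mul_assoc, ← Real.exp_add]
  simp

/-- H1b1. One solution: continue a tip solution on `Iic T₁` by a near-cone solution on `[T₁, tZ μ]`.

PROOF. `near_solM` (with `v T₁` given by `hinit`; the constraint holds at `T₁` by `hsol`) gives `SolM` on `Icc T₁ (tZ μ)` for
`(v·1, v·2, 1+v·3, 1/2+v·4, v·0/4+v·5)`, `κ = 5/6 + (κ - 5/6)`; glue at `T₁` (T5).  `T₁ < tZ μ` since `s(T₁) ≤ 10⁻⁸ < 1/100`. `log X₀/4 < T₁` so the
tip formulas are unchanged.  The bound of `scalR`: given for `T ≤ T₁`, `near_end` for `T ≥ T₁` (`s = sM μ T`). -/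
theorem inner_one (k μ κ X₀ T₁ : ℝ) (hμ : 0 < μ) (hX : log X₀ / 4 < T₁) (z : Fin 5 → ℝ → ℝ)
    (u w P Φ g : ℝ → ℝ) (hsol : TipSol μ κ X₀ (Iic T₁) z u w P Φ g) (v : ℝ → Fin 7 → ℝ)
    (hv : NearHyp k (1 / 10 ^ 6) T₁ (tZ μ) v)
    (hinit : v T₁ = ![sM μ T₁, u T₁, w T₁, P T₁ - 1, Φ T₁ - 1 / 2, g T₁ - sM μ T₁ / 4, κ - 5 / 6])
    (hR : ∀ T, T ≤ T₁ → |scalR κ (sM μ T) (Φ T) (g T)| ≤ 4 * k) :
    TipSol μ κ X₀ (Iic (tZ μ)) z (fun T => if T ≤ T₁ then u T else v T 1)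
      (fun T => if T ≤ T₁ then w T else v T 2) (fun T => if T ≤ T₁ then P T else 1 + v T 3)
      (fun T => if T ≤ T₁ then Φ T else 1 / 2 + v T 4)
      (fun T => if T ≤ T₁ then g T else v T 0 / 4 + v T 5) ∧
    (∀ T, T ≤ tZ μ → |scalR κ (sM μ T) (if T ≤ T₁ then Φ T else 1 / 2 + v T 4)
      (if T ≤ T₁ then g T else v T 0 / 4 + v T 5)| ≤ 4 * k) ∧
    T₁ < tZ μ := by
  have i0 : v T₁ 0 = sM μ T₁ := by rw [hinit]; rfl
  have i1 : v T₁ 1 = u T₁ := by rw [hinit]; rfl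
  have i2 : v T₁ 2 = w T₁ := by rw [hinit]; rfl
  have i3 : v T₁ 3 = P T₁ - 1 := by rw [hinit]; rfl
  have i4 : v T₁ 4 = Φ T₁ - 1 / 2 := by rw [hinit]; rfl
  have i5 : v T₁ 5 = g T₁ - sM μ T₁ / 4 := by rw [hinit]; rfl
  have i6 : v T₁ 6 = κ - 5 / 6 := by rw [hinit]; rfl
  have eκ : 5 / 6 + v T₁ 6 = κ := by rw [i6]; ring
  have eP : 1 + v T₁ 3 = P T₁ := by rw [i3]; ring
  have eΦ : 1 / 2 + v T₁ 4 = Φ T₁ := by rw [i4]; ring
  have eg : v T₁ 0 / 4 + v T₁ 5 = g T₁ := by rw [i0, i5]; ring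
  -- the order of the times
  have hsmall : sM μ T₁ < 1 / 100 := by
    have h1 := hv.s1
    rw [i0] at h1
    have h2 := hv.hk'
    have h3 := hv.hk
    nlinarith
  have hlt : T₁ < tZ μ := by
    unfold sM at hsmall
    unfold tZ
    have h1 : Real.exp (2 * T₁) < 1 / (100 * μ) := by
      rw [lt_div_iff₀ (by positivity)]
      linarith
    have h2 : 2 * T₁ < Real.log (1 / (100 * μ)) := by
      rw [Real.lt_log_iff_exp_lt (by positivity)]
      exact h1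
    linarith
  have hsol2 := near_solM μ k (1 / 10 ^ 6) T₁ (tZ μ) v hv i0 (by
    rw [eκ, eP, eΦ, eg, i0, i1, i2]
    exact hsol.sol.con T₁ (mem_Iic.2 (le_refl _)))
  rw [eκ] at hsol2
  have hs : ∀ T ∈ Icc T₁ (tZ μ), v T 0 = sM μ T :=
    H1b1_s (fun T => v T 0) (fun t ht => hasDerivAt_pi.1 (hv.ode t ht) 0) i0
  have hb : v (tZ μ) 0 = 1 / 100 := by
    rw [hs (tZ μ) ⟨hlt.le, le_refl _⟩]
    unfold sM tZ
    rw [show 2 * (Real.log (1 / (100 * μ)) / 2) = Real.log (1 / (100 * μ)) by ring,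
      Real.exp_log (by positivity)]
    field_simp
  obtain ⟨-, -, -, -, hsc, -, -⟩ := near_end k T₁ (tZ μ) v hv hb
  refine ⟨⟨?_, hsol.tip, ?_, ?_, ?_, ?_, ?_⟩, ?_, hlt⟩
  · exact H1b1_glue hsol.sol hsol2 hlt i1 i2 eP eΦ eg
  · intro T hT
    simp only [if_pos (hT.trans hX).le]
    exact hsol.eu T hT
  · intro T hT
    simp only [if_pos (hT.trans hX).le]
    exact hsol.ew T hT
  · intro T hT
    simp only [if_pos (hT.trans hX).le]
    exact hsol.eP T hT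
  · intro T hT
    simp only [if_pos (hT.trans hX).le]
    exact hsol.eΦ T hT
  · intro T hT
    simp only [if_pos (hT.trans hX).le]
    exact hsol.eg T hT
  · intro T hT
    rcases le_or_gt T T₁ with h | h
    · simp only [if_pos h]
      exact hR T h
    · simp only [if_neg (not_le.2 h)]
      have h1 := hsc T ⟨h.le, hT⟩
      rw [eκ, hs T ⟨h.le, hT⟩] at h1
      rw [hs T ⟨h.le, hT⟩]
      exact h1

end Pool.Agent.RS
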