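import Pool.Agent.Lib.MP_35abc2_gt.H1b_Defs
import Pool.Agent.Lib.MP_35abc2_gt.H1b_InnerOne
import Pool.Agent.Lib.MP_35abc2_gt.H1a_NearTrack
import Pool.Agent.Lib.MP_35abc2_gt.B3c_PropBD
import Pool.Agent.Lib.MP_35abc2_gt.D0_Lip
import Pool.Agent.Lib.MP_35abc2_gt.T1_Flow

/-! # H1b2: existence of the family (MP_35abc2_gt) -/

open scoped ContDiff Topology NNReal
open Set Filter Real

noncomputable section

namespace Pool.Agent.RS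

/-- initial values of the near-cone system -/
def h1b2_init (u w P Φ g : ℝ → ℝ → ℝ → ℝ) (T₁ : ℝ) (p : ℝ × ℝ) : Fin 7 → ℝ :=
  ![sM p.1 T₁, u p.1 p.2 T₁, w p.1 p.2 T₁, P p.1 p.2 T₁ - 1, Φ p.1 p.2 T₁ - 1 / 2,
    g p.1 p.2 T₁ - sM p.1 T₁ / 4, p.2 - 5 / 6]

lemma h1b2_tZ {μ T₁ : ℝ} (hμ : 0 < μ) (h : sM μ T₁ < 1 / 100) : T₁ < tZ μ := by
  unfold tZ
  unfold sM at h
  rw [lt_div_iff₀ (by norm_num), lt_log_iff_exp_lt (by positivity), lt_div_iff₀ (by positivity)]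
  have : exp (T₁ * 2) = exp (2 * T₁) := by ring_nf
  rw [this]
  linarith

lemma h1b2_sM {μ : ℝ} (hμ : 0 < μ) : sM μ (tZ μ) = 1 / 100 := by
  unfold tZ sM
  rw [show 2 * (log (1 / (100 * μ)) / 2) = log (1 / (100 * μ)) by ring, exp_log (by positivity)]
  field_simp

lemma h1b2_s2 {μ T₁ : ℝ} (hμ : 0 < μ) : sM μ T₁ * exp (2 * (tZ μ - T₁)) = 1 / 100 := by
  rw [← h1b2_sM hμ]
  unfold sM
  rw [mul_assoc, ← exp_add]
  ring_nf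

lemma h1b2_contZ (S : Set (ℝ × ℝ)) (hS : ∀ p ∈ S, 0 < p.1) :
    ContinuousOn (fun p : ℝ × ℝ => tZ p.1) S := by
  unfold tZ
  apply ContinuousOn.div_const
  apply ContinuousOn.log
  · apply ContinuousOn.div continuousOn_const
    · exact (continuousOn_const.mul continuousOn_fst)
    · intro p hp
      have := hS p hp
      positivity
  · intro p hp
    have := hS p hp
    positivity

/-- H1b2. Existence of the family.

PROOF. `prop_bd` with `η := min (10⁻⁷ k) (ζ/20)` (so that `zz ≤ 10 (2η)² = 40 η² ≤ 10⁻⁶ k`, `√(2·40η²) ≤ 9η ≤ ζ`) gives `X₀, T₁, u₀, w₀`; then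
with `η' := min (θ max(|u₀|,|w₀|)) (min (10⁻⁷ k) η)` gives `μ₁` and the solutions on `Iic T₁`, `κ ∈ [1/2,1] ⊇ [5/6-k, 5/6+k]`.
`v_{μ,κ}(T) := φ (T - T₁) (init μ κ)` with `φ` the flow of `F2 k` (`F2_lip`, `tk_flow`, `t₀ = 0`) and
`init μ κ = ![sM μ T₁, u, w, P - 1, Φ - 1/2, g - sM μ T₁/4, κ - 5/6]` at `T₁`.  `NearHyp k 10⁻⁶ T₁ (tZ μ) v`: the bounds at `T₁` are those of
`prop_bd` (`|Φ - 1/2 - 3(κ-5/6)/5| = |Φ - 3κ/5|`, `|g - s/4| ≤ 2η'`, `zz ≤ (2.5·2η)² + 3.75 (2η)² ≤ 40η²`), `s(T₁) e^{2(tZ μ - T₁)} = 1/100`.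
`|scalR| = |-3(κ-5/6) + g - sΦ²| ≤ 3k + 2η' ≤ 4k` for `T ≤ T₁`.  Apply `inner_one`, `near_end`, `near_track` (`τ = log μ/2`,
`tZ μ + log μ/2 = sigZ`).  Continuity: `φ` is jointly continuous, `tZ` and `init` are continuous. -/
theorem family_exists (U₁ V₁ U₂ V₂ : ℝ → ℝ) (C' : ℝ) (hT : TrackProp U₁ V₁ U₂ V₂ C') (k ζ θ : ℝ)
    (hk : 0 < k) (hk' : k ≤ 1 / 100) (hζ : 0 < ζ) (hθ : 0 < θ) :
    ∃ X₀ T₁ u₀ w₀ μ₁ : ℝ, 0 < X₀ ∧ X₀ ≤ 1 / 100000 ∧ (u₀, w₀) ≠ (0, 0) ∧ 0 < μ₁ ∧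
      ∃ Z u w P Φ g, Family U₁ V₁ U₂ V₂ C' k ζ θ X₀ T₁ u₀ w₀ μ₁ Z u w P Φ g := by
  classical
  obtain ⟨X₀, hX₀, hX₀', hbd⟩ := prop_bd
  set η : ℝ := min (k / 10 ^ 7) (ζ / 20) with hηdef
  have hη : 0 < η := lt_min (by positivity) (by positivity)
  have hηk : η ≤ k / 10 ^ 7 := min_le_left _ _
  have hηζ : η ≤ ζ / 20 := min_le_right _ _
  obtain ⟨T₁, u₀, w₀, hT₁, huw, hu₀, hw₀, hbd⟩ := hbd η hη
  have hm₀ : 0 < max |u₀| |w₀| := by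
    by_contra hcon
    push Not at hcon
    have h1 : |u₀| ≤ 0 := (le_max_left _ _).trans hcon
    have h2 : |w₀| ≤ 0 := (le_max_right _ _).trans hcon
    apply huw
    rw [abs_nonpos_iff] at h1 h2
    rw [h1, h2]
  set η' : ℝ := min (θ * max |u₀| |w₀|) η with hη'def
  have hη' : 0 < η' := lt_min (by positivity) hη
  have hη'θ : η' ≤ θ * max |u₀| |w₀| := min_le_left _ _
  have hη'η : η' ≤ η := min_le_right _ _
  obtain ⟨μ₁, hμ₁, hμ₁', hμ₁1, Z, u, w, P, Φ, g, hsol, hcu, hcw, hcP, hcΦ, hcg⟩ := hbd η' hη'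
  obtain ⟨L, hL⟩ := F2_lip k hk hk'
  obtain ⟨φ, hφc, hφ0, hφd⟩ := tk_flow (fun _ : ℝ => F2 k) L (fun _ => hL)
    (fun _ => continuous_const) 0
  set ini : ℝ × ℝ → Fin 7 → ℝ := h1b2_init u w P Φ g T₁ with hini
  set v : ℝ → ℝ → ℝ → Fin 7 → ℝ := fun μ κ T => φ (T - T₁) (ini (μ, κ)) with hv
  have hκI : ∀ κ ∈ Icc (5 / 6 - k) (5 / 6 + k), κ ∈ Icc (1 / 2 : ℝ) 1 := by
    intro κ hκ
    rw [mem_Icc] at hκ ⊢
    constructor <;> linarith [hκ.1, hκ.2]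
  have hvT : ∀ μ κ, v μ κ T₁ = ini (μ, κ) := by
    intro μ κ
    simp only [hv, sub_self, hφ0]
  have hk7 : k / 10 ^ 7 ≤ 1 / 10 ^ 9 := by
    rw [div_le_div_iff₀ (by norm_num) (by norm_num)]
    linarith
  have hsmall : ∀ μ ∈ Ioc (0 : ℝ) μ₁, sM μ T₁ < 1 / 100 := by
    intro μ hμ
    have h1 := (hsol μ hμ (5 / 6) (hκI _ ⟨by linarith, by linarith⟩)).2.2.2.2.2.2.1
    have : η' ≤ 1 / 10 ^ 9 := hη'η.trans (hηk.trans hk7)
    refine lt_of_le_of_lt (h1.trans this) (by norm_num)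
  have hspos : ∀ μ ∈ Ioc (0 : ℝ) μ₁, 0 < sM μ T₁ := by
    intro μ hμ
    unfold sM
    exact mul_pos hμ.1 (exp_pos _)
  have hlt : ∀ μ ∈ Ioc (0 : ℝ) μ₁, T₁ < tZ μ := fun μ hμ => h1b2_tZ hμ.1 (hsmall μ hμ)
  have hη'k : η' ≤ k / 10 ^ 7 := hη'η.trans hηk
  have hzz : ∀ μ ∈ Ioc (0 : ℝ) μ₁, ∀ κ ∈ Icc (5 / 6 - k) (5 / 6 + k),
      zz (u μ κ T₁) (w μ κ T₁) ≤ 40 * η ^ 2 := by
    intro μ hμ κ hκ
    obtain ⟨-, h1, h2, -⟩ := hsol μ hμ κ (hκI κ hκ)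
    have hu : |u μ κ T₁| ≤ 2 * η := by
      calc |u μ κ T₁| = |(u μ κ T₁ - u₀) + u₀| := by ring_nf
        _ ≤ |u μ κ T₁ - u₀| + |u₀| := abs_add_le _ _
        _ ≤ 2 * η := by linarith
    have hw : |w μ κ T₁| ≤ 2 * η := by
      calc |w μ κ T₁| = |(w μ κ T₁ - w₀) + w₀| := by ring_nf
        _ ≤ |w μ κ T₁ - w₀| + |w₀| := abs_add_le _ _
        _ ≤ 2 * η := by linarith
    unfold zz
    have h3 : |w μ κ T₁ + 3 / 2 * u μ κ T₁| ≤ 5 * η := by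
      refine (abs_add_le _ _).trans ?_
      rw [abs_mul, abs_of_pos (by norm_num : (0 : ℝ) < 3 / 2)]
      linarith
    have h4 : (w μ κ T₁ + 3 / 2 * u μ κ T₁) ^ 2 ≤ (5 * η) ^ 2 := by
      rw [← sq_abs]
      exact pow_le_pow_left₀ (abs_nonneg _) h3 2
    have h5 : u μ κ T₁ ^ 2 ≤ (2 * η) ^ 2 := by
      rw [← sq_abs]
      exact pow_le_pow_left₀ (abs_nonneg _) hu 2
    nlinarith
  have hnear : ∀ μ ∈ Ioc (0 : ℝ) μ₁, ∀ κ ∈ Icc (5 / 6 - k) (5 / 6 + k),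
      NearHyp k (1 / 10 ^ 6) T₁ (tZ μ) (v μ κ) := by
    intro μ hμ κ hκ
    obtain ⟨-, h1, h2, h3, h4, h5, h6, -⟩ := hsol μ hμ κ (hκI κ hκ)
    have e : v μ κ T₁ = h1b2_init u w P Φ g T₁ (μ, κ) := hvT μ κ
    refine ⟨hk, hk', by norm_num, by norm_num, (hlt μ hμ).le, ?_, ?_, ?_, ?_, ?_, ?_, ?_, ?_, ?_⟩
    · intro t _
      exact (hφd (t - T₁) (ini (μ, κ))).comp_sub_const t T₁
    · rw [e]
      exact hspos μ hμ
    · rw [e]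
      change sM μ T₁ ≤ _
      linarith
    · rw [e]
      exact (h1b2_s2 hμ.1).le
    · rw [e]
      change zz (u μ κ T₁) (w μ κ T₁) ≤ _
      refine (hzz μ hμ κ hκ).trans ?_
      have : η ^ 2 ≤ (k / 10 ^ 7) ^ 2 := pow_le_pow_left₀ hη.le hηk 2
      nlinarith
    · rw [e]
      change |P μ κ T₁ - 1| ≤ _
      linarith
    · rw [e]
      change |Φ μ κ T₁ - 1 / 2 - 3 * (κ - 5 / 6) / 5| ≤ _
      rw [show Φ μ κ T₁ - 1 / 2 - 3 * (κ - 5 / 6) / 5 = Φ μ κ T₁ - 3 * κ / 5 by ring]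
      linarith
    · rw [e]
      change |g μ κ T₁ - sM μ T₁ / 4| ≤ _
      refine (abs_sub _ _).trans ?_
      rw [abs_of_pos (by have := hspos μ hμ; positivity : 0 < sM μ T₁ / 4)]
      linarith
    · rw [e]
      change |κ - 5 / 6| ≤ k
      rw [abs_le]
      constructor <;> linarith [hκ.1, hκ.2]
  have hscal : ∀ μ ∈ Ioc (0 : ℝ) μ₁, ∀ κ ∈ Icc (5 / 6 - k) (5 / 6 + k), ∀ T, T ≤ T₁ →
      |scalR κ (sM μ T) (Φ μ κ T) (g μ κ T)| ≤ 4 * k := by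
    intro μ hμ κ hκ T hT
    obtain ⟨-, -, -, -, -, -, -, h7⟩ := hsol μ hμ κ (hκI κ hκ)
    obtain ⟨h8, h9⟩ := h7 T hT
    have h10 : 0 ≤ sM μ T * Φ μ κ T ^ 2 := by
      unfold sM
      have := hμ.1
      positivity
    unfold scalR
    rw [abs_le] at h8 ⊢
    constructor <;> linarith [hκ.1, hκ.2]
  have hone : ∀ μ (hμ : μ ∈ Ioc (0 : ℝ) μ₁), ∀ κ (hκ : κ ∈ Icc (5 / 6 - k) (5 / 6 + k)), _ :=
    fun μ hμ κ hκ => inner_one k μ κ X₀ T₁ hμ.1 hT₁ (Z μ κ) (u μ κ) (w μ κ) (P μ κ) (Φ μ κ) (g μ κ)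
      (hsol μ hμ κ (hκI κ hκ)).1 (v μ κ) (hnear μ hμ κ hκ) (hvT μ κ) (hscal μ hμ κ hκ)
  have hend : ∀ μ ∈ Ioc (0 : ℝ) μ₁, ∀ κ ∈ Icc (5 / 6 - k) (5 / 6 + k), _ :=
    fun μ hμ κ hκ => near_end k T₁ (tZ μ) (v μ κ) (hnear μ hμ κ hκ) (by
      rw [(near_z k _ _ _ _ (hnear μ hμ κ hκ) (tZ μ) ⟨(hlt μ hμ).le, le_rfl⟩).1, hvT]
      exact h1b2_s2 hμ.1)
  have hS : ∀ p ∈ Ioc (0 : ℝ) μ₁ ×ˢ Icc (5 / 6 - k) (5 / 6 + k), 0 < p.1 := fun p hp => hp.1.1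
  have hsub : Ioc (0 : ℝ) μ₁ ×ˢ Icc (5 / 6 - k) (5 / 6 + k) ⊆ Ioc (0 : ℝ) μ₁ ×ˢ Icc (1 / 2 : ℝ) 1 :=
    prod_mono_right hκI
  have hinic : ContinuousOn ini (Ioc (0 : ℝ) μ₁ ×ˢ Icc (5 / 6 - k) (5 / 6 + k)) := by
    have hs : Continuous (fun p : ℝ × ℝ => sM p.1 T₁) := by
      unfold sM
      exact continuous_fst.mul continuous_const
    rw [continuousOn_pi]
    intro i
    fin_cases i
    · exact hs.continuousOn
    · exact hcu.mono hsub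
    · exact hcw.mono hsub
    · exact (hcP.mono hsub).sub continuousOn_const
    · exact (hcΦ.mono hsub).sub continuousOn_const
    · exact (hcg.mono hsub).sub (hs.continuousOn.div_const 4)
    · exact continuousOn_snd.sub continuousOn_const
  have hvc : ContinuousOn (fun p : ℝ × ℝ => v p.1 p.2 (tZ p.1))
      (Ioc (0 : ℝ) μ₁ ×ˢ Icc (5 / 6 - k) (5 / 6 + k)) := by
    have h1 : ContinuousOn (fun p : ℝ × ℝ => ((tZ p.1 - T₁, ini p) : ℝ × (Fin 7 → ℝ)))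
        (Ioc (0 : ℝ) μ₁ ×ˢ Icc (5 / 6 - k) (5 / 6 + k)) :=
      ((h1b2_contZ _ hS).sub continuousOn_const).prodMk hinic
    exact hφc.comp_continuousOn h1
  have hvci : ∀ i, ContinuousOn (fun p : ℝ × ℝ => v p.1 p.2 (tZ p.1) i)
      (Ioc (0 : ℝ) μ₁ ×ˢ Icc (5 / 6 - k) (5 / 6 + k)) := by
    intro i
    exact (continuous_apply i).comp_continuousOn hvc
  have hb01 : ∀ x η' : ℝ, x ^ 2 ≤ 2 * η' → η' ≤ 40 * η ^ 2 → |x| ≤ ζ := by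
    intro x y h1 h2
    have h3 : x ^ 2 ≤ (9 * η) ^ 2 := by nlinarith
    have h4 : |x| ≤ 9 * η := abs_le_of_sq_le_sq h3 (by positivity) |> fun h => h
    linarith
  refine ⟨X₀, T₁, u₀, w₀, μ₁, hX₀, hX₀', huw, hμ₁, Z,
    fun μ κ T => if T ≤ T₁ then u μ κ T else v μ κ T 1,
    fun μ κ T => if T ≤ T₁ then w μ κ T else v μ κ T 2,
    fun μ κ T => if T ≤ T₁ then P μ κ T else 1 + v μ κ T 3,
    fun μ κ T => if T ≤ T₁ then Φ μ κ T else 1 / 2 + v μ κ T 4,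
    fun μ κ T => if T ≤ T₁ then g μ κ T else v μ κ T 0 / 4 + v μ κ T 5, ?_⟩
  have hif : ∀ μ ∈ Ioc (0 : ℝ) μ₁, ¬ (tZ μ ≤ T₁) := fun μ hμ => not_le.2 (hlt μ hμ)
  refine ⟨?_, hT₁, hlt, ?_, ?_, ?_, ?_, ?_, ?_, ?_, ?_, ?_, ?_, ?_, ?_, ?_⟩
  · -- sol
    intro μ hμ κ hκ
    exact (hone μ hμ κ hκ).1
  · -- near
    intro μ hμ κ hκ
    obtain ⟨-, h1, h2, -⟩ := hsol μ hμ κ (hκI κ hκ)
    simp only [le_refl, if_true]
    exact ⟨h1.trans hη'θ, h2.trans hη'θ⟩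
  · -- scal
    intro μ hμ κ hκ T hT
    exact (hone μ hμ κ hκ).2.1 T hT
  · intro μ hμ κ hκ
    simp only [hif μ hμ, if_false]
    obtain ⟨-, -, -, -, -, h6, -⟩ := hend μ hμ κ hκ
    refine hb01 _ _ h6 ?_
    rw [hvT]
    exact hzz μ hμ κ hκ
  · intro μ hμ κ hκ
    simp only [hif μ hμ, if_false]
    obtain ⟨-, -, -, -, -, -, h7⟩ := hend μ hμ κ hκ
    refine hb01 _ _ h7 ?_
    rw [hvT]
    exact hzz μ hμ κ hκ
  · intro μ hμ κ hκ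
    simp only [hif μ hμ, if_false]
    exact (hend μ hμ κ hκ).1
  · intro μ hμ κ hκ
    simp only [hif μ hμ, if_false]
    exact (hend μ hμ κ hκ).2.1
  · intro μ hμ
    simp only [hif μ hμ, if_false]
    have hκ : (5 / 6 + k) ∈ Icc (5 / 6 - k) (5 / 6 + k) := ⟨by linarith, le_rfl⟩
    refine (hend μ hμ _ hκ).2.2.1 ?_
    rw [hvT]
    change 5 / 6 + k - 5 / 6 = k
    ring
  · intro μ hμ
    simp only [hif μ hμ, if_false]
    have hκ : (5 / 6 - k) ∈ Icc (5 / 6 - k) (5 / 6 + k) := ⟨le_rfl, by linarith⟩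
    refine (hend μ hμ _ hκ).2.2.2.1 ?_
    rw [hvT]
    change 5 / 6 - k - 5 / 6 = -k
    ring
  · refine (hvci 1).congr ?_
    intro p hp
    simp only [hif p.1 hp.1, if_false]
  · refine (hvci 2).congr ?_
    intro p hp
    simp only [hif p.1 hp.1, if_false]
  · refine (continuousOn_const.add (hvci 3)).congr (f := fun p : ℝ × ℝ => 1 + v p.1 p.2 (tZ p.1) 3) ?_
    intro p hp
    simp only [hif p.1 hp.1, if_false]
  · refine (continuousOn_const.add (hvci 4)).congr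
      (f := fun p : ℝ × ℝ => 1 / 2 + v p.1 p.2 (tZ p.1) 4) ?_
    intro p hp
    simp only [hif p.1 hp.1, if_false]
  · -- tr
    intro μ hμ κ hκ σ₁ hσ₁
    simp only [hif μ hμ, if_false, le_refl, if_true]
    have hμ0 := hμ.1
    have h1 := near_track U₁ V₁ U₂ V₂ C' hT k (1 / 10 ^ 6) T₁ (tZ μ) (log μ / 2) (v μ κ)
      (hnear μ hμ κ hκ) (by
        rw [hvT]
        change sM μ T₁ = _
        unfold sM
        rw [show 2 * (T₁ + log μ / 2) = log μ + 2 * T₁ by ring, exp_add, exp_log hμ0])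
    have hb : tZ μ + log μ / 2 = sigZ := by
      unfold tZ sigZ
      rw [← add_div, ← log_mul (by positivity) hμ0.ne']
      congr 2
      field_simp
    rw [hb, ← hσ₁] at h1
    have e1 : sigZ - log μ / 2 = tZ μ := by rw [← hb]; ring
    have e2' : σ₁ - log μ / 2 = T₁ := by rw [hσ₁]; ring
    simp only [JJ, e1, e2'] at h1
    rw [hvT] at h1
    exact h1

end Pool.Agent.RS
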