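import Pool.Agent.Lib.MP_35abc2_gt.H1b_Family
import Pool.Agent.Lib.MP_35abc2_gt.C2_Dir

/-! # H1c: the shooting data (MP_35abc2_gt) -/

open scoped ContDiff Topology NNReal
open Set Filter Real

noncomputable section

namespace Pool.Agent.RS

/-- the estimate at one vertical edge of the rectangle -/
theorem h1c_edge (U₁ V₁ U₂ V₂ : ℝ → ℝ) (C : ℝ) (hR : RefPair U₁ V₁ U₂ V₂ C) (σ₁ : ℝ)
    (hσ : σ₁ ≤ sigS) (r : ℝ) (hr : 0 < r) (u w u₀ w₀ j₁ j₂ δ θ : ℝ) (hθ : θ = nn sigS / (20 * C ^ 2))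
    (hu₀ : u₀ = r * U₁ σ₁) (hw₀ : w₀ = r * V₁ σ₁) (hu : |u - u₀| ≤ θ * max |u₀| |w₀|)
    (hw : |w - w₀| ≤ θ * max |u₀| |w₀|) (hδ0 : 0 ≤ δ) (hδ : δ ≤ 1 / 25)
    (hj : max |j₁ - nn σ₁ * (w * U₁ σ₁ - u * V₁ σ₁)| |j₂ - nn σ₁ * (w * U₂ σ₁ - u * V₂ σ₁)| ≤
      δ * max |nn σ₁ * (w * U₁ σ₁ - u * V₁ σ₁)| |nn σ₁ * (w * U₂ σ₁ - u * V₂ σ₁)|) :
    0 < j₂ ∧ |j₁| ≤ j₂ / 8 := by
  have hC := hR.hC
  have hnS : 0 < nn sigS := exp_pos _
  have hn1 : 0 < nn σ₁ := exp_pos _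
  have hθ0 : 0 < θ := by rw [hθ]; positivity
  set E := exp (-(3 / 2) * σ₁) with hE
  have hE0 : 0 < E := exp_pos _
  have hnE : nn σ₁ * (E * E) ≤ 1 := by
    have h1 : nn σ₁ ≤ exp (3 * σ₁) := by
      unfold nn
      apply exp_le_exp.2
      have := exp_pos (2 * σ₁)
      linarith
    have h2 : E * E = exp (-(3 * σ₁)) := by
      rw [hE, ← exp_add]
      congr 1
      ring
    calc nn σ₁ * (E * E) ≤ exp (3 * σ₁) * (E * E) := by gcongr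
      _ = 1 := by rw [h2, ← exp_add]; simp
  have hb1 := hR.b1 σ₁ hσ
  have hb2 := hR.b2 σ₁ hσ
  rw [← hE] at hb1 hb2
  have hm : max |u₀| |w₀| ≤ r * (C * E) := by
    apply max_le
    · rw [hu₀, abs_mul, abs_of_pos hr]
      have := abs_nonneg (V₁ σ₁)
      have h3 : |U₁ σ₁| ≤ C * E := by linarith
      exact mul_le_mul_of_nonneg_left h3 hr.le
    · rw [hw₀, abs_mul, abs_of_pos hr]
      have := abs_nonneg (U₁ σ₁)
      have h3 : |V₁ σ₁| ≤ C * E := by linarith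
      exact mul_le_mul_of_nonneg_left h3 hr.le
  have hm0 : 0 ≤ max |u₀| |w₀| := le_max_of_le_left (abs_nonneg _)
  have herr : ∀ U V : ℝ, |U| + |V| ≤ C * E →
      |nn σ₁ * ((w - w₀) * U - (u - u₀) * V)| ≤ r * nn sigS / 20 := by
    intro U V hUV
    have h1 : |(w - w₀) * U - (u - u₀) * V| ≤ θ * (r * (C * E)) * (C * E) := by
      calc |(w - w₀) * U - (u - u₀) * V| ≤ |(w - w₀) * U| + |(u - u₀) * V| := abs_sub _ _
        _ = |w - w₀| * |U| + |u - u₀| * |V| := by rw [abs_mul, abs_mul]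
        _ ≤ (θ * max |u₀| |w₀|) * |U| + (θ * max |u₀| |w₀|) * |V| := by gcongr
        _ = (θ * max |u₀| |w₀|) * (|U| + |V|) := by ring
        _ ≤ (θ * (r * (C * E))) * (C * E) := by gcongr
    rw [abs_mul, abs_of_pos hn1]
    calc nn σ₁ * |(w - w₀) * U - (u - u₀) * V| ≤ nn σ₁ * (θ * (r * (C * E)) * (C * E)) := by gcongr
      _ = θ * r * C ^ 2 * (nn σ₁ * (E * E)) := by ring
      _ ≤ θ * r * C ^ 2 * 1 := by gcongr
      _ = r * nn sigS / 20 := by rw [hθ]; field_simp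
  have e1 := herr (U₁ σ₁) (V₁ σ₁) hb1
  have e2 := herr (U₂ σ₁) (V₂ σ₁) hb2
  set A₁ := nn σ₁ * (w * U₁ σ₁ - u * V₁ σ₁) with hA1
  set A₂ := nn σ₁ * (w * U₂ σ₁ - u * V₂ σ₁) with hA2
  have hA1' : nn σ₁ * ((w - w₀) * U₁ σ₁ - (u - u₀) * V₁ σ₁) = A₁ := by
    rw [hA1, hu₀, hw₀]; ring
  have hA2' : nn σ₁ * ((w - w₀) * U₂ σ₁ - (u - u₀) * V₂ σ₁) = A₂ - r * nn sigS := by
    rw [hA2, hu₀, hw₀, ← hR.wr σ₁ hσ]; ring
  rw [hA1'] at e1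
  rw [hA2'] at e2
  have hN : 0 < r * nn sigS := mul_pos hr hnS
  have e2' := abs_le.1 e2
  have hmax : max |A₁| |A₂| ≤ 21 / 20 * (r * nn sigS) := by
    apply max_le
    · linarith
    · rw [abs_le]; constructor <;> linarith [e2'.1, e2'.2]
  have hmax0 : 0 ≤ max |A₁| |A₂| := le_max_of_le_left (abs_nonneg _)
  have hj' : max |j₁ - A₁| |j₂ - A₂| ≤ 21 / 500 * (r * nn sigS) := by
    calc max |j₁ - A₁| |j₂ - A₂| ≤ δ * max |A₁| |A₂| := hj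
      _ ≤ 1 / 25 * (21 / 20 * (r * nn sigS)) := by gcongr
      _ = 21 / 500 * (r * nn sigS) := by ring
  have g1 := (le_max_left _ _).trans hj'
  have g2 := abs_le.1 ((le_max_right _ _).trans hj')
  have g3 : |j₁| ≤ |j₁ - A₁| + |A₁| := by
    have := abs_add_le (j₁ - A₁) A₁
    simpa using this
  constructor
  · linarith [g2.1, e2'.1]
  · linarith [g2.1, e2'.1, g3, g1, e1]

/-- H1c. For all small `k` and all `ζ` there is a rectangle with shooting data, realised by solutions closing up at the tip.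

PROOF. `k₀ := min (1/100) (log (26/25)/C')`, `θ := nn sigS/(20 C²)`.  Take the family from `family_exists`; `d₀ = (u₀,w₀)`.
`ref_direction` for `(U₁,V₁)` (nonzero at `σ_*` since `V₁ = 1`), target `d₀`, `σb := min (T₁ + log μ₁/2) sigZ` gives `σ₁ < σb`, `r > 0`, `d₀ = r (U₁,V₁)(σ₁)`; put
`μb := exp (2(σ₁ - T₁)) ∈ (0, μ₁)`, so `T₁ + log μb/2 = σ₁`. Then again with target `-d₀`, `σb := σ₁`, giving `σ₁' < σ₁`, `r'`, `μa := exp (2(σ₁'-T₁)) < μb`.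
At `μb`, for every `κ`, with `h = (u - u₀, w - w₀)` at `T₁`, `|h| ≤ θ m₀`, `m₀ = max |u₀| |w₀| ≤ r C e^{-(3/2)σ₁}`:
`n₁(w U₁ - u V₁) = n₁(h_w U₁ - h_u V₁)` and `n₁(w U₂ - u V₂) = r nn sigS + n₁(h_w U₂ - h_u V₂)` (Wronskian), errors
`≤ n₁ θ m₀ C e^{-(3/2)σ₁} ≤ θ C² r ≤ r nn sigS/20` (`n₁ ≤ e^{3σ₁}`).  By `Family.tr` and `exp (C'k) - 1 ≤ 1/25` the values at `σ₀` satisfy
`|J0₁| ≤ r n_*/20 + (1/25)(21/20) r n_* ≤ r n_*/10`, `J0₂ ≥ (9/10) r n_*`, so `|J0₁| ≤ J0₂/8`.  At `μa` the same with opposite signs.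
All other fields of `ShootData` are fields of `Family` restricted to `Icc μa μb ⊆ Ioc 0 μ₁`. -/
theorem inner (U₁ V₁ U₂ V₂ : ℝ → ℝ) (C C' : ℝ) (hR : RefPair U₁ V₁ U₂ V₂ C)
    (hT : TrackProp U₁ V₁ U₂ V₂ C') :
    ∃ k₀ : ℝ, 0 < k₀ ∧ k₀ ≤ 1 / 100 ∧ ∀ k, 0 < k → k ≤ k₀ → ∀ ζ : ℝ, 0 < ζ →
      ∃ X₀ μa μb : ℝ, 0 < X₀ ∧ X₀ ≤ 1 / 100000 ∧ 0 < μa ∧
      ∃ (Z : ℝ → ℝ → Fin 5 → ℝ → ℝ) (u w P Φ g : ℝ → ℝ → ℝ → ℝ),
        (∀ μ ∈ Icc μa μb, ∀ κ ∈ Icc (5 / 6 - k) (5 / 6 + k),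
          log X₀ / 4 < tZ μ ∧
          TipSol μ κ X₀ (Iic (tZ μ)) (Z μ κ) (u μ κ) (w μ κ) (P μ κ) (Φ μ κ) (g μ κ) ∧
          ∀ T, T ≤ tZ μ → |scalR κ (sM μ T) (Φ μ κ T) (g μ κ T)| ≤ 4 * k) ∧
        ShootData U₁ V₁ U₂ V₂ k ζ μa μb (5 / 6 - k) (5 / 6 + k)
          (fun p => u p.1 p.2 (tZ p.1)) (fun p => w p.1 p.2 (tZ p.1))
          (fun p => P p.1 p.2 (tZ p.1) ^ 2 - 1)
          (fun p => DD (1 / 100) (u p.1 p.2 (tZ p.1)) (P p.1 p.2 (tZ p.1)) (Φ p.1 p.2 (tZ p.1))) := by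
  have hC' := hT.pos
  have hlog : 0 < log (26 / 25) := log_pos (by norm_num)
  refine ⟨min (1 / 100) (log (26 / 25) / C'), by positivity, min_le_left _ _, ?_⟩
  intro k hk hkk ζ hζ
  have hk1 : k ≤ 1 / 100 := hkk.trans (min_le_left _ _)
  have hk2 : exp (C' * k) - 1 ≤ 1 / 25 := by
    have h1 : k ≤ log (26 / 25) / C' := hkk.trans (min_le_right _ _)
    have h2 : C' * k ≤ log (26 / 25) := by
      rw [le_div_iff₀ hC'] at h1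
      linarith [mul_comm k C']
    have h3 : exp (C' * k) ≤ 26 / 25 := by
      calc exp (C' * k) ≤ exp (log (26 / 25)) := exp_le_exp.2 h2
        _ = 26 / 25 := exp_log (by norm_num)
    linarith
  have hk3 : 0 ≤ exp (C' * k) - 1 := by
    have : (1 : ℝ) ≤ exp (C' * k) := one_le_exp (by positivity)
    linarith
  have hC := hR.hC
  have hnS : 0 < nn sigS := exp_pos _
  set θ := nn sigS / (20 * C ^ 2) with hθ
  have hθ0 : 0 < θ := by rw [hθ]; positivity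
  obtain ⟨X₀, T₁, u₀, w₀, μ₁, hX, hX', hne, hμ₁, Z, u, w, P, Φ, g, hF⟩ :=
    family_exists U₁ V₁ U₂ V₂ C' hT k ζ θ hk hk1 hζ hθ0
  have hneS : (U₁ sigS, V₁ sigS) ≠ (0, 0) := by
    rw [hR.u1, hR.v1]; simp
  obtain ⟨σ₁, hσ1, hσ1S, r, hr, hru, hrw⟩ :=
    ref_direction U₁ V₁ hR.r1 hneS u₀ w₀ hne (T₁ + log μ₁ / 2)
  have hne' : (-u₀, -w₀) ≠ (0, 0) := by
    intro h
    apply hne
    rw [Prod.mk.injEq] at h ⊢
    exact ⟨neg_eq_zero.1 h.1, neg_eq_zero.1 h.2⟩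
  obtain ⟨σ₂, hσ2, hσ2S, r', hr', hru', hrw'⟩ :=
    ref_direction U₁ V₁ hR.r1 hneS (-u₀) (-w₀) hne' σ₁
  set μb := exp (2 * (σ₁ - T₁)) with hμb
  set μa := exp (2 * (σ₂ - T₁)) with hμa
  have hμa0 : 0 < μa := exp_pos _
  have hμb0 : 0 < μb := exp_pos _
  have hab : μa < μb := exp_lt_exp.2 (by linarith)
  have hb1 : μb ≤ μ₁ := by
    rw [hμb]
    calc exp (2 * (σ₁ - T₁)) ≤ exp (log μ₁) := exp_le_exp.2 (by linarith)
      _ = μ₁ := exp_log hμ₁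
  have hsub : Icc μa μb ⊆ Ioc 0 μ₁ := fun x hx => ⟨hμa0.trans_le hx.1, hx.2.trans hb1⟩
  have hbm : μb ∈ Ioc 0 μ₁ := ⟨hμb0, hb1⟩
  have ham : μa ∈ Ioc 0 μ₁ := ⟨hμa0, hab.le.trans hb1⟩
  have hlb : σ₁ = T₁ + log μb / 2 := by rw [hμb, log_exp]; ring
  have hla : σ₂ = T₁ + log μa / 2 := by rw [hμa, log_exp]; ring
  have hsub2 : Icc μa μb ×ˢ Icc (5 / 6 - k) (5 / 6 + k) ⊆ Ioc 0 μ₁ ×ˢ Icc (5 / 6 - k) (5 / 6 + k) :=
    Set.prod_mono hsub subset_rfl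
  have htop : (5 / 6 + k) ∈ Icc (5 / 6 - k) (5 / 6 + k) := ⟨by linarith, le_rfl⟩
  -- the right edge
  have hright : ∀ κ ∈ Icc (5 / 6 - k) (5 / 6 + k),
      0 < J0 U₂ V₂ (u μb κ (tZ μb)) (w μb κ (tZ μb)) ∧
      |J0 U₁ V₁ (u μb κ (tZ μb)) (w μb κ (tZ μb))|
        ≤ J0 U₂ V₂ (u μb κ (tZ μb)) (w μb κ (tZ μb)) / 8 := by
    intro κ hκ
    have hn := hF.near μb hbm κ hκ
    have ht := hF.tr μb hbm κ hκ σ₁ hlb
    exact h1c_edge U₁ V₁ U₂ V₂ C hR σ₁ hσ1S r hr (u μb κ T₁) (w μb κ T₁) u₀ w₀ _ _ _ θ hθ hru hrw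
      hn.1 hn.2 hk3 hk2 ht
  have hleft : ∀ κ ∈ Icc (5 / 6 - k) (5 / 6 + k),
      J0 U₂ V₂ (u μa κ (tZ μa)) (w μa κ (tZ μa)) < 0 ∧
      |J0 U₁ V₁ (u μa κ (tZ μa)) (w μa κ (tZ μa))|
        ≤ -J0 U₂ V₂ (u μa κ (tZ μa)) (w μa κ (tZ μa)) / 8 := by
    intro κ hκ
    have hn := hF.near μa ham κ hκ
    have ht := hF.tr μa ham κ hκ σ₂ hla
    have hn1 : |(-u μa κ T₁) - (-u₀)| ≤ θ * max |(-u₀)| |(-w₀)| := by
      rw [abs_neg, abs_neg, show -u μa κ T₁ - -u₀ = -(u μa κ T₁ - u₀) by ring, abs_neg]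
      exact hn.1
    have hn2 : |(-w μa κ T₁) - (-w₀)| ≤ θ * max |(-u₀)| |(-w₀)| := by
      rw [abs_neg, abs_neg, show -w μa κ T₁ - -w₀ = -(w μa κ T₁ - w₀) by ring, abs_neg]
      exact hn.2
    have key := h1c_edge U₁ V₁ U₂ V₂ C hR σ₂ hσ2S r' hr' (-u μa κ T₁) (-w μa κ T₁) (-u₀) (-w₀)
      (-J0 U₁ V₁ (u μa κ (tZ μa)) (w μa κ (tZ μa))) (-J0 U₂ V₂ (u μa κ (tZ μa)) (w μa κ (tZ μa)))
      (exp (C' * k) - 1) θ hθ hru' hrw' hn1 hn2 hk3 hk2 (by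
        have e : ∀ a x y U V j : ℝ, |-j - a * (-x * U - -y * V)| = |j - a * (x * U - y * V)| := by
          intro a x y U V j
          rw [show -j - a * (-x * U - -y * V) = -(j - a * (x * U - y * V)) by ring, abs_neg]
        have e' : ∀ a x y U V : ℝ, |a * (-x * U - -y * V)| = |a * (x * U - y * V)| := by
          intro a x y U V
          rw [show a * (-x * U - -y * V) = -(a * (x * U - y * V)) by ring, abs_neg]
        rw [e, e, e', e']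
        exact ht)
    rw [abs_neg] at key
    exact ⟨by linarith [key.1], key.2⟩
  refine ⟨X₀, μa, μb, hX, hX', hμa0, Z, u, w, P, Φ, g, ?_, ?_⟩
  · intro μ hμ κ hκ
    exact ⟨hF.lx.trans (hF.lt μ (hsub hμ)), hF.sol μ (hsub hμ) κ hκ, hF.scal μ (hsub hμ) κ hκ⟩
  · exact
    { hμ := hab
      hκ := by linarith
      c0 := hF.cu.mono hsub2
      c1 := hF.cw.mono hsub2
      c2 := (((hF.cP.mono hsub2).pow 2).sub continuousOn_const)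
      c3 := by
        have h1 := hF.cu.mono hsub2
        have h2 := hF.cP.mono hsub2
        have h3 := hF.cΦ.mono hsub2
        unfold DD
        exact ((((h2.pow 2).const_smul (-3 : ℝ)).add
          ((Real.continuous_cosh.comp_continuousOn h1).const_smul (3 : ℝ))).sub
          continuousOn_const).add ((continuousOn_const.mul h2).mul h3)
      b0 := fun p hp => hF.b0 p.1 (hsub hp.1) p.2 hp.2
      b1 := fun p hp => hF.b1 p.1 (hsub hp.1) p.2 hp.2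
      b2 := fun p hp => hF.b2 p.1 (hsub hp.1) p.2 hp.2
      b3 := fun p hp => hF.b3 p.1 (hsub hp.1) p.2 hp.2
      top2 := fun μ hμ => (hF.top μ (hsub hμ)).1
      top3 := fun μ hμ => (hF.top μ (hsub hμ)).2
      bot2 := fun μ hμ => (hF.bot μ (hsub hμ)).1
      bot3 := fun μ hμ => (hF.bot μ (hsub hμ)).2
      right2 := fun κ hκ => (hright κ hκ).1
      right1 := fun κ hκ => (hright κ hκ).2
      left2 := fun κ hκ => (hleft κ hκ).1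
      left1 := fun κ hκ => (hleft κ hκ).2 }

end Pool.Agent.RS
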