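import Mathlib
import Pool.Agent.Lib.MP_e589f0_an.Brouwer

/-! # T4: Poincaré–Miranda on a rectangle and the limit argument (MP_35abc2_gt) -/

open scoped ContDiff Topology NNReal
open Set Filter

noncomputable section

namespace Pool.Agent.RS

private lemma T4_clamp_zero {x y M : ℝ} (hM : 0 < M) (hx0 : 0 ≤ x) (hxM : x ≤ M)
    (h : min (max (x - y) 0) M = x) (h0 : x = 0 → y ≤ 0) (h1 : x = M → 0 ≤ y) : y = 0 := by
  rcases lt_or_eq_of_le hx0 with hx | hx
  · rcases lt_or_eq_of_le hxM with hx' | hx'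
    · -- interior
      rcases min_choice (max (x - y) 0) M with h' | h'
      · rw [h'] at h
        rcases max_choice (x - y) 0 with h'' | h''
        · rw [h''] at h; linarith
        · rw [h''] at h; linarith
      · rw [h'] at h; linarith
    · have hy : 0 ≤ y := h1 hx'
      -- `min .. M = M` gives `x - y ≥ M`
      have h2 : M ≤ max (x - y) 0 := by
        rw [hx'] at h
        have := min_le_left (max (M - y) 0) M
        rw [hx']
        linarith
      rcases le_max_iff.1 h2 with h3 | h3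
      · linarith
      · linarith
  · have hy : y ≤ 0 := h0 hx.symm
    have h2 : max (x - y) 0 ≤ 0 := by
      by_contra hc
      push Not at hc
      have h3 : 0 < min (max (x - y) 0) M := lt_min hc hM
      linarith
    have h3 := le_max_left (x - y) 0
    linarith

/-- Poincaré–Miranda theorem on a rectangle.

PROOF. Normalise the rectangle to `[0,1]²`; apply Brouwer (`Pool.Agent.Lib.MP_e589f0_an.brouwer_box` with `n = 2`, `b = ![b-a, d-c]`)
to `(x,y) ↦ (clamp (x - f(x,y)), clamp (y - g(x,y)))`.  At a fixed point: if `x` is interior then `f = 0`; if `x = a`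
(left edge) the fixed point equation says `clamp(a - f) = a`, i.e. `f ≥ 0`, together with `f ≤ 0` on this edge `f = 0`; if `x = b`
then `f ≤ 0` and `f ≥ 0`, so `f = 0`; same for `g`. -/
theorem poincare_miranda (a b c d : ℝ) (hab : a < b) (hcd : c < d) (f g : ℝ × ℝ → ℝ)
    (hf : ContinuousOn f (Icc a b ×ˢ Icc c d)) (hg : ContinuousOn g (Icc a b ×ˢ Icc c d))
    (hfa : ∀ y ∈ Icc c d, f (a, y) ≤ 0) (hfb : ∀ y ∈ Icc c d, 0 ≤ f (b, y))
    (hgc : ∀ x ∈ Icc a b, g (x, c) ≤ 0) (hgd : ∀ x ∈ Icc a b, 0 ≤ g (x, d)) :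
    ∃ p ∈ Icc a b ×ˢ Icc c d, f p = 0 ∧ g p = 0 := by
  set B : Fin 2 → ℝ := ![b - a, d - c] with hB
  have hB0 : B 0 = b - a := by simp [hB]
  have hB1 : B 1 = d - c := by simp [hB]
  set P : (Fin 2 → ℝ) → ℝ × ℝ := fun v => (a + v 0, c + v 1) with hP
  have hPc : Continuous P := by
    simp only [hP]; fun_prop
  have hPmem : MapsTo P (Icc 0 B) (Icc a b ×ˢ Icc c d) := by
    intro v hv
    have h0 := hv.1 0
    have h1 := hv.1 1
    have h2 := hv.2 0
    have h3 := hv.2 1
    rw [hB0] at h2; rw [hB1] at h3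
    simp only [Pi.zero_apply] at h0 h1
    refine ⟨⟨?_, ?_⟩, ⟨?_, ?_⟩⟩ <;> simp only [hP] <;> linarith
  set F : (Fin 2 → ℝ) → (Fin 2 → ℝ) := fun v =>
    ![min (max (v 0 - f (P v)) 0) (b - a), min (max (v 1 - g (P v)) 0) (d - c)] with hF
  have hF0 : ∀ v, F v 0 = min (max (v 0 - f (P v)) 0) (b - a) := by intro v; simp [hF]
  have hF1 : ∀ v, F v 1 = min (max (v 1 - g (P v)) 0) (d - c) := by intro v; simp [hF]
  have hFc : ContinuousOn F (Icc 0 B) := by
    have hfP : ContinuousOn (fun v => f (P v)) (Icc 0 B) := hf.comp hPc.continuousOn hPmem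
    have hgP : ContinuousOn (fun v => g (P v)) (Icc 0 B) := hg.comp hPc.continuousOn hPmem
    refine continuousOn_pi.2 fun i => ?_
    fin_cases i
    · have : ContinuousOn (fun v : Fin 2 → ℝ => min (max (v 0 - f (P v)) 0) (b - a)) (Icc 0 B) := by
        have h1 : ContinuousOn (fun v : Fin 2 → ℝ => max (v 0 - f (P v)) 0) (Icc 0 B) :=
          ((continuous_apply 0).continuousOn.sub hfP).sup continuousOn_const
        exact h1.inf continuousOn_const
      simpa [hF] using this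
    · have : ContinuousOn (fun v : Fin 2 → ℝ => min (max (v 1 - g (P v)) 0) (d - c)) (Icc 0 B) := by
        have h1 : ContinuousOn (fun v : Fin 2 → ℝ => max (v 1 - g (P v)) 0) (Icc 0 B) :=
          ((continuous_apply 1).continuousOn.sub hgP).sup continuousOn_const
        exact h1.inf continuousOn_const
      simpa [hF] using this
  have hFm : MapsTo F (Icc 0 B) (Icc 0 B) := by
    intro v _
    refine ⟨?_, ?_⟩
    · intro i
      fin_cases i
      · change (0 : ℝ) ≤ F v 0
        rw [hF0]; exact le_min (le_max_right _ _) (by linarith)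
      · change (0 : ℝ) ≤ F v 1
        rw [hF1]; exact le_min (le_max_right _ _) (by linarith)
    · intro i
      fin_cases i
      · change F v 0 ≤ B 0
        rw [hF0, hB0]; exact min_le_right _ _
      · change F v 1 ≤ B 1
        rw [hF1, hB1]; exact min_le_right _ _
  obtain ⟨v, hv, hfix⟩ := Pool.Agent.Lib.MP_e589f0_an.brouwer_box B
    (by intro i; fin_cases i
        · change 0 ≤ B 0
          rw [hB0]; linarith
        · change 0 ≤ B 1
          rw [hB1]; linarith) F hFc hFm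
  have hm := hPmem hv
  have h0 := hv.1 0
  have h1 := hv.1 1
  have h2 := hv.2 0
  have h3 := hv.2 1
  rw [hB0] at h2; rw [hB1] at h3
  simp only [Pi.zero_apply] at h0 h1
  have e0 : min (max (v 0 - f (P v)) 0) (b - a) = v 0 := by rw [← hF0, hfix]
  have e1 : min (max (v 1 - g (P v)) 0) (d - c) = v 1 := by rw [← hF1, hfix]
  have hPv : P v = (a + v 0, c + v 1) := rfl
  refine ⟨P v, hm, ?_, ?_⟩
  · refine T4_clamp_zero (by linarith) h0 h2 e0 ?_ ?_
    · intro h
      rw [hPv, h, add_zero]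
      exact hfa _ hm.2
    · intro h
      rw [hPv, h, add_sub_cancel]
      exact hfb _ hm.2
  · refine T4_clamp_zero (by linarith) h1 h3 e1 ?_ ?_
    · intro h
      rw [hPv, h, add_zero]
      exact hgc _ hm.1
    · intro h
      rw [hPv, h, add_sub_cancel]
      exact hgd _ hm.1

/-- The shooting argument.  For every `s ≥ s₁` the values `W s`, `D s` (at time `s`) have the Poincaré–Miranda signs on the
edges of the rectangle, and once `|W|` exceeds `ρ |U|` (resp. `|D|` exceeds `B`) it never vanishes later.  Then for some point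
of the rectangle `|W| ≤ ρ |U|` and `|D| ≤ B` for all times.

PROOF. For `N : ℕ` let `K_N` be the set of `p` in the rectangle with `|W s p| ≤ ρ |U s p|`, `|D s p| ≤ B` for all
`s ∈ [s₁, s₁ + N]`.  It is compact (closed in the compact rectangle by continuity of `W s`, `U s`, `D s` for each fixed `s`), decreasing in `N`,
and nonempty: at the point `p` given by `poincare_miranda` for `W (s₁+N)`, `D (s₁+N)` both vanish at time `s₁ + N`, so by `hWtube`,
`hDtube` the inequalities cannot be violated at any `s ∈ [s₁, s₁+N]`.  The intersection of the `K_N` is nonempty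
(`IsCompact.nonempty_iInter_of_sequence_nonempty_isCompact_isClosed`). -/
theorem pm_limit (a b c d : ℝ) (hab : a < b) (hcd : c < d) (s₁ ρ B : ℝ) (U W D : ℝ → ℝ × ℝ → ℝ)
    (hU : ∀ s, s₁ ≤ s → ContinuousOn (U s) (Icc a b ×ˢ Icc c d))
    (hW : ∀ s, s₁ ≤ s → ContinuousOn (W s) (Icc a b ×ˢ Icc c d))
    (hD : ∀ s, s₁ ≤ s → ContinuousOn (D s) (Icc a b ×ˢ Icc c d))
    (hWa : ∀ s, s₁ ≤ s → ∀ y ∈ Icc c d, W s (a, y) ≤ 0) (hWb : ∀ s, s₁ ≤ s → ∀ y ∈ Icc c d, 0 ≤ W s (b, y))
    (hDc : ∀ s, s₁ ≤ s → ∀ x ∈ Icc a b, D s (x, c) ≤ 0) (hDd : ∀ s, s₁ ≤ s → ∀ x ∈ Icc a b, 0 ≤ D s (x, d))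
    (hWtube : ∀ p ∈ Icc a b ×ˢ Icc c d, ∀ s s', s₁ ≤ s → s ≤ s' → ρ * |U s p| < |W s p| → W s' p ≠ 0)
    (hDtube : ∀ p ∈ Icc a b ×ˢ Icc c d, ∀ s s', s₁ ≤ s → s ≤ s' → B < |D s p| → D s' p ≠ 0) :
    ∃ p ∈ Icc a b ×ˢ Icc c d, ∀ s, s₁ ≤ s → |W s p| ≤ ρ * |U s p| ∧ |D s p| ≤ B := by
  set R : Set (ℝ × ℝ) := Icc a b ×ˢ Icc c d with hR
  have hRcomp : IsCompact R := isCompact_Icc.prod isCompact_Icc
  have hRcl : IsClosed R := hRcomp.isClosed
  -- the closed sets for a fixed time
  let T : ℝ → Set (ℝ × ℝ) := fun s => R ∩ {p | |W s p| ≤ ρ * |U s p| ∧ |D s p| ≤ B}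
  have hTcl : ∀ s, s₁ ≤ s → IsClosed (T s) := by
    intro s hs
    have h1 : IsClosed (R ∩ (fun p => ρ * |U s p| - |W s p|) ⁻¹' Ici 0) := by
      refine ContinuousOn.preimage_isClosed_of_isClosed ?_ hRcl isClosed_Ici
      exact (continuousOn_const.mul (hU s hs).abs).sub (hW s hs).abs
    have h2 : IsClosed (R ∩ (fun p => |D s p|) ⁻¹' Iic B) :=
      ContinuousOn.preimage_isClosed_of_isClosed (hD s hs).abs hRcl isClosed_Iic
    have h3 : T s = (R ∩ (fun p => ρ * |U s p| - |W s p|) ⁻¹' Ici 0) ∩ (R ∩ (fun p => |D s p|) ⁻¹' Iic B) := by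
      ext p
      simp only [T, mem_inter_iff, mem_ofPred_eq, mem_preimage, mem_Ici, mem_Iic, sub_nonneg]
      tauto
    rw [h3]; exact h1.inter h2
  let K : ℕ → Set (ℝ × ℝ) := fun N => R ∩ ⋂ s ∈ Icc s₁ (s₁ + N), T s
  have hKcl : ∀ N, IsClosed (K N) := by
    intro N
    refine hRcl.inter (isClosed_biInter fun s hs => hTcl s hs.1)
  have hKne : ∀ N, (K N).Nonempty := by
    intro N
    have hN : s₁ ≤ s₁ + N := by
      have : (0 : ℝ) ≤ N := Nat.cast_nonneg N
      linarith
    obtain ⟨p, hp, hp1, hp2⟩ := poincare_miranda a b c d hab hcd (W (s₁ + N)) (D (s₁ + N)) (hW _ hN) (hD _ hN)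
      (hWa _ hN) (hWb _ hN) (hDc _ hN) (hDd _ hN)
    refine ⟨p, hp, ?_⟩
    simp only [mem_iInter]
    intro s hs
    refine ⟨hp, ?_, ?_⟩
    · by_contra hc
      push Not at hc
      exact hWtube p hp s (s₁ + N) hs.1 hs.2 hc hp1
    · by_contra hc
      push Not at hc
      exact hDtube p hp s (s₁ + N) hs.1 hs.2 hc hp2
  have hKmono : ∀ N, K (N + 1) ⊆ K N := by
    intro N p hp
    refine ⟨hp.1, ?_⟩
    have h2 := hp.2
    simp only [mem_iInter] at h2 ⊢
    intro s hs
    refine h2 s ⟨hs.1, ?_⟩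
    have := hs.2
    push_cast
    linarith
  have hK0 : IsCompact (K 0) := hRcomp.of_isClosed_subset (hKcl 0) (fun p hp => hp.1)
  obtain ⟨p, hp⟩ := IsCompact.nonempty_iInter_of_sequence_nonempty_isCompact_isClosed K hKmono hKne hK0 hKcl
  simp only [mem_iInter] at hp
  refine ⟨p, (hp 0).1, fun s hs => ?_⟩
  obtain ⟨N, hN⟩ := exists_nat_ge (s - s₁)
  have h2 := (hp N).2
  simp only [mem_iInter] at h2
  have h3 := h2 s ⟨hs, by linarith⟩
  exact h3.2

end Pool.Agent.RS
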