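import Pool.Agent.Lib.MP_35abc2_gt.E1_Gronwall
import Pool.Agent.Lib.MP_35abc2_gt.E2_Wtube
import Pool.Agent.Lib.MP_35abc2_gt.E3_Dtube
import Pool.Agent.Lib.MP_35abc2_gt.E4_Sign
import Pool.Agent.Lib.MP_35abc2_gt.E4b_Inside
import Pool.Agent.Lib.MP_35abc2_gt.E6_Track
import Pool.Agent.Lib.MP_35abc2_gt.D0_Lip
import Pool.Agent.Lib.MP_35abc2_gt.T1_Flow
import Pool.Agent.Lib.MP_35abc2_gt.T4_PM

/-! # H2: the shooting argument in the outer region (MP_35abc2_gt) -/

open scoped ContDiff Topology NNReal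
open Set Filter Real

noncomputable section

namespace Pool.Agent.RS

lemma H2_vec (a b c d : ℝ) : (![a, b, c, d] : Fin 4 → ℝ) 0 = a ∧ (![a, b, c, d] : Fin 4 → ℝ) 1 = b ∧
    (![a, b, c, d] : Fin 4 → ℝ) 2 = c ∧ (![a, b, c, d] : Fin 4 → ℝ) 3 = d :=
  ⟨rfl, rfl, rfl, rfl⟩

lemma H2_nn_pos (σ : ℝ) : 0 < nn σ := exp_pos _

/-- the right edge -/
lemma H2_right {n u W J1 J2 ex : ℝ} (hn : 0 < n) (hex : ex ≤ 1 / 20) (h2 : 0 < J2)
    (h1 : |J1| ≤ J2 / 8) (h : max |n * (-u) - J1| |n * (W / 200) - J2| ≤ ex * max |J1| |J2|) :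
    20 * |u| < W := by
  have hm : max |J1| |J2| = J2 := by
    rw [abs_of_pos h2]
    exact max_eq_right (by linarith)
  rw [hm] at h
  have e1 : |n * (-u) - J1| ≤ ex * J2 := (le_max_left _ _).trans h
  have e2 : |n * (W / 200) - J2| ≤ ex * J2 := (le_max_right _ _).trans h
  have e3 : ex * J2 ≤ 1 / 20 * J2 := mul_le_mul_of_nonneg_right hex h2.le
  have e4 : |n * u| ≤ J2 / 8 + 1 / 20 * J2 := by
    have : |n * (-u)| ≤ |n * (-u) - J1| + |J1| := by
      have := abs_add_le (n * (-u) - J1) J1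
      rwa [sub_add_cancel] at this
    rw [mul_neg, abs_neg] at this
    rw [mul_neg] at e1
    linarith
  rw [abs_mul, abs_of_pos hn] at e4
  have e5 := (abs_le.1 e2).1
  have e6 : n * (20 * |u|) < n * W := by nlinarith
  exact lt_of_mul_lt_mul_left e6 hn.le

lemma H2_left {n u W J1 J2 ex : ℝ} (hn : 0 < n) (hex : ex ≤ 1 / 20) (h2 : J2 < 0)
    (h1 : |J1| ≤ -J2 / 8) (h : max |n * (-u) - J1| |n * (W / 200) - J2| ≤ ex * max |J1| |J2|) :
    20 * |u| < -W := by
  have := H2_right (n := n) (u := -u) (W := -W) (J1 := -J1) (J2 := -J2) (ex := ex) hn hex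
    (by linarith) (by rw [abs_neg]; exact h1) (by
      have a1 : n * (- -u) - -J1 = -(n * (-u) - J1) := by ring
      have a2 : n * (-W / 200) - -J2 = -(n * (W / 200) - J2) := by ring
      rw [a1, a2, abs_neg, abs_neg, abs_neg, abs_neg]
      exact h)
  rwa [abs_neg] at this

theorem outer (U₁ V₁ U₂ V₂ : ℝ → ℝ) (C C' : ℝ) (hR : RefPair U₁ V₁ U₂ V₂ C)
    (hT : TrackProp U₁ V₁ U₂ V₂ C') :
    ∃ k₀ Co : ℝ, 0 < k₀ ∧ 0 < Co ∧ ∀ k, 0 < k → k ≤ k₀ → ∃ ζ : ℝ, 0 < ζ ∧
      ∀ (μa μb κa κb : ℝ) (a0 a1 a2 a3 : ℝ × ℝ → ℝ),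
        ShootData U₁ V₁ U₂ V₂ k ζ μa μb κa κb a0 a1 a2 a3 →
        ∃ p ∈ Icc μa μb ×ˢ Icc κa κb, ∃ (εu εq : ℝ) (v : ℝ → Fin 4 → ℝ), EpsCond εu εq ∧
          εq ≤ Co * k ∧ v (1 / 100) = ![a0 p, a1 p / 100, a2 p, a3 p / 100] ∧
          (∀ s, 1 / 100 ≤ s → HasDerivAt v (F3 εu εq s (v s)) s) ∧
          (∀ s, 1 / 100 ≤ s → Inactive εu εq (v s)) := by
  obtain ⟨CL, hCL1, hCL⟩ := outer_gronwall
  have hC' : 0 < C' := hT.pos
  have hCL0 : 0 < CL := by linarith
  have hlog : 0 < Real.log (21 / 20) := Real.log_pos (by norm_num)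
  have hk₀ : 0 < min (1 / (2000 * (8 * CL))) (Real.log (21 / 20) / (C' * 6 * (8 * CL))) := by
    positivity
  refine ⟨min (1 / (2000 * (8 * CL))) (Real.log (21 / 20) / (C' * 6 * (8 * CL))), 8 * CL, hk₀,
    by positivity, ?_⟩
  intro k hk hkk
  set εq := 8 * CL * k with hεq
  have hq0 : 0 < εq := by positivity
  have hq1 : εq ≤ 1 / 2000 := by
    have h1 := hkk.trans (min_le_left _ _)
    rw [le_div_iff₀ (by positivity)] at h1
    rw [hεq]
    linarith
  have hex : exp (C' * (6 * εq)) - 1 ≤ 1 / 20 := by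
    have h1 := hkk.trans (min_le_right _ _)
    rw [le_div_iff₀ (by positivity)] at h1
    have h2 : C' * (6 * εq) ≤ Real.log (21 / 20) := by
      rw [hεq]
      calc C' * (6 * (8 * CL * k)) = k * (C' * 6 * (8 * CL)) := by ring
        _ ≤ _ := h1
    have h3 := Real.exp_le_exp.2 h2
    rw [Real.exp_log (by norm_num)] at h3
    linarith
  set εu := min (1 / 2000) (min (εq / (3 * 10 ^ 8)) (k / 10 ^ 10)) with hεu
  have hu0 : 0 < εu := by
    rw [hεu]
    positivity
  have hu1 : εu ≤ 1 / 2000 := min_le_left _ _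
  have hu2 : εu ≤ εq / (3 * 10 ^ 8) := (min_le_right _ _).trans (min_le_left _ _)
  have hu3 : εu ≤ k / 10 ^ 10 := (min_le_right _ _).trans (min_le_right _ _)
  have hsq : εu ^ 2 ≤ εu := by nlinarith
  have hE : EpsCond εu εq := by
    refine ⟨hu0, by linarith, hq0, hq1, ?_⟩
    rw [le_div_iff₀ (by norm_num)] at hu2
    linarith
  have hck : 10 ^ 7 * εu ^ 2 ≤ k / 1000 := by
    rw [le_div_iff₀ (by norm_num)] at hu3
    rw [le_div_iff₀ (by norm_num)]
    linarith
  have hsk : εu ^ 2 ≤ k := by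
    rw [le_div_iff₀ (by norm_num)] at hu3
    linarith
  refine ⟨εu / (8 * CL), by positivity, ?_⟩
  intro μa μb κa κb a0 a1 a2 a3 hS
  obtain ⟨⟨L, hL⟩, hLc⟩ := F3_lip εu εq hu0 (by linarith) hq0 (by linarith)
  obtain ⟨φ, hφc, hφ0, hφd⟩ := tk_flow (F3 εu εq) L hL hLc (1 / 100)
  set init : ℝ × ℝ → (Fin 4 → ℝ) := fun p => ![a0 p, a1 p / 100, a2 p, a3 p / 100] with hinit
  have hi0 : ∀ p, φ (1 / 100) (init p) 0 = a0 p := fun p => by rw [hφ0]; rfl
  have hi1 : ∀ p, φ (1 / 100) (init p) 1 = a1 p / 100 := fun p => by rw [hφ0]; rfl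
  have hi2 : ∀ p, φ (1 / 100) (init p) 2 = a2 p := fun p => by rw [hφ0]; rfl
  have hi3 : ∀ p, φ (1 / 100) (init p) 3 = a3 p / 100 := fun p => by rw [hφ0]; rfl
  have hinc : ContinuousOn init (Icc μa μb ×ˢ Icc κa κb) := by
    rw [continuousOn_pi]
    intro i
    fin_cases i
    · exact hS.c0
    · exact hS.c1.div_const 100
    · exact hS.c2
    · exact hS.c3.div_const 100
  have hcont : ∀ (i : Fin 4) (s : ℝ),
      ContinuousOn (fun p => φ s (init p) i) (Icc μa μb ×ˢ Icc κa κb) := by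
    intro i s
    have h1 : Continuous (fun x : Fin 4 → ℝ => φ s x i) :=
      (continuous_apply i).comp (hφc.comp (Continuous.prodMk_right s))
    exact h1.comp_continuousOn hinc
  have hd : ∀ p s, HasDerivAt (fun s => φ s (init p)) (F3 εu εq s (φ s (init p))) s :=
    fun p s => hφd s (init p)
  -- bounds on [1/100, 200]
  have hin1 : ∀ p ∈ Icc μa μb ×ˢ Icc κa κb, ∀ s ∈ Icc (1 / 100 : ℝ) 200,
      |φ s (init p) 0| ≤ εu / 2 ∧ |φ s (init p) 1| ≤ 20 * εu ∧ |φ s (init p) 2| ≤ εq / 2 ∧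
        |φ s (init p) 3| ≤ 8 * εq := by
    intro p hp s hs
    obtain ⟨h1, h2⟩ := hCL εu εq hE (fun s => φ s (init p)) (fun s _ => hd p s) s hs
    have g1 : |φ s (init p) 0| + |φ s (init p) 1| ≤ CL * (|a0 p| + |a1 p / 100|) := by
      have := h1
      simp only [hi0, hi1] at this
      exact this
    have g2 : |φ s (init p) 2| + |φ s (init p) 3| ≤ CL * (|a2 p| + |a3 p / 100| + εu ^ 2) := by
      have := h2
      simp only [hi2, hi3] at this
      exact this
    have b0 := hS.b0 p hp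
    have b1 := hS.b1 p hp
    have b2 := hS.b2 p hp
    have b3 := hS.b3 p hp
    have b1' : |a1 p / 100| ≤ εu / (8 * CL) := by
      rw [abs_div, abs_of_pos (by norm_num : (0 : ℝ) < 100)]
      have : 0 ≤ |a1 p| := abs_nonneg _
      linarith
    have b3' : |a3 p / 100| ≤ k := by
      rw [abs_div, abs_of_pos (by norm_num : (0 : ℝ) < 100)]
      have : 0 ≤ |a3 p| := abs_nonneg _
      linarith
    have g3 : CL * (|a0 p| + |a1 p / 100|) ≤ εu / 4 := by
      calc CL * (|a0 p| + |a1 p / 100|) ≤ CL * (εu / (8 * CL) + εu / (8 * CL)) :=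
            mul_le_mul_of_nonneg_left (add_le_add b0 b1') hCL0.le
        _ = εu / 4 := by field_simp; ring
    have g4 : CL * (|a2 p| + |a3 p / 100| + εu ^ 2) ≤ εq / 2 := by
      calc CL * (|a2 p| + |a3 p / 100| + εu ^ 2) ≤ CL * (k + k + k) :=
            mul_le_mul_of_nonneg_left (by linarith) hCL0.le
        _ ≤ εq / 2 := by rw [hεq]; nlinarith
    have p0 := abs_nonneg (φ s (init p) 0)
    have p1 := abs_nonneg (φ s (init p) 1)
    have p2 := abs_nonneg (φ s (init p) 2)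
    have p3 := abs_nonneg (φ s (init p) 3)
    refine ⟨by linarith, by linarith, by linarith, by linarith⟩
  have hIn : ∀ p ∈ Icc μa μb ×ˢ Icc κa κb, ∀ s ∈ Icc (1 / 100 : ℝ) 200,
      Inactive εu εq (φ s (init p)) := by
    intro p hp s hs
    obtain ⟨e0, e1, e2, e3⟩ := hin1 p hp s hs
    exact ⟨by linarith, e1, by linarith, e3⟩
  have hnn := H2_nn_pos sigS
  have htr : ∀ p ∈ Icc μa μb ×ˢ Icc κa κb,
      max |nn sigS * (-φ 200 (init p) 0) - J0 U₁ V₁ (a0 p) (a1 p)|
        |nn sigS * (φ 200 (init p) 1 / 200) - J0 U₂ V₂ (a0 p) (a1 p)| ≤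
      (exp (C' * (6 * εq)) - 1) * max |J0 U₁ V₁ (a0 p) (a1 p)| |J0 U₂ V₂ (a0 p) (a1 p)| := by
    intro p hp
    have h1 := outer_track U₁ V₁ U₂ V₂ C C' hR hT εu εq hE (fun s => φ s (init p))
      (fun s _ => hd p s) (hIn p hp)
    have e : (100 : ℝ) * (a1 p / 100) = a1 p := by ring
    simp only [hi0, hi1, e] at h1
    exact h1
  obtain ⟨p, hp, hpp⟩ := pm_limit μa μb κa κb hS.hμ hS.hκ 200 20 (8 * εq)
    (fun s p => φ s (init p) 0) (fun s p => φ s (init p) 1) (fun s p => φ s (init p) 3)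
    (fun s _ => hcont 0 s) (fun s _ => hcont 1 s) (fun s _ => hcont 3 s)
    (by
      intro s hs y hy
      have hp : (μa, y) ∈ Icc μa μb ×ˢ Icc κa κb :=
        ⟨⟨le_rfl, hS.hμ.le⟩, hy⟩
      have h1 := H2_left hnn hex (hS.left2 y hy) (hS.left1 y hy) (htr (μa, y) hp)
      have h2 := (outer_Wtube εu εq hE (fun s => φ s (init (μa, y))) 200 s le_rfl
        (fun s _ => hd _ s)).2 h1 s ⟨hs, le_rfl⟩
      have h3 := abs_nonneg (φ s (init (μa, y)) 0)
      linarith)
    (by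
      intro s hs y hy
      have hp : (μb, y) ∈ Icc μa μb ×ˢ Icc κa κb :=
        ⟨⟨hS.hμ.le, le_rfl⟩, hy⟩
      have h1 := H2_right hnn hex (hS.right2 y hy) (hS.right1 y hy) (htr (μb, y) hp)
      have h2 := (outer_Wtube εu εq hE (fun s => φ s (init (μb, y))) 200 s le_rfl
        (fun s _ => hd _ s)).1 h1 s ⟨hs, le_rfl⟩
      have h3 := abs_nonneg (φ s (init (μb, y)) 0)
      linarith)
    (by
      intro s hs x hx
      have h1 := (outer_sign εu εq hE (k / 1000) (by positivity) hck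
        (fun s => φ s (init (x, κa))) s (fun s _ => hd _ s)).2
        (by simp only [hi2]; exact hS.bot2 x hx)
        (by simp only [hi3]; have := hS.bot3 x hx; linarith)
      exact (h1 s ⟨by linarith, le_rfl⟩).2.le)
    (by
      intro s hs x hx
      have h1 := (outer_sign εu εq hE (k / 1000) (by positivity) hck
        (fun s => φ s (init (x, κb))) s (fun s _ => hd _ s)).1
        (by simp only [hi2]; exact hS.top2 x hx)
        (by simp only [hi3]; have := hS.top3 x hx; linarith)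
      exact (h1 s ⟨by linarith, le_rfl⟩).2.le)
    (by
      intro p hp s s' hs hss h
      have hW := outer_Wtube εu εq hE (fun s => φ s (init p)) s s' hs (fun s _ => hd _ s)
      have h3 := abs_nonneg (φ s' (init p) 0)
      rcases le_total 0 (φ s (init p) 1) with h0 | h0
      · have h' : 20 * |φ s (init p) 0| < φ s (init p) 1 := by
          have h4 := h
          simp only [abs_of_nonneg h0] at h4
          exact h4
        have h5 := hW.1 h' s' ⟨hss, le_rfl⟩
        intro h6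
        linarith
      · have h' : 20 * |φ s (init p) 0| < -φ s (init p) 1 := by
          have h4 := h
          simp only [abs_of_nonpos h0] at h4
          exact h4
        have h5 := hW.2 h' s' ⟨hss, le_rfl⟩
        intro h6
        linarith)
    (by
      intro p hp s s' hs hss h
      have hW := outer_Dtube εu εq hE (fun s => φ s (init p)) s s' hs (fun s _ => hd _ s)
      rcases le_total 0 (φ s (init p) 3) with h0 | h0
      · have h' : 8 * εq < φ s (init p) 3 := by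
          have h4 := h
          simp only [abs_of_nonneg h0] at h4
          exact h4
        have h5 := hW.1 h' s' ⟨hss, le_rfl⟩
        intro h6
        linarith
      · have h' : 8 * εq < -φ s (init p) 3 := by
          have h4 := h
          simp only [abs_of_nonpos h0] at h4
          exact h4
        have h5 := hW.2 h' s' ⟨hss, le_rfl⟩
        intro h6
        linarith)
  refine ⟨p, hp, εu, εq, fun s => φ s (init p), hE, le_rfl, hφ0 _, fun s _ => hd p s, ?_⟩
  intro s hs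
  rcases le_total s 200 with h | h
  · exact hIn p hp s ⟨hs, h⟩
  · have h200 : (200 : ℝ) ∈ Icc (1 / 100 : ℝ) 200 := ⟨by norm_num, le_rfl⟩
    obtain ⟨e0, e1, e2, e3⟩ := hin1 p hp 200 h200
    have h1 := outer_inside εu εq hE (fun s => φ s (init p)) s (fun s _ => hd p s)
      (fun s hs => (hpp s hs.1).1) e0 e2 s ⟨h, le_rfl⟩
    exact ⟨h1.1, h1.2.1, h1.2.2, (hpp s h).2⟩

end Pool.Agent.RS
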