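import Pool.Agent.Lib.MP_35abc2_gt.C1b_Exists
import Pool.Agent.Lib.MP_35abc2_gt.C3_Track
import Pool.Agent.Lib.MP_35abc2_gt.H1c_Inner
import Pool.Agent.Lib.MP_35abc2_gt.H2_Outer
import Pool.Agent.Lib.MP_35abc2_gt.E5b_SolM
import Pool.Agent.Lib.MP_35abc2_gt.E5c_Match
import Pool.Agent.Lib.MP_35abc2_gt.T5_Glue

/-! # H3: Proposition A: global solutions of (M) with small scalar curvature (MP_35abc2_gt) -/

open scoped ContDiff Topology NNReal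
open Set Filter Real

noncomputable section

namespace Pool.Agent.RS

/-- gluing at `b` -/
def H3_gl (b : ℝ) (f₁ f₂ : ℝ → ℝ) : ℝ → ℝ := fun t => if t ≤ b then f₁ t else f₂ t

lemma H3_gl_le {b T : ℝ} (h : T ≤ b) (f₁ f₂ : ℝ → ℝ) : H3_gl b f₁ f₂ T = f₁ T := if_pos h

lemma H3_gl_gt {b T : ℝ} (h : b < T) (f₁ f₂ : ℝ → ℝ) : H3_gl b f₁ f₂ T = f₂ T :=
  if_neg (not_le.2 h)

lemma H3_deriv {b T : ℝ} {f₁ f₂ : ℝ → ℝ} {c : ℝ} (e : f₁ b = f₂ b)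
    (h1 : T ≤ b → HasDerivAt f₁ c T) (h2 : b ≤ T → HasDerivAt f₂ c T) :
    HasDerivAt (H3_gl b f₁ f₂) c T := by
  rcases lt_trichotomy T b with h | h | h
  · exact glue_hasDerivAt_left f₁ f₂ b c T h (h1 h.le)
  · subst h
    exact glue_hasDerivAt f₁ f₂ T c e (h1 le_rfl) (h2 le_rfl)
  · exact glue_hasDerivAt_right f₁ f₂ b c T h (h2 h.le)

lemma H3_glue {μ κ b : ℝ} {u₁ w₁ P₁ Φ₁ g₁ u₂ w₂ P₂ Φ₂ g₂ : ℝ → ℝ}
    (h1 : SolM μ κ (Iic b) u₁ w₁ P₁ Φ₁ g₁) (h2 : SolM μ κ (Ici b) u₂ w₂ P₂ Φ₂ g₂)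
    (eu : u₁ b = u₂ b) (ew : w₁ b = w₂ b) (eP : P₁ b = P₂ b) (eΦ : Φ₁ b = Φ₂ b)
    (eg : g₁ b = g₂ b) :
    SolM μ κ univ (H3_gl b u₁ u₂) (H3_gl b w₁ w₂) (H3_gl b P₁ P₂) (H3_gl b Φ₁ Φ₂)
      (H3_gl b g₁ g₂) := by
  -- values
  have key : ∀ T, (T ≤ b → H3_gl b u₁ u₂ T = u₁ T ∧ H3_gl b w₁ w₂ T = w₁ T ∧
      H3_gl b P₁ P₂ T = P₁ T ∧ H3_gl b Φ₁ Φ₂ T = Φ₁ T ∧ H3_gl b g₁ g₂ T = g₁ T) ∧
      (b ≤ T → H3_gl b u₁ u₂ T = u₂ T ∧ H3_gl b w₁ w₂ T = w₂ T ∧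
      H3_gl b P₁ P₂ T = P₂ T ∧ H3_gl b Φ₁ Φ₂ T = Φ₂ T ∧ H3_gl b g₁ g₂ T = g₂ T) := by
    intro T
    refine ⟨fun h => ⟨H3_gl_le h _ _, H3_gl_le h _ _, H3_gl_le h _ _, H3_gl_le h _ _,
      H3_gl_le h _ _⟩, fun h => ?_⟩
    rcases h.lt_or_eq with h | h
    · exact ⟨H3_gl_gt h _ _, H3_gl_gt h _ _, H3_gl_gt h _ _, H3_gl_gt h _ _, H3_gl_gt h _ _⟩
    · subst h
      refine ⟨?_, ?_, ?_, ?_, ?_⟩ <;> rw [H3_gl_le le_rfl] <;> assumption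
  refine ⟨?_, ?_, ?_, ?_, ?_, ?_, ?_⟩
  · intro T _
    rcases le_total T b with h | h
    · rw [((key T).1 h).2.2.1]; exact h1.pos T h
    · rw [((key T).2 h).2.2.1]; exact h2.pos T h
  · intro T _
    refine H3_deriv eu (fun h => ?_) (fun h => ?_)
    · rw [((key T).1 h).2.1]; exact h1.du T h
    · rw [((key T).2 h).2.1]; exact h2.du T h
  · intro T _
    refine H3_deriv ew (fun h => ?_) (fun h => ?_)
    · rw [((key T).1 h).1, ((key T).1 h).2.1, ((key T).1 h).2.2.1]; exact h1.dw T h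
    · rw [((key T).2 h).1, ((key T).2 h).2.1, ((key T).2 h).2.2.1]; exact h2.dw T h
  · intro T _
    refine H3_deriv eP (fun h => ?_) (fun h => ?_)
    · rw [((key T).1 h).1, ((key T).1 h).2.2.1, ((key T).1 h).2.2.2.1]; exact h1.dP T h
    · rw [((key T).2 h).1, ((key T).2 h).2.2.1, ((key T).2 h).2.2.2.1]; exact h2.dP T h
  · intro T _
    refine H3_deriv eΦ (fun h => ?_) (fun h => ?_)
    · rw [((key T).1 h).2.2.1, ((key T).1 h).2.2.2.1, ((key T).1 h).2.2.2.2]; exact h1.dΦ T h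
    · rw [((key T).2 h).2.2.1, ((key T).2 h).2.2.2.1, ((key T).2 h).2.2.2.2]; exact h2.dΦ T h
  · intro T _
    refine H3_deriv eg (fun h => ?_) (fun h => ?_)
    · rw [((key T).1 h).2.2.1, ((key T).1 h).2.2.2.1]; exact h1.dg T h
    · rw [((key T).2 h).2.2.1, ((key T).2 h).2.2.2.1]; exact h2.dg T h
  · intro T _
    rcases le_total T b with h | h
    · obtain ⟨a1, a2, a3, a4, a5⟩ := (key T).1 h
      rw [a1, a2, a3, a4, a5]; exact h1.con T h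
    · obtain ⟨a1, a2, a3, a4, a5⟩ := (key T).2 h
      rw [a1, a2, a3, a4, a5]; exact h2.con T h

lemma H3_sM {μ : ℝ} (hμ : 0 < μ) : sM μ (tZ μ) = 1 / 100 := by
  unfold sM tZ
  rw [mul_div_cancel₀ _ (by norm_num : (2 : ℝ) ≠ 0), Real.exp_log (by positivity)]
  field_simp

theorem propA (ε : ℝ) (hε : 0 < ε) : ∃ (μ κ X₀ : ℝ) (z : Fin 5 → ℝ → ℝ) (u w P Φ g : ℝ → ℝ) (Tc : ℝ),
    0 < μ ∧ κ ∈ Icc (1 / 2 : ℝ) 1 ∧ 0 < X₀ ∧ X₀ ≤ 1 / 100000 ∧ TipSol μ κ X₀ univ z u w P Φ g ∧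
    (∀ T, Tc ≤ T → P T ≤ 2) ∧ ∀ T, |scalR κ (sM μ T) (Φ T) (g T)| ≤ ε := by
  obtain ⟨U₁, V₁, U₂, V₂, C, hR⟩ := ref_exists
  obtain ⟨C', hT⟩ := track U₁ V₁ U₂ V₂ C hR
  obtain ⟨k1, hk1, hk1', hin⟩ := inner U₁ V₁ U₂ V₂ C C' hR hT
  obtain ⟨k2, Co, hk2, hCo, hout⟩ := outer U₁ V₁ U₂ V₂ C C' hR hT
  set k := min (min k1 k2) (min (ε / 4) (ε / (10 ^ 6 * Co))) with hk
  have hk0 : 0 < k := by rw [hk]; positivity
  have hkk1 : k ≤ k1 := (min_le_left _ _).trans (min_le_left _ _)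
  have hkk2 : k ≤ k2 := (min_le_left _ _).trans (min_le_right _ _)
  have hkε : k ≤ ε / 4 := (min_le_right _ _).trans (min_le_left _ _)
  have hkC : k ≤ ε / (10 ^ 6 * Co) := (min_le_right _ _).trans (min_le_right _ _)
  obtain ⟨ζ, hζ, hout⟩ := hout k hk0 hkk2
  obtain ⟨X₀, μa, μb, hX0, hX1, hμa, Z, u, w, P, Φ, g, hsol, hS⟩ := hin k hk0 hkk1 ζ hζ
  obtain ⟨⟨μ, κ⟩, hp, εu, εq, v, hE, hεq, hv0, hvd, hvi⟩ := hout _ _ _ _ _ _ _ _ hS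
  have hμm : μ ∈ Icc μa μb := hp.1
  have hκm : κ ∈ Icc (5 / 6 - k) (5 / 6 + k) := hp.2
  have hμ : 0 < μ := lt_of_lt_of_le hμa hμm.1
  obtain ⟨hlog, hTS, hsc⟩ := hsol μ hμm κ hκm
  have hsZ := H3_sM hμ
  have hb : tZ μ ∈ Iic (tZ μ) := mem_Iic.2 le_rfl
  obtain ⟨hm1, hm2, hm3⟩ := outer_match μ κ εu εq hμ hE v hvi
  have hcon := hTS.sol.con (tZ μ) hb
  rw [hsZ] at hcon
  obtain ⟨mu, mw, mP, mΦ, mg⟩ := hm1 (u μ κ (tZ μ)) (w μ κ (tZ μ)) (P μ κ (tZ μ))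
    (Φ μ κ (tZ μ)) (g μ κ (tZ μ)) (hTS.sol.pos _ hb) hcon hv0
  have hM := outer_solM μ κ εu εq hμ hE v hvd hvi
  have hG := H3_glue hTS.sol hM mu.symm mw.symm mP.symm mΦ.symm mg.symm
  refine ⟨μ, κ, X₀, Z μ κ, _, _, _, _, _, tZ μ + 1, hμ, ⟨?_, ?_⟩, hX0, hX1,
    ⟨hG, hTS.tip, ?_, ?_, ?_, ?_, ?_⟩, ?_, ?_⟩
  · have := hκm.1; linarith
  · have := hκm.2; linarith
  · intro T h; rw [H3_gl_le (h.trans hlog).le]; exact hTS.eu T h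
  · intro T h; rw [H3_gl_le (h.trans hlog).le]; exact hTS.ew T h
  · intro T h; rw [H3_gl_le (h.trans hlog).le]; exact hTS.eP T h
  · intro T h; rw [H3_gl_le (h.trans hlog).le]; exact hTS.eΦ T h
  · intro T h; rw [H3_gl_le (h.trans hlog).le]; exact hTS.eg T h
  · intro T h
    rw [H3_gl_gt (by linarith)]
    exact hm2 T (by linarith)
  · intro T
    rcases le_or_gt T (tZ μ) with h | h
    · rw [H3_gl_le h, H3_gl_le h]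
      have := hsc T h
      linarith
    · rw [H3_gl_gt h, H3_gl_gt h]
      have h1 := hm3 T h.le
      have h2 : 10 ^ 6 * εq ≤ ε := by
        rw [le_div_iff₀ (by positivity)] at hkC
        nlinarith
      linarith

end Pool.Agent.RS
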