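import Mathlib

/-!
# Ricci shrinkers in one chart, in classical index notation (MP_35abc2_gt)

All objects are the classical coordinate expressions on an open set `Ω ⊆ ℝⁿ`, i.e. on a manifold
covered by a single chart. The metric is the matrix function `x ↦ (g_{ij}(x))`.
-/

open scoped ContDiff Topology
open Set Filter

noncomputable section

namespace Pool.Agent.RSC

variable {n : ℕ}

/-- The partial derivative `∂F/∂x_i` at the point `x`. -/
def pd (i : Fin n) (F : (Fin n → ℝ) → ℝ) (x : Fin n → ℝ) : ℝ :=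
  fderiv ℝ F x (Pi.single i 1)

/-- The Christoffel symbol `Γ^k_{ij} = ½ ∑_l g^{kl} (∂_i g_{jl} + ∂_j g_{il} - ∂_l g_{ij})`. -/
def chr (g : (Fin n → ℝ) → Matrix (Fin n) (Fin n) ℝ) (k i j : Fin n) (x : Fin n → ℝ) : ℝ :=
  (1 / 2) * ∑ l, (g x)⁻¹ k l * (pd i (fun z => g z j l) x + pd j (fun z => g z i l) x
    - pd l (fun z => g z i j) x)

/-- The component `R^l_{kij}` of the Riemann curvature, `R(∂_i,∂_j)∂_k = ∑_l R^l_{kij} ∂_l`:
`R^l_{kij} = ∂_i Γ^l_{jk} - ∂_j Γ^l_{ik} + ∑_m (Γ^l_{im} Γ^m_{jk} - Γ^l_{jm} Γ^m_{ik})`. -/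
def riem (g : (Fin n → ℝ) → Matrix (Fin n) (Fin n) ℝ) (l k i j : Fin n) (x : Fin n → ℝ) : ℝ :=
  pd i (chr g l j k) x - pd j (chr g l i k) x
    + ∑ m, (chr g l i m x * chr g m j k x - chr g l j m x * chr g m i k x)

/-- The Ricci tensor `Ric_{jk} = ∑_i R^i_{kij}`, the trace of `u ↦ R(u,∂_j)∂_k`. -/
def ric (g : (Fin n → ℝ) → Matrix (Fin n) (Fin n) ℝ) (j k : Fin n) (x : Fin n → ℝ) : ℝ :=
  ∑ i, riem g i k i j x

/-- The scalar curvature `R = ∑_{j,k} g^{jk} Ric_{jk}`. -/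
def scal (g : (Fin n → ℝ) → Matrix (Fin n) (Fin n) ℝ) (x : Fin n → ℝ) : ℝ :=
  ∑ j, ∑ k, (g x)⁻¹ j k * ric g j k x

/-- The Hessian (second covariant derivative) `∇²_{ij} f = ∂_i ∂_j f - ∑_k Γ^k_{ij} ∂_k f`. -/
def hess (g : (Fin n → ℝ) → Matrix (Fin n) (Fin n) ℝ) (f : (Fin n → ℝ) → ℝ) (i j : Fin n)
    (x : Fin n → ℝ) : ℝ :=
  pd i (pd j f) x - ∑ k, chr g k i j x * pd k f x

/-- The `i`-th component of the velocity of the curve `c : [0,1) → ℝⁿ` at time `t`. -/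
def vel (c : ℝ → Fin n → ℝ) (i : Fin n) (t : ℝ) : ℝ :=
  derivWithin (fun s => c s i) (Ico 0 1) t

/-- The length of the velocity of the curve `c : [0,1) → ℝⁿ` at time `t` in the metric `g`. -/
def speed (g : (Fin n → ℝ) → Matrix (Fin n) (Fin n) ℝ) (c : ℝ → Fin n → ℝ) (t : ℝ) : ℝ :=
  Real.sqrt (∑ i, ∑ j, g (c t) i j * vel c i t * vel c j t)

/-- Completeness of the Riemannian metric `g` on `Ω`: every `C¹` curve `c : [0,1) → Ω` of finite
length converges to a point of `Ω`. (By the Hopf–Rinow theorem this is equivalent to completeness of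
`Ω` for the Riemannian distance, and to geodesic completeness.) -/
def IsCompleteMetric (Ω : Set (Fin n → ℝ)) (g : (Fin n → ℝ) → Matrix (Fin n) (Fin n) ℝ) : Prop :=
  ∀ c : ℝ → Fin n → ℝ, ContDiffOn ℝ 1 c (Ico 0 1) → (∀ t ∈ Ico (0 : ℝ) 1, c t ∈ Ω) →
    (∃ L : ℝ, ∀ b ∈ Ico (0 : ℝ) 1, ∫ t in (0 : ℝ)..b, speed g c t ≤ L) →
    ∃ q ∈ Ω, Tendsto c (𝓝[<] 1) (𝓝 q)

/-- `(Ω, g, f)` is an `n`-dimensional Ricci shrinker (complete gradient shrinking Ricci soliton):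
`Ω` is a connected open subset of `ℝⁿ` (a manifold with one chart), `g` is a complete smooth
Riemannian metric on it and `Ric_g + ∇²f = ½ g` with `f` smooth. -/
structure IsShrinker (Ω : Set (Fin n → ℝ)) (g : (Fin n → ℝ) → Matrix (Fin n) (Fin n) ℝ)
    (f : (Fin n → ℝ) → ℝ) : Prop where
  isOpen : IsOpen Ω
  connected : IsConnected Ω
  smooth : ∀ i j, ContDiffOn ℝ ∞ (fun x => g x i j) Ω
  symm : ∀ x ∈ Ω, ∀ i j, g x i j = g x j i
  pos : ∀ x ∈ Ω, ∀ v : Fin n → ℝ, v ≠ 0 → 0 < ∑ i, ∑ j, g x i j * v i * v j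
  complete : IsCompleteMetric Ω g
  smooth_potential : ContDiffOn ℝ ∞ f Ω
  soliton : ∀ x ∈ Ω, ∀ i j, ric g i j x + hess g f i j x = (1 / 2) * g x i j

/-- The metric is not flat: its Riemann tensor does not vanish identically on `Ω`. -/
def NonFlat (Ω : Set (Fin n → ℝ)) (g : (Fin n → ℝ) → Matrix (Fin n) (Fin n) ℝ) : Prop :=
  ∃ x ∈ Ω, ∃ l k i j, riem g l k i j x ≠ 0

end Pool.Agent.RSC
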