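import Pool.Agent.Lib.MP_35abc2_gt.H3_PropA
import Pool.Agent.Lib.MP_35abc2_gt.G1a_Split
import Pool.Agent.Lib.MP_35abc2_gt.G6b_All
import Pool.Agent.Lib.MP_35abc2_gt.G7_Complete
import Pool.Agent.Lib.MP_35abc2_gt.G8_NonFlat
import Pool.Agent.Lib.MP_35abc2_gt.G9b_Profile
import Pool.Agent.Lib.MP_35abc2_gt.G9c_Radial

/-! # Final assembly (MP_35abc2_gt) -/

open scoped ContDiff Topology
open Set Filter Real

noncomputable section

namespace Pool.Agent.RS

/-- In every dimension `n ≥ 6` there are non-flat Ricci shrinkers whose scalar curvature is arbitrarily small everywhere. -/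
theorem main (n : ℕ) (hn : 6 ≤ n) (ε : ℝ) (hε : 0 < ε) :
    ∃ (Ω : Set (Euc n)) (G : Euc n → Form2 (Euc n)) (f : Euc n → ℝ),
      IsShrinker Ω G f ∧ NonFlat Ω G ∧ ∀ y ∈ Ω, |scal G y| ≤ ε := by
  obtain ⟨S⟩ := split_exists hn
  obtain ⟨μ, κ, X₀, z, u, w, P, Φ, g, Tc, hμ, hκ, hX, hX', hsol, hTc, hR⟩ := propA ε hε
  have hp := pr_profile μ κ X₀ hμ hX hX' z u w P Φ g hsol Tc hTc
  obtain ⟨Sf, Λ, B, H, ℓ, a1, a2, h1, ℓ', a1', a2', h1', hr⟩ :=
    pr_radial μ κ X₀ hμ hX hX' z u w P Φ g hsol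
  obtain ⟨hs1, hs2⟩ := soliton_all S hp hr ε (fun τ => hR (τ / 2))
  obtain ⟨ho, hsm, hsf⟩ := gMet_smooth S hp
  exact ⟨Om S, gMet S _ _ _, fPot S _,
    { isOpen := ho
      connected := S.conn
      smooth := hsm
      symm := fun y _ v w => gMet_symm S _ _ _ y v w
      pos := fun y hy v hv => gMet_pos S hp y hy v hv
      complete := gMet_complete S hp
      smooth_potential := hsf
      soliton := hs1 }, gMet_nonflat S hp hs1, hs2⟩

end Pool.Agent.RS
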